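import Pool.Agent.Lib.MP_21a058_co.Odd.Def

/-! Killable sets of colourings of the root bundle, with the window `l ≤ red ≤ u` at every cut
(`u + l' = 2 K`; the slack is `u - l`). -/

set_option autoImplicit false

namespace Pool.Agent.Lib.MP_21a058_co.Slack3

open Pool.Agent.Lib.MP_21a058_co.Odd (red red_sum red_equiv red_le)

/-- `Kill K l u I A`: some splitting structure over the root bundle `I` has no colouring with
`l ≤ red ≤ u` at all the cuts considered whose restriction to `I` lies in `A`. -/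
inductive Kill (K l u : ℕ) : (I : Type) → Set (I → Bool) → Prop
  | leaf (I : Type) (A : Set (I → Bool)) (h : ∀ x ∈ A, red x < l ∨ u < red x) : Kill K l u I A
  | node (I J1 J2 : Type) (h1 : Nat.card J1 = K) (h2 : Nat.card J2 = K) (e : I ≃ J1 ⊕ J2)
      (A1 : Set (J1 ⊕ Fin K → Bool)) (A2 : Set (J2 ⊕ Fin K → Bool)) (A : Set (I → Bool))
      (k1 : Kill K l u (J1 ⊕ Fin K) A1) (k2 : Kill K l u (J2 ⊕ Fin K) A2)
      (h : ∀ x ∈ A, (red x < l ∨ u < red x) ∨ ∀ n : Fin K → Bool,
        Sum.elim (fun j => x (e.symm (Sum.inl j))) n ∈ A1 ∨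
        Sum.elim (fun j => x (e.symm (Sum.inr j))) n ∈ A2) : Kill K l u I A

/-- `p` red edges among `L` edges which stay alive are refutable. -/
def W (K l u L p : ℕ) : Prop :=
  ∀ (F R : Type) [Finite F] [Finite R], Nat.card F = L → Nat.card F + Nat.card R = 2 * K →
    ∀ T : Set (F → Bool), Kill K l u (F ⊕ R) {x | (fun f => x (Sum.inl f)) ∈ T} →
      Kill K l u (F ⊕ R) {x | (fun f => x (Sum.inl f)) ∈ T ∨ red (fun f => x (Sum.inl f)) = p}

/-! ### transport -/

theorem Kill.mono {K l u : ℕ} {I : Type} {A A' : Set (I → Bool)} (h : Kill K l u I A)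
    (hA : A' ⊆ A) : Kill K l u I A' := by
  cases h with
  | leaf _ _ h => exact Kill.leaf I A' fun x hx => h x (hA hx)
  | node _ J1 J2 h1 h2 e A1 A2 _ k1 k2 h =>
    exact Kill.node I J1 J2 h1 h2 e A1 A2 A' k1 k2 fun x hx => h x (hA hx)

theorem Kill.transport {K l u : ℕ} {I J : Type} {A : Set (I → Bool)} (h : Kill K l u I A)
    (e : I ≃ J) : Kill K l u J {y | (fun i => y (e i)) ∈ A} := by
  cases h with
  | leaf _ _ h =>
    refine Kill.leaf J _ fun y hy => ?_
    have := h _ hy
    rwa [red_equiv e y] at this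
  | node _ J1 J2 h1 h2 e' A1 A2 _ k1 k2 h =>
    refine Kill.node J J1 J2 h1 h2 (e.symm.trans e') A1 A2 _ k1 k2 fun y hy => ?_
    have := h _ hy
    rw [red_equiv e y] at this
    exact this

theorem Kill.empty (K l u : ℕ) (I : Type) : Kill K l u I ∅ :=
  Kill.leaf I ∅ fun x hx => absurd hx (Set.notMem_empty x)

theorem Kill.addBase {K l u : ℕ} {I : Type} {A : Set (I → Bool)} (h : Kill K l u I A) :
    Kill K l u I {x | x ∈ A ∨ (red x < l ∨ u < red x)} := by
  cases h with
  | leaf _ _ h =>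
    refine Kill.leaf I _ fun x hx => ?_
    rcases hx with hx | hx
    · exact h x hx
    · exact hx
  | node _ J1 J2 h1 h2 e A1 A2 _ k1 k2 h =>
    refine Kill.node I J1 J2 h1 h2 e A1 A2 _ k1 k2 fun x hx => ?_
    rcases hx with hx | hx
    · exact h x hx
    · exact Or.inl hx

end Pool.Agent.Lib.MP_21a058_co.Slack3
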