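import Pool.Agent.Lib.MP_21a058_co.Odd.Gad
import Pool.Agent.Lib.MP_21a058_co.Slack3.Def

/-! Soundness: a splitting tree which excludes all colourings with `l ≤ red ≤ u` at the cuts is a
`2 K`-edge-connected multigraph without the decomposition, `u + l' = 2 K`. -/

set_option autoImplicit false

namespace Pool.Agent.Lib.MP_21a058_co.Slack3

open Finset Pool.Agent.Lib.MP_21a058_co
open Pool.Agent.Lib.MP_21a058_co.Odd (red red_sum red_equiv red_le cn cn_sum cn_equiv cn_le_card
  cn_true cn_not cn_mono red_eq cutw_eq)

/-- A gadget with the open edges `I`: `loc i` is the vertex of the edge `i`, `a` and `b` are the ends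
of the inner edges. -/
structure Gadget (l l' : ℕ) (I : Type) [Fintype I] (A : Set (I → Bool)) : Type 1 where
  V : Type
  E : Type
  fV : Fintype V
  fE : Fintype E
  loc : I → V
  a : E → V
  b : E → V
  ne : ∀ e, a e ≠ b e
  conn : ∀ (S : V → Bool) (o : I → Bool) (t : Bool), ∃ s : Bool,
    cn (fun i => o i ^^ s) ≤ cn (fun e => S (a e) ^^ S (b e)) + cn (fun i => S (loc i) ^^ o i) ∧
    ((∀ i, o i = t) → (∀ v, S v = t) ∨ s ≠ t)
  bad : ∀ (x : I → Bool) (y : E → Bool), x ∈ A → ∃ S : V → Bool, (∃ v, S v = true) ∧
    (cn (fun e => (S (a e) ^^ S (b e)) && y e) + cn (fun i => S (loc i) && x i) < l ∨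
      cn (fun e => (S (a e) ^^ S (b e)) && !y e) + cn (fun i => S (loc i) && !x i) < l')

theorem leafG {K l u l' : ℕ} (hl : u + l' = 2 * K) {I : Type} [Fintype I]
    (hI : Fintype.card I = 2 * K) {A : Set (I → Bool)}
    (h : ∀ x ∈ A, red x < l ∨ u < red x) : Nonempty (Gadget l l' I A) := by
  refine ⟨⟨Unit, Empty, inferInstance, inferInstance, fun _ => (), fun e => e.elim, fun e => e.elim,
    fun e => e.elim, fun S o t => ⟨S (), ?_, fun _ => ?_⟩, fun x y hx => ⟨fun _ => true, ⟨(), rfl⟩, ?_⟩⟩⟩
  · refine (cn_mono _ _ fun i hi => ?_).trans (Nat.le_add_left _ _)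
    rw [Bool.xor_comm]
    exact hi
  · by_cases h1 : S () = t
    · exact Or.inl fun _ => h1
    · exact Or.inr h1
  · have h1 := h x hx
    rw [red_eq] at h1
    have h2 := cn_not x
    have e1 : cn (fun i => true && x i) = cn x := rfl
    have e2 : cn (fun i => true && !x i) = cn (fun i => !x i) := rfl
    have e3 : ∀ p : Empty → Bool, cn p = 0 := fun p => by
      unfold cn
      simp
    show cn _ + cn (fun i => true && x i) < l ∨ cn _ + cn (fun i => true && !x i) < l'
    rw [e1, e2, e3, e3]
    omega

/-- The two gadgets joined by `K` edges. -/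
theorem nodeG {K l u l' : ℕ} (hl : u + l' = 2 * K) {I J1 J2 : Type} [Fintype I] [Fintype J1]
    [Fintype J2] (h1 : Fintype.card J1 = K) (h2 : Fintype.card J2 = K) (hI : Fintype.card I = 2 * K)
    (hK : 1 ≤ K) (e : I ≃ J1 ⊕ J2) {A1 : Set (J1 ⊕ Fin K → Bool)} {A2 : Set (J2 ⊕ Fin K → Bool)}
    {A : Set (I → Bool)} (G1 : Gadget l l' (J1 ⊕ Fin K) A1) (G2 : Gadget l l' (J2 ⊕ Fin K) A2)
    (h : ∀ x ∈ A, (red x < l ∨ u < red x) ∨ ∀ n : Fin K → Bool,
        Sum.elim (fun j => x (e.symm (Sum.inl j))) n ∈ A1 ∨
        Sum.elim (fun j => x (e.symm (Sum.inr j))) n ∈ A2) : Nonempty (Gadget l l' I A) := by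
  obtain ⟨V1, E1, fV1, fE1, loc1, a1, b1, ne1, c1, d1⟩ := G1
  obtain ⟨V2, E2, fV2, fE2, loc2, a2, b2, ne2, c2, d2⟩ := G2
  let loc0 : J1 ⊕ J2 → V1 ⊕ V2 :=
    Sum.elim (fun j => Sum.inl (loc1 (Sum.inl j))) (fun j => Sum.inr (loc2 (Sum.inl j)))
  let a : Fin K ⊕ (E1 ⊕ E2) → V1 ⊕ V2 := Sum.elim (fun n => Sum.inl (loc1 (Sum.inr n)))
    (Sum.elim (fun f => Sum.inl (a1 f)) (fun f => Sum.inr (a2 f)))
  let b : Fin K ⊕ (E1 ⊕ E2) → V1 ⊕ V2 := Sum.elim (fun n => Sum.inr (loc2 (Sum.inr n)))
    (Sum.elim (fun f => Sum.inl (b1 f)) (fun f => Sum.inr (b2 f)))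
  refine ⟨⟨V1 ⊕ V2, Fin K ⊕ (E1 ⊕ E2), inferInstance, inferInstance, fun i => loc0 (e i), a, b,
    ?_, ?_, ?_⟩⟩
  · rintro (n | f | f)
    · exact Sum.inl_ne_inr
    · exact fun hh => ne1 f (Sum.inl_injective hh)
    · exact fun hh => ne2 f (Sum.inr_injective hh)
  · intro S o t
    -- the counts
    have q1 : cn (fun i => S (loc0 (e i)) ^^ o i) =
        cn (fun j => S (Sum.inl (loc1 (Sum.inl j))) ^^ o (e.symm (Sum.inl j))) +
        cn (fun j => S (Sum.inr (loc2 (Sum.inl j))) ^^ o (e.symm (Sum.inr j))) := by
      have := cn_equiv e (fun k => S (loc0 k) ^^ o (e.symm k))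
      simp only [Equiv.symm_apply_apply] at this
      rw [this, cn_sum]
      rfl
    have q2 : ∀ s : Bool, cn (fun i => o i ^^ s) =
        cn (fun j => o (e.symm (Sum.inl j)) ^^ s) + cn (fun j => o (e.symm (Sum.inr j)) ^^ s) := by
      intro s
      have := cn_equiv e (fun k => o (e.symm k) ^^ s)
      simp only [Equiv.symm_apply_apply] at this
      rw [this, cn_sum]
    have q3 : cn (fun f => S (a f) ^^ S (b f)) =
        cn (fun n => S (Sum.inl (loc1 (Sum.inr n))) ^^ S (Sum.inr (loc2 (Sum.inr n)))) +
        (cn (fun f => S (Sum.inl (a1 f)) ^^ S (Sum.inl (b1 f))) +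
        cn (fun f => S (Sum.inr (a2 f)) ^^ S (Sum.inr (b2 f)))) := by
      rw [cn_sum, cn_sum]
      rfl
    obtain ⟨s1, r1, r2⟩ := c1 (fun v => S (Sum.inl v))
      (Sum.elim (fun j => o (e.symm (Sum.inl j))) (fun n => S (Sum.inr (loc2 (Sum.inr n))))) t
    obtain ⟨s2, r3, r4⟩ := c2 (fun v => S (Sum.inr v))
      (Sum.elim (fun j => o (e.symm (Sum.inr j))) (fun _ => s1)) t
    rw [cn_sum, cn_sum] at r1 r3
    simp only [Sum.elim_inl, Sum.elim_inr] at r1 r3
    rw [q1, q3]
    have hb1 := cn_le_card (fun j => o (e.symm (Sum.inl j)) ^^ s2)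
    have hb2 := cn_le_card (fun j => o (e.symm (Sum.inr j)) ^^ s1)
    by_cases hs : s1 = s2
    · subst hs
      refine ⟨s1, ?_, fun ho => ?_⟩
      · rw [q2]
        omega
      · by_cases ht : s1 = t
        · left
          have h4 := r4 (by
            rintro (j | n)
            · exact ho _
            · exact ht)
          have h5 : ∀ v, S (Sum.inr v) = t := by
            rcases h4 with h4 | h4
            · exact h4
            · exact absurd ht h4
          have h6 := r2 (by
            rintro (j | n)
            · exact ho _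
            · exact h5 _)
          have h7 : ∀ v, S (Sum.inl v) = t := by
            rcases h6 with h6 | h6
            · exact h6
            · exact absurd ht h6
          rintro (v | v)
          · exact h7 v
          · exact h5 v
        · exact Or.inr ht
    · have hk : cn (fun _ : Fin K => s1 ^^ s2) = K := by
        rw [cn_true _ (fun _ => by
          show (s1 ^^ s2) = true
          cases s1 <;> cases s2 <;> simp_all), Fintype.card_fin]
      by_cases ht : s1 = t
      · refine ⟨s2, ?_, fun _ => Or.inr fun h8 => hs (ht.trans h8.symm)⟩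
        rw [q2]
        omega
      · refine ⟨s1, ?_, fun _ => Or.inr ht⟩
        rw [q2]
        omega
  · intro x y hx
    have hIe : Nonempty I := Fintype.card_pos_iff.1 (by omega)
    rcases h x hx with h3 | h3
    · refine ⟨fun _ => true, ?_, ?_⟩
      · obtain ⟨i⟩ := hIe
        exact ⟨loc0 (e i), rfl⟩
      · rw [red_eq] at h3
        have h4 := cn_not x
        have e1 : cn (fun i => true && x i) = cn x := rfl
        have e2 : cn (fun i => true && !x i) = cn (fun i => !x i) := rfl
        have e3 : ∀ z : Fin K ⊕ (E1 ⊕ E2) → Bool, cn (fun f => (true ^^ true) && z f) = 0 := by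
          intro z
          unfold cn
          apply sum_eq_zero
          intro f _
          rw [if_neg]
          simp
        show cn (fun f => (true ^^ true) && y f) + cn (fun i => true && x i) < l ∨
          cn (fun f => (true ^^ true) && !y f) + cn (fun i => true && !x i) < l'
        rw [e1, e2, e3, e3]
        omega
    · rcases h3 (fun n => y (Sum.inl n)) with h4 | h4
      · obtain ⟨S, ⟨v, hv⟩, h5⟩ := d1 _ (fun f => y (Sum.inr (Sum.inl f))) h4
        refine ⟨Sum.elim S (fun _ => false), ⟨Sum.inl v, hv⟩, ?_⟩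
        have q1 : ∀ z : I → Bool, cn (fun i => Sum.elim S (fun _ => false) (loc0 (e i)) && z i) =
            cn (fun j => S (loc1 (Sum.inl j)) && z (e.symm (Sum.inl j))) := by
          intro z
          have := cn_equiv e (fun k => Sum.elim S (fun _ => false) (loc0 k) && z (e.symm k))
          simp only [Equiv.symm_apply_apply] at this
          rw [this, cn_sum]
          have h6 : cn (fun j => Sum.elim S (fun _ => false) (loc0 (Sum.inr j)) &&
              z (e.symm (Sum.inr j))) = 0 := by
            unfold cn
            apply sum_eq_zero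
            intro f _
            rw [if_neg]
            simp [loc0]
          rw [h6]
          rfl
        have q3 : ∀ z : Fin K ⊕ (E1 ⊕ E2) → Bool,
            cn (fun f => (Sum.elim S (fun _ => false) (a f) ^^ Sum.elim S (fun _ => false) (b f)) &&
              z f) = cn (fun n => S (loc1 (Sum.inr n)) && z (Sum.inl n)) +
            cn (fun f => (S (a1 f) ^^ S (b1 f)) && z (Sum.inr (Sum.inl f))) := by
          intro z
          rw [cn_sum, cn_sum]
          have h6 : cn (fun f => (Sum.elim S (fun _ => false) (a (Sum.inr (Sum.inr f))) ^^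
              Sum.elim S (fun _ => false) (b (Sum.inr (Sum.inr f)))) &&
              z (Sum.inr (Sum.inr f))) = 0 := by
            unfold cn
            apply sum_eq_zero
            intro f _
            rw [if_neg]
            simp [a, b]
          rw [h6, Nat.add_zero]
          congr 1
          unfold cn
          refine sum_congr rfl fun n _ => ?_
          simp [a, b]
        rw [q1, q1, q3, q3 (fun f => !y f)]
        rw [cn_sum, cn_sum] at h5
        simp only [Sum.elim_inl, Sum.elim_inr] at h5
        omega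
      · obtain ⟨S, ⟨v, hv⟩, h5⟩ := d2 _ (fun f => y (Sum.inr (Sum.inr f))) h4
        refine ⟨Sum.elim (fun _ => false) S, ⟨Sum.inr v, hv⟩, ?_⟩
        have q1 : ∀ z : I → Bool, cn (fun i => Sum.elim (fun _ => false) S (loc0 (e i)) && z i) =
            cn (fun j => S (loc2 (Sum.inl j)) && z (e.symm (Sum.inr j))) := by
          intro z
          have := cn_equiv e (fun k => Sum.elim (fun _ => false) S (loc0 k) && z (e.symm k))
          simp only [Equiv.symm_apply_apply] at this
          rw [this, cn_sum]
          have h6 : cn (fun j => Sum.elim (fun _ => false) S (loc0 (Sum.inl j)) &&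
              z (e.symm (Sum.inl j))) = 0 := by
            unfold cn
            apply sum_eq_zero
            intro f _
            rw [if_neg]
            simp [loc0]
          rw [h6, Nat.zero_add]
          rfl
        have q3 : ∀ z : Fin K ⊕ (E1 ⊕ E2) → Bool,
            cn (fun f => (Sum.elim (fun _ => false) S (a f) ^^ Sum.elim (fun _ => false) S (b f)) &&
              z f) = cn (fun n => S (loc2 (Sum.inr n)) && z (Sum.inl n)) +
            cn (fun f => (S (a2 f) ^^ S (b2 f)) && z (Sum.inr (Sum.inr f))) := by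
          intro z
          rw [cn_sum, cn_sum]
          have h6 : cn (fun f => (Sum.elim (fun _ => false) S (a (Sum.inr (Sum.inl f))) ^^
              Sum.elim (fun _ => false) S (b (Sum.inr (Sum.inl f)))) &&
              z (Sum.inr (Sum.inl f))) = 0 := by
            unfold cn
            apply sum_eq_zero
            intro f _
            rw [if_neg]
            simp [a, b]
          rw [h6, Nat.zero_add]
          congr 1
          unfold cn
          refine sum_congr rfl fun n _ => ?_
          simp [a, b]
        rw [q1, q1, q3, q3 (fun f => !y f)]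
        rw [cn_sum, cn_sum] at h5
        simp only [Sum.elim_inl, Sum.elim_inr] at h5
        omega

/-- **Soundness.** A killable set of colourings has a gadget. -/
theorem exists_gadget {K l u l' : ℕ} (hK : 1 ≤ K) (hl : u + l' = 2 * K) {I : Type}
    {A : Set (I → Bool)} (h : Kill K l u I A) :
    ∀ [Fintype I], Fintype.card I = 2 * K → Nonempty (Gadget l l' I A) := by
  induction h with
  | leaf I A h =>
    intro _ hI
    exact leafG hl hI h
  | node I J1 J2 h1 h2 e A1 A2 A k1 k2 h ih1 ih2 =>
    intro _ hI
    have f1 : Finite J1 := Nat.finite_of_card_ne_zero (by omega)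
    have f2 : Finite J2 := Nat.finite_of_card_ne_zero (by omega)
    let _ := Fintype.ofFinite J1
    let _ := Fintype.ofFinite J2
    have g1 : Fintype.card J1 = K := by rw [← Nat.card_eq_fintype_card, h1]
    have g2 : Fintype.card J2 = K := by rw [← Nat.card_eq_fintype_card, h2]
    obtain ⟨G1⟩ := ih1 (by rw [Fintype.card_sum, Fintype.card_fin, g1]; omega)
    obtain ⟨G2⟩ := ih2 (by rw [Fintype.card_sum, Fintype.card_fin, g2]; omega)
    exact nodeG hl g1 g2 hI hK e G1 G2 h

/-- **A splitting tree which excludes all colourings refutes the decomposition.** -/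
theorem Kill.false_of_univ {K l u l' r : ℕ} (hK : 1 ≤ K) (hl : u + l' = 2 * K) {I : Type}
    (h : Kill K l u I Set.univ) (hI : Nat.card I = 2 * K) (ks : Fin r → ℕ) (J : Finset (Fin r))
    (hJ : ∑ i ∈ J, ks i = l) (hJ' : ∑ i ∈ Jᶜ, ks i = l') : ¬ Arrow (2 * K) ks := by
  classical
  intro hA
  have f1 : Finite I := Nat.finite_of_card_ne_zero (by omega)
  let _ := Fintype.ofFinite I
  have g1 : Fintype.card I = 2 * K := by rw [← Nat.card_eq_fintype_card, hI]
  obtain ⟨V, E, fV, fE, loc, a, b, ne, c, d⟩ := exists_gadget hK hl h g1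
  let a' : E ⊕ I → Option V := Sum.elim (fun e => some (a e)) (fun _ => none)
  let b' : E ⊕ I → Option V := Sum.elim (fun e => some (b e)) (fun i => some (loc i))
  have hne : ∀ e, a' e ≠ b' e := by
    rintro (e | i)
    · exact fun hh => ne e (Option.some_injective _ hh)
    · exact fun hh => Option.some_ne_none _ hh.symm
  have hcut : ∀ S : Option V → Bool, NC S → 2 * K ≤ cutw a' b' (fun _ => 1) S := by
    intro S hS
    rw [cutw_eq a' b' _ (fun _ => le_rfl), cn_sum]
    obtain ⟨s, h1, h2⟩ := c (fun v => S (some v)) (fun _ => S none) (S none)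
    have h3 : s ≠ S none := by
      rcases h2 (fun _ => rfl) with h4 | h4
      · exfalso
        obtain ⟨u, v, huv⟩ := hS
        apply huv
        have h5 : ∀ w : Option V, S w = S none := by
          intro w
          cases w with
          | none => rfl
          | some w => exact h4 w
        rw [h5 u, h5 v]
      · exact h4
    have h4 : cn (fun _ : I => S none ^^ s) = 2 * K := by
      rw [cn_true _ (fun _ => by
        show (S none ^^ s) = true
        cases h6 : S none <;> cases h7 : s <;> simp_all), g1]
    rw [h4] at h1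
    refine h1.trans (le_of_eq ?_)
    congr 1
    · unfold cn
      refine sum_congr rfl fun e _ => ?_
      simp [a', b']
    · unfold cn
      refine sum_congr rfl fun i _ => ?_
      show (if (S (some (loc i)) ^^ S none) = true then 1 else 0) =
        if ((S none ^^ S (some (loc i))) && decide (1 = 1)) = true then 1 else 0
      rw [Bool.xor_comm]
      simp
  obtain ⟨x, hx, hS⟩ := arrow_cut hA J (Option V) (E ⊕ I) a' b' hne hcut
  obtain ⟨S, ⟨v, hv⟩, h5⟩ := d (fun i => decide (x (Sum.inr i) = 1))
    (fun e => decide (x (Sum.inl e) = 1)) (Set.mem_univ _)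
  have hNC : NC (fun w : Option V => w.elim false S) := ⟨none, some v, by simp [hv]⟩
  obtain ⟨h6, h7⟩ := hS _ hNC
  rw [hJ, cutw_eq a' b' x hx, cn_sum] at h6
  rw [hJ', cutw_eq a' b' _ (fun e => Nat.sub_le 1 (x e)), cn_sum] at h7
  have e1 : cn (fun e => (S (a e) ^^ S (b e)) && decide (x (Sum.inl e) = 1)) =
      cn (fun i => ((a' (Sum.inl i)).elim false S ^^ (b' (Sum.inl i)).elim false S) &&
        decide (x (Sum.inl i) = 1)) := rfl
  have e2 : cn (fun i => S (loc i) && decide (x (Sum.inr i) = 1)) =
      cn (fun j => ((a' (Sum.inr j)).elim false S ^^ (b' (Sum.inr j)).elim false S) &&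
        decide (x (Sum.inr j) = 1)) := by
    unfold cn
    refine sum_congr rfl fun i _ => ?_
    simp [a', b']
  have e3 : cn (fun e => (S (a e) ^^ S (b e)) && !decide (x (Sum.inl e) = 1)) =
      cn (fun i => ((a' (Sum.inl i)).elim false S ^^ (b' (Sum.inl i)).elim false S) &&
        decide (1 - x (Sum.inl i) = 1)) := by
    unfold cn
    refine sum_congr rfl fun e _ => ?_
    have h8 := hx (Sum.inl e)
    rcases Nat.lt_or_ge (x (Sum.inl e)) 1 with h9 | h9
    · have h10 : x (Sum.inl e) = 0 := by omega
      simp [a', b', h10]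
    · have h10 : x (Sum.inl e) = 1 := by omega
      simp [a', b', h10]
  have e4 : cn (fun i => S (loc i) && !decide (x (Sum.inr i) = 1)) =
      cn (fun j => ((a' (Sum.inr j)).elim false S ^^ (b' (Sum.inr j)).elim false S) &&
        decide (1 - x (Sum.inr j) = 1)) := by
    unfold cn
    refine sum_congr rfl fun i _ => ?_
    have h8 := hx (Sum.inr i)
    rcases Nat.lt_or_ge (x (Sum.inr i)) 1 with h9 | h9
    · have h10 : x (Sum.inr i) = 0 := by omega
      simp [a', b', h10]
    · have h10 : x (Sum.inr i) = 1 := by omega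
      simp [a', b', h10]
  rw [e1, e2, e3, e4] at h5
  omega

end Pool.Agent.Lib.MP_21a058_co.Slack3
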