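import Pool.Agent.Lib.MP_21a058_co.Slack3.Arith
import Pool.Agent.Lib.MP_21a058_co.Slack3.Gad

/-! Two classes `3` and `2 K - 5`: from `W K 3 5 (K - 2) 0` to the failure of `2K ↦ (3, 2K - 5)`. -/

set_option autoImplicit false

namespace Pool.Agent.Lib.MP_21a058_co.Slack3

open Finset Pool.Agent.Lib.MP_21a058_co
open Pool.Agent.Lib.MP_21a058_co.Odd (red red_le)

theorem kill_of_W {K l u : ℕ} (h : W K l u 0 0) :
    Kill K l u (Fin 0 ⊕ Fin (2 * K)) Set.univ := by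
  have h1 := h (Fin 0) (Fin (2 * K)) (Nat.card_fin 0) (by rw [Nat.card_fin, Nat.card_fin]; omega) ∅
    ((Kill.empty K l u _).mono (by intro x hx; exact absurd hx (Set.notMem_empty _)))
  refine h1.mono ?_
  intro x _
  right
  have := red_le (fun f : Fin 0 => x (Sum.inl f))
  rw [Nat.card_fin] at this
  omega

/-- From a kill to the failure of the arrow. -/
theorem not_arrow_of_W {K l u l' r : ℕ} (hK : 1 ≤ K) (hl : u + l' = 2 * K) (hW : W K l u 0 0)
    (ks : Fin r → ℕ) (J : Finset (Fin r)) (hJ : ∑ i ∈ J, ks i = l) (hJ' : ∑ i ∈ Jᶜ, ks i = l') :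
    ¬ Arrow (2 * K) ks :=
  Kill.false_of_univ hK hl (kill_of_W hW)
    (by rw [Nat.card_sum, Nat.card_fin, Nat.card_fin]; omega) ks J hJ hJ'

theorem not_arrow_of_main {K l' r : ℕ} (hK : 2 ≤ K) (he : K % 2 = 0) (hl : 5 + l' = 2 * K)
    (main : W K 3 5 (K - 2) 0) (ks : Fin r → ℕ) (J : Finset (Fin r)) (hJ : ∑ i ∈ J, ks i = 3)
    (hJ' : ∑ i ∈ Jᶜ, ks i = l') : ¬ Arrow (2 * K) ks :=
  not_arrow_of_W (by omega) hl (w00 hK he main) ks J hJ hJ'

end Pool.Agent.Lib.MP_21a058_co.Slack3
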