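import Pool.Agent.Lib.MP_21a058_co.Slack3.Rule

/-! An alive set of `K - c` edges does not have `m - 1` red edges (window `2 m + 1 .. 2 m + 3`). -/

set_option autoImplicit false

namespace Pool.Agent.Lib.MP_21a058_co.Slack3.MG

open Pool.Agent.Lib.MP_21a058_co.Slack3
open Pool.Agent.Lib.MP_21a058_co.Odd (red red_sum red_equiv red_le)

/-- A node with the new edges of any type of the right size. -/
theorem nodeN {K l u : ℕ} {J1 J2 N : Type} [Finite J1] [Finite J2] [Finite N] (h1 : Nat.card J1 = K)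
    (h2 : Nat.card J2 = K) (h3 : Nat.card N = K) (A1 : Set (J1 ⊕ N → Bool))
    (A2 : Set (J2 ⊕ N → Bool)) (A : Set (J1 ⊕ J2 → Bool)) (k1 : Kill K l u (J1 ⊕ N) A1)
    (k2 : Kill K l u (J2 ⊕ N) A2)
    (h : ∀ (a : J1 → Bool) (b : J2 → Bool), Sum.elim a b ∈ A → (red a + red b < l ∨ u < red a + red b) ∨
      ∀ n : N → Bool, Sum.elim a n ∈ A1 ∨ Sum.elim b n ∈ A2) : Kill K l u (J1 ⊕ J2) A := by
  have hc : Nat.card N = Nat.card (Fin K) := by rw [h3, Nat.card_fin]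
  obtain ⟨eN⟩ := Finite.card_eq.mp hc
  have k1' := k1.transport (Equiv.sumCongr (Equiv.refl J1) eN)
  have k2' := k2.transport (Equiv.sumCongr (Equiv.refl J2) eN)
  refine Kill.node (J1 ⊕ J2) J1 J2 h1 h2 (Equiv.refl _) _ _ A k1' k2' ?_
  intro x hx
  have hx' : Sum.elim (fun a => x (Sum.inl a)) (fun b => x (Sum.inr b)) = x := by
    funext q
    rcases q with q | q <;> rfl
  rcases h (fun a => x (Sum.inl a)) (fun b => x (Sum.inr b)) (by rw [hx']; exact hx) with h' | h'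
  · left
    rw [red_sum x]
    exact h'
  · right
    intro n
    have e1 : ∀ (J : Type) (c : J → Bool), (fun i => (Sum.elim c n : J ⊕ Fin K → Bool)
        ((Equiv.sumCongr (Equiv.refl J) eN) i)) = Sum.elim c (fun i => n (eN i)) := by
      intro J c
      funext q
      rcases q with q | q <;> rfl
    rcases h' (fun i => n (eN i)) with h'' | h''
    · left
      show (fun i => (Sum.elim (fun a => x (Sum.inl a)) n : J1 ⊕ Fin K → Bool)
        ((Equiv.sumCongr (Equiv.refl J1) eN) i)) ∈ A1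
      rw [e1]
      exact h''
    · right
      show (fun i => (Sum.elim (fun a => x (Sum.inr a)) n : J2 ⊕ Fin K → Bool)
        ((Equiv.sumCongr (Equiv.refl J2) eN) i)) ∈ A2
      rw [e1]
      exact h''

/-- An alive set whose refutable values are known. -/
theorem seqP {K l u L : ℕ} (P : ℕ → Prop) (hP : ∀ p, P p → W K l u L p) (D R : Type) [Finite D]
    [Finite R] (hD : Nat.card D = L) (hR : Nat.card D + Nat.card R = 2 * K) (T : Set (D → Bool))
    (h : Kill K l u (D ⊕ R) {x | (fun f => x (Sum.inl f)) ∈ T}) :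
    Kill K l u (D ⊕ R) {x | (fun f => x (Sum.inl f)) ∈ T ∨ P (red (fun f => x (Sum.inl f)))} := by
  refine (W_seq' (K := K) (l := l) (u := u) (L := L) D R hD hR T h).mono ?_
  intro x hx
  rcases hx with hx | hx
  · exact Or.inl hx
  · exact Or.inr (hP _ hx)

theorem seqP0 {K l u L : ℕ} (P : ℕ → Prop) (hP : ∀ p, P p → W K l u L p) (D R : Type) [Finite D]
    [Finite R] (hD : Nat.card D = L) (hR : Nat.card D + Nat.card R = 2 * K) :
    Kill K l u (D ⊕ R) {x | P (red (fun f => x (Sum.inl f)))} := by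
  refine (seqP P hP D R hD hR ∅ ((Kill.empty K l u _).mono
    (by intro x hx; exact absurd hx (Set.notMem_empty _)))).mono ?_
  intro x hx
  exact Or.inr hx

/-- `((C ⊕ C') ⊕ Y) ⊕ (Z ⊕ Q) ≃ (C ⊕ Q) ⊕ (C' ⊕ (Y ⊕ Z))` -/
def eD2 (C C' Y Z Q : Type) :
    ((C ⊕ C') ⊕ Y) ⊕ (Z ⊕ Q) ≃ (C ⊕ Q) ⊕ (C' ⊕ (Y ⊕ Z)) where
  toFun p := match p with
    | Sum.inl (Sum.inl (Sum.inl c)) => Sum.inl (Sum.inl c)
    | Sum.inl (Sum.inl (Sum.inr c)) => Sum.inr (Sum.inl c)
    | Sum.inl (Sum.inr y) => Sum.inr (Sum.inr (Sum.inl y))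
    | Sum.inr (Sum.inl z) => Sum.inr (Sum.inr (Sum.inr z))
    | Sum.inr (Sum.inr q) => Sum.inl (Sum.inr q)
  invFun p := match p with
    | Sum.inl (Sum.inl c) => Sum.inl (Sum.inl (Sum.inl c))
    | Sum.inr (Sum.inl c) => Sum.inl (Sum.inl (Sum.inr c))
    | Sum.inr (Sum.inr (Sum.inl y)) => Sum.inl (Sum.inr y)
    | Sum.inr (Sum.inr (Sum.inr z)) => Sum.inr (Sum.inl z)
    | Sum.inl (Sum.inr q) => Sum.inr (Sum.inr q)
  left_inv := by rintro (((c | c) | y) | (z | q)) <;> rfl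
  right_inv := by rintro ((c | q) | (c | (y | z))) <;> rfl

/-- the vertex `w_4`: `((C ⊕ X) ⊕ C') ⊕ (VU ⊕ Q) ≃ (C ⊕ (X ⊕ VU)) ⊕ (C' ⊕ Q)` -/
def eD4 (C X C' VU Q : Type) :
    ((C ⊕ X) ⊕ C') ⊕ (VU ⊕ Q) ≃ (C ⊕ (X ⊕ VU)) ⊕ (C' ⊕ Q) where
  toFun p := match p with
    | Sum.inl (Sum.inl (Sum.inl c)) => Sum.inl (Sum.inl c)
    | Sum.inl (Sum.inl (Sum.inr x)) => Sum.inl (Sum.inr (Sum.inl x))
    | Sum.inl (Sum.inr c) => Sum.inr (Sum.inl c)
    | Sum.inr (Sum.inl v) => Sum.inl (Sum.inr (Sum.inr v))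
    | Sum.inr (Sum.inr q) => Sum.inr (Sum.inr q)
  invFun p := match p with
    | Sum.inl (Sum.inl c) => Sum.inl (Sum.inl (Sum.inl c))
    | Sum.inl (Sum.inr (Sum.inl x)) => Sum.inl (Sum.inl (Sum.inr x))
    | Sum.inr (Sum.inl c) => Sum.inl (Sum.inr c)
    | Sum.inl (Sum.inr (Sum.inr v)) => Sum.inr (Sum.inl v)
    | Sum.inr (Sum.inr q) => Sum.inr (Sum.inr q)
  left_inv := by rintro (((c | x) | c) | (v | q)) <;> rfl
  right_inv := by rintro ((c | (x | v)) | (c | q)) <;> rfl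

/-- the vertex `w_3` -/
def eD3 (C C' Z V Y X U : Type) :
    ((C ⊕ C') ⊕ (Z ⊕ V)) ⊕ (Y ⊕ (X ⊕ U)) ≃ (C ⊕ (Y ⊕ Z)) ⊕ (C' ⊕ (X ⊕ (V ⊕ U))) where
  toFun p := match p with
    | Sum.inl (Sum.inl (Sum.inl c)) => Sum.inl (Sum.inl c)
    | Sum.inl (Sum.inl (Sum.inr c)) => Sum.inr (Sum.inl c)
    | Sum.inl (Sum.inr (Sum.inl z)) => Sum.inl (Sum.inr (Sum.inr z))
    | Sum.inl (Sum.inr (Sum.inr v)) => Sum.inr (Sum.inr (Sum.inr (Sum.inl v)))
    | Sum.inr (Sum.inl y) => Sum.inl (Sum.inr (Sum.inl y))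
    | Sum.inr (Sum.inr (Sum.inl x)) => Sum.inr (Sum.inr (Sum.inl x))
    | Sum.inr (Sum.inr (Sum.inr u)) => Sum.inr (Sum.inr (Sum.inr (Sum.inr u)))
  invFun p := match p with
    | Sum.inl (Sum.inl c) => Sum.inl (Sum.inl (Sum.inl c))
    | Sum.inr (Sum.inl c) => Sum.inl (Sum.inl (Sum.inr c))
    | Sum.inl (Sum.inr (Sum.inr z)) => Sum.inl (Sum.inr (Sum.inl z))
    | Sum.inr (Sum.inr (Sum.inr (Sum.inl v))) => Sum.inl (Sum.inr (Sum.inr v))
    | Sum.inl (Sum.inr (Sum.inl y)) => Sum.inr (Sum.inl y)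
    | Sum.inr (Sum.inr (Sum.inl x)) => Sum.inr (Sum.inr (Sum.inl x))
    | Sum.inr (Sum.inr (Sum.inr (Sum.inr u))) => Sum.inr (Sum.inr (Sum.inr u))
  left_inv := by rintro (((c | c) | (z | v)) | (y | (x | u))) <;> rfl
  right_inv := by rintro ((c | (y | z)) | (c | (x | (v | u)))) <;> rfl

/-- the first half at `w_3` -/
def eH1 (G Z V N2 N3 : Type) : (G ⊕ (Z ⊕ N2)) ⊕ (V ⊕ N3) ≃ (G ⊕ (Z ⊕ V)) ⊕ (N2 ⊕ N3) where
  toFun p := match p with
    | Sum.inl (Sum.inl g) => Sum.inl (Sum.inl g)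
    | Sum.inl (Sum.inr (Sum.inl z)) => Sum.inl (Sum.inr (Sum.inl z))
    | Sum.inl (Sum.inr (Sum.inr n)) => Sum.inr (Sum.inl n)
    | Sum.inr (Sum.inl v) => Sum.inl (Sum.inr (Sum.inr v))
    | Sum.inr (Sum.inr n) => Sum.inr (Sum.inr n)
  invFun p := match p with
    | Sum.inl (Sum.inl g) => Sum.inl (Sum.inl g)
    | Sum.inl (Sum.inr (Sum.inl z)) => Sum.inl (Sum.inr (Sum.inl z))
    | Sum.inr (Sum.inl n) => Sum.inl (Sum.inr (Sum.inr n))
    | Sum.inl (Sum.inr (Sum.inr v)) => Sum.inr (Sum.inl v)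
    | Sum.inr (Sum.inr n) => Sum.inr (Sum.inr n)
  left_inv := by rintro ((g | (z | n)) | (v | n)) <;> rfl
  right_inv := by rintro ((g | (z | v)) | (n | n)) <;> rfl

/-- the second half at `w_3` -/
def eH2 (Y X U N2 N3 : Type) : ((Y ⊕ X) ⊕ N2) ⊕ (U ⊕ N3) ≃ (Y ⊕ (X ⊕ U)) ⊕ (N2 ⊕ N3) where
  toFun p := match p with
    | Sum.inl (Sum.inl (Sum.inl y)) => Sum.inl (Sum.inl y)
    | Sum.inl (Sum.inl (Sum.inr x)) => Sum.inl (Sum.inr (Sum.inl x))
    | Sum.inl (Sum.inr n) => Sum.inr (Sum.inl n)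
    | Sum.inr (Sum.inl u) => Sum.inl (Sum.inr (Sum.inr u))
    | Sum.inr (Sum.inr n) => Sum.inr (Sum.inr n)
  invFun p := match p with
    | Sum.inl (Sum.inl y) => Sum.inl (Sum.inl (Sum.inl y))
    | Sum.inl (Sum.inr (Sum.inl x)) => Sum.inl (Sum.inl (Sum.inr x))
    | Sum.inr (Sum.inl n) => Sum.inl (Sum.inr n)
    | Sum.inl (Sum.inr (Sum.inr u)) => Sum.inr (Sum.inl u)
    | Sum.inr (Sum.inr n) => Sum.inr (Sum.inr n)
  left_inv := by rintro (((y | x) | n) | (u | n)) <;> rfl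
  right_inv := by rintro ((y | (x | u)) | (n | n)) <;> rfl

/-- Killed at `D(w_2)`. -/
theorem kD2 {K l u t L : ℕ} (h1 : ∀ p, t ≤ p → W K l u L p) (C C' Y Z Q : Type) [Finite C]
    [Finite C'] [Finite Y] [Finite Z] [Finite Q]
    (hL : Nat.card C + Nat.card C' + Nat.card Y = L)
    (hT : Nat.card C + Nat.card C' + Nat.card Y + (Nat.card Z + Nat.card Q) = 2 * K) :
    Kill K l u ((C ⊕ Q) ⊕ (C' ⊕ (Y ⊕ Z))) {x | t ≤ red (fun i => x (Sum.inl (Sum.inl i))) +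
      red (fun i => x (Sum.inr (Sum.inl i))) + red (fun i => x (Sum.inr (Sum.inr (Sum.inl i))))} := by
  have k := (seqP0 (K := K) (l := l) (u := u) (fun p => t ≤ p) h1 ((C ⊕ C') ⊕ Y) (Z ⊕ Q)
    (by simp only [Nat.card_sum]; exact hL)
    (by simp only [Nat.card_sum]; exact hT)).transport (eD2 C C' Y Z Q)
  refine k.mono ?_
  intro x hx
  show t ≤ red (fun f : (C ⊕ C') ⊕ Y => x (eD2 C C' Y Z Q (Sum.inl f)))
  rw [red_sum (fun f : (C ⊕ C') ⊕ Y => x (eD2 C C' Y Z Q (Sum.inl f))),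
    red_sum (fun f : C ⊕ C' => x (eD2 C C' Y Z Q (Sum.inl (Sum.inl f))))]
  exact hx

/-- Killed at `D(w_4)`. -/
theorem kD4 {K l u s L : ℕ} (h2 : ∀ p, s ≤ p → W K l u L p) (C X C' VU Q : Type) [Finite C]
    [Finite X] [Finite C'] [Finite VU] [Finite Q]
    (hL : Nat.card C + Nat.card X + Nat.card C' = L)
    (hT : Nat.card C + Nat.card X + Nat.card C' + (Nat.card VU + Nat.card Q) = 2 * K) :
    Kill K l u ((C ⊕ (X ⊕ VU)) ⊕ (C' ⊕ Q)) {x | s ≤ red (fun i => x (Sum.inl (Sum.inl i))) +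
      red (fun i => x (Sum.inl (Sum.inr (Sum.inl i)))) + red (fun i => x (Sum.inr (Sum.inl i)))} := by
  have k := (seqP0 (K := K) (l := l) (u := u) (fun p => s ≤ p) h2 ((C ⊕ X) ⊕ C') (VU ⊕ Q)
    (by simp only [Nat.card_sum]; exact hL)
    (by simp only [Nat.card_sum]; exact hT)).transport (eD4 C X C' VU Q)
  refine k.mono ?_
  intro x hx
  show s ≤ red (fun f : (C ⊕ X) ⊕ C' => x (eD4 C X C' VU Q (Sum.inl f)))
  rw [red_sum (fun f : (C ⊕ X) ⊕ C' => x (eD4 C X C' VU Q (Sum.inl f))),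
    red_sum (fun f : C ⊕ X => x (eD4 C X C' VU Q (Sum.inl (Sum.inl f))))]
  exact hx

/-- A `K`-set of `m - 1` or fewer red edges is killed. -/
theorem wlo {K m p : ℕ} (hp : p + 1 ≤ m) : W K (2 * m + 1) (2 * m + 3) K p :=
  W_base le_rfl (Or.inr (by omega))

/-- A `K`-set of `m + 3` or more red edges is killed. -/
theorem whi {K m p : ℕ} (hp : m + 3 ≤ p) : W K (2 * m + 1) (2 * m + 3) K p :=
  W_base le_rfl (Or.inl (by omega))

/-- Killed at `D(w_3)`. -/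
theorem kD3 {K m : ℕ} (C C' Z V Y X U N2 N3 : Type) [Finite C]
    [Finite C'] [Finite Z] [Finite V] [Finite Y] [Finite X] [Finite U] [Finite N2] [Finite N3]
    (hh1 : Nat.card C + Nat.card C' + (Nat.card Z + Nat.card V) = K)
    (hh2 : Nat.card Y + (Nat.card X + Nat.card U) = K) (hn : Nat.card N2 + Nat.card N3 = K)
    (hg1 : Nat.card C + Nat.card C' + (Nat.card Z + Nat.card N2) = K)
    (hg2 : Nat.card Y + Nat.card X + Nat.card N2 = K) :
    Kill K (2 * m + 1) (2 * m + 3) ((C ⊕ (Y ⊕ Z)) ⊕ (C' ⊕ (X ⊕ (V ⊕ U))))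
      {x | red (fun i => x (Sum.inl (Sum.inr (Sum.inl i)))) +
        red (fun i => x (Sum.inr (Sum.inr (Sum.inl i)))) + 3 ≤
        red (fun i => x (Sum.inl (Sum.inl i))) + red (fun i => x (Sum.inr (Sum.inl i))) +
          red (fun i => x (Sum.inl (Sum.inr (Sum.inr i))))} := by
  have k1 := (seqP0 (K := K) (l := 2 * m + 1) (u := 2 * m + 3) (fun p => m + 3 ≤ p)
    (fun p hp => whi hp) ((C ⊕ C') ⊕ (Z ⊕ N2)) (V ⊕ N3)
    (by simp only [Nat.card_sum]; exact hg1)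
    (by simp only [Nat.card_sum]; omega)).transport (eH1 (C ⊕ C') Z V N2 N3)
  have k2 := (seqP0 (K := K) (l := 2 * m + 1) (u := 2 * m + 3) (fun p => p + 1 ≤ m)
    (fun p hp => wlo hp) ((Y ⊕ X) ⊕ N2) (U ⊕ N3)
    (by simp only [Nat.card_sum]; exact hg2)
    (by simp only [Nat.card_sum]; omega)).transport (eH2 Y X U N2 N3)
  have kn : Kill K (2 * m + 1) (2 * m + 3) (((C ⊕ C') ⊕ (Z ⊕ V)) ⊕ (Y ⊕ (X ⊕ U)))
      {x | red (fun i => x (Sum.inr (Sum.inl i))) + red (fun i => x (Sum.inr (Sum.inr (Sum.inl i)))) + 3 ≤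
        red (fun i => x (Sum.inl (Sum.inl (Sum.inl i)))) +
        red (fun i => x (Sum.inl (Sum.inl (Sum.inr i)))) +
        red (fun i => x (Sum.inl (Sum.inr (Sum.inl i))))} := by
    refine nodeN (N := N2 ⊕ N3) (by simp only [Nat.card_sum]; exact hh1)
      (by simp only [Nat.card_sum]; exact hh2) (by simp only [Nat.card_sum]; exact hn) _ _ _ k1 k2 ?_
    intro a b hx
    right
    intro n
    have hx' : red (fun i => b (Sum.inl i)) + red (fun i => b (Sum.inr (Sum.inl i))) + 3 ≤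
        red (fun i => a (Sum.inl (Sum.inl i))) + red (fun i => a (Sum.inl (Sum.inr i))) +
        red (fun i => a (Sum.inr (Sum.inl i))) := hx
    by_contra hcon
    push Not at hcon
    obtain ⟨g1, g2⟩ := hcon
    have g1' : ¬ (m + 3 ≤ red (fun f : (C ⊕ C') ⊕ (Z ⊕ N2) =>
      (Sum.elim a n : ((C ⊕ C') ⊕ (Z ⊕ V)) ⊕ (N2 ⊕ N3) → Bool)
        (eH1 (C ⊕ C') Z V N2 N3 (Sum.inl f)))) := g1
    rw [red_sum (fun f : (C ⊕ C') ⊕ (Z ⊕ N2) =>
      (Sum.elim a n : ((C ⊕ C') ⊕ (Z ⊕ V)) ⊕ (N2 ⊕ N3) → Bool)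
        (eH1 (C ⊕ C') Z V N2 N3 (Sum.inl f))),
      red_sum (fun f : C ⊕ C' =>
      (Sum.elim a n : ((C ⊕ C') ⊕ (Z ⊕ V)) ⊕ (N2 ⊕ N3) → Bool)
        (eH1 (C ⊕ C') Z V N2 N3 (Sum.inl (Sum.inl f)))),
      red_sum (fun f : Z ⊕ N2 =>
      (Sum.elim a n : ((C ⊕ C') ⊕ (Z ⊕ V)) ⊕ (N2 ⊕ N3) → Bool)
        (eH1 (C ⊕ C') Z V N2 N3 (Sum.inl (Sum.inr f))))] at g1'
    have g1'' : ¬ (m + 3 ≤ red (fun i => a (Sum.inl (Sum.inl i))) +
        red (fun i => a (Sum.inl (Sum.inr i))) +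
        (red (fun i => a (Sum.inr (Sum.inl i))) + red (fun i => n (Sum.inl i)))) := g1'
    have g2' : ¬ (red (fun f : (Y ⊕ X) ⊕ N2 =>
      (Sum.elim b n : (Y ⊕ (X ⊕ U)) ⊕ (N2 ⊕ N3) → Bool)
        (eH2 Y X U N2 N3 (Sum.inl f))) + 1 ≤ m) := g2
    rw [red_sum (fun f : (Y ⊕ X) ⊕ N2 =>
      (Sum.elim b n : (Y ⊕ (X ⊕ U)) ⊕ (N2 ⊕ N3) → Bool)
        (eH2 Y X U N2 N3 (Sum.inl f))),
      red_sum (fun f : Y ⊕ X =>
      (Sum.elim b n : (Y ⊕ (X ⊕ U)) ⊕ (N2 ⊕ N3) → Bool)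
        (eH2 Y X U N2 N3 (Sum.inl (Sum.inl f))))] at g2'
    have g2'' : ¬ (red (fun i => b (Sum.inl i)) + red (fun i => b (Sum.inr (Sum.inl i))) +
        red (fun i => n (Sum.inl i)) + 1 ≤ m) := g2'
    omega
  exact kn.transport (eD3 C C' Z V Y X U)


theorem red_elim {I J : Type} [Finite I] [Finite J] (a : I → Bool) (b : J → Bool) :
    red (Sum.elim a b) = red a + red b := red_sum (Sum.elim a b)

section chain

variable {K m c : ℕ} {F R : Type} [Finite F] [Finite R]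

/-- One more `K`-set over the alive set. -/
theorem kS4 (hF : Nat.card F + c = K) (hR : Nat.card F + Nat.card R = 2 * K) (T : Set (F → Bool))
    (h : Kill K (2 * m + 1) (2 * m + 3) (F ⊕ R) {x | (fun f => x (Sum.inl f)) ∈ T})
    (C R' : Type) [Finite C] [Finite R'] (hC : Nat.card C = c) (hR' : Nat.card R' = K) :
    Kill K (2 * m + 1) (2 * m + 3) ((F ⊕ C) ⊕ R') {x | (fun f => x (Sum.inl (Sum.inl f))) ∈ T ∨
      red (fun f => x (Sum.inl (Sum.inl f))) + red (fun i => x (Sum.inl (Sum.inr i))) + 1 ≤ m} := by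
  have h1 : Kill K (2 * m + 1) (2 * m + 3) (F ⊕ (C ⊕ R')) {x | (fun f => x (Sum.inl f)) ∈ T} :=
    kill_rest (by rw [Nat.card_sum]; omega) h
  have h2 := h1.transport (Equiv.sumAssoc F C R').symm
  have h3 := seqP (K := K) (l := 2 * m + 1) (u := 2 * m + 3) (fun p => p + 1 ≤ m)
    (fun p hp => wlo hp) (F ⊕ C) R' (by rw [Nat.card_sum]; omega) (by rw [Nat.card_sum]; omega)
    {w | (fun f => w (Sum.inl f)) ∈ T} h2
  refine h3.mono ?_
  intro x hx
  rcases hx with hx | hx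
  · exact Or.inl hx
  · right
    show red (fun f : F ⊕ C => x (Sum.inl f)) + 1 ≤ m
    rw [red_sum (fun f : F ⊕ C => x (Sum.inl f))]
    exact hx

theorem kS3 (hc : c ≤ K) (hF : Nat.card F + c = K) (hR : Nat.card F + Nat.card R = 2 * K)
    (T : Set (F → Bool))
    (h : Kill K (2 * m + 1) (2 * m + 3) (F ⊕ R) {x | (fun f => x (Sum.inl f)) ∈ T})
    {s L : ℕ} (h2 : ∀ p, s ≤ p → W K (2 * m + 1) (2 * m + 3) L p)
    (C4 C3 X VU : Type) [Finite C4] [Finite C3] [Finite X] [Finite VU] (h4 : Nat.card C4 = c)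
    (h3 : Nat.card C3 = c) (hX : c + Nat.card X + c = L) (hQ : Nat.card X + Nat.card VU + c = K) :
    Kill K (2 * m + 1) (2 * m + 3) ((F ⊕ C4) ⊕ (C3 ⊕ (X ⊕ VU)))
      {x | (fun f => x (Sum.inl (Sum.inl f))) ∈ T ∨
        (red (fun f => x (Sum.inl (Sum.inl f))) + 1 = m ∧
          (s ≤ red (fun i => x (Sum.inr (Sum.inl i))) +
              red (fun i => x (Sum.inr (Sum.inr (Sum.inl i)))) + 1 ∨
            red (fun i => x (Sum.inl (Sum.inr i))) = 0))} := by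
  have k1 := ((kS4 (K := K) (m := m) (c := c) hF hR T h (Fin c) (C4 ⊕ Fin (K - c))
    (Nat.card_fin c) (by rw [Nat.card_sum, Nat.card_fin]; omega)).transport
    (Equiv.sumSumSumComm F (Fin c) C4 (Fin (K - c)))).addBase
  have k2 := (kD4 (K := K) (l := 2 * m + 1) (u := 2 * m + 3) h2 C3 X (Fin c) VU (Fin (K - c))
    (by rw [Nat.card_fin]; omega) (by rw [Nat.card_fin, Nat.card_fin]; omega)).addBase
  refine nodeN (N := Fin c ⊕ Fin (K - c)) (by rw [Nat.card_sum]; omega)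
    (by rw [Nat.card_sum, Nat.card_sum]; omega)
    (by rw [Nat.card_sum, Nat.card_fin, Nat.card_fin]; omega) _ _ _ k1 k2 ?_
  intro a b hx
  have hx' : (fun f => a (Sum.inl f)) ∈ T ∨ (red (fun f => a (Sum.inl f)) + 1 = m ∧
    (s ≤ red (fun i => b (Sum.inl i)) + red (fun i => b (Sum.inr (Sum.inl i))) + 1 ∨
      red (fun i => a (Sum.inr i)) = 0)) := hx
  by_cases hw : red a + red b < 2 * m + 1 ∨ 2 * m + 3 < red a + red b
  · exact Or.inl hw
  right
  intro n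
  rcases hx' with hx' | ⟨hm1, hx'⟩
  · exact Or.inl (Or.inl (Or.inl hx'))
  · by_contra hcon
    push Not at hcon
    obtain ⟨g1, g2⟩ := hcon
    have g1a : ¬ (red (fun f => a (Sum.inl f)) + red (fun i => n (Sum.inl i)) + 1 ≤ m) :=
      fun hh => g1 (Or.inl (Or.inr hh))
    have g1b : ¬ (red a + red n < 2 * m + 1 ∨ 2 * m + 3 < red a + red n) := by
      rw [← red_elim]
      exact fun hh => g1 (Or.inr hh)
    have g2a : ¬ (s ≤ red (fun i => b (Sum.inl i)) + red (fun i => b (Sum.inr (Sum.inl i))) +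
        red (fun i => n (Sum.inl i))) := fun hh => g2 (Or.inl hh)
    have g2b : ¬ (red b + red n < 2 * m + 1 ∨ 2 * m + 3 < red b + red n) := by
      rw [← red_elim]
      exact fun hh => g2 (Or.inr hh)
    have ea : red a = red (fun f => a (Sum.inl f)) + red (fun i => a (Sum.inr i)) := red_sum a
    omega

theorem kS2 {y s L : ℕ} (hcy : c ≤ y) (hy : 2 * y ≤ K + c) (hyK : y + c ≤ K)
    (hF : Nat.card F + c = K) (hR : Nat.card F + Nat.card R = 2 * K) (T : Set (F → Bool))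
    (h : Kill K (2 * m + 1) (2 * m + 3) (F ⊕ R) {x | (fun f => x (Sum.inl f)) ∈ T})
    (h2 : ∀ p, s ≤ p → W K (2 * m + 1) (2 * m + 3) L p) (hL : L + 2 * y = K + 3 * c)
    (C3 C2 Y Z : Type) [Finite C3] [Finite C2] [Finite Y] [Finite Z] (h3 : Nat.card C3 = c)
    (hC2 : Nat.card C2 = c) (hY : Nat.card Y = y) (hZ : Nat.card Z + c + y = K) :
    Kill K (2 * m + 1) (2 * m + 3) ((F ⊕ C3) ⊕ (C2 ⊕ (Y ⊕ Z)))
      {x | (fun f => x (Sum.inl (Sum.inl f))) ∈ T ∨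
        (red (fun f => x (Sum.inl (Sum.inl f))) + 1 = m ∧
          (red (fun i => x (Sum.inl (Sum.inr i))) = 0 ∨
            red (fun i => x (Sum.inr (Sum.inr (Sum.inl i)))) + s ≤
              red (fun i => x (Sum.inr (Sum.inl i))) +
              red (fun i => x (Sum.inr (Sum.inr (Sum.inr i)))) +
              red (fun i => x (Sum.inl (Sum.inr i)))))} := by
  have k1 := ((kS3 (K := K) (m := m) (c := c) (by omega) hF hR T h h2 (Fin c) C3
    (Fin (K + c - 2 * y)) (Fin (y - c) ⊕ Fin (y - c)) (Nat.card_fin c) h3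
    (by rw [Nat.card_fin]; omega)
    (by rw [Nat.card_sum, Nat.card_fin, Nat.card_fin]; omega)).transport
    (Equiv.sumSumSumComm F (Fin c) C3 (Fin (K + c - 2 * y) ⊕ (Fin (y - c) ⊕ Fin (y - c))))).addBase
  have k2 := (kD3 (K := K) (m := m) C2 (Fin c) Z (Fin (y - c)) Y (Fin (K + c - 2 * y))
    (Fin (y - c)) (Fin (y - c)) (Fin (K - (y - c)))
    (by rw [Nat.card_fin, Nat.card_fin]; omega) (by rw [Nat.card_fin, Nat.card_fin]; omega)
    (by rw [Nat.card_fin, Nat.card_fin]; omega) (by rw [Nat.card_fin, Nat.card_fin]; omega)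
    (by rw [Nat.card_fin, Nat.card_fin]; omega)).addBase
  refine nodeN (N := Fin c ⊕ (Fin (K + c - 2 * y) ⊕ (Fin (y - c) ⊕ Fin (y - c))))
    (by rw [Nat.card_sum]; omega)
    (by rw [Nat.card_sum, Nat.card_sum]; omega)
    (by rw [Nat.card_sum, Nat.card_sum, Nat.card_sum, Nat.card_fin, Nat.card_fin, Nat.card_fin]
        omega) _ _ _ k1 k2 ?_
  intro a b hx
  have hx' : (fun f => a (Sum.inl f)) ∈ T ∨ (red (fun f => a (Sum.inl f)) + 1 = m ∧
    (red (fun i => a (Sum.inr i)) = 0 ∨ red (fun i => b (Sum.inr (Sum.inl i))) + s ≤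
      red (fun i => b (Sum.inl i)) + red (fun i => b (Sum.inr (Sum.inr i))) +
      red (fun i => a (Sum.inr i)))) := hx
  by_cases hw : red a + red b < 2 * m + 1 ∨ 2 * m + 3 < red a + red b
  · exact Or.inl hw
  right
  intro n
  rcases hx' with hx' | ⟨hm1, hx'⟩
  · exact Or.inl (Or.inl (Or.inl hx'))
  · by_contra hcon
    push Not at hcon
    obtain ⟨g1, g2⟩ := hcon
    have g1a : ¬ (s ≤ red (fun i => a (Sum.inr i)) + red (fun i => n (Sum.inr (Sum.inl i))) + 1 ∨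
        red (fun i => n (Sum.inl i)) = 0) := fun hh => g1 (Or.inl (Or.inr ⟨hm1, hh⟩))
    have g1b : ¬ (red a + red n < 2 * m + 1 ∨ 2 * m + 3 < red a + red n) := by
      rw [← red_elim]
      exact fun hh => g1 (Or.inr hh)
    have g2a : ¬ (red (fun i => b (Sum.inr (Sum.inl i))) +
        red (fun i => n (Sum.inr (Sum.inl i))) + 3 ≤
        red (fun i => b (Sum.inl i)) + red (fun i => n (Sum.inl i)) +
          red (fun i => b (Sum.inr (Sum.inr i)))) := fun hh => g2 (Or.inl hh)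
    have g2b : ¬ (red b + red n < 2 * m + 1 ∨ 2 * m + 3 < red b + red n) := by
      rw [← red_elim]
      exact fun hh => g2 (Or.inr hh)
    have ea : red a = red (fun f => a (Sum.inl f)) + red (fun i => a (Sum.inr i)) := red_sum a
    omega

theorem kS1 {y s t L L' : ℕ} (hst : s + 2 * t ≤ m + 8) (hcy : c ≤ y) (hy : 2 * y ≤ K + c)
    (hyK : y + c ≤ K)
    (hF : Nat.card F + c = K) (hR : Nat.card F + Nat.card R = 2 * K) (T : Set (F → Bool))
    (h : Kill K (2 * m + 1) (2 * m + 3) (F ⊕ R) {x | (fun f => x (Sum.inl f)) ∈ T})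
    (h2 : ∀ p, s ≤ p → W K (2 * m + 1) (2 * m + 3) L p) (hL : L + 2 * y = K + 3 * c)
    (h1 : ∀ p, t ≤ p → W K (2 * m + 1) (2 * m + 3) L' p) (hL' : L' = 2 * c + y)
    (C2 C1 Q1 : Type) [Finite C2] [Finite C1] [Finite Q1] (hC2 : Nat.card C2 = c)
    (hC1 : Nat.card C1 = c) (hQ1 : Nat.card Q1 + c = K) :
    Kill K (2 * m + 1) (2 * m + 3) ((F ⊕ C2) ⊕ (C1 ⊕ Q1))
      {x | (fun f => x (Sum.inl (Sum.inl f))) ∈ T ∨
        (red (fun f => x (Sum.inl (Sum.inl f))) + 1 = m ∧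
          1 ≤ red (fun i => x (Sum.inr (Sum.inl i))))} := by
  have k1 := ((kS2 (K := K) (m := m) (c := c) hcy hy hyK hF hR T h h2 hL (Fin c) C2
    (Fin y) (Fin (K - c - y)) (Nat.card_fin c) hC2 (Nat.card_fin y)
    (by rw [Nat.card_fin]; omega)).transport
    (Equiv.sumSumSumComm F (Fin c) C2 (Fin y ⊕ Fin (K - c - y)))).addBase
  have k2 := kD2 (K := K) (l := 2 * m + 1) (u := 2 * m + 3) h1 C1 (Fin c) (Fin y)
    (Fin (K - c - y)) Q1 (by rw [Nat.card_fin, Nat.card_fin]; omega)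
    (by rw [Nat.card_fin, Nat.card_fin, Nat.card_fin]; omega)
  refine nodeN (N := Fin c ⊕ (Fin y ⊕ Fin (K - c - y)))
    (by rw [Nat.card_sum]; omega) (by rw [Nat.card_sum]; omega)
    (by rw [Nat.card_sum, Nat.card_sum, Nat.card_fin, Nat.card_fin, Nat.card_fin]
        omega) _ _ _ k1 k2 ?_
  intro a b hx
  have hx' : (fun f => a (Sum.inl f)) ∈ T ∨ (red (fun f => a (Sum.inl f)) + 1 = m ∧
    1 ≤ red (fun i => b (Sum.inl i))) := hx
  right
  intro n
  rcases hx' with hx' | ⟨hm1, hx'⟩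
  · exact Or.inl (Or.inl (Or.inl hx'))
  · by_contra hcon
    push Not at hcon
    obtain ⟨g1, g2⟩ := hcon
    have g1a : ¬ (red (fun i => n (Sum.inl i)) = 0 ∨ red (fun i => n (Sum.inr (Sum.inl i))) + s ≤
      red (fun i => a (Sum.inr i)) + red (fun i => n (Sum.inr (Sum.inr i))) +
      red (fun i => n (Sum.inl i))) := fun hh => g1 (Or.inl (Or.inr ⟨hm1, hh⟩))
    have g1b : ¬ (red a + red n < 2 * m + 1 ∨ 2 * m + 3 < red a + red n) := by
      rw [← red_elim]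
      exact fun hh => g1 (Or.inr hh)
    have g2a : ¬ (t ≤ red (fun i => b (Sum.inl i)) + red (fun i => n (Sum.inl i)) +
        red (fun i => n (Sum.inr (Sum.inl i)))) := fun hh => g2 hh
    have ea : red a = red (fun f => a (Sum.inl f)) + red (fun i => a (Sum.inr i)) := red_sum a
    have en : red n = red (fun i => n (Sum.inl i)) + (red (fun i => n (Sum.inr (Sum.inl i))) +
        red (fun i => n (Sum.inr (Sum.inr i)))) := by
      rw [red_sum n, red_sum (fun i => n (Sum.inr i))]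
    omega

end chain

/-- **An alive set of `K - c` edges does not have `m - 1` red edges**, if alive sets of `2 c + y`
edges have fewer than `t` and alive sets of `K + 3 c - 2 y` edges fewer than `s` red edges,
`s + 2 t ≤ m + 8`. -/
theorem main_gen {K m c y s t : ℕ} (hm : 1 ≤ m) (hc : c ≤ y) (hy : 2 * y ≤ K + c)
    (hyK : y + c ≤ K) (hst : s + 2 * t ≤ m + 8)
    (h1 : ∀ p, t ≤ p → W K (2 * m + 1) (2 * m + 3) (2 * c + y) p)
    (h2 : ∀ p, s ≤ p → W K (2 * m + 1) (2 * m + 3) (K + 3 * c - 2 * y) p) :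
    W K (2 * m + 1) (2 * m + 3) (K - c) (m - 1) := by
  intro F R _ _ hF hR T hT
  have k1 := (kS1 (K := K) (m := m) (c := c) hst hc hy hyK (by omega) hR T hT h2 (by omega) h1 rfl
    (Fin c) (Fin c) (Fin (K - c)) (Nat.card_fin c) (Nat.card_fin c)
    (by rw [Nat.card_fin]; omega)).transport (Equiv.sumSumSumComm F (Fin c) (Fin c) (Fin (K - c)))
  have k2 := seqP (K := K) (l := 2 * m + 1) (u := 2 * m + 3) (fun p => p + 1 ≤ m)
    (fun p hp => wlo hp) (F ⊕ Fin c) (Fin c ⊕ Fin (K - c))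
    (by rw [Nat.card_sum, Nat.card_fin]; omega)
    (by rw [Nat.card_sum, Nat.card_sum, Nat.card_fin, Nat.card_fin]; omega)
    {w | (fun f => w (Sum.inl f)) ∈ T ∨ (red (fun f => w (Sum.inl f)) + 1 = m ∧
      1 ≤ red (fun i => w (Sum.inr i)))} k1
  have k3 := k2.transport (Equiv.sumAssoc F (Fin c) (Fin c ⊕ Fin (K - c)))
  have k4 : Kill K (2 * m + 1) (2 * m + 3) (F ⊕ (Fin c ⊕ (Fin c ⊕ Fin (K - c))))
      {x | (fun f => x (Sum.inl f)) ∈ {z : F → Bool | z ∈ T ∨ red z = m - 1}} := by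
    refine k3.mono ?_
    intro x hx
    have hx' : (fun f => x (Sum.inl f)) ∈ T ∨ red (fun f => x (Sum.inl f)) = m - 1 := hx
    rcases hx' with hx' | hx'
    · exact Or.inl (Or.inl hx')
    · by_cases h0 : red (fun i : Fin c => x (Sum.inr (Sum.inl i))) = 0
      · right
        show red (fun q : F ⊕ Fin c => x (Equiv.sumAssoc F (Fin c) (Fin c ⊕ Fin (K - c))
          (Sum.inl q))) + 1 ≤ m
        rw [red_sum (fun q : F ⊕ Fin c => x (Equiv.sumAssoc F (Fin c) (Fin c ⊕ Fin (K - c))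
          (Sum.inl q)))]
        have e : red (fun f => x (Sum.inl f)) + red (fun i : Fin c => x (Sum.inr (Sum.inl i))) + 1
            ≤ m := by omega
        exact e
      · left
        right
        have e : red (fun f => x (Sum.inl f)) + 1 = m ∧
            1 ≤ red (fun i : Fin c => x (Sum.inr (Sum.inl i))) := by omega
        exact e
  exact kill_rest (by
    rw [Nat.card_sum, Nat.card_sum, Nat.card_fin, Nat.card_fin]
    omega) k4

end Pool.Agent.Lib.MP_21a058_co.Slack3.MG
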