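import Pool.Agent.Lib.MP_21a058_co.Slack3.GenAll
import Pool.Agent.Lib.MP_21a058_co.Slack3.Main88
import Pool.Agent.Lib.MP_21a058_co.Slack3.Final

/-! The classes `2 m + 1` and `2 K - 2 m - 3`, every `m ≥ 2`, every large `K`. -/

set_option autoImplicit false

namespace Pool.Agent.Lib.MP_21a058_co.Slack3.GenArith

open Finset Pool.Agent.Lib.MP_21a058_co Pool.Agent.Lib.MP_21a058_co.Slack3

theorem main_t {K m : ℕ} (hm : 2 ≤ m) (hK : (m + 1) * (42 * (m + 1) + 9) < K) :
    W K (2 * m + 1) (2 * m + 3) (K - (6 * (m + 1) + 1)) (m - 1) := by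
  set c := m + 1 with hc
  set t := 6 * c + 1 with ht
  set q := (K - 1) / c with hq
  have hc0 : 0 < c := by omega
  have hq1 : c * q ≤ K - 1 := by rw [hq]; exact Nat.mul_div_le _ _
  have hq2 : K - 1 < c * (q + 1) := by rw [hq]; exact Nat.lt_mul_div_succ _ hc0
  have hq3 : c * q < K := by omega
  have hq4 : K ≤ c * q + c := by
    have : c * (q + 1) = c * q + c := by ring
    omega
  have h42 : 42 * c + 9 ≤ q := by
    by_contra hcon
    have : q + 1 ≤ 42 * c + 9 := by omega
    have := Nat.mul_le_mul_left c this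
    have e : c * (q + 1) = c * q + c := by ring
    omega
  have hqK : 3 * q ≤ K := by
    have : 3 * q ≤ c * q := Nat.mul_le_mul_right q (by omega)
    omega
  refine MG.main_gen (c := t) (y := q - 2 * t) (s := m + 2) (t := 3) (by omega) (by omega)
    (by omega) (by omega) (by omega) ?_ ?_
  · intro p hp
    exact level_two (m := m) (q := q) hq3 (by omega) p hp
  · refine level_high (by omega) ?_
    have e1 : K + 3 * t - 2 * (q - 2 * t) = K + 7 * t - 2 * q := by omega
    rw [e1]
    have h1 : (m + 1) * (K + 7 * t - 2 * q) + 2 * (c * q) = c * K + 7 * (c * t) := by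
      obtain ⟨r, hr⟩ : ∃ r, K + 7 * t = r + 2 * q := ⟨K + 7 * t - 2 * q, by omega⟩
      have e2 : K + 7 * t - 2 * q = r := by omega
      rw [e2, ← hc]
      have e3 : c * (K + 7 * t) = c * (r + 2 * q) := by rw [hr]
      have e4 : c * (K + 7 * t) = c * K + 7 * (c * t) := by ring
      have e5 : c * (r + 2 * q) = c * r + 2 * (c * q) := by ring
      omega
    have h2 : c * K = m * K + K := by rw [hc]; ring
    have h3 : 7 * (c * t) + 2 * c < K := by
      have : c * (42 * c + 9) = 7 * (c * t) + 2 * c := by rw [ht]; ring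
      omega
    omega

/-- Everything is killable. -/
theorem W_zero_all {K m : ℕ} (hm : 2 ≤ m) (hK : (m + 1) * (42 * (m + 1) + 9) < K) :
    W K (2 * m + 1) (2 * m + 3) 0 0 :=
  zero_of_main hm hK (main_t hm hK)

/-- `2 K ↦ ks` fails if the classes can be grouped into the sums `2 m + 1` and `2 K - 2 m - 3`. -/
theorem all_fails {K m l' r : ℕ} (hm : 2 ≤ m) (hK : (m + 1) * (42 * (m + 1) + 9) < K)
    (hl : 2 * m + 3 + l' = 2 * K) (ks : Fin r → ℕ) (J : Finset (Fin r))
    (hJ : ∑ i ∈ J, ks i = 2 * m + 1) (hJ' : ∑ i ∈ Jᶜ, ks i = l') : ¬ Arrow (2 * K) ks :=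
  not_arrow_of_W (by omega) hl (W_zero_all hm hK) ks J hJ hJ'

end Pool.Agent.Lib.MP_21a058_co.Slack3.GenArith
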