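import Pool.Agent.Lib.MP_21a058_co.Slack3.Rule

/-! Window `2 m + 1 ≤ red ≤ 2 m + 3` with `m` odd and `K` even, `14 (m + 1) < K`: bounds for the
alive sets, and if an alive set of `K - 2` edges cannot have `m - 1` red edges, then everything is
killable. -/

set_option autoImplicit false

namespace Pool.Agent.Lib.MP_21a058_co.Slack3.Gen

open Pool.Agent.Lib.MP_21a058_co.Slack3

theorem alive_R2 {K l u L p i j : ℕ} (hi : L + i ≤ K) (hj : L + j ≤ K) (hij : i + j ≤ K)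
    (h : ¬ W K l u L p) : ∃ a b, a ≤ i ∧ b ≤ j ∧ ¬ W K l u (L + i) (p + a) ∧
      ¬ W K l u (L + j) (p + b) ∧ ¬ W K l u (i + j) (a + b) := by
  by_contra hc
  apply h
  refine W_R2 hi hj hij fun a b ha hb => ?_
  by_cases h1 : W K l u (L + i) (p + a)
  · exact Or.inl h1
  by_cases h2 : W K l u (L + j) (p + b)
  · exact Or.inr (Or.inl h2)
  by_cases h3 : W K l u (i + j) (a + b)
  · exact Or.inr (Or.inr h3)
  · exact absurd ⟨a, b, ha, hb, h1, h2, h3⟩ hc

theorem top {K m L p : ℕ} (hL : L ≤ K) (hp : m + 3 ≤ p) : W K (2 * m + 1) (2 * m + 3) L p :=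
  W_base hL (Or.inl (by omega))

theorem bot {K m p : ℕ} (hp : p + 1 ≤ m) : W K (2 * m + 1) (2 * m + 3) K p :=
  W_base le_rfl (Or.inr (by omega))

theorem alive_K {K m p : ℕ} (h : ¬ W K (2 * m + 1) (2 * m + 3) K p) : m ≤ p ∧ p ≤ m + 2 := by
  constructor
  · by_contra hc
    exact h (bot (by omega))
  · by_contra hc
    exact h (top le_rfl (by omega))

theorem step {K m L p : ℕ} (hL : L ≤ K) (h : ¬ W K (2 * m + 1) (2 * m + 3) L p)
    (hD : 2 * (K : ℤ) < |(K : ℤ) * p - (m + 1) * L|) :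
    ∃ L' p', L' ≤ K ∧ ¬ W K (2 * m + 1) (2 * m + 3) L' p' ∧
      |(K : ℤ) * p - (m + 1) * L| < |(K : ℤ) * p' - (m + 1) * L'| := by
  obtain ⟨t, rfl⟩ := Nat.exists_eq_add_of_le hL
  have hK0 : (0 : ℤ) ≤ ((L + t : ℕ) : ℤ) := Int.natCast_nonneg _
  rcases le_total L t with h2 | h2
  · obtain ⟨a, b, ha, hb, h3, h4, h5⟩ :=
      alive_R2 (i := t) (j := L) (by omega) (by omega) (by omega) h
    refine ⟨L + L, p + b, by omega, h4, ?_⟩
    rw [show t + L = L + t by omega] at h5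
    obtain ⟨c1, c2⟩ := alive_K h3
    obtain ⟨c3, c4⟩ := alive_K h5
    have f1 : ((L + t : ℕ) : ℤ) * ((p : ℤ) - b) ≤ ((L + t : ℕ) : ℤ) * 2 :=
      mul_le_mul_of_nonneg_left (by omega) hK0
    have f2 : ((L + t : ℕ) : ℤ) * (-2) ≤ ((L + t : ℕ) : ℤ) * ((p : ℤ) - b) :=
      mul_le_mul_of_nonneg_left (by omega) hK0
    have e : ((L + t : ℕ) : ℤ) * ((p + b : ℕ) : ℤ) - (m + 1) * ((L + L : ℕ) : ℤ) =
        2 * (((L + t : ℕ) : ℤ) * p - (m + 1) * L) - ((L + t : ℕ) : ℤ) * ((p : ℤ) - b) := by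
      push_cast
      ring
    rw [e]
    generalize ((L + t : ℕ) : ℤ) * p - (m + 1) * (L : ℤ) = D at hD ⊢
    generalize ((L + t : ℕ) : ℤ) * ((p : ℤ) - b) = q at f1 f2 ⊢
    generalize ((L + t : ℕ) : ℤ) = k at *
    rcases abs_cases D with ⟨g1, g2⟩ | ⟨g1, g2⟩
    · rw [g1] at hD ⊢
      exact lt_of_lt_of_le (by linarith) (le_abs_self _)
    · rw [g1] at hD ⊢
      exact lt_of_lt_of_le (by linarith) (neg_le_abs _)
  · obtain ⟨a, b, ha, hb, h3, h4, h5⟩ :=
      alive_R2 (i := t) (j := t) (by omega) (by omega) (by omega) h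
    refine ⟨t + t, a + b, by omega, h5, ?_⟩
    obtain ⟨c1, c2⟩ := alive_K h3
    obtain ⟨c3, c4⟩ := alive_K h4
    have f1 : ((L + t : ℕ) : ℤ) * ((p : ℤ) + a - (m + 1) + (p + b - (m + 1))) ≤
        ((L + t : ℕ) : ℤ) * 2 := mul_le_mul_of_nonneg_left (by omega) hK0
    have f2 : ((L + t : ℕ) : ℤ) * (-2) ≤
        ((L + t : ℕ) : ℤ) * ((p : ℤ) + a - (m + 1) + (p + b - (m + 1))) :=
      mul_le_mul_of_nonneg_left (by omega) hK0
    have e : ((L + t : ℕ) : ℤ) * ((a + b : ℕ) : ℤ) - (m + 1) * ((t + t : ℕ) : ℤ) =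
        ((L + t : ℕ) : ℤ) * ((p : ℤ) + a - (m + 1) + (p + b - (m + 1))) -
          2 * (((L + t : ℕ) : ℤ) * p - (m + 1) * L) := by
      push_cast
      ring
    rw [e]
    generalize ((L + t : ℕ) : ℤ) * p - (m + 1) * (L : ℤ) = D at hD ⊢
    generalize ((L + t : ℕ) : ℤ) * ((p : ℤ) + a - (m + 1) + (p + b - (m + 1))) = q at f1 f2 ⊢
    generalize ((L + t : ℕ) : ℤ) = k at *
    rcases abs_cases D with ⟨g1, g2⟩ | ⟨g1, g2⟩
    · rw [g1] at hD ⊢
      exact lt_of_lt_of_le (by linarith) (neg_le_abs _)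
    · rw [g1] at hD ⊢
      exact lt_of_lt_of_le (by linarith) (le_abs_self _)

theorem grow {K m : ℕ} (n : ℕ) (h : ∃ L p, L ≤ K ∧ ¬ W K (2 * m + 1) (2 * m + 3) L p ∧
    2 * (K : ℤ) < |(K : ℤ) * p - (m + 1) * L|) :
    ∃ L p : ℕ, L ≤ K ∧ ¬ W K (2 * m + 1) (2 * m + 3) L p ∧
      2 * (K : ℤ) + n < |(K : ℤ) * p - (m + 1) * L| := by
  induction n with
  | zero =>
    obtain ⟨L, p, h1, h2, h3⟩ := h
    exact ⟨L, p, h1, h2, by push_cast; linarith⟩
  | succ n ih =>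
    obtain ⟨L, p, hL, hw, hD⟩ := ih
    have hn : (0 : ℤ) ≤ (n : ℤ) := Int.natCast_nonneg _
    obtain ⟨L', p', hL', hw', hD'⟩ := step hL hw (by linarith)
    refine ⟨L', p', hL', hw', ?_⟩
    push_cast
    linarith

/-- The deviation of an alive set from the mean is at most `2 K`. -/
theorem dev {K m L p : ℕ} (hL : L ≤ K) (hD : 2 * (K : ℤ) < |(K : ℤ) * p - (m + 1) * L|) :
    W K (2 * m + 1) (2 * m + 3) L p := by
  by_contra hw
  obtain ⟨L', p', hL', hw', hD'⟩ := grow (K * (m + 2)) ⟨L, p, hL, hw, hD⟩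
  have hp : p' ≤ m + 2 := by
    by_contra hc
    exact hw' (top hL' (by omega))
  have hK0 : (0 : ℤ) ≤ (K : ℤ) := Int.natCast_nonneg _
  have hm0 : (0 : ℤ) ≤ (m : ℤ) + 1 := by omega
  have f1 : (K : ℤ) * p' ≤ K * (m + 2) := mul_le_mul_of_nonneg_left (by omega) hK0
  have f2 : ((m : ℤ) + 1) * L' ≤ (m + 1) * K := mul_le_mul_of_nonneg_left (by omega) hm0
  have f3 : (0 : ℤ) ≤ K * p' := mul_nonneg hK0 (Int.natCast_nonneg _)
  have f4 : (0 : ℤ) ≤ ((m : ℤ) + 1) * L' := mul_nonneg hm0 (Int.natCast_nonneg _)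
  have f6 : (K : ℤ) * (m + 2) = (m + 1) * K + K := by ring
  have f5 : |(K : ℤ) * p' - (m + 1) * L'| ≤ K * (m + 2) :=
    abs_le.2 ⟨by linarith, by linarith⟩
  push_cast at hD'
  linarith

theorem small {K m L p : ℕ} (h : 14 * (m + 1) < K) (hL : L ≤ 14) (hp : 3 ≤ p) :
    W K (2 * m + 1) (2 * m + 3) L p := by
  refine dev (by omega) ?_
  have f1 : (K : ℤ) * 3 ≤ K * p := mul_le_mul_of_nonneg_left (by omega) (Int.natCast_nonneg _)
  have f2 : ((m : ℤ) + 1) * L ≤ (m + 1) * 14 := mul_le_mul_of_nonneg_left (by omega) (by omega)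
  have f3 : (14 : ℤ) * (m + 1) < K := by exact_mod_cast h
  refine lt_of_lt_of_le ?_ (le_abs_self _)
  linarith

theorem half {K m L p : ℕ} (hL : 2 * L ≤ K) (hp : m + 5 ≤ 2 * p) :
    W K (2 * m + 1) (2 * m + 3) L p := by
  refine W_R2 (i := K - L) (j := L) (by omega) (by omega) (by omega) fun a b ha hb => ?_
  by_cases h1 : m + 3 ≤ p + a
  · exact Or.inl (top (by omega) h1)
  by_cases h2 : m + 3 ≤ p + b
  · exact Or.inr (Or.inl (top (by omega) h2))
  right; right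
  rw [show K - L + L = K by omega]
  exact bot (by omega)

theorem km2 {K m c : ℕ} (h : 14 * (m + 1) < K) (hc : c + 1 ≤ m)
    (main : W K (2 * m + 1) (2 * m + 3) (K - 2) (m - 1)) :
    W K (2 * m + 1) (2 * m + 3) (K - 2) c := by
  by_cases h1 : c = m - 1
  · rw [h1]
    exact main
  by_cases h2 : c + 2 = m
  · refine W_R2 (i := 2) (j := 2) (by omega) (by omega) (by omega) fun a b ha hb => ?_
    rw [show K - 2 + 2 = K by omega]
    by_cases h3 : a ≤ 1
    · exact Or.inl (bot (by omega))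
    by_cases h4 : b ≤ 1
    · exact Or.inr (Or.inl (bot (by omega)))
    · exact Or.inr (Or.inr (small h (by omega) (by omega)))
  · exact W_base (by omega) (Or.inr (by omega))

theorem hk1 {K m p : ℕ} (hK : K % 2 = 0) (h : 14 * (m + 1) < K) (hp : m + 5 ≤ 2 * p)
    (main : W K (2 * m + 1) (2 * m + 3) (K - 2) (m - 1)) :
    W K (2 * m + 1) (2 * m + 3) (K / 2 + 1) p := by
  refine W_R2 (i := K / 2 - 1) (j := K / 2 - 1) (by omega) (by omega) (by omega)
    fun a b ha hb => ?_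
  by_cases h1 : m + 3 ≤ p + a
  · exact Or.inl (top (by omega) h1)
  by_cases h2 : m + 3 ≤ p + b
  · exact Or.inr (Or.inl (top (by omega) h2))
  right; right
  rw [show K / 2 - 1 + (K / 2 - 1) = K - 2 by omega]
  exact km2 h (by omega) main

theorem w22 {K m : ℕ} (hm : m % 2 = 1) (hK : K % 2 = 0) (h : 14 * (m + 1) < K)
    (main : W K (2 * m + 1) (2 * m + 3) (K - 2) (m - 1)) :
    W K (2 * m + 1) (2 * m + 3) 2 2 := by
  refine W_R2 (i := K / 2 - 1) (j := K / 2 - 1) (by omega) (by omega) (by omega)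
    fun a b ha hb => ?_
  rw [show 2 + (K / 2 - 1) = K / 2 + 1 by omega]
  by_cases h1 : m + 5 ≤ 2 * (2 + a)
  · exact Or.inl (hk1 hK h h1 main)
  by_cases h2 : m + 5 ≤ 2 * (2 + b)
  · exact Or.inr (Or.inl (hk1 hK h h2 main))
  right; right
  rw [show K / 2 - 1 + (K / 2 - 1) = K - 2 by omega]
  exact km2 h (by omega) main

theorem down {K m : ℕ} (hm : m % 2 = 1) (hK : K % 2 = 0) (h : 14 * (m + 1) < K)
    (main : W K (2 * m + 1) (2 * m + 3) (K - 2) (m - 1)) :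
    ∀ n, n ≤ K → W K (2 * m + 1) (2 * m + 3) (K - n) 0 := by
  intro n
  induction n with
  | zero =>
    intro _
    exact bot (by omega)
  | succ n ih =>
    intro hn
    have h1 := ih (by omega)
    refine W_R2 (i := 1) (j := 1) (by omega) (by omega) (by omega) fun a b ha hb => ?_
    rw [show K - (n + 1) + 1 = K - n by omega]
    by_cases h2 : a = 0
    · left
      subst h2
      exact h1
    by_cases h3 : b = 0
    · right; left
      subst h3
      exact h1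
    right; right
    have e1 : a = 1 := by omega
    have e2 : b = 1 := by omega
    subst e1 e2
    exact w22 hm hK h main

theorem W_zero_gen {K m : ℕ} (hm : m % 2 = 1) (hK : K % 2 = 0) (h : 14 * (m + 1) < K)
    (main : W K (2 * m + 1) (2 * m + 3) (K - 2) (m - 1)) :
    W K (2 * m + 1) (2 * m + 3) 0 0 := by
  have h1 := down hm hK h main K le_rfl
  rwa [Nat.sub_self] at h1

end Pool.Agent.Lib.MP_21a058_co.Slack3.Gen
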