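import Pool.Agent.Lib.MP_21a058_co.Slack3.Main88
import Pool.Agent.Lib.MP_21a058_co.Slack3.Gen
import Pool.Agent.Lib.MP_21a058_co.Slack3.Final

/-! Window `2 m + 1 .. 2 m + 3`, every `m ≥ 1` and every `K > 44 (m + 1)`: everything is killable. -/

set_option autoImplicit false

namespace Pool.Agent.Lib.MP_21a058_co.Slack3.All88

open Pool.Agent.Lib.MP_21a058_co.Slack3 Pool.Agent.Lib.MP_21a058_co.Slack3.Gen

/-- Many red edges. -/
theorem hi {K m L p : ℕ} (hL : L ≤ K) (h : (m + 1) * L + 2 * K < K * p) :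
    W K (2 * m + 1) (2 * m + 3) L p := by
  refine dev hL (lt_of_lt_of_le ?_ (le_abs_self _))
  have h' : ((m : ℤ) + 1) * L + 2 * K < K * p := by exact_mod_cast h
  linarith

/-- Few red edges. -/
theorem lo {K m L p : ℕ} (hL : L ≤ K) (h : K * p + 2 * K < (m + 1) * L) :
    W K (2 * m + 1) (2 * m + 3) L p := by
  refine dev hL (lt_of_lt_of_le ?_ (neg_le_abs _))
  have h' : (K : ℤ) * p + 2 * K < ((m : ℤ) + 1) * L := by exact_mod_cast h
  linarith

theorem low6 {K m Q : ℕ} (hm : 1 ≤ m) (hK : 44 * (m + 1) < K) (h1 : (m + 1) * Q < K)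
    (h2 : K ≤ (m + 1) * Q + (m + 1)) : W K (2 * m + 1) (2 * m + 3) (K - 6) (m - 1) := by
  have hQ : 44 ≤ Q := by
    by_contra hc
    have h3 : (m + 1) * Q ≤ (m + 1) * 43 := Nat.mul_le_mul_left _ (by omega)
    omega
  have h4 : 2 * Q ≤ (m + 1) * Q := Nat.mul_le_mul_right _ (by omega)
  refine MG.main_gen (c := 6) (y := Q - 12) (s := m + 2) (t := 3) hm (by omega) (by omega)
    (by omega) (by omega) ?_ ?_
  · intro p hp
    rw [show 2 * 6 + (Q - 12) = Q by omega]
    refine hi (by omega) ?_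
    have h5 : K * 3 ≤ K * p := Nat.mul_le_mul_left _ hp
    omega
  · intro p hp
    refine hi (by omega) ?_
    have h5 : K * (m + 2) ≤ K * p := Nat.mul_le_mul_left _ hp
    have h6 : (m + 1) * (K + 3 * 6 - 2 * (Q - 12)) + 2 * ((m + 1) * Q) = (m + 1) * K + 42 * (m + 1) := by
      have e : K + 3 * 6 - 2 * (Q - 12) + 2 * Q = K + 42 := by omega
      calc (m + 1) * (K + 3 * 6 - 2 * (Q - 12)) + 2 * ((m + 1) * Q)
          = (m + 1) * (K + 3 * 6 - 2 * (Q - 12) + 2 * Q) := by ring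
        _ = (m + 1) * (K + 42) := by rw [e]
        _ = (m + 1) * K + 42 * (m + 1) := by ring
    have h7 : K * (m + 2) = (m + 1) * K + K := by ring
    omega

theorem low6' {K m Q p : ℕ} (hm : 1 ≤ m) (hK : 44 * (m + 1) < K) (h1 : (m + 1) * Q < K)
    (h2 : K ≤ (m + 1) * Q + (m + 1)) (hp : p + 1 ≤ m) :
    W K (2 * m + 1) (2 * m + 3) (K - 6) p := by
  by_cases h3 : p = m - 1
  · rw [h3]
    exact low6 hm hK h1 h2
  · refine lo (by omega) ?_
    obtain ⟨n, rfl⟩ : ∃ n, m = p + 2 + n := ⟨m - (p + 2), by omega⟩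
    have h4 : (p + 2 + n + 1) * (K - 6) + (p + 2 + n + 1) * 6 = (p + 2 + n + 1) * K := by
      rw [← Nat.mul_add, show K - 6 + 6 = K by omega]
    have h5 : (p + 2 + n + 1) * K = K * p + 3 * K + n * K := by ring
    have h6 : 0 ≤ n * K := Nat.zero_le _
    omega

theorem w22 {K m Q : ℕ} (hm : 1 ≤ m) (hK : 44 * (m + 1) < K) (h1 : (m + 1) * Q < K)
    (h2 : K ≤ (m + 1) * Q + (m + 1)) : W K (2 * m + 1) (2 * m + 3) 2 2 := by
  have hQ : 44 ≤ Q := by
    by_contra hc
    have h3 : (m + 1) * Q ≤ (m + 1) * 43 := Nat.mul_le_mul_left _ (by omega)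
    omega
  have h4 : 2 * Q ≤ (m + 1) * Q := Nat.mul_le_mul_right _ (by omega)
  refine W_R2 (i := Q - 2) (j := K - 4 - Q) (by omega) (by omega) (by omega) fun a b ha hb => ?_
  by_cases ha0 : 1 ≤ a
  · left
    rw [show 2 + (Q - 2) = Q by omega]
    refine hi (by omega) ?_
    have h5 : K * 3 ≤ K * (2 + a) := Nat.mul_le_mul_left _ (by omega)
    omega
  by_cases hb0 : m ≤ b
  · right; left
    refine hi (by omega) ?_
    have h5 : K * (m + 2) ≤ K * (2 + b) := Nat.mul_le_mul_left _ (by omega)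
    have h6 : (m + 1) * (2 + (K - 4 - Q)) + (m + 1) * Q + 2 * (m + 1) = (m + 1) * K := by
      have e : 2 + (K - 4 - Q) + Q + 2 = K := by omega
      calc (m + 1) * (2 + (K - 4 - Q)) + (m + 1) * Q + 2 * (m + 1)
          = (m + 1) * (2 + (K - 4 - Q) + Q + 2) := by ring
        _ = (m + 1) * K := by rw [e]
    have h7 : K * (m + 2) = (m + 1) * K + K := by ring
    omega
  · right; right
    rw [show Q - 2 + (K - 4 - Q) = K - 6 by omega]
    exact low6' hm hK h1 h2 (by omega)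

theorem down {K m Q : ℕ} (hm : 1 ≤ m) (hK : 44 * (m + 1) < K) (h1 : (m + 1) * Q < K)
    (h2 : K ≤ (m + 1) * Q + (m + 1)) : ∀ n, n ≤ K → W K (2 * m + 1) (2 * m + 3) (K - n) 0 := by
  intro n
  induction n with
  | zero =>
    intro _
    exact bot (by omega)
  | succ n ih =>
    intro hn
    have h3 := ih (by omega)
    refine W_R2 (i := 1) (j := 1) (by omega) (by omega) (by omega) fun a b ha hb => ?_
    rw [show K - (n + 1) + 1 = K - n by omega]
    by_cases h4 : a = 0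
    · left
      subst h4
      exact h3
    by_cases h5 : b = 0
    · right; left
      subst h5
      exact h3
    right; right
    have e1 : a = 1 := by omega
    have e2 : b = 1 := by omega
    subst e1 e2
    exact w22 hm hK h1 h2

theorem W_zero {K m : ℕ} (hm : 1 ≤ m) (hK : 44 * (m + 1) < K) :
    W K (2 * m + 1) (2 * m + 3) 0 0 := by
  have e := Nat.div_add_mod (K - 1) (m + 1)
  have e' := Nat.mod_lt (K - 1) (Nat.succ_pos m)
  have h := down (K := K) (Q := (K - 1) / (m + 1)) hm hK (by omega) (by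
    have e'' : (K - 1) % (m + 1) < m + 1 := e'
    omega) K le_rfl
  rwa [Nat.sub_self] at h

open Finset Pool.Agent.Lib.MP_21a058_co

/-- **Classes with an odd sum `2 m + 1 ≥ 3` against the rest.** -/
theorem not_arrow {K m l' r : ℕ} (hm : 1 ≤ m) (hK : 44 * (m + 1) < K)
    (hl : 2 * m + 3 + l' = 2 * K) (ks : Fin r → ℕ) (J : Finset (Fin r))
    (hJ : ∑ i ∈ J, ks i = 2 * m + 1) (hJ' : ∑ i ∈ Jᶜ, ks i = l') : ¬ Arrow (2 * K) ks :=
  not_arrow_of_W (by omega) hl (W_zero hm hK) ks J hJ hJ'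

/-- A set of classes with an odd sum `a ≥ 3` and the other ones with an odd sum `b ≥ 43 a + 44`:
`a + b + 2` is not enough. -/
theorem slack_three {r : ℕ} (k : ℕ) (ks : Fin r → ℕ) (J : Finset (Fin r))
    (h3 : 3 ≤ ∑ i ∈ J, ks i) (ho : Odd (∑ i ∈ J, ks i)) (ho' : Odd (∑ i ∈ Jᶜ, ks i))
    (hb : 43 * ∑ i ∈ J, ks i + 44 ≤ ∑ i ∈ Jᶜ, ks i) (h : Arrow k ks) :
    ∑ i, ks i + 3 ≤ k := by
  by_contra hc
  obtain ⟨m, hm⟩ := ho
  obtain ⟨n, hn⟩ := ho'
  have hs : ∑ i ∈ J, ks i + ∑ i ∈ Jᶜ, ks i = ∑ i, ks i := sum_add_sum_compl J ks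
  refine not_arrow (K := m + n + 2) (m := m) (l' := 2 * n + 1) (by omega) (by omega) (by omega)
    ks J hm hn (arrow_mono (by omega) h)

end Pool.Agent.Lib.MP_21a058_co.Slack3.All88
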