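import Mathlib

/-! Deviation of the alive sets for odd `k = 2 h + 1`, window `2 m + 1 ≤ red ≤ 2 m + 3`. No graphs. -/

set_option autoImplicit false

namespace Pool.Agent.Lib.MP_21a058_co.Slack3.DevOdd

/-- the deviation from the mean -/
def D (h m L p : ℕ) : ℤ := (2 * (h : ℤ) + 1) * p - (2 * m + 2) * L

theorem D_h {h m q : ℕ} (hq : q ≤ m + 2) : D h m h q ≤ 2 * h + m + 2 := by
  have h0 : (0 : ℤ) ≤ 2 * (h : ℤ) + 1 := by omega
  have h1 : (2 * (h : ℤ) + 1) * q ≤ (2 * (h : ℤ) + 1) * (m + 2) :=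
    mul_le_mul_of_nonneg_left (by exact_mod_cast hq) h0
  have h2 : (2 * (h : ℤ) + 1) * (m + 2) - (2 * m + 2) * h = 2 * h + m + 2 := by ring
  unfold D
  linarith

theorem D_h1 {h m q : ℕ} (hq : m ≤ q) : -(2 * (h : ℤ) + m + 2) ≤ D h m (h + 1) q := by
  have h0 : (0 : ℤ) ≤ 2 * (h : ℤ) + 1 := by omega
  have h1 : (2 * (h : ℤ) + 1) * m ≤ (2 * (h : ℤ) + 1) * q :=
    mul_le_mul_of_nonneg_left (by exact_mod_cast hq) h0
  have h2 : (2 * (h : ℤ) + 1) * m - (2 * m + 2) * ((h + 1 : ℕ) : ℤ) = -(2 * h + m + 2) := by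
    push_cast
    ring
  unfold D
  linarith

theorem D_h1' {h m q : ℕ} (hq : q ≤ m + 3) : D h m (h + 1) q ≤ 2 * (2 * h + m + 2) := by
  have h0 : (0 : ℤ) ≤ 2 * (h : ℤ) + 1 := by omega
  have h1 : (2 * (h : ℤ) + 1) * q ≤ (2 * (h : ℤ) + 1) * (m + 3) :=
    mul_le_mul_of_nonneg_left (by exact_mod_cast hq) h0
  have h2 : (2 * (h : ℤ) + 1) * (m + 3) - (2 * m + 2) * ((h + 1 : ℕ) : ℤ) = 4 * h - m + 1 := by
    push_cast
    ring
  have h3 : (0 : ℤ) ≤ m := Int.natCast_nonneg _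
  unfold D
  linarith

section

variable {h m : ℕ} {Wp : ℕ → ℕ → Prop}

/-- What is used of the calculus. -/
structure Ctx (h m : ℕ) (Wp : ℕ → ℕ → Prop) : Prop where
  bh : ∀ p, p + 2 ≤ m ∨ m + 3 ≤ p → Wp h p
  bh1 : ∀ p, p + 1 ≤ m ∨ m + 4 ≤ p → Wp (h + 1) p
  r2 : ∀ L p i j, L ≤ h → i ≤ h → j ≤ h → L + i ≤ h + 1 → L + j ≤ h + 1 → i + j ≤ h + 1 →
    (∀ a b, a ≤ i → b ≤ j → Wp (L + i) (p + a) ∨ Wp (L + j) (p + b) ∨ Wp (i + j) (a + b)) → Wp L p

theorem Ctx.alive (c : Ctx h m Wp) {L p : ℕ} (hw : ¬ Wp L p) (i j : ℕ) (hL : L ≤ h) (hi : i ≤ h)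
    (hj : j ≤ h) (hLi : L + i ≤ h + 1) (hLj : L + j ≤ h + 1) (hij : i + j ≤ h + 1) :
    ∃ a b, a ≤ i ∧ b ≤ j ∧ ¬ Wp (L + i) (p + a) ∧ ¬ Wp (L + j) (p + b) ∧ ¬ Wp (i + j) (a + b) := by
  by_contra hc
  apply hw
  refine c.r2 L p i j hL hi hj hLi hLj hij fun a b ha hb => ?_
  by_contra hn
  push Not at hn
  exact hc ⟨a, b, ha, hb, hn.1, hn.2.1, hn.2.2⟩

theorem Ctx.top (c : Ctx h m Wp) {L p : ℕ} (hL : L ≤ h) (hw : ¬ Wp L p) : p ≤ m + 2 := by
  obtain ⟨a, b, ha, hb, h1, h2, h3⟩ := c.alive hw (h - L) 0 hL (by omega) (by omega) (by omega)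
    (by omega) (by omega)
  by_contra hc
  apply h1
  rw [show L + (h - L) = h by omega]
  exact c.bh _ (Or.inr (by omega))

theorem Ctx.up_h (c : Ctx h m Wp) {q : ℕ} (hw : ¬ Wp h q) : D h m h q ≤ 2 * h + m + 2 :=
  D_h (c.top le_rfl hw)

theorem Ctx.lo_h1 (c : Ctx h m Wp) {q : ℕ} (hw : ¬ Wp (h + 1) q) :
    -(2 * (h : ℤ) + m + 2) ≤ D h m (h + 1) q := by
  refine D_h1 ?_
  by_contra hc
  exact hw (c.bh1 _ (Or.inl (by omega)))

theorem Ctx.up_h1 (c : Ctx h m Wp) {q : ℕ} (hw : ¬ Wp (h + 1) q) :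
    D h m (h + 1) q ≤ 2 * (2 * h + m + 2) := by
  refine D_h1' ?_
  by_contra hc
  exact hw (c.bh1 _ (Or.inr (by omega)))

theorem Ctx.step (c : Ctx h m Wp) {L p : ℕ} (hL : 1 ≤ L) (hLh : L ≤ h) (hw : ¬ Wp L p)
    (hD : 2 * (2 * (h : ℤ) + m + 2) < |D h m L p|) :
    ∃ L' p', 1 ≤ L' ∧ L' ≤ h ∧ ¬ Wp L' p' ∧ |D h m L p| < |D h m L' p'| := by
  rcases abs_cases (D h m L p) with ⟨g1, g2⟩ | ⟨g1, g2⟩
  · rw [g1] at hD ⊢
    by_cases h2 : 2 * L ≤ h
    · obtain ⟨a, b, ha, hb, w1, w2, w3⟩ := c.alive hw (h - L) (L + 1) hLh (by omega) (by omega)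
        (by omega) (by omega) (by omega)
      rw [show L + (h - L) = h by omega] at w1
      rw [show L + (L + 1) = 2 * L + 1 by omega] at w2
      rw [show h - L + (L + 1) = h + 1 by omega] at w3
      have e : D h m (2 * L + 1) (p + b) = 2 * D h m L p - D h m h (p + a) + D h m (h + 1) (a + b) := by
        unfold D
        push_cast
        ring
      have f1 := c.up_h w1
      have f2 := c.lo_h1 w3
      have f3 : D h m L p < D h m (2 * L + 1) (p + b) := by linarith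
      by_cases h3 : 2 * L + 1 ≤ h
      · exact ⟨2 * L + 1, p + b, by omega, h3, w2, lt_of_lt_of_le f3 (le_abs_self _)⟩
      · exfalso
        rw [show 2 * L + 1 = h + 1 by omega] at w2 f3
        have f4 := c.up_h1 w2
        linarith
    · obtain ⟨a, b, ha, hb, w1, w2, w3⟩ := c.alive hw (h - L) (h - L) hLh (by omega) (by omega)
        (by omega) (by omega) (by omega)
      rw [show L + (h - L) = h by omega] at w1 w2
      rw [show h - L + (h - L) = 2 * (h - L) by omega] at w3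
      obtain ⟨t, rfl⟩ : ∃ t, h = L + t := ⟨h - L, by omega⟩
      rw [show L + t - L = t by omega] at w3 ha hb
      have e : D (L + t) m (2 * t) (a + b) = D (L + t) m (L + t) (p + a) +
          D (L + t) m (L + t) (p + b) - 2 * D (L + t) m L p := by
        unfold D
        push_cast
        ring
      have f1 := c.up_h w1
      have f2 := c.up_h w2
      have f3 : D (L + t) m L p < - D (L + t) m (2 * t) (a + b) := by linarith
      rcases Nat.eq_zero_or_pos t with ht | ht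
      · exfalso
        subst ht
        have e2 : D (L + 0) m (2 * 0) (a + b) = 0 := by
          have : a + b = 0 := by omega
          rw [this]
          unfold D
          push_cast
          ring
        rw [e2] at f3
        linarith
      · exact ⟨2 * t, a + b, by omega, by omega, w3, lt_of_lt_of_le f3 (neg_le_abs _)⟩
  · rw [g1] at hD ⊢
    by_cases h2 : 2 * L ≤ h + 1
    · obtain ⟨a, b, ha, hb, w1, w2, w3⟩ := c.alive hw (h + 1 - L) (L - 1) hLh (by omega) (by omega)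
        (by omega) (by omega) (by omega)
      obtain ⟨s, rfl⟩ : ∃ s, L = s + 1 := ⟨L - 1, by omega⟩
      rw [show s + 1 + (h + 1 - (s + 1)) = h + 1 by omega] at w1
      rw [show s + 1 + (s + 1 - 1) = 2 * s + 1 by omega] at w2
      rw [show h + 1 - (s + 1) + (s + 1 - 1) = h by omega] at w3
      have e : D h m (2 * s + 1) (p + b) = 2 * D h m (s + 1) p - D h m (h + 1) (p + a) +
          D h m h (a + b) := by
        unfold D
        push_cast
        ring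
      have f1 := c.lo_h1 w1
      have f2 := c.up_h w3
      have f3 : - D h m (s + 1) p < - D h m (2 * s + 1) (p + b) := by linarith
      exact ⟨2 * s + 1, p + b, by omega, by omega, w2, lt_of_lt_of_le f3 (neg_le_abs _)⟩
    · obtain ⟨a, b, ha, hb, w1, w2, w3⟩ := c.alive hw (h + 1 - L) (h + 1 - L) hLh (by omega)
        (by omega) (by omega) (by omega) (by omega)
      obtain ⟨t, rfl⟩ : ∃ t, h = L + t := ⟨h - L, by omega⟩
      rw [show L + (L + t + 1 - L) = L + t + 1 by omega] at w1 w2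
      rw [show L + t + 1 - L + (L + t + 1 - L) = 2 * (t + 1) by omega] at w3
      have e : D (L + t) m (2 * (t + 1)) (a + b) = D (L + t) m (L + t + 1) (p + a) +
          D (L + t) m (L + t + 1) (p + b) - 2 * D (L + t) m L p := by
        unfold D
        push_cast
        ring
      have f1 := c.lo_h1 w1
      have f2 := c.lo_h1 w2
      have f3 : - D (L + t) m L p < D (L + t) m (2 * (t + 1)) (a + b) := by linarith
      exact ⟨2 * (t + 1), a + b, by omega, by omega, w3, lt_of_lt_of_le f3 (le_abs_self _)⟩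

theorem Ctx.grow (c : Ctx h m Wp) (n : ℕ) (hx : ∃ L p, 1 ≤ L ∧ L ≤ h ∧ ¬ Wp L p ∧
    2 * (2 * (h : ℤ) + m + 2) < |D h m L p|) :
    ∃ L p : ℕ, 1 ≤ L ∧ L ≤ h ∧ ¬ Wp L p ∧ 2 * (2 * (h : ℤ) + m + 2) + n < |D h m L p| := by
  induction n with
  | zero =>
    obtain ⟨L, p, h0, h1, h2, h3⟩ := hx
    exact ⟨L, p, h0, h1, h2, by push_cast; linarith⟩
  | succ n ih =>
    obtain ⟨L, p, h0, hL, hw, hD⟩ := ih
    have hn : (0 : ℤ) ≤ (n : ℤ) := Int.natCast_nonneg _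
    obtain ⟨L', p', h0', hL', hw', hD'⟩ := c.step h0 hL hw (by linarith)
    refine ⟨L', p', h0', hL', hw', ?_⟩
    push_cast
    linarith

/-- The deviation of an alive set from the mean is at most `2 (2 h + m + 2)`. -/
theorem Ctx.dev (c : Ctx h m Wp) {L p : ℕ} (h0 : 1 ≤ L) (hL : L ≤ h)
    (hD : 2 * (2 * (h : ℤ) + m + 2) < |(2 * (h : ℤ) + 1) * p - (2 * m + 2) * L|) : Wp L p := by
  by_contra hw
  obtain ⟨L', p', h0', hL', hw', hD'⟩ := c.grow ((2 * h + 1) * (m + 2) + (2 * m + 2) * h)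
    ⟨L, p, h0, hL, hw, hD⟩
  have hp := c.top hL' hw'
  have hK0 : (0 : ℤ) ≤ 2 * (h : ℤ) + 1 := by omega
  have hm0 : (0 : ℤ) ≤ 2 * (m : ℤ) + 2 := by omega
  have f1 : (2 * (h : ℤ) + 1) * p' ≤ (2 * h + 1) * (m + 2) :=
    mul_le_mul_of_nonneg_left (by exact_mod_cast hp) hK0
  have f2 : (2 * (m : ℤ) + 2) * L' ≤ (2 * m + 2) * h :=
    mul_le_mul_of_nonneg_left (by exact_mod_cast hL') hm0
  have f3 : (0 : ℤ) ≤ (2 * (h : ℤ) + 1) * p' := mul_nonneg hK0 (Int.natCast_nonneg _)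
  have f4 : (0 : ℤ) ≤ (2 * (m : ℤ) + 2) * L' := mul_nonneg hm0 (Int.natCast_nonneg _)
  have f6 : (0 : ℤ) ≤ (2 * (h : ℤ) + 1) * (m + 2) := mul_nonneg hK0 (by omega)
  have f7 : (0 : ℤ) ≤ (2 * (m : ℤ) + 2) * h := mul_nonneg hm0 (Int.natCast_nonneg _)
  have f5 : |D h m L' p'| ≤ (2 * (h : ℤ) + 1) * (m + 2) + (2 * m + 2) * h := by
    unfold D
    exact abs_le.2 ⟨by linarith, by linarith⟩
  push_cast at hD'
  linarith

/-- Few red edges: `p` red with `(2h+1) p` too large. -/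
theorem Ctx.hi (c : Ctx h m Wp) {L p : ℕ} (h0 : 1 ≤ L) (hL : L ≤ h)
    (hD : (2 * m + 2) * L + 2 * (2 * h + m + 2) < (2 * h + 1) * p) : Wp L p := by
  refine c.dev h0 hL (lt_of_lt_of_le ?_ (le_abs_self _))
  have : ((2 * m + 2) * L + 2 * (2 * h + m + 2) : ℤ) < (2 * h + 1) * p := by exact_mod_cast hD
  linarith

/-- Many red edges: `p` red with `(2h+1) p` too small. -/
theorem Ctx.lo (c : Ctx h m Wp) {L p : ℕ} (h0 : 1 ≤ L) (hL : L ≤ h)
    (hD : (2 * h + 1) * p + 2 * (2 * h + m + 2) < (2 * m + 2) * L) : Wp L p := by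
  refine c.dev h0 hL (lt_of_lt_of_le ?_ (neg_le_abs _))
  have : ((2 * h + 1) * p + 2 * (2 * h + m + 2) : ℤ) < (2 * m + 2) * L := by exact_mod_cast hD
  linarith

end

end Pool.Agent.Lib.MP_21a058_co.Slack3.DevOdd
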