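import Pool.Agent.Lib.MP_21a058_co.Odd.Def

/-! Killable sets of colourings of the root bundle, for odd edge-connectivity `2 h + 1` and a window
`l ≤ red ≤ u`: nodes with three vertices. -/

set_option autoImplicit false

namespace Pool.Agent.Lib.MP_21a058_co.Slack3

open Pool.Agent.Lib.MP_21a058_co.Odd (red red_sum red_equiv red_le)

/-- `Kill3 h l u I A`: some structure over the root bundle `I` with `2 h + 1` edges has no good
colouring whose restriction to `I` lies in `A`. The node has three vertices: `Ji` are the root edges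
of the vertex `i`, `Ni` are the edges between the two vertices other than `i`. The last clause is
the cut of the vertices 2 and 3, of size `2 h + 2`. -/
inductive Kill3 (h l u : ℕ) : (I : Type) → Set (I → Bool) → Prop
  | leaf (I : Type) (A : Set (I → Bool)) (hA : ∀ x ∈ A, red x < l ∨ u < red x) : Kill3 h l u I A
  | node (I J1 J2 J3 N1 N2 N3 : Type) (q : ℕ) (hq : 1 ≤ q) (hq' : q ≤ h)
      (c1 : Nat.card J1 = h) (c2 : Nat.card J2 = q) (c3 : Nat.card J3 = h + 1 - q)
      (d1 : Nat.card N1 = h) (d2 : Nat.card N2 = q) (d3 : Nat.card N3 = h + 1 - q)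
      (e : I ≃ J1 ⊕ (J2 ⊕ J3))
      (A1 : Set (J1 ⊕ (N2 ⊕ N3) → Bool)) (A2 : Set (J2 ⊕ (N1 ⊕ N3) → Bool))
      (A3 : Set (J3 ⊕ (N1 ⊕ N2) → Bool)) (A : Set (I → Bool))
      (k1 : Kill3 h l u (J1 ⊕ (N2 ⊕ N3)) A1) (k2 : Kill3 h l u (J2 ⊕ (N1 ⊕ N3)) A2)
      (k3 : Kill3 h l u (J3 ⊕ (N1 ⊕ N2)) A3)
      (hA : ∀ x ∈ A, (red x < l ∨ u < red x) ∨
        ∀ (n1 : N1 → Bool) (n2 : N2 → Bool) (n3 : N3 → Bool),
          Sum.elim (fun j => x (e.symm (Sum.inl j))) (Sum.elim n2 n3) ∈ A1 ∨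
          Sum.elim (fun j => x (e.symm (Sum.inr (Sum.inl j)))) (Sum.elim n1 n3) ∈ A2 ∨
          Sum.elim (fun j => x (e.symm (Sum.inr (Sum.inr j)))) (Sum.elim n1 n2) ∈ A3 ∨
          (red (fun j => x (e.symm (Sum.inr j))) + red n2 + red n3 < l ∨
            u + 1 < red (fun j => x (e.symm (Sum.inr j))) + red n2 + red n3)) : Kill3 h l u I A

/-- `p` red edges among `L ≤ h` edges which stay alive are refutable. -/
def W3 (h l u L p : ℕ) : Prop :=
  ∀ (F R : Type) [Finite F] [Finite R], Nat.card F = L → Nat.card F + Nat.card R = 2 * h + 1 →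
    ∀ T : Set (F → Bool), Kill3 h l u (F ⊕ R) {x | (fun f => x (Sum.inl f)) ∈ T} →
      Kill3 h l u (F ⊕ R) {x | (fun f => x (Sum.inl f)) ∈ T ∨ red (fun f => x (Sum.inl f)) = p}

end Pool.Agent.Lib.MP_21a058_co.Slack3
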