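import Pool.Agent.Lib.MP_21a058_co.Odd.Gad3
import Pool.Agent.Lib.MP_21a058_co.Slack3.Kill3

/-! Soundness for odd edge-connectivity and a window: a structure which excludes all colourings is a
`(2 h + 1)`-edge-connected multigraph without the decomposition. -/

set_option autoImplicit false

namespace Pool.Agent.Lib.MP_21a058_co.Slack3

open Finset Pool.Agent.Lib.MP_21a058_co
open Pool.Agent.Lib.MP_21a058_co.Odd (red cn cn_sum cn_equiv cn_le_card cn_true cn_not cn_mono
  red_eq Gadget cutw_eq cn_zero cn_false cn_congr)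

theorem leafG3 {h l u l' : ℕ} (hl : u + l' = 2 * h + 1) {I : Type} [Fintype I]
    (hI : Fintype.card I = 2 * h + 1) {A : Set (I → Bool)}
    (hA : ∀ x ∈ A, red x < l ∨ u < red x) : Nonempty (Gadget 0 l l' I A) := by
  refine ⟨⟨Unit, Empty, inferInstance, inferInstance, fun _ => (), fun e => e.elim, fun e => e.elim,
    fun e => e.elim, fun S o t => ⟨S (), ?_, fun _ => ?_⟩, fun x y hx => ⟨fun _ => true, ⟨(), rfl⟩, ?_⟩⟩⟩
  · refine (cn_mono _ _ fun i hi => ?_).trans (Nat.le_add_left _ _)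
    rw [Bool.xor_comm]
    exact hi
  · by_cases h1 : S () = t
    · exact Or.inl fun _ => h1
    · exact Or.inr h1
  · have h1 := hA x hx
    rw [red_eq] at h1
    have h2 := cn_not x
    have e1 : cn (fun i => true && x i) = cn x := rfl
    have e2 : cn (fun i => true && !x i) = cn (fun i => !x i) := rfl
    have e3 : ∀ p : Empty → Bool, cn p = 0 := fun p => by
      unfold cn
      simp
    show cn _ + cn (fun i => true && x i) < l ∨ cn _ + cn (fun i => true && !x i) < l'
    rw [e1, e2, e3, e3]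
    omega

/-- Three gadgets joined to a triangle. -/
theorem nodeG3 {h l u l' : ℕ} (hl : u + l' = 2 * h + 1) {I J1 J2 J3 N1 N2 N3 : Type} [Fintype I]
    [Fintype J1] [Fintype J2] [Fintype J3] [Fintype N1] [Fintype N2] [Fintype N3] {q : ℕ}
    (hq : 1 ≤ q) (hq' : q ≤ h)
    (c1 : Fintype.card J1 = h) (c2 : Fintype.card J2 = q) (c3 : Fintype.card J3 = h + 1 - q)
    (d1 : Fintype.card N1 = h) (d2 : Fintype.card N2 = q) (d3 : Fintype.card N3 = h + 1 - q)
    (hI : Fintype.card I = 2 * h + 1) (e : I ≃ J1 ⊕ (J2 ⊕ J3))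
    {A1 : Set (J1 ⊕ (N2 ⊕ N3) → Bool)} {A2 : Set (J2 ⊕ (N1 ⊕ N3) → Bool)}
    {A3 : Set (J3 ⊕ (N1 ⊕ N2) → Bool)} {A : Set (I → Bool)}
    (G1 : Gadget 0 l l' (J1 ⊕ (N2 ⊕ N3)) A1) (G2 : Gadget 0 l l' (J2 ⊕ (N1 ⊕ N3)) A2)
    (G3 : Gadget 0 l l' (J3 ⊕ (N1 ⊕ N2)) A3)
    (hA : ∀ x ∈ A, (red x < l ∨ u < red x) ∨
        ∀ (n1 : N1 → Bool) (n2 : N2 → Bool) (n3 : N3 → Bool),
          Sum.elim (fun j => x (e.symm (Sum.inl j))) (Sum.elim n2 n3) ∈ A1 ∨
          Sum.elim (fun j => x (e.symm (Sum.inr (Sum.inl j)))) (Sum.elim n1 n3) ∈ A2 ∨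
          Sum.elim (fun j => x (e.symm (Sum.inr (Sum.inr j)))) (Sum.elim n1 n2) ∈ A3 ∨
          (red (fun j => x (e.symm (Sum.inr j))) + red n2 + red n3 < l ∨
            u + 1 < red (fun j => x (e.symm (Sum.inr j))) + red n2 + red n3)) :
    Nonempty (Gadget 0 l l' I A) := by
  obtain ⟨V1, E1, fV1, fE1, loc1, a1, b1, ne1, g1, w1⟩ := G1
  obtain ⟨V2, E2, fV2, fE2, loc2, a2, b2, ne2, g2, w2⟩ := G2
  obtain ⟨V3, E3, fV3, fE3, loc3, a3, b3, ne3, g3, w3⟩ := G3
  let loc0 : J1 ⊕ (J2 ⊕ J3) → V1 ⊕ (V2 ⊕ V3) :=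
    Sum.elim (fun j => Sum.inl (loc1 (Sum.inl j)))
      (Sum.elim (fun j => Sum.inr (Sum.inl (loc2 (Sum.inl j))))
        (fun j => Sum.inr (Sum.inr (loc3 (Sum.inl j)))))
  let a : (N1 ⊕ (N2 ⊕ N3)) ⊕ (E1 ⊕ (E2 ⊕ E3)) → V1 ⊕ (V2 ⊕ V3) :=
    Sum.elim (Sum.elim (fun n => Sum.inr (Sum.inl (loc2 (Sum.inr (Sum.inl n)))))
      (Sum.elim (fun n => Sum.inl (loc1 (Sum.inr (Sum.inl n))))
        (fun n => Sum.inl (loc1 (Sum.inr (Sum.inr n))))))
      (Sum.elim (fun f => Sum.inl (a1 f)) (Sum.elim (fun f => Sum.inr (Sum.inl (a2 f)))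
        (fun f => Sum.inr (Sum.inr (a3 f)))))
  let b : (N1 ⊕ (N2 ⊕ N3)) ⊕ (E1 ⊕ (E2 ⊕ E3)) → V1 ⊕ (V2 ⊕ V3) :=
    Sum.elim (Sum.elim (fun n => Sum.inr (Sum.inr (loc3 (Sum.inr (Sum.inl n)))))
      (Sum.elim (fun n => Sum.inr (Sum.inr (loc3 (Sum.inr (Sum.inr n)))))
        (fun n => Sum.inr (Sum.inl (loc2 (Sum.inr (Sum.inr n)))))))
      (Sum.elim (fun f => Sum.inl (b1 f)) (Sum.elim (fun f => Sum.inr (Sum.inl (b2 f)))
        (fun f => Sum.inr (Sum.inr (b3 f)))))
  -- the counts for the root edges and for the inner edges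
  have q1 : ∀ z : J1 ⊕ (J2 ⊕ J3) → Bool, cn (fun i => z (e i)) =
      cn (fun j => z (Sum.inl j)) + (cn (fun j => z (Sum.inr (Sum.inl j))) +
        cn (fun j => z (Sum.inr (Sum.inr j)))) := by
    intro z
    rw [cn_equiv e z, cn_sum, cn_sum]
  have q3 : ∀ z : (N1 ⊕ (N2 ⊕ N3)) ⊕ (E1 ⊕ (E2 ⊕ E3)) → Bool, cn z =
      (cn (fun n => z (Sum.inl (Sum.inl n))) + (cn (fun n => z (Sum.inl (Sum.inr (Sum.inl n)))) +
        cn (fun n => z (Sum.inl (Sum.inr (Sum.inr n)))))) +
      (cn (fun n => z (Sum.inr (Sum.inl n))) + (cn (fun n => z (Sum.inr (Sum.inr (Sum.inl n)))) +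
        cn (fun n => z (Sum.inr (Sum.inr (Sum.inr n)))))) := by
    intro z
    rw [cn_sum, cn_sum, cn_sum (fun i => z (Sum.inl (Sum.inr i))), cn_sum, cn_sum]
  refine ⟨⟨V1 ⊕ (V2 ⊕ V3), (N1 ⊕ (N2 ⊕ N3)) ⊕ (E1 ⊕ (E2 ⊕ E3)), inferInstance, inferInstance,
    fun i => loc0 (e i), a, b, ?_, ?_, ?_⟩⟩
  · rintro ((n | n | n) | (f | f | f))
    · exact fun hh => Sum.inl_ne_inr (Sum.inr_injective hh)
    · exact Sum.inl_ne_inr
    · exact Sum.inl_ne_inr
    · exact fun hh => ne1 f (Sum.inl_injective hh)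
    · exact fun hh => ne2 f (Sum.inl_injective (Sum.inr_injective hh))
    · exact fun hh => ne3 f (Sum.inr_injective (Sum.inr_injective hh))
  · intro S o t
    have r0 : cn (fun i => S (loc0 (e i)) ^^ o i) =
        cn (fun j => S (Sum.inl (loc1 (Sum.inl j))) ^^ o (e.symm (Sum.inl j))) +
        (cn (fun j => S (Sum.inr (Sum.inl (loc2 (Sum.inl j)))) ^^ o (e.symm (Sum.inr (Sum.inl j)))) +
        cn (fun j => S (Sum.inr (Sum.inr (loc3 (Sum.inl j)))) ^^
          o (e.symm (Sum.inr (Sum.inr j))))) := by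
      have := q1 (fun k => S (loc0 k) ^^ o (e.symm k))
      simp only [Equiv.symm_apply_apply] at this
      exact this
    have r1 : ∀ s : Bool, cn (fun i => o i ^^ s) =
        cn (fun j => o (e.symm (Sum.inl j)) ^^ s) +
        (cn (fun j => o (e.symm (Sum.inr (Sum.inl j))) ^^ s) +
        cn (fun j => o (e.symm (Sum.inr (Sum.inr j))) ^^ s)) := by
      intro s
      have := q1 (fun k => o (e.symm k) ^^ s)
      simp only [Equiv.symm_apply_apply] at this
      exact this
    have r3 := q3 (fun f => S (a f) ^^ S (b f))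
    simp only [a, b, Sum.elim_inl, Sum.elim_inr] at r3
    obtain ⟨s1, t1, u1⟩ := g1 (fun v => S (Sum.inl v))
      (Sum.elim (fun j => o (e.symm (Sum.inl j)))
        (Sum.elim (fun n => S (Sum.inr (Sum.inr (loc3 (Sum.inr (Sum.inr n))))))
          (fun n => S (Sum.inr (Sum.inl (loc2 (Sum.inr (Sum.inr n)))))))) t
    obtain ⟨s2, t2, u2⟩ := g2 (fun v => S (Sum.inr (Sum.inl v)))
      (Sum.elim (fun j => o (e.symm (Sum.inr (Sum.inl j))))
        (Sum.elim (fun n => S (Sum.inr (Sum.inr (loc3 (Sum.inr (Sum.inl n)))))) (fun _ => s1))) t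
    obtain ⟨s3, t3, u3⟩ := g3 (fun v => S (Sum.inr (Sum.inr v)))
      (Sum.elim (fun j => o (e.symm (Sum.inr (Sum.inr j))))
        (Sum.elim (fun _ => s2) (fun _ => s1))) t
    simp only [cn_sum, Sum.elim_inl, Sum.elim_inr] at t1 t2 t3
    rw [r0, r3]
    -- the three parts for the other side
    have m1 : ∀ s, cn (fun j => o (e.symm (Sum.inl j)) ^^ s) ≤ h := fun s => by
      have := cn_le_card (fun j => o (e.symm (Sum.inl j)) ^^ s)
      rwa [c1] at this
    have m2 : ∀ s, cn (fun j => o (e.symm (Sum.inr (Sum.inl j))) ^^ s) ≤ q := fun s => by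
      have := cn_le_card (fun j => o (e.symm (Sum.inr (Sum.inl j))) ^^ s)
      rwa [c2] at this
    have m3 : ∀ s, cn (fun j => o (e.symm (Sum.inr (Sum.inr j))) ^^ s) ≤ h + 1 - q := fun s => by
      have := cn_le_card (fun j => o (e.symm (Sum.inr (Sum.inr j))) ^^ s)
      rwa [c3] at this
    have x1 : (s2 ^^ s3) = true → cn (fun _ : N1 => s2 ^^ s3) = h := fun hh => by
      rw [cn_true _ (fun _ => hh), d1]
    have x2 : (s1 ^^ s3) = true → cn (fun _ : N2 => s1 ^^ s3) = q := fun hh => by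
      rw [cn_true _ (fun _ => hh), d2]
    have x3 : (s1 ^^ s2) = true → cn (fun _ : N3 => s1 ^^ s2) = h + 1 - q := fun hh => by
      rw [cn_true _ (fun _ => hh), d3]
    by_cases hs : s1 = s2 ∧ s2 = s3
    · obtain ⟨hs1, hs2⟩ := hs
      subst hs1
      subst hs2
      refine ⟨s1, ?_, fun ho => ?_⟩
      · rw [r1]
        omega
      · by_cases ht : s1 = t
        · left
          have h3 : ∀ v, S (Sum.inr (Sum.inr v)) = t := by
            rcases u3 (by
              rintro (j | n | n)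
              · exact ho _
              · exact ht
              · exact ht) with h4 | h4
            · exact h4
            · exact absurd ht h4
          have h2 : ∀ v, S (Sum.inr (Sum.inl v)) = t := by
            rcases u2 (by
              rintro (j | n | n)
              · exact ho _
              · exact h3 _
              · exact ht) with h4 | h4
            · exact h4
            · exact absurd ht h4
          have h1 : ∀ v, S (Sum.inl v) = t := by
            rcases u1 (by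
              rintro (j | n | n)
              · exact ho _
              · exact h3 _
              · exact h2 _) with h4 | h4
            · exact h4
            · exact absurd ht h4
          rintro (v | v | v)
          · exact h1 v
          · exact h2 v
          · exact h3 v
        · exact Or.inr ht
    · -- the sides differ: both values are possible
      have key : ∀ s, cn (fun i => o i ^^ s) ≤
          cn (fun n => S (Sum.inr (Sum.inl (loc2 (Sum.inr (Sum.inl n))))) ^^
              S (Sum.inr (Sum.inr (loc3 (Sum.inr (Sum.inl n)))))) +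
            (cn (fun n => S (Sum.inl (loc1 (Sum.inr (Sum.inl n)))) ^^
                S (Sum.inr (Sum.inr (loc3 (Sum.inr (Sum.inr n)))))) +
              cn (fun n => S (Sum.inl (loc1 (Sum.inr (Sum.inr n)))) ^^
                S (Sum.inr (Sum.inl (loc2 (Sum.inr (Sum.inr n))))))) +
            (cn (fun n => S (Sum.inl (a1 n)) ^^ S (Sum.inl (b1 n))) +
              (cn (fun n => S (Sum.inr (Sum.inl (a2 n))) ^^ S (Sum.inr (Sum.inl (b2 n)))) +
                cn (fun n => S (Sum.inr (Sum.inr (a3 n))) ^^ S (Sum.inr (Sum.inr (b3 n)))))) +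
            (cn (fun j => S (Sum.inl (loc1 (Sum.inl j))) ^^ o (e.symm (Sum.inl j))) +
              (cn (fun j => S (Sum.inr (Sum.inl (loc2 (Sum.inl j)))) ^^
                  o (e.symm (Sum.inr (Sum.inl j)))) +
                cn (fun j => S (Sum.inr (Sum.inr (loc3 (Sum.inl j)))) ^^
                  o (e.symm (Sum.inr (Sum.inr j)))))) := by
        intro s
        rw [r1]
        have k1 := m1 s
        have k2 := m2 s
        have k3 := m3 s
        clear m1 m2 m3 q1 q3 r1 r0 r3 hA w1 w2 w3 g1 g2 g3 u1 u2 u3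
        cases s1 <;> cases s2 <;> cases s3 <;> cases s <;> first
          | exact absurd ⟨rfl, rfl⟩ hs
          | (have y1 := x1 rfl; have y2 := x2 rfl; omega)
          | (have y1 := x1 rfl; have y3 := x3 rfl; omega)
          | (have y2 := x2 rfl; have y3 := x3 rfl; omega)
      by_cases ht : s1 = t
      · exact ⟨!t, key _, fun _ => Or.inr (by cases t <;> simp)⟩
      · exact ⟨s1, key _, fun _ => Or.inr ht⟩
  · intro x y hx
    have hIe : Nonempty I := Fintype.card_pos_iff.1 (by omega)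
    have r0 : ∀ (S : V1 ⊕ (V2 ⊕ V3) → Bool) (z : I → Bool), cn (fun i => S (loc0 (e i)) && z i) =
        cn (fun j => S (Sum.inl (loc1 (Sum.inl j))) && z (e.symm (Sum.inl j))) +
        (cn (fun j => S (Sum.inr (Sum.inl (loc2 (Sum.inl j)))) && z (e.symm (Sum.inr (Sum.inl j)))) +
        cn (fun j => S (Sum.inr (Sum.inr (loc3 (Sum.inl j)))) &&
          z (e.symm (Sum.inr (Sum.inr j))))) := by
      intro S z
      have := q1 (fun k => S (loc0 k) && z (e.symm k))
      simp only [Equiv.symm_apply_apply] at this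
      exact this
    have r3 : ∀ (S : V1 ⊕ (V2 ⊕ V3) → Bool)
        (z : (N1 ⊕ (N2 ⊕ N3)) ⊕ (E1 ⊕ (E2 ⊕ E3)) → Bool),
        cn (fun f => (S (a f) ^^ S (b f)) && z f) =
        (cn (fun n => (S (Sum.inr (Sum.inl (loc2 (Sum.inr (Sum.inl n))))) ^^
            S (Sum.inr (Sum.inr (loc3 (Sum.inr (Sum.inl n)))))) && z (Sum.inl (Sum.inl n))) +
          (cn (fun n => (S (Sum.inl (loc1 (Sum.inr (Sum.inl n)))) ^^
              S (Sum.inr (Sum.inr (loc3 (Sum.inr (Sum.inr n)))))) &&
              z (Sum.inl (Sum.inr (Sum.inl n)))) +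
            cn (fun n => (S (Sum.inl (loc1 (Sum.inr (Sum.inr n)))) ^^
              S (Sum.inr (Sum.inl (loc2 (Sum.inr (Sum.inr n)))))) &&
              z (Sum.inl (Sum.inr (Sum.inr n)))))) +
        (cn (fun n => (S (Sum.inl (a1 n)) ^^ S (Sum.inl (b1 n))) && z (Sum.inr (Sum.inl n))) +
          (cn (fun n => (S (Sum.inr (Sum.inl (a2 n))) ^^ S (Sum.inr (Sum.inl (b2 n)))) &&
              z (Sum.inr (Sum.inr (Sum.inl n)))) +
            cn (fun n => (S (Sum.inr (Sum.inr (a3 n))) ^^ S (Sum.inr (Sum.inr (b3 n)))) &&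
              z (Sum.inr (Sum.inr (Sum.inr n)))))) := by
      intro S z
      exact q3 (fun f => (S (a f) ^^ S (b f)) && z f)
    rcases hA x hx with h3 | h3
    · refine ⟨fun _ => true, ?_, ?_⟩
      · obtain ⟨i⟩ := hIe
        exact ⟨loc0 (e i), rfl⟩
      · rw [red_eq] at h3
        have h4 := cn_not x
        have e1 : cn (fun i => true && x i) = cn x := rfl
        have e2 : cn (fun i => true && !x i) = cn (fun i => !x i) := rfl
        have e3 : ∀ z : (N1 ⊕ (N2 ⊕ N3)) ⊕ (E1 ⊕ (E2 ⊕ E3)) → Bool,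
            cn (fun f => (true ^^ true) && z f) = 0 := fun z => cn_zero _ fun _ => rfl
        show cn (fun f => (true ^^ true) && y f) + cn (fun i => true && x i) < l ∨
          cn (fun f => (true ^^ true) && !y f) + cn (fun i => true && !x i) < l'
        rw [e1, e2, e3 y, e3 (fun f => !y f)]
        omega
    · rcases h3 (fun n => y (Sum.inl (Sum.inl n))) (fun n => y (Sum.inl (Sum.inr (Sum.inl n))))
        (fun n => y (Sum.inl (Sum.inr (Sum.inr n)))) with h4 | h4 | h4 | h4
      · obtain ⟨S, ⟨v, hv⟩, h5⟩ := w1 _ (fun f => y (Sum.inr (Sum.inl f))) h4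
        refine ⟨Sum.elim S (fun _ => false), ⟨Sum.inl v, hv⟩, ?_⟩
        rw [r0 _ x, r0 _ (fun i => !x i), r3 _ y, r3 _ (fun f => !y f)]
        simp only [cn_sum, Sum.elim_inl, Sum.elim_inr] at h5
        simp only [Sum.elim_inl, Sum.elim_inr, Bool.xor_false, Bool.false_xor, Bool.false_and,
          cn_false]
        omega
      · obtain ⟨S, ⟨v, hv⟩, h5⟩ := w2 _ (fun f => y (Sum.inr (Sum.inr (Sum.inl f)))) h4
        refine ⟨Sum.elim (fun _ => false) (Sum.elim S (fun _ => false)),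
          ⟨Sum.inr (Sum.inl v), hv⟩, ?_⟩
        rw [r0 _ x, r0 _ (fun i => !x i), r3 _ y, r3 _ (fun f => !y f)]
        simp only [cn_sum, Sum.elim_inl, Sum.elim_inr] at h5
        simp only [Sum.elim_inl, Sum.elim_inr, Bool.xor_false, Bool.false_xor, Bool.false_and,
          cn_false]
        omega
      · obtain ⟨S, ⟨v, hv⟩, h5⟩ := w3 _ (fun f => y (Sum.inr (Sum.inr (Sum.inr f)))) h4
        refine ⟨Sum.elim (fun _ => false) (Sum.elim (fun _ => false) S),
          ⟨Sum.inr (Sum.inr v), hv⟩, ?_⟩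
        rw [r0 _ x, r0 _ (fun i => !x i), r3 _ y, r3 _ (fun f => !y f)]
        simp only [cn_sum, Sum.elim_inl, Sum.elim_inr] at h5
        simp only [Sum.elim_inl, Sum.elim_inr, Bool.xor_false, Bool.false_xor, Bool.false_and,
          cn_false]
        omega
      · have hJ2 : Nonempty J2 := Fintype.card_pos_iff.1 (by omega)
        obtain ⟨j2⟩ := hJ2
        refine ⟨Sum.elim (fun _ => false) (fun _ => true), ⟨Sum.inr (Sum.inl (loc2 (Sum.inl j2))),
          rfl⟩, ?_⟩
        rw [r0 _ x, r0 _ (fun i => !x i), r3 _ y, r3 _ (fun f => !y f)]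
        rw [red_eq, red_eq, red_eq, cn_sum] at h4
        simp only [Sum.elim_inl, Sum.elim_inr, Bool.xor_true, Bool.not_true, Bool.not_false,
          Bool.xor_false, Bool.false_and, Bool.true_and, cn_false]
        have k1 := cn_not (fun j => x (e.symm (Sum.inr (Sum.inl j))))
        have k2 := cn_not (fun j => x (e.symm (Sum.inr (Sum.inr j))))
        have k3 := cn_not (fun n => y (Sum.inl (Sum.inr (Sum.inl n))))
        have k4 := cn_not (fun n => y (Sum.inl (Sum.inr (Sum.inr n))))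
        omega

/-- **Soundness.** A killable set of colourings has a gadget. -/
theorem exists_gadget3 {h l u l' : ℕ} (hl : u + l' = 2 * h + 1) {I : Type}
    {A : Set (I → Bool)} (hk : Kill3 h l u I A) :
    ∀ [Fintype I], Fintype.card I = 2 * h + 1 → Nonempty (Gadget 0 l l' I A) := by
  induction hk with
  | leaf I A hA =>
    intro _ hI
    exact leafG3 hl hI hA
  | node I J1 J2 J3 N1 N2 N3 q hq hq' c1 c2 c3 d1 d2 d3 e A1 A2 A3 A k1 k2 k3 hA ih1 ih2 ih3 =>
    intro _ hI
    have f1 : Finite J1 := Nat.finite_of_card_ne_zero (by omega)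
    have f2 : Finite J2 := Nat.finite_of_card_ne_zero (by omega)
    have f3 : Finite J3 := Nat.finite_of_card_ne_zero (by omega)
    have f4 : Finite N1 := Nat.finite_of_card_ne_zero (by omega)
    have f5 : Finite N2 := Nat.finite_of_card_ne_zero (by omega)
    have f6 : Finite N3 := Nat.finite_of_card_ne_zero (by omega)
    let _ := Fintype.ofFinite J1
    let _ := Fintype.ofFinite J2
    let _ := Fintype.ofFinite J3
    let _ := Fintype.ofFinite N1
    let _ := Fintype.ofFinite N2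
    let _ := Fintype.ofFinite N3
    rw [Nat.card_eq_fintype_card] at c1 c2 c3 d1 d2 d3
    obtain ⟨G1⟩ := ih1 (by rw [Fintype.card_sum, Fintype.card_sum, c1, d2, d3]; omega)
    obtain ⟨G2⟩ := ih2 (by rw [Fintype.card_sum, Fintype.card_sum, c2, d1, d3]; omega)
    obtain ⟨G3⟩ := ih3 (by rw [Fintype.card_sum, Fintype.card_sum, c3, d1, d2]; omega)
    exact nodeG3 hl hq hq' c1 c2 c3 d1 d2 d3 hI e G1 G2 G3 hA

/-- **A structure which excludes all colourings refutes the decomposition.** -/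
theorem Kill3.false_of_univ {h l u l' r : ℕ} (hl : u + l' = 2 * h + 1) {I : Type}
    (hk : Kill3 h l u I Set.univ) (hI : Nat.card I = 2 * h + 1) (ks : Fin r → ℕ)
    (J : Finset (Fin r)) (hJ : ∑ i ∈ J, ks i = l) (hJ' : ∑ i ∈ Jᶜ, ks i = l') :
    ¬ Arrow (2 * h + 1) ks := by
  have f1 : Finite I := Nat.finite_of_card_ne_zero (by omega)
  let _ := Fintype.ofFinite I
  have g1 : Fintype.card I = 2 * h + 1 := by rw [← Nat.card_eq_fintype_card, hI]
  obtain ⟨G⟩ := exists_gadget3 hl hk g1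
  exact G.refute g1 ks J hJ hJ'

end Pool.Agent.Lib.MP_21a058_co.Slack3
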