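import Pool.Agent.Lib.MP_21a058_co.Slack3.End5
import Pool.Agent.Lib.MP_21a058_co.Slack3.DevOdd
import Pool.Agent.Lib.MP_21a058_co.Slack3.Gad3

/-! Odd edge-connectivity `2 h + 1`: no split with classes `2 m + 1` and `2 (h - m - 1)`
if `2 ≤ m` and `34 (m + 1) ≤ h`. -/

set_option autoImplicit false

namespace Pool.Agent.Lib.MP_21a058_co.Slack3.All93

open Finset Pool.Agent.Lib.MP_21a058_co
open Pool.Agent.Lib.MP_21a058_co.Odd (red red_sum red_equiv red_le)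
open Pool.Agent.Lib.MP_21a058_co.Slack3.PP

theorem ctx {h m : ℕ} (hh : 1 ≤ h) : DevOdd.Ctx h m (Wp h (2 * m + 1) (2 * m + 3)) where
  bh := fun p hp => (Wp_le le_rfl).2 (baseH hh le_rfl (by omega))
  bh1 := fun p hp => Wp_top.2 (by omega)
  r2 := fun L p i j hL hi hj h1 h2 h3 H => (Wp_le hL).2 (R2 hh hL hi hj h1 h2 h3 H)

theorem dev {h m : ℕ} (hh : 1 ≤ h) : End5.Dev h m := fun _ _ h0 hL hd =>
  (Wp_le hL).1 ((ctx hh).dev h0 hL hd)

theorem not_arrow {h m l' r : ℕ} (hm : 2 ≤ m) (hh : 34 * (m + 1) ≤ h)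
    (hl : 2 * m + 3 + l' = 2 * h + 1) (ks : Fin r → ℕ) (J : Finset (Fin r))
    (hJ : ∑ i ∈ J, ks i = 2 * m + 1) (hJ' : ∑ i ∈ Jᶜ, ks i = l') : ¬ Arrow (2 * h + 1) ks := by
  have hk : Kill3 h (2 * m + 1) (2 * m + 3) (Fin 0 ⊕ Fin (2 * h + 1)) Set.univ := by
    have h1 := End5.w00 (dev (h := h) (m := m) (by omega)) hm hh (Fin 0) (Fin (2 * h + 1))
      (Nat.card_fin 0) (by rw [Nat.card_fin, Nat.card_fin]; omega) ∅
      ((Kill3.empty h (2 * m + 1) (2 * m + 3) _).mono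
        (by intro x hx; exact absurd hx (Set.notMem_empty _)))
    refine h1.mono ?_
    intro x _
    right
    have := red_le (fun f : Fin 0 => x (Sum.inl f))
    rw [Nat.card_fin] at this
    omega
  exact Kill3.false_of_univ hl hk
    (by rw [Nat.card_sum, Nat.card_fin, Nat.card_fin]; omega) ks J hJ hJ'

end Pool.Agent.Lib.MP_21a058_co.Slack3.All93
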