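import Mathlib

/-! Odd `k = 2 h + 1`, window `2 d + 1 .. 2 d + 3`, `d ≥ 2`: abstract arithmetic of the windows and
of the end. -/

set_option autoImplicit false

namespace Pool.Agent.Lib.MP_21a058_co.Slack3.Arith3_80

/-- The rules used. -/
structure Rules (h d : ℕ) (W : ℕ → ℕ → Prop) : Prop where
  top : ∀ L p, L ≤ h → d + 3 ≤ p → W L p
  bot : ∀ p, p + 2 ≤ d → W h p
  r2 : ∀ L p i j, L + i ≤ h → L + j ≤ h → i + j ≤ h →
    (∀ a b, a ≤ i → b ≤ j → W (L + i) (p + a) ∨ W (L + j) (p + b) ∨ W (i + j) (a + b)) → W L p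
  ru : ∀ L p i j, L + i ≤ h → L + j ≤ h → i + j = h + 1 →
    (∀ a b, a ≤ i → b ≤ j → d ≤ a + b → W (L + i) (p + a) ∨ W (L + j) (p + b)) → W L p
  rl : ∀ L p i j, 1 ≤ L → L + i = h + 1 → L + j ≤ h → i + j ≤ h →
    (∀ a b, a ≤ i → b ≤ j → d ≤ p + a → W (L + j) (p + b) ∨ W (i + j) (a + b)) → W L p
  rll : ∀ L p i, 1 ≤ L → L ≤ h → L + i = h + 1 → i + i ≤ h →
    (∀ a b, a ≤ i → b ≤ i → d ≤ p + a → d ≤ p + b → W (i + i) (a + b)) → W L p

variable {h d : ℕ} {W : ℕ → ℕ → Prop}

theorem hset (R : Rules h d W) {p : ℕ} (hp : ¬ W h p) : d ≤ p + 1 ∧ p ≤ d + 2 := by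
  constructor
  · by_contra h1
    exact hp (R.bot p (by omega))
  · by_contra h1
    exact hp (R.top h p le_rfl (by omega))

theorem dev0 (R : Rules h d W) (n : ℕ) : ∀ L p, L ≤ h → ¬ W L p →
    2 ^ n * (|(2 * h + 1 : ℤ) * p - 2 * (d + 1) * L| - (2 * (2 * h + 1) + 2 * (d + 1))) ≤
      (2 * h + 1 : ℤ) * (d + 3) := by
  induction n with
  | zero =>
    intro L p hL hW
    have hp : p ≤ d + 2 := by
      by_contra h1
      exact hW (R.top L p hL (by omega))
    have hp' : (p : ℤ) ≤ d + 2 := by exact_mod_cast hp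
    have hL' : (L : ℤ) ≤ h := by exact_mod_cast hL
    have h0 : (0 : ℤ) ≤ (h : ℤ) := by positivity
    have hd : (0 : ℤ) ≤ (d : ℤ) := by positivity
    have hL0 : (0 : ℤ) ≤ (L : ℤ) := by positivity
    have hp0 : (0 : ℤ) ≤ (p : ℤ) := by positivity
    rw [pow_zero, one_mul]
    have h6 : |(2 * h + 1 : ℤ) * p - 2 * (d + 1) * L| ≤
        (2 * h + 1 : ℤ) * (d + 3) + (2 * (2 * h + 1) + 2 * (d + 1)) := by
      rw [abs_le]
      constructor <;> nlinarith [mul_nonneg h0 hd, mul_nonneg hd hL0, mul_nonneg h0 hp0,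
        mul_nonneg h0 (sub_nonneg.mpr hp'), mul_nonneg hd (sub_nonneg.mpr hL')]
    linarith
  | succ n ih =>
    intro L p hL hW
    have hup : ∀ q : ℕ, ¬ W h q → (2 * h + 1 : ℤ) * q - 2 * (d + 1) * h ≤ 2 * h + 1 + (d + 1) := by
      intro q hq
      have h2 : (q : ℤ) ≤ d + 2 := by exact_mod_cast (hset R hq).2
      have h0 : (0 : ℤ) ≤ (h : ℤ) := by positivity
      nlinarith [mul_nonneg h0 (sub_nonneg.mpr h2)]
    have hlo : ∀ q : ℕ, d ≤ q →
        -((2 * h + 1 : ℤ) * q - 2 * (d + 1) * (h + 1)) ≤ 2 * h + 1 + (d + 1) := by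
      intro q hq
      have h2 : (d : ℤ) ≤ q := by exact_mod_cast hq
      have h0 : (0 : ℤ) ≤ (h : ℤ) := by positivity
      nlinarith [mul_nonneg h0 (sub_nonneg.mpr h2)]
    obtain ⟨B, hB⟩ : ∃ B : ℤ, B = 2 * (2 * h + 1) + 2 * (d + 1) := ⟨_, rfl⟩
    -- both signs: 2 |D| ≤ B + |z|
    have key : ∃ z : ℤ, 2 ^ n * (|z| - B) ≤ (2 * h + 1 : ℤ) * (d + 3) ∧
        2 * ((2 * h + 1 : ℤ) * p - 2 * (d + 1) * L) ≤ B + |z| := by
      by_cases h2L : 2 * L + 1 ≤ h
      · have hex : ∃ a b, a ≤ h - L ∧ b ≤ L + 1 ∧ d ≤ a + b ∧ ¬ W (L + (h - L)) (p + a) ∧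
            ¬ W (L + (L + 1)) (p + b) := by
          by_contra hcon
          push Not at hcon
          refine hW (R.ru L p (h - L) (L + 1) (by omega) (by omega) (by omega)
            fun a b ha hb hab => ?_)
          by_contra h1
          push Not at h1
          exact h1.2 (hcon a b ha hb hab h1.1)
        obtain ⟨a, b, ha, hb, hab, w1, w2⟩ := hex
        rw [show L + (h - L) = h by omega] at w1
        have e1 := hup _ w1
        have e2 := ih _ _ (by omega) w2
        have e3 := hlo _ hab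
        rw [← hB] at e2
        refine ⟨_, e2, ?_⟩
        have e4 := le_abs_self ((2 * h + 1 : ℤ) * ((p + b : ℕ) : ℤ) -
          2 * (d + 1) * ((L + (L + 1) : ℕ) : ℤ))
        push_cast at e1 e3 e4 ⊢
        rw [hB]
        linarith
      · by_cases h3L : 2 * L ≥ h
        · have hex : ∃ a b, a ≤ h - L ∧ b ≤ h - L ∧ ¬ W (L + (h - L)) (p + a) ∧
              ¬ W (L + (h - L)) (p + b) ∧ ¬ W (h - L + (h - L)) (a + b) := by
            by_contra hcon
            push Not at hcon
            refine hW (R.r2 L p (h - L) (h - L) (by omega) (by omega) (by omega)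
              fun a b ha hb => ?_)
            by_contra h1
            push Not at h1
            exact h1.2.2 (hcon a b ha hb h1.1 h1.2.1)
          obtain ⟨a, b, ha, hb, w1, w2, w3⟩ := hex
          rw [show L + (h - L) = h by omega] at w1 w2
          have e1 := hup _ w1
          have e2 := hup _ w2
          have e3 := ih _ _ (by omega) w3
          rw [← hB] at e3
          refine ⟨_, e3, ?_⟩
          have e4 := neg_abs_le ((2 * h + 1 : ℤ) * ((a + b : ℕ) : ℤ) -
            2 * (d + 1) * ((h - L + (h - L) : ℕ) : ℤ))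
          push_cast [Nat.cast_sub hL] at e1 e2 e4 ⊢
          rw [hB]
          linarith
        · omega
    have key' : ∃ z : ℤ, 2 ^ n * (|z| - B) ≤ (2 * h + 1 : ℤ) * (d + 3) ∧
        -(2 * ((2 * h + 1 : ℤ) * p - 2 * (d + 1) * L)) ≤ B + |z| := by
      rcases Nat.eq_zero_or_pos L with hL0 | hL0
      · refine ⟨0, ?_, ?_⟩
        · have h0 : (0 : ℤ) ≤ B := by rw [hB]; positivity
          have h1 : (0 : ℤ) < 2 ^ n := by positivity
          have h2 : (0 : ℤ) ≤ (2 * h + 1 : ℤ) * (d + 3) := by positivity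
          rw [abs_zero]
          nlinarith
        · subst hL0
          rw [abs_zero, hB]
          have h0 : (0 : ℤ) ≤ (2 * h + 1 : ℤ) * p := by positivity
          push_cast
          have h1 : (0 : ℤ) ≤ (h : ℤ) := by positivity
          have h2 : (0 : ℤ) ≤ (d : ℤ) := by positivity
          linarith
      · by_cases h2L : 2 * L ≤ h + 1
        · have hex : ∃ a b, a ≤ h + 1 - L ∧ b ≤ L - 1 ∧ d ≤ p + a ∧ ¬ W (L + (L - 1)) (p + b) ∧
              ¬ W (h + 1 - L + (L - 1)) (a + b) := by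
            by_contra hcon
            push Not at hcon
            refine hW (R.rl L p (h + 1 - L) (L - 1) hL0 (by omega) (by omega) (by omega)
              fun a b ha hb hab => ?_)
            by_contra h1
            push Not at h1
            exact h1.2 (hcon a b ha hb hab h1.1)
          obtain ⟨a, b, ha, hb, hab, w1, w2⟩ := hex
          rw [show h + 1 - L + (L - 1) = h by omega] at w2
          have e1 := hlo _ hab
          have e2 := hup _ w2
          have e3 := ih _ _ (by omega) w1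
          rw [← hB] at e3
          refine ⟨_, e3, ?_⟩
          have e4 := neg_abs_le ((2 * h + 1 : ℤ) * ((p + b : ℕ) : ℤ) -
            2 * (d + 1) * ((L + (L - 1) : ℕ) : ℤ))
          push_cast [Nat.cast_sub hL0] at e1 e2 e4 ⊢
          rw [hB]
          linarith
        · have hex : ∃ a b, a ≤ h + 1 - L ∧ b ≤ h + 1 - L ∧ d ≤ p + a ∧ d ≤ p + b ∧
              ¬ W (h + 1 - L + (h + 1 - L)) (a + b) := by
            by_contra hcon
            push Not at hcon
            exact hW (R.rll L p (h + 1 - L) hL0 hL (by omega) (by omega)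
              fun a b ha hb hab hab' => hcon a b ha hb hab hab')
          obtain ⟨a, b, ha, hb, hab, hab', w1⟩ := hex
          have e1 := hlo _ hab
          have e2 := hlo _ hab'
          have e3 := ih _ _ (by omega) w1
          rw [← hB] at e3
          refine ⟨_, e3, ?_⟩
          have e4 := le_abs_self ((2 * h + 1 : ℤ) * ((a + b : ℕ) : ℤ) -
            2 * (d + 1) * ((h + 1 - L + (h + 1 - L) : ℕ) : ℤ))
          push_cast [Nat.cast_sub (show L ≤ h + 1 by omega)] at e1 e2 e4 ⊢
          rw [hB]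
          linarith
    rw [← hB]
    have h9 : (0 : ℤ) < 2 ^ n := by positivity
    rw [pow_succ]
    rcases abs_cases ((2 * h + 1 : ℤ) * p - 2 * (d + 1) * L) with ⟨hab, _⟩ | ⟨hab, _⟩
    · obtain ⟨z, hz, hz'⟩ := key
      rw [hab]
      nlinarith
    · obtain ⟨z, hz, hz'⟩ := key'
      rw [hab]
      nlinarith

theorem dev (R : Rules h d W) {L p : ℕ} (hL : L ≤ h)
    (hD : (2 * (2 * h + 1) + 2 * (d + 1) : ℤ) < |(2 * h + 1 : ℤ) * p - 2 * (d + 1) * L|) :
    W L p := by
  by_contra hW
  have h1 := dev0 R ((2 * h + 1) * (d + 3)) L p hL hW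
  have h2 : (1 : ℤ) ≤ |(2 * h + 1 : ℤ) * p - 2 * (d + 1) * L| -
      (2 * (2 * h + 1) + 2 * (d + 1)) := by omega
  have h3 : (((2 * h + 1) * (d + 3) : ℕ) : ℤ) < 2 ^ ((2 * h + 1) * (d + 3)) := by
    exact_mod_cast Nat.lt_two_pow_self
  push_cast at h3
  have h4 : (0 : ℤ) < 2 ^ ((2 * h + 1) * (d + 3)) := by positivity
  nlinarith

theorem dev_hi (R : Rules h d W) {L p : ℕ} (hL : L ≤ h)
    (hD : 2 * (d + 1) * L + (2 * (2 * h + 1) + 2 * (d + 1)) < (2 * h + 1) * p) : W L p := by
  refine dev R hL ?_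
  have h1 : (2 * (d + 1) * L + (2 * (2 * h + 1) + 2 * (d + 1)) : ℤ) < (2 * h + 1) * p := by
    exact_mod_cast hD
  have h2 := le_abs_self ((2 * h + 1 : ℤ) * p - 2 * (d + 1) * L)
  linarith

theorem dev_lo (R : Rules h d W) {L p : ℕ} (hL : L ≤ h)
    (hD : (2 * h + 1) * p + (2 * (2 * h + 1) + 2 * (d + 1)) < 2 * (d + 1) * L) : W L p := by
  refine dev R hL ?_
  have h1 : ((2 * h + 1) * p + (2 * (2 * h + 1) + 2 * (d + 1)) : ℤ) < 2 * (d + 1) * L := by
    exact_mod_cast hD
  have h2 := neg_abs_le ((2 * h + 1 : ℤ) * p - 2 * (d + 1) * L)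
  linarith

/-- The end. -/
theorem fin00 (R : Rules h d W) (hd : 2 ≤ d) (hh : 68 * (d + 1) < 2 * h + 1)
    (main : ∀ c, 2 * (c + 11) ≤ h + 1 → c ≤ h → W (2 * c + 11) 0 → (∀ p, 3 ≤ p → W (3 * 11) p) →
      W (h - c) (d + 2)) : W 0 0 := by
  obtain ⟨N, hN⟩ : ∃ N, N = d + 1 := ⟨_, rfl⟩
  obtain ⟨g, hg⟩ : ∃ g, g = (2 * h + 1) / (2 * N) := ⟨_, rfl⟩
  have hN0 : 0 < 2 * N := by omega
  have h1 : 2 * N * g ≤ 2 * h + 1 := by rw [hg]; exact Nat.mul_div_le _ _
  have h2 : 2 * h + 1 < 2 * N * (g + 1) := by rw [hg]; exact Nat.lt_mul_div_succ _ hN0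
  have hg34 : 34 ≤ g := by
    by_contra hc
    have : 2 * N * (g + 1) ≤ 2 * N * 34 := Nat.mul_le_mul_left _ (by omega)
    omega
  have h6g : 6 * g ≤ 2 * h + 1 := le_trans (Nat.mul_le_mul_right g (by omega)) h1
  have h1' : 2 * N * g < 2 * h + 1 := by
    have e : 2 * N * g = 2 * (N * g) := by ring
    omega
  obtain ⟨c, hc⟩ : ∃ c, g = c + 4 := ⟨g - 4, by omega⟩
  subst hc
  have w2 : W (2 * c + 11) 0 := by
    refine dev_lo R (by omega) ?_
    rw [← hN]
    have e : 2 * N * (2 * c + 11) = 2 * (2 * N * (c + 4 + 1)) + 2 * N := by ring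
    omega
  have w3 : ∀ p, 3 ≤ p → W (3 * 11) p := by
    intro p hp
    refine dev_hi R (by omega) ?_
    have e : (2 * h + 1) * 3 ≤ (2 * h + 1) * p := Nat.mul_le_mul_left _ hp
    rw [← hN]
    have e' : 2 * N * (3 * 11) = 66 * N := by ring
    omega
  have m0 := main c (by omega) (by omega) w2 w3
  have mid : ∀ p, d + 2 ≤ p → W (h - c) p := by
    intro p hp
    rcases Nat.eq_or_lt_of_le hp with e | e
    · rw [← e]; exact m0
    · exact R.top _ _ (by omega) (by omega)
  have three : ∀ p, 3 ≤ p → W (c + 5) p := by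
    intro p hp
    refine R.ru (c + 5) p (h - 2 * c - 5) (2 * c + 6) (by omega) (by omega) (by omega)
      fun a b ha hb hab => ?_
    by_cases c1 : d + 2 ≤ p + a
    · left
      rw [show c + 5 + (h - 2 * c - 5) = h - c by omega]
      exact mid _ c1
    · right
      refine dev_hi R (by omega) ?_
      have e2 : (2 * h + 1) * 5 ≤ (2 * h + 1) * (p + b) := Nat.mul_le_mul_left _ (by omega)
      rw [← hN]
      have e : 2 * N * (c + 5 + (2 * c + 6)) + 2 * N = 3 * (2 * N * (c + 4)) := by ring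
      omega
  have two : W 2 2 := by
    refine R.ru 2 2 (h - c - 2) (c + 3) (by omega) (by omega) (by omega)
      fun a b ha hb hab => ?_
    by_cases c1 : d + 2 ≤ 2 + a
    · left
      rw [show 2 + (h - c - 2) = h - c by omega]
      exact mid _ c1
    · right
      rw [show 2 + (c + 3) = c + 5 by omega]
      exact three _ (by omega)
  have down : ∀ n, n ≤ h → W (h - n) 0 := by
    intro n
    induction n with
    | zero =>
      intro _
      exact R.bot 0 (by omega)
    | succ n ih =>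
      intro hn
      have h3 := ih (by omega)
      have e : h - (n + 1) + 1 = h - n := by omega
      refine R.r2 _ _ 1 1 (by omega) (by omega) (by omega) fun a b ha hb => ?_
      by_cases h4 : a = 0
      · left
        subst h4
        rw [e]
        exact h3
      · by_cases h5 : b = 0
        · right; left
          subst h5
          rw [e]
          exact h3
        · right; right
          have e1 : a = 1 := by omega
          have e2 : b = 1 := by omega
          subst e1 e2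
          exact two
  have h3 := down h le_rfl
  rwa [Nat.sub_self] at h3

end Pool.Agent.Lib.MP_21a058_co.Slack3.Arith3_80
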