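import Pool.Agent.Lib.MP_21a058_co.Slack3.Rule3

/-! Odd edge-connectivity `2 h + 1`: `P` red edges among `mu` edges which stay alive are refutable,
if a set of `2 (h - mu) + t` edges is never all blue and a set of `3 t` edges has at most two red
edges. -/

set_option autoImplicit false

namespace Pool.Agent.Lib.MP_21a058_co.Slack3.Mid3odd

open Pool.Agent.Lib.MP_21a058_co.Odd (red red_sum red_equiv red_le)

/-- The node rule. -/
theorem nd3 {h l u q : ℕ} {J1 J2 J3 N1 N2 N3 : Type} (hq : 1 ≤ q) (hq' : q ≤ h)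
    (c1 : Nat.card J1 = h) (c2 : Nat.card J2 = q) (c3 : Nat.card J3 = h + 1 - q)
    (d1 : Nat.card N1 = h) (d2 : Nat.card N2 = q) (d3 : Nat.card N3 = h + 1 - q)
    {A1 : Set (J1 ⊕ (N2 ⊕ N3) → Bool)} {A2 : Set (J2 ⊕ (N1 ⊕ N3) → Bool)}
    {A3 : Set (J3 ⊕ (N1 ⊕ N2) → Bool)} {A : Set (J1 ⊕ (J2 ⊕ J3) → Bool)}
    [Finite J1] [Finite J2] [Finite J3] [Finite N1] [Finite N2] [Finite N3]
    (k1 : Kill3 h l u (J1 ⊕ (N2 ⊕ N3)) A1) (k2 : Kill3 h l u (J2 ⊕ (N1 ⊕ N3)) A2)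
    (k3 : Kill3 h l u (J3 ⊕ (N1 ⊕ N2)) A3)
    (H : ∀ (x1 : J1 → Bool) (x2 : J2 → Bool) (x3 : J3 → Bool) (n1 : N1 → Bool) (n2 : N2 → Bool)
      (n3 : N3 → Bool), Sum.elim x1 (Sum.elim x2 x3) ∈ A →
      l ≤ red x1 + red x2 + red x3 → red x1 + red x2 + red x3 ≤ u →
      l ≤ red x1 + red n2 + red n3 → red x1 + red n2 + red n3 ≤ u →
      l ≤ red x2 + red n1 + red n3 → red x2 + red n1 + red n3 ≤ u →
      l ≤ red x3 + red n1 + red n2 → red x3 + red n1 + red n2 ≤ u →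
      l ≤ red x2 + red x3 + red n2 + red n3 → red x2 + red x3 + red n2 + red n3 ≤ u + 1 →
      Sum.elim x1 (Sum.elim n2 n3) ∈ A1 ∨ Sum.elim x2 (Sum.elim n1 n3) ∈ A2 ∨
      Sum.elim x3 (Sum.elim n1 n2) ∈ A3) :
    Kill3 h l u (J1 ⊕ (J2 ⊕ J3)) A := by
  refine Kill3.node _ J1 J2 J3 N1 N2 N3 q hq hq' c1 c2 c3 d1 d2 d3 (Equiv.refl _) _ _ _ A
    k1.addBase k2.addBase k3.addBase fun x hx => ?_
  by_cases hb : red x < l ∨ u < red x
  · exact Or.inl hb
  right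
  intro n1 n2 n3
  have hx0 : Sum.elim (fun j => x (Sum.inl j))
      (Sum.elim (fun j => x (Sum.inr (Sum.inl j))) (fun j => x (Sum.inr (Sum.inr j)))) = x := by
    funext i
    rcases i with i | i | i <;> rfl
  have r0 := red_sum x
  have r0' := red_sum (fun j => x (Sum.inr j))
  have s3 : ∀ {X Y Z : Type} [Finite X] [Finite Y] [Finite Z] (a : X → Bool) (b : Y → Bool)
      (c : Z → Bool), red (Sum.elim a (Sum.elim b c) : X ⊕ (Y ⊕ Z) → Bool) =
      red a + (red b + red c) := by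
    intro X Y Z _ _ _ a b c
    rw [red_sum]
    have e : red (fun j => (Sum.elim a (Sum.elim b c) : X ⊕ (Y ⊕ Z) → Bool) (Sum.inr j)) =
        red b + red c := by
      rw [red_sum]
      rfl
    rw [e]
    rfl
  show Sum.elim (fun j => x (Sum.inl j)) (Sum.elim n2 n3) ∈
      {y | y ∈ A1 ∨ (red y < l ∨ u < red y)} ∨
    Sum.elim (fun j => x (Sum.inr (Sum.inl j))) (Sum.elim n1 n3) ∈
      {y | y ∈ A2 ∨ (red y < l ∨ u < red y)} ∨
    Sum.elim (fun j => x (Sum.inr (Sum.inr j))) (Sum.elim n1 n2) ∈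
      {y | y ∈ A3 ∨ (red y < l ∨ u < red y)} ∨
    (red (fun j => x (Sum.inr j)) + red n2 + red n3 < l ∨
      u + 1 < red (fun j => x (Sum.inr j)) + red n2 + red n3)
  by_cases b1 : red (fun j => x (Sum.inl j)) + (red n2 + red n3) < l ∨
      u < red (fun j => x (Sum.inl j)) + (red n2 + red n3)
  · left; right
    rw [s3]
    exact b1
  by_cases b2 : red (fun j => x (Sum.inr (Sum.inl j))) + (red n1 + red n3) < l ∨
      u < red (fun j => x (Sum.inr (Sum.inl j))) + (red n1 + red n3)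
  · right; left; right
    rw [s3]
    exact b2
  by_cases b3 : red (fun j => x (Sum.inr (Sum.inr j))) + (red n1 + red n2) < l ∨
      u < red (fun j => x (Sum.inr (Sum.inr j))) + (red n1 + red n2)
  · right; right; left; right
    rw [s3]
    exact b3
  by_cases b4 : red (fun j => x (Sum.inr j)) + red n2 + red n3 < l ∨
      u + 1 < red (fun j => x (Sum.inr j)) + red n2 + red n3
  · right; right; right
    exact b4
  rw [← hx0] at hx
  rcases H (fun j => x (Sum.inl j)) (fun j => x (Sum.inr (Sum.inl j)))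
    (fun j => x (Sum.inr (Sum.inr j))) n1 n2 n3 hx (by omega) (by omega) (by omega) (by omega)
    (by omega) (by omega) (by omega) (by omega) (by omega) (by omega) with h3 | h3 | h3
  · exact Or.inl (Or.inl h3)
  · exact Or.inr (Or.inl (Or.inl h3))
  · exact Or.inr (Or.inr (Or.inl (Or.inl h3)))

/-- the bundle of a vertex of the chain -/
def eX (M C B C' T A : Type) :
    (M ⊕ C') ⊕ ((C ⊕ T) ⊕ (A ⊕ B)) ≃ (M ⊕ C) ⊕ (B ⊕ (C' ⊕ (T ⊕ A))) where
  toFun p := match p with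
    | Sum.inl (Sum.inl m) => Sum.inl (Sum.inl m)
    | Sum.inl (Sum.inr c) => Sum.inr (Sum.inr (Sum.inl c))
    | Sum.inr (Sum.inl (Sum.inl c)) => Sum.inl (Sum.inr c)
    | Sum.inr (Sum.inl (Sum.inr t)) => Sum.inr (Sum.inr (Sum.inr (Sum.inl t)))
    | Sum.inr (Sum.inr (Sum.inl a)) => Sum.inr (Sum.inr (Sum.inr (Sum.inr a)))
    | Sum.inr (Sum.inr (Sum.inr b)) => Sum.inr (Sum.inl b)
  invFun p := match p with
    | Sum.inl (Sum.inl m) => Sum.inl (Sum.inl m)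
    | Sum.inr (Sum.inr (Sum.inl c)) => Sum.inl (Sum.inr c)
    | Sum.inl (Sum.inr c) => Sum.inr (Sum.inl (Sum.inl c))
    | Sum.inr (Sum.inr (Sum.inr (Sum.inl t))) => Sum.inr (Sum.inl (Sum.inr t))
    | Sum.inr (Sum.inr (Sum.inr (Sum.inr a))) => Sum.inr (Sum.inr (Sum.inl a))
    | Sum.inr (Sum.inl b) => Sum.inr (Sum.inr (Sum.inr b))
  left_inv := by rintro ((m | c) | ((c | t) | (a | b))) <;> rfl
  right_inv := by rintro ((m | c) | (b | (c | (t | a)))) <;> rfl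

/-- One vertex of the chain: `M ⊕ C'` goes on, `C ⊕ T` is at the second vertex. -/
theorem step3 {h l u q P0 : ℕ} {M C C' C'' T T' A B N1 : Type} [Finite M] [Finite C] [Finite C']
    [Finite C''] [Finite T] [Finite T'] [Finite A] [Finite B] [Finite N1]
    (hlu : 2 * u < l + 2 * (P0 + 1)) (hq : 1 ≤ q) (hq' : q ≤ h)
    (hM : Nat.card M + Nat.card C' = h) (hC : Nat.card C + Nat.card T = q)
    (hA : Nat.card A + Nat.card B = h + 1 - q) (hB : Nat.card B = q) (hN : Nat.card N1 = h)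
    (hC' : Nat.card C'' + (Nat.card T' + Nat.card A) = h + 1 - q)
    {TT : Set (M → Bool)} {P1 : (C' → Bool) → (C'' → Bool) → (T' → Bool) → Prop}
    {P2 : (C → Bool) → (T → Bool) → (C'' → Bool) → (T' → Bool) → Prop}
    (P : (C → Bool) → (T → Bool) → Prop)
    (k1 : Kill3 h l u ((M ⊕ C') ⊕ (B ⊕ (C'' ⊕ (T' ⊕ A))))
      {x | (fun m => x (Sum.inl (Sum.inl m))) ∈ TT ∨
      (red (fun m => x (Sum.inl (Sum.inl m))) = P0 ∧
        P1 (fun c => x (Sum.inl (Sum.inr c))) (fun c => x (Sum.inr (Sum.inr (Sum.inl c))))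
          (fun t => x (Sum.inr (Sum.inr (Sum.inr (Sum.inl t))))))})
    (k2 : Kill3 h l u ((C ⊕ T) ⊕ (N1 ⊕ (C'' ⊕ (T' ⊕ A))))
      {x | P2 (fun c => x (Sum.inl (Sum.inl c))) (fun t => x (Sum.inl (Sum.inr t)))
        (fun c => x (Sum.inr (Sum.inr (Sum.inl c))))
        (fun t => x (Sum.inr (Sum.inr (Sum.inr (Sum.inl t)))))})
    (H : ∀ c t c' c'' t', red c' = 0 → P c t → P1 c' c'' t' ∨ P2 c t c'' t') :
    Kill3 h l u ((M ⊕ C) ⊕ (B ⊕ (C' ⊕ (T ⊕ A))))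
      {x | (fun m => x (Sum.inl (Sum.inl m))) ∈ TT ∨
      (red (fun m => x (Sum.inl (Sum.inl m))) = P0 ∧
        (1 ≤ red (fun c => x (Sum.inr (Sum.inr (Sum.inl c)))) ∨
          P (fun c => x (Sum.inl (Sum.inr c)))
            (fun t => x (Sum.inr (Sum.inr (Sum.inr (Sum.inl t)))))))} := by
  have kn : Kill3 h l u ((M ⊕ C') ⊕ ((C ⊕ T) ⊕ (A ⊕ B)))
      {x | (fun m => x (Sum.inl (Sum.inl m))) ∈ TT ∨
      (red (fun m => x (Sum.inl (Sum.inl m))) = P0 ∧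
        (1 ≤ red (fun c => x (Sum.inl (Sum.inr c))) ∨
          P (fun c => x (Sum.inr (Sum.inl (Sum.inl c))))
            (fun t => x (Sum.inr (Sum.inl (Sum.inr t))))))} := by
    refine nd3 hq hq' (by rw [Nat.card_sum]; exact hM) (by rw [Nat.card_sum]; exact hC)
      (by rw [Nat.card_sum]; exact hA) hN hB (by rw [Nat.card_sum, Nat.card_sum]; exact hC')
      k1 k2 (Kill3.empty h l u _)
      fun x1 x2 x3 n1 n2 n3 hx a1 a2 a3 a4 a5 a6 a7 a8 a9 a10 => ?_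
    have hx' : (fun m => x1 (Sum.inl m)) ∈ TT ∨ (red (fun m => x1 (Sum.inl m)) = P0 ∧
        (1 ≤ red (fun c => x1 (Sum.inr c)) ∨
          P (fun c => x2 (Sum.inl c)) (fun t => x2 (Sum.inr t)))) := hx
    have g1 := red_sum x1
    rcases hx' with hx' | ⟨hA1, hA2⟩
    · left; left
      exact hx'
    · have hz : red (fun c => x1 (Sum.inr c)) = 0 := by omega
      have hP : P (fun c => x2 (Sum.inl c)) (fun t => x2 (Sum.inr t)) := by
        rcases hA2 with hA2 | hA2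
        · omega
        · exact hA2
      rcases H _ _ _ (fun c => n3 (Sum.inl c)) (fun t => n3 (Sum.inr (Sum.inl t))) hz hP with
        h3 | h3
      · left; right
        exact ⟨hA1, h3⟩
      · right; left
        exact h3
  exact kn.transport (eX M C B C' T A)

/-- an alive set -/
theorem test {h l u : ℕ} {F R : Type} [Finite F] [Finite R]
    (hR : Nat.card F + Nat.card R = 2 * h + 1) :
    Kill3 h l u (F ⊕ R) {x | W3 h l u (Nat.card F) (red (fun f => x (Sum.inl f)))} := by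
  have k := W3_seq' (h := h) (l := l) (u := u) (L := Nat.card F) F R rfl hR ∅
    ((Kill3.empty h l u _).mono (by intro x hx; exact absurd hx (Set.notMem_empty _)))
  exact k.mono fun x hx => Or.inr hx

/-- the bundle of `w_1` -/
def eA (C T N1 C'' T' A : Type) :
    (C ⊕ (C'' ⊕ T')) ⊕ (T ⊕ (N1 ⊕ A)) ≃ (C ⊕ T) ⊕ (N1 ⊕ (C'' ⊕ (T' ⊕ A))) where
  toFun p := match p with
    | Sum.inl (Sum.inl c) => Sum.inl (Sum.inl c)
    | Sum.inl (Sum.inr (Sum.inl c)) => Sum.inr (Sum.inr (Sum.inl c))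
    | Sum.inl (Sum.inr (Sum.inr t)) => Sum.inr (Sum.inr (Sum.inr (Sum.inl t)))
    | Sum.inr (Sum.inl t) => Sum.inl (Sum.inr t)
    | Sum.inr (Sum.inr (Sum.inl n)) => Sum.inr (Sum.inl n)
    | Sum.inr (Sum.inr (Sum.inr a)) => Sum.inr (Sum.inr (Sum.inr (Sum.inr a)))
  invFun p := match p with
    | Sum.inl (Sum.inl c) => Sum.inl (Sum.inl c)
    | Sum.inr (Sum.inr (Sum.inl c)) => Sum.inl (Sum.inr (Sum.inl c))
    | Sum.inr (Sum.inr (Sum.inr (Sum.inl t))) => Sum.inl (Sum.inr (Sum.inr t))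
    | Sum.inl (Sum.inr t) => Sum.inr (Sum.inl t)
    | Sum.inr (Sum.inl n) => Sum.inr (Sum.inr (Sum.inl n))
    | Sum.inr (Sum.inr (Sum.inr (Sum.inr a))) => Sum.inr (Sum.inr (Sum.inr a))
  left_inv := by rintro ((c | (c | t)) | (t | (n | a))) <;> rfl
  right_inv := by rintro ((c | t) | (n | (c | (t | a)))) <;> rfl

/-- the bundle of `w_3` -/
def eC (C T N1 C'' T' A : Type) :
    (C ⊕ (C'' ⊕ T)) ⊕ (T' ⊕ (N1 ⊕ A)) ≃ (C ⊕ T) ⊕ (N1 ⊕ (C'' ⊕ (T' ⊕ A))) where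
  toFun p := match p with
    | Sum.inl (Sum.inl c) => Sum.inl (Sum.inl c)
    | Sum.inl (Sum.inr (Sum.inl c)) => Sum.inr (Sum.inr (Sum.inl c))
    | Sum.inl (Sum.inr (Sum.inr t)) => Sum.inl (Sum.inr t)
    | Sum.inr (Sum.inl t) => Sum.inr (Sum.inr (Sum.inr (Sum.inl t)))
    | Sum.inr (Sum.inr (Sum.inl n)) => Sum.inr (Sum.inl n)
    | Sum.inr (Sum.inr (Sum.inr a)) => Sum.inr (Sum.inr (Sum.inr (Sum.inr a)))
  invFun p := match p with
    | Sum.inl (Sum.inl c) => Sum.inl (Sum.inl c)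
    | Sum.inr (Sum.inr (Sum.inl c)) => Sum.inl (Sum.inr (Sum.inl c))
    | Sum.inl (Sum.inr t) => Sum.inl (Sum.inr (Sum.inr t))
    | Sum.inr (Sum.inr (Sum.inr (Sum.inl t))) => Sum.inr (Sum.inl t)
    | Sum.inr (Sum.inl n) => Sum.inr (Sum.inr (Sum.inl n))
    | Sum.inr (Sum.inr (Sum.inr (Sum.inr a))) => Sum.inr (Sum.inr (Sum.inr a))
  left_inv := by rintro ((c | (c | t)) | (t | (n | a))) <;> rfl
  right_inv := by rintro ((c | t) | (n | (c | (t | a)))) <;> rfl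

/-- the bundle of `w_2` -/
def eD (C T N1 C'' T' A : Type) :
    ((C ⊕ C'') ⊕ (T ⊕ T')) ⊕ (N1 ⊕ A) ≃ (C ⊕ T) ⊕ (N1 ⊕ (C'' ⊕ (T' ⊕ A))) where
  toFun p := match p with
    | Sum.inl (Sum.inl (Sum.inl c)) => Sum.inl (Sum.inl c)
    | Sum.inl (Sum.inl (Sum.inr c)) => Sum.inr (Sum.inr (Sum.inl c))
    | Sum.inl (Sum.inr (Sum.inl t)) => Sum.inl (Sum.inr t)
    | Sum.inl (Sum.inr (Sum.inr t)) => Sum.inr (Sum.inr (Sum.inr (Sum.inl t)))
    | Sum.inr (Sum.inl n) => Sum.inr (Sum.inl n)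
    | Sum.inr (Sum.inr a) => Sum.inr (Sum.inr (Sum.inr (Sum.inr a)))
  invFun p := match p with
    | Sum.inl (Sum.inl c) => Sum.inl (Sum.inl (Sum.inl c))
    | Sum.inr (Sum.inr (Sum.inl c)) => Sum.inl (Sum.inl (Sum.inr c))
    | Sum.inl (Sum.inr t) => Sum.inl (Sum.inr (Sum.inl t))
    | Sum.inr (Sum.inr (Sum.inr (Sum.inl t))) => Sum.inl (Sum.inr (Sum.inr t))
    | Sum.inr (Sum.inl n) => Sum.inr (Sum.inl n)
    | Sum.inr (Sum.inr (Sum.inr (Sum.inr a))) => Sum.inr (Sum.inr a)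
  left_inv := by rintro (((c | c) | (t | t)) | (n | a)) <;> rfl
  right_inv := by rintro ((c | t) | (n | (c | (t | a)))) <;> rfl

theorem kA {h l u c t : ℕ} {C T N1 C'' T' A : Type} [Finite C] [Finite T] [Finite N1] [Finite C'']
    [Finite T'] [Finite A] (hC : Nat.card C = c) (hC' : Nat.card C'' = c) (hT : Nat.card T' = t)
    (hs : 2 * c + t + (Nat.card T + (Nat.card N1 + Nat.card A)) = 2 * h + 1)
    (h2 : W3 h l u (2 * c + t) 0) :
    Kill3 h l u ((C ⊕ T) ⊕ (N1 ⊕ (C'' ⊕ (T' ⊕ A)))) {x | red (fun c => x (Sum.inl (Sum.inl c))) = 0 ∧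
      red (fun c => x (Sum.inr (Sum.inr (Sum.inl c)))) = 0 ∧
      red (fun t => x (Sum.inr (Sum.inr (Sum.inr (Sum.inl t))))) = 0} := by
  have hF : Nat.card (C ⊕ (C'' ⊕ T')) = 2 * c + t := by
    rw [Nat.card_sum, Nat.card_sum, hC, hC', hT]
    omega
  have k := (test (h := h) (l := l) (u := u) (F := C ⊕ (C'' ⊕ T')) (R := T ⊕ (N1 ⊕ A))
    (by rw [hF, Nat.card_sum, Nat.card_sum]; exact hs)).transport (eA C T N1 C'' T' A)
  refine k.mono ?_
  rintro x ⟨g1, g2, g3⟩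
  show W3 h l u (Nat.card (C ⊕ (C'' ⊕ T')))
    (red (fun f : C ⊕ (C'' ⊕ T') => x (eA C T N1 C'' T' A (Sum.inl f))))
  have e1 : red (fun a : C => x (eA C T N1 C'' T' A (Sum.inl (Sum.inl a)))) = 0 := g1
  have e2 : red (fun a : C'' => x (eA C T N1 C'' T' A (Sum.inl (Sum.inr (Sum.inl a))))) = 0 := g2
  have e3 : red (fun a : T' => x (eA C T N1 C'' T' A (Sum.inl (Sum.inr (Sum.inr a))))) = 0 := g3
  rw [hF, red_sum, red_sum (fun j : C'' ⊕ T' => x (eA C T N1 C'' T' A (Sum.inl (Sum.inr j)))),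
    e1, e2, e3]
  exact h2

theorem kC {h l u c t : ℕ} {C T N1 C'' T' A : Type} [Finite C] [Finite T] [Finite N1] [Finite C'']
    [Finite T'] [Finite A] (hC : Nat.card C = c) (hC' : Nat.card C'' = c) (hT : Nat.card T = t)
    (hs : 2 * c + t + (Nat.card T' + (Nat.card N1 + Nat.card A)) = 2 * h + 1)
    (h2 : W3 h l u (2 * c + t) 0) :
    Kill3 h l u ((C ⊕ T) ⊕ (N1 ⊕ (C'' ⊕ (T' ⊕ A)))) {x | red (fun c => x (Sum.inl (Sum.inl c))) = 0 ∧
      red (fun t => x (Sum.inl (Sum.inr t))) = 0 ∧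
      red (fun c => x (Sum.inr (Sum.inr (Sum.inl c)))) = 0} := by
  have hF : Nat.card (C ⊕ (C'' ⊕ T)) = 2 * c + t := by
    rw [Nat.card_sum, Nat.card_sum, hC, hC', hT]
    omega
  have k := (test (h := h) (l := l) (u := u) (F := C ⊕ (C'' ⊕ T)) (R := T' ⊕ (N1 ⊕ A))
    (by rw [hF, Nat.card_sum, Nat.card_sum]; exact hs)).transport (eC C T N1 C'' T' A)
  refine k.mono ?_
  rintro x ⟨g1, g2, g3⟩
  show W3 h l u (Nat.card (C ⊕ (C'' ⊕ T)))
    (red (fun f : C ⊕ (C'' ⊕ T) => x (eC C T N1 C'' T' A (Sum.inl f))))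
  have e1 : red (fun a : C => x (eC C T N1 C'' T' A (Sum.inl (Sum.inl a)))) = 0 := g1
  have e2 : red (fun a : C'' => x (eC C T N1 C'' T' A (Sum.inl (Sum.inr (Sum.inl a))))) = 0 := g3
  have e3 : red (fun a : T => x (eC C T N1 C'' T' A (Sum.inl (Sum.inr (Sum.inr a))))) = 0 := g2
  rw [hF, red_sum, red_sum (fun j : C'' ⊕ T => x (eC C T N1 C'' T' A (Sum.inl (Sum.inr j)))),
    e1, e2, e3]
  exact h2

/-- the bundle of a child of `w_2` -/
def eE (X D N U E : Type) : (X ⊕ U) ⊕ (D ⊕ (N ⊕ E)) ≃ (X ⊕ D) ⊕ (N ⊕ (U ⊕ E)) where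
  toFun p := match p with
    | Sum.inl (Sum.inl x) => Sum.inl (Sum.inl x)
    | Sum.inl (Sum.inr t) => Sum.inr (Sum.inr (Sum.inl t))
    | Sum.inr (Sum.inl d) => Sum.inl (Sum.inr d)
    | Sum.inr (Sum.inr (Sum.inl n)) => Sum.inr (Sum.inl n)
    | Sum.inr (Sum.inr (Sum.inr e)) => Sum.inr (Sum.inr (Sum.inr e))
  invFun p := match p with
    | Sum.inl (Sum.inl x) => Sum.inl (Sum.inl x)
    | Sum.inr (Sum.inr (Sum.inl t)) => Sum.inl (Sum.inr t)
    | Sum.inl (Sum.inr d) => Sum.inr (Sum.inl d)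
    | Sum.inr (Sum.inl n) => Sum.inr (Sum.inr (Sum.inl n))
    | Sum.inr (Sum.inr (Sum.inr e)) => Sum.inr (Sum.inr (Sum.inr e))
  left_inv := by rintro ((x | t) | (d | (n | e))) <;> rfl
  right_inv := by rintro ((x | d) | (n | (t | e))) <;> rfl

/-- the splitting of the bundle of `w_2` -/
def eF (X Y D1 D2 D3 : Type) : (X ⊕ D1) ⊕ ((Y ⊕ D2) ⊕ D3) ≃ (X ⊕ Y) ⊕ (D1 ⊕ (D2 ⊕ D3)) where
  toFun p := match p with
    | Sum.inl (Sum.inl x) => Sum.inl (Sum.inl x)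
    | Sum.inl (Sum.inr d) => Sum.inr (Sum.inl d)
    | Sum.inr (Sum.inl (Sum.inl y)) => Sum.inl (Sum.inr y)
    | Sum.inr (Sum.inl (Sum.inr d)) => Sum.inr (Sum.inr (Sum.inl d))
    | Sum.inr (Sum.inr d) => Sum.inr (Sum.inr (Sum.inr d))
  invFun p := match p with
    | Sum.inl (Sum.inl x) => Sum.inl (Sum.inl x)
    | Sum.inr (Sum.inl d) => Sum.inl (Sum.inr d)
    | Sum.inl (Sum.inr y) => Sum.inr (Sum.inl (Sum.inl y))
    | Sum.inr (Sum.inr (Sum.inl d)) => Sum.inr (Sum.inl (Sum.inr d))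
    | Sum.inr (Sum.inr (Sum.inr d)) => Sum.inr (Sum.inr d)
  left_inv := by rintro ((x | d) | ((y | d) | d)) <;> rfl
  right_inv := by rintro ((x | y) | (d | (d | d))) <;> rfl

theorem kE {h l u : ℕ} {X D N U E : Type} [Finite X] [Finite D] [Finite N] [Finite U] [Finite E]
    (hs : Nat.card X + Nat.card U + (Nat.card D + (Nat.card N + Nat.card E)) = 2 * h + 1) :
    Kill3 h l u ((X ⊕ D) ⊕ (N ⊕ (U ⊕ E))) {x | W3 h l u (Nat.card X + Nat.card U)
      (red (fun a => x (Sum.inl (Sum.inl a))) + red (fun a => x (Sum.inr (Sum.inr (Sum.inl a)))))} := by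
  have k := (test (h := h) (l := l) (u := u) (F := X ⊕ U) (R := D ⊕ (N ⊕ E))
    (by rw [Nat.card_sum, Nat.card_sum, Nat.card_sum]; exact hs)).transport (eE X D N U E)
  refine k.mono ?_
  intro x hx
  show W3 h l u (Nat.card (X ⊕ U)) (red (fun f : X ⊕ U => x (eE X D N U E (Sum.inl f))))
  rw [Nat.card_sum, red_sum]
  exact hx

theorem kD {h l u c t : ℕ} {C T N1 C'' T' A : Type} [Finite C] [Finite T] [Finite N1] [Finite C'']
    [Finite T'] [Finite A] (hC : Nat.card C = c) (hC' : Nat.card C'' = c) (hT : Nat.card T = t)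
    (hT' : Nat.card T' = t) (hs : 2 * c + 2 * t + (Nat.card N1 + Nat.card A) = 2 * h + 1)
    (hc : 2 * c ≤ h) (ht : 1 ≤ t) (h3t : 3 * t ≤ h) (h2 : W3 h l u (2 * c + t) 0)
    (h3 : ∀ p, 3 ≤ p → W3 h l u (3 * t) p) :
    Kill3 h l u ((C ⊕ T) ⊕ (N1 ⊕ (C'' ⊕ (T' ⊕ A)))) {x | red (fun c => x (Sum.inl (Sum.inl c))) = 0 ∧
      1 ≤ red (fun t => x (Sum.inl (Sum.inr t))) ∧
      red (fun c => x (Sum.inr (Sum.inr (Sum.inl c)))) = 0 ∧
      1 ≤ red (fun t => x (Sum.inr (Sum.inr (Sum.inr (Sum.inl t)))))} := by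
  have cX : Nat.card (C ⊕ C'') = 2 * c := by rw [Nat.card_sum, hC, hC']; omega
  have cY : Nat.card (T ⊕ T') = 2 * t := by rw [Nat.card_sum, hT, hT']; omega
  -- `v_1`
  have k1 := kE (h := h) (l := l) (u := u) (X := C ⊕ C'') (D := Fin (h - 2 * c))
    (N := Fin (2 * t)) (U := Fin t) (E := Fin (h + 1 - 3 * t))
    (by rw [cX, Nat.card_fin, Nat.card_fin, Nat.card_fin, Nat.card_fin]; omega)
  -- `v_2`
  have k2 := kE (h := h) (l := l) (u := u) (X := T ⊕ T') (D := Fin 0)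
    (N := Fin h) (U := Fin t) (E := Fin (h + 1 - 3 * t))
    (by rw [cY, Nat.card_fin, Nat.card_fin, Nat.card_fin, Nat.card_fin]; omega)
  have kn : Kill3 h l u (((C ⊕ C'') ⊕ Fin (h - 2 * c)) ⊕
      (((T ⊕ T') ⊕ Fin 0) ⊕ Fin (h + 1 - 2 * t)))
      {x | red (fun a => x (Sum.inl (Sum.inl (Sum.inl a)))) = 0 ∧
        1 ≤ red (fun a => x (Sum.inr (Sum.inl (Sum.inl (Sum.inl a))))) ∧
        red (fun a => x (Sum.inl (Sum.inl (Sum.inr a)))) = 0 ∧
        1 ≤ red (fun a => x (Sum.inr (Sum.inl (Sum.inl (Sum.inr a)))))} := by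
    refine nd3 (q := 2 * t) (N1 := Fin h) (N2 := Fin (2 * t)) (N3 := Fin t ⊕ Fin (h + 1 - 3 * t))
      (by omega) (by omega) (by rw [Nat.card_sum, cX, Nat.card_fin]; omega)
      (by rw [Nat.card_sum, cY, Nat.card_fin]; omega) (Nat.card_fin _) (Nat.card_fin _)
      (Nat.card_fin _) (by rw [Nat.card_sum, Nat.card_fin, Nat.card_fin]; omega)
      k1 k2 (Kill3.empty h l u _)
      fun x1 x2 x3 n1 n2 n3 hx a1 a2 a3 a4 a5 a6 a7 a8 a9 a10 => ?_
    obtain ⟨g1, g2, g3, g4⟩ := hx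
    have g1' : red (fun a => x1 (Sum.inl (Sum.inl a))) = 0 := g1
    have g2' : 1 ≤ red (fun a => x2 (Sum.inl (Sum.inl a))) := g2
    have g3' : red (fun a => x1 (Sum.inl (Sum.inr a))) = 0 := g3
    have g4' : 1 ≤ red (fun a => x2 (Sum.inl (Sum.inr a))) := g4
    have s1 := red_sum (fun a : C ⊕ C'' => x1 (Sum.inl a))
    have s2 := red_sum (fun a : T ⊕ T' => x2 (Sum.inl a))
    by_cases h5 : red (fun a => n3 (Sum.inl a)) = 0
    · left
      show W3 h l u (Nat.card (C ⊕ C'') + Nat.card (Fin t))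
        (red (fun a => x1 (Sum.inl a)) + red (fun a => n3 (Sum.inl a)))
      rw [cX, Nat.card_fin]
      have e0 : red (fun a => x1 (Sum.inl a)) + red (fun a => n3 (Sum.inl a)) = 0 := by omega
      rw [e0]
      exact h2
    · right; left
      show W3 h l u (Nat.card (T ⊕ T') + Nat.card (Fin t))
        (red (fun a => x2 (Sum.inl a)) + red (fun a => n3 (Sum.inl a)))
      rw [cY, Nat.card_fin]
      have e0 : 2 * t + t = 3 * t := by omega
      rw [e0]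
      exact h3 _ (by omega)
  have k4 := kn.transport (eF (C ⊕ C'') (T ⊕ T') (Fin (h - 2 * c)) (Fin 0) (Fin (h + 1 - 2 * t)))
  have k5 : Kill3 h l u (((C ⊕ C'') ⊕ (T ⊕ T')) ⊕
      (Fin (h - 2 * c) ⊕ (Fin 0 ⊕ Fin (h + 1 - 2 * t))))
      {x | (fun f => x (Sum.inl f)) ∈ {y : (C ⊕ C'') ⊕ (T ⊕ T') → Bool |
        red (fun a => y (Sum.inl (Sum.inl a))) = 0 ∧ 1 ≤ red (fun a => y (Sum.inr (Sum.inl a))) ∧
        red (fun a => y (Sum.inl (Sum.inr a))) = 0 ∧ 1 ≤ red (fun a => y (Sum.inr (Sum.inr a)))}} := k4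
  have k6 := kill3_rest (R' := N1 ⊕ A) (by
    rw [Nat.card_sum, Nat.card_sum, Nat.card_sum, Nat.card_fin, Nat.card_fin, Nat.card_fin]
    omega) k5
  exact k6.transport (eD C T N1 C'' T' A)

/-- **`P` red edges among `mu` edges which stay alive are refutable.** -/
theorem midO {h l u c t mu P : ℕ} (hlu : 2 * u < l + 2 * (P + 1)) (hmu : mu + c = h)
    (hct : 2 * (c + t) ≤ h + 1) (h3t : 3 * t ≤ h) (ht : 1 ≤ t) (h2 : W3 h l u (2 * c + t) 0)
    (h3 : ∀ p, 3 ≤ p → W3 h l u (3 * t) p) : W3 h l u mu P := by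
  intro F R _ _ hF hR TT hT
  have hh : 1 ≤ h := by omega
  have hq : 1 ≤ c + t := by omega
  have hq' : c + t ≤ h := by omega
  have hA : Nat.card (Fin (h + 1 - 2 * (c + t))) + Nat.card (Fin (c + t)) = h + 1 - (c + t) := by
    rw [Nat.card_fin, Nat.card_fin]
    omega
  have hC' : Nat.card (Fin c) + (Nat.card (Fin t) + Nat.card (Fin (h + 1 - 2 * (c + t)))) =
      h + 1 - (c + t) := by
    rw [Nat.card_fin, Nat.card_fin, Nat.card_fin]
    omega
  have hCT : Nat.card (Fin c) + Nat.card (Fin t) = c + t := by rw [Nat.card_fin, Nat.card_fin]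
  have hMC : Nat.card F + Nat.card (Fin c) = h := by rw [hF, Nat.card_fin]; exact hmu
  -- `X_5`
  have k5 : Kill3 h l u ((F ⊕ Fin c) ⊕ (Fin (c + t) ⊕ (Fin c ⊕ (Fin t ⊕
      Fin (h + 1 - 2 * (c + t)))))) {x | (fun m => x (Sum.inl (Sum.inl m))) ∈ TT ∨
      (red (fun m => x (Sum.inl (Sum.inl m))) = P ∧
        (fun _ _ _ => False : (Fin c → Bool) → (Fin c → Bool) → (Fin t → Bool) → Prop)
          (fun c => x (Sum.inl (Sum.inr c))) (fun c => x (Sum.inr (Sum.inr (Sum.inl c))))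
          (fun t => x (Sum.inr (Sum.inr (Sum.inr (Sum.inl t))))))} := by
    have h0 := (kill3_rest (R' := Fin c ⊕ (Fin (c + t) ⊕ (Fin c ⊕ (Fin t ⊕
      Fin (h + 1 - 2 * (c + t)))))) (by
        simp only [Nat.card_sum, Nat.card_fin]
        omega) hT).transport (Equiv.sumAssoc F (Fin c) _).symm
    refine h0.mono ?_
    rintro x (hx | ⟨_, hx⟩)
    · exact hx
    · exact hx.elim
  -- `X_4`
  have k4 := step3 (C := Fin c) (C' := Fin c) (C'' := Fin c) (T := Fin t) (T' := Fin t)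
    (N1 := Fin h) hlu hq hq' hMC hCT hA (Nat.card_fin _) (Nat.card_fin _) hC' (TT := TT)
    (P1 := fun _ _ _ => False) (P2 := fun _ _ _ _ => False) (fun _ _ => False) k5
    ((Kill3.empty h l u _).mono (by intro x hx; exact hx.elim)) (fun _ _ _ _ _ _ h => h.elim)
  -- `X_3`
  have k3 := step3 (C := Fin c) (C' := Fin c) (C'' := Fin c) (T := Fin t) (T' := Fin t)
    (N1 := Fin h) hlu hq hq' hMC hCT hA (Nat.card_fin _) (Nat.card_fin _) hC' (TT := TT)
    (P1 := fun _ c _ => 1 ≤ red c ∨ False)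
    (P2 := fun c t c' _ => red c = 0 ∧ red t = 0 ∧ red c' = 0)
    (fun c t => red c = 0 ∧ red t = 0) k4
    (kC (Nat.card_fin _) (Nat.card_fin _) (Nat.card_fin _)
      (by rw [Nat.card_fin, Nat.card_fin, Nat.card_fin]; omega) h2)
    (fun c t c' c'' t' _ h => by
      by_cases h5 : red c'' = 0
      · exact Or.inr ⟨h.1, h.2, h5⟩
      · exact Or.inl (Or.inl (by omega)))
  -- `X_2`
  have k2 := step3 (C := Fin c) (C' := Fin c) (C'' := Fin c) (T := Fin t) (T' := Fin t)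
    (N1 := Fin h) hlu hq hq' hMC hCT hA (Nat.card_fin _) (Nat.card_fin _) hC' (TT := TT)
    (P1 := fun c c' t => 1 ≤ red c' ∨ (red c = 0 ∧ red t = 0))
    (P2 := fun c t c' t' => red c = 0 ∧ 1 ≤ red t ∧ red c' = 0 ∧ 1 ≤ red t')
    (fun c t => red c = 0 ∧ 1 ≤ red t) k3
    (kD (Nat.card_fin _) (Nat.card_fin _) (Nat.card_fin _) (Nat.card_fin _)
      (by rw [Nat.card_fin, Nat.card_fin]; omega) (by omega) ht h3t h2 h3)
    (fun c t c' c'' t' hc h => by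
      by_cases h5 : red c'' = 0
      · by_cases h6 : red t' = 0
        · exact Or.inl (Or.inr ⟨hc, h6⟩)
        · exact Or.inr ⟨h.1, h.2, h5, by omega⟩
      · exact Or.inl (Or.inl (by omega)))
  -- `X_1`
  have k1 := step3 (C := Fin c) (C' := Fin c) (C'' := Fin c) (T := Fin t) (T' := Fin t)
    (N1 := Fin h) hlu hq hq' hMC hCT hA (Nat.card_fin _) (Nat.card_fin _) hC' (TT := TT)
    (P1 := fun c c' t => 1 ≤ red c' ∨ (red c = 0 ∧ 1 ≤ red t))
    (P2 := fun c _ c' t' => red c = 0 ∧ red c' = 0 ∧ red t' = 0)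
    (fun c _ => red c = 0) k2
    (kA (Nat.card_fin _) (Nat.card_fin _) (Nat.card_fin _)
      (by rw [Nat.card_fin, Nat.card_fin, Nat.card_fin]; omega) h2)
    (fun c t c' c'' t' hc h => by
      by_cases h5 : red c'' = 0
      · by_cases h6 : red t' = 0
        · exact Or.inr ⟨h, h5, h6⟩
        · exact Or.inl (Or.inr ⟨hc, by omega⟩)
      · exact Or.inl (Or.inl (by omega)))
  -- `X_0`
  have k0 : Kill3 h l u ((F ⊕ Fin c) ⊕ (Fin (c + t) ⊕ Fin (h + 1 - (c + t))))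
      {x | (fun m => x (Sum.inl (Sum.inl m))) ∈ TT ∨ red (fun m => x (Sum.inl (Sum.inl m))) = P} := by
    refine nd3 (N1 := Fin h) hq hq' (by rw [Nat.card_sum]; exact hMC) (Nat.card_fin _)
      (Nat.card_fin _) (Nat.card_fin _) (Nat.card_fin _)
      (by rw [Nat.card_sum, Nat.card_sum]; exact hC') k1 (Kill3.empty h l u _)
      (Kill3.empty h l u _) fun x1 x2 x3 n1 n2 n3 hx a1 a2 a3 a4 a5 a6 a7 a8 a9 a10 => ?_
    left
    have hx' : (fun m => x1 (Sum.inl m)) ∈ TT ∨ red (fun m => x1 (Sum.inl m)) = P := hx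
    have g1 := red_sum x1
    rcases hx' with hx' | hx'
    · exact Or.inl hx'
    · have hz : red (fun c => x1 (Sum.inr c)) = 0 := by omega
      exact Or.inr ⟨hx', Or.inr hz⟩
  have ku : Kill3 h l u (F ⊕ (Fin c ⊕ (Fin (c + t) ⊕ Fin (h + 1 - (c + t)))))
      {x | (fun f => x (Sum.inl f)) ∈ {y : F → Bool | y ∈ TT ∨ red y = P}} :=
    k0.transport (Equiv.sumAssoc F (Fin c) _)
  exact kill3_rest (by simp only [Nat.card_sum, Nat.card_fin]; omega) ku

end Pool.Agent.Lib.MP_21a058_co.Slack3.Mid3odd
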