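import Pool.Agent.Lib.MP_21a058_co.Slack3.RuleB3
import Pool.Agent.Lib.MP_21a058_co.Slack3.Mid3odd
import Pool.Agent.Lib.MP_21a058_co.Slack3.Arith3_80
import Pool.Agent.Lib.MP_21a058_co.Slack3.Gad3

/-! Odd edge-connectivity `2 h + 1`, window `2 d + 1 ≤ red ≤ 2 d + 3`, `d ≥ 2`,
`68 (d + 1) < 2 h + 1`: everything is killable. -/

set_option autoImplicit false

namespace Pool.Agent.Lib.MP_21a058_co.Slack3.B3

open Finset Pool.Agent.Lib.MP_21a058_co
open Pool.Agent.Lib.MP_21a058_co.Slack3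

theorem rules {h d : ℕ} (hh : 1 ≤ h) :
    Arith3_80.Rules h d (fun L p => L ≤ h → W3 h (2 * d + 1) (2 * d + 3) L p) where
  top _ _ hL hp := fun _ => base hh hL (Or.inl hp)
  bot _ hp := fun _ => base hh le_rfl (Or.inr (by omega))
  r2 _ _ _ _ hi hj hij H := fun _ => W3_R2 hh hi hj hij fun a b ha hb => by
    rcases H a b ha hb with h1 | h1 | h1
    · exact Or.inl (h1 hi)
    · exact Or.inr (Or.inl (h1 hj))
    · exact Or.inr (Or.inr (h1 hij))
  ru _ _ _ _ hi hj hij H := fun _ => up hij hi hj fun a b ha hb h0 _ => by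
    rcases H a b ha hb h0 with h1 | h1
    · exact Or.inl (h1 hi)
    · exact Or.inr (h1 hj)
  rl _ _ _ _ hL hi hj hij H := fun _ => lo hL hi hj hij fun a b ha hb h0 _ => by
    rcases H a b ha hb h0 with h1 | h1
    · exact Or.inl (h1 hj)
    · exact Or.inr (h1 hij)
  rll _ _ _ hL hLh hi hii H := fun _ => ll hL hi (by omega) hii fun a b ha hb h0 h1 =>
    H a b ha hb h0 h1 hii

theorem w00 {h d : ℕ} (hd : 2 ≤ d) (hh : 68 * (d + 1) < 2 * h + 1) :
    W3 h (2 * d + 1) (2 * d + 3) 0 0 := by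
  refine Arith3_80.fin00 (rules (h := h) (d := d) (by omega)) hd hh ?_ (Nat.zero_le h)
  intro c hc hch h2 h3 _
  exact Mid3odd.midO (c := c) (t := 11) (by omega) (by omega) hc (by omega) (by omega)
    (h2 (by omega)) fun p hp => h3 p hp (by omega)

theorem kill_univ {h l u : ℕ} (hW : W3 h l u 0 0) :
    Kill3 h l u (Fin 0 ⊕ Fin (2 * h + 1)) Set.univ := by
  have h1 := hW (Fin 0) (Fin (2 * h + 1)) (Nat.card_fin 0)
    (by rw [Nat.card_fin, Nat.card_fin]; omega) ∅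
    ((Kill3.empty h l u _).mono (by intro x hx; exact absurd hx (Set.notMem_empty _)))
  refine h1.mono ?_
  intro x _
  right
  have := Odd.red_le (fun f : Fin 0 => x (Sum.inl f))
  rw [Nat.card_fin] at this
  omega

/-- Some parts have odd sum `2 d + 1 ≥ 5` and the others have even sum `2 h - 2 d - 2`. -/
theorem fails {h d l' r : ℕ} (hd : 2 ≤ d) (hh : 68 * (d + 1) < 2 * h + 1)
    (hl : 2 * d + 3 + l' = 2 * h + 1) (ks : Fin r → ℕ) (J : Finset (Fin r))
    (hJ : ∑ i ∈ J, ks i = 2 * d + 1) (hJ' : ∑ i ∈ Jᶜ, ks i = l') : ¬ Arrow (2 * h + 1) ks :=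
  Kill3.false_of_univ hl (kill_univ (w00 hd hh))
    (by rw [Nat.card_sum, Nat.card_fin, Nat.card_fin]; omega) ks J hJ hJ'

end Pool.Agent.Lib.MP_21a058_co.Slack3.B3
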