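import Pool.Agent.Lib.MP_21a058_co.Slack3.Main84
import Pool.Agent.Lib.MP_21a058_co.Slack3.Final

/-! Two odd classes: `f ≥ a + b + 3` for every odd `a ≥ 3` and every odd `b ≥ 43 a + 43`. -/

set_option autoImplicit false

namespace Pool.Agent.Lib.MP_21a058_co.Slack3.AllOdd

open Finset Pool.Agent.Lib.MP_21a058_co
open Pool.Agent.Lib.MP_21a058_co.Slack3
open Pool.Agent.Lib.MP_21a058_co.Slack3.Gen

/-- few red edges at the low levels -/
theorem lev {K m L j p : ℕ} (hL : L ≤ K) (h : (m + 1) * L < j * K) (hp : j + 2 ≤ p) :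
    W K (2 * m + 1) (2 * m + 3) L p := by
  refine dev hL ?_
  have f1 : (K : ℤ) * (j + 2) ≤ K * p :=
    mul_le_mul_of_nonneg_left (by omega) (Int.natCast_nonneg _)
  have f2 : ((m : ℤ) + 1) * L < j * K := by exact_mod_cast h
  refine lt_of_lt_of_le ?_ (le_abs_self _)
  have f3 : (K : ℤ) * (j + 2) = j * K + 2 * K := by ring
  linarith

theorem main6 {K m : ℕ} (hm : 1 ≤ m) (h : 44 * (m + 1) < K) :
    W K (2 * m + 1) (2 * m + 3) (K - 6) (m - 1) := by
  obtain ⟨q, hq⟩ : ∃ q, q = (K - 1) / (m + 1) := ⟨_, rfl⟩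
  have q1 : (m + 1) * q ≤ K - 1 := by
    rw [hq]
    exact Nat.mul_div_le _ _
  have q2 : K - 1 < (m + 1) * (q + 1) := by
    rw [hq]
    exact Nat.lt_mul_div_succ _ (by omega)
  have q2' : (m + 1) * (q + 1) = (m + 1) * q + (m + 1) := by ring
  have q3 : 44 ≤ q := by
    by_contra hc
    have h1 : (m + 1) * (q + 1) ≤ (m + 1) * 44 := Nat.mul_le_mul_left _ (by omega)
    omega
  have q4 : 2 * q ≤ K - 1 := le_trans (Nat.mul_le_mul_right _ (by omega)) q1
  refine Main84.main (c := 6) (v := q - 18) (xx := K - 6 - 2 * (q - 18)) (zz := K - 12 - (q - 18))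
    (L1 := q) (L2 := K + 42 - 2 * q) hm (by omega) (by omega) (by omega) (by omega)
    (fun p hp => lev (j := 1) (by omega) (by omega) (by omega)) (by omega)
    (fun p hp => lev (j := m) (by omega) ?_ (by omega))
  have e1 : (m + 1) * (K + 42 - 2 * q) + 2 * ((m + 1) * q) = m * K + K + 42 * (m + 1) := by
    obtain ⟨t, ht⟩ := Nat.exists_eq_add_of_le (show 2 * q ≤ K + 42 by omega)
    rw [ht, Nat.add_sub_cancel_left]
    have e2 : m * K + K + 42 * (m + 1) = (m + 1) * (K + 42) := by ring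
    rw [e2, ht]
    ring
  omega

/-- the low side at level `K - 6` -/
theorem low6 {K m p : ℕ} (hm : 1 ≤ m) (h : 44 * (m + 1) < K) (hp : p + 1 ≤ m) :
    W K (2 * m + 1) (2 * m + 3) (K - 6) p := by
  by_cases h1 : p = m - 1
  · rw [h1]
    exact main6 hm h
  · refine dev (by omega) ?_
    obtain ⟨t, rfl⟩ := Nat.exists_eq_add_of_le (show 6 ≤ K by omega)
    have f1 : ((6 + t : ℕ) : ℤ) * p ≤ ((6 + t : ℕ) : ℤ) * (m - 2) :=
      mul_le_mul_of_nonneg_left (by omega) (Int.natCast_nonneg _)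
    have f2 : (44 : ℤ) * (m + 1) < ((6 + t : ℕ) : ℤ) := by exact_mod_cast h
    rw [Nat.add_sub_cancel_left]
    refine lt_of_lt_of_le ?_ (neg_le_abs _)
    have f3 : ((6 + t : ℕ) : ℤ) * (m - 2) - (m + 1) * (t : ℤ) =
        -(3 * ((6 + t : ℕ) : ℤ)) + 6 * (m + 1) := by
      push_cast
      ring
    linarith

theorem w22 {K m : ℕ} (hm : 1 ≤ m) (h : 44 * (m + 1) < K) :
    W K (2 * m + 1) (2 * m + 3) 2 2 := by
  obtain ⟨q, hq⟩ : ∃ q, q = (K - 1) / (m + 1) := ⟨_, rfl⟩
  have q1 : (m + 1) * q ≤ K - 1 := by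
    rw [hq]
    exact Nat.mul_div_le _ _
  have q2 : K - 1 < (m + 1) * (q + 1) := by
    rw [hq]
    exact Nat.lt_mul_div_succ _ (by omega)
  have q2' : (m + 1) * (q + 1) = (m + 1) * q + (m + 1) := by ring
  have q3 : 44 ≤ q := by
    by_contra hc
    have h1 : (m + 1) * (q + 1) ≤ (m + 1) * 44 := Nat.mul_le_mul_left _ (by omega)
    omega
  have q4 : 2 * q ≤ K - 1 := le_trans (Nat.mul_le_mul_right _ (by omega)) q1
  have e1 : (m + 1) * (K - 2 - q) + (m + 1) * q + 2 * (m + 1) = m * K + K := by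
    obtain ⟨t, ht⟩ := Nat.exists_eq_add_of_le (show 2 + q ≤ K by omega)
    have e3 : K - 2 - q = t := by omega
    rw [e3, ht]
    ring
  refine W_R2 (i := q - 2) (j := K - 4 - q) (by omega) (by omega) (by omega)
    fun a b ha hb => ?_
  rw [show 2 + (q - 2) = q by omega, show 2 + (K - 4 - q) = K - 2 - q by omega,
    show q - 2 + (K - 4 - q) = K - 6 by omega]
  by_cases h1 : 1 ≤ a
  · exact Or.inl (lev (j := 1) (by omega) (by omega) (by omega))
  by_cases h2 : m ≤ b
  · exact Or.inr (Or.inl (lev (j := m) (by omega) (by omega) (by omega)))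
  · exact Or.inr (Or.inr (low6 hm h (by omega)))

theorem down {K m : ℕ} (hm : 1 ≤ m) (h : 44 * (m + 1) < K) :
    ∀ n, n ≤ K → W K (2 * m + 1) (2 * m + 3) (K - n) 0 := by
  intro n
  induction n with
  | zero =>
    intro _
    exact bot (by omega)
  | succ n ih =>
    intro hn
    have h1 := ih (by omega)
    refine W_R2 (i := 1) (j := 1) (by omega) (by omega) (by omega) fun a b ha hb => ?_
    rw [show K - (n + 1) + 1 = K - n by omega]
    by_cases h2 : a = 0
    · left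
      subst h2
      exact h1
    by_cases h3 : b = 0
    · right; left
      subst h3
      exact h1
    right; right
    have e1 : a = 1 := by omega
    have e2 : b = 1 := by omega
    subst e1 e2
    exact w22 hm h

theorem W_zero {K m : ℕ} (hm : 1 ≤ m) (h : 44 * (m + 1) < K) :
    W K (2 * m + 1) (2 * m + 3) 0 0 := by
  have h1 := down hm h K le_rfl
  rwa [Nat.sub_self] at h1

/-- `f ≥ a + b + 3`, where `a` is the sum of some of the parts and `b` the sum of the others. -/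
theorem two_odd (k r : ℕ) (ks : Fin r → ℕ) (J : Finset (Fin r)) (ha : Odd (∑ i ∈ J, ks i))
    (ha3 : 3 ≤ ∑ i ∈ J, ks i) (hb : Odd (∑ i ∈ Jᶜ, ks i))
    (hab : 43 * ∑ i ∈ J, ks i + 43 ≤ ∑ i ∈ Jᶜ, ks i) (h : Arrow k ks) :
    ∑ i, ks i + 3 ≤ k := by
  classical
  have hsum : ∑ i ∈ J, ks i + ∑ i ∈ Jᶜ, ks i = ∑ i, ks i := sum_add_sum_compl _ _
  by_contra hlt
  push Not at hlt
  obtain ⟨m, hm⟩ := ha
  obtain ⟨n, hn⟩ := hb
  have hA : Arrow (2 * (m + n + 2)) ks := arrow_mono (by omega) h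
  exact not_arrow_of_W (K := m + n + 2) (l := 2 * m + 1) (u := 2 * m + 3) (l' := 2 * n + 1)
    (by omega) (by omega) (W_zero (by omega) (by omega)) ks J hm hn hA

end Pool.Agent.Lib.MP_21a058_co.Slack3.AllOdd
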