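import Pool.Agent.Lib.MP_21a058_co.Slack3.Slope25

/-! All odd pairs `a`, `b` for which `(a + 1) / (a + b + 2)` is not too close to a fraction with
denominator at most `60`: `a + b + 2` is not enough. -/

set_option autoImplicit false

namespace Pool.Agent.Lib.MP_21a058_co.Slack3.AllOdd36

open Pool.Agent.Lib.MP_21a058_co Pool.Agent.Lib.MP_21a058_co.Slack3

/-- One coprime pair `q, h` with `5 q + 150 ≤ q (m + 1) - h K ≤ K / 61`. -/
theorem core {K m : ℕ} (q h e : ℤ) (hq : 1 ≤ q) (hc : IsCoprime q h)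
    (he : e = q * ((m : ℤ) + 1) - h * K) (h61 : 61 * e ≤ K) (h5 : 5 * q + 150 ≤ e) :
    W K (2 * m + 1) (2 * m + 3) 0 0 := by
  obtain ⟨u, v, huv⟩ := hc
  obtain ⟨e', he'⟩ : ∃ e' : ℤ, e' = -v * ((m : ℤ) + 1) - u * K := ⟨_, rfl⟩
  have iK : (K : ℤ) = e * (-v) - e' * q := by
    rw [he, he']
    linear_combination (-(K : ℤ)) * huv
  have iM : (m : ℤ) + 1 = e * u - e' * h := by
    rw [he, he']
    linear_combination (-((m : ℤ) + 1)) * huv
  have hKpos : (0 : ℤ) < K := by linarith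
  have hm0 : (0 : ℤ) ≤ m := Int.natCast_nonneg _
  -- from integers to `w00`
  have fin : ∀ s n V : ℤ, 1 ≤ s → V = s * ((m : ℤ) + 1) - n * K → 15 * V < K → 5 * s ≤ V →
      ((2 ∣ (K : ℤ) ∧ 2 ∣ (m : ℤ) + 1) ∨ (2 ∣ (K : ℤ) + s ∧ 2 ∣ (m : ℤ) + 1 + n)) →
      W K (2 * m + 1) (2 * m + 3) 0 0 := by
    intro s n V h1 h2 h3 h4 h6
    have hn : 0 ≤ n := by
      by_contra hcon
      have f1 : n * K ≤ (-1) * K := mul_le_mul_of_nonneg_right (by omega) hKpos.le
      have f2 : 0 ≤ s * ((m : ℤ) + 1) := by positivity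
      linarith
    obtain ⟨s, rfl⟩ := Int.eq_ofNat_of_zero_le (show 0 ≤ s by omega)
    obtain ⟨n, rfl⟩ := Int.eq_ofNat_of_zero_le hn
    obtain ⟨V, rfl⟩ := Int.eq_ofNat_of_zero_le (show 0 ≤ V by omega)
    have g1 : (m + 1) * s = n * K + V := by
      have : ((m : ℤ) + 1) * s = n * K + V := by linarith
      exact_mod_cast this
    refine Slope.w00 (s := s) (n := n) (N := V) (by exact_mod_cast h1) g1 (by exact_mod_cast h3)
      (by exact_mod_cast h4) ?_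
    rcases h6 with ⟨h6, h7⟩ | ⟨h6, h7⟩
    · exact Or.inl ⟨by exact_mod_cast h6, by exact_mod_cast h7⟩
    · exact Or.inr ⟨by exact_mod_cast h6, by exact_mod_cast h7⟩
  rcases Int.even_or_odd e with ⟨f, hf⟩ | ⟨f, hf⟩
  · refine fin q h e hq he (by linarith) (by linarith) ?_
    rcases Int.even_or_odd e' with ⟨g, hg⟩ | ⟨g, hg⟩
    · left
      refine ⟨⟨-f * v - g * q, ?_⟩, ⟨f * u - g * h, ?_⟩⟩
      · rw [iK, hf, hg]; ring
      · rw [iM, hf, hg]; ring
    · right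
      refine ⟨⟨-f * v - g * q, ?_⟩, ⟨f * u - g * h, ?_⟩⟩
      · rw [iK, hf, hg]; ring
      · rw [iM, hf, hg]; ring
  · obtain ⟨t, ht⟩ : ∃ t : ℤ, t = K - 30 * (e' * (1 + e)) := ⟨_, rfl⟩
    obtain ⟨y, hy⟩ : ∃ y : ℤ, y = t / (60 * e) + 1 := ⟨_, rfl⟩
    have he0 : 0 < 60 * e := by linarith
    have y1 : t < 60 * e * y := by
      rw [hy]
      have := Int.lt_mul_ediv_self_add (x := t) he0
      linarith
    have y2 : 60 * e * y ≤ t + 60 * e := by
      rw [hy]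
      have := Int.mul_ediv_self_le (x := t) (k := 60 * e) (by omega)
      linarith
    obtain ⟨V, hV⟩ : ∃ V : ℤ, V = (e' + 2 * y) * e + e' := ⟨_, rfl⟩
    have v1 : (K : ℤ) < 30 * V := by
      rw [hV]
      rw [ht] at y1
      linarith
    have v2 : 30 * V < 2 * K := by
      rw [hV]
      rw [ht] at y2
      linarith
    obtain ⟨s, hs⟩ : ∃ s : ℤ, s = (e' + 2 * y) * q + -v := ⟨_, rfl⟩
    obtain ⟨n, hn⟩ : ∃ n : ℤ, n = (e' + 2 * y) * h + u := ⟨_, rfl⟩
    have hVs : V = s * ((m : ℤ) + 1) - n * K := by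
      rw [hV, hs, hn]
      have f1 : (e' + 2 * y) * e = (e' + 2 * y) * (q * ((m : ℤ) + 1) - h * K) := by rw [he]
      rw [f1]
      linear_combination he'
    have hqV : q * V = s * e - K := by
      rw [hV, hs]
      linear_combination iK
    have hep : 0 < e := by linarith
    have hVp : 0 < V := by linarith
    have hs1 : 1 ≤ s := by
      by_contra hcon
      have f1 : s * e ≤ 0 := by nlinarith
      have f2 : 0 < q * V := by positivity
      linarith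
    have hs5 : 5 * s ≤ V := by
      have f1 : (5 * q) * V ≤ (e - 150) * V := mul_le_mul_of_nonneg_right (by linarith) hVp.le
      have f2 : e * (5 * s) ≤ e * V := by linarith
      exact le_of_mul_le_mul_left f2 hep
    refine fin s n V hs1 hVs (by linarith) hs5 (Or.inr ⟨⟨-(f + 1) * v + y * q, ?_⟩,
      ⟨(f + 1) * u + y * h, ?_⟩⟩)
    · rw [hs]
      have : (K : ℤ) = (2 * f + 1) * (-v) - e' * q := by rw [iK, hf]
      rw [this]; ring
    · rw [hn]
      have : (m : ℤ) + 1 = (2 * f + 1) * u - e' * h := by rw [iM, hf]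
      rw [this]; ring

open Finset in
theorem one {r : ℕ} (ks : Fin r → ℕ) (J : Finset (Fin r)) {K m : ℕ}
    (hm : ∑ l ∈ J, ks l = 2 * m + 1) (hK : ∑ l, ks l + 2 = 2 * K) (q h : ℤ) (hq : 1 ≤ q)
    (hc : IsCoprime q h) (h61 : 61 * (q * ((m : ℤ) + 1) - h * K) ≤ K)
    (h5 : 5 * q + 150 ≤ q * ((m : ℤ) + 1) - h * K) : ¬ Arrow (2 * K) ks := by
  have hsum : ∑ l ∈ J, ks l + ∑ l ∈ Jᶜ, ks l = ∑ l, ks l := sum_add_sum_compl _ _
  exact not_arrow_of_W (K := K) (l := 2 * m + 1) (u := 2 * m + 3)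
    (l' := ∑ l ∈ Jᶜ, ks l) (by omega) (by omega) (core q h _ hq hc rfl h61 h5) ks J hm rfl

open Finset in
/-- **All odd pairs away from the fractions with denominator at most `60`.** -/
theorem not_arrow {r : ℕ} (ks : Fin r → ℕ) (J : Finset (Fin r)) (ha : Odd (∑ l ∈ J, ks l))
    (hS : Even (∑ l, ks l)) (hfar : ∀ q h : ℤ, 1 ≤ q → q ≤ 60 →
      10 * q + 300 ≤ |q * ((∑ l ∈ J, ks l : ℕ) + 1) - h * ((∑ l, ks l : ℕ) + 2)|) :
    ¬ Arrow (∑ l, ks l + 2) ks := by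
  have hsum : ∑ l ∈ J, ks l + ∑ l ∈ Jᶜ, ks l = ∑ l, ks l := sum_add_sum_compl _ _
  obtain ⟨m, hm⟩ := ha
  obtain ⟨T, hT⟩ := hS
  obtain ⟨K, hK⟩ : ∃ K, ∑ l, ks l + 2 = 2 * K := ⟨T + 1, by omega⟩
  have hK1 : 1 ≤ K := by omega
  rw [hK]
  have hfar' : ∀ q h : ℤ, 1 ≤ q → q ≤ 60 → 5 * q + 150 ≤ |q * ((m : ℤ) + 1) - h * K| := by
    intro q h h1 h2
    have h3 := hfar q h h1 h2
    have e1 : q * (((∑ l ∈ J, ks l : ℕ) : ℤ) + 1) - h * (((∑ l, ks l : ℕ) : ℤ) + 2) =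
        2 * (q * ((m : ℤ) + 1) - h * K) := by
      have z1 : ((∑ l ∈ J, ks l : ℕ) : ℤ) = 2 * m + 1 := by rw [hm]; push_cast; ring
      have z2 : ((∑ l, ks l : ℕ) : ℤ) + 2 = 2 * K := by exact_mod_cast hK
      rw [z1, z2]; ring
    rw [e1, abs_mul, abs_of_pos (show (0 : ℤ) < 2 by norm_num)] at h3
    linarith
  obtain ⟨x, hx1, hx2⟩ := Real.exists_rat_abs_sub_le_and_den_le
    ((((m : ℝ) + 1) / K)) (n := 60) (by norm_num)
  have hKr : (0 : ℝ) < K := by exact_mod_cast hK1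
  have hdr : (0 : ℝ) < (x.den : ℝ) := by exact_mod_cast x.pos
  have hd1 : (1 : ℤ) ≤ (x.den : ℤ) := by exact_mod_cast x.pos
  have hd60 : ((x.den : ℕ) : ℤ) ≤ 60 := by exact_mod_cast hx2
  have hco : IsCoprime ((x.den : ℕ) : ℤ) x.num := by
    have := x.reduced
    rw [Int.isCoprime_iff_nat_coprime, Int.natAbs_natCast]
    exact this.symm
  have habs : 61 * |(x.den : ℤ) * ((m : ℤ) + 1) - x.num * K| ≤ K := by
    have hxq : (x : ℝ) = (x.num : ℝ) / (x.den : ℝ) := by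
      exact_mod_cast (Rat.num_div_den x).symm
    have g1 : ((m : ℝ) + 1) / K - x =
        ((x.den : ℝ) * ((m : ℝ) + 1) - x.num * K) / (K * x.den) := by
      rw [hxq]
      field_simp
    rw [g1, abs_div, abs_of_pos (mul_pos hKr hdr), div_le_div_iff₀ (mul_pos hKr hdr)
      (by push_cast; positivity)] at hx1
    have g2 : |(x.den : ℝ) * ((m : ℝ) + 1) - x.num * K| * 61 ≤ K := by
      have g3 : (|(x.den : ℝ) * ((m : ℝ) + 1) - x.num * K| * 61) * x.den ≤ K * x.den := by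
        push_cast at hx1
        linarith
      exact le_of_mul_le_mul_right g3 hdr
    have g4 : (61 : ℝ) * |(x.den : ℝ) * ((m : ℝ) + 1) - x.num * K| ≤ K := by linarith
    exact_mod_cast g4
  have hf := hfar' x.den x.num hd1 hd60
  rcases abs_cases ((x.den : ℤ) * ((m : ℤ) + 1) - x.num * K) with ⟨g1, g2⟩ | ⟨g1, g2⟩
  · rw [g1] at habs hf
    exact one ks J hm hK x.den x.num hd1 hco habs hf
  · rw [g1] at habs hf
    obtain ⟨m', hm'⟩ : ∃ m', ∑ l ∈ Jᶜ, ks l = 2 * m' + 1 := by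
      have : (∑ l ∈ Jᶜ, ks l) % 2 = 1 := by omega
      exact ⟨(∑ l ∈ Jᶜ, ks l) / 2, by omega⟩
    have hmm : (m' : ℤ) + 1 = K - (m + 1) := by
      have : m' + 1 + (m + 1) = K := by omega
      have : ((m' : ℤ) + 1) + (m + 1) = K := by exact_mod_cast this
      linarith
    have hco' : IsCoprime ((x.den : ℕ) : ℤ) (x.den - x.num) := by
      obtain ⟨u, v, huv⟩ := hco
      exact ⟨u + v, -v, by linear_combination huv⟩
    have e2 : (x.den : ℤ) * ((m' : ℤ) + 1) - (x.den - x.num) * K =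
        -((x.den : ℤ) * ((m : ℤ) + 1) - x.num * K) := by
      rw [hmm]; ring
    refine one ks Jᶜ hm' hK x.den (x.den - x.num) hd1 hco' ?_ ?_
    · rw [e2]; exact habs
    · rw [e2]; exact hf

end Pool.Agent.Lib.MP_21a058_co.Slack3.AllOdd36
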