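import Pool.Agent.Lib.MP_21a058_co.Slack3.Slope25

/-! All odd `a`, `b` such that `(a + 1) / (a + b + 2)` is not very close to a fraction with
denominator at most `60`. -/

set_option autoImplicit false

namespace Pool.Agent.Lib.MP_21a058_co.Slack3.AllOdd43

open Pool.Agent.Lib.MP_21a058_co.Slack3

/-- Dirichlet's theorem with coprime numbers, in integers. -/
theorem dir {K : ℤ} (M : ℤ) (hK : 0 < K) :
    ∃ q h u v : ℤ, 1 ≤ q ∧ q ≤ 60 ∧ u * q + v * h = 1 ∧ 61 * |q * M - h * K| ≤ K := by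
  obtain ⟨r, h1, h2⟩ := Real.exists_rat_abs_sub_le_and_den_le ((M : ℝ) / K) (n := 60) (by norm_num)
  have hco : IsCoprime (r.den : ℤ) r.num := by
    rw [Int.isCoprime_iff_gcd_eq_one, Int.gcd_comm]
    exact r.reduced
  obtain ⟨u, v, huv⟩ := hco
  refine ⟨r.den, r.num, u, v, by exact_mod_cast r.pos, by exact_mod_cast h2, huv, ?_⟩
  have hd : (0 : ℝ) < r.den := by exact_mod_cast r.pos
  have hKr : (0 : ℝ) < K := by exact_mod_cast hK
  rw [Rat.cast_def] at h1
  have e2 : ((r.den : ℝ) * M - r.num * K) = ((M : ℝ) / K - r.num / r.den) * (r.den * K) := by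
    field_simp
  have h3 : |((r.den : ℝ) * M - r.num * K)| ≤ K / 61 := by
    rw [e2, abs_mul, abs_of_pos (mul_pos hd hKr)]
    refine (mul_le_mul_of_nonneg_right h1 (mul_pos hd hKr).le).trans (le_of_eq ?_)
    push_cast
    field_simp
    norm_num
  have h4 : (61 : ℝ) * |((r.den : ℝ) * M - r.num * K)| ≤ K := by linarith
  exact_mod_cast h4

theorem toNat {K M s n : ℤ} (hK : 0 < K) (hM : 0 ≤ M) (hs : 0 < s)
    (hp : (2 ∣ K ∧ 2 ∣ M) ∨ (2 ∣ K + s ∧ 2 ∣ M + n))
    (h1 : 5 * s ≤ |s * M - n * K|) (h2 : 15 * |s * M - n * K| < K) :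
    ∃ s n : ℕ, 1 ≤ s ∧ ((2 ∣ K ∧ 2 ∣ M) ∨ (2 ∣ K + s ∧ 2 ∣ M + n)) ∧
      5 * (s : ℤ) ≤ |s * M - n * K| ∧ 15 * |s * M - n * K| < K := by
  have hn : 0 ≤ n := by
    by_contra hc
    have e1 : n * K ≤ (-1) * K := mul_le_mul_of_nonneg_right (by omega) hK.le
    have e2 : 0 ≤ s * M := mul_nonneg hs.le hM
    have e3 := le_abs_self (s * M - n * K)
    linarith
  lift s to ℕ using hs.le
  lift n to ℕ using hn
  exact ⟨s, n, by omega, hp, h1, h2⟩

theorem arith {K M : ℤ} (hK : 0 < K) (hM : 0 ≤ M)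
    (hfar : ∀ q h : ℤ, 1 ≤ q → q ≤ 60 → 5 * q + 150 ≤ |q * M - h * K|) :
    ∃ s n : ℕ, 1 ≤ s ∧ ((2 ∣ K ∧ 2 ∣ M) ∨ (2 ∣ K + s ∧ 2 ∣ M + n)) ∧
      5 * (s : ℤ) ≤ |s * M - n * K| ∧ 15 * |s * M - n * K| < K := by
  obtain ⟨q, h, u, v, hq1, hq60, hb, he⟩ := dir M hK
  have hf := hfar q h hq1 hq60
  rcases Int.even_or_odd' (q * M - h * K) with ⟨k, hk | hk⟩
  · -- even
    refine toNat (s := q) (n := h) hK hM (by omega) ?_ (by omega) (by omega)
    rcases Int.even_or_odd' (v * M + u * K) with ⟨j, hj | hj⟩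
    · exact Or.inl ⟨⟨q * j - v * k, by linear_combination q * hj - v * hk - K * hb⟩,
        ⟨h * j + u * k, by linear_combination h * hj + u * hk - M * hb⟩⟩
    · exact Or.inr ⟨⟨q * j + q - v * k, by linear_combination q * hj - v * hk - K * hb⟩,
        ⟨h * j + h + u * k, by linear_combination h * hj + u * hk - M * hb⟩⟩
  · -- odd
    obtain ⟨w, E, hw, hE, hEabs⟩ : ∃ w E : ℤ, (w = 0 ∨ w = 1) ∧ E = (1 - 2 * w) * (q * M - h * K) ∧
        |q * M - h * K| = E := by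
      rcases le_or_gt 0 (q * M - h * K) with hs | hs
      · exact ⟨0, q * M - h * K, Or.inl rfl, by ring, abs_of_nonneg hs⟩
      · exact ⟨1, -(q * M - h * K), Or.inr rfl, by ring, abs_of_neg hs⟩
    rw [hEabs] at hf he
    have hEpos : 0 < E := by omega
    have hsq : (1 - 2 * w) * (1 - 2 * w) = 1 := by rcases hw with rfl | rfl <;> norm_num
    -- `e'`
    obtain ⟨e', he'⟩ : ∃ e', e' = v * M + u * K := ⟨_, rfl⟩
    obtain ⟨A, hA⟩ : ∃ A, A = 30 * (e' * (E - 1)) - K := ⟨_, rfl⟩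
    obtain ⟨t, ht⟩ : ∃ t, t = -(A / (60 * E)) := ⟨_, rfl⟩
    have hr0 : 0 ≤ A % (60 * E) := Int.emod_nonneg _ (by omega)
    have hr1 : A % (60 * E) < 60 * E := Int.emod_lt_of_pos _ (by omega)
    have hr2 : A % (60 * E) = A - 60 * E * (A / (60 * E)) := Int.emod_def _ _
    obtain ⟨W, hW⟩ : ∃ W, W = (e' + 2 * t) * E - e' := ⟨_, rfl⟩
    have hW30 : 30 * W = K + A % (60 * E) := by
      rw [hr2, hA, hW, ht, hA]; ring
    have hW1 : K ≤ 30 * W := by omega
    have hW2 : 30 * W < 2 * K := by omega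
    obtain ⟨s, hs⟩ : ∃ s, s = (e' + 2 * t) * q - (1 - 2 * w) * v := ⟨_, rfl⟩
    obtain ⟨n, hn⟩ : ∃ n, n = (e' + 2 * t) * h + (1 - 2 * w) * u := ⟨_, rfl⟩
    have hV : s * M - n * K = (1 - 2 * w) * W := by
      have : (1 - 2 * w) * E = q * M - h * K := by rw [hE]; linear_combination (q * M - h * K) * hsq
      rw [hs, hn, hW]
      linear_combination (-(e' + 2 * t)) * this + (1 - 2 * w) * he'
    have hsE : s * E = q * W + K := by
      have h1 : (1 - 2 * w) * E = q * M - h * K := by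
        rw [hE]; linear_combination (q * M - h * K) * hsq
      rw [hs, hW]
      linear_combination (-v) * h1 + q * he' + K * hb
    have habs : |s * M - n * K| = W := by
      rw [hV]
      have hW0 : 0 < W := by omega
      rcases hw with rfl | rfl
      · rw [show (1 - 2 * 0 : ℤ) * W = W by ring]; exact abs_of_pos hW0
      · rw [show (1 - 2 * 1 : ℤ) * W = -W by ring, abs_neg]; exact abs_of_pos hW0
    have hspos : 0 < s := by
      by_contra hc
      have g1 : s * E ≤ 0 := mul_nonpos_of_nonpos_of_nonneg (by omega) hEpos.le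
      have g2 : 0 ≤ q * W := mul_nonneg (by omega) (by omega)
      omega
    have h5 : 5 * s ≤ W := by
      have g1 : 5 * s * E ≤ W * E := by
        have g2 : W * 150 ≤ W * (E - 5 * q) := mul_le_mul_of_nonneg_left (by omega) (by omega)
        nlinarith
      exact le_of_mul_le_mul_right g1 hEpos
    refine toNat (s := s) (n := n) hK hM hspos (Or.inr ⟨⟨K + k * v + t * q + w * v, ?_⟩,
      ⟨M - k * u + t * h - w * u, ?_⟩⟩) (by rw [habs]; exact h5) (by rw [habs]; omega)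
    · rw [hs, he']
      linear_combination v * hk + K * hb
    · rw [hn, he']
      linear_combination (-u) * hk + M * hb

open Finset in
/-- **All odd pairs**, no parity condition on the halves: unless `(a + 1) / (S + 2)` is very close
to a fraction with denominator at most `60`, the value `S + 2` is not enough. -/
theorem all_odd (k r : ℕ) (ks : Fin r → ℕ) (J : Finset (Fin r)) (ho : Odd (∑ l ∈ J, ks l))
    (hS : Even (∑ l, ks l))
    (hfar : ∀ q h : ℤ, 1 ≤ q → q ≤ 60 →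
      10 * q + 300 ≤ |q * ((∑ l ∈ J, ks l : ℕ) + 1) - h * ((∑ l, ks l : ℕ) + 2)|)
    (h : Arrow k ks) : ∑ l, ks l + 3 ≤ k := by
  obtain ⟨S, hSS⟩ : ∃ S, S = ∑ l, ks l := ⟨_, rfl⟩
  obtain ⟨a, ha⟩ : ∃ a, a = ∑ l ∈ J, ks l := ⟨_, rfl⟩
  obtain ⟨M, hM⟩ : ∃ M : ℕ, a + 1 = 2 * M := by
    rw [← ha] at ho
    obtain ⟨m, hm⟩ := ho
    exact ⟨m + 1, by omega⟩
  obtain ⟨K, hK⟩ : ∃ K : ℕ, S + 2 = 2 * K := by
    rw [← hSS] at hS
    obtain ⟨m, hm⟩ := hS
    exact ⟨m + 1, by omega⟩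
  rw [← hSS, ← ha] at hfar
  have hMz : (a : ℤ) + 1 = 2 * M := by exact_mod_cast hM
  have hKz : (S : ℤ) + 2 = 2 * K := by exact_mod_cast hK
  obtain ⟨s, n, hs, hp, h1, h2⟩ := arith (K := K) (M := M) (by omega) (by omega) (by
    intro q h' hq1 hq2
    have := hfar q h' hq1 hq2
    rw [hMz, hKz, show q * (2 * (M : ℤ)) - h' * (2 * K) = 2 * (q * M - h' * K) by ring, abs_mul,
      abs_two] at this
    linarith)
  have hp' : (4 ∣ ∑ l, ks l + 2 ∧ 4 ∣ ∑ l ∈ J, ks l + 1) ∨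
      (4 ∣ ∑ l, ks l + 2 + 2 * s ∧ 4 ∣ ∑ l ∈ J, ks l + 1 + 2 * n) := by
    rw [← hSS, ← ha]
    rcases hp with ⟨p1, p2⟩ | ⟨p1, p2⟩
    · left; constructor <;> omega
    · right; constructor <;> omega
  have e1 : n * (S + 2) = 2 * (n * K) := by rw [hK]; ring
  have e2 : s * (a + 1) = 2 * (s * M) := by rw [hM]; ring
  rcases le_or_gt 0 ((s : ℤ) * M - n * K) with hV | hV
  · rw [abs_of_nonneg hV] at h1 h2
    refine Slope.above k r ks J ho s n hs hp' ?_ ?_ h
    · rw [← hSS, ← ha, e1, e2]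
      have : (n : ℤ) * K + 5 * s ≤ s * M := by linarith
      have : n * K + 5 * s ≤ s * M := by exact_mod_cast this
      omega
    · rw [← hSS, ← ha, e1, e2]
      have : 15 * ((s : ℤ) * M) < 15 * (n * K) + K := by linarith
      have : 15 * (s * M) < 15 * (n * K) + K := by exact_mod_cast this
      omega
  · rw [abs_of_neg hV] at h1 h2
    refine Slope.below k r ks J ho s n hs hp' ?_ ?_ h
    · rw [← hSS, ← ha, e1, e2]
      have : (s : ℤ) * M + 5 * s ≤ n * K := by linarith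
      have : s * M + 5 * s ≤ n * K := by exact_mod_cast this
      omega
    · rw [← hSS, ← ha, e1, e2]
      have : 15 * ((n : ℤ) * K) < 15 * (s * M) + K := by linarith
      have : 15 * (n * K) < 15 * (s * M) + K := by exact_mod_cast this
      omega

end Pool.Agent.Lib.MP_21a058_co.Slack3.AllOdd43
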