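import Pool.Agent.Lib.MP_21a058_co.Slack3.Slope25

/-! Two classes with odd sums `a`, `b`: `f ≥ a + b + 3` unless `(a + 1) / (a + b + 2)` is within
`O(1 / (a + b))` of a fraction with denominator at most `60`. -/

set_option autoImplicit false

namespace Pool.Agent.Lib.MP_21a058_co.Slack3.AllOdd56

open Finset

/-- Dirichlet's theorem with denominators up to `60`, reduced fractions. -/
theorem dirichlet (M K : ℕ) (hK : 0 < K) :
    ∃ q h : ℤ, 1 ≤ q ∧ q ≤ 60 ∧ IsCoprime q h ∧ 61 * |q * M - h * K| ≤ K := by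
  obtain ⟨h0, q0, h1, h2, h3⟩ :=
    Real.exists_int_int_abs_mul_sub_le ((M : ℝ) / K) (n := 60) (by norm_num)
  have hK' : (0 : ℝ) < K := by exact_mod_cast hK
  have h4 : |(q0 : ℝ) * M - h0 * K| ≤ 1 / 61 * K := by
    have e : (q0 : ℝ) * M - h0 * K = ((q0 : ℝ) * (M / K) - h0) * K := by
      field_simp
    rw [e, abs_mul, abs_of_pos hK']
    refine mul_le_mul_of_nonneg_right ?_ hK'.le
    refine h3.trans (le_of_eq ?_)
    norm_num
  have h5 : (61 : ℝ) * |(q0 : ℝ) * M - h0 * K| ≤ K := by linarith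
  have h6 : 61 * |q0 * M - h0 * K| ≤ K := by exact_mod_cast h5
  have h7 : q0 ≤ 60 := by exact_mod_cast h2
  have hg : 0 < Int.gcd q0 h0 := Int.gcd_pos_of_ne_zero_left _ (by omega)
  obtain ⟨q, h, hc, e1, e2⟩ := Int.exists_gcd_one hg
  have hg' : (1 : ℤ) ≤ (Int.gcd q0 h0 : ℤ) := by exact_mod_cast hg
  generalize (Int.gcd q0 h0 : ℤ) = g at e1 e2 hg'
  have hq1 : 1 ≤ q := by
    by_contra hlt
    have : q * g ≤ 0 * g := mul_le_mul_of_nonneg_right (by omega) (by omega)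
    rw [← e1] at this
    omega
  refine ⟨q, h, hq1, ?_, Int.isCoprime_iff_gcd_eq_one.2 hc, ?_⟩
  · have : q * 1 ≤ q * g := mul_le_mul_of_nonneg_left hg' (by omega)
    rw [← e1] at this
    omega
  · have e3 : q0 * M - h0 * K = (q * M - h * K) * g := by rw [e1, e2]; ring
    rw [e3, abs_mul, abs_of_pos (by omega : 0 < g)] at h6
    have : |q * (M : ℤ) - h * K| * 1 ≤ |q * (M : ℤ) - h * K| * g :=
      mul_le_mul_of_nonneg_left hg' (abs_nonneg _)
    omega

theorem core {K M q h e : ℤ} (hK : 0 < K) (hM : 0 ≤ M) (hq1 : 1 ≤ q) (hc : IsCoprime q h)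
    (he : q * M - h * K = e) (he1 : 5 * q + 150 ≤ e) (he2 : 61 * e ≤ K) :
    ∃ s n : ℤ, 1 ≤ s ∧ 0 ≤ n ∧ ((K % 2 = 0 ∧ M % 2 = 0) ∨
      ((K + s) % 2 = 0 ∧ (M + n) % 2 = 0)) ∧ 5 * s ≤ s * M - n * K ∧
      15 * (s * M - n * K) < K := by
  obtain ⟨u, v, huv⟩ := hc
  have g1 : K = q * (u * K + v * M) - v * e := by
    rw [← he]
    linear_combination (-K) * huv
  have g2 : M = h * (u * K + v * M) + u * e := by
    rw [← he]
    linear_combination (-M) * huv
  rcases Int.even_or_odd' e with ⟨w, hw | hw⟩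
  · refine ⟨q, h, hq1, ?_, ?_, by omega, by omega⟩
    · by_contra hc
      have f1 : h * K ≤ (-1) * K := mul_le_mul_of_nonneg_right (by omega) (by omega)
      have f2 : 0 ≤ q * M := mul_nonneg (by omega) hM
      omega
    · generalize u * K + v * M = al at g1 g2
      rcases Int.even_or_odd' al with ⟨c, hc | hc⟩
      · left
        have f1 : K = 2 * (q * c - v * w) := by rw [g1, hc, hw]; ring
        have f2 : M = 2 * (h * c + u * w) := by rw [g2, hc, hw]; ring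
        constructor <;> omega
      · right
        have f1 : K + q = 2 * (q * c + q - v * w) := by rw [g1, hc, hw]; ring
        have f2 : M + h = 2 * (h * c + h + u * w) := by rw [g2, hc, hw]; ring
        constructor <;> omega
  · -- `e` is odd
    obtain ⟨d, hd⟩ : ∃ d, d = -(v * M) - u * K := ⟨_, rfl⟩
    obtain ⟨z, hz⟩ : ∃ z, z = (30 * (d * (e + 1)) - K) / (60 * e) := ⟨_, rfl⟩
    have z1 : 60 * e * z ≤ 30 * (d * (e + 1)) - K := by
      rw [hz]; exact Int.mul_ediv_self_le (by omega)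
    have z2 : 30 * (d * (e + 1)) - K < 60 * e * z + 60 * e := by
      rw [hz]; exact Int.lt_mul_ediv_self_add (by omega)
    obtain ⟨s, hs⟩ : ∃ s, s = (d - 2 * z) * q - v := ⟨_, rfl⟩
    obtain ⟨n, hn⟩ : ∃ n, n = (d - 2 * z) * h + u := ⟨_, rfl⟩
    obtain ⟨V, hV⟩ : ∃ V, V = s * M - n * K := ⟨_, rfl⟩
    have hV2 : V = d * (e + 1) - 2 * (e * z) := by
      rw [hV, hs, hn]
      linear_combination (d - 2 * z) * he - hd
    have v1 : K ≤ 30 * V := by
      rw [hV2]; linarith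
    have v2 : 30 * V < K + 60 * e := by
      rw [hV2]; linarith
    have hse : s * e = q * V + K := by
      rw [hV, hs, hn, ← he]
      linear_combination (K) * huv
    have hs0 : 0 < s := by
      by_contra hc
      have f1 : s * e ≤ 0 * e := mul_le_mul_of_nonneg_right (by omega) (by omega)
      have f2 : 0 ≤ q * V := mul_nonneg (by omega) (by omega)
      omega
    refine ⟨s, n, by omega, ?_, ?_, ?_, by omega⟩
    · by_contra hc
      have f1 : n * K ≤ (-1) * K := mul_le_mul_of_nonneg_right (by omega) (by omega)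
      have f2 : 0 ≤ s * M := mul_nonneg (by omega) hM
      omega
    · right
      have f1 : K + s = 2 * (-(q * z) - v * (w + 1)) := by
        have : K = -(q * d) - v * e := by
          rw [hd]; linear_combination g1
        rw [this, hs, hw]
        ring
      have f2 : M + n = 2 * (-(h * z) + u * (w + 1)) := by
        have : M = -(h * d) + u * e := by
          rw [hd]; linear_combination g2
        rw [this, hn, hw]
        ring
      constructor <;> omega
    · rw [← hV]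
      have f1 : V * 150 ≤ V * (e - 5 * q) := mul_le_mul_of_nonneg_left (by omega) (by omega)
      have f2 : 5 * s * e ≤ V * e := by nlinarith
      exact le_of_mul_le_mul_right f2 (by omega)

/-- One sign. -/
theorem one {k r : ℕ} (ks : Fin r → ℕ) (J : Finset (Fin r)) {q h : ℤ}
    (ho : Odd (∑ l ∈ J, ks l)) (hS : Even (∑ l, ks l)) (hq1 : 1 ≤ q) (hc : IsCoprime q h)
    (h1 : 10 * q + 300 ≤ q * ((∑ l ∈ J, ks l : ℕ) + 1) - h * ((∑ l, ks l : ℕ) + 2))
    (h2 : 61 * (q * ((∑ l ∈ J, ks l : ℕ) + 1) - h * ((∑ l, ks l : ℕ) + 2)) ≤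
      (∑ l, ks l : ℕ) + 2) (hA : Arrow k ks) : ∑ l, ks l + 3 ≤ k := by
  obtain ⟨M, hM⟩ : ∃ M : ℕ, ∑ l ∈ J, ks l + 1 = 2 * M := by
    obtain ⟨x, hx⟩ := ho
    exact ⟨x + 1, by omega⟩
  obtain ⟨K, hK⟩ : ∃ K : ℕ, ∑ l, ks l + 2 = 2 * K := by
    obtain ⟨x, hx⟩ := hS
    exact ⟨x + 1, by omega⟩
  have hM' : ((∑ l ∈ J, ks l : ℕ) : ℤ) + 1 = 2 * M := by exact_mod_cast hM
  have hK' : ((∑ l, ks l : ℕ) : ℤ) + 2 = 2 * K := by exact_mod_cast hK
  rw [hM', hK'] at h1 h2
  obtain ⟨s, n, g1, g2, g3, g4, g5⟩ := core (K := K) (M := M) (q := q) (h := h)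
    (e := q * M - h * K) (by omega) (by omega) hq1 hc rfl (by linarith) (by linarith)
  obtain ⟨s', rfl⟩ := Int.eq_ofNat_of_zero_le (by omega : 0 ≤ s)
  obtain ⟨n', rfl⟩ := Int.eq_ofNat_of_zero_le g2
  have g4' : n' * K + 5 * s' ≤ s' * M := by
    have : (n' : ℤ) * K + 5 * s' ≤ s' * M := by linarith
    exact_mod_cast this
  have g5' : 15 * (s' * M) < 15 * (n' * K) + K := by
    have : 15 * ((s' : ℤ) * M) < 15 * (n' * K) + K := by linarith
    exact_mod_cast this
  refine Slope.above k r ks J ho s' n' (by omega) ?_ ?_ ?_ hA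
  · rw [hM, hK]
    omega
  · rw [hM, hK, show n' * (2 * K) = 2 * (n' * K) by ring, show s' * (2 * M) = 2 * (s' * M) by ring]
    omega
  · rw [hM, hK, show n' * (2 * K) = 2 * (n' * K) by ring, show s' * (2 * M) = 2 * (s' * M) by ring]
    omega

/-- **Almost all pairs of odd numbers.** -/
theorem all_odd {k r : ℕ} (ks : Fin r → ℕ) (J : Finset (Fin r)) (ho : Odd (∑ l ∈ J, ks l))
    (hS : Even (∑ l, ks l)) (hd : ∀ q h : ℤ, 1 ≤ q → q ≤ 60 →
      10 * q + 300 ≤ |q * ((∑ l ∈ J, ks l : ℕ) + 1) - h * ((∑ l, ks l : ℕ) + 2)|)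
    (hA : Arrow k ks) : ∑ l, ks l + 3 ≤ k := by
  have hsum : ∑ l ∈ J, ks l + ∑ l ∈ Jᶜ, ks l = ∑ l, ks l := sum_add_sum_compl _ _
  obtain ⟨q, h, h1, h2, h3, h4⟩ := dirichlet (∑ l ∈ J, ks l + 1) (∑ l, ks l + 2) (by omega)
  have h5 := hd q h h1 h2
  push_cast at h4
  have hcast : ((∑ l ∈ J, ks l : ℕ) : ℤ) + (∑ l ∈ Jᶜ, ks l : ℕ) = (∑ l, ks l : ℕ) := by
    exact_mod_cast hsum
  push_cast at h5 hcast
  rcases le_or_gt 0 (q * ((∑ l ∈ J, (ks l : ℤ)) + 1) - h * ((∑ l, (ks l : ℤ)) + 2)) with hs | hs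
  · rw [abs_of_nonneg hs] at h4 h5
    exact one ks J ho hS h1 h3 (by push_cast; linarith) (by push_cast; linarith) hA
  · rw [abs_of_neg hs] at h4 h5
    have hc : IsCoprime q (q - h) := by
      obtain ⟨u, v, huv⟩ := h3
      exact ⟨u + v, -v, by linear_combination huv⟩
    have e1 : q * ((∑ l ∈ Jᶜ, (ks l : ℤ)) + 1) - (q - h) * ((∑ l, (ks l : ℤ)) + 2) =
        -(q * ((∑ l ∈ J, (ks l : ℤ)) + 1) - h * ((∑ l, (ks l : ℤ)) + 2)) := by
      rw [← hcast]; ring
    have ho' : Odd (∑ l ∈ Jᶜ, ks l) := by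
      obtain ⟨x, hx⟩ := ho
      obtain ⟨y, hy⟩ := hS
      exact ⟨y - x - 1, by omega⟩
    exact one ks Jᶜ ho' hS h1 hc (by push_cast; linarith) (by push_cast; linarith) hA

end Pool.Agent.Lib.MP_21a058_co.Slack3.AllOdd56
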