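import Pool.Agent.Lib.MP_21a058_co.Slack3.Slope25
import Mathlib.NumberTheory.DiophantineApproximation.Basic

/-! All but a bounded number of the pairs of odd numbers with a given sum: `a + b + 2` is not enough
unless `|q (a + 1) - h (a + b + 2)| < 10 q + 300` for some `1 ≤ q ≤ 60` and some `h`. -/

set_option autoImplicit false

namespace Pool.Agent.Lib.MP_21a058_co.Slack3.Any17

open Finset Pool.Agent.Lib.MP_21a058_co

/-- From an approximation to one with the right parity. -/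
theorem core {K M q h e : ℤ} (hK : 0 < K) (hq : 1 ≤ q) (hc : IsCoprime q h)
    (he : e = q * M - h * K) (h1 : 61 * e ≤ K) (h2 : 5 * q + 150 ≤ e) :
    ∃ s n : ℤ, 1 ≤ s ∧ ((K % 2 = 0 ∧ M % 2 = 0) ∨ ((K + s) % 2 = 0 ∧ (M + n) % 2 = 0)) ∧
      5 * s ≤ s * M - n * K ∧ 15 * (s * M - n * K) < K := by
  obtain ⟨u, v, huv⟩ := hc
  obtain ⟨e', he'⟩ : ∃ e', e' = (-v) * M - u * K := ⟨_, rfl⟩
  have eK : K = (-v) * e - q * e' := by
    rw [he, he']
    linear_combination (-K) * huv
  have eM : M = u * e - h * e' := by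
    rw [he, he']
    linear_combination (-M) * huv
  have he0 : 0 < e := by omega
  rcases Int.emod_two_eq_zero_or_one e with hev | hod
  · refine ⟨q, h, hq, ?_, by rw [← he]; omega, by rw [← he]; omega⟩
    obtain ⟨f, hf⟩ : ∃ f, e = 2 * f := ⟨e / 2, by omega⟩
    rcases Int.emod_two_eq_zero_or_one e' with h0 | h0
    · obtain ⟨g, hg⟩ : ∃ g, e' = 2 * g := ⟨e' / 2, by omega⟩
      left
      constructor
      · have : K = 2 * ((-v) * f - q * g) := by rw [eK, hf, hg]; ring
        omega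
      · have : M = 2 * (u * f - h * g) := by rw [eM, hf, hg]; ring
        omega
    · obtain ⟨g, hg⟩ : ∃ g, e' = 2 * g + 1 := ⟨e' / 2, by omega⟩
      right
      constructor
      · have : K + q = 2 * ((-v) * f - q * g) := by rw [eK, hf, hg]; ring
        omega
      · have : M + h = 2 * (u * f - h * g) := by rw [eM, hf, hg]; ring
        omega
  · obtain ⟨f, hf⟩ : ∃ f, e = 2 * f + 1 := ⟨e / 2, by omega⟩
    obtain ⟨T, hT⟩ : ∃ T, T = 30 * (e' + (e' % 2) * e) - K := ⟨_, rfl⟩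
    obtain ⟨y, hy⟩ : ∃ y, y = -(T / (60 * e)) := ⟨_, rfl⟩
    obtain ⟨x, hx⟩ : ∃ x, x = e' % 2 + 2 * y := ⟨_, rfl⟩
    obtain ⟨V, hV⟩ : ∃ V, V = x * e + e' := ⟨_, rfl⟩
    have m1 : 0 ≤ T % (60 * e) := Int.emod_nonneg _ (by omega)
    have m2 : T % (60 * e) < 60 * e := Int.emod_lt_of_pos _ (by omega)
    have m3 : 60 * e * (T / (60 * e)) + T % (60 * e) = T := Int.mul_ediv_add_emod _ _
    have m4 : 30 * V - K = T % (60 * e) := by
      have : 60 * e * (T / (60 * e)) = -(60 * e * y) := by rw [hy]; ring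
      rw [hV, hx]
      linear_combination -hT - m3 + this
    have hV1 : K ≤ 30 * V := by omega
    have hV2 : 15 * V < K := by omega
    have hsV : (x * q + -v) * M - (x * h + u) * K = V := by
      rw [hV, he, he']
      ring
    have hse : (x * q + -v) * e = q * V + K := by
      rw [hV]
      linear_combination (-1 : ℤ) * eK
    have hV0 : 0 < V := by omega
    have hqV : 0 < q * V := mul_pos (by omega) hV0
    have hs : 1 ≤ x * q + -v := by
      by_contra hcon
      have : (x * q + -v) * e ≤ 0 := mul_nonpos_of_nonpos_of_nonneg (by omega) he0.le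
      omega
    refine ⟨x * q + -v, x * h + u, hs, Or.inr ⟨?_, ?_⟩, ?_, by rw [hsV]; exact hV2⟩
    · have hx2 : ∃ w, x - e' = 2 * w := ⟨(x - e') / 2, by omega⟩
      obtain ⟨w, hw⟩ := hx2
      have : K + (x * q + -v) = 2 * ((-v) * (f + 1) + q * w) := by
        have e5 : x = e' + 2 * w := by omega
        rw [e5, eK, hf]
        ring
      omega
    · have hx2 : ∃ w, x - e' = 2 * w := ⟨(x - e') / 2, by omega⟩
      obtain ⟨w, hw⟩ := hx2
      have : M + (x * h + u) = 2 * (u * (f + 1) + h * w) := by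
        have e5 : x = e' + 2 * w := by omega
        rw [e5, eM, hf]
        ring
      omega
    · rw [hsV]
      have g1 : V * 150 ≤ V * (e - 5 * q) := mul_le_mul_of_nonneg_left (by omega) hV0.le
      have g2 : 5 * (x * q + -v) * e ≤ V * e := by
        have : 5 * (x * q + -v) * e = 5 * (q * V) + 5 * K := by
          rw [mul_assoc, hse]
          ring
        rw [this]
        have g3 : V * (e - 5 * q) = V * e - 5 * (q * V) := by ring
        omega
      exact le_of_mul_le_mul_right g2 he0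

/-- Dirichlet, with a reduced fraction. -/
theorem dirichlet {K M : ℤ} (hK : 0 < K) : ∃ q h : ℤ, 1 ≤ q ∧ q ≤ 60 ∧
    IsCoprime q h ∧ 61 * |q * M - h * K| ≤ K := by
  obtain ⟨h, q, h0, h60, hb⟩ :=
    Real.exists_int_int_abs_mul_sub_le ((M : ℝ) / K) (n := 60) (by norm_num)
  have hK' : (0 : ℝ) < K := by exact_mod_cast hK
  have e1 : ((q : ℝ) * M - h * K) = (q * ((M : ℝ) / K) - h) * K := by
    field_simp
  have e2 : |(q : ℝ) * M - h * K| ≤ 1 / ((60 : ℕ) + 1 : ℝ) * K := by
    rw [e1, abs_mul, abs_of_pos hK']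
    exact mul_le_mul_of_nonneg_right hb hK'.le
  have e3 : (61 : ℝ) * |(q : ℝ) * M - h * K| ≤ K := by
    have e4 : (61 : ℝ) * (1 / ((60 : ℕ) + 1 : ℝ) * K) = K := by
      push_cast
      ring
    calc (61 : ℝ) * |(q : ℝ) * M - h * K| ≤ 61 * (1 / ((60 : ℕ) + 1 : ℝ) * K) :=
          mul_le_mul_of_nonneg_left e2 (by norm_num)
      _ = K := e4
  have e5 : 61 * |q * M - h * K| ≤ K := by exact_mod_cast e3
  obtain ⟨x, y, hxy, hqx', hhy'⟩ := Int.exists_gcd_one (m := q) (n := h)
    (Int.gcd_pos_of_ne_zero_left _ (by omega))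
  obtain ⟨g, hgg⟩ : ∃ g : ℤ, g = (Int.gcd q h : ℤ) := ⟨_, rfl⟩
  have hg : 0 < g := by
    rw [hgg]
    exact_mod_cast Int.gcd_pos_of_ne_zero_left _ (by omega)
  have hco : IsCoprime x y := Int.isCoprime_iff_gcd_eq_one.2 hxy
  have hqx : q = g * x := by
    rw [hgg, mul_comm]
    exact hqx'
  have hhy : h = g * y := by
    rw [hgg, mul_comm]
    exact hhy'
  have hx0 : 0 < x := by
    by_contra hcon
    have : g * x ≤ 0 := mul_nonpos_of_nonneg_of_nonpos hg.le (by omega)
    omega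
  have hxq : x ≤ q := by
    have : 1 * x ≤ g * x := mul_le_mul_of_nonneg_right (by omega) hx0.le
    omega
  refine ⟨x, y, by omega, by omega, hco, ?_⟩
  have f1 : q * M - h * K = g * (x * M - y * K) := by rw [hqx, hhy]; ring
  rw [f1, abs_mul, abs_of_pos hg] at e5
  have f4 : 1 * |x * M - y * K| ≤ g * |x * M - y * K| :=
    mul_le_mul_of_nonneg_right (by omega) (abs_nonneg _)
  linarith

/-- **All odd pairs away from the fractions with denominator at most `60`.** -/
theorem all_odd (k r : ℕ) (ks : Fin r → ℕ) (J : Finset (Fin r)) (ha : Odd (∑ i ∈ J, ks i))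
    (hS : Even (∑ i, ks i))
    (hfar : ∀ q h : ℤ, 1 ≤ q → q ≤ 60 →
      10 * q + 300 ≤ |q * (∑ i ∈ J, (ks i : ℤ) + 1) - h * (∑ i, (ks i : ℤ) + 2)|)
    (hA : Arrow k ks) : ∑ i, ks i + 3 ≤ k := by
  have hc : ∑ i ∈ J, ks i + ∑ i ∈ Jᶜ, ks i = ∑ i, ks i := sum_add_sum_compl _ _
  obtain ⟨M, hM⟩ : ∃ M, ∑ i ∈ J, ks i + 1 = 2 * M := by
    obtain ⟨m, hm⟩ := ha
    exact ⟨m + 1, by omega⟩
  obtain ⟨K, hK⟩ : ∃ K, ∑ i, ks i + 2 = 2 * K := by
    obtain ⟨n, hn⟩ := hS
    exact ⟨n + 1, by omega⟩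
  have hM' : ∑ i ∈ J, (ks i : ℤ) + 1 = 2 * M := by exact_mod_cast hM
  have hK' : ∑ i, (ks i : ℤ) + 2 = 2 * K := by exact_mod_cast hK
  obtain ⟨q, h, q1, q60, hco, hb⟩ := dirichlet (K := K) (M := M) (by omega)
  have hf := hfar q h q1 q60
  rw [hM', hK'] at hf
  have e1 : q * (2 * (M : ℤ)) - h * (2 * K) = 2 * (q * M - h * K) := by ring
  rw [e1, abs_mul, abs_of_nonneg (by norm_num : (0 : ℤ) ≤ 2)] at hf
  have hM0 : (0 : ℤ) < M := by omega
  have hK0 : (0 : ℤ) < K := by omega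
  rcases le_or_gt 0 (q * (M : ℤ) - h * K) with hs | hs
  · rw [abs_of_nonneg hs] at hb hf
    obtain ⟨s, n, s1, hpar, g1, g2⟩ := core (e := q * M - h * K) hK0 q1 hco rfl hb (by omega)
    have n0 : 0 ≤ n := by
      by_contra hcon
      have h3 : n * K ≤ (-1) * K := mul_le_mul_of_nonneg_right (by omega) hK0.le
      have h4 : 0 < s * (M : ℤ) := mul_pos (by omega) hM0
      omega
    obtain ⟨s', rfl⟩ := Int.eq_ofNat_of_zero_le (by omega : 0 ≤ s)
    obtain ⟨n', rfl⟩ := Int.eq_ofNat_of_zero_le n0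
    refine Slope.above k r ks J ha s' n' (by omega) ?_ ?_ ?_ hA
    · rw [hM, hK]
      rcases hpar with ⟨p1, p2⟩ | ⟨p1, p2⟩
      · left; constructor <;> omega
      · right; constructor <;> omega
    · rw [hM, hK]
      have : (n' : ℤ) * (2 * K) + 10 * s' ≤ s' * (2 * M) := by linarith
      exact_mod_cast this
    · rw [hM, hK]
      have : 15 * ((s' : ℤ) * (2 * M)) < 15 * (n' * (2 * K)) + 2 * K := by linarith
      exact_mod_cast this
  · rw [abs_of_neg hs] at hb hf
    obtain ⟨N, hN⟩ : ∃ N, N + M = K := ⟨K - M, by omega⟩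
    have hNz : (N : ℤ) + M = K := by exact_mod_cast hN
    have hco' : IsCoprime q (q - h) := by
      obtain ⟨u, v, huv⟩ := hco
      exact ⟨u + v, -v, by linear_combination huv⟩
    have e2 : -(q * (M : ℤ) - h * K) = q * N - (q - h) * K := by
      have : (N : ℤ) = K - M := by linarith
      rw [this]
      ring
    rw [e2] at hb hf
    obtain ⟨s, n, s1, hpar, g1, g2⟩ := core (e := q * N - (q - h) * K) hK0 q1 hco' rfl hb
      (by omega)
    have n0 : 0 ≤ n := by
      by_contra hcon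
      have h3 : n * K ≤ (-1) * K := mul_le_mul_of_nonneg_right (by omega) hK0.le
      have h4 : 0 ≤ s * (N : ℤ) := mul_nonneg (by omega) (Int.natCast_nonneg _)
      omega
    obtain ⟨s', rfl⟩ := Int.eq_ofNat_of_zero_le (by omega : 0 ≤ s)
    obtain ⟨n', rfl⟩ := Int.eq_ofNat_of_zero_le n0
    have hN2 : ∑ i ∈ Jᶜ, ks i + 1 = 2 * N := by omega
    refine Slope.above k r ks Jᶜ (by rw [Nat.odd_iff]; omega) s' n' (by omega) ?_ ?_ ?_ hA
    · rw [hN2, hK]
      rcases hpar with ⟨p1, p2⟩ | ⟨p1, p2⟩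
      · left; constructor <;> omega
      · right; constructor <;> omega
    · rw [hN2, hK]
      have : (n' : ℤ) * (2 * K) + 10 * s' ≤ s' * (2 * N) := by linarith
      exact_mod_cast this
    · rw [hN2, hK]
      have : 15 * ((s' : ℤ) * (2 * N)) < 15 * (n' * (2 * K)) + 2 * K := by linarith
      exact_mod_cast this

end Pool.Agent.Lib.MP_21a058_co.Slack3.Any17
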