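import Pool.Agent.Lib.MP_21a058_co.Slack3.Ratio82
import Mathlib.NumberTheory.DiophantineApproximation.Basic

/-! Two classes with odd sums `a`, `b` whose density `(a + 1) / (a + b + 2)` is not too close to a
fraction with denominator at most `60`: `a + b + 2` is not enough. -/

set_option autoImplicit false

namespace Pool.Agent.Lib.MP_21a058_co.Slack3.Any3

open Finset Pool.Agent.Lib.MP_21a058_co
open Pool.Agent.Lib.MP_21a058_co.Slack3

/-- The case `(q, h) = (K, M) mod 2`. -/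
theorem qh {K m q h e n r : ℕ} (he : q * (m + 1) = h * K + e) (hp1 : (K + q) % 2 = 0)
    (hp2 : (m + 1 + h) % 2 = 0) (h15 : 15 * e < K) (hn : n * q ≤ K) (hne : 2 * K < n * e)
    (ks : Fin r → ℕ) (J : Finset (Fin r)) {l' : ℕ} (hl : 2 * m + 3 + l' = 2 * K)
    (hJ : ∑ i ∈ J, ks i = 2 * m + 1) (hJ' : ∑ i ∈ Jᶜ, ks i = l') : ¬ Arrow (2 * K) ks := by
  have hn1 : 1 ≤ n := by
    rcases Nat.eq_zero_or_pos n with h0 | h0
    · subst h0
      omega
    · exact h0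
  have hqK : q ≤ K := le_trans (Nat.le_mul_of_pos_left q hn1) hn
  have hhM : h ≤ m + 1 := by
    by_contra hc
    have h1 : (m + 2) * K ≤ h * K := Nat.mul_le_mul_right _ (by omega)
    have h2 : q * (m + 1) ≤ K * (m + 1) := Nat.mul_le_mul_right _ hqK
    have h3 : (m + 2) * K = K * (m + 1) + K := by ring
    omega
  obtain ⟨i, hi⟩ : ∃ i, 2 * i = K + q := ⟨(K + q) / 2, by omega⟩
  obtain ⟨j, hj⟩ : ∃ j, 2 * j + q = K := ⟨(K - q) / 2, by omega⟩
  obtain ⟨A, hA⟩ : ∃ A, 2 * A = m + 1 + h := ⟨(m + 1 + h) / 2, by omega⟩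
  obtain ⟨B, hB⟩ : ∃ B, 2 * B + h = m + 1 := ⟨(m + 1 - h) / 2, by omega⟩
  have c1 : (m + 1) * q = K * h + e := by rw [mul_comm (m + 1) q, he, mul_comm h K]
  have c2 : (m + 1) * K = K * (m + 1) := mul_comm _ _
  have d1 : 2 * ((m + 1) * i) = (m + 1) * K + (m + 1) * q := by
    rw [← Nat.mul_add, ← hi]; ring
  have d2 : 2 * (K * A) = K * (m + 1) + K * h := by
    rw [← Nat.mul_add, ← hA]; ring
  have d3 : 2 * ((m + 1) * j) + (m + 1) * q = (m + 1) * K := by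
    rw [← hj]; ring
  have d4 : 2 * (K * B) + K * h = K * (m + 1) := by
    rw [← hB]; ring
  exact Ratio82.not_arrow (q := q) (h := h) (e := e) (n := n) (i := i) (j := j) (A := A) (B := B)
    he hn hne (by omega) (by omega) (by omega) (by omega) (by omega) (by omega) ks J hl hJ hJ'

theorem walk {D e1 : ℤ} (he : 0 < e1) (hD : 2 * e1 ≤ D) :
    ∃ j : ℤ, 0 ≤ j ∧ 2 * e1 ≤ D - 2 * (j * e1) ∧ D - 2 * (j * e1) < 4 * e1 := by
  have h1 := Int.emod_add_mul_ediv D (2 * e1)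
  have h2 := Int.emod_nonneg D (show (2 * e1) ≠ 0 by omega)
  have h3 := Int.emod_lt_of_pos D (show 0 < 2 * e1 by omega)
  have h4 : 1 ≤ D / (2 * e1) := by
    rw [Int.le_ediv_iff_mul_le (by omega)]
    omega
  refine ⟨D / (2 * e1) - 1, by omega, ?_, ?_⟩ <;> nlinarith

theorem sizes {K q e1 e : ℤ} (h0 : 0 < e1) (h61 : 61 * e1 ≤ K) (hq0 : 1 ≤ q)
    (hq : q * e1 ≤ 241 * K) (hC : 250 * K ≤ e1 ^ 2) (he : 2 * e1 ≤ e) :
    ∃ n : ℤ, 0 ≤ n ∧ n * q ≤ K ∧ 2 * K < n * e := by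
  have hK : 0 < K := by omega
  have g1 : q * (K + e1) ≤ e1 * K := by
    have g2 : q * e1 * (K + e1) ≤ 241 * K * (K + e1) :=
      mul_le_mul_of_nonneg_right hq (by omega)
    have g3 : 241 * K * (K + e1) ≤ 250 * K * K := by
      have : 0 ≤ K * (9 * K - 241 * e1) := mul_nonneg hK.le (by omega)
      nlinarith
    have g4 : 250 * K * K ≤ e1 ^ 2 * K := mul_le_mul_of_nonneg_right hC hK.le
    have g5 : e1 * (q * (K + e1)) ≤ e1 * (e1 * K) := by nlinarith
    exact le_of_mul_le_mul_left g5 h0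
  have h1 := Int.emod_add_mul_ediv K q
  have h2 := Int.emod_nonneg K (show q ≠ 0 by omega)
  have h3 := Int.emod_lt_of_pos K (show 0 < q by omega)
  have hn0 : 0 ≤ K / q := Int.ediv_nonneg hK.le (by omega)
  refine ⟨K / q, hn0, by nlinarith, ?_⟩
  by_contra hc
  have h4 : K / q * (2 * e1) ≤ K / q * e := mul_le_mul_of_nonneg_left he hn0
  have h5 : K / q * e1 ≤ K := by linarith
  have h6 : K / q * e1 * q ≤ K * q := mul_le_mul_of_nonneg_right h5 (by omega)
  have h7 : (K - q) * e1 < (q * (K / q)) * e1 := mul_lt_mul_of_pos_right (by omega) h0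
  nlinarith

/-- The approximation of the density by a fraction of the right parity class. -/
theorem core {K M : ℤ} (hM : 0 < M) (hMK : M < K) (hd : ∀ q h : ℤ, 1 ≤ q → q ≤ 60 →
    250 * K ≤ (q * M - h * K) ^ 2) : ∃ q h n : ℤ, 1 ≤ q ∧ (K + q) % 2 = 0 ∧ (M + h) % 2 = 0 ∧
      15 * |q * M - h * K| < K ∧ 0 ≤ n ∧ n * q ≤ K ∧ 2 * K < n * |q * M - h * K| := by
  have hK : 0 < K := by omega
  have hKr : (0 : ℝ) < K := by exact_mod_cast hK
  obtain ⟨h1, q1, hq0, hq60, hD⟩ := Real.exists_int_int_abs_mul_sub_le ((M : ℝ) / K) (n := 60)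
    (by norm_num)
  have hE : 61 * |q1 * M - h1 * K| ≤ K := by
    have e0 : ((q1 * M - h1 * K : ℤ) : ℝ) = (q1 * ((M : ℝ) / K) - h1) * K := by
      push_cast
      field_simp
    have e1 : |((q1 * M - h1 * K : ℤ) : ℝ)| = |(q1 * ((M : ℝ) / K) - h1)| * K := by
      rw [e0, abs_mul, abs_of_pos hKr]
    have e2 : |((q1 * M - h1 * K : ℤ) : ℝ)| ≤ 1 / ((60 : ℕ) + 1) * K := by
      rw [e1]
      exact mul_le_mul_of_nonneg_right hD hKr.le
    have e3 : (61 : ℝ) * |((q1 * M - h1 * K : ℤ) : ℝ)| ≤ K := by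
      push_cast at e2 ⊢
      linarith
    exact_mod_cast e3
  have hC := hd q1 h1 (by omega) (by exact_mod_cast hq60)
  have hq60' : q1 ≤ 60 := by exact_mod_cast hq60
  obtain ⟨κ, hκ1, hκ2, hκp⟩ : ∃ κ : ℤ, 1 ≤ κ ∧ κ ≤ 2 ∧ (K + κ) % 2 = 0 := by
    rcases Int.emod_two_eq_zero_or_one K with h | h
    · exact ⟨2, by omega, by omega, by omega⟩
    · exact ⟨1, by omega, by omega, by omega⟩
  have hκM : κ * M ≤ 2 * M := by nlinarith
  have hκM' : M ≤ κ * M := by nlinarith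
  rcases lt_trichotomy (q1 * M - h1 * K) 0 with hs | hs | hs
  · -- negative
    obtain ⟨e1, he1⟩ : ∃ e1 : ℤ, q1 * M - h1 * K = -e1 := ⟨-(q1 * M - h1 * K), by ring⟩
    have h0 : 0 < e1 := by omega
    rw [he1] at hE hC
    rw [abs_neg, abs_of_pos h0] at hE
    have hC' : 250 * K ≤ e1 ^ 2 := by nlinarith
    obtain ⟨μ, hμ1, hμ2, hμp⟩ : ∃ μ : ℤ, 1 ≤ μ ∧ μ ≤ 2 ∧ (M + μ) % 2 = 0 := by
      rcases Int.emod_two_eq_zero_or_one M with h | h
      · exact ⟨2, by omega, by omega, by omega⟩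
      · exact ⟨1, by omega, by omega, by omega⟩
    have hμK : μ * K ≤ 2 * K := by nlinarith
    have hμK' : K ≤ μ * K := by nlinarith
    obtain ⟨j, hj0, hj1, hj2⟩ := walk (D := κ * M + μ * K) h0 (by omega)
    have hval : (2 * (j * q1) + κ) * M - (2 * (j * h1) - μ) * K =
        κ * M + μ * K - 2 * (j * e1) := by
      have : q1 * M = h1 * K - e1 := by linarith
      linear_combination (2 * j) * this
    have hjq : 0 ≤ j * q1 := mul_nonneg hj0 (by omega)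
    have hq : (2 * (j * q1) + κ) * e1 ≤ 241 * K := by
      have g1 : 2 * (j * e1) ≤ 4 * K := by omega
      have g2 : (2 * (j * e1)) * q1 ≤ (4 * K) * q1 := mul_le_mul_of_nonneg_right g1 (by omega)
      have g3 : (4 * K) * q1 ≤ (4 * K) * 60 := mul_le_mul_of_nonneg_left hq60' (by omega)
      have g4 : κ * e1 ≤ 2 * e1 := by nlinarith
      nlinarith
    obtain ⟨n, hn0, hn1, hn2⟩ := sizes (K := K) (q := 2 * (j * q1) + κ) (e1 := e1)
      (e := κ * M + μ * K - 2 * (j * e1)) h0 hE (by omega) hq hC' hj1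
    refine ⟨2 * (j * q1) + κ, 2 * (j * h1) - μ, n, by omega, by omega, by omega, ?_, hn0, hn1, ?_⟩
    · rw [hval, abs_of_nonneg (by omega)]
      omega
    · rw [hval, abs_of_nonneg (by omega)]
      exact hn2
  · rw [hs] at hC
    omega
  · -- positive
    obtain ⟨e1, he1⟩ : ∃ e1 : ℤ, q1 * M - h1 * K = e1 := ⟨_, rfl⟩
    rw [he1] at hE hC hs
    rw [abs_of_pos hs] at hE
    obtain ⟨μ, hμ1, hμ2, hμp⟩ : ∃ μ : ℤ, 3 ≤ μ ∧ μ ≤ 4 ∧ (M + μ) % 2 = 0 := by
      rcases Int.emod_two_eq_zero_or_one M with h | h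
      · exact ⟨4, by omega, by omega, by omega⟩
      · exact ⟨3, by omega, by omega, by omega⟩
    have hμK : μ * K ≤ 4 * K := by nlinarith
    have hμK' : 3 * K ≤ μ * K := by nlinarith
    obtain ⟨j, hj0, hj1, hj2⟩ := walk (D := μ * K - κ * M) hs (by omega)
    have hval : (2 * (j * q1) + κ) * M - (2 * (j * h1) + μ) * K =
        -(μ * K - κ * M - 2 * (j * e1)) := by
      have : q1 * M = h1 * K + e1 := by linarith
      linear_combination (2 * j) * this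
    have hjq : 0 ≤ j * q1 := mul_nonneg hj0 (by omega)
    have hq : (2 * (j * q1) + κ) * e1 ≤ 241 * K := by
      have g1 : 2 * (j * e1) ≤ 4 * K := by omega
      have g2 : (2 * (j * e1)) * q1 ≤ (4 * K) * q1 := mul_le_mul_of_nonneg_right g1 (by omega)
      have g3 : (4 * K) * q1 ≤ (4 * K) * 60 := mul_le_mul_of_nonneg_left hq60' (by omega)
      have g4 : κ * e1 ≤ 2 * e1 := by nlinarith
      nlinarith
    obtain ⟨n, hn0, hn1, hn2⟩ := sizes (K := K) (q := 2 * (j * q1) + κ) (e1 := e1)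
      (e := μ * K - κ * M - 2 * (j * e1)) hs hE (by omega) hq hC hj1
    refine ⟨2 * (j * q1) + κ, 2 * (j * h1) + μ, n, by omega, by omega, by omega, ?_, hn0, hn1, ?_⟩
    · rw [hval, abs_neg, abs_of_nonneg (by omega)]
      omega
    · rw [hval, abs_neg, abs_of_nonneg (by omega)]
      exact hn2

/-- One sign. -/
theorem half {K m r : ℕ} {q h n : ℤ} (hq : 1 ≤ q) (hp1 : ((K : ℤ) + q) % 2 = 0)
    (hp2 : (((m : ℤ) + 1) + h) % 2 = 0) (he0 : 0 < q * (m + 1) - h * K)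
    (h15 : 15 * (q * (m + 1) - h * K) < K) (hn0 : 0 ≤ n) (hn : n * q ≤ K)
    (hne : 2 * (K : ℤ) < n * (q * (m + 1) - h * K)) (ks : Fin r → ℕ) (J : Finset (Fin r)) {l' : ℕ}
    (hl : 2 * m + 3 + l' = 2 * K) (hJ : ∑ i ∈ J, ks i = 2 * m + 1) (hJ' : ∑ i ∈ Jᶜ, ks i = l') :
    ¬ Arrow (2 * K) ks := by
  have hh : 0 ≤ h := by
    by_contra hc
    have h1 : h * (K : ℤ) ≤ (-1) * K := mul_le_mul_of_nonneg_right (by omega) (by omega)
    have h2 : 0 ≤ q * ((m : ℤ) + 1) := mul_nonneg (by omega) (by omega)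
    omega
  obtain ⟨q', rfl⟩ := Int.eq_ofNat_of_zero_le (show 0 ≤ q by omega)
  obtain ⟨h', rfl⟩ := Int.eq_ofNat_of_zero_le hh
  obtain ⟨n', rfl⟩ := Int.eq_ofNat_of_zero_le hn0
  obtain ⟨e, he⟩ := Int.eq_ofNat_of_zero_le he0.le
  rw [he] at h15 hne
  refine qh (K := K) (m := m) (q := q') (h := h') (e := e) (n := n') ?_ (by omega) (by omega)
    (by omega) (by exact_mod_cast hn) (by exact_mod_cast hne) ks J hl hJ hJ'
  have : (q' : ℤ) * (m + 1) = h' * K + e := by linarith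
  exact_mod_cast this

/-- **Two classes with odd sums `a`, `b`:** `a + b + 2` is not enough if
`(q (a + 1) - h (a + b + 2)) ^ 2 ≥ 500 (a + b + 2)` for all `h` and all `1 ≤ q ≤ 60`. -/
theorem not_arrow {r : ℕ} (ks : Fin r → ℕ) (J : Finset (Fin r)) (ha : Odd (∑ i ∈ J, ks i))
    (hb : Odd (∑ i ∈ Jᶜ, ks i)) (hd : ∀ q h : ℤ, 1 ≤ q → q ≤ 60 →
      500 * ((∑ i, ks i : ℕ) + 2 : ℤ) ≤
        (q * ((∑ i ∈ J, ks i : ℕ) + 1) - h * ((∑ i, ks i : ℕ) + 2)) ^ 2) :
    ¬ Arrow (∑ i, ks i + 2) ks := by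
  obtain ⟨m, hm⟩ := ha
  obtain ⟨m', hm'⟩ := hb
  have hc : ∑ i ∈ J, ks i + ∑ i ∈ Jᶜ, ks i = ∑ i, ks i := sum_add_sum_compl _ _
  have hS : ∑ i, ks i + 2 = 2 * (m + m' + 2) := by omega
  have hSz : ((∑ i, ks i : ℕ) : ℤ) + 2 = 2 * (m + m' + 2) := by exact_mod_cast hS
  have haz : ((∑ i ∈ J, ks i : ℕ) : ℤ) + 1 = 2 * (m + 1) := by rw [hm]; push_cast; ring
  rw [hSz, haz] at hd
  obtain ⟨q, h, n, hq, hp1, hp2, h15, hn0, hn1, hn2⟩ := core (K := (m : ℤ) + m' + 2)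
    (M := (m : ℤ) + 1) (by omega) (by omega) (fun q h hq hq' => by
      have := hd q h hq hq'
      nlinarith)
  rw [hS]
  rcases le_or_gt (q * ((m : ℤ) + 1) - h * (m + m' + 2)) 0 with hs | hs
  · rw [abs_of_nonpos hs] at h15 hn2
    have hK0 : (0 : ℤ) < (m : ℤ) + m' + 2 := by omega
    have hpos : 0 < -(q * ((m : ℤ) + 1) - h * (m + m' + 2)) := by
      rcases hs.lt_or_eq with h1 | h1
      · omega
      · rw [h1] at hn2
        omega
    have key : (q : ℤ) * ((m' : ℤ) + 1) - (q - h) * ((m + m' + 2 : ℕ) : ℤ) =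
        -(q * ((m : ℤ) + 1) - h * (m + m' + 2)) := by
      push_cast
      ring
    refine half (K := m + m' + 2) (m := m') (q := q) (h := q - h) (n := n) hq
      (by push_cast; omega) (by omega) (by rw [key]; exact hpos) (by rw [key]; push_cast; exact h15)
      hn0 (by push_cast; exact hn1) (by rw [key]; push_cast; exact hn2) ks Jᶜ (l' := 2 * m + 1)
      (by omega) hm' (by rw [compl_compl]; exact hm)
  · rw [abs_of_pos hs] at h15 hn2
    have key : (q : ℤ) * ((m : ℤ) + 1) - h * ((m + m' + 2 : ℕ) : ℤ) =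
        q * ((m : ℤ) + 1) - h * (m + m' + 2) := by
      push_cast
      ring
    exact half (K := m + m' + 2) (m := m) (q := q) (h := h) (n := n) hq
      (by push_cast; omega) (by omega) (by rw [key]; exact hs) (by rw [key]; push_cast; exact h15)
      hn0 (by push_cast; exact hn1) (by rw [key]; push_cast; exact hn2) ks J (l' := 2 * m' + 1)
      (by omega) hm hm'

end Pool.Agent.Lib.MP_21a058_co.Slack3.Any3
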