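import Pool.Agent.Lib.MP_21a058_co.Slack3.Slope25

/-! All odd `a`, `b` with `|q (a + 1) - h (a + b + 2)| ≥ 10 q + 300` for all `1 ≤ q ≤ 60` and all
`h`: `f(a, b) ≥ a + b + 3`. -/

set_option autoImplicit false

namespace Pool.Agent.Lib.MP_21a058_co.Slack3.Any84

open Finset Pool.Agent.Lib.MP_21a058_co

/-- Dirichlet's theorem. -/
theorem diri {K M : ℤ} (hK : 0 < K) : ∃ q h : ℤ, 1 ≤ q ∧ q ≤ 60 ∧ IsCoprime q h ∧
    61 * |q * M - h * K| ≤ K := by
  obtain ⟨j, k, hk0, hk, hb⟩ :=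
    Real.exists_int_int_abs_mul_sub_le ((M : ℝ) / K) (n := 60) (by norm_num)
  have hKr : (0 : ℝ) < K := by exact_mod_cast hK
  have h1 : 61 * |k * M - j * K| ≤ K := by
    have e : ((k * M - j * K : ℤ) : ℝ) = (k * ((M : ℝ) / K) - j) * K := by
      push_cast
      field_simp
    have h2 : 61 * |((k * M - j * K : ℤ) : ℝ)| ≤ (K : ℝ) := by
      rw [e, abs_mul, abs_of_pos hKr]
      have h3 : |k * ((M : ℝ) / K) - j| ≤ 1 / 61 := by
        refine hb.trans (le_of_eq ?_)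
        norm_num
      nlinarith
    exact_mod_cast h2
  have hk60 : k ≤ 60 := by exact_mod_cast hk
  have hg : 0 < Int.gcd k j := Int.gcd_pos_of_ne_zero_left _ (by omega)
  obtain ⟨q, h, hqh, e1, e2⟩ := Int.exists_gcd_one hg
  have hg1 : (1 : ℤ) ≤ (Int.gcd k j : ℤ) := by omega
  generalize (Int.gcd k j : ℤ) = g at e1 e2 hg1
  have hq : 1 ≤ q := by
    by_contra hc
    have : q * g ≤ 0 := mul_nonpos_of_nonpos_of_nonneg (by omega) (by omega)
    omega
  refine ⟨q, h, hq, ?_, Int.isCoprime_iff_gcd_eq_one.2 hqh, ?_⟩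
  · have : q * 1 ≤ q * g := mul_le_mul_of_nonneg_left hg1 (by omega)
    omega
  · have e3 : k * M - j * K = g * (q * M - h * K) := by
      rw [e1, e2]
      ring
    rw [e3, abs_mul, abs_of_pos (by omega : 0 < g)] at h1
    have : 1 * |q * M - h * K| ≤ g * |q * M - h * K| :=
      mul_le_mul_of_nonneg_right hg1 (abs_nonneg _)
    linarith

/-- The parity can be chosen. -/
theorem key {K M : ℤ} (hM : 0 < M) (hMK : M < K)
    (hd : ∀ q h : ℤ, 1 ≤ q → q ≤ 60 → 5 * q + 150 ≤ |q * M - h * K|) :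
    ∃ s n W : ℤ, 1 ≤ s ∧ 0 ≤ n ∧ (s * M - n * K = W ∨ n * K - s * M = W) ∧ 5 * s ≤ W ∧
      15 * W < K ∧ ((2 ∣ K ∧ 2 ∣ M) ∨ (2 ∣ K + s ∧ 2 ∣ M + n)) := by
  have hK : 0 < K := by omega
  obtain ⟨q, h, hq1, hq, ⟨a, b, hab⟩, he⟩ := diri (M := M) hK
  have hf := hd q h hq1 hq
  have hn : ∀ s n W : ℤ, 1 ≤ s → (s * M - n * K = W ∨ n * K - s * M = W) → 0 ≤ W → 15 * W < K →
      0 ≤ n := by
    intro s n W hs hW h0 h15
    by_contra hc
    have e1 : n * K ≤ -1 * K := mul_le_mul_of_nonneg_right (by omega) hK.le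
    have e2 : 1 * M ≤ s * M := mul_le_mul_of_nonneg_right hs hM.le
    omega
  -- the partner
  have hKe : K = (q * M - h * K) * (-b) - ((-b) * M - a * K) * q := by
    linear_combination -K * hab
  have hMe : M = (q * M - h * K) * a - ((-b) * M - a * K) * h := by
    linear_combination -M * hab
  generalize hq' : (-b) = q' at *
  generalize hE : q * M - h * K = e at *
  generalize hE' : q' * M - a * K = e' at *
  rcases Int.even_or_odd e with ⟨e2, hev⟩ | ⟨e2, hodd⟩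
  · -- `e` even
    refine ⟨q, h, |e|, hq1, hn q h |e| hq1 ?_ (abs_nonneg _) (by omega), ?_, by omega, by omega,
      ?_⟩
    · rcases abs_cases e with ⟨h1, _⟩ | ⟨h1, _⟩ <;> omega
    · rcases abs_cases e with ⟨h1, _⟩ | ⟨h1, _⟩ <;> omega
    · rcases Int.even_or_odd e' with ⟨c, hc⟩ | ⟨c, hc⟩
      · left
        refine ⟨⟨e2 * q' - c * q, ?_⟩, ⟨e2 * a - c * h, ?_⟩⟩
        · rw [hKe, hev, hc]; ring
        · rw [hMe, hev, hc]; ring
      · right
        refine ⟨⟨e2 * q' - c * q, ?_⟩, ⟨e2 * a - c * h, ?_⟩⟩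
        · rw [hKe, hev, hc]; ring
        · rw [hMe, hev, hc]; ring
  · -- `e` odd
    obtain ⟨σ, f, hσ, hfe, hf1⟩ : ∃ σ f : ℤ, (σ = 1 ∨ σ = -1) ∧ e = σ * f ∧ |e| = f := by
      rcases abs_cases e with ⟨h1, _⟩ | ⟨h1, _⟩
      · exact ⟨1, e, Or.inl rfl, by ring, h1⟩
      · exact ⟨-1, -e, Or.inr rfl, by ring, h1⟩
    rw [hf1] at hf he
    have hf0 : 0 < f := by omega
    have hA := Int.emod_add_mul_ediv (-(K - 30 * (e' * (f + 1)))) (60 * f)
    have hA1 := Int.emod_nonneg (-(K - 30 * (e' * (f + 1)))) (show 60 * f ≠ 0 by omega)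
    have hA2 := Int.emod_lt_of_pos (-(K - 30 * (e' * (f + 1)))) (show 0 < 60 * f by omega)
    generalize -(K - 30 * (e' * (f + 1))) % (60 * f) = ρ at *
    generalize -(K - 30 * (e' * (f + 1))) / (60 * f) = y at *
    -- `x = e' - 2 y`, `W = x f + e'`
    have hW : 30 * ((e' - 2 * y) * f + e') = K + ρ := by linear_combination (-1 : ℤ) * hA
    have hs : ((e' - 2 * y) * q + σ * q') * f = q * ((e' - 2 * y) * f + e') + K := by
      have h1 : K = σ * f * q' - e' * q := by rw [← hfe]; exact hKe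
      linear_combination (-1 : ℤ) * h1
    have hs1 : 1 ≤ (e' - 2 * y) * q + σ * q' := by
      by_contra hc
      have h1 : ((e' - 2 * y) * q + σ * q') * f ≤ 0 :=
        mul_nonpos_of_nonpos_of_nonneg (by omega) hf0.le
      have h2 : 0 ≤ q * ((e' - 2 * y) * f + e') := mul_nonneg (by omega) (by omega)
      omega
    have hV : ((e' - 2 * y) * q + σ * q') * M - ((e' - 2 * y) * h + σ * a) * K =
        σ * ((e' - 2 * y) * f + e') := by
      have h1 : q * M - h * K = σ * f := by rw [hE, hfe]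
      have h2 : q' * M - a * K = e' := hE'
      rcases hσ with rfl | rfl
      · linear_combination (e' - 2 * y) * h1 + h2
      · linear_combination (e' - 2 * y) * h1 - h2
    have hV' : ((e' - 2 * y) * q + σ * q') * M - ((e' - 2 * y) * h + σ * a) * K =
        ((e' - 2 * y) * f + e') ∨ ((e' - 2 * y) * h + σ * a) * K -
        ((e' - 2 * y) * q + σ * q') * M = ((e' - 2 * y) * f + e') := by
      rcases hσ with rfl | rfl
      · left; rw [hV]; ring
      · right; linear_combination (-1 : ℤ) * hV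
    have h15 : 15 * ((e' - 2 * y) * f + e') < K := by omega
    refine ⟨(e' - 2 * y) * q + σ * q', (e' - 2 * y) * h + σ * a, (e' - 2 * y) * f + e', hs1,
      hn _ _ _ hs1 hV' (by omega) h15, hV', ?_, h15, Or.inr ?_⟩
    · generalize (e' - 2 * y) * f + e' = W at *
      generalize (e' - 2 * y) * q + σ * q' = s at *
      by_contra hc
      have h1 : (W + 1) * f ≤ (5 * s) * f := mul_le_mul_of_nonneg_right (by omega) hf0.le
      have h2 : W * (5 * q + 150) ≤ W * f := mul_le_mul_of_nonneg_left hf (by omega)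
      nlinarith
    · have h1 : K = e * q' - e' * q := hKe
      have h2 : M = e * a - e' * h := hMe
      rcases hσ with rfl | rfl
      · refine ⟨⟨(e2 + 1) * q' - y * q, ?_⟩, ⟨(e2 + 1) * a - y * h, ?_⟩⟩
        · rw [h1, hodd]; ring
        · rw [h2, hodd]; ring
      · refine ⟨⟨e2 * q' - y * q, ?_⟩, ⟨e2 * a - y * h, ?_⟩⟩
        · rw [h1, hodd]; ring
        · rw [h2, hodd]; ring

/-- **All odd `a`, `b`** with `(a + 1) / (a + b + 2)` not too close to a fraction with denominator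
at most `60`. -/
theorem all (k r : ℕ) (ks : Fin r → ℕ) (J : Finset (Fin r)) (ho : Odd (∑ l ∈ J, ks l))
    (he : Even (∑ l, ks l))
    (hd : ∀ q h : ℕ, 1 ≤ q → q ≤ 60 → 10 * (q : ℤ) + 300 ≤
      |(q : ℤ) * (∑ l ∈ J, ks l + 1 : ℕ) - h * (∑ l, ks l + 2 : ℕ)|)
    (h : Arrow k ks) : ∑ l, ks l + 3 ≤ k := by
  have hc : ∑ l ∈ J, ks l + ∑ l ∈ Jᶜ, ks l = ∑ l, ks l := sum_add_sum_compl _ _
  obtain ⟨K, hK⟩ : ∃ K, ∑ l, ks l + 2 = 2 * K := by
    obtain ⟨n, hn⟩ := he
    exact ⟨n + 1, by omega⟩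
  obtain ⟨M, hM⟩ : ∃ M, ∑ l ∈ J, ks l + 1 = 2 * M := by
    obtain ⟨m, hm⟩ := ho
    exact ⟨m + 1, by omega⟩
  have hMK : M < K := by
    obtain ⟨m, hm⟩ := ho
    obtain ⟨n, hn⟩ := he
    omega
  have hM0 : 0 < M := by omega
  have hd' : ∀ q h : ℤ, 1 ≤ q → q ≤ 60 → 5 * q + 150 ≤ |q * (M : ℤ) - h * (K : ℤ)| := by
    intro q h hq hq'
    lift q to ℕ using by omega
    have h0 : ∀ h : ℕ, 5 * (q : ℤ) + 150 ≤ |(q : ℤ) * (M : ℤ) - h * (K : ℤ)| := by
      intro h
      have h1 := hd q h (by omega) (by omega)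
      rw [hK, hM] at h1
      have e : (q : ℤ) * ((2 * M : ℕ) : ℤ) - h * ((2 * K : ℕ) : ℤ) =
          2 * ((q : ℤ) * (M : ℤ) - h * (K : ℤ)) := by
        push_cast
        ring
      rw [e, abs_mul, abs_of_pos (by norm_num : (0 : ℤ) < 2)] at h1
      omega
    rcases le_or_gt 0 h with hh | hh
    · lift h to ℕ using hh
      exact h0 h
    · have h1 := h0 0
      have e1 : (0 : ℤ) ≤ (q : ℤ) * M := by positivity
      have e2 : h * (K : ℤ) ≤ 0 := mul_nonpos_of_nonpos_of_nonneg hh.le (by omega)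
      rw [Nat.cast_zero, zero_mul, sub_zero, abs_of_nonneg e1] at h1
      exact h1.trans ((by omega : (q : ℤ) * M ≤ q * M - h * K).trans (le_abs_self _))
  obtain ⟨s, n, W, hs, hn, hW, h5, h15, hpar⟩ :=
    key (K := K) (M := M) (by omega) (by omega) hd'
  lift s to ℕ using by omega
  lift n to ℕ using hn
  have hp : (4 ∣ ∑ l, ks l + 2 ∧ 4 ∣ ∑ l ∈ J, ks l + 1) ∨
      (4 ∣ ∑ l, ks l + 2 + 2 * s ∧ 4 ∣ ∑ l ∈ J, ks l + 1 + 2 * n) := by
    rcases hpar with ⟨h1, h2⟩ | ⟨h1, h2⟩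
    · left; constructor <;> omega
    · right; constructor <;> omega
  have e1 : n * (∑ l, ks l + 2) = 2 * (n * K) := by rw [hK]; ring
  have e2 : s * (∑ l ∈ J, ks l + 1) = 2 * (s * M) := by rw [hM]; ring
  have e3 : ((s * M : ℕ) : ℤ) = (s : ℤ) * M := Nat.cast_mul _ _
  have e4 : ((n * K : ℕ) : ℤ) = (n : ℤ) * K := Nat.cast_mul _ _
  rcases hW with hW | hW
  · refine Slope.above k r ks J ho s n (by omega) hp ?_ ?_ h
    · rw [e1, e2]; omega
    · rw [e1, e2]; omega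
  · refine Slope.below k r ks J ho s n (by omega) hp ?_ ?_ h
    · rw [e1, e2]; omega
    · rw [e1, e2]; omega

end Pool.Agent.Lib.MP_21a058_co.Slack3.Any84
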