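import Pool.Agent.Lib.MP_21a058_co.Slack3.Rule

/-! Window `3 ≤ red ≤ 5` and even `K`: if an alive set of `K - 2` edges cannot be all blue, then
everything is killable. -/

set_option autoImplicit false

namespace Pool.Agent.Lib.MP_21a058_co.Slack3

theorem w_ge4 {K L p : ℕ} (hL : L ≤ K) (hp : 4 ≤ p) : W K 3 5 L p :=
  W_base hL (Or.inl (by omega))

theorem w_K0 {K : ℕ} : W K 3 5 K 0 :=
  W_base le_rfl (Or.inr (by omega))

/-- three red edges among at most `K / 2` edges -/
theorem w_half3 {K L : ℕ} (hL : 2 * L ≤ K) : W K 3 5 L 3 := by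
  refine W_R2 (i := K - L) (j := L) (by omega) (by omega) (by omega) fun a b ha hb => ?_
  by_cases h1 : a = 0
  · by_cases h2 : b = 0
    · right; right
      subst h1 h2
      have e : K - L + L = K := by omega
      rw [e]
      exact w_K0
    · right; left
      exact w_ge4 (by omega) (by omega)
  · left
    exact w_ge4 (by omega) (by omega)

theorem w_half3' {K : ℕ} (hK : 2 ≤ K) (he : K % 2 = 0) (main : W K 3 5 (K - 2) 0) :
    W K 3 5 (K / 2 + 1) 3 := by
  refine W_R2 (i := K / 2 - 1) (j := K / 2 - 1) (by omega) (by omega) (by omega)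
    fun a b ha hb => ?_
  by_cases h1 : a = 0
  · by_cases h2 : b = 0
    · right; right
      subst h1 h2
      have e : K / 2 - 1 + (K / 2 - 1) = K - 2 := by omega
      rw [e]
      exact main
    · right; left
      exact w_ge4 (by omega) (by omega)
  · left
    exact w_ge4 (by omega) (by omega)

theorem w_22 {K : ℕ} (hK : 2 ≤ K) (he : K % 2 = 0) (main : W K 3 5 (K - 2) 0) :
    W K 3 5 2 2 := by
  have h3 := w_half3' hK he main
  have h4 : ∀ a, 1 ≤ a → W K 3 5 (2 + (K / 2 - 1)) (2 + a) := by
    intro a ha
    by_cases h5 : a = 1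
    · subst h5
      have e : 2 + (K / 2 - 1) = K / 2 + 1 := by omega
      rw [e]
      exact h3
    · exact w_ge4 (by omega) (by omega)
  refine W_R2 (i := K / 2 - 1) (j := K / 2 - 1) (by omega) (by omega) (by omega)
    fun a b ha hb => ?_
  by_cases h1 : a = 0
  · by_cases h2 : b = 0
    · right; right
      subst h1 h2
      have e : K / 2 - 1 + (K / 2 - 1) = K - 2 := by omega
      rw [e]
      exact main
    · right; left
      exact h4 b (by omega)
  · left
    exact h4 a (by omega)

theorem w_0 {K : ℕ} (hK : 2 ≤ K) (he : K % 2 = 0) (main : W K 3 5 (K - 2) 0) :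
    ∀ n, n ≤ K → W K 3 5 (K - n) 0 := by
  intro n
  induction n with
  | zero =>
    intro _
    exact w_K0
  | succ n ih =>
    intro hn
    have h1 := ih (by omega)
    have e : K - (n + 1) + 1 = K - n := by omega
    refine W_R2 (i := 1) (j := 1) (by omega) (by omega) (by omega) fun a b ha hb => ?_
    by_cases h2 : a = 0
    · left
      subst h2
      rw [e]
      exact h1
    · by_cases h3 : b = 0
      · right; left
        subst h3
        rw [e]
        exact h1
      · right; right
        have e1 : a = 1 := by omega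
        have e2 : b = 1 := by omega
        subst e1 e2
        exact w_22 hK he main

theorem w00 {K : ℕ} (hK : 2 ≤ K) (he : K % 2 = 0) (main : W K 3 5 (K - 2) 0) :
    W K 3 5 0 0 := by
  have h := w_0 hK he main K le_rfl
  rwa [Nat.sub_self] at h

end Pool.Agent.Lib.MP_21a058_co.Slack3
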