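import Pool.Agent.Lib.MP_21a058_co.Slack3.MainG41
import Pool.Agent.Lib.MP_21a058_co.Slack3.Gen
import Pool.Agent.Lib.MP_21a058_co.Slack3.Final

/-! Window `2 m + 1 ≤ red ≤ 2 m + 3` with `m ≥ 2` and `24 (m + 1) < K`: everything is killable, so
`2 K` does not arrow a tuple with some parts of sum `2 m + 1` and the others of sum
`2 K - 2 m - 3`. -/

set_option autoImplicit false

namespace Pool.Agent.Lib.MP_21a058_co.Slack3.AG41

open Finset Pool.Agent.Lib.MP_21a058_co
open Pool.Agent.Lib.MP_21a058_co.Slack3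

section
variable {K m : ℕ}

/-- Many red edges in few alive ones. -/
theorem many {L p q : ℕ} (hL : L ≤ K) (hq : q ≤ p) (h : 2 * K + (m + 1) * L < K * q) :
    W K (2 * m + 1) (2 * m + 3) L p := by
  refine Gen.dev hL ?_
  have f1 : (K : ℤ) * q ≤ K * p :=
    mul_le_mul_of_nonneg_left (by exact_mod_cast hq) (Int.natCast_nonneg _)
  have f2 : (2 : ℤ) * K + (m + 1) * L < K * q := by exact_mod_cast h
  refine lt_of_lt_of_le ?_ (le_abs_self _)
  linarith

/-- No red edge in many alive ones. -/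
theorem none {L : ℕ} (hL : L ≤ K) (h : 2 * K < (m + 1) * L) :
    W K (2 * m + 1) (2 * m + 3) L 0 := by
  refine Gen.dev hL ?_
  have f2 : (2 : ℤ) * K < (m + 1) * L := by exact_mod_cast h
  refine lt_of_lt_of_le ?_ (neg_le_abs _)
  push_cast
  linarith

/-- `c + 3 = K / (m + 1)`. -/
theorem exists_c (hm : 2 ≤ m) (h : 24 * (m + 1) < K) :
    ∃ c, 21 ≤ c ∧ (m + 1) * (c + 3) ≤ K ∧ K < (m + 1) * (c + 4) := by
  have h1 : 24 ≤ K / (m + 1) := (Nat.le_div_iff_mul_le (by omega)).2 (by omega)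
  refine ⟨K / (m + 1) - 3, by omega, ?_, ?_⟩
  · rw [show K / (m + 1) - 3 + 3 = K / (m + 1) by omega]
    exact Nat.mul_div_le K (m + 1)
  · rw [show K / (m + 1) - 3 + 4 = K / (m + 1) + 1 by omega]
    exact Nat.lt_mul_div_succ K (by omega)

theorem three_c {c : ℕ} (hm : 2 ≤ m) (h1 : (m + 1) * (c + 3) ≤ K) : 3 * (c + 3) ≤ K :=
  le_trans (Nat.mul_le_mul_right (c + 3) (by omega)) h1

/-- The main step. -/
theorem main (hm : 2 ≤ m) (h : 24 * (m + 1) < K) {c : ℕ} (hc : 21 ≤ c)
    (h1 : (m + 1) * (c + 3) ≤ K) (h2 : K < (m + 1) * (c + 4)) :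
    W K (2 * m + 1) (2 * m + 3) (K - c) (m + 2) := by
  have h3 := three_c hm h1
  refine G41.mainG (t := 8) (by omega) (by omega) (by omega) (by omega) ?_ fun p hp => ?_
  · refine none (by omega) ?_
    rw [show 2 * (K - (K - c)) + 8 = 2 * (c + 4) by omega]
    calc 2 * K < 2 * ((m + 1) * (c + 4)) := by omega
      _ = (m + 1) * (2 * (c + 4)) := by ring
  · refine many (by omega) hp ?_
    omega

/-- Three red edges in `c + 4` alive ones. -/
theorem three (hm : 2 ≤ m) (h : 24 * (m + 1) < K) {c : ℕ} (hc : 21 ≤ c)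
    (h1 : (m + 1) * (c + 3) ≤ K) (h2 : K < (m + 1) * (c + 4)) {p : ℕ} (hp : 3 ≤ p) :
    W K (2 * m + 1) (2 * m + 3) (c + 4) p := by
  have h3 := three_c hm h1
  refine W_R2 (i := K - 2 * c - 4) (j := 2 * c + 4) (by omega) (by omega) (by omega)
    fun a b ha hb => ?_
  by_cases e1 : m + 2 ≤ p + a
  · left
    rw [show c + 4 + (K - 2 * c - 4) = K - c by omega]
    rcases Nat.lt_or_ge (m + 2) (p + a) with e2 | e2
    · exact Gen.top (by omega) (by omega)
    · rw [show p + a = m + 2 by omega]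
      exact main hm h hc h1 h2
  by_cases e3 : 5 ≤ p + b
  · right; left
    refine many (q := 5) (by omega) e3 ?_
    have e4 : (m + 1) * (c + 4 + (2 * c + 4)) + (m + 1) = 3 * ((m + 1) * (c + 3)) := by ring
    omega
  · right; right
    rw [show K - 2 * c - 4 + (2 * c + 4) = K by omega]
    exact Gen.bot (by omega)

/-- Two red edges in two alive ones. -/
theorem two (hm : 2 ≤ m) (h : 24 * (m + 1) < K) {c : ℕ} (hc : 21 ≤ c)
    (h1 : (m + 1) * (c + 3) ≤ K) (h2 : K < (m + 1) * (c + 4)) :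
    W K (2 * m + 1) (2 * m + 3) 2 2 := by
  have h3 := three_c hm h1
  refine W_R2 (i := K - c - 2) (j := c + 2) (by omega) (by omega) (by omega)
    fun a b ha hb => ?_
  by_cases e1 : m + 2 ≤ 2 + a
  · left
    rw [show 2 + (K - c - 2) = K - c by omega]
    rcases Nat.lt_or_ge (m + 2) (2 + a) with e2 | e2
    · exact Gen.top (by omega) (by omega)
    · rw [show 2 + a = m + 2 by omega]
      exact main hm h hc h1 h2
  by_cases e3 : 3 ≤ 2 + b
  · right; left
    rw [show 2 + (c + 2) = c + 4 by omega]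
    exact three hm h hc h1 h2 e3
  · right; right
    rw [show K - c - 2 + (c + 2) = K by omega]
    exact Gen.bot (by omega)

/-- No red edge, downwards. -/
theorem zero (hm : 2 ≤ m) (h : 24 * (m + 1) < K) (n : ℕ) :
    W K (2 * m + 1) (2 * m + 3) (K - n) 0 := by
  obtain ⟨c, hc, h1, h2⟩ := exists_c hm h
  have w2 := two hm h hc h1 h2
  induction n with
  | zero => exact Gen.bot (by omega)
  | succ n ih =>
    rcases Nat.lt_or_ge n K with hn | hn
    · refine W_R2 (i := 1) (j := 1) (by omega) (by omega) (by omega) fun a b ha hb => ?_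
      rcases Nat.eq_zero_or_pos a with e1 | e1
      · left
        rw [e1, show K - (n + 1) + 1 = K - n by omega]
        exact ih
      rcases Nat.eq_zero_or_pos b with e2 | e2
      · right; left
        rw [e2, show K - (n + 1) + 1 = K - n by omega]
        exact ih
      · right; right
        rw [show a + b = 2 by omega]
        exact w2
    · rw [show K - (n + 1) = K - n by omega]
      exact ih

theorem w00 (hm : 2 ≤ m) (h : 24 * (m + 1) < K) : W K (2 * m + 1) (2 * m + 3) 0 0 := by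
  have := zero hm h K
  rwa [Nat.sub_self] at this

end

/-- Some parts have odd sum `2 m + 1 ≥ 5` and the others have sum `2 K - 2 m - 3`. -/
theorem fails {K m l' r : ℕ} (hm : 2 ≤ m) (h : 24 * (m + 1) < K) (hl : 2 * m + 3 + l' = 2 * K)
    (ks : Fin r → ℕ) (J : Finset (Fin r)) (hJ : ∑ i ∈ J, ks i = 2 * m + 1)
    (hJ' : ∑ i ∈ Jᶜ, ks i = l') : ¬ Arrow (2 * K) ks :=
  not_arrow_of_W (by omega) hl (w00 hm h) ks J hJ hJ'

end Pool.Agent.Lib.MP_21a058_co.Slack3.AG41
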