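import Pool.Agent.Lib.MP_21a058_co.Slack3.Gen
import Pool.Agent.Lib.MP_21a058_co.Slack3.MainG
import Pool.Agent.Lib.MP_21a058_co.Slack3.Final

/-! Window `2 m + 1 ≤ red ≤ 2 m + 3` with `1 ≤ m` and `24 (m + 1) < K`: everything is killable. So
`f ≥ S + 3` for every tuple that splits into two classes with odd sums `a ≥ 3` and
`b > 23 a + 22`. -/

set_option autoImplicit false

namespace Pool.Agent.Lib.MP_21a058_co.Slack3.EndG

open Pool.Agent.Lib.MP_21a058_co.Slack3
open Pool.Agent.Lib.MP_21a058_co.Slack3.Gen (dev top bot)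

/-- An alive set with too many red edges. -/
theorem hi {K m L p : ℕ} (hL : L ≤ K) (h : 2 * K + (m + 1) * L < K * p) :
    W K (2 * m + 1) (2 * m + 3) L p := by
  refine dev hL (lt_of_lt_of_le ?_ (le_abs_self _))
  have h1 : (2 : ℤ) * K + (m + 1) * L < K * p := by exact_mod_cast h
  linarith

/-- An alive set without red edges that is too big. -/
theorem lo {K m L : ℕ} (hL : L ≤ K) (h : 2 * K < (m + 1) * L) :
    W K (2 * m + 1) (2 * m + 3) L 0 := by
  refine dev hL (lt_of_lt_of_le ?_ (neg_le_abs _))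
  have h1 : (2 : ℤ) * K < (m + 1) * L := by exact_mod_cast h
  push_cast
  linarith

section
variable {K m g c : ℕ}

theorem big (h : 24 * (m + 1) < K) (h1 : (m + 1) * g ≤ K)
    (h2 : K < (m + 1) * g + (m + 1)) (hg : 24 ≤ g) (h3 : 3 * g ≤ K) (hcg : c + 3 = g) (p : ℕ)
    (hp : m + 2 ≤ p) : W K (2 * m + 1) (2 * m + 3) (K - c) p := by
  rcases Nat.eq_or_lt_of_le hp with he | hlt
  · rw [← he]
    refine MG.mainG (c := c) (t := 8) (by omega) (by omega) (by omega) (by omega) ?_ fun p hp => ?_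
    · refine lo (by omega) ?_
      have e : 2 * c + 8 = 2 * g + 2 := by omega
      have e2 : (m + 1) * (2 * g + 2) = 2 * ((m + 1) * g) + 2 * (m + 1) := by ring
      rw [e, e2]
      omega
    · refine hi (by omega) ?_
      have e : K * 3 ≤ K * p := Nat.mul_le_mul_left _ hp
      omega
  · exact top (by omega) (by omega)

theorem mid (h : 24 * (m + 1) < K) (h1 : (m + 1) * g ≤ K)
    (h2 : K < (m + 1) * g + (m + 1)) (hg : 24 ≤ g) (h3 : 3 * g ≤ K) (hcg : c + 3 = g) (p : ℕ)
    (hp : 3 ≤ p) : W K (2 * m + 1) (2 * m + 3) (c + 4) p := by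
  refine W_R2 (i := K - 2 * c - 4) (j := 2 * c + 4) (by omega) (by omega) (by omega)
    fun a b ha hb => ?_
  by_cases c1 : m + 2 ≤ p + a
  · left
    have e : c + 4 + (K - 2 * c - 4) = K - c := by omega
    rw [e]
    exact big h h1 h2 hg h3 hcg _ c1
  by_cases c2 : a + b + 1 ≤ m
  · right; right
    have e : K - 2 * c - 4 + (2 * c + 4) = K := by omega
    rw [e]
    exact bot c2
  right; left
  refine hi (by omega) ?_
  have e : c + 4 + (2 * c + 4) + 1 = 3 * g := by omega
  have e2 : (m + 1) * (c + 4 + (2 * c + 4)) + (m + 1) = 3 * ((m + 1) * g) := by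
    rw [show 3 * ((m + 1) * g) = (m + 1) * (3 * g) by ring, ← e]
    ring
  have e3 : K * 5 ≤ K * (p + b) := Nat.mul_le_mul_left _ (by omega)
  omega

theorem w22 (h : 24 * (m + 1) < K) (h1 : (m + 1) * g ≤ K)
    (h2 : K < (m + 1) * g + (m + 1)) (hg : 24 ≤ g) (h3 : 3 * g ≤ K) (hcg : c + 3 = g) :
    W K (2 * m + 1) (2 * m + 3) 2 2 := by
  refine W_R2 (i := K - c - 2) (j := c + 2) (by omega) (by omega) (by omega)
    fun a b ha hb => ?_
  by_cases c1 : m + 2 ≤ 2 + a
  · left
    have e : 2 + (K - c - 2) = K - c := by omega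
    rw [e]
    exact big h h1 h2 hg h3 hcg _ c1
  by_cases c2 : a + b + 1 ≤ m
  · right; right
    have e : K - c - 2 + (c + 2) = K := by omega
    rw [e]
    exact bot c2
  right; left
  have e : 2 + (c + 2) = c + 4 := by omega
  rw [e]
  exact mid h h1 h2 hg h3 hcg _ (by omega)

end

/-- From `W 2 2` to everything. -/
theorem down {K m : ℕ} (hm : 1 ≤ m) (hK : 2 ≤ K) (w : W K (2 * m + 1) (2 * m + 3) 2 2) :
    ∀ n, n ≤ K → W K (2 * m + 1) (2 * m + 3) (K - n) 0 := by
  intro n
  induction n with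
  | zero =>
    intro _
    exact bot (by omega)
  | succ n ih =>
    intro hn
    have h1 := ih (by omega)
    refine W_R2 (i := 1) (j := 1) (by omega) (by omega) (by omega) fun a b ha hb => ?_
    rw [show K - (n + 1) + 1 = K - n by omega]
    by_cases h2 : a = 0
    · left
      subst h2
      exact h1
    by_cases h3 : b = 0
    · right; left
      subst h3
      exact h1
    right; right
    have e1 : a = 1 := by omega
    have e2 : b = 1 := by omega
    subst e1 e2
    exact w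

/-- Three red edges among about `K / 2 + 2` edges, `m = 1`. -/
theorem one {K c t : ℕ} (hK : 31 ≤ K) (ht : 2 * c + t = K) (ht5 : t ≤ 5) (p : ℕ)
    (hp : 3 ≤ p) : W K (2 * 1 + 1) (2 * 1 + 3) (K - c) p := by
  rcases Nat.eq_or_lt_of_le hp with he | hlt
  · rw [← he]
    refine MG.mainG (c := c) (t := t) (by omega) (by omega) (by omega) (by omega) ?_
      fun p hp => ?_
    · rw [ht]
      exact bot (by omega)
    · refine hi (by omega) ?_
      have e : K * 3 ≤ K * p := Nat.mul_le_mul_left _ hp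
      omega
  · exact top (by omega) (by omega)

theorem w22_one {K : ℕ} (hK : 31 ≤ K) : W K (2 * 1 + 1) (2 * 1 + 3) 2 2 := by
  obtain ⟨c, hc⟩ : ∃ c, c + 2 = K / 2 := ⟨K / 2 - 2, by omega⟩
  refine W_R2 (i := K - c - 2) (j := c + 2) (by omega) (by omega) (by omega)
    fun a b ha hb => ?_
  by_cases c1 : 1 ≤ a
  · left
    have e : 2 + (K - c - 2) = K - c := by omega
    rw [e]
    exact one (t := K - 2 * c) hK (by omega) (by omega) _ (by omega)
  by_cases c2 : 1 ≤ b
  · right; left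
    have e : 2 + (c + 2) = K - (K - c - 4) := by omega
    rw [e]
    exact one (t := K - 2 * (K - c - 4)) hK (by omega) (by omega) _ (by omega)
  right; right
  have e : K - c - 2 + (c + 2) = K := by omega
  rw [e]
  exact bot (by omega)

/-- **Everything is killable.** -/
theorem w00 {K m : ℕ} (hm : 1 ≤ m) (h : 24 * (m + 1) < K) : W K (2 * m + 1) (2 * m + 3) 0 0 := by
  have w : W K (2 * m + 1) (2 * m + 3) 2 2 := by
    rcases Nat.eq_or_lt_of_le hm with he | hlt
    · rw [← he]
      exact w22_one (by omega)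
    · have h1 : (m + 1) * (K / (m + 1)) ≤ K := Nat.mul_div_le K (m + 1)
      have h2 : K < (m + 1) * (K / (m + 1)) + (m + 1) := Nat.lt_mul_div_succ K (by omega)
      have hg : 24 ≤ K / (m + 1) := (Nat.le_div_iff_mul_le (by omega)).2 (by omega)
      have h3 : 3 * (K / (m + 1)) ≤ K := (Nat.mul_le_mul_right _ (by omega)).trans h1
      obtain ⟨c, hc⟩ : ∃ c, c + 3 = K / (m + 1) := ⟨K / (m + 1) - 3, by omega⟩
      exact w22 (c := c) h h1 h2 hg h3 hc
  have := down hm (by omega) w K le_rfl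
  rwa [Nat.sub_self] at this

open Finset in
/-- **DeVos's value `a + b + 2` is not enough:** two classes with odd sums `a ≥ 3` and
`b > 23 a + 22`. -/
theorem not_arrow {r : ℕ} (ks : Fin r → ℕ) (J : Finset (Fin r)) (ha : Odd (∑ i ∈ J, ks i))
    (ha3 : 3 ≤ ∑ i ∈ J, ks i) (hb : Odd (∑ i ∈ Jᶜ, ks i))
    (hab : 23 * ∑ i ∈ J, ks i + 22 < ∑ i ∈ Jᶜ, ks i) : ¬ Arrow (∑ i, ks i + 2) ks := by
  obtain ⟨m, hm⟩ := ha
  obtain ⟨n, hn⟩ := hb
  have hsum : ∑ i ∈ J, ks i + ∑ i ∈ Jᶜ, ks i = ∑ i, ks i := sum_add_sum_compl _ _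
  have e : ∑ i, ks i + 2 = 2 * (m + n + 2) := by omega
  rw [e]
  refine not_arrow_of_W (K := m + n + 2) (l := 2 * m + 1) (u := 2 * m + 3) (l' := 2 * n + 1)
    (by omega) (by omega) (w00 (by omega) (by omega)) ks J hm hn

end Pool.Agent.Lib.MP_21a058_co.Slack3.EndG
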