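import Pool.Agent.Lib.MP_21a058_co.Slack3.MainX
import Pool.Agent.Lib.MP_21a058_co.Slack3.EndG

/-! Two classes with odd sums `a < b` that are nearly equal, `b = a + 4 d` with `28 d ≤ a`:
everything is killable. -/

set_option autoImplicit false

namespace Pool.Agent.Lib.MP_21a058_co.Slack3.Bal93

open Pool.Agent.Lib.MP_21a058_co.Slack3
open Pool.Agent.Lib.MP_21a058_co.Slack3.Gen (top bot)
open Pool.Agent.Lib.MP_21a058_co.Slack3.EndG (hi)

section
variable {H d m : ℕ}

theorem chain {i s : ℕ} (hm : m + 1 = H + d) (hK : 30 * d < 2 * H) (hd : 1 ≤ d)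
    (hs : 2 * s = i + d) (h1 : H ≤ i + 1) (h2 : i ≤ H + 1) :
    W (2 * H) (2 * m + 1) (2 * m + 3) (4 + i) (4 + s) := by
  obtain ⟨c, hc⟩ : ∃ c, c + (4 + i) = 2 * H := ⟨2 * H - (4 + i), by omega⟩
  obtain ⟨t, ht⟩ : ∃ t, t + 2 * H = 8 + 2 * i := ⟨8 + 2 * i - 2 * H, by omega⟩
  obtain ⟨a, ha⟩ : ∃ a, a + (4 + s) = m + 2 := ⟨m + 2 - (4 + s), by omega⟩
  obtain ⟨z, hz⟩ : ∃ z, z + H = i + 5 := ⟨i + 5 - H, by omega⟩
  refine MX.mainX (c := c) (t := t) (a := a) (z := z) (by omega) hc (by omega) (by omega)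
    (fun p hp => ?_) fun p hp => ?_
  · have e : 2 * c + t = 2 * H := by omega
    rw [e]
    exact bot (by omega)
  · refine hi (by omega) ?_
    rw [hm]
    have h3 : z = 4 ∨ z = 5 ∨ z = 6 := by omega
    rcases h3 with rfl | rfl | rfl
    · have e : t = 6 := by omega
      subst e
      have e1 : 2 * H * (3 * 4) ≤ 2 * H * p := Nat.mul_le_mul_left _ hp
      omega
    · have e : t = 8 := by omega
      subst e
      have e1 : 2 * H * (3 * 5) ≤ 2 * H * p := Nat.mul_le_mul_left _ hp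
      omega
    · have e : t = 10 := by omega
      subst e
      have e1 : 2 * H * (3 * 6) ≤ 2 * H * p := Nat.mul_le_mul_left _ hp
      omega

theorem big {i s a : ℕ} (hm : m + 1 = H + d) (hK : 30 * d < 2 * H) (hd : 1 ≤ d)
    (hs : 2 * s = i + d) (h1 : H ≤ i + 1) (h2 : i ≤ H + 1) (ha : s ≤ a) :
    W (2 * H) (2 * m + 1) (2 * m + 3) (4 + i) (4 + a) := by
  rcases Nat.eq_or_lt_of_le ha with he | hlt
  · rw [← he]
    exact chain hm hK hd hs h1 h2
  · refine hi (by omega) ?_
    rw [hm]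
    have e1 : H * (s + 1) ≤ H * a := Nat.mul_le_mul_left _ hlt
    have e2 : H * (2 * s) = H * (i + d) := by rw [hs]
    have e3 : d * i ≤ d * (H + 1) := Nat.mul_le_mul_left _ h2
    nlinarith

theorem w44 (hm : m + 1 = H + d) (hK : 30 * d < 2 * H) (hd : 1 ≤ d) :
    W (2 * H) (2 * m + 1) (2 * m + 3) 4 4 := by
  obtain ⟨i, j, s, s', hij, hs, hs', h1, h2, h3, h4⟩ : ∃ i j s s', i + j = 2 * H ∧
      2 * s = i + d ∧ 2 * s' = j + d ∧ H ≤ i + 1 ∧ i ≤ H + 1 ∧ H ≤ j + 1 ∧ j ≤ H + 1 := by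
    rcases Nat.even_or_odd' (H + d) with ⟨k, hk | hk⟩
    · exact ⟨H, H, k, k, by omega, by omega, by omega, by omega, by omega, by omega, by omega⟩
    · exact ⟨H + 1, H - 1, k + 1, k, by omega, by omega, by omega, by omega, by omega, by omega,
        by omega⟩
  refine W_R2 (i := i) (j := j) (by omega) (by omega) (by omega) fun a b ha hb => ?_
  by_cases c1 : s ≤ a
  · exact Or.inl (big hm hK hd hs h1 h2 c1)
  by_cases c2 : s' ≤ b
  · exact Or.inr (Or.inl (big hm hK hd hs' h3 h4 c2))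
  right; right
  rw [hij]
  exact bot (by omega)

theorem ev (hm : m + 1 = H + d) (hK : 30 * d < 2 * H) (hd : 1 ≤ d) :
    ∀ n L, L + 2 * n = 2 * H → ∀ p, 2 * p + 2 < L + 2 * d →
      W (2 * H) (2 * m + 1) (2 * m + 3) L p := by
  intro n
  induction n with
  | zero =>
    intro L hL p hp
    have e : L = 2 * H := by omega
    rw [e]
    exact bot (by omega)
  | succ n ih =>
    intro L hL p hp
    refine W_R2 (i := 2) (j := 2) (by omega) (by omega) (by omega) fun a b ha hb => ?_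
    by_cases c1 : 2 * (p + a) + 2 < L + 2 + 2 * d
    · exact Or.inl (ih (L + 2) (by omega) _ c1)
    by_cases c2 : 2 * (p + b) + 2 < L + 2 + 2 * d
    · exact Or.inr (Or.inl (ih (L + 2) (by omega) _ c2))
    right; right
    have e1 : a = 2 := by omega
    have e2 : b = 2 := by omega
    subst e1 e2
    exact w44 hm hK hd

theorem allred (hm : m + 1 = H + d) (hK : 30 * d < 2 * H) (hd : 1 ≤ d) :
    ∀ n, n ≤ 2 * H → W (2 * H) (2 * m + 1) (2 * m + 3) (2 * H - n) (2 * H - n) := by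
  intro n
  induction n with
  | zero =>
    intro _
    exact top (by omega) (by omega)
  | succ n ih =>
    intro hn
    have h1 := ih (by omega)
    have e : 2 * H - (n + 1) + 1 = 2 * H - n := by omega
    refine W_R2 (i := 1) (j := 1) (by omega) (by omega) (by omega) fun a b ha hb => ?_
    by_cases h2 : a = 1
    · left
      subst h2
      rw [e]
      exact h1
    by_cases h3 : b = 1
    · right; left
      subst h3
      rw [e]
      exact h1
    right; right
    have e1 : a = 0 := by omega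
    have e2 : b = 0 := by omega
    subst e1 e2
    exact ev hm hK hd (H - 1) 2 (by omega) 0 (by omega)

/-- **Everything is killable.** -/
theorem w00 (hm : m + 1 = H + d) (hK : 30 * d < 2 * H) (hd : 1 ≤ d) :
    W (2 * H) (2 * m + 1) (2 * m + 3) 0 0 := by
  have := allred hm hK hd (2 * H) le_rfl
  rwa [Nat.sub_self] at this

end

open Finset in
/-- Two nearly equal classes with odd sums `a < b`, `b = a + 4 d`, `28 d ≤ a`. -/
theorem not_arrow {a d r : ℕ} (ks : Fin r → ℕ) (J : Finset (Fin r)) (ha : Odd a) (hd : 1 ≤ d)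
    (had : 28 * d ≤ a) (hJ : ∑ i ∈ J, ks i = a + 4 * d) (hJ' : ∑ i ∈ Jᶜ, ks i = a) :
    ¬ Arrow (2 * a + 4 * d + 2) ks := by
  obtain ⟨n, hn⟩ := ha
  have e : 2 * a + 4 * d + 2 = 2 * (2 * (n + 1 + d)) := by omega
  rw [e]
  exact not_arrow_of_W (K := 2 * (n + 1 + d)) (l := 2 * (n + 2 * d) + 1)
    (u := 2 * (n + 2 * d) + 3) (l' := a)
    (by omega) (by omega) (w00 (H := n + 1 + d) (d := d) (m := n + 2 * d) (by omega) (by omega) hd)
    ks J (by omega) hJ'

end Pool.Agent.Lib.MP_21a058_co.Slack3.Bal93
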