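import Pool.Agent.Lib.MP_21a058_co.Slack3.Rule5

/-! The base values at level `h`: the edges of the vertex 1. -/

set_option autoImplicit false

namespace Pool.Agent.Lib.MP_21a058_co.Slack3.PP

open Pool.Agent.Lib.MP_21a058_co.Odd (red red_sum red_equiv red_le)

def eB (F R J X : Type) : F ⊕ (R ⊕ (J ⊕ X)) ≃ (F ⊕ R) ⊕ (J ⊕ X) where
  toFun p := match p with
    | Sum.inl f => Sum.inl (Sum.inl f)
    | Sum.inr (Sum.inl r) => Sum.inl (Sum.inr r)
    | Sum.inr (Sum.inr j) => Sum.inr j
  invFun p := match p with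
    | Sum.inl (Sum.inl f) => Sum.inl f
    | Sum.inl (Sum.inr r) => Sum.inr (Sum.inl r)
    | Sum.inr j => Sum.inr (Sum.inr j)
  left_inv := by rintro (f | (r | j)) <;> rfl
  right_inv := by rintro ((f | r) | j) <;> rfl

theorem baseH {h l u L p : ℕ} (hh : 1 ≤ h) (hL : L ≤ h)
    (hb : 2 * u < 2 * p + l ∨ 2 * (p + (h - L)) + u + 1 < 2 * l) : W3 h l u L p := by
  intro F R _ _ hF hR T hT
  have k0 : Kill3 h l u (F ⊕ (Fin (h - L) ⊕ (Fin 1 ⊕ Fin h))) {x | (fun f => x (Sum.inl f)) ∈ T} := by
    refine kill3_rest ?_ hT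
    simp only [Nat.card_sum, Nat.card_fin]
    omega
  have k1 := (k0.transport (eB F (Fin (h - L)) (Fin 1) (Fin h))).addBase
  have kn : Kill3 h l u (F ⊕ (Fin (h - L) ⊕ (Fin 1 ⊕ Fin h)))
      {x | (fun f => x (Sum.inl f)) ∈ {y : F → Bool | y ∈ T ∨ red y = p}} := by
    refine Kill3.node _ (F ⊕ Fin (h - L)) (Fin 1) (Fin h) (Fin h) (Fin 1) (Fin h) 1 le_rfl hh
      ?_ (Nat.card_fin _) (Nat.card_fin _) (Nat.card_fin _) (Nat.card_fin _) (Nat.card_fin _)
      (eB F (Fin (h - L)) (Fin 1) (Fin h)) _ _ _ _ k1 (Kill3.empty h l u _) (Kill3.empty h l u _) ?_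
    · rw [Nat.card_sum, Nat.card_fin, hF]; omega
    · intro x hx
      by_cases hr : red x < l ∨ u < red x
      · exact Or.inl hr
      right
      intro n1 n2 n3
      rcases hx with hx | hx
      · exact Or.inl (Or.inl hx)
      by_contra hcon
      have g1 := fun hq => hcon (Or.inl (Or.inr hq))
      have g45 := fun hq => hcon (Or.inr (Or.inr (Or.inr hq)))
      have g4 := Nat.not_lt.mp fun hq => g45 (Or.inl hq)
      have g5 := Nat.not_lt.mp fun hq => g45 (Or.inr hq)
      have s1 : red (fun f => x (Sum.inl f)) + red (fun r => x (Sum.inr (Sum.inl r))) =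
          red (fun f => (Sum.elim (fun j => x ((eB F (Fin (h - L)) (Fin 1) (Fin h)).symm
            (Sum.inl j))) (Sum.elim n2 n3) : (F ⊕ Fin (h - L)) ⊕ (Fin 1 ⊕ Fin h) → Bool)
            (Sum.inl f)) := by
        rw [red_sum]
        rfl
      have E1 : red x = (red (fun f => x (Sum.inl f)) + red (fun r => x (Sum.inr (Sum.inl r)))) +
          red (fun j => x (Sum.inr (Sum.inr j))) := by
        rw [red_sum x, red_sum (fun s => x (Sum.inr s))]
        omega
      have E2 : red (Sum.elim (fun j => x ((eB F (Fin (h - L)) (Fin 1) (Fin h)).symm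
            (Sum.inl j))) (Sum.elim n2 n3)) =
          (red (fun f => x (Sum.inl f)) + red (fun r => x (Sum.inr (Sum.inl r)))) +
            (red n2 + red n3) := by
        rw [red_sum, s1, red_sum (fun s => (Sum.elim (fun j => x ((eB F (Fin (h - L)) (Fin 1)
          (Fin h)).symm (Sum.inl j))) (Sum.elim n2 n3) :
            (F ⊕ Fin (h - L)) ⊕ (Fin 1 ⊕ Fin h) → Bool) (Sum.inr s))]
        rfl
      have g1' : ¬ ((red (fun f => x (Sum.inl f)) + red (fun r => x (Sum.inr (Sum.inl r)))) +
            (red n2 + red n3) < l ∨ u < (red (fun f => x (Sum.inl f)) +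
              red (fun r => x (Sum.inr (Sum.inl r)))) + (red n2 + red n3)) := by
        intro hq
        refine g1 ?_
        rcases hq with hq | hq
        · exact Or.inl (E2.trans_lt hq)
        · exact Or.inr (Nat.lt_of_lt_of_eq hq E2.symm)
      have e3 : red (fun r => x (Sum.inr (Sum.inl r))) ≤ h - L := by
        have := red_le (fun r => x (Sum.inr (Sum.inl r)))
        rwa [Nat.card_fin] at this
      have e5 : red (fun f => x (Sum.inl f)) = p := hx
      have e6 : red (fun j => x ((eB F (Fin (h - L)) (Fin 1) (Fin h)).symm (Sum.inr j))) =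
          red (fun j => x (Sum.inr (Sum.inr j))) := rfl
      rw [e6] at g4 g5
      omega
  refine kill3_rest ?_ kn
  simp only [Nat.card_sum, Nat.card_fin]
  omega

end Pool.Agent.Lib.MP_21a058_co.Slack3.PP
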