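import Pool.Agent.Lib.MP_21a058_co.Slack3.Arith

/-! Window `3 ≤ red ≤ 5`, even `K ≥ 24`: three red edges among `K / 2 + 2` edges which stay alive
are refutable. -/

set_option autoImplicit false

namespace Pool.Agent.Lib.MP_21a058_co.Slack3

open Pool.Agent.Lib.MP_21a058_co.Odd (red red_sum red_equiv red_le)

/-- The node rule. -/
theorem nd {K l u : ℕ} {J1 J2 N : Type} [Finite J1] [Finite J2] [Finite N]
    (h1 : Nat.card J1 = K) (h2 : Nat.card J2 = K) (hN : Nat.card N = K)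
    {A1 : Set (J1 ⊕ N → Bool)} {A2 : Set (J2 ⊕ N → Bool)} {A : Set (J1 ⊕ J2 → Bool)}
    (k1 : Kill K l u (J1 ⊕ N) A1) (k2 : Kill K l u (J2 ⊕ N) A2)
    (h : ∀ (x1 : J1 → Bool) (x2 : J2 → Bool) (n : N → Bool), Sum.elim x1 x2 ∈ A →
      l ≤ red x1 + red x2 → red x1 + red x2 ≤ u → l ≤ red x1 + red n → red x1 + red n ≤ u →
      l ≤ red x2 + red n → red x2 + red n ≤ u → Sum.elim x1 n ∈ A1 ∨ Sum.elim x2 n ∈ A2) :
    Kill K l u (J1 ⊕ J2) A := by
  have hc : Nat.card N = Nat.card (Fin K) := by rw [hN, Nat.card_fin]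
  obtain ⟨e⟩ := Finite.card_eq.mp hc
  have k1' := k1.addBase.transport (Equiv.sumCongr (Equiv.refl J1) e)
  have k2' := k2.addBase.transport (Equiv.sumCongr (Equiv.refl J2) e)
  refine Kill.node _ J1 J2 h1 h2 (Equiv.refl _) _ _ A k1' k2' fun x hx => ?_
  by_cases hb : red x < l ∨ u < red x
  · exact Or.inl hb
  right
  intro n
  have hx0 : Sum.elim (fun j => x (Sum.inl j)) (fun j => x (Sum.inr j)) = x := by
    funext i
    rcases i with i | i <;> rfl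
  have r0 := red_sum x
  have e1 : (fun i => (Sum.elim (fun j => x ((Equiv.refl (J1 ⊕ J2)).symm (Sum.inl j))) n :
      J1 ⊕ Fin K → Bool) ((Equiv.sumCongr (Equiv.refl J1) e) i)) =
      Sum.elim (fun j => x (Sum.inl j)) (fun a => n (e a)) := by
    funext i
    rcases i with i | i <;> rfl
  have e2 : (fun i => (Sum.elim (fun j => x ((Equiv.refl (J1 ⊕ J2)).symm (Sum.inr j))) n :
      J2 ⊕ Fin K → Bool) ((Equiv.sumCongr (Equiv.refl J2) e) i)) =
      Sum.elim (fun j => x (Sum.inr j)) (fun a => n (e a)) := by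
    funext i
    rcases i with i | i <;> rfl
  have r1 : red (Sum.elim (fun j => x (Sum.inl j)) (fun a => n (e a)) : J1 ⊕ N → Bool) =
      red (fun j => x (Sum.inl j)) + red (fun a => n (e a)) := by
    rw [red_sum]
    rfl
  have r2 : red (Sum.elim (fun j => x (Sum.inr j)) (fun a => n (e a)) : J2 ⊕ N → Bool) =
      red (fun j => x (Sum.inr j)) + red (fun a => n (e a)) := by
    rw [red_sum]
    rfl
  show (fun i => (Sum.elim (fun j => x ((Equiv.refl (J1 ⊕ J2)).symm (Sum.inl j))) n :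
      J1 ⊕ Fin K → Bool) ((Equiv.sumCongr (Equiv.refl J1) e) i)) ∈
      {y | y ∈ A1 ∨ (red y < l ∨ u < red y)} ∨
    (fun i => (Sum.elim (fun j => x ((Equiv.refl (J1 ⊕ J2)).symm (Sum.inr j))) n :
      J2 ⊕ Fin K → Bool) ((Equiv.sumCongr (Equiv.refl J2) e) i)) ∈
      {y | y ∈ A2 ∨ (red y < l ∨ u < red y)}
  rw [e1, e2]
  by_cases b1 : red (fun j => x (Sum.inl j)) + red (fun a => n (e a)) < l ∨
      u < red (fun j => x (Sum.inl j)) + red (fun a => n (e a))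
  · left; right
    rw [r1]
    exact b1
  by_cases b2 : red (fun j => x (Sum.inr j)) + red (fun a => n (e a)) < l ∨
      u < red (fun j => x (Sum.inr j)) + red (fun a => n (e a))
  · right; right
    rw [r2]
    exact b2
  rw [← hx0] at hx
  rcases h (fun j => x (Sum.inl j)) (fun j => x (Sum.inr j)) (fun a => n (e a)) hx (by omega)
    (by omega) (by omega) (by omega) (by omega) (by omega) with h3 | h3
  · exact Or.inl (Or.inl h3)
  · exact Or.inr (Or.inl h3)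

/-- one split: the half `J1` is not all blue -/
theorem split_blue {K : ℕ} {J1 J2 : Type} [Finite J1] [Finite J2] (h1 : Nat.card J1 = K)
    (h2 : Nat.card J2 = K) : Kill K 3 5 (J1 ⊕ J2) {x | red (fun j => x (Sum.inl j)) = 0} := by
  refine nd h1 h2 (Nat.card_fin K) (Kill.empty K 3 5 _) (Kill.empty K 3 5 _)
    fun x1 x2 n hA a1 a2 a3 a4 a5 a6 => ?_
  exfalso
  have hA' : red x1 = 0 := hA
  omega

/-- One vertex of the chain: `M ⊕ C'` goes on, `C ⊕ Q` is split off. -/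
theorem step {K : ℕ} {M C C' Q N : Type} [Finite M] [Finite C] [Finite C'] [Finite Q] [Finite N]
    (hM : Nat.card M + Nat.card C' = K) (hQ : Nat.card C + Nat.card Q = K) (hN : Nat.card N = K)
    {T : Set (M → Bool)} {P1 : (C' → Bool) → (N → Bool) → Prop}
    {P2 : (C → Bool) → (Q → Bool) → (N → Bool) → Prop} (P : (C → Bool) → (Q → Bool) → Prop)
    (k1 : Kill K 3 5 ((M ⊕ C') ⊕ N) {x | (fun m => x (Sum.inl (Sum.inl m))) ∈ T ∨
      (red (fun m => x (Sum.inl (Sum.inl m))) = 3 ∧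
        P1 (fun c => x (Sum.inl (Sum.inr c))) (fun a => x (Sum.inr a)))})
    (k2 : Kill K 3 5 ((C ⊕ Q) ⊕ N) {x | P2 (fun c => x (Sum.inl (Sum.inl c)))
      (fun q => x (Sum.inl (Sum.inr q))) (fun a => x (Sum.inr a))})
    (h : ∀ c c' q n, red c' = 0 → P c q → P1 c' n ∨ P2 c q n) :
    Kill K 3 5 ((M ⊕ C) ⊕ (C' ⊕ Q)) {x | (fun m => x (Sum.inl (Sum.inl m))) ∈ T ∨
      (red (fun m => x (Sum.inl (Sum.inl m))) = 3 ∧ (1 ≤ red (fun c => x (Sum.inr (Sum.inl c))) ∨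
        P (fun c => x (Sum.inl (Sum.inr c))) (fun q => x (Sum.inr (Sum.inr q)))))} := by
  have kn : Kill K 3 5 ((M ⊕ C') ⊕ (C ⊕ Q)) {x | (fun m => x (Sum.inl (Sum.inl m))) ∈ T ∨
      (red (fun m => x (Sum.inl (Sum.inl m))) = 3 ∧ (1 ≤ red (fun c => x (Sum.inl (Sum.inr c))) ∨
        P (fun c => x (Sum.inr (Sum.inl c))) (fun q => x (Sum.inr (Sum.inr q)))))} := by
    refine nd (by rw [Nat.card_sum]; exact hM) (by rw [Nat.card_sum]; exact hQ) hN k1 k2
      fun x1 x2 n hA a1 a2 a3 a4 a5 a6 => ?_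
    have hA' : (fun m => x1 (Sum.inl m)) ∈ T ∨ (red (fun m => x1 (Sum.inl m)) = 3 ∧
        (1 ≤ red (fun c => x1 (Sum.inr c)) ∨
          P (fun c => x2 (Sum.inl c)) (fun q => x2 (Sum.inr q)))) := hA
    have g1 := red_sum x1
    rcases hA' with hA' | ⟨hA1, hA2⟩
    · left; left
      exact hA'
    · have hz : red (fun c => x1 (Sum.inr c)) = 0 := by omega
      have hP : P (fun c => x2 (Sum.inl c)) (fun q => x2 (Sum.inr q)) := by
        rcases hA2 with hA2 | hA2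
        · omega
        · exact hA2
      rcases h _ _ _ n hz hP with h3 | h3
      · left; right
        exact ⟨hA1, h3⟩
      · right
        exact h3
  exact kn.transport (Equiv.sumSumSumComm M C' C Q)

/-- the bundle of `w_1` -/
def eW1 (A B C D E : Type) : (A ⊕ (C ⊕ D)) ⊕ (B ⊕ E) ≃ (A ⊕ B) ⊕ (C ⊕ (D ⊕ E)) where
  toFun p := match p with
    | Sum.inl (Sum.inl a) => Sum.inl (Sum.inl a)
    | Sum.inl (Sum.inr (Sum.inl c)) => Sum.inr (Sum.inl c)
    | Sum.inl (Sum.inr (Sum.inr d)) => Sum.inr (Sum.inr (Sum.inl d))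
    | Sum.inr (Sum.inl b) => Sum.inl (Sum.inr b)
    | Sum.inr (Sum.inr e) => Sum.inr (Sum.inr (Sum.inr e))
  invFun p := match p with
    | Sum.inl (Sum.inl a) => Sum.inl (Sum.inl a)
    | Sum.inr (Sum.inl c) => Sum.inl (Sum.inr (Sum.inl c))
    | Sum.inr (Sum.inr (Sum.inl d)) => Sum.inl (Sum.inr (Sum.inr d))
    | Sum.inl (Sum.inr b) => Sum.inr (Sum.inl b)
    | Sum.inr (Sum.inr (Sum.inr e)) => Sum.inr (Sum.inr e)
  left_inv := by rintro ((a | (c | d)) | (b | e)) <;> rfl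
  right_inv := by rintro ((a | b) | (c | (d | e))) <;> rfl

/-- the bundle of `w_3` -/
def eW3 (A B C D E : Type) : (A ⊕ (D ⊕ C)) ⊕ (E ⊕ B) ≃ (A ⊕ (D ⊕ E)) ⊕ (C ⊕ B) where
  toFun p := match p with
    | Sum.inl (Sum.inl a) => Sum.inl (Sum.inl a)
    | Sum.inl (Sum.inr (Sum.inl d)) => Sum.inl (Sum.inr (Sum.inl d))
    | Sum.inl (Sum.inr (Sum.inr c)) => Sum.inr (Sum.inl c)
    | Sum.inr (Sum.inl e) => Sum.inl (Sum.inr (Sum.inr e))
    | Sum.inr (Sum.inr b) => Sum.inr (Sum.inr b)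
  invFun p := match p with
    | Sum.inl (Sum.inl a) => Sum.inl (Sum.inl a)
    | Sum.inl (Sum.inr (Sum.inl d)) => Sum.inl (Sum.inr (Sum.inl d))
    | Sum.inr (Sum.inl c) => Sum.inl (Sum.inr (Sum.inr c))
    | Sum.inl (Sum.inr (Sum.inr e)) => Sum.inr (Sum.inl e)
    | Sum.inr (Sum.inr b) => Sum.inr (Sum.inr b)
  left_inv := by rintro ((a | (d | c)) | (e | b)) <;> rfl
  right_inv := by rintro ((a | (d | e)) | (c | b)) <;> rfl

theorem kW1 {K : ℕ} {A B C D E : Type} [Finite A] [Finite B] [Finite C] [Finite D] [Finite E]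
    (h1 : Nat.card A + (Nat.card C + Nat.card D) = K) (h2 : Nat.card B + Nat.card E = K) :
    Kill K 3 5 ((A ⊕ B) ⊕ (C ⊕ (D ⊕ E))) {x | red (fun a => x (Sum.inl (Sum.inl a))) = 0 ∧
      red (fun c => x (Sum.inr (Sum.inl c))) = 0 ∧
      red (fun d => x (Sum.inr (Sum.inr (Sum.inl d)))) = 0} := by
  have k := (split_blue (K := K) (J1 := A ⊕ (C ⊕ D)) (J2 := B ⊕ E)
    (by rw [Nat.card_sum, Nat.card_sum]; exact h1) (by rw [Nat.card_sum]; exact h2)).transport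
    (eW1 A B C D E)
  refine k.mono ?_
  rintro x ⟨g1, g2, g3⟩
  show red (fun j : A ⊕ (C ⊕ D) => x (eW1 A B C D E (Sum.inl j))) = 0
  rw [red_sum, red_sum (fun j : C ⊕ D => x (eW1 A B C D E (Sum.inl (Sum.inr j))))]
  have e1 : red (fun a : A => x (eW1 A B C D E (Sum.inl (Sum.inl a)))) = 0 := g1
  have e2 : red (fun c : C => x (eW1 A B C D E (Sum.inl (Sum.inr (Sum.inl c))))) = 0 := g2
  have e3 : red (fun d : D => x (eW1 A B C D E (Sum.inl (Sum.inr (Sum.inr d))))) = 0 := g3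
  omega

theorem kW3 {K : ℕ} {A B C D E : Type} [Finite A] [Finite B] [Finite C] [Finite D] [Finite E]
    (h1 : Nat.card A + (Nat.card D + Nat.card C) = K) (h2 : Nat.card E + Nat.card B = K) :
    Kill K 3 5 ((A ⊕ (D ⊕ E)) ⊕ (C ⊕ B)) {x | red (fun a => x (Sum.inl (Sum.inl a))) = 0 ∧
      red (fun d => x (Sum.inl (Sum.inr (Sum.inl d)))) = 0 ∧
      red (fun c => x (Sum.inr (Sum.inl c))) = 0} := by
  have k := (split_blue (K := K) (J1 := A ⊕ (D ⊕ C)) (J2 := E ⊕ B)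
    (by rw [Nat.card_sum, Nat.card_sum]; exact h1) (by rw [Nat.card_sum]; exact h2)).transport
    (eW3 A B C D E)
  refine k.mono ?_
  rintro x ⟨g1, g2, g3⟩
  show red (fun j : A ⊕ (D ⊕ C) => x (eW3 A B C D E (Sum.inl j))) = 0
  rw [red_sum, red_sum (fun j : D ⊕ C => x (eW3 A B C D E (Sum.inl (Sum.inr j))))]
  have e1 : red (fun a : A => x (eW3 A B C D E (Sum.inl (Sum.inl a)))) = 0 := g1
  have e2 : red (fun c : D => x (eW3 A B C D E (Sum.inl (Sum.inr (Sum.inl c))))) = 0 := g2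
  have e3 : red (fun d : C => x (eW3 A B C D E (Sum.inl (Sum.inr (Sum.inr d))))) = 0 := g3
  omega

/-- the bundle of `w_2`: `Y`, `Z` in `Q_1`, `Z'` in `Q_2` -/
def eW2 (A B Y Z Z' R R' : Type) :
    (A ⊕ (B ⊕ Y)) ⊕ ((Z ⊕ Z') ⊕ (R ⊕ R')) ≃ (A ⊕ (Z ⊕ (Y ⊕ R))) ⊕ (B ⊕ (Z' ⊕ R')) where
  toFun p := match p with
    | Sum.inl (Sum.inl a) => Sum.inl (Sum.inl a)
    | Sum.inl (Sum.inr (Sum.inl b)) => Sum.inr (Sum.inl b)
    | Sum.inl (Sum.inr (Sum.inr y)) => Sum.inl (Sum.inr (Sum.inr (Sum.inl y)))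
    | Sum.inr (Sum.inl (Sum.inl z)) => Sum.inl (Sum.inr (Sum.inl z))
    | Sum.inr (Sum.inl (Sum.inr z)) => Sum.inr (Sum.inr (Sum.inl z))
    | Sum.inr (Sum.inr (Sum.inl r)) => Sum.inl (Sum.inr (Sum.inr (Sum.inr r)))
    | Sum.inr (Sum.inr (Sum.inr r)) => Sum.inr (Sum.inr (Sum.inr r))
  invFun p := match p with
    | Sum.inl (Sum.inl a) => Sum.inl (Sum.inl a)
    | Sum.inr (Sum.inl b) => Sum.inl (Sum.inr (Sum.inl b))
    | Sum.inl (Sum.inr (Sum.inr (Sum.inl y))) => Sum.inl (Sum.inr (Sum.inr y))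
    | Sum.inl (Sum.inr (Sum.inl z)) => Sum.inr (Sum.inl (Sum.inl z))
    | Sum.inr (Sum.inr (Sum.inl z)) => Sum.inr (Sum.inl (Sum.inr z))
    | Sum.inl (Sum.inr (Sum.inr (Sum.inr r))) => Sum.inr (Sum.inr (Sum.inl r))
    | Sum.inr (Sum.inr (Sum.inr r)) => Sum.inr (Sum.inr (Sum.inr r))
  left_inv := by rintro ((a | (b | y)) | ((z | z) | (r | r))) <;> rfl
  right_inv := by rintro ((a | (z | (y | r))) | (b | (z | r))) <;> rfl

/-- the bundle of `u_1` -/
def eU1 (A B Y P P' : Type) : (A ⊕ (B ⊕ P)) ⊕ (Y ⊕ P') ≃ (A ⊕ (B ⊕ Y)) ⊕ (P ⊕ P') where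
  toFun p := match p with
    | Sum.inl (Sum.inl a) => Sum.inl (Sum.inl a)
    | Sum.inl (Sum.inr (Sum.inl b)) => Sum.inl (Sum.inr (Sum.inl b))
    | Sum.inl (Sum.inr (Sum.inr p)) => Sum.inr (Sum.inl p)
    | Sum.inr (Sum.inl y) => Sum.inl (Sum.inr (Sum.inr y))
    | Sum.inr (Sum.inr p) => Sum.inr (Sum.inr p)
  invFun p := match p with
    | Sum.inl (Sum.inl a) => Sum.inl (Sum.inl a)
    | Sum.inl (Sum.inr (Sum.inl b)) => Sum.inl (Sum.inr (Sum.inl b))
    | Sum.inr (Sum.inl p) => Sum.inl (Sum.inr (Sum.inr p))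
    | Sum.inl (Sum.inr (Sum.inr y)) => Sum.inr (Sum.inl y)
    | Sum.inr (Sum.inr p) => Sum.inr (Sum.inr p)
  left_inv := by rintro ((a | (b | p)) | (y | p)) <;> rfl
  right_inv := by rintro ((a | (b | y)) | (p | p)) <;> rfl

theorem kU1 {K : ℕ} {A B Y P P' : Type} [Finite A] [Finite B] [Finite Y] [Finite P] [Finite P']
    (h1 : Nat.card A + (Nat.card B + Nat.card P) = K) (h2 : Nat.card Y + Nat.card P' = K) :
    Kill K 3 5 ((A ⊕ (B ⊕ Y)) ⊕ (P ⊕ P')) {x | red (fun a => x (Sum.inl (Sum.inl a))) = 0 ∧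
      red (fun b => x (Sum.inl (Sum.inr (Sum.inl b)))) = 0 ∧
      red (fun p => x (Sum.inr (Sum.inl p))) = 0} := by
  have k := (split_blue (K := K) (J1 := A ⊕ (B ⊕ P)) (J2 := Y ⊕ P')
    (by rw [Nat.card_sum, Nat.card_sum]; exact h1) (by rw [Nat.card_sum]; exact h2)).transport
    (eU1 A B Y P P')
  refine k.mono ?_
  rintro x ⟨g1, g2, g3⟩
  show red (fun j : A ⊕ (B ⊕ P) => x (eU1 A B Y P P' (Sum.inl j))) = 0
  rw [red_sum, red_sum (fun j : B ⊕ P => x (eU1 A B Y P P' (Sum.inl (Sum.inr j))))]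
  have e1 : red (fun a : A => x (eU1 A B Y P P' (Sum.inl (Sum.inl a)))) = 0 := g1
  have e2 : red (fun c : B => x (eU1 A B Y P P' (Sum.inl (Sum.inr (Sum.inl c))))) = 0 := g2
  have e3 : red (fun d : P => x (eU1 A B Y P P' (Sum.inl (Sum.inr (Sum.inr d))))) = 0 := g3
  omega

/-- an alive set of at most `K / 2` edges has at most two red edges -/
theorem kU2 {K : ℕ} {F R : Type} [Finite F] [Finite R] (h1 : 2 * Nat.card F ≤ K)
    (h2 : Nat.card F + Nat.card R = 2 * K) :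
    Kill K 3 5 (F ⊕ R) {x | 3 ≤ red (fun f => x (Sum.inl f))} := by
  have k := W_seq' (K := K) (l := 3) (u := 5) (L := Nat.card F) F R rfl h2 ∅
    ((Kill.empty K 3 5 _).mono (by intro x hx; exact absurd hx (Set.notMem_empty _)))
  refine k.mono ?_
  intro x hx
  right
  have hx' : 3 ≤ red (fun f => x (Sum.inl f)) := hx
  by_cases h3 : red (fun f => x (Sum.inl f)) = 3
  · rw [h3]
    exact w_half3 h1
  · exact w_ge4 (by omega) (by omega)

theorem kW2 {K : ℕ} {A B Y Z Z' R R' : Type} [Finite A] [Finite B] [Finite Y] [Finite Z]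
    [Finite Z'] [Finite R] [Finite R'] (h1 : Nat.card A + (Nat.card B + Nat.card Y) = K)
    (h2 : Nat.card Z + Nat.card Z' + (Nat.card R + Nat.card R') = K)
    (hA : Nat.card A + (Nat.card B + 4) = K) (hY : Nat.card Y = 4) (hZ : Nat.card Z = 4)
    (hZ' : Nat.card Z' = 4) (hK : 24 ≤ K) :
    Kill K 3 5 ((A ⊕ (Z ⊕ (Y ⊕ R))) ⊕ (B ⊕ (Z' ⊕ R'))) {x |
      red (fun a => x (Sum.inl (Sum.inl a))) = 0 ∧
      1 ≤ red (fun z => x (Sum.inl (Sum.inr (Sum.inl z)))) ∧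
      red (fun b => x (Sum.inr (Sum.inl b))) = 0 ∧
      1 ≤ red (fun z => x (Sum.inr (Sum.inr (Sum.inl z))))} := by
  have k1 := kU1 (K := K) (A := A) (B := B) (Y := Y) (P := Fin 4) (P' := Fin (K - 4))
    (by rw [Nat.card_fin]; exact hA) (by rw [Nat.card_fin]; omega)
  have k2 := (kU2 (K := K) (F := (Z ⊕ Z') ⊕ Fin 4) (R := (R ⊕ R') ⊕ Fin (K - 4))
    (by rw [Nat.card_sum, Nat.card_sum, Nat.card_fin]; omega)
    (by rw [Nat.card_sum, Nat.card_sum, Nat.card_sum, Nat.card_sum, Nat.card_fin, Nat.card_fin]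
        omega)).transport (Equiv.sumSumSumComm (Z ⊕ Z') (Fin 4) (R ⊕ R') (Fin (K - 4)))
  have kn : Kill K 3 5 ((A ⊕ (B ⊕ Y)) ⊕ ((Z ⊕ Z') ⊕ (R ⊕ R'))) {x |
      red (fun a => x (Sum.inl (Sum.inl a))) = 0 ∧
      1 ≤ red (fun z => x (Sum.inr (Sum.inl (Sum.inl z)))) ∧
      red (fun b => x (Sum.inl (Sum.inr (Sum.inl b)))) = 0 ∧
      1 ≤ red (fun z => x (Sum.inr (Sum.inl (Sum.inr z))))} := by
    refine nd (by rw [Nat.card_sum, Nat.card_sum]; exact h1)
      (by rw [Nat.card_sum, Nat.card_sum, Nat.card_sum]; exact h2)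
      (by rw [Nat.card_sum, Nat.card_fin, Nat.card_fin]; omega) k1 k2
      fun x1 x2 n hA a1 a2 a3 a4 a5 a6 => ?_
    obtain ⟨g1, g2, g3, g4⟩ := hA
    have g1' : red (fun a => x1 (Sum.inl a)) = 0 := g1
    have g2' : 1 ≤ red (fun z => x2 (Sum.inl (Sum.inl z))) := g2
    have g3' : red (fun b => x1 (Sum.inr (Sum.inl b))) = 0 := g3
    have g4' : 1 ≤ red (fun z => x2 (Sum.inl (Sum.inr z))) := g4
    by_cases h5 : red (fun p => n (Sum.inl p)) = 0
    · left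
      exact ⟨g1', g3', h5⟩
    · right
      show 3 ≤ red (fun f : (Z ⊕ Z') ⊕ Fin 4 => (Sum.elim x2 n :
        ((Z ⊕ Z') ⊕ (R ⊕ R')) ⊕ (Fin 4 ⊕ Fin (K - 4)) → Bool)
        (Equiv.sumSumSumComm (Z ⊕ Z') (Fin 4) (R ⊕ R') (Fin (K - 4)) (Sum.inl f)))
      rw [red_sum, red_sum (fun f : Z ⊕ Z' => (Sum.elim x2 n :
        ((Z ⊕ Z') ⊕ (R ⊕ R')) ⊕ (Fin 4 ⊕ Fin (K - 4)) → Bool)
        (Equiv.sumSumSumComm (Z ⊕ Z') (Fin 4) (R ⊕ R') (Fin (K - 4)) (Sum.inl (Sum.inl f))))]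
      have e1 : red (fun z : Z => (Sum.elim x2 n :
        ((Z ⊕ Z') ⊕ (R ⊕ R')) ⊕ (Fin 4 ⊕ Fin (K - 4)) → Bool)
        (Equiv.sumSumSumComm (Z ⊕ Z') (Fin 4) (R ⊕ R') (Fin (K - 4))
          (Sum.inl (Sum.inl (Sum.inl z))))) = red (fun z => x2 (Sum.inl (Sum.inl z))) := rfl
      have e2 : red (fun z : Z' => (Sum.elim x2 n :
        ((Z ⊕ Z') ⊕ (R ⊕ R')) ⊕ (Fin 4 ⊕ Fin (K - 4)) → Bool)
        (Equiv.sumSumSumComm (Z ⊕ Z') (Fin 4) (R ⊕ R') (Fin (K - 4))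
          (Sum.inl (Sum.inl (Sum.inr z))))) = red (fun z => x2 (Sum.inl (Sum.inr z))) := rfl
      have e3 : red (fun z : Fin 4 => (Sum.elim x2 n :
        ((Z ⊕ Z') ⊕ (R ⊕ R')) ⊕ (Fin 4 ⊕ Fin (K - 4)) → Bool)
        (Equiv.sumSumSumComm (Z ⊕ Z') (Fin 4) (R ⊕ R') (Fin (K - 4))
          (Sum.inl (Sum.inr z)))) = red (fun z => n (Sum.inl z)) := rfl
      rw [e1, e2, e3]
      omega
  exact kn.transport (eW2 A B Y Z Z' R R')

/-- **Three red edges among `K / 2 + 2` edges which stay alive are refutable.** -/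
theorem main3 {K : ℕ} (hK : 24 ≤ K) (he : K % 2 = 0) : W K 3 5 (K / 2 + 2) 3 := by
  intro F R _ _ hF hR T hT
  have cC : Nat.card (Fin (K / 2 - 2)) = K / 2 - 2 := Nat.card_fin _
  have cQ : Nat.card (Fin (K / 2 + 2)) = K / 2 + 2 := Nat.card_fin _
  have cQ1 : Nat.card (Fin 4 ⊕ (Fin 4 ⊕ Fin (K / 2 + 2 - 8))) = K / 2 + 2 := by
    rw [Nat.card_sum, Nat.card_sum, Nat.card_fin, Nat.card_fin]
    omega
  have cQ2 : Nat.card (Fin 4 ⊕ Fin (K / 2 + 2 - 4)) = K / 2 + 2 := by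
    rw [Nat.card_sum, Nat.card_fin, Nat.card_fin]
    omega
  -- `X_5`
  have hRc : Nat.card R = Nat.card (Fin (K / 2 - 2) ⊕ Fin K) := by
    rw [Nat.card_sum, Nat.card_fin, Nat.card_fin]
    omega
  have k5 : Kill K 3 5 ((F ⊕ Fin (K / 2 - 2)) ⊕ Fin K)
      {x | (fun m => x (Sum.inl (Sum.inl m))) ∈ T ∨
      (red (fun m => x (Sum.inl (Sum.inl m))) = 3 ∧
        (fun _ _ => False : (Fin (K / 2 - 2) → Bool) → (Fin K → Bool) → Prop)
          (fun c => x (Sum.inl (Sum.inr c))) (fun a => x (Sum.inr a)))} := by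
    have h0 := (kill_rest hRc hT).transport (Equiv.sumAssoc F (Fin (K / 2 - 2)) (Fin K)).symm
    refine h0.mono ?_
    rintro x (hx | ⟨_, hx⟩)
    · exact hx
    · exact hx.elim
  -- `X_4`
  have k4 := step (C := Fin (K / 2 - 2)) (C' := Fin (K / 2 - 2)) (Q := Fin (K / 2 + 2))
    (by rw [hF, cC]; omega) (by rw [cC, cQ]; omega) (Nat.card_fin K) (T := T)
    (P1 := fun _ _ => False) (P2 := fun _ _ _ => False) (fun _ _ => False) k5
    ((Kill.empty K 3 5 _).mono (by intro x hx; exact hx.elim)) (fun _ _ _ _ _ h => h.elim)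
  -- `X_3`
  have k3 := step (C := Fin (K / 2 - 2)) (C' := Fin (K / 2 - 2))
    (Q := Fin 4 ⊕ Fin (K / 2 + 2 - 4)) (N := Fin (K / 2 - 2) ⊕ Fin (K / 2 + 2))
    (by rw [hF, cC]; omega) (by rw [cC, cQ2]; omega) (by rw [Nat.card_sum, cC, cQ]; omega)
    (T := T) (P1 := fun _ n => 1 ≤ red (fun c => n (Sum.inl c)) ∨ False)
    (P2 := fun c q n => red c = 0 ∧ red (fun z => q (Sum.inl z)) = 0 ∧
      red (fun a => n (Sum.inl a)) = 0)
    (fun c q => red c = 0 ∧ red (fun z => q (Sum.inl z)) = 0) k4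
    (kW3 (by rw [cC, Nat.card_fin]; omega) (by rw [cQ, Nat.card_fin]; omega))
    (fun c c' q n _ h => by
      by_cases h5 : red (fun a => n (Sum.inl a)) = 0
      · exact Or.inr ⟨h.1, h.2, h5⟩
      · exact Or.inl (Or.inl (by omega)))
  -- `X_2`
  have k2 := step (C := Fin (K / 2 - 2)) (C' := Fin (K / 2 - 2))
    (Q := Fin 4 ⊕ (Fin 4 ⊕ Fin (K / 2 + 2 - 8)))
    (N := Fin (K / 2 - 2) ⊕ (Fin 4 ⊕ Fin (K / 2 + 2 - 4)))
    (by rw [hF, cC]; omega) (by rw [cC, cQ1]; omega) (by rw [Nat.card_sum, cC, cQ2]; omega)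
    (T := T) (P1 := fun c n => 1 ≤ red (fun c => n (Sum.inl c)) ∨
      (red c = 0 ∧ red (fun z => n (Sum.inr (Sum.inl z))) = 0))
    (P2 := fun c q n => red c = 0 ∧ 1 ≤ red (fun z => q (Sum.inl z)) ∧
      red (fun a => n (Sum.inl a)) = 0 ∧ 1 ≤ red (fun z => n (Sum.inr (Sum.inl z))))
    (fun c q => red c = 0 ∧ 1 ≤ red (fun z => q (Sum.inl z))) k3
    (kW2 (by rw [cC, Nat.card_fin]; omega) (by simp only [Nat.card_fin]; omega)
      (by rw [cC]; omega) (Nat.card_fin 4) (Nat.card_fin 4) (Nat.card_fin 4) hK)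
    (fun c c' q n hc h => by
      by_cases h5 : red (fun a => n (Sum.inl a)) = 0
      · by_cases h6 : red (fun z => n (Sum.inr (Sum.inl z))) = 0
        · exact Or.inl (Or.inr ⟨hc, h6⟩)
        · exact Or.inr ⟨h.1, h.2, h5, by omega⟩
      · exact Or.inl (Or.inl (by omega)))
  -- `X_1`
  have k1 := step (C := Fin (K / 2 - 2)) (C' := Fin (K / 2 - 2))
    (Q := Fin (K / 2 + 2))
    (N := Fin (K / 2 - 2) ⊕ (Fin 4 ⊕ (Fin 4 ⊕ Fin (K / 2 + 2 - 8))))
    (by rw [hF, cC]; omega) (by rw [cC, cQ]; omega) (by rw [Nat.card_sum, cC, cQ1]; omega)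
    (T := T) (P1 := fun c n => 1 ≤ red (fun c => n (Sum.inl c)) ∨
      (red c = 0 ∧ 1 ≤ red (fun z => n (Sum.inr (Sum.inl z)))))
    (P2 := fun c _ n => red c = 0 ∧ red (fun a => n (Sum.inl a)) = 0 ∧
      red (fun z => n (Sum.inr (Sum.inl z))) = 0)
    (fun c _ => red c = 0) k2
    (kW1 (by rw [cC, Nat.card_fin]; omega)
      (by rw [cQ, Nat.card_sum, Nat.card_fin, Nat.card_fin]; omega))
    (fun c c' q n hc h => by
      by_cases h5 : red (fun a => n (Sum.inl a)) = 0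
      · by_cases h6 : red (fun z => n (Sum.inr (Sum.inl z))) = 0
        · exact Or.inr ⟨h, h5, h6⟩
        · exact Or.inl (Or.inr ⟨hc, by omega⟩)
      · exact Or.inl (Or.inl (by omega)))
  -- `X_0`
  have k0 : Kill K 3 5 ((F ⊕ Fin (K / 2 - 2)) ⊕ Fin K)
      {x | (fun m => x (Sum.inl (Sum.inl m))) ∈ T ∨ red (fun m => x (Sum.inl (Sum.inl m))) = 3} := by
    refine nd (by rw [Nat.card_sum, hF, cC]; omega) (Nat.card_fin K)
      (by rw [Nat.card_sum, cC, cQ]; omega) k1 (Kill.empty K 3 5 _)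
      fun x1 x2 n hA a1 a2 a3 a4 a5 a6 => ?_
    left
    have hA' : (fun m => x1 (Sum.inl m)) ∈ T ∨ red (fun m => x1 (Sum.inl m)) = 3 := hA
    have g1 := red_sum x1
    rcases hA' with hA' | hA'
    · exact Or.inl hA'
    · have hz : red (fun c => x1 (Sum.inr c)) = 0 := by omega
      exact Or.inr ⟨hA', Or.inr hz⟩
  have ku : Kill K 3 5 (F ⊕ (Fin (K / 2 - 2) ⊕ Fin K))
      {x | (fun f => x (Sum.inl f)) ∈ {y : F → Bool | y ∈ T ∨ red y = 3}} :=
    k0.transport (Equiv.sumAssoc F (Fin (K / 2 - 2)) (Fin K))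
  exact kill_rest hRc.symm ku


/-- two red edges in an alive pair -/
theorem w_22' {K : ℕ} (hK : 24 ≤ K) (he : K % 2 = 0) : W K 3 5 2 2 := by
  have h3 := main3 hK he
  have h4 : ∀ a, 1 ≤ a → W K 3 5 (2 + K / 2) (2 + a) := by
    intro a ha
    by_cases h5 : a = 1
    · subst h5
      have e : 2 + K / 2 = K / 2 + 2 := by omega
      rw [e]
      exact h3
    · exact w_ge4 (by omega) (by omega)
  refine W_R2 (i := K / 2) (j := K / 2) (by omega) (by omega) (by omega) fun a b ha hb => ?_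
  by_cases h1 : a = 0
  · by_cases h2 : b = 0
    · right; right
      subst h1 h2
      have e : K / 2 + K / 2 = K := by omega
      rw [e]
      exact w_K0
    · right; left
      exact h4 b (by omega)
  · left
    exact h4 a (by omega)

theorem w_0' {K : ℕ} (hK : 24 ≤ K) (he : K % 2 = 0) : ∀ n, n ≤ K → W K 3 5 (K - n) 0 := by
  intro n
  induction n with
  | zero =>
    intro _
    exact w_K0
  | succ n ih =>
    intro hn
    have h1 := ih (by omega)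
    have e : K - (n + 1) + 1 = K - n := by omega
    refine W_R2 (i := 1) (j := 1) (by omega) (by omega) (by omega) fun a b ha hb => ?_
    by_cases h2 : a = 0
    · left
      subst h2
      rw [e]
      exact h1
    · by_cases h3 : b = 0
      · right; left
        subst h3
        rw [e]
        exact h1
      · right; right
        have e1 : a = 1 := by omega
        have e2 : b = 1 := by omega
        subst e1 e2
        exact w_22' hK he

theorem w00' {K : ℕ} (hK : 24 ≤ K) (he : K % 2 = 0) : W K 3 5 0 0 := by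
  have h := w_0' hK he K le_rfl
  rwa [Nat.sub_self] at h

end Pool.Agent.Lib.MP_21a058_co.Slack3
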