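import Pool.Agent.Lib.MP_21a058_co.Slack3.Chain
import Pool.Agent.Lib.MP_21a058_co.Slack3.Final

/-! Window `3 ≤ red ≤ 5`: the chain with general sizes, for even `K ≥ 24` and all `K ≥ 31`. -/

set_option autoImplicit false

namespace Pool.Agent.Lib.MP_21a058_co.Slack3

open Pool.Agent.Lib.MP_21a058_co.Odd (red red_sum red_equiv red_le)

theorem kW2g {K t : ℕ} {A B Y Z Z' R R' : Type} [Finite A] [Finite B] [Finite Y] [Finite Z]
    [Finite Z'] [Finite R] [Finite R'] (h1 : Nat.card A + (Nat.card B + Nat.card Y) = K)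
    (h2 : Nat.card Z + Nat.card Z' + (Nat.card R + Nat.card R') = K)
    (hY : Nat.card Y = t) (hZ : Nat.card Z = t)
    (hZ' : Nat.card Z' = t) (hK : 6 * t ≤ K) :
    Kill K 3 5 ((A ⊕ (Z ⊕ (Y ⊕ R))) ⊕ (B ⊕ (Z' ⊕ R'))) {x |
      red (fun a => x (Sum.inl (Sum.inl a))) = 0 ∧
      1 ≤ red (fun z => x (Sum.inl (Sum.inr (Sum.inl z)))) ∧
      red (fun b => x (Sum.inr (Sum.inl b))) = 0 ∧
      1 ≤ red (fun z => x (Sum.inr (Sum.inr (Sum.inl z))))} := by
  have k1 := kU1 (K := K) (A := A) (B := B) (Y := Y) (P := Fin t) (P' := Fin (K - t))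
    (by rw [Nat.card_fin]; omega) (by rw [Nat.card_fin]; omega)
  have k2 := (kU2 (K := K) (F := (Z ⊕ Z') ⊕ Fin t) (R := (R ⊕ R') ⊕ Fin (K - t))
    (by rw [Nat.card_sum, Nat.card_sum, Nat.card_fin]; omega)
    (by rw [Nat.card_sum, Nat.card_sum, Nat.card_sum, Nat.card_sum, Nat.card_fin, Nat.card_fin]
        omega)).transport (Equiv.sumSumSumComm (Z ⊕ Z') (Fin t) (R ⊕ R') (Fin (K - t)))
  have kn : Kill K 3 5 ((A ⊕ (B ⊕ Y)) ⊕ ((Z ⊕ Z') ⊕ (R ⊕ R'))) {x |
      red (fun a => x (Sum.inl (Sum.inl a))) = 0 ∧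
      1 ≤ red (fun z => x (Sum.inr (Sum.inl (Sum.inl z)))) ∧
      red (fun b => x (Sum.inl (Sum.inr (Sum.inl b)))) = 0 ∧
      1 ≤ red (fun z => x (Sum.inr (Sum.inl (Sum.inr z))))} := by
    refine nd (by rw [Nat.card_sum, Nat.card_sum]; exact h1)
      (by rw [Nat.card_sum, Nat.card_sum, Nat.card_sum]; exact h2)
      (by rw [Nat.card_sum, Nat.card_fin, Nat.card_fin]; omega) k1 k2
      fun x1 x2 n hA a1 a2 a3 a4 a5 a6 => ?_
    obtain ⟨g1, g2, g3, g4⟩ := hA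
    have g1' : red (fun a => x1 (Sum.inl a)) = 0 := g1
    have g2' : 1 ≤ red (fun z => x2 (Sum.inl (Sum.inl z))) := g2
    have g3' : red (fun b => x1 (Sum.inr (Sum.inl b))) = 0 := g3
    have g4' : 1 ≤ red (fun z => x2 (Sum.inl (Sum.inr z))) := g4
    by_cases h5 : red (fun p => n (Sum.inl p)) = 0
    · left
      exact ⟨g1', g3', h5⟩
    · right
      show 3 ≤ red (fun f : (Z ⊕ Z') ⊕ Fin t => (Sum.elim x2 n :
        ((Z ⊕ Z') ⊕ (R ⊕ R')) ⊕ (Fin t ⊕ Fin (K - t)) → Bool)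
        (Equiv.sumSumSumComm (Z ⊕ Z') (Fin t) (R ⊕ R') (Fin (K - t)) (Sum.inl f)))
      rw [red_sum, red_sum (fun f : Z ⊕ Z' => (Sum.elim x2 n :
        ((Z ⊕ Z') ⊕ (R ⊕ R')) ⊕ (Fin t ⊕ Fin (K - t)) → Bool)
        (Equiv.sumSumSumComm (Z ⊕ Z') (Fin t) (R ⊕ R') (Fin (K - t)) (Sum.inl (Sum.inl f))))]
      have e1 : red (fun z : Z => (Sum.elim x2 n :
        ((Z ⊕ Z') ⊕ (R ⊕ R')) ⊕ (Fin t ⊕ Fin (K - t)) → Bool)
        (Equiv.sumSumSumComm (Z ⊕ Z') (Fin t) (R ⊕ R') (Fin (K - t))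
          (Sum.inl (Sum.inl (Sum.inl z))))) = red (fun z => x2 (Sum.inl (Sum.inl z))) := rfl
      have e2 : red (fun z : Z' => (Sum.elim x2 n :
        ((Z ⊕ Z') ⊕ (R ⊕ R')) ⊕ (Fin t ⊕ Fin (K - t)) → Bool)
        (Equiv.sumSumSumComm (Z ⊕ Z') (Fin t) (R ⊕ R') (Fin (K - t))
          (Sum.inl (Sum.inl (Sum.inr z))))) = red (fun z => x2 (Sum.inl (Sum.inr z))) := rfl
      have e3 : red (fun z : Fin t => (Sum.elim x2 n :
        ((Z ⊕ Z') ⊕ (R ⊕ R')) ⊕ (Fin t ⊕ Fin (K - t)) → Bool)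
        (Equiv.sumSumSumComm (Z ⊕ Z') (Fin t) (R ⊕ R') (Fin (K - t))
          (Sum.inl (Sum.inr z)))) = red (fun z => n (Sum.inl z)) := rfl
      rw [e1, e2, e3]
      omega
  exact kn.transport (eW2 A B Y Z Z' R R')

/-- **Three red edges among `m` edges which stay alive are refutable**, `K + t = 2 m`, `6 t ≤ K`. -/
theorem main3g {K m t : ℕ} (hm : K + t = 2 * m) (ht : 6 * t ≤ K) : W K 3 5 m 3 := by
  intro F R _ _ hF hR T hT
  have cC : Nat.card (Fin (K - m)) = K - m := Nat.card_fin _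
  have cQ : Nat.card (Fin m) = m := Nat.card_fin _
  have cQ1 : Nat.card (Fin t ⊕ (Fin t ⊕ Fin (m - 2 * t))) = m := by
    rw [Nat.card_sum, Nat.card_sum, Nat.card_fin, Nat.card_fin]
    omega
  have cQ2 : Nat.card (Fin t ⊕ Fin (m - t)) = m := by
    rw [Nat.card_sum, Nat.card_fin, Nat.card_fin]
    omega
  -- `X_5`
  have hRc : Nat.card R = Nat.card (Fin (K - m) ⊕ Fin K) := by
    rw [Nat.card_sum, Nat.card_fin, Nat.card_fin]
    omega
  have k5 : Kill K 3 5 ((F ⊕ Fin (K - m)) ⊕ Fin K)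
      {x | (fun m => x (Sum.inl (Sum.inl m))) ∈ T ∨
      (red (fun m => x (Sum.inl (Sum.inl m))) = 3 ∧
        (fun _ _ => False : (Fin (K - m) → Bool) → (Fin K → Bool) → Prop)
          (fun c => x (Sum.inl (Sum.inr c))) (fun a => x (Sum.inr a)))} := by
    have h0 := (kill_rest hRc hT).transport (Equiv.sumAssoc F (Fin (K - m)) (Fin K)).symm
    refine h0.mono ?_
    rintro x (hx | ⟨_, hx⟩)
    · exact hx
    · exact hx.elim
  -- `X_4`
  have k4 := step (C := Fin (K - m)) (C' := Fin (K - m)) (Q := Fin m)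
    (by rw [hF, cC]; omega) (by rw [cC, cQ]; omega) (Nat.card_fin K) (T := T)
    (P1 := fun _ _ => False) (P2 := fun _ _ _ => False) (fun _ _ => False) k5
    ((Kill.empty K 3 5 _).mono (by intro x hx; exact hx.elim)) (fun _ _ _ _ _ h => h.elim)
  -- `X_3`
  have k3 := step (C := Fin (K - m)) (C' := Fin (K - m))
    (Q := Fin t ⊕ Fin (m - t)) (N := Fin (K - m) ⊕ Fin m)
    (by rw [hF, cC]; omega) (by rw [cC, cQ2]; omega) (by rw [Nat.card_sum, cC, cQ]; omega)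
    (T := T) (P1 := fun _ n => 1 ≤ red (fun c => n (Sum.inl c)) ∨ False)
    (P2 := fun c q n => red c = 0 ∧ red (fun z => q (Sum.inl z)) = 0 ∧
      red (fun a => n (Sum.inl a)) = 0)
    (fun c q => red c = 0 ∧ red (fun z => q (Sum.inl z)) = 0) k4
    (kW3 (by rw [cC, Nat.card_fin]; omega) (by rw [cQ, Nat.card_fin]; omega))
    (fun c c' q n _ h => by
      by_cases h5 : red (fun a => n (Sum.inl a)) = 0
      · exact Or.inr ⟨h.1, h.2, h5⟩
      · exact Or.inl (Or.inl (by omega)))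
  -- `X_2`
  have k2 := step (C := Fin (K - m)) (C' := Fin (K - m))
    (Q := Fin t ⊕ (Fin t ⊕ Fin (m - 2 * t)))
    (N := Fin (K - m) ⊕ (Fin t ⊕ Fin (m - t)))
    (by rw [hF, cC]; omega) (by rw [cC, cQ1]; omega) (by rw [Nat.card_sum, cC, cQ2]; omega)
    (T := T) (P1 := fun c n => 1 ≤ red (fun c => n (Sum.inl c)) ∨
      (red c = 0 ∧ red (fun z => n (Sum.inr (Sum.inl z))) = 0))
    (P2 := fun c q n => red c = 0 ∧ 1 ≤ red (fun z => q (Sum.inl z)) ∧
      red (fun a => n (Sum.inl a)) = 0 ∧ 1 ≤ red (fun z => n (Sum.inr (Sum.inl z))))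
    (fun c q => red c = 0 ∧ 1 ≤ red (fun z => q (Sum.inl z))) k3
    (kW2g (by rw [cC, Nat.card_fin]; omega) (by simp only [Nat.card_fin]; omega)
      (Nat.card_fin t) (Nat.card_fin t) (Nat.card_fin t) ht)
    (fun c c' q n hc h => by
      by_cases h5 : red (fun a => n (Sum.inl a)) = 0
      · by_cases h6 : red (fun z => n (Sum.inr (Sum.inl z))) = 0
        · exact Or.inl (Or.inr ⟨hc, h6⟩)
        · exact Or.inr ⟨h.1, h.2, h5, by omega⟩
      · exact Or.inl (Or.inl (by omega)))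
  -- `X_1`
  have k1 := step (C := Fin (K - m)) (C' := Fin (K - m))
    (Q := Fin m)
    (N := Fin (K - m) ⊕ (Fin t ⊕ (Fin t ⊕ Fin (m - 2 * t))))
    (by rw [hF, cC]; omega) (by rw [cC, cQ]; omega) (by rw [Nat.card_sum, cC, cQ1]; omega)
    (T := T) (P1 := fun c n => 1 ≤ red (fun c => n (Sum.inl c)) ∨
      (red c = 0 ∧ 1 ≤ red (fun z => n (Sum.inr (Sum.inl z)))))
    (P2 := fun c _ n => red c = 0 ∧ red (fun a => n (Sum.inl a)) = 0 ∧
      red (fun z => n (Sum.inr (Sum.inl z))) = 0)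
    (fun c _ => red c = 0) k2
    (kW1 (by rw [cC, Nat.card_fin]; omega)
      (by rw [cQ, Nat.card_sum, Nat.card_fin, Nat.card_fin]; omega))
    (fun c c' q n hc h => by
      by_cases h5 : red (fun a => n (Sum.inl a)) = 0
      · by_cases h6 : red (fun z => n (Sum.inr (Sum.inl z))) = 0
        · exact Or.inr ⟨h, h5, h6⟩
        · exact Or.inl (Or.inr ⟨hc, by omega⟩)
      · exact Or.inl (Or.inl (by omega)))
  -- `X_0`
  have k0 : Kill K 3 5 ((F ⊕ Fin (K - m)) ⊕ Fin K)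
      {x | (fun m => x (Sum.inl (Sum.inl m))) ∈ T ∨ red (fun m => x (Sum.inl (Sum.inl m))) = 3} := by
    refine nd (by rw [Nat.card_sum, hF, cC]; omega) (Nat.card_fin K)
      (by rw [Nat.card_sum, cC, cQ]; omega) k1 (Kill.empty K 3 5 _)
      fun x1 x2 n hA a1 a2 a3 a4 a5 a6 => ?_
    left
    have hA' : (fun m => x1 (Sum.inl m)) ∈ T ∨ red (fun m => x1 (Sum.inl m)) = 3 := hA
    have g1 := red_sum x1
    rcases hA' with hA' | hA'
    · exact Or.inl hA'
    · have hz : red (fun c => x1 (Sum.inr c)) = 0 := by omega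
      exact Or.inr ⟨hA', Or.inr hz⟩
  have ku : Kill K 3 5 (F ⊕ (Fin (K - m) ⊕ Fin K))
      {x | (fun f => x (Sum.inl f)) ∈ {y : F → Bool | y ∈ T ∨ red y = 3}} :=
    k0.transport (Equiv.sumAssoc F (Fin (K - m)) (Fin K))
  exact kill_rest hRc.symm ku


/-- `m` is a level with three red edges refutable. -/
theorem w_lev {K m : ℕ} (hm : K ≤ 2 * m) (ht : 6 * (2 * m - K) ≤ K) : W K 3 5 m 3 :=
  main3g (t := 2 * m - K) (by omega) ht

/-- two red edges in an alive pair -/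
theorem w_22g {K : ℕ} (h : K % 2 = 0 ∧ 24 ≤ K ∨ 31 ≤ K) : W K 3 5 2 2 := by
  have h4 : ∀ m, K ≤ 2 * m → 6 * (2 * m - K) ≤ K → ∀ a, 1 ≤ a → W K 3 5 m (2 + a) := by
    intro m g1 g2 a ha
    by_cases h5 : a = 1
    · subst h5
      exact w_lev g1 g2
    · exact w_ge4 (by omega) (by omega)
  refine W_R2 (i := K / 2) (j := K - K / 2) (by omega) (by omega) (by omega) fun a b ha hb => ?_
  by_cases h1 : a = 0
  · by_cases h2 : b = 0
    · right; right
      subst h1 h2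
      have e : K / 2 + (K - K / 2) = K := by omega
      rw [e]
      exact w_K0
    · right; left
      exact h4 _ (by omega) (by omega) b (by omega)
  · left
    exact h4 _ (by omega) (by omega) a (by omega)

theorem w_0g {K : ℕ} (h : K % 2 = 0 ∧ 24 ≤ K ∨ 31 ≤ K) : ∀ n, n ≤ K → W K 3 5 (K - n) 0 := by
  intro n
  induction n with
  | zero =>
    intro _
    exact w_K0
  | succ n ih =>
    intro hn
    have h1 := ih (by omega)
    have e : K - (n + 1) + 1 = K - n := by omega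
    refine W_R2 (i := 1) (j := 1) (by omega) (by omega) (by omega) fun a b ha hb => ?_
    by_cases h2 : a = 0
    · left
      subst h2
      rw [e]
      exact h1
    · by_cases h3 : b = 0
      · right; left
        subst h3
        rw [e]
        exact h1
      · right; right
        have e1 : a = 1 := by omega
        have e2 : b = 1 := by omega
        subst e1 e2
        exact w_22g h

theorem w00g {K : ℕ} (h : K % 2 = 0 ∧ 24 ≤ K ∨ 31 ≤ K) : W K 3 5 0 0 := by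
  have h1 := w_0g h K le_rfl
  rwa [Nat.sub_self] at h1

open Finset Pool.Agent.Lib.MP_21a058_co in
/-- A tuple whose parts split into sums `3` and `2 K - 5` has `f > 2 K`. -/
theorem three_cut_all {K l' r : ℕ} (h : K % 2 = 0 ∧ 24 ≤ K ∨ 31 ≤ K) (hl : 5 + l' = 2 * K)
    (ks : Fin r → ℕ) (J : Finset (Fin r)) (hJ : ∑ i ∈ J, ks i = 3)
    (hJ' : ∑ i ∈ Jᶜ, ks i = l') : ¬ Arrow (2 * K) ks :=
  not_arrow_of_W (by omega) hl (w00g h) ks J hJ hJ'

end Pool.Agent.Lib.MP_21a058_co.Slack3
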