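import Pool.Agent.Lib.MP_21a058_co.Slack3.Rule

/-! The main lemma for the window `3 ≤ red ≤ 5`, `K = 2 h`, `14 ≤ h`: a set of `K - 2` edges that
stays alive is not all blue. -/

set_option autoImplicit false

namespace Pool.Agent.Lib.MP_21a058_co.Slack3

open Pool.Agent.Lib.MP_21a058_co.Odd (red red_sum red_equiv red_le)

/-- Some structure over `I` forces `A` on every good colouring. -/
def Fo (K l u : ℕ) (I : Type) (A : (I → Bool) → Prop) : Prop := Kill K l u I {x | ¬ A x}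

theorem Fo.mono {K l u : ℕ} {I : Type} {A B : (I → Bool) → Prop} (h : Fo K l u I A)
    (hAB : ∀ x, A x → B x) : Fo K l u I B :=
  Kill.mono h fun _ hx hA => hx (hAB _ hA)

theorem Fo.transport {K l u : ℕ} {I J : Type} {A : (I → Bool) → Prop} (h : Fo K l u I A)
    (e : I ≃ J) : Fo K l u J (fun y => A (fun i => y (e i))) :=
  Kill.transport h e

theorem Fo.leaf (K l u : ℕ) (I : Type) : Fo K l u I (fun x => l ≤ red x ∧ red x ≤ u) := by
  refine Kill.leaf I _ fun x hx => ?_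
  by_contra hc
  exact hx (by omega)

theorem Fo.info {K l u : ℕ} {I : Type} {A : (I → Bool) → Prop} (h : Fo K l u I A) :
    Fo K l u I (fun x => (l ≤ red x ∧ red x ≤ u) ∧ A x) := by
  have h1 := Kill.addBase h
  refine Kill.mono h1 fun x hx => ?_
  by_cases hA : A x
  · right
    by_contra hc
    exact hx ⟨by omega, hA⟩
  · exact Or.inl hA

theorem Fo.node {K l u : ℕ} {I J1 J2 N : Type} [Finite N] (h1 : Nat.card J1 = K)
    (h2 : Nat.card J2 = K) (h3 : Nat.card N = K) (e : I ≃ J1 ⊕ J2)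
    {A : (J1 ⊕ N → Bool) → Prop} {B : (J2 ⊕ N → Bool) → Prop}
    (hA : Fo K l u (J1 ⊕ N) A) (hB : Fo K l u (J2 ⊕ N) B) :
    Fo K l u I (fun x => (l ≤ red x ∧ red x ≤ u) ∧ ∃ n : N → Bool,
      ((l ≤ red (Sum.elim (fun j => x (e.symm (Sum.inl j))) n) ∧
        red (Sum.elim (fun j => x (e.symm (Sum.inl j))) n) ≤ u) ∧
        A (Sum.elim (fun j => x (e.symm (Sum.inl j))) n)) ∧
      ((l ≤ red (Sum.elim (fun j => x (e.symm (Sum.inr j))) n) ∧
        red (Sum.elim (fun j => x (e.symm (Sum.inr j))) n) ≤ u) ∧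
        B (Sum.elim (fun j => x (e.symm (Sum.inr j))) n))) := by
  obtain ⟨eN⟩ : Nonempty (N ≃ Fin K) := ⟨Finite.equivFinOfCardEq h3⟩
  have kA := hA.info.transport (Equiv.sumCongr (Equiv.refl J1) eN)
  have kB := hB.info.transport (Equiv.sumCongr (Equiv.refl J2) eN)
  refine Kill.node I J1 J2 h1 h2 e _ _ _ kA kB fun x hx => ?_
  by_cases hg : l ≤ red x ∧ red x ≤ u
  · right
    intro n
    by_contra hcon
    obtain ⟨c1, c2⟩ := not_or.1 hcon
    refine hx ⟨hg, fun i => n (eN i), ?_, ?_⟩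
    · have c3 := Classical.not_not.1 c1
      have : (fun i => (Sum.elim (fun j => x (e.symm (Sum.inl j))) n : J1 ⊕ Fin K → Bool)
          ((Equiv.sumCongr (Equiv.refl J1) eN) i)) =
          Sum.elim (fun j => x (e.symm (Sum.inl j))) fun i => n (eN i) := by
        funext i
        rcases i with i | i <;> rfl
      beta_reduce at c3
      rw [this] at c3
      exact c3
    · have c3 := Classical.not_not.1 c2
      have : (fun i => (Sum.elim (fun j => x (e.symm (Sum.inr j))) n : J2 ⊕ Fin K → Bool)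
          ((Equiv.sumCongr (Equiv.refl J2) eN) i)) =
          Sum.elim (fun j => x (e.symm (Sum.inr j))) fun i => n (eN i) := by
        funext i
        rcases i with i | i <;> rfl
      beta_reduce at c3
      rw [this] at c3
      exact c3
  · exact Or.inl (by omega)

/-- The node rule in numbers. -/
theorem Fo.num {K l u : ℕ} {I J1 J2 N : Type} [Finite I] [Finite J1] [Finite J2] [Finite N]
    (h1 : Nat.card J1 = K)
    (h2 : Nat.card J2 = K) (h3 : Nat.card N = K) (e : I ≃ J1 ⊕ J2)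
    {A : (J1 ⊕ N → Bool) → Prop} {B : (J2 ⊕ N → Bool) → Prop}
    (hA : Fo K l u (J1 ⊕ N) A) (hB : Fo K l u (J2 ⊕ N) B) :
    Fo K l u I (fun x => ∃ n : N → Bool,
      (l ≤ red (fun j => x (e.symm (Sum.inl j))) + red (fun j => x (e.symm (Sum.inr j))) ∧
        red (fun j => x (e.symm (Sum.inl j))) + red (fun j => x (e.symm (Sum.inr j))) ≤ u) ∧
      (l ≤ red (fun j => x (e.symm (Sum.inl j))) + red n ∧
        red (fun j => x (e.symm (Sum.inl j))) + red n ≤ u) ∧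
      (l ≤ red (fun j => x (e.symm (Sum.inr j))) + red n ∧
        red (fun j => x (e.symm (Sum.inr j))) + red n ≤ u) ∧
      A (Sum.elim (fun j => x (e.symm (Sum.inl j))) n) ∧
      B (Sum.elim (fun j => x (e.symm (Sum.inr j))) n)) := by
  refine (Fo.node h1 h2 h3 e hA hB).mono ?_
  rintro x ⟨g0, n, ⟨g1, hA'⟩, g2, hB'⟩
  have r0 : red x = red (fun j => x (e.symm (Sum.inl j))) +
      red (fun j => x (e.symm (Sum.inr j))) :=
    (red_equiv e.symm x).symm.trans (red_sum _)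
  have r1 : red (Sum.elim (fun j => x (e.symm (Sum.inl j))) n) =
      red (fun j => x (e.symm (Sum.inl j))) + red n := red_sum _
  have r2 : red (Sum.elim (fun j => x (e.symm (Sum.inr j))) n) =
      red (fun j => x (e.symm (Sum.inr j))) + red n := red_sum _
  exact ⟨n, by omega, by omega, by omega, hA', hB'⟩

/-- An alive set of `L` edges has at most two red ones. -/
theorem Fo.alive {K L : ℕ} (F R : Type) [Finite F] [Finite R] (hF : Nat.card F = L)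
    (hR : Nat.card F + Nat.card R = 2 * K) (hW : ∀ p, 3 ≤ p → W K 3 5 L p) :
    Fo K 3 5 (F ⊕ R) (fun x => red (fun i => x (Sum.inl i)) ≤ 2) := by
  have h1 := W_seq' (K := K) (l := 3) (u := 5) (L := L) F R hF hR ∅
    ((Kill.empty K 3 5 _).mono (by intro x hx; exact absurd hx (Set.notMem_empty _)))
  refine Kill.mono h1 fun x hx => Or.inr (hW _ ?_)
  have hx' : ¬ red (fun i => x (Sum.inl i)) ≤ 2 := hx
  omega

/-- The main bundle at the next main vertex. -/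
def eR (M C D Q : Type) : (M ⊕ C) ⊕ (D ⊕ Q) ≃ (C ⊕ Q) ⊕ (M ⊕ D) where
  toFun p := match p with
    | Sum.inl (Sum.inl i) => Sum.inr (Sum.inl i)
    | Sum.inl (Sum.inr i) => Sum.inl (Sum.inl i)
    | Sum.inr (Sum.inl i) => Sum.inr (Sum.inr i)
    | Sum.inr (Sum.inr i) => Sum.inl (Sum.inr i)
  invFun p := match p with
    | Sum.inr (Sum.inl i) => Sum.inl (Sum.inl i)
    | Sum.inl (Sum.inl i) => Sum.inl (Sum.inr i)
    | Sum.inr (Sum.inr i) => Sum.inr (Sum.inl i)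
    | Sum.inl (Sum.inr i) => Sum.inr (Sum.inr i)
  left_inv := by rintro ((i | i) | (i | i)) <;> rfl
  right_inv := by rintro ((i | i) | (i | i)) <;> rfl

def e2 (C Q D U Y Z : Type) :
    (C ⊕ Q) ⊕ (D ⊕ (U ⊕ (Y ⊕ Z))) ≃ (((C ⊕ D) ⊕ Y) ⊕ Z) ⊕ (U ⊕ Q) where
  toFun p := match p with
    | Sum.inl (Sum.inl i) => Sum.inl (Sum.inl (Sum.inl (Sum.inl i)))
    | Sum.inl (Sum.inr i) => Sum.inr (Sum.inr i)
    | Sum.inr (Sum.inl i) => Sum.inl (Sum.inl (Sum.inl (Sum.inr i)))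
    | Sum.inr (Sum.inr (Sum.inl i)) => Sum.inr (Sum.inl i)
    | Sum.inr (Sum.inr (Sum.inr (Sum.inl i))) => Sum.inl (Sum.inl (Sum.inr i))
    | Sum.inr (Sum.inr (Sum.inr (Sum.inr i))) => Sum.inl (Sum.inr i)
  invFun p := match p with
    | Sum.inl (Sum.inl (Sum.inl (Sum.inl i))) => Sum.inl (Sum.inl i)
    | Sum.inr (Sum.inr i) => Sum.inl (Sum.inr i)
    | Sum.inl (Sum.inl (Sum.inl (Sum.inr i))) => Sum.inr (Sum.inl i)
    | Sum.inr (Sum.inl i) => Sum.inr (Sum.inr (Sum.inl i))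
    | Sum.inl (Sum.inl (Sum.inr i)) => Sum.inr (Sum.inr (Sum.inr (Sum.inl i)))
    | Sum.inl (Sum.inr i) => Sum.inr (Sum.inr (Sum.inr (Sum.inr i)))
  left_inv := by rintro ((i | i) | (i | (i | (i | i)))) <;> rfl
  right_inv := by rintro ((((i | i) | i) | i) | (i | i)) <;> rfl

def e4 (C D X V Z Q : Type) :
    ((C ⊕ D) ⊕ X) ⊕ ((V ⊕ Z) ⊕ Q) ≃ (C ⊕ (V ⊕ (X ⊕ Z))) ⊕ (D ⊕ Q) where
  toFun p := match p with
    | Sum.inl (Sum.inl (Sum.inl i)) => Sum.inl (Sum.inl i)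
    | Sum.inl (Sum.inl (Sum.inr i)) => Sum.inr (Sum.inl i)
    | Sum.inl (Sum.inr i) => Sum.inl (Sum.inr (Sum.inr (Sum.inl i)))
    | Sum.inr (Sum.inl (Sum.inl i)) => Sum.inl (Sum.inr (Sum.inl i))
    | Sum.inr (Sum.inl (Sum.inr i)) => Sum.inl (Sum.inr (Sum.inr (Sum.inr i)))
    | Sum.inr (Sum.inr i) => Sum.inr (Sum.inr i)
  invFun p := match p with
    | Sum.inl (Sum.inl i) => Sum.inl (Sum.inl (Sum.inl i))
    | Sum.inr (Sum.inl i) => Sum.inl (Sum.inl (Sum.inr i))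
    | Sum.inl (Sum.inr (Sum.inr (Sum.inl i))) => Sum.inl (Sum.inr i)
    | Sum.inl (Sum.inr (Sum.inl i)) => Sum.inr (Sum.inl (Sum.inl i))
    | Sum.inl (Sum.inr (Sum.inr (Sum.inr i))) => Sum.inr (Sum.inl (Sum.inr i))
    | Sum.inr (Sum.inr i) => Sum.inr (Sum.inr i)
  left_inv := by rintro (((i | i) | i) | ((i | i) | i)) <;> rfl
  right_inv := by rintro ((i | (i | (i | i))) | (i | i)) <;> rfl

def e3 (C U Y Z D V X Z3 : Type) :
    (C ⊕ (U ⊕ (Y ⊕ Z))) ⊕ (D ⊕ (V ⊕ (X ⊕ Z3))) ≃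
      ((((C ⊕ D) ⊕ U) ⊕ Z) ⊕ V) ⊕ (Y ⊕ (X ⊕ Z3)) where
  toFun p := match p with
    | Sum.inl (Sum.inl i) => Sum.inl (Sum.inl (Sum.inl (Sum.inl (Sum.inl i))))
    | Sum.inl (Sum.inr (Sum.inl i)) => Sum.inl (Sum.inl (Sum.inl (Sum.inr i)))
    | Sum.inl (Sum.inr (Sum.inr (Sum.inl i))) => Sum.inr (Sum.inl i)
    | Sum.inl (Sum.inr (Sum.inr (Sum.inr i))) => Sum.inl (Sum.inl (Sum.inr i))
    | Sum.inr (Sum.inl i) => Sum.inl (Sum.inl (Sum.inl (Sum.inl (Sum.inr i))))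
    | Sum.inr (Sum.inr (Sum.inl i)) => Sum.inl (Sum.inr i)
    | Sum.inr (Sum.inr (Sum.inr (Sum.inl i))) => Sum.inr (Sum.inr (Sum.inl i))
    | Sum.inr (Sum.inr (Sum.inr (Sum.inr i))) => Sum.inr (Sum.inr (Sum.inr i))
  invFun p := match p with
    | Sum.inl (Sum.inl (Sum.inl (Sum.inl (Sum.inl i)))) => Sum.inl (Sum.inl i)
    | Sum.inl (Sum.inl (Sum.inl (Sum.inr i))) => Sum.inl (Sum.inr (Sum.inl i))
    | Sum.inr (Sum.inl i) => Sum.inl (Sum.inr (Sum.inr (Sum.inl i)))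
    | Sum.inl (Sum.inl (Sum.inr i)) => Sum.inl (Sum.inr (Sum.inr (Sum.inr i)))
    | Sum.inl (Sum.inl (Sum.inl (Sum.inl (Sum.inr i)))) => Sum.inr (Sum.inl i)
    | Sum.inl (Sum.inr i) => Sum.inr (Sum.inr (Sum.inl i))
    | Sum.inr (Sum.inr (Sum.inl i)) => Sum.inr (Sum.inr (Sum.inr (Sum.inl i)))
    | Sum.inr (Sum.inr (Sum.inr i)) => Sum.inr (Sum.inr (Sum.inr (Sum.inr i)))
  left_inv := by rintro ((i | (i | (i | i))) | (i | (i | (i | i)))) <;> rfl
  right_inv := by rintro (((((i | i) | i) | i) | i) | (i | (i | i))) <;> rfl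

def e31 (F Z V N2 N3 : Type) :
    ((F ⊕ Z) ⊕ V) ⊕ (N2 ⊕ N3) ≃ (F ⊕ (Z ⊕ N2)) ⊕ (V ⊕ N3) where
  toFun p := match p with
    | Sum.inl (Sum.inl (Sum.inl i)) => Sum.inl (Sum.inl i)
    | Sum.inl (Sum.inl (Sum.inr i)) => Sum.inl (Sum.inr (Sum.inl i))
    | Sum.inl (Sum.inr i) => Sum.inr (Sum.inl i)
    | Sum.inr (Sum.inl i) => Sum.inl (Sum.inr (Sum.inr i))
    | Sum.inr (Sum.inr i) => Sum.inr (Sum.inr i)
  invFun p := match p with
    | Sum.inl (Sum.inl i) => Sum.inl (Sum.inl (Sum.inl i))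
    | Sum.inl (Sum.inr (Sum.inl i)) => Sum.inl (Sum.inl (Sum.inr i))
    | Sum.inr (Sum.inl i) => Sum.inl (Sum.inr i)
    | Sum.inl (Sum.inr (Sum.inr i)) => Sum.inr (Sum.inl i)
    | Sum.inr (Sum.inr i) => Sum.inr (Sum.inr i)
  left_inv := by rintro (((i | i) | i) | (i | i)) <;> rfl
  right_inv := by rintro ((i | (i | i)) | (i | i)) <;> rfl

def e32 (Y X Z N2 N3 : Type) :
    (Y ⊕ (X ⊕ Z)) ⊕ (N2 ⊕ N3) ≃ ((Y ⊕ X) ⊕ N2) ⊕ (Z ⊕ N3) where
  toFun p := match p with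
    | Sum.inl (Sum.inl i) => Sum.inl (Sum.inl (Sum.inl i))
    | Sum.inl (Sum.inr (Sum.inl i)) => Sum.inl (Sum.inl (Sum.inr i))
    | Sum.inl (Sum.inr (Sum.inr i)) => Sum.inr (Sum.inl i)
    | Sum.inr (Sum.inl i) => Sum.inl (Sum.inr i)
    | Sum.inr (Sum.inr i) => Sum.inr (Sum.inr i)
  invFun p := match p with
    | Sum.inl (Sum.inl (Sum.inl i)) => Sum.inl (Sum.inl i)
    | Sum.inl (Sum.inl (Sum.inr i)) => Sum.inl (Sum.inr (Sum.inl i))
    | Sum.inr (Sum.inl i) => Sum.inl (Sum.inr (Sum.inr i))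
    | Sum.inl (Sum.inr i) => Sum.inr (Sum.inl i)
    | Sum.inr (Sum.inr i) => Sum.inr (Sum.inr i)
  left_inv := by rintro ((i | (i | i)) | (i | i)) <;> rfl
  right_inv := by rintro (((i | i) | i) | (i | i)) <;> rfl

section

variable {K h : ℕ}

/-- The test at the second main vertex. -/
theorem test2 (hK : K = 2 * h) (hh : 14 ≤ h) (hW : ∀ L p, L ≤ h → 3 ≤ p → W K 3 5 L p)
    {C Q D U Y Z : Type} [Finite C] [Finite Q] [Finite D] [Finite U] [Finite Y] [Finite Z]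
    (hC : Nat.card C = 2) (hQ : Nat.card Q = K - 2) (hD : Nat.card D = 2) (hU : Nat.card U = 2)
    (hY : Nat.card Y = h - 4) (hZ : Nat.card Z = h) :
    Fo K 3 5 ((C ⊕ Q) ⊕ (D ⊕ (U ⊕ (Y ⊕ Z)))) (fun x =>
      red (fun i => x (Sum.inl (Sum.inl i))) + red (fun i => x (Sum.inr (Sum.inl i))) +
        red (fun i => x (Sum.inr (Sum.inr (Sum.inr (Sum.inl i))))) ≤ 2) := by
  have hN : Nat.card (Fin K) = K := Nat.card_fin K
  have c1 : Nat.card ((C ⊕ D) ⊕ Y) = h := by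
    simp only [Nat.card_sum]; omega
  have c2 : Nat.card (((C ⊕ D) ⊕ Y) ⊕ Z) = K := by
    simp only [Nat.card_sum]; omega
  have c3 : Nat.card (U ⊕ Q) = K := by
    simp only [Nat.card_sum]; omega
  have ha := (Fo.alive (K := K) (L := h) ((C ⊕ D) ⊕ Y) (Z ⊕ Fin K) c1
    (by simp only [Nat.card_sum]; omega) (fun p hp => hW h p le_rfl hp)).transport
    (Equiv.sumAssoc ((C ⊕ D) ⊕ Y) Z (Fin K)).symm
  refine (Fo.num c2 c3 hN (e2 C Q D U Y Z) ha (Fo.leaf K 3 5 ((U ⊕ Q) ⊕ Fin K))).mono ?_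
  rintro x ⟨n, g1, g2, g3, hA, -⟩
  have h1 : red (fun i : (C ⊕ D) ⊕ Y => x ((e2 C Q D U Y Z).symm (Sum.inl (Sum.inl i)))) ≤ 2 := hA
  have r1 : red (fun i : (C ⊕ D) ⊕ Y => x ((e2 C Q D U Y Z).symm (Sum.inl (Sum.inl i)))) =
      red (fun i => x (Sum.inl (Sum.inl i))) + red (fun i => x (Sum.inr (Sum.inl i))) +
        red (fun i => x (Sum.inr (Sum.inr (Sum.inr (Sum.inl i))))) :=
    (red_sum _).trans (congrArg (· + _) (red_sum _))
  omega

/-- The test at the fourth main vertex. -/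
theorem test4 (hK : K = 2 * h) (hh : 14 ≤ h) (hW : ∀ L p, L ≤ h → 3 ≤ p → W K 3 5 L p)
    {C V X Z D Q : Type} [Finite C] [Finite Q] [Finite D] [Finite V] [Finite X] [Finite Z]
    (hC : Nat.card C = 2) (hQ : Nat.card Q = K - 2) (hD : Nat.card D = 2)
    (hV : Nat.card V = h - 6) (hX : Nat.card X = 10) (hZ : Nat.card Z = h - 6) :
    Fo K 3 5 ((C ⊕ (V ⊕ (X ⊕ Z))) ⊕ (D ⊕ Q)) (fun x =>
      red (fun i => x (Sum.inl (Sum.inl i))) + red (fun i => x (Sum.inr (Sum.inl i))) +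
        red (fun i => x (Sum.inl (Sum.inr (Sum.inr (Sum.inl i))))) ≤ 2) := by
  have c1 : Nat.card ((C ⊕ D) ⊕ X) = 14 := by
    simp only [Nat.card_sum]; omega
  have ha := (Fo.alive (K := K) (L := 14) ((C ⊕ D) ⊕ X) ((V ⊕ Z) ⊕ Q) c1
    (by simp only [Nat.card_sum]; omega) (fun p hp => hW 14 p hh hp)).transport
    (e4 C D X V Z Q)
  refine ha.mono ?_
  intro x hx
  have h1 : red (fun i : (C ⊕ D) ⊕ X => x ((e4 C D X V Z Q) (Sum.inl i))) ≤ 2 := hx
  have r1 : red (fun i : (C ⊕ D) ⊕ X => x ((e4 C D X V Z Q) (Sum.inl i))) =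
      red (fun i => x (Sum.inl (Sum.inl i))) + red (fun i => x (Sum.inr (Sum.inl i))) +
        red (fun i => x (Sum.inl (Sum.inr (Sum.inr (Sum.inl i))))) :=
    (red_sum _).trans (congrArg (· + _) (red_sum _))
  omega

/-- The test at the third main vertex. -/
theorem test3 (hK : K = 2 * h) (hh : 14 ≤ h) (hW : ∀ L p, L ≤ h → 3 ≤ p → W K 3 5 L p)
    {C U Y Z D V X Z3 : Type} [Finite C] [Finite U] [Finite Y] [Finite Z] [Finite D] [Finite V]
    [Finite X] [Finite Z3]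
    (hC : Nat.card C = 2) (hU : Nat.card U = 2) (hY : Nat.card Y = h - 4) (hZ : Nat.card Z = h)
    (hD : Nat.card D = 2) (hV : Nat.card V = h - 6) (hX : Nat.card X = 10)
    (hZ3 : Nat.card Z3 = h - 6) :
    Fo K 3 5 ((C ⊕ (U ⊕ (Y ⊕ Z))) ⊕ (D ⊕ (V ⊕ (X ⊕ Z3)))) (fun x =>
      red (fun i => x (Sum.inl (Sum.inl i))) + red (fun i => x (Sum.inr (Sum.inl i))) +
        red (fun i => x (Sum.inl (Sum.inr (Sum.inl i)))) ≤ 2 ∧
      red (fun i => x (Sum.inl (Sum.inl i))) + red (fun i => x (Sum.inr (Sum.inl i))) +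
        red (fun i => x (Sum.inl (Sum.inr (Sum.inl i)))) +
        red (fun i => x (Sum.inl (Sum.inr (Sum.inr (Sum.inr i))))) ≤ 3 ∧
      (red (fun i => x (Sum.inl (Sum.inl i))) + red (fun i => x (Sum.inr (Sum.inl i))) +
        red (fun i => x (Sum.inl (Sum.inr (Sum.inl i)))) +
        red (fun i => x (Sum.inl (Sum.inr (Sum.inr (Sum.inr i))))) ≤ 2 ∨
       1 ≤ red (fun i => x (Sum.inl (Sum.inr (Sum.inr (Sum.inl i))))) +
         red (fun i => x (Sum.inr (Sum.inr (Sum.inr (Sum.inl i))))))) := by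
  have hN : Nat.card (Fin K) = K := Nat.card_fin K
  have hN2 : Nat.card (Fin (h - 6)) = h - 6 := Nat.card_fin _
  have hN3 : Nat.card (Fin (h + 6)) = h + 6 := Nat.card_fin _
  have c0 : Nat.card ((C ⊕ D) ⊕ U) = 6 := by
    simp only [Nat.card_sum]; omega
  have c1 : Nat.card (((((C ⊕ D) ⊕ U) ⊕ Z) ⊕ V)) = K := by
    simp only [Nat.card_sum]; omega
  have c2 : Nat.card (Y ⊕ (X ⊕ Z3)) = K := by
    simp only [Nat.card_sum]; omega
  have c3 : Nat.card (Fin (h - 6) ⊕ Fin (h + 6)) = K := by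
    simp only [Nat.card_sum]; omega
  -- the first half
  have d1 : Nat.card (((C ⊕ D) ⊕ U) ⊕ (Z ⊕ Fin (h - 6))) = K := by
    simp only [Nat.card_sum]; omega
  have d2 : Nat.card (V ⊕ Fin (h + 6)) = K := by
    simp only [Nat.card_sum]; omega
  have ha := (Fo.alive (K := K) (L := 6) ((C ⊕ D) ⊕ U) ((Z ⊕ Fin (h - 6)) ⊕ Fin K) c0
    (by simp only [Nat.card_sum]; omega)
    (fun p hp => hW 6 p (by omega) hp)).transport
    (Equiv.sumAssoc ((C ⊕ D) ⊕ U) (Z ⊕ Fin (h - 6)) (Fin K)).symm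
  have k1 := Fo.num d1 d2 hN (e31 ((C ⊕ D) ⊕ U) Z V (Fin (h - 6)) (Fin (h + 6))) ha
    (Fo.leaf K 3 5 ((V ⊕ Fin (h + 6)) ⊕ Fin K))
  -- the second half
  have f1 : Nat.card ((Y ⊕ X) ⊕ Fin (h - 6)) = K := by
    simp only [Nat.card_sum]; omega
  have f2 : Nat.card (Z3 ⊕ Fin (h + 6)) = K := by
    simp only [Nat.card_sum]; omega
  have k2 := Fo.num f1 f2 hN (e32 Y X Z3 (Fin (h - 6)) (Fin (h + 6)))
    (Fo.leaf K 3 5 (((Y ⊕ X) ⊕ Fin (h - 6)) ⊕ Fin K)) (Fo.leaf K 3 5 ((Z3 ⊕ Fin (h + 6)) ⊕ Fin K))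
  refine (Fo.num c1 c2 c3 (e3 C U Y Z D V X Z3) k1 k2).mono ?_
  rintro x ⟨n, g1, g2, g3, ⟨n1, a1, a2, a3, hA, -⟩, ⟨n2, b1, b2, b3, -, -⟩⟩
  have hA' : red (fun i : (C ⊕ D) ⊕ U => x ((e3 C U Y Z D V X Z3).symm
      (Sum.inl (Sum.inl (Sum.inl i))))) ≤ 2 := hA
  have r0 : red (fun i : (C ⊕ D) ⊕ U => x ((e3 C U Y Z D V X Z3).symm
      (Sum.inl (Sum.inl (Sum.inl i))))) =
      red (fun i => x (Sum.inl (Sum.inl i))) + red (fun i => x (Sum.inr (Sum.inl i))) +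
        red (fun i => x (Sum.inl (Sum.inr (Sum.inl i)))) :=
    (red_sum _).trans (congrArg (· + _) (red_sum _))
  -- `G1`
  have r1 : red (fun j : ((C ⊕ D) ⊕ U) ⊕ (Z ⊕ Fin (h - 6)) =>
      (Sum.elim (fun j => x ((e3 C U Y Z D V X Z3).symm (Sum.inl j))) n :
        ((((C ⊕ D) ⊕ U) ⊕ Z) ⊕ V) ⊕ (Fin (h - 6) ⊕ Fin (h + 6)) → Bool)
        ((e31 ((C ⊕ D) ⊕ U) Z V (Fin (h - 6)) (Fin (h + 6))).symm (Sum.inl j))) =
      (red (fun i => x (Sum.inl (Sum.inl i))) + red (fun i => x (Sum.inr (Sum.inl i))) +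
        red (fun i => x (Sum.inl (Sum.inr (Sum.inl i))))) +
      (red (fun i => x (Sum.inl (Sum.inr (Sum.inr (Sum.inr i))))) +
        red (fun i => n (Sum.inl i))) :=
    (red_sum _).trans (congrArg₂ (· + ·) ((red_sum _).trans (congrArg (· + _) (red_sum _)))
      (red_sum _))
  -- `G2`
  have r2 : red (fun j : (Y ⊕ X) ⊕ Fin (h - 6) =>
      (Sum.elim (fun j => x ((e3 C U Y Z D V X Z3).symm (Sum.inr j))) n :
        (Y ⊕ (X ⊕ Z3)) ⊕ (Fin (h - 6) ⊕ Fin (h + 6)) → Bool)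
        ((e32 Y X Z3 (Fin (h - 6)) (Fin (h + 6))).symm (Sum.inl j))) =
      (red (fun i => x (Sum.inl (Sum.inr (Sum.inr (Sum.inl i))))) +
         red (fun i => x (Sum.inr (Sum.inr (Sum.inr (Sum.inl i)))))) +
        red (fun i => n (Sum.inl i)) :=
    (red_sum _).trans (congrArg (· + _) (red_sum _))
  rw [r0] at hA'
  rw [r1] at a1 a2
  rw [r2] at b1 b2
  omega

/-- The main lemma. -/
theorem W_main (hK : K = 2 * h) (hh : 14 ≤ h) (hW : ∀ L p, L ≤ h → 3 ≤ p → W K 3 5 L p) :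
    W K 3 5 (K - 2) 0 := by
  intro M R _ _ hM hR T hT
  set C := Fin 2 with hCd
  set Q := Fin (K - 2) with hQd
  set Y := Fin (h - 4) with hYd
  set Z := Fin h with hZd
  set V := Fin (h - 6) with hVd
  set X := Fin 10 with hXd
  have cC : Nat.card C = 2 := Nat.card_fin _
  have cQ : Nat.card Q = K - 2 := Nat.card_fin _
  have cY : Nat.card Y = h - 4 := Nat.card_fin _
  have cZ : Nat.card Z = h := Nat.card_fin _
  have cV : Nat.card V = h - 6 := Nat.card_fin _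
  have cX : Nat.card X = 10 := Nat.card_fin _
  have cMC : Nat.card (M ⊕ C) = K := by simp only [Nat.card_sum]; omega
  have cCQ : Nat.card (C ⊕ Q) = K := by simp only [Nat.card_sum]; omega
  have cCQ2 : Nat.card (C ⊕ (C ⊕ (Y ⊕ Z))) = K := by
    simp only [Nat.card_sum]; omega
  have cCQ3 : Nat.card (C ⊕ (V ⊕ (X ⊕ V))) = K := by
    simp only [Nat.card_sum]; omega
  -- after the last vertex
  have h5 : Fo K 3 5 ((M ⊕ C) ⊕ (C ⊕ Q)) (fun x => (fun i => x (Sum.inl (Sum.inl i))) ∉ T) := by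
    obtain ⟨e⟩ : Nonempty (R ≃ C ⊕ (C ⊕ Q)) := by
      refine Finite.card_eq.1 ?_
      simp only [Nat.card_sum]
      omega
    refine Kill.mono (hT.transport ((Equiv.sumCongr (Equiv.refl M) e).trans
      (Equiv.sumAssoc M C (C ⊕ Q)).symm)) fun x hx => ?_
    exact Classical.not_not.1 hx
  -- before the last vertex
  have h4 : Fo K 3 5 ((M ⊕ C) ⊕ (C ⊕ Q)) (fun x => (fun i => x (Sum.inl (Sum.inl i))) ∉ T ∧
      (red (fun i => x (Sum.inl (Sum.inl i))) = 0 → 1 ≤ red (fun i => x (Sum.inr (Sum.inl i))))) := by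
    refine (Fo.num cCQ cMC cCQ (eR M C C Q) (Fo.leaf K 3 5 ((C ⊕ Q) ⊕ (C ⊕ Q))) h5).mono ?_
    rintro x ⟨n, g1, g2, g3, -, hB⟩
    have r2 : red (fun j => x ((eR M C C Q).symm (Sum.inr j))) =
        red (fun i => x (Sum.inl (Sum.inl i))) + red (fun i => x (Sum.inr (Sum.inl i))) :=
      red_sum _
    exact ⟨hB, by omega⟩
  -- before the fourth vertex
  have h3 : Fo K 3 5 ((M ⊕ C) ⊕ (C ⊕ (V ⊕ (X ⊕ V)))) (fun x =>
      (fun i => x (Sum.inl (Sum.inl i))) ∉ T ∧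
      (red (fun i => x (Sum.inl (Sum.inl i))) = 0 → 1 ≤ red (fun i => x (Sum.inr (Sum.inl i))) ∧
        red (fun i => x (Sum.inl (Sum.inr i))) +
          red (fun i => x (Sum.inr (Sum.inr (Sum.inr (Sum.inl i))))) ≤ 1)) := by
    refine (Fo.num cCQ3 cMC cCQ (eR M C C (V ⊕ (X ⊕ V)))
      (test4 hK hh hW cC cQ cC cV cX cV) h4).mono ?_
    rintro x ⟨n, g1, g2, g3, hA, hB1, hB2⟩
    have r2 : red (fun j => x ((eR M C C (V ⊕ (X ⊕ V))).symm (Sum.inr j))) =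
        red (fun i => x (Sum.inl (Sum.inl i))) + red (fun i => x (Sum.inr (Sum.inl i))) :=
      red_sum _
    have hA' : red (fun i => x (Sum.inl (Sum.inr i))) + red (fun i => n (Sum.inl i)) +
        red (fun i => x (Sum.inr (Sum.inr (Sum.inr (Sum.inl i))))) ≤ 2 := hA
    refine ⟨hB1, fun h0 => ?_⟩
    have hB2' : 1 ≤ red (fun i => n (Sum.inl i)) := hB2 h0
    omega
  -- before the third vertex
  have h2 : Fo K 3 5 ((M ⊕ C) ⊕ (C ⊕ (C ⊕ (Y ⊕ Z)))) (fun x =>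
      (fun i => x (Sum.inl (Sum.inl i))) ∉ T ∧
      (red (fun i => x (Sum.inl (Sum.inl i))) = 0 → red (fun i => x (Sum.inr (Sum.inl i))) = 1 ∧
        red (fun i => x (Sum.inl (Sum.inr i))) +
          red (fun i => x (Sum.inr (Sum.inr (Sum.inl i)))) ≤ 1 ∧
        red (fun i => x (Sum.inl (Sum.inr i))) +
          red (fun i => x (Sum.inr (Sum.inr (Sum.inl i)))) +
          red (fun i => x (Sum.inr (Sum.inr (Sum.inr (Sum.inr i))))) ≤ 2 ∧
        (red (fun i => x (Sum.inl (Sum.inr i))) +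
          red (fun i => x (Sum.inr (Sum.inr (Sum.inl i)))) +
          red (fun i => x (Sum.inr (Sum.inr (Sum.inr (Sum.inr i))))) ≤ 1 ∨
          1 ≤ red (fun i => x (Sum.inr (Sum.inr (Sum.inr (Sum.inl i)))))))) := by
    refine (Fo.num cCQ2 cMC cCQ3 (eR M C C (C ⊕ (Y ⊕ Z)))
      (test3 hK hh hW cC cC cY cZ cC cV cX cV) h3).mono ?_
    rintro x ⟨n, g1, g2, g3, ⟨a1, a2, a3⟩, hB1, hB2⟩
    have r2 : red (fun j => x ((eR M C C (C ⊕ (Y ⊕ Z))).symm (Sum.inr j))) =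
        red (fun i => x (Sum.inl (Sum.inl i))) + red (fun i => x (Sum.inr (Sum.inl i))) :=
      red_sum _
    have a1' : red (fun i => x (Sum.inl (Sum.inr i))) + red (fun i => n (Sum.inl i)) +
        red (fun i => x (Sum.inr (Sum.inr (Sum.inl i)))) ≤ 2 := a1
    have a2' : red (fun i => x (Sum.inl (Sum.inr i))) + red (fun i => n (Sum.inl i)) +
        red (fun i => x (Sum.inr (Sum.inr (Sum.inl i)))) +
        red (fun i => x (Sum.inr (Sum.inr (Sum.inr (Sum.inr i))))) ≤ 3 := a2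
    have a3' : red (fun i => x (Sum.inl (Sum.inr i))) + red (fun i => n (Sum.inl i)) +
        red (fun i => x (Sum.inr (Sum.inr (Sum.inl i)))) +
        red (fun i => x (Sum.inr (Sum.inr (Sum.inr (Sum.inr i))))) ≤ 2 ∨
        1 ≤ red (fun i => x (Sum.inr (Sum.inr (Sum.inr (Sum.inl i))))) +
          red (fun i => n (Sum.inr (Sum.inr (Sum.inl i)))) := a3
    refine ⟨hB1, fun h0 => ?_⟩
    have hB2' : 1 ≤ red (fun i => n (Sum.inl i)) ∧
        red (fun i => x (Sum.inr (Sum.inl i))) + red (fun i => n (Sum.inr (Sum.inr (Sum.inl i)))) ≤ 1 :=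
      hB2 h0
    omega
  -- before the second vertex
  have h1 : Fo K 3 5 ((M ⊕ C) ⊕ (C ⊕ Q)) (fun x =>
      (fun i => x (Sum.inl (Sum.inl i))) ∉ T ∧
      (red (fun i => x (Sum.inl (Sum.inl i))) = 0 → red (fun i => x (Sum.inl (Sum.inr i))) = 0)) := by
    refine (Fo.num cCQ cMC cCQ2 (eR M C C Q)
      (test2 hK hh hW cC cQ cC cC cY cZ) h2).mono ?_
    rintro x ⟨n, g1, g2, g3, hA, hB1, hB2⟩
    have r2 : red (fun j => x ((eR M C C Q).symm (Sum.inr j))) =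
        red (fun i => x (Sum.inl (Sum.inl i))) + red (fun i => x (Sum.inr (Sum.inl i))) :=
      red_sum _
    have rn : red n = red (fun i => n (Sum.inl i)) + (red (fun i => n (Sum.inr (Sum.inl i))) +
        (red (fun i => n (Sum.inr (Sum.inr (Sum.inl i)))) +
          red (fun i => n (Sum.inr (Sum.inr (Sum.inr i)))))) :=
      (red_sum _).trans (congrArg _ ((red_sum _).trans (congrArg _ (red_sum _))))
    have hA' : red (fun i => x (Sum.inl (Sum.inr i))) + red (fun i => n (Sum.inl i)) +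
        red (fun i => n (Sum.inr (Sum.inr (Sum.inl i)))) ≤ 2 := hA
    refine ⟨hB1, fun h0 => ?_⟩
    have hB2' : red (fun i => n (Sum.inl i)) = 1 ∧
        red (fun i => x (Sum.inr (Sum.inl i))) + red (fun i => n (Sum.inr (Sum.inl i))) ≤ 1 ∧
        red (fun i => x (Sum.inr (Sum.inl i))) + red (fun i => n (Sum.inr (Sum.inl i))) +
          red (fun i => n (Sum.inr (Sum.inr (Sum.inr i)))) ≤ 2 ∧
        (red (fun i => x (Sum.inr (Sum.inl i))) + red (fun i => n (Sum.inr (Sum.inl i))) +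
          red (fun i => n (Sum.inr (Sum.inr (Sum.inr i)))) ≤ 1 ∨
          1 ≤ red (fun i => n (Sum.inr (Sum.inr (Sum.inl i))))) := hB2 h0
    omega
  -- the root
  have h0 : Fo K 3 5 ((M ⊕ C) ⊕ (C ⊕ Q)) (fun x =>
      (fun i => x (Sum.inl (Sum.inl i))) ∉ T ∧ red (fun i => x (Sum.inl (Sum.inl i))) ≠ 0) := by
    refine (Fo.num cCQ cMC cCQ (eR M C C Q) (Fo.leaf K 3 5 ((C ⊕ Q) ⊕ (C ⊕ Q))) h1).mono ?_
    rintro x ⟨n, g1, g2, g3, -, hB1, hB2⟩
    have r2 : red (fun j => x ((eR M C C Q).symm (Sum.inr j))) =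
        red (fun i => x (Sum.inl (Sum.inl i))) + red (fun i => x (Sum.inr (Sum.inl i))) :=
      red_sum _
    refine ⟨hB1, fun hz => ?_⟩
    have hB2' : red (fun i => x (Sum.inr (Sum.inl i))) = 0 := hB2 hz
    omega
  obtain ⟨e⟩ : Nonempty (C ⊕ (C ⊕ Q) ≃ R) := by
    refine Finite.card_eq.1 ?_
    simp only [Nat.card_sum]
    omega
  refine Kill.mono (Fo.transport h0 ((Equiv.sumAssoc M C (C ⊕ Q)).trans
    (Equiv.sumCongr (Equiv.refl M) e))) fun x hx => ?_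
  intro hc
  rcases hx with hx | hx
  · exact hc.1 hx
  · exact hc.2 hx

end

end Pool.Agent.Lib.MP_21a058_co.Slack3
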