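import Pool.Agent.Lib.MP_21a058_co.Slack3.AllOdd36

/-! For every even `S` all but a bounded number of the pairs of odd `a`, `b` with `a + b = S` have
`f(a, b) ≥ a + b + 3`. -/

set_option autoImplicit false

namespace Pool.Agent.Lib.MP_21a058_co.Slack3.Count86

open Finset Pool.Agent.Lib.MP_21a058_co Pool.Agent.Lib.MP_21a058_co.Slack3

/-- A partition into `a` and `S - a` forces a good approximation of `(a + 1) / (S + 2)`. -/
theorem close {S a : ℕ} (hS : Even S) (ha : Odd a) (hle : a ≤ S)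
    (h : Arrow (S + 2) ![a, S - a]) :
    ∃ q h : ℤ, 1 ≤ q ∧ q ≤ 60 ∧ |q * ((a : ℤ) + 1) - h * ((S : ℤ) + 2)| < 10 * q + 300 := by
  by_contra hcon
  push Not at hcon
  have e1 : ∑ l ∈ ({0} : Finset (Fin 2)), (![a, S - a] : Fin 2 → ℕ) l = a := by simp
  have e2 : ∑ l, (![a, S - a] : Fin 2 → ℕ) l = S := by
    rw [Fin.sum_univ_two]
    show a + (S - a) = S
    omega
  have key := AllOdd36.not_arrow (![a, S - a] : Fin 2 → ℕ) ({0} : Finset (Fin 2))
    (by rw [e1]; exact ha) (by rw [e2]; exact hS) (by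
      rw [e1, e2]
      intro q h h1 h2
      exact hcon q h h1 h2)
  rw [e2] at key
  exact key h

/-- **All but a bounded number.** -/
theorem few (S : ℕ) (hS : Even S) (A : Finset ℕ)
    (hA : ∀ a ∈ A, Odd a ∧ a ≤ S ∧ Arrow (S + 2) ![a, S - a]) :
    A.card ≤ 60 * (961 * 1801) := by
  classical
  have hc : ∀ a : ℕ, ∃ p : ℤ × ℤ, a ∈ A → 1 ≤ p.1 ∧ p.1 ≤ 60 ∧
      |p.1 * ((a : ℤ) + 1) - p.2 * ((S : ℤ) + 2)| < 10 * p.1 + 300 := by
    intro a
    by_cases ha : a ∈ A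
    · obtain ⟨h1, h2, h3⟩ := hA a ha
      obtain ⟨q, h, hq, hq2, hh⟩ := close hS h1 h2 h3
      exact ⟨(q, h), fun _ => ⟨hq, hq2, hh⟩⟩
    · exact ⟨(0, 0), fun h => absurd h ha⟩
  choose p hp using hc
  obtain ⟨T, hT⟩ : ∃ T : Finset (ℤ × (ℤ × ℤ)), T = (Icc (1 : ℤ) 60) ×ˢ ((Icc (-450 : ℤ) 510) ×ˢ
    (Icc (-900 : ℤ) 900)) := ⟨_, rfl⟩
  have hcard : T.card = 60 * (961 * 1801) := by
    rw [hT, card_product, card_product, Int.card_Icc, Int.card_Icc, Int.card_Icc]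
    rfl
  have hmem : ∀ q h z : ℤ, 1 ≤ q → q ≤ 60 → -450 ≤ h → h ≤ 510 → -900 ≤ z → z ≤ 900 →
      (q, (h, z)) ∈ T := by
    intro q h z h1 h2 h3 h4 h5 h6
    rw [hT, mem_product, mem_product, mem_Icc, mem_Icc, mem_Icc]
    exact ⟨⟨h1, h2⟩, ⟨h3, h4⟩, ⟨h5, h6⟩⟩
  have hmaps : ∀ a ∈ A, ((p a).1, ((p a).2, (p a).1 * ((a : ℤ) + 1) - (p a).2 * ((S : ℤ) + 2))) ∈
      T := by
    intro a ha
    obtain ⟨h1, h2, h3⟩ := hp a ha
    obtain ⟨-, hle, -⟩ := hA a ha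
    have h4 := abs_lt.mp h3
    have hz : (a : ℤ) ≤ S := by exact_mod_cast hle
    have hS0 : (0 : ℤ) ≤ S := Int.natCast_nonneg S
    have ha0 : (0 : ℤ) ≤ a := Int.natCast_nonneg a
    have g1 : (0 : ℤ) ≤ (p a).1 * ((a : ℤ) + 1) := mul_nonneg (by linarith) (by linarith)
    have g2 : (p a).1 * ((a : ℤ) + 1) ≤ 60 * ((S : ℤ) + 2) :=
      mul_le_mul h2 (by linarith) (by linarith) (by norm_num)
    have g3 : -450 ≤ (p a).2 := by
      by_contra hc
      push Not at hc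
      have : (p a).2 * ((S : ℤ) + 2) ≤ -451 * 2 := by nlinarith
      linarith
    have g4 : (p a).2 ≤ 510 := by
      by_contra hc
      push Not at hc
      have : 451 * 2 ≤ ((p a).2 - 60) * ((S : ℤ) + 2) := by nlinarith
      linarith
    exact hmem _ _ _ h1 h2 g3 g4 (by linarith) (by linarith)
  have hinj : ∀ a ∈ A, ∀ b ∈ A,
      ((p a).1, ((p a).2, (p a).1 * ((a : ℤ) + 1) - (p a).2 * ((S : ℤ) + 2))) =
      ((p b).1, ((p b).2, (p b).1 * ((b : ℤ) + 1) - (p b).2 * ((S : ℤ) + 2))) → a = b := by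
    intro a ha b hb hab
    obtain ⟨h1, -, -⟩ := hp a ha
    rw [Prod.mk.injEq, Prod.mk.injEq] at hab
    obtain ⟨e1, e2, e3⟩ := hab
    rw [e1, e2] at e3
    rw [e1] at h1
    have e4 : (p b).1 * ((a : ℤ) + 1) = (p b).1 * ((b : ℤ) + 1) := by linarith
    have e5 : (a : ℤ) + 1 = (b : ℤ) + 1 := mul_left_cancel₀ (by omega) e4
    have e6 : (a : ℤ) = b := by linarith
    exact_mod_cast e6
  rw [← hcard]
  exact card_le_card_of_injOn _ (fun a ha => hmaps a ha) (fun a ha b hb hab => hinj a ha b hb hab)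

end Pool.Agent.Lib.MP_21a058_co.Slack3.Count86
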