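import Pool.Agent.Lib.MP_21a058_co.Slack3.Rule

/-! A general window `l ≤ red ≤ u`, the main refutation with numbers: `P` red edges among `m` edges
that stay alive are refutable if no full set has more than `P + x` red edges, an alive set of
`2 (K - m) + t` edges has at least `2 x + z` red ones and `3 t` alive edges have less than `3 z`. -/

set_option autoImplicit false

namespace Pool.Agent.Lib.MP_21a058_co.Slack3.MX39

open Pool.Agent.Lib.MP_21a058_co.Slack3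
open Pool.Agent.Lib.MP_21a058_co.Odd (red red_sum red_equiv red_le)

/-- Some structure over `I` forces `A` on every good colouring. -/
def Fo (K l u : ℕ) (I : Type) (A : (I → Bool) → Prop) : Prop := Kill K l u I {x | ¬ A x}

theorem Fo.mono {K l u : ℕ} {I : Type} {A B : (I → Bool) → Prop} (h : Fo K l u I A)
    (hAB : ∀ x, A x → B x) : Fo K l u I B :=
  Kill.mono h fun _ hx hA => hx (hAB _ hA)

theorem Fo.transport {K l u : ℕ} {I J : Type} {A : (I → Bool) → Prop} (h : Fo K l u I A)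
    (e : I ≃ J) : Fo K l u J (fun y => A (fun i => y (e i))) :=
  Kill.transport h e

theorem Fo.triv (K l u : ℕ) (I : Type) : Fo K l u I (fun _ => True) :=
  Kill.mono (Kill.empty K l u I) fun _ hx => (hx trivial).elim

theorem Fo.info {K l u : ℕ} {I : Type} {A : (I → Bool) → Prop} (h : Fo K l u I A) :
    Fo K l u I (fun x => (l ≤ red x ∧ red x ≤ u) ∧ A x) := by
  refine Kill.mono (Kill.addBase h) fun x hx => ?_
  by_cases hA : A x
  · right
    by_contra hcon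
    push Not at hcon
    exact hx ⟨⟨hcon.1, hcon.2⟩, hA⟩
  · exact Or.inl hA

theorem Fo.node {K l u : ℕ} {I J1 J2 N : Type} [Finite N] (h1 : Nat.card J1 = K)
    (h2 : Nat.card J2 = K) (h3 : Nat.card N = K) (e : I ≃ J1 ⊕ J2)
    {A : (J1 ⊕ N → Bool) → Prop} {B : (J2 ⊕ N → Bool) → Prop}
    (hA : Fo K l u (J1 ⊕ N) A) (hB : Fo K l u (J2 ⊕ N) B) :
    Fo K l u I (fun x => (l ≤ red x ∧ red x ≤ u) ∧ ∃ n : N → Bool,
      ((l ≤ red (Sum.elim (fun j => x (e.symm (Sum.inl j))) n) ∧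
        red (Sum.elim (fun j => x (e.symm (Sum.inl j))) n) ≤ u) ∧
        A (Sum.elim (fun j => x (e.symm (Sum.inl j))) n)) ∧
      ((l ≤ red (Sum.elim (fun j => x (e.symm (Sum.inr j))) n) ∧
        red (Sum.elim (fun j => x (e.symm (Sum.inr j))) n) ≤ u) ∧
        B (Sum.elim (fun j => x (e.symm (Sum.inr j))) n))) := by
  obtain ⟨eN⟩ : Nonempty (N ≃ Fin K) := ⟨Finite.equivFinOfCardEq h3⟩
  have kA := hA.info.transport (Equiv.sumCongr (Equiv.refl J1) eN)
  have kB := hB.info.transport (Equiv.sumCongr (Equiv.refl J2) eN)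
  refine Kill.node I J1 J2 h1 h2 e _ _ _ kA kB fun x hx => ?_
  by_cases hg : l ≤ red x ∧ red x ≤ u
  · right
    intro n
    by_contra hcon
    obtain ⟨c1, c2⟩ := not_or.1 hcon
    refine hx ⟨hg, fun i => n (eN i), ?_, ?_⟩
    · have c3 := Classical.not_not.1 c1
      have : (fun i => (Sum.elim (fun j => x (e.symm (Sum.inl j))) n : J1 ⊕ Fin K → Bool)
          ((Equiv.sumCongr (Equiv.refl J1) eN) i)) =
          Sum.elim (fun j => x (e.symm (Sum.inl j))) fun i => n (eN i) := by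
        funext i
        rcases i with i | i <;> rfl
      beta_reduce at c3
      rw [this] at c3
      exact c3
    · have c3 := Classical.not_not.1 c2
      have : (fun i => (Sum.elim (fun j => x (e.symm (Sum.inr j))) n : J2 ⊕ Fin K → Bool)
          ((Equiv.sumCongr (Equiv.refl J2) eN) i)) =
          Sum.elim (fun j => x (e.symm (Sum.inr j))) fun i => n (eN i) := by
        funext i
        rcases i with i | i <;> rfl
      beta_reduce at c3
      rw [this] at c3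
      exact c3
  · left
    by_contra hcon
    push Not at hcon
    exact hg ⟨hcon.1, hcon.2⟩

/-- The node rule in numbers. -/
theorem Fo.num {K l u : ℕ} {I J1 J2 N : Type} [Finite I] [Finite J1] [Finite J2] [Finite N]
    (h1 : Nat.card J1 = K) (h2 : Nat.card J2 = K) (h3 : Nat.card N = K) (e : I ≃ J1 ⊕ J2)
    {A : (J1 ⊕ N → Bool) → Prop} {B : (J2 ⊕ N → Bool) → Prop}
    (hA : Fo K l u (J1 ⊕ N) A) (hB : Fo K l u (J2 ⊕ N) B) :
    Fo K l u I (fun x => ∃ n : N → Bool,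
      2 * red (fun j => x (e.symm (Sum.inr j))) + l ≤ 2 * u ∧
      A (Sum.elim (fun j => x (e.symm (Sum.inl j))) n) ∧
      B (Sum.elim (fun j => x (e.symm (Sum.inr j))) n)) := by
  refine (Fo.node h1 h2 h3 e hA hB).mono ?_
  rintro x ⟨g0, n, ⟨g1, hA'⟩, g2, hB'⟩
  have r0 : red x = red (fun j => x (e.symm (Sum.inl j))) +
      red (fun j => x (e.symm (Sum.inr j))) :=
    (red_equiv e.symm x).symm.trans (red_sum _)
  have r1 : red (Sum.elim (fun j => x (e.symm (Sum.inl j))) n) =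
      red (fun j => x (e.symm (Sum.inl j))) + red n := red_sum _
  have r2 : red (Sum.elim (fun j => x (e.symm (Sum.inr j))) n) =
      red (fun j => x (e.symm (Sum.inr j))) + red n := red_sum _
  exact ⟨n, by omega, hA', hB'⟩

/-- An alive set with few red edges. -/
theorem small {K l u L y : ℕ} {F R : Type} [Finite F] [Finite R] (hF : Nat.card F = L)
    (hR : Nat.card F + Nat.card R = 2 * K) (h : ∀ p, y ≤ p → W K l u L p) :
    Fo K l u (F ⊕ R) (fun x => red (fun f => x (Sum.inl f)) < y) := by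
  have h1 := W_seq' (K := K) (l := l) (u := u) F R hF hR ∅
    ((Kill.empty K l u _).mono (by intro x hx; exact absurd hx (Set.notMem_empty _)))
  refine Kill.mono h1 fun x hx => Or.inr (h _ ?_)
  have hx' : ¬ red (fun f => x (Sum.inl f)) < y := hx
  omega

/-- An alive set with many red edges. -/
theorem low {K l u L y : ℕ} {F R : Type} [Finite F] [Finite R] (hF : Nat.card F = L)
    (hR : Nat.card F + Nat.card R = 2 * K) (h : ∀ p, p < y → W K l u L p) :
    Fo K l u (F ⊕ R) (fun x => y ≤ red (fun f => x (Sum.inl f))) := by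
  have h1 := W_seq' (K := K) (l := l) (u := u) F R hF hR ∅
    ((Kill.empty K l u _).mono (by intro x hx; exact absurd hx (Set.notMem_empty _)))
  refine Kill.mono h1 fun x hx => Or.inr (h _ ?_)
  have hx' : ¬ y ≤ red (fun f => x (Sum.inl f)) := hx
  omega

def eT (C C' Z Y Q : Type) : (C ⊕ (Z ⊕ Y)) ⊕ (C' ⊕ Q) ≃ ((C ⊕ C') ⊕ Z) ⊕ (Y ⊕ Q) where
  toFun p := match p with
    | Sum.inl (Sum.inl c) => Sum.inl (Sum.inl (Sum.inl c))
    | Sum.inl (Sum.inr (Sum.inl z)) => Sum.inl (Sum.inr z)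
    | Sum.inl (Sum.inr (Sum.inr y)) => Sum.inr (Sum.inl y)
    | Sum.inr (Sum.inl c) => Sum.inl (Sum.inl (Sum.inr c))
    | Sum.inr (Sum.inr q) => Sum.inr (Sum.inr q)
  invFun p := match p with
    | Sum.inl (Sum.inl (Sum.inl c)) => Sum.inl (Sum.inl c)
    | Sum.inl (Sum.inl (Sum.inr c)) => Sum.inr (Sum.inl c)
    | Sum.inl (Sum.inr z) => Sum.inl (Sum.inr (Sum.inl z))
    | Sum.inr (Sum.inl y) => Sum.inl (Sum.inr (Sum.inr y))
    | Sum.inr (Sum.inr q) => Sum.inr (Sum.inr q)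
  left_inv := by rintro ((c | (z | y)) | (c | q)) <;> rfl
  right_inv := by rintro (((c | c) | z) | (y | q)) <;> rfl

/-- The test of an alive set that consists of two sets `C` and of `Z`. -/
theorem tst {K l u L y : ℕ} {C C' Z Y Q : Type} [Finite C] [Finite C'] [Finite Z] [Finite Y]
    [Finite Q] (h1 : Nat.card C + Nat.card C' + Nat.card Z = L)
    (h2 : Nat.card C + Nat.card C' + Nat.card Z + (Nat.card Y + Nat.card Q) = 2 * K)
    (h : ∀ p, p < y → W K l u L p) :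
    Fo K l u ((C ⊕ (Z ⊕ Y)) ⊕ (C' ⊕ Q)) (fun x => y ≤ red (fun i => x (Sum.inl (Sum.inl i))) +
      red (fun i => x (Sum.inr (Sum.inl i))) + red (fun i => x (Sum.inl (Sum.inr (Sum.inl i))))) := by
  have k1 := low (K := K) (l := l) (u := u) (F := (C ⊕ C') ⊕ Z) (R := Y ⊕ Q) (L := L)
    (by rw [Nat.card_sum, Nat.card_sum]; exact h1)
    (by rw [Nat.card_sum, Nat.card_sum, Nat.card_sum]; exact h2) h
  refine (k1.transport (eT C C' Z Y Q).symm).mono fun x hx => ?_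
  have r1 : red (fun f => x ((eT C C' Z Y Q).symm (Sum.inl f))) =
      (red (fun i => x (Sum.inl (Sum.inl i))) + red (fun i => x (Sum.inr (Sum.inl i)))) +
      red (fun i => x (Sum.inl (Sum.inr (Sum.inl i)))) :=
    (red_sum _).trans (congrArg (· + _) (red_sum _))
  have hx' : y ≤ red (fun f => x ((eT C C' Z Y Q).symm (Sum.inl f))) := hx
  omega

def eU (C Z Z' N : Type) : (C ⊕ Z) ⊕ (Z' ⊕ N) ≃ (C ⊕ Z') ⊕ (Z ⊕ N) where
  toFun p := match p with
    | Sum.inl (Sum.inl c) => Sum.inl (Sum.inl c)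
    | Sum.inl (Sum.inr z) => Sum.inr (Sum.inl z)
    | Sum.inr (Sum.inl z) => Sum.inl (Sum.inr z)
    | Sum.inr (Sum.inr n) => Sum.inr (Sum.inr n)
  invFun p := match p with
    | Sum.inl (Sum.inl c) => Sum.inl (Sum.inl c)
    | Sum.inl (Sum.inr z) => Sum.inr (Sum.inl z)
    | Sum.inr (Sum.inl z) => Sum.inl (Sum.inr z)
    | Sum.inr (Sum.inr n) => Sum.inr (Sum.inr n)
  left_inv := by rintro ((c | z) | (z | n)) <;> rfl
  right_inv := by rintro ((c | z) | (z | n)) <;> rfl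

/-- The vertex `u1`. -/
theorem u1 {K l u L y : ℕ} {C C' Z Z' N : Type} [Finite C] [Finite C'] [Finite Z] [Finite Z']
    [Finite N] (h1 : Nat.card C + Nat.card C' + Nat.card Z' = L)
    (h2 : Nat.card C + Nat.card C' + Nat.card Z' + (Nat.card Z + Nat.card N) = 2 * K)
    (h : ∀ p, p < y → W K l u L p) :
    Fo K l u (((C ⊕ C') ⊕ Z) ⊕ (Z' ⊕ N)) (fun x =>
      y ≤ red (fun i => x (Sum.inl (Sum.inl (Sum.inl i)))) +
      red (fun i => x (Sum.inl (Sum.inl (Sum.inr i)))) + red (fun i => x (Sum.inr (Sum.inl i)))) := by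
  have k1 := low (K := K) (l := l) (u := u) (F := (C ⊕ C') ⊕ Z') (R := Z ⊕ N) (L := L)
    (by rw [Nat.card_sum, Nat.card_sum]; exact h1)
    (by rw [Nat.card_sum, Nat.card_sum, Nat.card_sum]; exact h2) h
  refine (k1.transport (eU (C ⊕ C') Z' Z N)).mono fun x hx => ?_
  have r1 : red (fun f => x ((eU (C ⊕ C') Z' Z N) (Sum.inl f))) =
      (red (fun i => x (Sum.inl (Sum.inl (Sum.inl i)))) +
        red (fun i => x (Sum.inl (Sum.inl (Sum.inr i))))) +
      red (fun i => x (Sum.inr (Sum.inl i))) :=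
    (red_sum _).trans (congrArg (· + _) (red_sum _))
  have hx' : y ≤ red (fun f => x ((eU (C ⊕ C') Z' Z N) (Sum.inl f))) := hx
  omega

def eV (Z Z' R Z2 N : Type) : ((Z ⊕ Z') ⊕ Z2) ⊕ (R ⊕ N) ≃ ((Z ⊕ Z') ⊕ R) ⊕ (Z2 ⊕ N) where
  toFun p := match p with
    | Sum.inl (Sum.inl c) => Sum.inl (Sum.inl c)
    | Sum.inl (Sum.inr z) => Sum.inr (Sum.inl z)
    | Sum.inr (Sum.inl r) => Sum.inl (Sum.inr r)
    | Sum.inr (Sum.inr n) => Sum.inr (Sum.inr n)
  invFun p := match p with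
    | Sum.inl (Sum.inl c) => Sum.inl (Sum.inl c)
    | Sum.inr (Sum.inl z) => Sum.inl (Sum.inr z)
    | Sum.inl (Sum.inr r) => Sum.inr (Sum.inl r)
    | Sum.inr (Sum.inr n) => Sum.inr (Sum.inr n)
  left_inv := by rintro ((c | z) | (r | n)) <;> rfl
  right_inv := by rintro ((c | r) | (z | n)) <;> rfl

/-- The vertex `u2`. -/
theorem u2 {K l u L y : ℕ} {Z Z' R Z2 N : Type} [Finite Z] [Finite Z'] [Finite R] [Finite Z2]
    [Finite N] (h1 : Nat.card Z + Nat.card Z' + Nat.card Z2 = L)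
    (h2 : Nat.card Z + Nat.card Z' + Nat.card R + (Nat.card Z2 + Nat.card N) = 2 * K)
    (h : ∀ p, y ≤ p → W K l u L p) :
    Fo K l u (((Z ⊕ Z') ⊕ R) ⊕ (Z2 ⊕ N)) (fun x =>
      red (fun i => x (Sum.inl (Sum.inl (Sum.inl i)))) +
      red (fun i => x (Sum.inl (Sum.inl (Sum.inr i)))) + red (fun i => x (Sum.inr (Sum.inl i))) <
        y) := by
  have k1 := small (K := K) (l := l) (u := u) (F := (Z ⊕ Z') ⊕ Z2) (R := R ⊕ N) (L := L)
    (by rw [Nat.card_sum, Nat.card_sum]; exact h1)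
    (by rw [Nat.card_sum, Nat.card_sum, Nat.card_sum]; omega) h
  refine (k1.transport (eV Z Z' R Z2 N)).mono fun x hx => ?_
  have r1 : red (fun f => x ((eV Z Z' R Z2 N) (Sum.inl f))) =
      (red (fun i => x (Sum.inl (Sum.inl (Sum.inl i)))) +
          red (fun i => x (Sum.inl (Sum.inl (Sum.inr i))))) +
        red (fun i => x (Sum.inr (Sum.inl i))) :=
    (red_sum _).trans (congrArg (· + _) (red_sum _))
  have hx' : red (fun f => x ((eV Z Z' R Z2 N) (Sum.inl f))) < y := hx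
  omega

def eW (C Z Z2 P Y : Type) : (C ⊕ (Z ⊕ (Z2 ⊕ P))) ⊕ (C ⊕ (Z ⊕ Y)) ≃
    ((C ⊕ C) ⊕ Z2) ⊕ ((Z ⊕ Z) ⊕ (P ⊕ Y)) where
  toFun p := match p with
    | Sum.inl (Sum.inl c) => Sum.inl (Sum.inl (Sum.inl c))
    | Sum.inl (Sum.inr (Sum.inl z)) => Sum.inr (Sum.inl (Sum.inl z))
    | Sum.inl (Sum.inr (Sum.inr (Sum.inl z))) => Sum.inl (Sum.inr z)
    | Sum.inl (Sum.inr (Sum.inr (Sum.inr p))) => Sum.inr (Sum.inr (Sum.inl p))
    | Sum.inr (Sum.inl c) => Sum.inl (Sum.inl (Sum.inr c))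
    | Sum.inr (Sum.inr (Sum.inl z)) => Sum.inr (Sum.inl (Sum.inr z))
    | Sum.inr (Sum.inr (Sum.inr y)) => Sum.inr (Sum.inr (Sum.inr y))
  invFun p := match p with
    | Sum.inl (Sum.inl (Sum.inl c)) => Sum.inl (Sum.inl c)
    | Sum.inr (Sum.inl (Sum.inl z)) => Sum.inl (Sum.inr (Sum.inl z))
    | Sum.inl (Sum.inr z) => Sum.inl (Sum.inr (Sum.inr (Sum.inl z)))
    | Sum.inr (Sum.inr (Sum.inl p)) => Sum.inl (Sum.inr (Sum.inr (Sum.inr p)))
    | Sum.inl (Sum.inl (Sum.inr c)) => Sum.inr (Sum.inl c)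
    | Sum.inr (Sum.inl (Sum.inr z)) => Sum.inr (Sum.inr (Sum.inl z))
    | Sum.inr (Sum.inr (Sum.inr y)) => Sum.inr (Sum.inr (Sum.inr y))
  left_inv := by rintro ((c | (z | (z | p))) | (c | (z | y))) <;> rfl
  right_inv := by rintro (((c | c) | z) | ((z | z) | (p | y))) <;> rfl

/-- The vertex `w_2`. -/
theorem w2 {K l u c m t q y r X z : ℕ} (hc : c + m = K) (hq : 2 * c + q = K) (hr : t + (q + r) = m)
    (hy : t + y = m) (htK : t ≤ K) (hl : ∀ p, p < 2 * X + z → W K l u (2 * c + t) p)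
    (h : ∀ p, 3 * z ≤ p → W K l u (3 * t) p) :
    Fo K l u ((Fin c ⊕ (Fin t ⊕ (Fin q ⊕ Fin r))) ⊕ (Fin c ⊕ (Fin t ⊕ Fin y)))
      (fun x => red (fun i => x (Sum.inl (Sum.inl i))) ≤ X →
        red (fun i => x (Sum.inr (Sum.inl i))) ≤ X →
        z ≤ red (fun i => x (Sum.inr (Sum.inr (Sum.inl i)))) →
        red (fun i => x (Sum.inl (Sum.inr (Sum.inl i)))) < z) := by
  refine (Fo.num (K := K) (N := Fin t ⊕ Fin (K - t))
    (J1 := (Fin c ⊕ Fin c) ⊕ Fin q)
    (J2 := (Fin t ⊕ Fin t) ⊕ (Fin r ⊕ Fin y)) ?_ ?_ ?_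
    (eW (Fin c) (Fin t) (Fin q) (Fin r) (Fin y))
    (u1 (C := Fin c) (C' := Fin c) (Z := Fin q) (Z' := Fin t) (N := Fin (K - t)) ?_ ?_ hl)
    (u2 (Z := Fin t) (Z' := Fin t) (R := Fin r ⊕ Fin y) (Z2 := Fin t)
      (N := Fin (K - t)) ?_ ?_ h)).mono ?_
  · rw [Nat.card_sum, Nat.card_sum, Nat.card_fin, Nat.card_fin]; omega
  · rw [Nat.card_sum, Nat.card_sum, Nat.card_sum, Nat.card_fin, Nat.card_fin, Nat.card_fin]; omega
  · rw [Nat.card_sum, Nat.card_fin, Nat.card_fin]; omega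
  · rw [Nat.card_fin, Nat.card_fin]; omega
  · rw [Nat.card_fin, Nat.card_fin, Nat.card_fin, Nat.card_fin]; omega
  · rw [Nat.card_fin]; omega
  · rw [Nat.card_sum, Nat.card_fin, Nat.card_fin, Nat.card_fin, Nat.card_fin]; omega
  · rintro x ⟨n, -, hA, hB⟩ c1 c2 c3
    have hA' : 2 * X + z ≤ red (fun i => x (Sum.inl (Sum.inl i))) +
      red (fun i => x (Sum.inr (Sum.inl i))) + red (fun i => n (Sum.inl i)) := hA
    have hB' : red (fun i => x (Sum.inl (Sum.inr (Sum.inl i)))) +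
      red (fun i => x (Sum.inr (Sum.inr (Sum.inl i)))) + red (fun i => n (Sum.inl i)) < 3 * z := hB
    omega

def eX (F C C' Q : Type) : (F ⊕ C) ⊕ (C' ⊕ Q) ≃ (C ⊕ Q) ⊕ (F ⊕ C') where
  toFun p := match p with
    | Sum.inl (Sum.inl f) => Sum.inr (Sum.inl f)
    | Sum.inl (Sum.inr c) => Sum.inl (Sum.inl c)
    | Sum.inr (Sum.inl c) => Sum.inr (Sum.inr c)
    | Sum.inr (Sum.inr q) => Sum.inl (Sum.inr q)
  invFun p := match p with
    | Sum.inr (Sum.inl f) => Sum.inl (Sum.inl f)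
    | Sum.inl (Sum.inl c) => Sum.inl (Sum.inr c)
    | Sum.inr (Sum.inr c) => Sum.inr (Sum.inl c)
    | Sum.inl (Sum.inr q) => Sum.inr (Sum.inr q)
  left_inv := by rintro ((f | c) | (c | q)) <;> rfl
  right_inv := by rintro ((c | q) | (f | c)) <;> rfl

/-- **The main refutation.** -/
theorem mainX {K l u c m t P X z : ℕ} (hU : 2 * u < 2 * P + 2 * X + 2 + l) (hc : c + m = K)
    (hcm : c ≤ m) (htc : t ≤ c) (hl : ∀ p, p < 2 * X + z → W K l u (2 * c + t) p)
    (h : ∀ p, 3 * z ≤ p → W K l u (3 * t) p) : W K l u m P := by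
  intro F R _ _ hF hR T hT
  obtain ⟨q, hq⟩ : ∃ q, 2 * c + q = K := ⟨K - 2 * c, by omega⟩
  obtain ⟨y, hy⟩ : ∃ y, t + y = m := ⟨m - t, by omega⟩
  obtain ⟨r, hr⟩ : ∃ r, t + (q + r) = m := ⟨c - t, by omega⟩
  have cC : Nat.card (Fin c) = c := Nat.card_fin _
  have cQ : Nat.card (Fin m) = m := Nat.card_fin _
  have cQ1 : Nat.card (Fin t ⊕ (Fin q ⊕ Fin r)) = m := by
    rw [Nat.card_sum, Nat.card_sum, Nat.card_fin, Nat.card_fin, Nat.card_fin]; omega
  have cQ2 : Nat.card (Fin t ⊕ Fin y) = m := by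
    rw [Nat.card_sum, Nat.card_fin, Nat.card_fin]; omega
  -- the last vertex
  have k5 : Fo K l u ((F ⊕ Fin c) ⊕ Fin K) (fun x => (fun i => x (Sum.inl (Sum.inl i))) ∉ T) := by
    have h1 : Kill K l u (F ⊕ (Fin c ⊕ Fin K)) {x | (fun f => x (Sum.inl f)) ∈ T} := by
      refine kill_rest ?_ hT
      rw [Nat.card_sum, Nat.card_fin, Nat.card_fin]
      omega
    refine Kill.mono (h1.transport (Equiv.sumAssoc F (Fin c) (Fin K)).symm) fun x hx => ?_
    exact Classical.not_not.1 hx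
  -- the node 4
  have k4 : Fo K l u ((F ⊕ Fin c) ⊕ (Fin c ⊕ Fin m)) (fun x =>
      (fun i => x (Sum.inl (Sum.inl i))) ∉ T ∧ (red (fun i => x (Sum.inl (Sum.inl i))) = P →
        red (fun i => x (Sum.inr (Sum.inl i))) ≤ X)) := by
    refine (Fo.num (K := K) (N := Fin K) (J1 := Fin c ⊕ Fin m) (J2 := F ⊕ Fin c)
      (by rw [Nat.card_sum, cC, cQ]; omega) (by rw [Nat.card_sum, cC, hF]; omega) (Nat.card_fin K)
      (eX F (Fin c) (Fin c) (Fin m)) (Fo.triv K l u _) k5).mono ?_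
    rintro x ⟨n, g2, -, hB⟩
    have r2 : red (fun j => x ((eX F (Fin c) (Fin c) (Fin m)).symm (Sum.inr j))) =
        red (fun i => x (Sum.inl (Sum.inl i))) + red (fun i => x (Sum.inr (Sum.inl i))) := red_sum _
    exact ⟨hB, fun h3 => by omega⟩
  -- the node 3
  have k3 : Fo K l u ((F ⊕ Fin c) ⊕ (Fin c ⊕ (Fin t ⊕ Fin y))) (fun x =>
      (fun i => x (Sum.inl (Sum.inl i))) ∉ T ∧ (red (fun i => x (Sum.inl (Sum.inl i))) = P →
        red (fun i => x (Sum.inr (Sum.inl i))) ≤ X ∧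
        X + z ≤ red (fun i => x (Sum.inl (Sum.inr i))) +
          red (fun i => x (Sum.inr (Sum.inr (Sum.inl i)))))) := by
    refine (Fo.num (K := K) (N := Fin c ⊕ Fin m)
      (J1 := Fin c ⊕ (Fin t ⊕ Fin y)) (J2 := F ⊕ Fin c)
      (by rw [Nat.card_sum, cC, cQ2]; omega) (by rw [Nat.card_sum, cC, hF]; omega)
      (by rw [Nat.card_sum, cC, cQ]; omega)
      (eX F (Fin c) (Fin c) (Fin t ⊕ Fin y))
      (tst (C := Fin c) (C' := Fin c) (Z := Fin t) (Y := Fin y) (Q := Fin m)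
        (by rw [cC, Nat.card_fin]; omega) (by rw [cC, cQ, Nat.card_fin, Nat.card_fin]; omega) hl)
      k4).mono ?_
    rintro x ⟨n, g2, hA, hB, hB2⟩
    have r2 : red (fun j => x ((eX F (Fin c) (Fin c) (Fin t ⊕ Fin y)).symm
        (Sum.inr j))) =
        red (fun i => x (Sum.inl (Sum.inl i))) + red (fun i => x (Sum.inr (Sum.inl i))) := red_sum _
    have hA' : 2 * X + z ≤ red (fun i => x (Sum.inl (Sum.inr i))) + red (fun i => n (Sum.inl i)) +
        red (fun i => x (Sum.inr (Sum.inr (Sum.inl i)))) := hA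
    have hB2' : red (fun i => x (Sum.inl (Sum.inl i))) = P → red (fun i => n (Sum.inl i)) ≤ X := hB2
    refine ⟨hB, fun h3 => ?_⟩
    have := hB2' h3
    omega
  -- the node 2
  have k2 : Fo K l u ((F ⊕ Fin c) ⊕ (Fin c ⊕ (Fin t ⊕ (Fin q ⊕ Fin r)))) (fun x =>
      (fun i => x (Sum.inl (Sum.inl i))) ∉ T ∧ (red (fun i => x (Sum.inl (Sum.inl i))) = P →
        red (fun i => x (Sum.inr (Sum.inl i))) ≤ X ∧
        (red (fun i => x (Sum.inl (Sum.inr i))) ≤ X →
          red (fun i => x (Sum.inr (Sum.inr (Sum.inl i)))) < z))) := by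
    refine (Fo.num (K := K) (N := Fin c ⊕ (Fin t ⊕ Fin y))
      (J1 := Fin c ⊕ (Fin t ⊕ (Fin q ⊕ Fin r))) (J2 := F ⊕ Fin c)
      (by rw [Nat.card_sum, cC, cQ1]; omega) (by rw [Nat.card_sum, cC, hF]; omega)
      (by rw [Nat.card_sum, cC, cQ2]; omega)
      (eX F (Fin c) (Fin c) (Fin t ⊕ (Fin q ⊕ Fin r)))
      (w2 hc hq hr hy (by omega) hl h) k3).mono ?_
    rintro x ⟨n, g2, hA, hB, hB2⟩
    have r2 : red (fun j => x ((eX F (Fin c) (Fin c)
        (Fin t ⊕ (Fin q ⊕ Fin r))).symm (Sum.inr j))) =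
        red (fun i => x (Sum.inl (Sum.inl i))) + red (fun i => x (Sum.inr (Sum.inl i))) := red_sum _
    have hA' : red (fun i => x (Sum.inl (Sum.inr i))) ≤ X → red (fun i => n (Sum.inl i)) ≤ X →
        z ≤ red (fun i => n (Sum.inr (Sum.inl i))) →
        red (fun i => x (Sum.inr (Sum.inr (Sum.inl i)))) < z := hA
    have hB2' : red (fun i => x (Sum.inl (Sum.inl i))) = P → red (fun i => n (Sum.inl i)) ≤ X ∧
        X + z ≤ red (fun i => x (Sum.inr (Sum.inl i))) + red (fun i => n (Sum.inr (Sum.inl i))) := hB2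
    refine ⟨hB, fun h3 => ?_⟩
    obtain ⟨b1, b2⟩ := hB2' h3
    exact ⟨by omega, fun h0 => hA' h0 b1 (by omega)⟩
  -- the node 1
  have k1 : Fo K l u ((F ⊕ Fin c) ⊕ (Fin c ⊕ Fin m)) (fun x =>
      (fun i => x (Sum.inl (Sum.inl i))) ∉ T ∧ (red (fun i => x (Sum.inl (Sum.inl i))) = P →
        X + 1 ≤ red (fun i => x (Sum.inl (Sum.inr i))))) := by
    refine (Fo.num (K := K) (N := Fin c ⊕ (Fin t ⊕ (Fin q ⊕ Fin r)))
      (J1 := Fin c ⊕ Fin m) (J2 := F ⊕ Fin c)
      (by rw [Nat.card_sum, cC, cQ]; omega) (by rw [Nat.card_sum, cC, hF]; omega)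
      (by rw [Nat.card_sum, cC, cQ1]; omega)
      (eX F (Fin c) (Fin c) (Fin m))
      ((tst (C := Fin c) (C' := Fin c) (Z := Fin t) (Y := Fin q ⊕ Fin r)
        (Q := Fin m) (by rw [cC, Nat.card_fin]; omega)
        (by rw [Nat.card_sum, Nat.card_fin, Nat.card_fin, Nat.card_fin, Nat.card_fin, cQ]; omega)
        hl).transport (Equiv.sumComm _ _)) k2).mono ?_
    rintro x ⟨n, g2, hA, hB, hB2⟩
    have r2 : red (fun j => x ((eX F (Fin c) (Fin c) (Fin m)).symm (Sum.inr j))) =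
        red (fun i => x (Sum.inl (Sum.inl i))) + red (fun i => x (Sum.inr (Sum.inl i))) := red_sum _
    have hA' : 2 * X + z ≤ red (fun i => n (Sum.inl i)) + red (fun i => x (Sum.inl (Sum.inr i))) +
        red (fun i => n (Sum.inr (Sum.inl i))) := hA
    have hB2' : red (fun i => x (Sum.inl (Sum.inl i))) = P → red (fun i => n (Sum.inl i)) ≤ X ∧
        (red (fun i => x (Sum.inr (Sum.inl i))) ≤ X →
          red (fun i => n (Sum.inr (Sum.inl i))) < z) := hB2
    refine ⟨hB, fun h3 => ?_⟩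
    obtain ⟨b1, b2⟩ := hB2' h3
    have b3 := b2 (by omega)
    omega
  -- the root
  have k0 : Fo K l u ((F ⊕ Fin c) ⊕ Fin K) (fun x =>
      (fun i => x (Sum.inl (Sum.inl i))) ∉ T ∧ red (fun i => x (Sum.inl (Sum.inl i))) ≠ P) := by
    refine (Fo.num (K := K) (N := Fin c ⊕ Fin m) (J1 := Fin K) (J2 := F ⊕ Fin c)
      (Nat.card_fin K) (by rw [Nat.card_sum, cC, hF]; omega)
      (by rw [Nat.card_sum, cC, cQ]; omega)
      (Equiv.sumComm (F ⊕ Fin c) (Fin K)) (Fo.triv K l u _) k1).mono ?_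
    rintro x ⟨n, g2, -, hB, hB2⟩
    have r2 : red (fun j => x ((Equiv.sumComm (F ⊕ Fin c) (Fin K)).symm (Sum.inr j))) =
        red (fun i => x (Sum.inl (Sum.inl i))) + red (fun i => x (Sum.inl (Sum.inr i))) := red_sum _
    have hB2' : red (fun i => x (Sum.inl (Sum.inl i))) = P →
        X + 1 ≤ red (fun i => x (Sum.inl (Sum.inr i))) := hB2
    refine ⟨hB, fun h3 => ?_⟩
    have := hB2' h3
    omega
  have h2 : Kill K l u (F ⊕ (Fin c ⊕ Fin K))
      {x | (fun f => x (Sum.inl f)) ∈ {y : F → Bool | y ∈ T ∨ red y = P}} := by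
    refine Kill.mono (Fo.transport k0 (Equiv.sumAssoc F (Fin c) (Fin K))) fun x hx => ?_
    intro hc
    rcases hx with hx | hx
    · exact hc.1 hx
    · exact hc.2 hx
  refine kill_rest ?_ h2
  rw [Nat.card_sum, Nat.card_fin, Nat.card_fin]
  omega

end Pool.Agent.Lib.MP_21a058_co.Slack3.MX39
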