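import Pool.Agent.Lib.MP_21a058_co.Slack3.Gen
import Pool.Agent.Lib.MP_21a058_co.Slack3.MainX39
import Pool.Agent.Lib.MP_21a058_co.Slack3.Final

/-! Window `2 m + 1 ≤ red ≤ 2 m + 3`, `q (m + 1) = h K + e` with `e` between `2 q` and `K / 12`:
everything is killable. -/

set_option autoImplicit false

namespace Pool.Agent.Lib.MP_21a058_co.Slack3.Dio39

open Pool.Agent.Lib.MP_21a058_co.Slack3
open Pool.Agent.Lib.MP_21a058_co.Slack3.Gen (dev top bot)

/-- An alive set with too many red edges. -/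
theorem hi {K m L p : ℕ} (hL : L ≤ K) (h : 2 * K + (m + 1) * L < K * p) :
    W K (2 * m + 1) (2 * m + 3) L p := by
  refine dev hL (lt_of_lt_of_le ?_ (le_abs_self _))
  have h1 : (2 : ℤ) * K + (m + 1) * L < K * p := by exact_mod_cast h
  linarith

/-- An alive set with too few red edges. -/
theorem lo {K m L p : ℕ} (hL : L ≤ K) (h : 2 * K + K * p < (m + 1) * L) :
    W K (2 * m + 1) (2 * m + 3) L p := by
  refine dev hL (lt_of_lt_of_le ?_ (neg_le_abs _))
  have h1 : (2 : ℤ) * K + K * p < (m + 1) * L := by exact_mod_cast h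
  linarith

/-- Alive sets of between `K / 2` and `2 K / 3` edges. -/
theorem chain {K m L P : ℕ} (h1 : K ≤ 2 * L) (h2 : 3 * L ≤ 2 * K)
    (hD : 11 * K + 6 * ((m + 1) * L) < 6 * (K * P)) : W K (2 * m + 1) (2 * m + 3) L P := by
  rcases Nat.lt_or_ge P (m + 3) with hP | hP
  · have g1 : (m + 1) * K ≤ (m + 1) * (2 * L) := Nat.mul_le_mul_left _ h1
    have g2 : (m + 1) * (2 * L) = 2 * ((m + 1) * L) := by ring
    have g3 : K * (11 + 3 * (m + 1)) < K * (6 * P) := by
      have e1 : K * (11 + 3 * (m + 1)) = 11 * K + 3 * ((m + 1) * K) := by ring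
      have e2 : K * (6 * P) = 6 * (K * P) := by ring
      omega
    have g4 : 11 + 3 * (m + 1) < 6 * P := lt_of_mul_lt_mul_left g3 (Nat.zero_le _)
    obtain ⟨X, hX⟩ : ∃ X, X + P = m + 2 := ⟨m + 2 - P, by omega⟩
    obtain ⟨z, hz⟩ : ∃ z, z + m + 4 = 2 * P := ⟨2 * P - m - 4, by omega⟩
    obtain ⟨c, hc⟩ : ∃ c, c + L = K := ⟨K - L, by omega⟩
    obtain ⟨t, ht⟩ : ∃ t, t + K = 2 * L := ⟨2 * L - K, by omega⟩
    refine MX39.mainX (c := c) (t := t) (X := X) (z := z) (by omega) hc (by omega) (by omega)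
      (fun p hp => ?_) fun p hp => ?_
    · rw [show 2 * c + t = K by omega]
      exact bot (by omega)
    · refine hi (by omega) ?_
      have g5 : K * (3 * z) ≤ K * p := Nat.mul_le_mul_left _ hp
      have g6 : K * (3 * z) + 3 * (K * m) + 12 * K = 6 * (K * P) := by
        have : K * (3 * (z + m + 4)) = K * (3 * (2 * P)) := by rw [hz]
        have e1 : K * (3 * (z + m + 4)) = K * (3 * z) + 3 * (K * m) + 12 * K := by ring
        have e2 : K * (3 * (2 * P)) = 6 * (K * P) := by ring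
        omega
      have g7 : (m + 1) * (3 * t) + 3 * (K * m) + 3 * K = 6 * ((m + 1) * L) := by
        have : (m + 1) * (3 * (t + K)) = (m + 1) * (3 * (2 * L)) := by rw [ht]
        have e1 : (m + 1) * (3 * (t + K)) = (m + 1) * (3 * t) + 3 * (K * m) + 3 * K := by ring
        have e2 : (m + 1) * (3 * (2 * L)) = 6 * ((m + 1) * L) := by ring
        omega
      omega
  · exact top (by omega) hP

/-- The first step. -/
theorem seed {K m q h i j A B : ℕ} (hij : i + j = K) (i1 : K ≤ 2 * (2 * q + i))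
    (i2 : 3 * (2 * q + i) ≤ 2 * K) (j1 : K ≤ 2 * (2 * q + j)) (j2 : 3 * (2 * q + j) ≤ 2 * K)
    (hAB : A + B = m + 1)
    (hA : 11 * K + 6 * ((m + 1) * (2 * q + i)) < 6 * (K * (2 * h + 2 + A)))
    (hB : 11 * K + 6 * ((m + 1) * (2 * q + j)) < 6 * (K * (2 * h + 2 + B))) :
    W K (2 * m + 1) (2 * m + 3) (2 * q) (2 * h + 2) := by
  refine W_R2 (i := i) (j := j) (by omega) (by omega) (by omega) fun a b ha hb => ?_
  by_cases c1 : A ≤ a
  · left
    refine chain i1 i2 (lt_of_lt_of_le hA ?_)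
    exact Nat.mul_le_mul_left _ (Nat.mul_le_mul_left _ (by omega))
  by_cases c2 : B ≤ b
  · right; left
    refine chain j1 j2 (lt_of_lt_of_le hB ?_)
    exact Nat.mul_le_mul_left _ (Nat.mul_le_mul_left _ (by omega))
  right; right
  rw [hij]
  exact bot (by omega)

/-- The collapse. -/
theorem collapse {K m q h n : ℕ} (w : ∀ p, 2 * h + 2 ≤ p → W K (2 * m + 1) (2 * m + 3) (2 * q) p)
    (hq : 2 * q ≤ K) (hn : n * q ≤ K) (hlo : 2 * K + K * (h * n) < (m + 1) * (n * q)) :
    W K (2 * m + 1) (2 * m + 3) 0 0 := by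
  have key : ∀ s, s ≤ n → ∀ p, p ≤ h * (n - s) → W K (2 * m + 1) (2 * m + 3) ((n - s) * q) p := by
    intro s
    induction s with
    | zero =>
      intro _ p hp
      rw [Nat.sub_zero] at hp ⊢
      refine lo hn (lt_of_le_of_lt ?_ hlo)
      exact Nat.add_le_add_left (Nat.mul_le_mul_left _ hp) _
    | succ s ih =>
      intro hs p hp
      have h1 := ih (by omega)
      obtain ⟨v, hv⟩ : ∃ v, n - s = v + 1 := ⟨n - s - 1, by omega⟩
      have hv' : n - (s + 1) = v := by omega
      rw [hv'] at hp ⊢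
      rw [hv] at h1
      have e1 : (v + 1) * q = v * q + q := by ring
      have e2 : h * (v + 1) = h * v + h := by ring
      have e3 : (v + 1) * q ≤ n * q := Nat.mul_le_mul_right _ (by omega)
      rw [e1, e2] at h1
      refine W_R2 (i := q) (j := q) (by omega) (by omega) (by omega) fun a b ha hb => ?_
      by_cases c1 : a ≤ h
      · exact Or.inl (h1 _ (by omega))
      by_cases c2 : b ≤ h
      · exact Or.inr (Or.inl (h1 _ (by omega)))
      · right; right
        rw [show q + q = 2 * q by ring]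
        exact w _ (by omega)
  have := key n le_rfl 0 (Nat.zero_le _)
  rwa [Nat.sub_self, Nat.zero_mul] at this

/-- `K` and `m + 1` even. -/
theorem w00 {K m q h e : ℕ} (hK : K % 2 = 0) (hm : m % 2 = 1) (hq : 1 ≤ q)
    (he : q * (m + 1) = h * K + e) (he1 : 2 * q < e) (he2 : 12 * e < K)
    (hKq : (2 * q + 1) * q ≤ K) : W K (2 * m + 1) (2 * m + 3) 0 0 := by
  obtain ⟨k, hk⟩ : ∃ k, K = 2 * k := ⟨K / 2, by omega⟩
  obtain ⟨v, hv⟩ : ∃ v, m + 1 = 2 * v := ⟨(m + 1) / 2, by omega⟩
  have hs : W K (2 * m + 1) (2 * m + 3) (2 * q) (2 * h + 2) := by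
    have g : 11 * K + 6 * ((m + 1) * (2 * q + k)) < 6 * (K * (2 * h + 2 + v)) := by
      have e1 : 6 * ((m + 1) * (2 * q + k)) = 12 * (q * (m + 1)) + 12 * (v * k) := by
        rw [hv]; ring
      have e2 : 6 * (K * (2 * h + 2 + v)) = 12 * (h * K) + 12 * K + 12 * (v * k) := by
        rw [hk]; ring
      omega
    exact seed (i := k) (j := k) (A := v) (B := v) (by omega) (by omega) (by omega) (by omega)
      (by omega) (by omega) g g
  have hw : ∀ p, 2 * h + 2 ≤ p → W K (2 * m + 1) (2 * m + 3) (2 * q) p := by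
    intro p hp
    rcases Nat.eq_or_lt_of_le hp with h1 | h1
    · rw [← h1]; exact hs
    · refine hi (by omega) ?_
      have g1 : K * (2 * h + 3) ≤ K * p := Nat.mul_le_mul_left _ (by omega)
      have e1 : (m + 1) * (2 * q) = 2 * (q * (m + 1)) := by ring
      have e2 : K * (2 * h + 3) = 2 * (h * K) + 3 * K := by ring
      omega
  obtain ⟨n, hn⟩ : ∃ n, n = K / q := ⟨_, rfl⟩
  have n1 : n * q ≤ K := by rw [hn]; exact Nat.div_mul_le_self K q
  have n2 : K < n * q + q := by
    have := Nat.lt_mul_div_succ K (show 0 < q by omega)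
    rw [← hn] at this
    calc K < q * (n + 1) := this
      _ = n * q + q := by ring
  refine collapse (q := q) (h := h) (n := n) hw (by omega) n1 ?_
  have e1 : (m + 1) * (n * q) = K * (h * n) + e * n := by
    calc (m + 1) * (n * q) = (q * (m + 1)) * n := by ring
      _ = (h * K + e) * n := by rw [he]
      _ = K * (h * n) + e * n := by ring
  -- `2 K < e n`
  have g1 : (2 * q + 1) * n ≤ e * n := Nat.mul_le_mul_right _ he1
  have g2 : (2 * q + 1) * n = 2 * (n * q) + n := by ring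
  have g3 : 2 * q + 1 ≤ n := by
    rw [hn]
    exact (Nat.le_div_iff_mul_le (by omega)).2 hKq
  omega

end Pool.Agent.Lib.MP_21a058_co.Slack3.Dio39
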