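import Pool.Agent.Lib.MP_21a058_co.Slack3.Ratio82
import Mathlib.NumberTheory.DiophantineApproximation.Basic

/-! Almost all pairs `a ≡ b ≡ 3 (mod 4)`: `a + b + 2` is not enough if `a + b ≥ 622` and
`(a + 1) / (a + b + 2)` differs by more than `4 / (a + b + 2)` from every fraction with denominator
at most `12`. -/

set_option autoImplicit false

namespace Pool.Agent.Lib.MP_21a058_co.Slack3.Dir17

open Finset Pool.Agent.Lib.MP_21a058_co

/-- Dirichlet. -/
theorem dirichlet {K M : ℕ} (hK : 0 < K) : ∃ q h : ℤ, 0 < q ∧ q ≤ 12 ∧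
    13 * |q * M - h * K| ≤ K := by
  obtain ⟨h, q, h0, h12, hb⟩ :=
    Real.exists_int_int_abs_mul_sub_le ((M : ℝ) / K) (n := 12) (by norm_num)
  refine ⟨q, h, h0, by exact_mod_cast h12, ?_⟩
  have hK' : (0 : ℝ) < K := by exact_mod_cast hK
  have e1 : ((q : ℝ) * M - h * K) = (q * ((M : ℝ) / K) - h) * K := by
    field_simp
  have e2 : |(q : ℝ) * M - h * K| ≤ 1 / ((12 : ℕ) + 1 : ℝ) * K := by
    rw [e1, abs_mul, abs_of_pos hK']
    exact mul_le_mul_of_nonneg_right hb hK'.le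
  have e3 : (13 : ℝ) * |(q : ℝ) * M - h * K| ≤ K := by
    have e4 : (13 : ℝ) * (1 / ((12 : ℕ) + 1 : ℝ) * K) = K := by
      push_cast
      ring
    calc (13 : ℝ) * |(q : ℝ) * M - h * K| ≤ 13 * (1 / ((12 : ℕ) + 1 : ℝ) * K) :=
          mul_le_mul_of_nonneg_left e2 (by norm_num)
      _ = K := e4
  exact_mod_cast e3

/-- One side. -/
theorem side {K m q h r : ℕ} (hq : 1 ≤ q) (hq12 : q ≤ 12) (hK : 312 ≤ K) (hKe : K % 2 = 0)
    (hMe : (m + 1) % 2 = 0) {e : ℕ} (he : q * (m + 1) = h * K + e) (h13 : 13 * e ≤ K)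
    (h2 : 2 * q < e) (ks : Fin r → ℕ) (J : Finset (Fin r)) {l' : ℕ}
    (hl : 2 * m + 3 + l' = 2 * K) (hJ : ∑ i ∈ J, ks i = 2 * m + 1)
    (hJ' : ∑ i ∈ Jᶜ, ks i = l') : ¬ Arrow (2 * K) ks := by
  obtain ⟨x, hx⟩ : ∃ x, K = 2 * x := ⟨K / 2, by omega⟩
  obtain ⟨y, hy⟩ : ∃ y, m + 1 = 2 * y := ⟨(m + 1) / 2, by omega⟩
  have f1 : K / q * q ≤ K := Nat.div_mul_le_self K q
  have f2 : K < (K / q) * q + q := Nat.lt_div_mul_add hq
  have f3 : 26 ≤ K / q := (Nat.le_div_iff_mul_le hq).2 (by omega)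
  have f4 : K / q * (2 * q + 1) ≤ K / q * e := Nat.mul_le_mul_left _ h2
  have f5 : K / q * (2 * q + 1) = 2 * (K / q * q) + K / q := by ring
  have f6 : (m + 1) * x = K * y := by rw [hx, hy]; ring
  exact Ratio82.not_arrow (q := q) (h := h) (e := e) (n := K / q) (i := x) (j := x) (A := y)
    (B := y) he f1 (by omega) (by omega) (by omega) (by omega) (by omega) (by rw [f6]; omega)
    (by rw [f6]; omega) ks J hl hJ hJ'

theorem not_arrow {K m r : ℕ} (hK : 312 ≤ K) (hKe : K % 2 = 0) (hMe : (m + 1) % 2 = 0)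
    (hfar : ∀ q h : ℤ, 1 ≤ q → q ≤ 12 → 2 * q < |q * (m + 1) - h * K|)
    (ks : Fin r → ℕ) (J : Finset (Fin r)) {l' : ℕ} (hl : 2 * m + 3 + l' = 2 * K)
    (hJ : ∑ i ∈ J, ks i = 2 * m + 1) (hJ' : ∑ i ∈ Jᶜ, ks i = l') : ¬ Arrow (2 * K) ks := by
  obtain ⟨q, h, q0, q12, hb⟩ := dirichlet (K := K) (M := m + 1) (by omega)
  have hf := hfar q h (by omega) q12
  push_cast at hb
  have hK0 : (0 : ℤ) < K := by omega
  have hm : (m : ℤ) + 1 ≤ K := by omega
  have hqm : q * ((m : ℤ) + 1) ≤ q * K := mul_le_mul_of_nonneg_left hm q0.le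
  have hq0 : 0 < q * ((m : ℤ) + 1) := mul_pos q0 (by omega)
  obtain ⟨q', rfl⟩ := Int.eq_ofNat_of_zero_le q0.le
  rcases le_or_gt 0 ((q' : ℤ) * (m + 1) - h * K) with hs | hs
  · rw [abs_of_nonneg hs] at hb hf
    have h0 : 0 ≤ h := by
      by_contra hc
      have : h * K ≤ (-1) * K := mul_le_mul_of_nonneg_right (by omega) hK0.le
      linarith
    obtain ⟨h', rfl⟩ := Int.eq_ofNat_of_zero_le h0
    obtain ⟨e, he⟩ := Int.eq_ofNat_of_zero_le hs
    rw [he] at hb hf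
    refine side (q := q') (h := h') (e := e) (by omega) (by omega) hK hKe hMe ?_ (by omega)
      (by omega) ks J hl hJ hJ'
    have : (q' : ℤ) * (m + 1) = h' * K + e := by linarith
    exact_mod_cast this
  · rw [abs_of_neg hs] at hb hf
    have h0 : 0 ≤ (q' : ℤ) - h := by
      by_contra hc
      have : (q' + 1 : ℤ) * K ≤ h * K := mul_le_mul_of_nonneg_right (by omega) hK0.le
      linarith
    obtain ⟨h', hh'⟩ := Int.eq_ofNat_of_zero_le h0
    obtain ⟨e, he⟩ := Int.eq_ofNat_of_zero_le (by linarith : 0 ≤ -((q' : ℤ) * (m + 1) - h * K))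
    rw [he] at hb hf
    obtain ⟨m', hm'⟩ : ∃ m', m' + m + 2 = K := ⟨K - m - 2, by omega⟩
    refine side (q := q') (h := h') (e := e) (m := m') (by omega) (by omega) hK hKe (by omega) ?_
      (by omega) (by omega) ks Jᶜ (l' := 2 * m + 1) (by omega) (by omega)
      (by rw [compl_compl]; exact hJ)
    have e1 : (K : ℤ) = m' + m + 2 := by rw [← hm']; push_cast; ring
    have e2 : h = (q' : ℤ) - h' := by linarith
    have : (q' : ℤ) * (m' + 1) = h' * K + e := by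
      rw [e2] at he
      have e3 : (m' : ℤ) + 1 = K - (m + 1) := by linarith
      rw [e3]
      linarith
    exact_mod_cast this

end Pool.Agent.Lib.MP_21a058_co.Slack3.Dir17
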