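import Pool.Agent.Lib.MP_21a058_co.Slack3.Ratio82b
import Mathlib.NumberTheory.DiophantineApproximation.Basic

/-! Almost all pairs of odd numbers: `a + b + 2` is not enough if `(a + 1) / (a + b + 2)` differs by
at least `6 / (a + b + 2)` from every fraction with denominator `q` between `4` and `60` and by more
than `1 / (61 q)` from every fraction with denominator `q ≤ 3`. -/

set_option autoImplicit false

namespace Pool.Agent.Lib.MP_21a058_co.Slack3.Dir17b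

open Finset Pool.Agent.Lib.MP_21a058_co

/-- Dirichlet, with a reduced fraction. -/
theorem dirichlet {K M : ℕ} (hK : 0 < K) (hM : M ≤ K) : ∃ q h : ℕ, 1 ≤ q ∧ q ≤ 60 ∧ h ≤ q ∧
    Nat.Coprime q h ∧ 61 * |(q : ℤ) * M - h * K| ≤ K := by
  obtain ⟨h, q, h0, h60, hb⟩ :=
    Real.exists_int_int_abs_mul_sub_le ((M : ℝ) / K) (n := 60) (by norm_num)
  have hK' : (0 : ℝ) < K := by exact_mod_cast hK
  have e1 : ((q : ℝ) * M - h * K) = (q * ((M : ℝ) / K) - h) * K := by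
    field_simp
  have e2 : |(q : ℝ) * M - h * K| ≤ 1 / ((60 : ℕ) + 1 : ℝ) * K := by
    rw [e1, abs_mul, abs_of_pos hK']
    exact mul_le_mul_of_nonneg_right hb hK'.le
  have e3 : (61 : ℝ) * |(q : ℝ) * M - h * K| ≤ K := by
    have e4 : (61 : ℝ) * (1 / ((60 : ℕ) + 1 : ℝ) * K) = K := by
      push_cast
      ring
    calc (61 : ℝ) * |(q : ℝ) * M - h * K| ≤ 61 * (1 / ((60 : ℕ) + 1 : ℝ) * K) :=
          mul_le_mul_of_nonneg_left e2 (by norm_num)
      _ = K := e4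
  have e5 : 61 * |q * (M : ℤ) - h * K| ≤ K := by exact_mod_cast e3
  have hKz : (0 : ℤ) < K := by exact_mod_cast hK
  have hMz : (M : ℤ) ≤ K := by exact_mod_cast hM
  have g1 := neg_abs_le (q * (M : ℤ) - h * K)
  have g2 := le_abs_self (q * (M : ℤ) - h * K)
  have hn : 0 ≤ h := by
    by_contra hc
    have h4 : h * K ≤ (-1) * K := mul_le_mul_of_nonneg_right (by omega) hKz.le
    have h5 : 0 ≤ q * (M : ℤ) := mul_nonneg h0.le (Int.natCast_nonneg _)
    linarith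
  have hq : h ≤ q := by
    by_contra hc
    have h4 : (q + 1) * K ≤ h * K := mul_le_mul_of_nonneg_right (by omega) hKz.le
    have h5 : q * (M : ℤ) ≤ q * K := mul_le_mul_of_nonneg_left hMz h0.le
    linarith
  obtain ⟨q', rfl⟩ := Int.eq_ofNat_of_zero_le h0.le
  obtain ⟨h', rfl⟩ := Int.eq_ofNat_of_zero_le hn
  have hq1 : 0 < q' := by omega
  have hg : 0 < Nat.gcd q' h' := Nat.gcd_pos_of_pos_left _ hq1
  obtain ⟨x, hx⟩ := Nat.gcd_dvd_left q' h'
  obtain ⟨y, hy⟩ := Nat.gcd_dvd_right q' h'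
  have hx0 : 0 < x := by
    rcases Nat.eq_zero_or_pos x with h0 | h0
    · rw [h0, Nat.mul_zero] at hx
      omega
    · exact h0
  have hxq : x ≤ q' := by
    calc x = 1 * x := (Nat.one_mul x).symm
      _ ≤ Nat.gcd q' h' * x := Nat.mul_le_mul_right _ hg
      _ = q' := hx.symm
  have hyx : y ≤ x := by
    have : Nat.gcd q' h' * y ≤ Nat.gcd q' h' * x := by
      rw [← hx, ← hy]
      exact_mod_cast hq
    exact Nat.le_of_mul_le_mul_left this hg
  refine ⟨x, y, hx0, by omega, hyx, ?_, ?_⟩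
  · have hd := Nat.coprime_div_gcd_div_gcd (m := q') (n := h') hg
    have d1 : q' / Nat.gcd q' h' = x := Nat.div_eq_of_eq_mul_right hg hx
    have d2 : h' / Nat.gcd q' h' = y := Nat.div_eq_of_eq_mul_right hg hy
    rwa [d1, d2] at hd
  · have f1 : (q' : ℤ) * M - h' * K = (Nat.gcd q' h' : ℤ) * ((x : ℤ) * M - y * K) := by
      have f2 : (q' : ℤ) = (Nat.gcd q' h' : ℤ) * x := by exact_mod_cast hx
      have f3 : (h' : ℤ) = (Nat.gcd q' h' : ℤ) * y := by exact_mod_cast hy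
      calc (q' : ℤ) * M - h' * K = ((Nat.gcd q' h' : ℤ) * x) * M - ((Nat.gcd q' h' : ℤ) * y) * K := by
            rw [← f2, ← f3]
        _ = (Nat.gcd q' h' : ℤ) * ((x : ℤ) * M - y * K) := by ring
    rw [f1, abs_mul, abs_of_nonneg (Int.natCast_nonneg _)] at e5
    have f4 : 1 * |(x : ℤ) * M - y * K| ≤ (Nat.gcd q' h' : ℤ) * |(x : ℤ) * M - y * K| :=
      mul_le_mul_of_nonneg_right (by exact_mod_cast hg) (abs_nonneg _)
    linarith

theorem not_arrow {r : ℕ} (ks : Fin r → ℕ) (J : Finset (Fin r)) (ha : Odd (∑ i ∈ J, ks i))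
    (hS : Even (∑ i, ks i))
    (hfar : ∀ q h : ℕ, 1 ≤ q → q ≤ 60 → Nat.Coprime q h →
      (q ≤ 3 ∧ ((∑ i, ks i + 2 : ℕ) : ℤ) <
        61 * |(q : ℤ) * (∑ i ∈ J, ks i + 1 : ℕ) - h * (∑ i, ks i + 2 : ℕ)|) ∨
      (4 ≤ q ∧ 6 * (q : ℤ) ≤
        |(q : ℤ) * (∑ i ∈ J, ks i + 1 : ℕ) - h * (∑ i, ks i + 2 : ℕ)|)) :
    ¬ Arrow (∑ i, ks i + 2) ks := by
  have hc : ∑ i ∈ J, ks i + ∑ i ∈ Jᶜ, ks i = ∑ i, ks i := sum_add_sum_compl _ _
  obtain ⟨q, h, q1, q60, hhq, hcop, hb⟩ :=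
    dirichlet (K := ∑ i, ks i + 2) (M := ∑ i ∈ J, ks i + 1) (by omega) (by omega)
  rcases hfar q h q1 q60 hcop with ⟨-, h3⟩ | ⟨h4, h6⟩
  · exact absurd hb (not_le.2 h3)
  · rcases le_or_gt 0 ((q : ℤ) * (∑ i ∈ J, ks i + 1 : ℕ) - h * (∑ i, ks i + 2 : ℕ)) with hs | hs
    · rw [abs_of_nonneg hs] at hb h6
      refine Ratio82.sum_pos ks J h4 hcop ha hS ?_ ?_
      · have : (h : ℤ) * (∑ i, ks i + 2 : ℕ) + 6 * q ≤ q * (∑ i ∈ J, ks i + 1 : ℕ) := by linarith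
        exact_mod_cast this
      · have : 60 * ((q : ℤ) * (∑ i ∈ J, ks i + 1 : ℕ)) <
            60 * (h * (∑ i, ks i + 2 : ℕ)) + (∑ i, ks i + 2 : ℕ) := by linarith
        exact_mod_cast this
    · rw [abs_of_neg hs] at hb h6
      have hb1 : Odd (∑ i ∈ Jᶜ, ks i) := by
        rw [Nat.odd_iff] at ha ⊢
        rw [Nat.even_iff] at hS
        omega
      have hcop' : Nat.Coprime q (q - h) := (Nat.coprime_self_sub_right hhq).2 hcop
      have e1 : ((∑ i ∈ Jᶜ, ks i + 1 : ℕ) : ℤ) =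
          ((∑ i, ks i + 2 : ℕ) : ℤ) - ((∑ i ∈ J, ks i + 1 : ℕ) : ℤ) := by
        rw [← hc]
        push_cast
        ring
      have e2 : ((q - h : ℕ) : ℤ) = (q : ℤ) - h := by
        rw [Nat.cast_sub hhq]
      refine Ratio82.sum_pos ks Jᶜ h4 hcop' hb1 hS ?_ ?_
      · have : ((q - h : ℕ) : ℤ) * (∑ i, ks i + 2 : ℕ) + 6 * q ≤ q * (∑ i ∈ Jᶜ, ks i + 1 : ℕ) := by
          rw [e1, e2]
          linarith
        exact_mod_cast this
      · have : 60 * ((q : ℤ) * (∑ i ∈ Jᶜ, ks i + 1 : ℕ)) <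
            60 * (((q - h : ℕ) : ℤ) * (∑ i, ks i + 2 : ℕ)) + (∑ i, ks i + 2 : ℕ) := by
          rw [e1, e2]
          linarith
        exact_mod_cast this

end Pool.Agent.Lib.MP_21a058_co.Slack3.Dir17b
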