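import Pool.Agent.Lib.MP_21a058_co.Slack3.Dio39

/-! Two classes with sums `a ≡ b ≡ 3 (mod 4)`, `a + b ≥ 600`: `f ≥ a + b + 3`, unless `a + 1` is
within `4` of a rational multiple `(h / q) (a + b + 2)` with `q ≤ 12`. -/

set_option autoImplicit false

namespace Pool.Agent.Lib.MP_21a058_co.Slack3.Dio39

open Pool.Agent.Lib.MP_21a058_co Pool.Agent.Lib.MP_21a058_co.Slack3

/-- Dirichlet's theorem. -/
theorem dirichlet {K M : ℕ} (hK : 0 < K) (hM : M ≤ K) : ∃ q h : ℕ, 1 ≤ q ∧ q ≤ 12 ∧ h ≤ q ∧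
    13 * |(q : ℤ) * M - h * K| ≤ K := by
  obtain ⟨q, hq0, hq, hr⟩ := Real.exists_nat_abs_mul_sub_round_le ((M : ℝ) / K) (n := 12)
    (by norm_num)
  obtain ⟨j, hj⟩ : ∃ j : ℤ, j = round ((q : ℝ) * ((M : ℝ) / K)) := ⟨_, rfl⟩
  rw [← hj] at hr
  have hKr : (0 : ℝ) < K := by exact_mod_cast hK
  have h2 : |(q : ℝ) * M - j * K| ≤ K / 13 := by
    have e : (q : ℝ) * M - j * K = (q * ((M : ℝ) / K) - j) * K := by field_simp
    rw [e, abs_mul, abs_of_pos hKr]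
    have := mul_le_mul_of_nonneg_right hr hKr.le
    push_cast at this
    linarith
  have h3 : 13 * |(q : ℤ) * M - j * K| ≤ K := by
    have : (13 : ℝ) * (|(q : ℤ) * M - j * K| : ℤ) ≤ K := by
      push_cast
      linarith
    exact_mod_cast this
  have hKz : (0 : ℤ) < K := by exact_mod_cast hK
  have hMz : (M : ℤ) ≤ K := by exact_mod_cast hM
  have hM0 : (0 : ℤ) ≤ M := Int.natCast_nonneg _
  have hq0' : (0 : ℤ) ≤ q := Int.natCast_nonneg _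
  have g1 := neg_abs_le ((q : ℤ) * M - j * K)
  have g2 := le_abs_self ((q : ℤ) * M - j * K)
  have j0 : 0 ≤ j := by
    by_contra hc
    have h4 : j ≤ -1 := by omega
    have h5 : j * K ≤ -1 * K := mul_le_mul_of_nonneg_right h4 hKz.le
    have h6 : (0 : ℤ) ≤ q * M := mul_nonneg hq0' hM0
    linarith
  have jq : j ≤ q := by
    by_contra hc
    have h4 : (q : ℤ) + 1 ≤ j := by omega
    have h5 : ((q : ℤ) + 1) * K ≤ j * K := mul_le_mul_of_nonneg_right h4 hKz.le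
    have h6 : (q : ℤ) * M ≤ q * K := mul_le_mul_of_nonneg_left hMz hq0'
    linarith
  obtain ⟨h, rfl⟩ := Int.eq_ofNat_of_zero_le j0
  exact ⟨q, h, hq0, hq, by exact_mod_cast jq, h3⟩

open Finset in
/-- One sign. -/
theorem one {r q h e : ℕ} (ks : Fin r → ℕ) (J : Finset (Fin r)) (ha : (∑ i ∈ J, ks i) % 4 = 3)
    (hb : (∑ i ∈ Jᶜ, ks i) % 4 = 3) (hS : 600 ≤ ∑ i, ks i) (hq : 1 ≤ q) (hq2 : q ≤ 12)
    (he : q * (∑ i ∈ J, ks i + 1) = h * (∑ i, ks i + 2) + 2 * e) (he1 : 2 * q < e)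
    (he2 : 24 * e < ∑ i, ks i + 2) : ¬ Arrow (∑ i, ks i + 2) ks := by
  have hsum : ∑ i ∈ J, ks i + ∑ i ∈ Jᶜ, ks i = ∑ i, ks i := sum_add_sum_compl _ _
  obtain ⟨m, hm⟩ : ∃ m, ∑ i ∈ J, ks i = 2 * m + 1 := ⟨(∑ i ∈ J, ks i) / 2, by omega⟩
  obtain ⟨K, hK⟩ : ∃ K, ∑ i, ks i + 2 = 2 * K := ⟨(∑ i, ks i + 2) / 2, by omega⟩
  have hqq : (2 * q + 1) * q ≤ 25 * 12 := Nat.mul_le_mul (by omega) hq2
  rw [hK]
  refine not_arrow_of_W (K := K) (l := 2 * m + 1) (u := 2 * m + 3) (l' := ∑ i ∈ Jᶜ, ks i)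
    (by omega) (by omega) (w00 (q := q) (h := h) (e := e) (by omega) (by omega) hq ?_ he1
    (by omega) (by omega)) ks J hm rfl
  rw [hm, hK] at he
  have e1 : q * (2 * m + 1 + 1) = 2 * (q * (m + 1)) := by ring
  have e2 : h * (2 * K) = 2 * (h * K) := by ring
  omega

open Finset in
/-- **Almost all pairs.** Classes with sums `a ≡ b ≡ 3 (mod 4)`, `a + b ≥ 600`, such that
`|q (a + 1) - h (a + b + 2)| > 4 q` for all `1 ≤ q ≤ 12` and all `h`. -/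
theorem not_arrow {r : ℕ} (ks : Fin r → ℕ) (J : Finset (Fin r)) (ha : (∑ i ∈ J, ks i) % 4 = 3)
    (hb : (∑ i ∈ Jᶜ, ks i) % 4 = 3) (hS : 600 ≤ ∑ i, ks i)
    (hd : ∀ q h : ℕ, 1 ≤ q → q ≤ 12 →
      4 * (q : ℤ) < |(q : ℤ) * (∑ i ∈ J, ks i + 1 : ℕ) - h * (∑ i, ks i + 2 : ℕ)|) :
    ¬ Arrow (∑ i, ks i + 2) ks := by
  have hsum : ∑ i ∈ J, ks i + ∑ i ∈ Jᶜ, ks i = ∑ i, ks i := sum_add_sum_compl _ _
  obtain ⟨M, hM⟩ : ∃ M, ∑ i ∈ J, ks i + 1 = 2 * M := ⟨(∑ i ∈ J, ks i + 1) / 2, by omega⟩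
  obtain ⟨K, hK⟩ : ∃ K, ∑ i, ks i + 2 = 2 * K := ⟨(∑ i, ks i + 2) / 2, by omega⟩
  obtain ⟨q, h, hq, hq2, hhq, hdir⟩ := dirichlet (K := K) (M := M) (by omega) (by omega)
  have h1 := hd q h hq hq2
  rw [hM, hK] at h1
  have e1 : (q : ℤ) * ((2 * M : ℕ) : ℤ) - h * ((2 * K : ℕ) : ℤ) = 2 * ((q : ℤ) * M - h * K) := by
    push_cast
    ring
  rw [e1, abs_mul, abs_of_pos (show (0 : ℤ) < 2 by norm_num)] at h1
  rcases abs_cases ((q : ℤ) * M - h * K) with ⟨g1, g2⟩ | ⟨g1, g2⟩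
  · rw [g1] at h1 hdir
    obtain ⟨e, he⟩ := Int.eq_ofNat_of_zero_le g2
    rw [he] at h1 hdir
    refine one (q := q) (h := h) (e := e) ks J ha hb hS hq hq2 ?_ (by omega) (by omega)
    rw [hM, hK]
    have : (q : ℤ) * (2 * M) = h * (2 * K) + 2 * e := by linarith
    exact_mod_cast this
  · rw [g1] at h1 hdir
    obtain ⟨e, he⟩ := Int.eq_ofNat_of_zero_le (show 0 ≤ -((q : ℤ) * M - h * K) by linarith)
    rw [he] at h1 hdir
    obtain ⟨h', hh'⟩ : ∃ h', h + h' = q := ⟨q - h, by omega⟩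
    obtain ⟨N, hN⟩ : ∃ N, ∑ i ∈ Jᶜ, ks i + 1 = 2 * N := ⟨(∑ i ∈ Jᶜ, ks i + 1) / 2, by omega⟩
    have hMN : M + N = K := by omega
    refine one (q := q) (h := h') (e := e) ks Jᶜ hb (by rwa [compl_compl]) hS hq hq2 ?_
      (by omega) (by omega)
    rw [hN, hK]
    have z1 : (h : ℤ) + h' = q := by exact_mod_cast hh'
    have z2 : (M : ℤ) + N = K := by exact_mod_cast hMN
    have : (q : ℤ) * (2 * N) = h' * (2 * K) + 2 * e := by
      have z3 : (N : ℤ) = K - M := by linarith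
      have z4 : (h' : ℤ) = q - h := by linarith
      rw [z3, z4]
      linarith
    exact_mod_cast this

end Pool.Agent.Lib.MP_21a058_co.Slack3.Dio39
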