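import Pool.Agent.Lib.MP_21a058_co.Slack3.Ratio82

/-! Two classes with sums `a ≡ b ≡ 3 (mod 4)`, `a + b ≥ 598`: `f ≥ a + b + 3` unless
`(a + 1) / (a + b + 2)` is very close to a fraction with denominator at most `12`. -/

set_option autoImplicit false

namespace Pool.Agent.Lib.MP_21a058_co.Slack3.Dir56

open Finset

/-- Dirichlet's theorem with denominators up to `12`. -/
theorem dirichlet (M K : ℕ) (hK : 0 < K) :
    ∃ q h : ℤ, 1 ≤ q ∧ q ≤ 12 ∧ 13 * |q * M - h * K| ≤ K := by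
  obtain ⟨h, q, h1, h2, h3⟩ :=
    Real.exists_int_int_abs_mul_sub_le ((M : ℝ) / K) (n := 12) (by norm_num)
  refine ⟨q, h, by omega, by exact_mod_cast h2, ?_⟩
  have hK' : (0 : ℝ) < K := by exact_mod_cast hK
  have h4 : |(q : ℝ) * M - h * K| ≤ 1 / 13 * K := by
    have e : (q : ℝ) * M - h * K = ((q : ℝ) * (M / K) - h) * K := by
      field_simp
    rw [e, abs_mul, abs_of_pos hK']
    refine mul_le_mul_of_nonneg_right ?_ hK'.le
    refine h3.trans (le_of_eq ?_)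
    norm_num
  have h5 : (13 : ℝ) * |(q : ℝ) * M - h * K| ≤ K := by linarith
  exact_mod_cast h5

/-- One sign. -/
theorem one {M N q h e r : ℕ} (hM : 1 ≤ M) (hq : 1 ≤ q) (hq' : q ≤ 12)
    (he : q * (2 * M) = h * (2 * (M + N)) + e) (h1 : 2 * q + 1 ≤ e)
    (h2 : 13 * e ≤ 2 * (M + N)) (hK : 150 ≤ M + N) (ks : Fin r → ℕ) (J : Finset (Fin r))
    (hJ : ∑ i ∈ J, ks i = 4 * M - 1) (hJ' : ∑ i ∈ Jᶜ, ks i = 4 * N - 1) (hN : 1 ≤ N) :
    ¬ Arrow (2 * (2 * (M + N))) ks := by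
  have hn1 : 2 * (M + N) / q * q ≤ 2 * (M + N) := Nat.div_mul_le_self _ _
  have hn2 : 2 * (M + N) < 2 * (M + N) / q * q + q := Nat.lt_div_mul_add (by omega)
  have hn3 : 2 * (M + N) / q * (2 * q + 1) ≤ 2 * (M + N) / q * e := Nat.mul_le_mul_left _ h1
  have hn4 : 2 * (M + N) / q * (2 * q + 1) = 2 * (2 * (M + N) / q * q) + 2 * (M + N) / q := by ring
  have hn5 : 25 ≤ 2 * (M + N) / q := by
    rw [Nat.le_div_iff_mul_le (by omega)]
    omega
  refine Ratio82.not_arrow (K := 2 * (M + N)) (m := 2 * M - 1) (q := q) (h := h) (e := e)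
    (n := 2 * (M + N) / q) (i := M + N) (j := M + N) (A := M) (B := M) ?_ hn1 ?_ (by omega)
    (by omega) (by omega) (by omega) ?_ ?_ ks J (l' := 4 * N - 1) (by omega) (by omega) hJ'
  · rw [show 2 * M - 1 + 1 = 2 * M by omega]
    exact he
  · omega
  · have e1 : (2 * M - 1 + 1) * (M + N) = 2 * (M + N) * M := by
      rw [show 2 * M - 1 + 1 = 2 * M by omega]
      ring
    omega
  · have e1 : (2 * M - 1 + 1) * (M + N) = 2 * (M + N) * M := by
      rw [show 2 * M - 1 + 1 = 2 * M by omega]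
      ring
    omega

/-- **Almost all pairs `a ≡ b ≡ 3 (mod 4)`.** -/
theorem not_arrow {a b r : ℕ} (ha : a % 4 = 3) (hb : b % 4 = 3) (hab : 598 ≤ a + b)
    (hq : ∀ q h : ℤ, 1 ≤ q → q ≤ 12 → 4 * q + 2 ≤ |q * (a + 1) - h * (a + b + 2)|)
    (ks : Fin r → ℕ) (J : Finset (Fin r)) (hJ : ∑ i ∈ J, ks i = a) (hJ' : ∑ i ∈ Jᶜ, ks i = b) :
    ¬ Arrow (a + b + 2) ks := by
  obtain ⟨M, hM⟩ : ∃ M, a + 1 = 4 * M := ⟨(a + 1) / 4, by omega⟩
  obtain ⟨N, hN⟩ : ∃ N, b + 1 = 4 * N := ⟨(b + 1) / 4, by omega⟩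
  obtain ⟨q, h, h1, h2, h3⟩ := dirichlet (2 * M) (2 * (M + N)) (by omega)
  have h4 := hq q h h1 h2
  have e1 : q * ((a : ℤ) + 1) - h * (a + b + 2) =
      2 * (q * ((2 * M : ℕ) : ℤ) - h * ((2 * (M + N) : ℕ) : ℤ)) := by
    have f1 : (a : ℤ) + 1 = 4 * M := by exact_mod_cast hM
    have f2 : (b : ℤ) + 1 = 4 * N := by exact_mod_cast hN
    have f3 : (a : ℤ) + b + 2 = 4 * M + 4 * N := by linarith
    rw [f1, f3]
    push_cast
    ring
  rw [e1, abs_mul, abs_of_pos (by norm_num : (0 : ℤ) < 2)] at h4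
  obtain ⟨Q, hQ⟩ : ∃ Q : ℕ, q = Q := ⟨q.toNat, by omega⟩
  subst hQ
  have hK : ((2 * (M + N) : ℕ) : ℤ) = 2 * M + 2 * N := by push_cast; ring
  have hM2 : ((2 * M : ℕ) : ℤ) = 2 * M := by push_cast; ring
  rw [hK, hM2] at h3 h4
  have hMN : (150 : ℤ) ≤ M + N := by omega
  rcases le_or_gt 0 ((Q : ℤ) * (2 * M) - h * (2 * M + 2 * N)) with hs | hs
  · rw [abs_of_nonneg hs] at h3 h4
    obtain ⟨e, he⟩ : ∃ e : ℕ, (Q : ℤ) * (2 * M) - h * (2 * M + 2 * N) = e :=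
      ⟨((Q : ℤ) * (2 * M) - h * (2 * M + 2 * N)).toNat, by omega⟩
    rw [he] at h3 h4
    have hh : 0 ≤ h := by
      by_contra hc
      have f1 : (-1) * ((2 : ℤ) * M + 2 * N) ≥ h * (2 * M + 2 * N) :=
        mul_le_mul_of_nonneg_right (by omega) (by omega)
      have f2 : (0 : ℤ) ≤ (Q : ℤ) * (2 * M) := by positivity
      linarith
    obtain ⟨H, hH⟩ : ∃ H : ℕ, h = H := ⟨h.toNat, by omega⟩
    subst hH
    have e2 : Q * (2 * M) = H * (2 * (M + N)) + e := by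
      have : (Q : ℤ) * (2 * M) = H * (2 * (M + N)) + e := by linarith
      exact_mod_cast this
    have := one (M := M) (N := N) (q := Q) (h := H) (e := e) (by omega) (by omega) (by omega) e2
      (by omega) (by omega) (by omega) ks J (by omega) (by omega) (by omega)
    rwa [show a + b + 2 = 2 * (2 * (M + N)) by omega]
  · rw [abs_of_neg hs] at h3 h4
    obtain ⟨e, he⟩ : ∃ e : ℕ, -((Q : ℤ) * (2 * M) - h * (2 * M + 2 * N)) = e :=
      ⟨(-((Q : ℤ) * (2 * M) - h * (2 * M + 2 * N))).toNat, by omega⟩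
    rw [he] at h3 h4
    have e3 : (Q : ℤ) * (2 * N) = (Q - h) * (2 * (N + M)) + e := by linarith
    have hh : 0 ≤ (Q : ℤ) - h := by
      by_contra hc
      have f1 : (-1) * ((2 : ℤ) * (N + M)) ≥ (Q - h) * (2 * (N + M)) :=
        mul_le_mul_of_nonneg_right (by omega) (by omega)
      have f2 : (0 : ℤ) ≤ (Q : ℤ) * (2 * N) := by positivity
      linarith
    obtain ⟨H, hH⟩ : ∃ H : ℕ, (Q : ℤ) - h = H := ⟨((Q : ℤ) - h).toNat, by omega⟩
    rw [hH] at e3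
    have e2 : Q * (2 * N) = H * (2 * (N + M)) + e := by exact_mod_cast e3
    have := one (M := N) (N := M) (q := Q) (h := H) (e := e) (by omega) (by omega) (by omega) e2
      (by omega) (by omega) (by omega) ks Jᶜ (by omega) (by rw [compl_compl]; omega) (by omega)
    rwa [show a + b + 2 = 2 * (2 * (N + M)) by omega]

end Pool.Agent.Lib.MP_21a058_co.Slack3.Dir56
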