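import Pool.Agent.Lib.MP_21a058_co.Slack3.Gadget
import Pool.Agent.Lib.MP_21a058_co.Slack3.Final

/-! `f(3, 2K - 5) ≥ 2K + 1` for every even `K ≥ 24`. -/

set_option autoImplicit false

namespace Pool.Agent.Lib.MP_21a058_co.Slack3

open Finset Pool.Agent.Lib.MP_21a058_co

theorem g_22 {K c : ℕ} (hc : 10 ≤ c) (hK : K = 2 * c + 4) : W K 3 5 2 2 := by
  have h3 := W_mid hc hK
  have h4 : ∀ a, 1 ≤ a → W K 3 5 (2 + (c + 2)) (2 + a) := by
    intro a ha
    by_cases h5 : a = 1
    · subst h5
      have e : 2 + (c + 2) = c + 4 := by omega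
      rw [e]
      exact h3
    · exact w_ge4 (by omega) (by omega)
  refine W_R2 (i := c + 2) (j := c + 2) (by omega) (by omega) (by omega)
    fun a b ha hb => ?_
  by_cases h1 : a = 0
  · by_cases h2 : b = 0
    · right; right
      subst h1 h2
      have e : c + 2 + (c + 2) = K := by omega
      rw [e]
      exact w_K0
    · right; left
      exact h4 b (by omega)
  · left
    exact h4 a (by omega)

theorem g_0 {K c : ℕ} (hc : 10 ≤ c) (hK : K = 2 * c + 4) :
    ∀ n, n ≤ K → W K 3 5 (K - n) 0 := by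
  intro n
  induction n with
  | zero =>
    intro _
    exact w_K0
  | succ n ih =>
    intro hn
    have h1 := ih (by omega)
    have e : K - (n + 1) + 1 = K - n := by omega
    refine W_R2 (i := 1) (j := 1) (by omega) (by omega) (by omega) fun a b ha hb => ?_
    by_cases h2 : a = 0
    · left
      subst h2
      rw [e]
      exact h1
    · by_cases h3 : b = 0
      · right; left
        subst h3
        rw [e]
        exact h1
      · right; right
        have e1 : a = 1 := by omega
        have e2 : b = 1 := by omega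
        subst e1 e2
        exact g_22 hc hK

theorem g00 {K c : ℕ} (hc : 10 ≤ c) (hK : K = 2 * c + 4) : W K 3 5 0 0 := by
  have h := g_0 hc hK K le_rfl
  rwa [Nat.sub_self] at h

/-- `f(3, 2K - 5) ≥ 2K + 1` for every even `K ≥ 24`, in the form with classes. -/
theorem not_arrow_three {K r : ℕ} (hK : 24 ≤ K) (he : K % 2 = 0) (ks : Fin r → ℕ)
    (J : Finset (Fin r)) (hJ : ∑ i ∈ J, ks i = 3) (hJ' : ∑ i ∈ Jᶜ, ks i + 5 = 2 * K) :
    ¬ Arrow (2 * K) ks :=
  not_arrow_of_W (K := K) (l := 3) (u := 5) (l' := ∑ i ∈ Jᶜ, ks i) (by omega) (by omega)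
    (g00 (c := K / 2 - 2) (by omega) (by omega)) ks J hJ rfl

/-- DeVos's bound `a + b + 2` fails: `48 ↛ (3, 43)`. -/
theorem not_arrow_48 : ¬ Arrow 48 ![3, 43] := by
  refine not_arrow_three (K := 24) le_rfl rfl ![3, 43] {0} ?_ ?_
  · simp
  · have h : ({0} : Finset (Fin 2))ᶜ = {1} := by decide
    rw [h]
    simp

end Pool.Agent.Lib.MP_21a058_co.Slack3
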