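import Mathlib

/-! Odd edge-connectivity `2 h + 1`, window `2 m + 1 .. 2 m + 3` with `2 ≤ m`: the arithmetic of the
end, for an abstract relation `W` (`W L p`: `p` red edges among `L` alive edges are refuted). -/

set_option autoImplicit false

namespace Pool.Agent.Lib.MP_21a058_co.Slack3.End3K

theorem end3 {h m : ℕ} (hm : 2 ≤ m) (hh : 68 * (m + 1) < 2 * h + 1) (W : ℕ → ℕ → Prop)
    (top : ∀ L p, L ≤ h → m + 3 ≤ p → W L p)
    (bot : ∀ p, p + 2 ≤ m → W h p)
    (dev : ∀ L p, 1 ≤ L → L ≤ h →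
      (2 * (2 * h + 1) + 2 * (m + 1) + 2 * ((m + 1) * L) < (2 * h + 1) * p ∨
        (2 * h + 1) * p + 2 * (2 * h + 1) + 2 * (m + 1) < 2 * ((m + 1) * L)) → W L p)
    (U : ∀ L p i j, i + j = h + 1 → L + i ≤ h → L + j ≤ h →
      (∀ a b, a ≤ i → b ≤ j → m ≤ a + b → W (L + i) (p + a) ∨ W (L + j) (p + b)) → W L p)
    (r2 : ∀ L p i j, L + i ≤ h → L + j ≤ h → i + j ≤ h →
      (∀ a b, a ≤ i → b ≤ j → W (L + i) (p + a) ∨ W (L + j) (p + b) ∨ W (i + j) (a + b)) → W L p)
    (main : ∀ c t, 1 ≤ c → 1 ≤ t → t ≤ c → 2 * (c + t) ≤ h + 1 → 3 * t ≤ h → W (2 * c + t) 0 →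
      (∀ p, 3 ≤ p → W (3 * t) p) → W (h - c) (m + 2)) : W 0 0 := by
  -- the size of the passing bundle
  obtain ⟨c, hc30, f1, f2⟩ : ∃ c, 30 ≤ c ∧ 2 * ((m + 1) * c) + 8 * (m + 1) ≤ 2 * h + 1 ∧
      2 * h + 1 < 2 * ((m + 1) * c) + 10 * (m + 1) := by
    have h1 := Nat.div_add_mod (2 * h + 1) (2 * (m + 1))
    have h2 := Nat.mod_lt (2 * h + 1) (show 0 < 2 * (m + 1) by omega)
    have h3 : 34 ≤ (2 * h + 1) / (2 * (m + 1)) := by
      rw [Nat.le_div_iff_mul_le (by omega)]
      omega
    obtain ⟨c, hc⟩ : ∃ c, (2 * h + 1) / (2 * (m + 1)) = c + 4 := ⟨_, (Nat.sub_add_cancel (by omega)).symm⟩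
    rw [hc] at h1 h3
    have h4 : 2 * (m + 1) * (c + 4) = 2 * ((m + 1) * c) + 8 * (m + 1) := by ring
    refine ⟨c, by omega, by omega, by omega⟩
  have f3 : 3 * c ≤ (m + 1) * c := Nat.mul_le_mul_right c (by omega)
  have s1 : 3 * c + 12 ≤ h := by omega
  -- the main lemma
  have m1 : W (2 * c + 11) 0 := by
    refine dev _ _ (by omega) (by omega) (Or.inr ?_)
    have : (m + 1) * (2 * c + 11) = 2 * ((m + 1) * c) + 11 * (m + 1) := by ring
    rw [this]
    omega
  have m2 : ∀ p, 3 ≤ p → W (3 * 11) p := by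
    intro p hp
    refine dev _ _ (by omega) (by omega) (Or.inl ?_)
    have h1 : (2 * h + 1) * 3 ≤ (2 * h + 1) * p := Nat.mul_le_mul_left _ hp
    have h2 : (m + 1) * (3 * 11) = 33 * (m + 1) := by ring
    rw [h2]
    omega
  have m3 : W (h - c) (m + 2) := main c 11 (by omega) (by omega) (by omega) (by omega) (by omega)
    m1 m2
  have m4 : ∀ p, m + 2 ≤ p → W (h - c) p := by
    intro p hp
    rcases Nat.eq_or_lt_of_le hp with h1 | h1
    · rw [← h1]
      exact m3
    · exact top _ _ (by omega) (by omega)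
  -- three
  have t3 : ∀ p, 3 ≤ p → W (c + 5) p := by
    intro p hp
    refine U (c + 5) p (h - 2 * c - 5) (2 * c + 6) (by omega) (by omega) (by omega)
      fun a b _ _ hab => ?_
    by_cases ha : m ≤ a + 1
    · left
      have e : c + 5 + (h - 2 * c - 5) = h - c := by omega
      rw [e]
      exact m4 _ (by omega)
    · right
      refine dev _ _ (by omega) (by omega) (Or.inl ?_)
      have h1 : (2 * h + 1) * 5 ≤ (2 * h + 1) * (p + b) := Nat.mul_le_mul_left _ (by omega)
      have h2 : (m + 1) * (c + 5 + (2 * c + 6)) = 3 * ((m + 1) * c) + 11 * (m + 1) := by ring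
      rw [h2]
      omega
  -- two
  have t2 : W 2 2 := by
    refine U 2 2 (h - c - 2) (c + 3) (by omega) (by omega) (by omega) fun a b _ _ hab => ?_
    by_cases ha : m ≤ a
    · left
      have e : 2 + (h - c - 2) = h - c := by omega
      rw [e]
      exact m4 _ (by omega)
    · right
      have e : 2 + (c + 3) = c + 5 := by omega
      rw [e]
      exact t3 _ (by omega)
  -- the end
  have e0 : ∀ n, n ≤ h → W (h - n) 0 := by
    intro n
    induction n with
    | zero =>
      intro _
      exact bot 0 (by omega)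
    | succ n ih =>
      intro hn
      have h1 := ih (by omega)
      have e : h - (n + 1) + 1 = h - n := by omega
      refine r2 (h - (n + 1)) 0 1 1 (by omega) (by omega) (by omega) fun a b ha hb => ?_
      rw [e]
      by_cases h2 : a = 0
      · left
        subst h2
        exact h1
      · by_cases h3 : b = 0
        · right; left
          subst h3
          exact h1
        · right; right
          have e1 : a = 1 := by omega
          have e2 : b = 1 := by omega
          subst e1 e2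
          exact t2
  have := e0 h le_rfl
  rwa [Nat.sub_self] at this

end Pool.Agent.Lib.MP_21a058_co.Slack3.End3K
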