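import Pool.Agent.Lib.MP_21a058_co.Slack3.Base5
import Pool.Agent.Lib.MP_21a058_co.Slack3.Mid3odd

/-! Odd edge-connectivity `2 h + 1`, window `2 m + 1 ≤ red ≤ 2 m + 3` with `2 ≤ m` and
`34 (m + 1) ≤ h`: if all values with a large deviation are killable, then everything is. -/

set_option autoImplicit false

namespace Pool.Agent.Lib.MP_21a058_co.Slack3.End5

open Pool.Agent.Lib.MP_21a058_co.Slack3.PP

/-- The deviation hypothesis. -/
def Dev (h m : ℕ) : Prop :=
  ∀ L p : ℕ, 1 ≤ L → L ≤ h →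
    2 * (2 * (h : ℤ) + m + 2) < |(2 * (h : ℤ) + 1) * p - (2 * m + 2) * L| →
    W3 h (2 * m + 1) (2 * m + 3) L p

/-- An alive set with too many red edges. -/
theorem hi {h m L p : ℕ} (d : Dev h m) (h1 : 1 ≤ L) (hL : L ≤ h)
    (hd : 2 * (2 * h + m + 2) + (2 * m + 2) * L < (2 * h + 1) * p) :
    W3 h (2 * m + 1) (2 * m + 3) L p := by
  refine d L p h1 hL (lt_of_lt_of_le ?_ (le_abs_self _))
  have h1 : 2 * (2 * (h : ℤ) + m + 2) + (2 * m + 2) * L < (2 * h + 1) * p := by
    exact_mod_cast hd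
  linarith

/-- An alive set without red edges that is too big. -/
theorem lo {h m L : ℕ} (d : Dev h m) (h1 : 1 ≤ L) (hL : L ≤ h)
    (hd : 2 * (2 * h + m + 2) < (2 * m + 2) * L) : W3 h (2 * m + 1) (2 * m + 3) L 0 := by
  refine d L 0 h1 hL (lt_of_lt_of_le ?_ (neg_le_abs _))
  have h1 : 2 * (2 * (h : ℤ) + m + 2) < (2 * m + 2) * L := by exact_mod_cast hd
  push_cast
  linarith

section
variable {h m g c : ℕ}

theorem big (d : Dev h m) (hm : 2 ≤ m) (hh : 34 * (m + 1) ≤ h)
    (h2 : 2 * h + 1 < 2 * ((m + 1) * g) + 2 * (m + 1)) (hg : 34 ≤ g) (h3 : 3 * g ≤ h)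
    (hcg : c + 4 = g) (p : ℕ) (hp : m + 2 ≤ p) :
    W3 h (2 * m + 1) (2 * m + 3) (h - c) p := by
  rcases Nat.eq_or_lt_of_le hp with he | hlt
  · rw [← he]
    refine Mid3odd.midO (c := c) (t := 11) (by omega) (by omega) (by omega) (by omega) (by omega)
      ?_ fun p hp => ?_
    · refine lo d (by omega) (by omega) ?_
      have e : 2 * c + 11 = 2 * g + 3 := by omega
      have e2 : (2 * m + 2) * (2 * g + 3) = 4 * ((m + 1) * g) + 6 * (m + 1) := by ring
      rw [e, e2]
      omega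
    · refine hi d (by omega) (by omega) ?_
      have e : (2 * h + 1) * 3 ≤ (2 * h + 1) * p := Nat.mul_le_mul_left _ hp
      omega
  · exact baseH (by omega) (by omega) (by omega)

theorem mid (d : Dev h m) (hm : 2 ≤ m) (hh : 34 * (m + 1) ≤ h) (h1 : (m + 1) * g ≤ h)
    (h2 : 2 * h + 1 < 2 * ((m + 1) * g) + 2 * (m + 1)) (hg : 34 ≤ g) (h3 : 3 * g ≤ h)
    (hcg : c + 4 = g) (p : ℕ) (hp : 3 ≤ p) :
    W3 h (2 * m + 1) (2 * m + 3) (c + 5) p := by
  refine R2 (i := h - 2 * c - 5) (j := 2 * c + 6) (by omega) (by omega) (by omega) (by omega)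
    (by omega) (by omega) (by omega) fun a b ha hb => ?_
  by_cases c1 : m + 2 ≤ p + a
  · left
    have e : c + 5 + (h - 2 * c - 5) = h - c := by omega
    rw [e, Wp_le (by omega)]
    exact big d hm hh h2 hg h3 hcg _ c1
  by_cases c2 : a + b + 1 ≤ m
  · right; right
    have e : h - 2 * c - 5 + (2 * c + 6) = h + 1 := by omega
    rw [e, Wp_top]
    omega
  right; left
  rw [Wp_le (by omega)]
  refine hi d (by omega) (by omega) ?_
  have e : c + 5 + (2 * c + 6) + 1 = 3 * g := by omega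
  have e2 : (2 * m + 2) * (c + 5 + (2 * c + 6)) + (2 * m + 2) = 6 * ((m + 1) * g) := by
    rw [show 6 * ((m + 1) * g) = (2 * m + 2) * (3 * g) by ring, ← e]
    ring
  have e3 : (2 * h + 1) * 5 ≤ (2 * h + 1) * (p + b) := Nat.mul_le_mul_left _ (by omega)
  omega

theorem w22 (d : Dev h m) (hm : 2 ≤ m) (hh : 34 * (m + 1) ≤ h) (h1 : (m + 1) * g ≤ h)
    (h2 : 2 * h + 1 < 2 * ((m + 1) * g) + 2 * (m + 1)) (hg : 34 ≤ g) (h3 : 3 * g ≤ h)
    (hcg : c + 4 = g) : W3 h (2 * m + 1) (2 * m + 3) 2 2 := by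
  refine R2 (i := h - c - 2) (j := c + 3) (by omega) (by omega) (by omega) (by omega)
    (by omega) (by omega) (by omega) fun a b ha hb => ?_
  by_cases c1 : m + 2 ≤ 2 + a
  · left
    have e : 2 + (h - c - 2) = h - c := by omega
    rw [e, Wp_le (by omega)]
    exact big d hm hh h2 hg h3 hcg _ c1
  by_cases c2 : a + b + 1 ≤ m
  · right; right
    have e : h - c - 2 + (c + 3) = h + 1 := by omega
    rw [e, Wp_top]
    omega
  right; left
  have e : 2 + (c + 3) = c + 5 := by omega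
  rw [e, Wp_le (by omega)]
  exact mid d hm hh h1 h2 hg h3 hcg _ (by omega)

end

/-- From the two red edges to everything. -/
theorem down {h m : ℕ} (hm : 2 ≤ m) (hK : 2 ≤ h) (w : W3 h (2 * m + 1) (2 * m + 3) 2 2) :
    ∀ n, n ≤ h → W3 h (2 * m + 1) (2 * m + 3) (h - n) 0 := by
  intro n
  induction n with
  | zero =>
    intro _
    exact baseH (by omega) (by omega) (by omega)
  | succ n ih =>
    intro hn
    have h1 := ih (by omega)
    refine W3_R2 (i := 1) (j := 1) (by omega) (by omega) (by omega) (by omega) fun a b ha hb => ?_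
    rw [show h - (n + 1) + 1 = h - n by omega]
    by_cases h2 : a = 0
    · left
      subst h2
      exact h1
    by_cases h3 : b = 0
    · right; left
      subst h3
      exact h1
    right; right
    have e1 : a = 1 := by omega
    have e2 : b = 1 := by omega
    subst e1 e2
    exact w

/-- **Everything is killable** for `2 ≤ m` and `34 (m + 1) ≤ h`. -/
theorem w00 {h m : ℕ} (d : Dev h m) (hm : 2 ≤ m) (hh : 34 * (m + 1) ≤ h) :
    W3 h (2 * m + 1) (2 * m + 3) 0 0 := by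
  have w : W3 h (2 * m + 1) (2 * m + 3) 2 2 := by
    have h1 : (m + 1) * (h / (m + 1)) ≤ h := Nat.mul_div_le h (m + 1)
    have h2 : h < (m + 1) * (h / (m + 1)) + (m + 1) := Nat.lt_mul_div_succ h (by omega)
    have hg : 34 ≤ h / (m + 1) := (Nat.le_div_iff_mul_le (by omega)).2 (by omega)
    have h3 : 3 * (h / (m + 1)) ≤ h := (Nat.mul_le_mul_right _ (by omega)).trans h1
    obtain ⟨c, hc⟩ : ∃ c, c + 4 = h / (m + 1) := ⟨h / (m + 1) - 4, by omega⟩
    exact w22 (c := c) d hm hh h1 (by omega) hg h3 hc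
  have := down hm (by omega) w h le_rfl
  rwa [Nat.sub_self] at this

end Pool.Agent.Lib.MP_21a058_co.Slack3.End5
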