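import Pool.Agent.Lib.MP_21a058_co.Slack3.Rule3

/-! Odd edge-connectivity `2 h + 1`: the main lemma with parameters. -/

set_option autoImplicit false

namespace Pool.Agent.Lib.MP_21a058_co.Slack3.MK3

open Pool.Agent.Lib.MP_21a058_co.Odd (red red_sum red_equiv red_le)

/-- Some structure over `I` forces `A` on every good colouring. -/
def Fo (h l u : ℕ) (I : Type) (A : (I → Bool) → Prop) : Prop := Kill3 h l u I {x | ¬ A x}

theorem Fo.mono {h l u : ℕ} {I : Type} {A B : (I → Bool) → Prop} (hA : Fo h l u I A)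
    (hAB : ∀ x, A x → B x) : Fo h l u I B :=
  Kill3.mono hA fun _ hx hA => hx (hAB _ hA)

theorem Fo.transport {h l u : ℕ} {I J : Type} {A : (I → Bool) → Prop} (hA : Fo h l u I A)
    (e : I ≃ J) : Fo h l u J (fun y => A (fun i => y (e i))) :=
  Kill3.transport hA e

theorem Fo.leaf (h l u : ℕ) (I : Type) : Fo h l u I (fun x => l ≤ red x ∧ red x ≤ u) :=
  Kill3.leaf I _ fun x hx => by
    have hx' : ¬ (l ≤ red x ∧ red x ≤ u) := hx
    omega

theorem Fo.info {h l u : ℕ} {I : Type} {A : (I → Bool) → Prop} (hA : Fo h l u I A) :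
    Fo h l u I (fun x => (l ≤ red x ∧ red x ≤ u) ∧ A x) := by
  refine Kill3.mono (Kill3.addBase hA) fun x hx => ?_
  have hx' : ¬ ((l ≤ red x ∧ red x ≤ u) ∧ A x) := hx
  show ¬ A x ∨ (red x < l ∨ u < red x)
  by_cases hA : A x
  · right
    by_contra hc
    exact hx' ⟨by omega, hA⟩
  · exact Or.inl hA

/-- The node rule in numbers. -/
theorem Fo.num {h l u q : ℕ} {I J1 J2 J3 N1 N2 N3 : Type} [Finite I] [Finite J1] [Finite J2]
    [Finite J3] [Finite N1] [Finite N2] [Finite N3] (hq : 1 ≤ q) (hq' : q ≤ h)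
    (c1 : Nat.card J1 = h) (c2 : Nat.card J2 = q) (c3 : Nat.card J3 = h + 1 - q)
    (d1 : Nat.card N1 = h) (d2 : Nat.card N2 = q) (d3 : Nat.card N3 = h + 1 - q)
    (e : I ≃ J1 ⊕ (J2 ⊕ J3))
    {A : (J1 ⊕ (N2 ⊕ N3) → Bool) → Prop} {B : (J2 ⊕ (N1 ⊕ N3) → Bool) → Prop}
    {C : (J3 ⊕ (N1 ⊕ N2) → Bool) → Prop}
    (hA : Fo h l u (J1 ⊕ (N2 ⊕ N3)) A) (hB : Fo h l u (J2 ⊕ (N1 ⊕ N3)) B)
    (hC : Fo h l u (J3 ⊕ (N1 ⊕ N2)) C) :
    Fo h l u I (fun x => ∃ (n1 : N1 → Bool) (n2 : N2 → Bool) (n3 : N3 → Bool),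
      (l ≤ red (fun j => x (e.symm (Sum.inl j))) + (red (fun j => x (e.symm (Sum.inr (Sum.inl j)))) +
          red (fun j => x (e.symm (Sum.inr (Sum.inr j))))) ∧
        red (fun j => x (e.symm (Sum.inl j))) + (red (fun j => x (e.symm (Sum.inr (Sum.inl j)))) +
          red (fun j => x (e.symm (Sum.inr (Sum.inr j))))) ≤ u) ∧
      (l ≤ red (fun j => x (e.symm (Sum.inl j))) + (red n2 + red n3) ∧
        red (fun j => x (e.symm (Sum.inl j))) + (red n2 + red n3) ≤ u) ∧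
      (l ≤ red (fun j => x (e.symm (Sum.inr (Sum.inl j)))) +
          red (fun j => x (e.symm (Sum.inr (Sum.inr j)))) + red n2 + red n3 ∧
        red (fun j => x (e.symm (Sum.inr (Sum.inl j)))) +
          red (fun j => x (e.symm (Sum.inr (Sum.inr j)))) + red n2 + red n3 ≤ u + 1) ∧
      A (Sum.elim (fun j => x (e.symm (Sum.inl j))) (Sum.elim n2 n3)) ∧
      B (Sum.elim (fun j => x (e.symm (Sum.inr (Sum.inl j)))) (Sum.elim n1 n3)) ∧
      C (Sum.elim (fun j => x (e.symm (Sum.inr (Sum.inr j)))) (Sum.elim n1 n2))) := by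
  refine Kill3.node I J1 J2 J3 N1 N2 N3 q hq hq' c1 c2 c3 d1 d2 d3 e _ _ _ _ hA.info hB.info
    hC.info fun x hx => ?_
  have r23 : red (fun j => x (e.symm (Sum.inr j))) = red (fun j => x (e.symm (Sum.inr (Sum.inl j)))) +
      red (fun j => x (e.symm (Sum.inr (Sum.inr j)))) := red_sum _
  have r0 : red x = red (fun j => x (e.symm (Sum.inl j))) +
      red (fun j => x (e.symm (Sum.inr j))) :=
    (red_equiv e.symm x).symm.trans (red_sum _)
  by_cases hg : red x < l ∨ u < red x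
  · exact Or.inl hg
  · right
    intro n1 n2 n3
    by_contra hcon
    obtain ⟨k1, hcon⟩ := not_or.1 hcon
    obtain ⟨k2, hcon⟩ := not_or.1 hcon
    obtain ⟨k3, hcon⟩ := not_or.1 hcon
    have k1' := Classical.not_not.1 k1
    have k2' := Classical.not_not.1 k2
    have k3' := Classical.not_not.1 k3
    have r1 : red (Sum.elim (fun j => x (e.symm (Sum.inl j))) (Sum.elim n2 n3)) =
        red (fun j => x (e.symm (Sum.inl j))) + (red n2 + red n3) :=
      (red_sum _).trans (congrArg _ (red_sum _))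
    refine hx ⟨n1, n2, n3, ?_, ?_, ?_, k1'.2, k2'.2, k3'.2⟩
    · omega
    · have := k1'.1
      omega
    · omega

/-- Three red edges are refuted in an alive set. -/
theorem Fo.test {h l u L : ℕ} (hw : ∀ p, 3 ≤ p → W3 h l u L p) (F R : Type) [Finite F]
    [Finite R] (hF : Nat.card F = L) (hR : Nat.card F + Nat.card R = 2 * h + 1) :
    Fo h l u (F ⊕ R) (fun x => red (fun f => x (Sum.inl f)) ≤ 2) := by
  have h1 := W3_seq' (h := h) (l := l) (u := u) (L := L) F R hF hR ∅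
    ((Kill3.empty h l u _).mono (by intro x hx; exact absurd hx (Set.notMem_empty _)))
  refine Kill3.mono h1 fun x hx => ?_
  have hx' : ¬ red (fun f => x (Sum.inl f)) ≤ 2 := hx
  exact Or.inr (hw _ (by omega))

/-- An alive set is not all blue. -/
theorem Fo.pos {h l u L : ℕ} (hw : W3 h l u L 0) (F R : Type) [Finite F]
    [Finite R] (hF : Nat.card F = L) (hR : Nat.card F + Nat.card R = 2 * h + 1) :
    Fo h l u (F ⊕ R) (fun x => 1 ≤ red (fun f => x (Sum.inl f))) := by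
  have h1 := hw F R hF hR ∅
    ((Kill3.empty h l u _).mono (by intro x hx; exact absurd hx (Set.notMem_empty _)))
  refine Kill3.mono h1 fun x hx => ?_
  have hx' : ¬ 1 ≤ red (fun f => x (Sum.inl f)) := hx
  refine Or.inr ?_
  show red (fun f => x (Sum.inl f)) = 0
  omega

section

variable (M C C' D N U V V' Z Z' S : Type)

/-- the root -/
def eR : M ⊕ (C ⊕ (C' ⊕ D)) ≃ (M ⊕ C) ⊕ (C' ⊕ D) := (Equiv.sumAssoc M C (C' ⊕ D)).symm

/-- node 1 : `(M ⊕ C0) ⊕ (C1 ⊕ Q0)`, with `J2 = C0`, `J3 = Q0`. -/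
def e1 : (M ⊕ C) ⊕ (C' ⊕ D) ≃ (M ⊕ C') ⊕ (C ⊕ D) where
  toFun p := match p with
    | Sum.inl (Sum.inl m) => Sum.inl (Sum.inl m)
    | Sum.inl (Sum.inr c) => Sum.inr (Sum.inl c)
    | Sum.inr (Sum.inl c) => Sum.inl (Sum.inr c)
    | Sum.inr (Sum.inr d) => Sum.inr (Sum.inr d)
  invFun p := match p with
    | Sum.inl (Sum.inl m) => Sum.inl (Sum.inl m)
    | Sum.inr (Sum.inl c) => Sum.inl (Sum.inr c)
    | Sum.inl (Sum.inr c) => Sum.inr (Sum.inl c)
    | Sum.inr (Sum.inr d) => Sum.inr (Sum.inr d)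
  left_inv := by rintro ((m | c) | (c | d)) <;> rfl
  right_inv := by rintro ((m | c) | (c | d)) <;> rfl

/-- node 2 : `(M ⊕ C1) ⊕ (U ⊕ (C2 ⊕ (Z ⊕ V)))`, with `J2 = C1`, `J3 = U ⊕ (Z ⊕ V)`. -/
def e2 : (M ⊕ C) ⊕ (U ⊕ (C' ⊕ (Z ⊕ V))) ≃ (M ⊕ C') ⊕ (C ⊕ (U ⊕ (Z ⊕ V))) where
  toFun p := match p with
    | Sum.inl (Sum.inl m) => Sum.inl (Sum.inl m)
    | Sum.inl (Sum.inr c) => Sum.inr (Sum.inl c)
    | Sum.inr (Sum.inl a) => Sum.inr (Sum.inr (Sum.inl a))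
    | Sum.inr (Sum.inr (Sum.inl c)) => Sum.inl (Sum.inr c)
    | Sum.inr (Sum.inr (Sum.inr z)) => Sum.inr (Sum.inr (Sum.inr z))
  invFun p := match p with
    | Sum.inl (Sum.inl m) => Sum.inl (Sum.inl m)
    | Sum.inr (Sum.inl c) => Sum.inl (Sum.inr c)
    | Sum.inr (Sum.inr (Sum.inl a)) => Sum.inr (Sum.inl a)
    | Sum.inl (Sum.inr c) => Sum.inr (Sum.inr (Sum.inl c))
    | Sum.inr (Sum.inr (Sum.inr z)) => Sum.inr (Sum.inr (Sum.inr z))
  left_inv := by rintro ((m | c) | (a | (c | z))) <;> rfl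
  right_inv := by rintro ((m | c) | (c | (a | z))) <;> rfl

/-- node 3 : `(M ⊕ C2) ⊕ ((Z' ⊕ U) ⊕ (C3 ⊕ V))`, with `J2 = C2 ⊕ Z'`, `J3 = U ⊕ V`. -/
def e3 : (M ⊕ C) ⊕ ((Z ⊕ U) ⊕ (C' ⊕ V)) ≃ (M ⊕ C') ⊕ ((C ⊕ Z) ⊕ (U ⊕ V)) where
  toFun p := match p with
    | Sum.inl (Sum.inl m) => Sum.inl (Sum.inl m)
    | Sum.inl (Sum.inr c) => Sum.inr (Sum.inl (Sum.inl c))
    | Sum.inr (Sum.inl (Sum.inl z)) => Sum.inr (Sum.inl (Sum.inr z))
    | Sum.inr (Sum.inl (Sum.inr a)) => Sum.inr (Sum.inr (Sum.inl a))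
    | Sum.inr (Sum.inr (Sum.inl c)) => Sum.inl (Sum.inr c)
    | Sum.inr (Sum.inr (Sum.inr v)) => Sum.inr (Sum.inr (Sum.inr v))
  invFun p := match p with
    | Sum.inl (Sum.inl m) => Sum.inl (Sum.inl m)
    | Sum.inr (Sum.inl (Sum.inl c)) => Sum.inl (Sum.inr c)
    | Sum.inr (Sum.inl (Sum.inr z)) => Sum.inr (Sum.inl (Sum.inl z))
    | Sum.inr (Sum.inr (Sum.inl a)) => Sum.inr (Sum.inl (Sum.inr a))
    | Sum.inl (Sum.inr c) => Sum.inr (Sum.inr (Sum.inl c))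
    | Sum.inr (Sum.inr (Sum.inr v)) => Sum.inr (Sum.inr (Sum.inr v))
  left_inv := by rintro ((m | c) | ((z | a) | (c | v))) <;> rfl
  right_inv := by rintro ((m | c) | ((c | z) | (a | v))) <;> rfl

/-- node 4 : `(M ⊕ C3) ⊕ (U ⊕ (C4 ⊕ V))`, with `J2 = C3`, `J3 = U ⊕ V`. -/
def e4 : (M ⊕ C) ⊕ (U ⊕ (C' ⊕ V)) ≃ (M ⊕ C') ⊕ (C ⊕ (U ⊕ V)) where
  toFun p := match p with
    | Sum.inl (Sum.inl m) => Sum.inl (Sum.inl m)
    | Sum.inl (Sum.inr c) => Sum.inr (Sum.inl c)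
    | Sum.inr (Sum.inl a) => Sum.inr (Sum.inr (Sum.inl a))
    | Sum.inr (Sum.inr (Sum.inl c)) => Sum.inl (Sum.inr c)
    | Sum.inr (Sum.inr (Sum.inr z)) => Sum.inr (Sum.inr (Sum.inr z))
  invFun p := match p with
    | Sum.inl (Sum.inl m) => Sum.inl (Sum.inl m)
    | Sum.inr (Sum.inl c) => Sum.inl (Sum.inr c)
    | Sum.inr (Sum.inr (Sum.inl a)) => Sum.inr (Sum.inl a)
    | Sum.inl (Sum.inr c) => Sum.inr (Sum.inr (Sum.inl c))
    | Sum.inr (Sum.inr (Sum.inr z)) => Sum.inr (Sum.inr (Sum.inr z))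
  left_inv := by rintro ((m | c) | (a | (c | z))) <;> rfl
  right_inv := by rintro ((m | c) | (c | (a | z))) <;> rfl

/-- the test of the vertex 2 of node 1 -/
def t1 : ((C ⊕ C') ⊕ Z) ⊕ (N ⊕ V) ≃ C ⊕ (N ⊕ (C' ⊕ (Z ⊕ V))) where
  toFun p := match p with
    | Sum.inl (Sum.inl (Sum.inl c)) => Sum.inl c
    | Sum.inl (Sum.inl (Sum.inr c)) => Sum.inr (Sum.inr (Sum.inl c))
    | Sum.inl (Sum.inr z) => Sum.inr (Sum.inr (Sum.inr (Sum.inl z)))
    | Sum.inr (Sum.inl n) => Sum.inr (Sum.inl n)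
    | Sum.inr (Sum.inr v) => Sum.inr (Sum.inr (Sum.inr (Sum.inr v)))
  invFun p := match p with
    | Sum.inl c => Sum.inl (Sum.inl (Sum.inl c))
    | Sum.inr (Sum.inr (Sum.inl c)) => Sum.inl (Sum.inl (Sum.inr c))
    | Sum.inr (Sum.inr (Sum.inr (Sum.inl z))) => Sum.inl (Sum.inr z)
    | Sum.inr (Sum.inl n) => Sum.inr (Sum.inl n)
    | Sum.inr (Sum.inr (Sum.inr (Sum.inr v))) => Sum.inr (Sum.inr v)
  left_inv := by rintro (((c | c) | z) | (n | v)) <;> rfl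
  right_inv := by rintro (c | (n | (c | (z | v)))) <;> rfl

/-- the test of the vertex 2 of node 2 -/
def t2 : ((C ⊕ C') ⊕ Z) ⊕ (V ⊕ V') ≃ C ⊕ ((Z ⊕ V) ⊕ (C' ⊕ V')) where
  toFun p := match p with
    | Sum.inl (Sum.inl (Sum.inl c)) => Sum.inl c
    | Sum.inl (Sum.inl (Sum.inr c)) => Sum.inr (Sum.inr (Sum.inl c))
    | Sum.inl (Sum.inr z) => Sum.inr (Sum.inl (Sum.inl z))
    | Sum.inr (Sum.inl v) => Sum.inr (Sum.inl (Sum.inr v))
    | Sum.inr (Sum.inr v) => Sum.inr (Sum.inr (Sum.inr v))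
  invFun p := match p with
    | Sum.inl c => Sum.inl (Sum.inl (Sum.inl c))
    | Sum.inr (Sum.inr (Sum.inl c)) => Sum.inl (Sum.inl (Sum.inr c))
    | Sum.inr (Sum.inl (Sum.inl z)) => Sum.inl (Sum.inr z)
    | Sum.inr (Sum.inl (Sum.inr v)) => Sum.inr (Sum.inl v)
    | Sum.inr (Sum.inr (Sum.inr v)) => Sum.inr (Sum.inr v)
  left_inv := by rintro (((c | c) | z) | (v | v)) <;> rfl
  right_inv := by rintro (c | ((z | v) | (c | v))) <;> rfl

/-- the test of the vertex 3 of node 2 -/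
def t3 : ((Z ⊕ Z') ⊕ S) ⊕ (C ⊕ (V ⊕ (V' ⊕ U))) ≃ (C ⊕ (Z ⊕ V)) ⊕ ((Z' ⊕ V') ⊕ (S ⊕ U)) where
  toFun p := match p with
    | Sum.inl (Sum.inl (Sum.inl z)) => Sum.inl (Sum.inr (Sum.inl z))
    | Sum.inl (Sum.inl (Sum.inr z)) => Sum.inr (Sum.inl (Sum.inl z))
    | Sum.inl (Sum.inr s) => Sum.inr (Sum.inr (Sum.inl s))
    | Sum.inr (Sum.inl c) => Sum.inl (Sum.inl c)
    | Sum.inr (Sum.inr (Sum.inl v)) => Sum.inl (Sum.inr (Sum.inr v))
    | Sum.inr (Sum.inr (Sum.inr (Sum.inl v))) => Sum.inr (Sum.inl (Sum.inr v))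
    | Sum.inr (Sum.inr (Sum.inr (Sum.inr a))) => Sum.inr (Sum.inr (Sum.inr a))
  invFun p := match p with
    | Sum.inl (Sum.inr (Sum.inl z)) => Sum.inl (Sum.inl (Sum.inl z))
    | Sum.inr (Sum.inl (Sum.inl z)) => Sum.inl (Sum.inl (Sum.inr z))
    | Sum.inr (Sum.inr (Sum.inl s)) => Sum.inl (Sum.inr s)
    | Sum.inl (Sum.inl c) => Sum.inr (Sum.inl c)
    | Sum.inl (Sum.inr (Sum.inr v)) => Sum.inr (Sum.inr (Sum.inl v))
    | Sum.inr (Sum.inl (Sum.inr v)) => Sum.inr (Sum.inr (Sum.inr (Sum.inl v)))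
    | Sum.inr (Sum.inr (Sum.inr a)) => Sum.inr (Sum.inr (Sum.inr (Sum.inr a)))
  left_inv := by rintro (((z | z) | s) | (c | (v | (v | a)))) <;> rfl
  right_inv := by rintro ((c | (z | v)) | ((z | v) | (s | a))) <;> rfl

/-- the test of the vertex 2 of node 3 -/
def t4 : ((C ⊕ Z) ⊕ C') ⊕ (N ⊕ V) ≃ (C ⊕ Z) ⊕ (N ⊕ (C' ⊕ V)) where
  toFun p := match p with
    | Sum.inl (Sum.inl c) => Sum.inl c
    | Sum.inl (Sum.inr c) => Sum.inr (Sum.inr (Sum.inl c))
    | Sum.inr (Sum.inl n) => Sum.inr (Sum.inl n)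
    | Sum.inr (Sum.inr v) => Sum.inr (Sum.inr (Sum.inr v))
  invFun p := match p with
    | Sum.inl c => Sum.inl (Sum.inl c)
    | Sum.inr (Sum.inr (Sum.inl c)) => Sum.inl (Sum.inr c)
    | Sum.inr (Sum.inl n) => Sum.inr (Sum.inl n)
    | Sum.inr (Sum.inr (Sum.inr v)) => Sum.inr (Sum.inr v)
  left_inv := by rintro ((c | c) | (n | v)) <;> rfl
  right_inv := by rintro (c | (n | (c | v))) <;> rfl

end

/-- **The main lemma**: `P` red edges among `m` alive edges are refutable. -/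
theorem mainK3 {h l u c m t P : ℕ} (hc : 1 ≤ c) (hcm : c + m = h) (htc : t ≤ c)
    (hct : c + t ≤ m + 1) (hU : 2 * u < 2 * P + 2 + l) (h0 : W3 h l u (2 * c + t) 0)
    (h3 : ∀ p, 3 ≤ p → W3 h l u (3 * t) p) : W3 h l u m P := by
  intro M R _ _ hM hR F hT
  set C := Fin c with hCd
  set D := Fin (m + 1) with hD
  set S := Fin h with hS
  set Z := Fin t with hZ
  set V1 := Fin (m + 1 - c - t) with hV1
  set V2 := Fin (h - t) with hV2
  set U2 := Fin (c - t) with hU2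
  set V3 := Fin (m + 1 - c) with hV3
  set U3 := Fin (c + t) with hU3
  have kC : Nat.card C = c := Nat.card_fin _
  have kD : Nat.card D = m + 1 := Nat.card_fin _
  have kS : Nat.card S = h := Nat.card_fin _
  have kZ : Nat.card Z = t := Nat.card_fin _
  have kV1 : Nat.card V1 = m + 1 - c - t := Nat.card_fin _
  have kV2 : Nat.card V2 = h - t := Nat.card_fin _
  have kU2 : Nat.card U2 = c - t := Nat.card_fin _
  have kV3 : Nat.card V3 = m + 1 - c := Nat.card_fin _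
  have kU3 : Nat.card U3 = c + t := Nat.card_fin _
  have cMC : Nat.card (M ⊕ C) = h := by rw [Nat.card_sum]; omega
  have kD' : Nat.card D = h + 1 - c := by omega
  -- the last main bundle
  have f5 : Fo h l u ((M ⊕ C) ⊕ (C ⊕ D)) (fun x => (fun m => x (Sum.inl (Sum.inl m))) ∉ F) := by
    have h1 : Kill3 h l u (M ⊕ (C ⊕ (C ⊕ D))) {x | (fun f => x (Sum.inl f)) ∈ F} :=
      kill3_rest (by simp only [Nat.card_sum]; omega) hT
    refine Kill3.mono (h1.transport (Equiv.sumAssoc M C (C ⊕ D)).symm) fun x hx => ?_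
    exact Classical.not_not.1 hx
  -- node 4
  have f4 : Fo h l u ((M ⊕ C) ⊕ (U3 ⊕ (C ⊕ V1))) (fun x =>
      (fun m => x (Sum.inl (Sum.inl m))) ∉ F ∧
      red (fun i => x (Sum.inl (Sum.inl i))) + red (fun i => x (Sum.inr (Sum.inr (Sum.inl i)))) ≤
        P) := by
    refine (Fo.num (q := c) (J2 := C) (J3 := U3 ⊕ V1) (N1 := S) (N2 := C) (N3 := D) hc (by omega)
      cMC kC (by simp only [Nat.card_sum]; omega) kS kC kD' (e4 M C C U3 V1) f5
      (Fo.leaf h l u (C ⊕ (S ⊕ D))) (Fo.leaf h l u ((U3 ⊕ V1) ⊕ (S ⊕ C)))).mono ?_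
    rintro x ⟨n1, n2, n3, g0, g1, g2, hA, -, -⟩
    have r1 : red (fun j => x ((e4 M C C U3 V1).symm (Sum.inl j))) =
        red (fun i => x (Sum.inl (Sum.inl i))) +
        red (fun i => x (Sum.inr (Sum.inr (Sum.inl i)))) := red_sum _
    exact ⟨hA, by omega⟩
  -- node 3
  have f3 : Fo h l u ((M ⊕ C) ⊕ ((Z ⊕ U2) ⊕ (C ⊕ V3))) (fun x =>
      (fun m => x (Sum.inl (Sum.inl m))) ∉ F ∧
      red (fun i => x (Sum.inl (Sum.inl i))) + red (fun i => x (Sum.inr (Sum.inr (Sum.inl i)))) ≤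
        P ∧
      (red (fun i => x (Sum.inl (Sum.inl i))) = P → 1 ≤ red (fun i => x (Sum.inl (Sum.inr i))) +
        red (fun i => x (Sum.inr (Sum.inl (Sum.inl i)))))) := by
    have d2 : Fo h l u ((C ⊕ Z) ⊕ (S ⊕ (C ⊕ V1))) (fun x =>
        1 ≤ red (fun i => x (Sum.inl (Sum.inl i))) + red (fun i => x (Sum.inl (Sum.inr i))) +
          red (fun i => x (Sum.inr (Sum.inr (Sum.inl i))))) := by
      refine ((Fo.pos h0 ((C ⊕ Z) ⊕ C) (S ⊕ V1) (by simp only [Nat.card_sum]; omega)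
        (by simp only [Nat.card_sum]; omega)).transport (t4 C C S V1 Z)).mono fun x hx => ?_
      have r : red (fun f : (C ⊕ Z) ⊕ C => x (t4 C C S V1 Z (Sum.inl f))) =
          (red (fun i => x (Sum.inl (Sum.inl i))) +
          red (fun i => x (Sum.inl (Sum.inr i)))) +
          red (fun i => x (Sum.inr (Sum.inr (Sum.inl i)))) :=
        (red_sum _).trans (congrArg (· + _) (red_sum _))
      have hx' : 1 ≤ red (fun f : (C ⊕ Z) ⊕ C => x (t4 C C S V1 Z (Sum.inl f))) := hx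
      omega
    refine (Fo.num (q := c + t) (J2 := C ⊕ Z) (J3 := U2 ⊕ V3) (N1 := S) (N2 := U3) (N3 := C ⊕ V1)
      (by omega) (by omega) cMC (by simp only [Nat.card_sum]; omega)
      (by simp only [Nat.card_sum]; omega) kS kU3 (by simp only [Nat.card_sum]; omega)
      (e3 M C C U2 V3 Z) f4 d2 (Fo.leaf h l u ((U2 ⊕ V3) ⊕ (S ⊕ U3)))).mono ?_
    rintro x ⟨n1, n2, n3, g0, g1, g2, ⟨hA1, hA2⟩, hB, -⟩
    have r1 : red (fun j => x ((e3 M C C U2 V3 Z).symm (Sum.inl j))) =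
        red (fun i => x (Sum.inl (Sum.inl i))) +
        red (fun i => x (Sum.inr (Sum.inr (Sum.inl i)))) := red_sum _
    have hA2' : red (fun i => x (Sum.inl (Sum.inl i))) + red (fun i => n3 (Sum.inl i)) ≤ P := hA2
    have hB' : 1 ≤ red (fun i => x (Sum.inl (Sum.inr i))) +
        red (fun i => x (Sum.inr (Sum.inl (Sum.inl i)))) + red (fun i => n3 (Sum.inl i)) := hB
    exact ⟨hA1, by omega, fun h => by omega⟩
  -- node 2
  have f2 : Fo h l u ((M ⊕ C) ⊕ (C ⊕ (C ⊕ (Z ⊕ V1)))) (fun x =>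
      (fun m => x (Sum.inl (Sum.inl m))) ∉ F ∧
      red (fun i => x (Sum.inl (Sum.inl i))) + red (fun i => x (Sum.inr (Sum.inr (Sum.inl i)))) ≤
        P ∧
      (red (fun i => x (Sum.inl (Sum.inl i))) = P → red (fun i => x (Sum.inl (Sum.inr i))) = 0 →
        red (fun i => x (Sum.inr (Sum.inr (Sum.inr (Sum.inl i))))) = 0)) := by
    have d2 : Fo h l u (C ⊕ ((Z ⊕ V2) ⊕ (C ⊕ V3))) (fun x =>
        1 ≤ red (fun i => x (Sum.inl i)) + red (fun i => x (Sum.inr (Sum.inr (Sum.inl i)))) +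
          red (fun i => x (Sum.inr (Sum.inl (Sum.inl i))))) := by
      refine ((Fo.pos h0 ((C ⊕ C) ⊕ Z) (V2 ⊕ V3) (by simp only [Nat.card_sum]; omega)
        (by simp only [Nat.card_sum]; omega)).transport (t2 C C V2 V3 Z)).mono fun x hx => ?_
      have r : red (fun f : (C ⊕ C) ⊕ Z => x (t2 C C V2 V3 Z (Sum.inl f))) =
          (red (fun i => x (Sum.inl i)) +
          red (fun i => x (Sum.inr (Sum.inr (Sum.inl i))))) +
          red (fun i => x (Sum.inr (Sum.inl (Sum.inl i)))) :=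
        (red_sum _).trans (congrArg (· + _) (red_sum _))
      have hx' : 1 ≤ red (fun f : (C ⊕ C) ⊕ Z => x (t2 C C V2 V3 Z (Sum.inl f))) := hx
      omega
    have d3 : Fo h l u ((C ⊕ (Z ⊕ V1)) ⊕ ((Z ⊕ V2) ⊕ (Z ⊕ U2))) (fun x =>
        red (fun i => x (Sum.inl (Sum.inr (Sum.inl i)))) +
          red (fun i => x (Sum.inr (Sum.inl (Sum.inl i)))) +
          red (fun i => x (Sum.inr (Sum.inr (Sum.inl i)))) ≤ 2) := by
      refine ((Fo.test h3 ((Z ⊕ Z) ⊕ Z) (C ⊕ (V1 ⊕ (V2 ⊕ U2))) (by simp only [Nat.card_sum]; omega)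
        (by simp only [Nat.card_sum]; omega)).transport (t3 C U2 V1 V2 Z Z Z)).mono fun x hx => ?_
      have r : red (fun f : (Z ⊕ Z) ⊕ Z => x (t3 C U2 V1 V2 Z Z Z (Sum.inl f))) =
          (red (fun i => x (Sum.inl (Sum.inr (Sum.inl i)))) +
          red (fun i => x (Sum.inr (Sum.inl (Sum.inl i))))) +
          red (fun i => x (Sum.inr (Sum.inr (Sum.inl i)))) :=
        (red_sum _).trans (congrArg (· + _) (red_sum _))
      have hx' : red (fun f : (Z ⊕ Z) ⊕ Z => x (t3 C U2 V1 V2 Z Z Z (Sum.inl f))) ≤ 2 := hx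
      omega
    refine (Fo.num (q := c) (J2 := C) (J3 := C ⊕ (Z ⊕ V1)) (N1 := Z ⊕ V2) (N2 := Z ⊕ U2)
      (N3 := C ⊕ V3) hc (by omega) cMC kC (by simp only [Nat.card_sum]; omega)
      (by simp only [Nat.card_sum]; omega) (by simp only [Nat.card_sum]; omega)
      (by simp only [Nat.card_sum]; omega) (e2 M C C C V1 Z) f3 d2 d3).mono ?_
    rintro x ⟨n1, n2, n3, g0, g1, g2, ⟨hA1, hA2, hA3⟩, hB, hC⟩
    have r1 : red (fun j => x ((e2 M C C C V1 Z).symm (Sum.inl j))) =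
        red (fun i => x (Sum.inl (Sum.inl i))) +
        red (fun i => x (Sum.inr (Sum.inr (Sum.inl i)))) := red_sum _
    have hA2' : red (fun i => x (Sum.inl (Sum.inl i))) + red (fun i => n3 (Sum.inl i)) ≤ P := hA2
    have hA3' : red (fun i => x (Sum.inl (Sum.inl i))) = P →
        1 ≤ red (fun i => x (Sum.inr (Sum.inr (Sum.inl i)))) + red (fun i => n2 (Sum.inl i)) := hA3
    have hB' : 1 ≤ red (fun i => x (Sum.inl (Sum.inr i))) + red (fun i => n3 (Sum.inl i)) +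
        red (fun i => n1 (Sum.inl i)) := hB
    have hC' : red (fun i => x (Sum.inr (Sum.inr (Sum.inr (Sum.inl i))))) +
        red (fun i => n1 (Sum.inl i)) + red (fun i => n2 (Sum.inl i)) ≤ 2 := hC
    refine ⟨hA1, by omega, fun h1 h2 => ?_⟩
    have := hA3' h1
    omega
  -- node 1
  have f1 : Fo h l u ((M ⊕ C) ⊕ (C ⊕ D)) (fun x =>
      (fun m => x (Sum.inl (Sum.inl m))) ∉ F ∧
      (red (fun i => x (Sum.inl (Sum.inl i))) = P →
        1 ≤ red (fun i => x (Sum.inl (Sum.inr i))))) := by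
    have d2 : Fo h l u (C ⊕ (S ⊕ (C ⊕ (Z ⊕ V1)))) (fun x =>
        1 ≤ red (fun i => x (Sum.inl i)) + red (fun i => x (Sum.inr (Sum.inr (Sum.inl i)))) +
          red (fun i => x (Sum.inr (Sum.inr (Sum.inr (Sum.inl i)))))) := by
      refine ((Fo.pos h0 ((C ⊕ C) ⊕ Z) (S ⊕ V1) (by simp only [Nat.card_sum]; omega)
        (by simp only [Nat.card_sum]; omega)).transport (t1 C C S V1 Z)).mono fun x hx => ?_
      have r : red (fun f : (C ⊕ C) ⊕ Z => x (t1 C C S V1 Z (Sum.inl f))) =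
          (red (fun i => x (Sum.inl i)) +
          red (fun i => x (Sum.inr (Sum.inr (Sum.inl i))))) +
          red (fun i => x (Sum.inr (Sum.inr (Sum.inr (Sum.inl i))))) :=
        (red_sum _).trans (congrArg (· + _) (red_sum _))
      have hx' : 1 ≤ red (fun f : (C ⊕ C) ⊕ Z => x (t1 C C S V1 Z (Sum.inl f))) := hx
      omega
    refine (Fo.num (q := c) (J2 := C) (J3 := D) (N1 := S) (N2 := C)
      (N3 := C ⊕ (Z ⊕ V1)) hc (by omega) cMC kC kD' kS kC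
      (by simp only [Nat.card_sum]; omega) (e1 M C C D) f2 d2
      (Fo.leaf h l u (D ⊕ (S ⊕ C)))).mono ?_
    rintro x ⟨n1, n2, n3, g0, g1, g2, ⟨hA1, hA2, hA3⟩, hB, -⟩
    have r1 : red (fun j => x ((e1 M C C D).symm (Sum.inl j))) =
        red (fun i => x (Sum.inl (Sum.inl i))) +
        red (fun i => x (Sum.inr (Sum.inl i))) := red_sum _
    have hA2' : red (fun i => x (Sum.inl (Sum.inl i))) + red (fun i => n3 (Sum.inl i)) ≤ P := hA2
    have hA3' : red (fun i => x (Sum.inl (Sum.inl i))) = P → red (fun i => x (Sum.inr (Sum.inl i))) = 0 →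
        red (fun i => n3 (Sum.inr (Sum.inl i))) = 0 := hA3
    have hB' : 1 ≤ red (fun i => x (Sum.inl (Sum.inr i))) + red (fun i => n3 (Sum.inl i)) +
        red (fun i => n3 (Sum.inr (Sum.inl i))) := hB
    refine ⟨hA1, fun h1 => ?_⟩
    have h2 : red (fun i => x (Sum.inr (Sum.inl i))) = 0 := by omega
    have := hA3' h1 h2
    omega
  -- node 0
  have f0 : Fo h l u (M ⊕ (C ⊕ (C ⊕ D))) (fun x => (fun m => x (Sum.inl m)) ∉ F ∧
      red (fun i => x (Sum.inl i)) ≠ P) := by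
    refine (Fo.num (q := c) (J2 := C) (J3 := D) (N1 := S) (N2 := C) (N3 := D) hc (by omega)
      cMC kC kD' kS kC kD' (eR M C C D) f1
      (Fo.leaf h l u (C ⊕ (S ⊕ D))) (Fo.leaf h l u (D ⊕ (S ⊕ C)))).mono ?_
    rintro x ⟨n1, n2, n3, g0, g1, g2, ⟨hA1, hA2⟩, -, -⟩
    have r1 : red (fun j => x ((eR M C C D).symm (Sum.inl j))) =
        red (fun i => x (Sum.inl i)) +
        red (fun i => x (Sum.inr (Sum.inl i))) := red_sum _
    have hA2' : red (fun i => x (Sum.inl i)) = P → 1 ≤ red (fun i => x (Sum.inr (Sum.inl i))) := hA2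
    refine ⟨hA1, fun h1 => ?_⟩
    have := hA2' h1
    omega
  have hfin : Kill3 h l u (M ⊕ (C ⊕ (C ⊕ D))) {x | (fun m => x (Sum.inl m)) ∈
      {y : M → Bool | y ∈ F ∨ red y = P}} := by
    refine Kill3.mono f0 fun x hx => ?_
    rcases hx with hx | hx
    · exact fun h => h.1 hx
    · exact fun h => h.2 hx
  exact kill3_rest (by simp only [Nat.card_sum]; omega) hfin

end Pool.Agent.Lib.MP_21a058_co.Slack3.MK3
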