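import Pool.Agent.Lib.MP_21a058_co.Slack3.Rule3
import Pool.Agent.Lib.MP_21a058_co.Slack3.Gad3

/-! Odd edge-connectivity `2 h + 1` and the window `3 ≤ red ≤ 5`: everything is killable for odd
`h ≥ 37` and even `h ≥ 44`. -/

set_option autoImplicit false

namespace Pool.Agent.Lib.MP_21a058_co.Slack3.OddK

open Pool.Agent.Lib.MP_21a058_co
open Pool.Agent.Lib.MP_21a058_co.Odd (red red_sum red_equiv red_le)

/-- Some structure over `I` forces `A` on every good colouring. -/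
def Fo (h l u : ℕ) (I : Type) (A : (I → Bool) → Prop) : Prop := Kill3 h l u I {x | ¬ A x}

theorem Fo.mono {h l u : ℕ} {I : Type} {A B : (I → Bool) → Prop} (hk : Fo h l u I A)
    (hAB : ∀ x, A x → B x) : Fo h l u I B :=
  Kill3.mono hk fun _ hx hA => hx (hAB _ hA)

theorem Fo.transport {h l u : ℕ} {I J : Type} {A : (I → Bool) → Prop} (hk : Fo h l u I A)
    (e : I ≃ J) : Fo h l u J (fun y => A (fun i => y (e i))) :=
  Kill3.transport hk e

theorem Fo.triv (h l u : ℕ) (I : Type) : Fo h l u I (fun _ => True) :=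
  Kill3.mono (Kill3.empty h l u I) fun _ hx => absurd trivial hx

theorem Fo.info {h l u : ℕ} {I : Type} {A : (I → Bool) → Prop} (hk : Fo h l u I A) :
    Fo h l u I (fun x => (l ≤ red x ∧ red x ≤ u) ∧ A x) := by
  refine Kill3.mono (Kill3.addBase hk) fun x hx => ?_
  by_cases hA : A x
  · right
    by_contra hc
    exact hx ⟨⟨by omega, by omega⟩, hA⟩
  · exact Or.inl hA

/-- The node rule in numbers. -/
theorem Fo.num {h l u q : ℕ} {I J1 J2 J3 N1 N2 N3 : Type} [Finite I] [Finite J1] [Finite J2]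
    [Finite J3] [Finite N1] [Finite N2] [Finite N3] (hq : 1 ≤ q) (hq' : q ≤ h)
    (c1 : Nat.card J1 = h) (c2 : Nat.card J2 = q) (c3 : Nat.card J3 = h + 1 - q)
    (d1 : Nat.card N1 = h) (d2 : Nat.card N2 = q) (d3 : Nat.card N3 = h + 1 - q)
    (e : I ≃ J1 ⊕ (J2 ⊕ J3)) {A : (J1 ⊕ (N2 ⊕ N3) → Bool) → Prop}
    {B : (J2 ⊕ (N1 ⊕ N3) → Bool) → Prop} {C : (J3 ⊕ (N1 ⊕ N2) → Bool) → Prop}
    (hA : Fo h l u (J1 ⊕ (N2 ⊕ N3)) A) (hB : Fo h l u (J2 ⊕ (N1 ⊕ N3)) B)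
    (hC : Fo h l u (J3 ⊕ (N1 ⊕ N2)) C) :
    Fo h l u I (fun x => ∃ (n1 : N1 → Bool) (n2 : N2 → Bool) (n3 : N3 → Bool),
      (l ≤ red (fun j => x (e.symm (Sum.inl j))) + (red (fun j => x (e.symm (Sum.inr (Sum.inl j)))) +
          red (fun j => x (e.symm (Sum.inr (Sum.inr j))))) ∧
        red (fun j => x (e.symm (Sum.inl j))) + (red (fun j => x (e.symm (Sum.inr (Sum.inl j)))) +
          red (fun j => x (e.symm (Sum.inr (Sum.inr j))))) ≤ u) ∧
      (l ≤ red (fun j => x (e.symm (Sum.inl j))) + (red n2 + red n3) ∧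
        red (fun j => x (e.symm (Sum.inl j))) + (red n2 + red n3) ≤ u) ∧
      (l ≤ red (fun j => x (e.symm (Sum.inr (Sum.inl j)))) + (red n1 + red n3) ∧
        red (fun j => x (e.symm (Sum.inr (Sum.inl j)))) + (red n1 + red n3) ≤ u) ∧
      (l ≤ red (fun j => x (e.symm (Sum.inr (Sum.inr j)))) + (red n1 + red n2) ∧
        red (fun j => x (e.symm (Sum.inr (Sum.inr j)))) + (red n1 + red n2) ≤ u) ∧
      (l ≤ red (fun j => x (e.symm (Sum.inr (Sum.inl j)))) +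
          red (fun j => x (e.symm (Sum.inr (Sum.inr j)))) + red n2 + red n3 ∧
        red (fun j => x (e.symm (Sum.inr (Sum.inl j)))) +
          red (fun j => x (e.symm (Sum.inr (Sum.inr j)))) + red n2 + red n3 ≤ u + 1) ∧
      A (Sum.elim (fun j => x (e.symm (Sum.inl j))) (Sum.elim n2 n3)) ∧
      B (Sum.elim (fun j => x (e.symm (Sum.inr (Sum.inl j)))) (Sum.elim n1 n3)) ∧
      C (Sum.elim (fun j => x (e.symm (Sum.inr (Sum.inr j)))) (Sum.elim n1 n2))) := by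
  refine Kill3.node I J1 J2 J3 N1 N2 N3 q hq hq' c1 c2 c3 d1 d2 d3 e _ _ _ _ hA.info hB.info
    hC.info fun x hx => ?_
  have r0 : red x = red (fun j => x (e.symm (Sum.inl j))) +
      (red (fun j => x (e.symm (Sum.inr (Sum.inl j)))) +
        red (fun j => x (e.symm (Sum.inr (Sum.inr j))))) :=
    (red_equiv e.symm x).symm.trans ((red_sum _).trans (congrArg _ (red_sum _)))
  by_cases hg : l ≤ red x ∧ red x ≤ u
  · right
    intro n1 n2 n3
    by_contra hcon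
    obtain ⟨c1, hcon⟩ := not_or.1 hcon
    obtain ⟨c2, hcon⟩ := not_or.1 hcon
    obtain ⟨c3, c4⟩ := not_or.1 hcon
    obtain ⟨⟨a1, a2⟩, a3⟩ := Classical.not_not.1 c1
    obtain ⟨⟨b1, b2⟩, b3⟩ := Classical.not_not.1 c2
    obtain ⟨⟨e1, e2⟩, e3⟩ := Classical.not_not.1 c3
    have r1 : red (Sum.elim (fun j => x (e.symm (Sum.inl j))) (Sum.elim n2 n3)) =
        red (fun j => x (e.symm (Sum.inl j))) + (red n2 + red n3) :=
      (red_sum _).trans (congrArg _ (red_sum _))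
    have r2 : red (Sum.elim (fun j => x (e.symm (Sum.inr (Sum.inl j)))) (Sum.elim n1 n3)) =
        red (fun j => x (e.symm (Sum.inr (Sum.inl j)))) + (red n1 + red n3) :=
      (red_sum _).trans (congrArg _ (red_sum _))
    have r3 : red (Sum.elim (fun j => x (e.symm (Sum.inr (Sum.inr j)))) (Sum.elim n1 n2)) =
        red (fun j => x (e.symm (Sum.inr (Sum.inr j)))) + (red n1 + red n2) :=
      (red_sum _).trans (congrArg _ (red_sum _))
    have r4 : red (fun j => x (e.symm (Sum.inr j))) =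
        red (fun j => x (e.symm (Sum.inr (Sum.inl j)))) +
        red (fun j => x (e.symm (Sum.inr (Sum.inr j)))) := red_sum _
    exact hx ⟨n1, n2, n3, ⟨by omega, by omega⟩, ⟨by omega, by omega⟩, ⟨by omega, by omega⟩,
      ⟨by omega, by omega⟩, ⟨by omega, by omega⟩, a3, b3, e3⟩
  · left
    omega

/-- The edges of `X` stay alive. -/
theorem alive {h l u : ℕ} {X R I : Type} [Finite X] [Finite R] (e : X ⊕ R ≃ I)
    (hR : Nat.card X + Nat.card R = 2 * h + 1) {P : (X → Bool) → Prop}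
    (hP : Fo h l u (X ⊕ R) (fun x => P (fun i => x (Sum.inl i)))) :
    Fo h l u I (fun y => P (fun i => y (e (Sum.inl i))) ∧
      ¬ W3 h l u (Nat.card X) (red (fun i => y (e (Sum.inl i))))) := by
  have h1 := W3_seq' (h := h) (l := l) (u := u) X R rfl hR {x | ¬ P x} hP
  refine Kill3.mono (h1.transport e) fun y hy => ?_
  by_contra hc
  obtain ⟨c1, c2⟩ := not_or.1 hc
  exact hy ⟨Classical.not_not.1 c1, c2⟩

/-! ### the meeting rule with a set of `h + 1` edges -/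

def eV (F R Q N : Type) : (F ⊕ N) ⊕ (R ⊕ Q) ≃ (F ⊕ R) ⊕ (Q ⊕ N) where
  toFun p := match p with
    | Sum.inl (Sum.inl i) => Sum.inl (Sum.inl i)
    | Sum.inl (Sum.inr i) => Sum.inr (Sum.inr i)
    | Sum.inr (Sum.inl i) => Sum.inl (Sum.inr i)
    | Sum.inr (Sum.inr i) => Sum.inr (Sum.inl i)
  invFun p := match p with
    | Sum.inl (Sum.inl i) => Sum.inl (Sum.inl i)
    | Sum.inr (Sum.inr i) => Sum.inl (Sum.inr i)
    | Sum.inl (Sum.inr i) => Sum.inr (Sum.inl i)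
    | Sum.inr (Sum.inl i) => Sum.inr (Sum.inr i)
  left_inv := by rintro ((i | i) | (i | i)) <;> rfl
  right_inv := by rintro ((i | i) | (i | i)) <;> rfl

def eW (F R Q S : Type) : (F ⊕ R) ⊕ (Q ⊕ S) ≃ (F ⊕ Q) ⊕ (R ⊕ S) where
  toFun p := match p with
    | Sum.inl (Sum.inl i) => Sum.inl (Sum.inl i)
    | Sum.inl (Sum.inr i) => Sum.inr (Sum.inl i)
    | Sum.inr (Sum.inl i) => Sum.inl (Sum.inr i)
    | Sum.inr (Sum.inr i) => Sum.inr (Sum.inr i)
  invFun p := match p with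
    | Sum.inl (Sum.inl i) => Sum.inl (Sum.inl i)
    | Sum.inr (Sum.inl i) => Sum.inl (Sum.inr i)
    | Sum.inl (Sum.inr i) => Sum.inr (Sum.inl i)
    | Sum.inr (Sum.inr i) => Sum.inr (Sum.inr i)
  left_inv := by rintro ((i | i) | (i | i)) <;> rfl
  right_inv := by rintro ((i | i) | (i | i)) <;> rfl

/-- at least four red edges among at most `h` edges -/
theorem wge4 {h L p : ℕ} (hh : 1 ≤ h) (hL : L ≤ h) (hp : 4 ≤ p) : W3 h 3 5 L p := by
  intro F R _ _ hF hR T hT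
  have cR : Nat.card R = Nat.card (Fin (h - L) ⊕ (Fin 1 ⊕ Fin h)) := by
    simp only [Nat.card_sum, Nat.card_fin]
    omega
  have hT1 : Fo h 3 5 ((F ⊕ Fin (h - L)) ⊕ (Fin 1 ⊕ Fin h))
      (fun x => ¬ (fun i => x (Sum.inl (Sum.inl i))) ∈ T) := by
    refine Kill3.mono ((kill3_rest cR hT).transport
      (Equiv.sumAssoc F (Fin (h - L)) (Fin 1 ⊕ Fin h)).symm) fun x hx => ?_
    exact Classical.not_not.1 hx
  have c1 : Nat.card (F ⊕ Fin (h - L)) = h := by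
    rw [Nat.card_sum, Nat.card_fin]
    omega
  have hn := Fo.num (q := 1) le_rfl hh c1 (Nat.card_fin 1) (by rw [Nat.card_fin]; omega)
    (Nat.card_fin h) (Nat.card_fin 1) (by rw [Nat.card_fin]; omega)
    (Equiv.refl ((F ⊕ Fin (h - L)) ⊕ (Fin 1 ⊕ Fin h))) hT1 (Fo.triv h 3 5 (Fin 1 ⊕ (Fin h ⊕ Fin h)))
    (Fo.triv h 3 5 (Fin h ⊕ (Fin h ⊕ Fin 1)))
  have hk := hn.mono (B := fun x => (fun i => x (Sum.inl (Sum.inl i))) ∉ T ∧
      red (fun i => x (Sum.inl (Sum.inl i))) ≤ 3) (by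
    rintro x ⟨n1, n2, n3, g0, g1, g2, g3, g4, hA, -, -⟩
    have r1 : red (fun j => x ((Equiv.refl ((F ⊕ Fin (h - L)) ⊕ (Fin 1 ⊕ Fin h))).symm
        (Sum.inl j))) = red (fun i => x (Sum.inl (Sum.inl i))) +
        red (fun i => x (Sum.inl (Sum.inr i))) := red_sum _
    exact ⟨hA, by omega⟩)
  refine kill3_rest (T := {y | y ∈ T ∨ red y = p}) cR.symm
    (Kill3.mono (hk.transport (Equiv.sumAssoc F (Fin (h - L)) (Fin 1 ⊕ Fin h))) fun x hx => ?_)
  rintro ⟨hc, hc'⟩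
  rcases hx with hx | hx
  · exact hc hx
  · have hx' : red (fun i => x (Sum.inl i)) = p := hx
    have hc2 : red (fun i => x (Sum.inl i)) ≤ 3 := hc'
    omega

theorem r2 {h L p q : ℕ} (hq : 1 ≤ q) (hq' : q ≤ h) (h1 : L + q ≤ h) (h2 : L + (h + 1 - q) ≤ h)
    (H : ∀ a b, 1 ≤ a + b → W3 h 3 5 (L + q) (p + a) ∨ W3 h 3 5 (L + (h + 1 - q)) (p + b)) :
    W3 h 3 5 L p := by
  intro F R _ _ hF hR T hT
  -- the first vertex
  have cR1 : Nat.card R = Nat.card (Fin (h + 1 - q) ⊕ (Fin (h - L) ⊕ Fin q)) := by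
    simp only [Nat.card_sum, Nat.card_fin]
    omega
  have t1 : Fo h 3 5 ((F ⊕ Fin (h + 1 - q)) ⊕ (Fin (h - L) ⊕ Fin q))
      (fun x => (fun y : F ⊕ Fin (h + 1 - q) → Bool => ¬ (fun i => y (Sum.inl i)) ∈ T)
        (fun i => x (Sum.inl i))) := by
    refine Kill3.mono ((kill3_rest cR1 hT).transport
      (Equiv.sumAssoc F (Fin (h + 1 - q)) (Fin (h - L) ⊕ Fin q)).symm) fun x hx => ?_
    exact Classical.not_not.1 hx
  have v1 := alive (h := h) (l := 3) (u := 5)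
    (P := fun y : F ⊕ Fin (h + 1 - q) → Bool => ¬ (fun i => y (Sum.inl i)) ∈ T) (eV F (Fin (h - L)) (Fin q) (Fin (h + 1 - q)))
    (by simp only [Nat.card_sum, Nat.card_fin]; omega) t1
  have c1 : Nat.card (F ⊕ Fin (h - L)) = h := by
    rw [Nat.card_sum, Nat.card_fin]
    omega
  have hn := Fo.num hq hq' c1 (Nat.card_fin q) (Nat.card_fin (h + 1 - q))
    (Nat.card_fin h) (Nat.card_fin q) (Nat.card_fin (h + 1 - q))
    (Equiv.refl ((F ⊕ Fin (h - L)) ⊕ (Fin q ⊕ Fin (h + 1 - q)))) v1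
    (Fo.triv h 3 5 (Fin q ⊕ (Fin h ⊕ Fin (h + 1 - q))))
    (Fo.triv h 3 5 (Fin (h + 1 - q) ⊕ (Fin h ⊕ Fin q)))
  have hk := (hn.mono (B := fun x => (fun y : F ⊕ Fin q → Bool =>
      (fun i => y (Sum.inl i)) ∉ T ∧ ∃ b, 1 ≤ red (fun i => y (Sum.inr i)) + b ∧
        ¬ W3 h 3 5 (L + (h + 1 - q)) (red (fun i => y (Sum.inl i)) + b))
        (Sum.elim (fun i => x (Sum.inl (Sum.inl i))) (fun i => x (Sum.inr (Sum.inl i))))) (by
    rintro x ⟨n1, n2, n3, g0, g1, g2, g3, g4, ⟨hA, hA'⟩, -, -⟩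
    have r5 : red (fun i : F ⊕ Fin (h + 1 - q) => (Sum.elim (fun j => x ((Equiv.refl ((F ⊕
        Fin (h - L)) ⊕ (Fin q ⊕ Fin (h + 1 - q)))).symm (Sum.inl j))) (Sum.elim n2 n3) :
        (F ⊕ Fin (h - L)) ⊕ (Fin q ⊕ Fin (h + 1 - q)) → Bool)
        ((eV F (Fin (h - L)) (Fin q) (Fin (h + 1 - q))) (Sum.inl i))) =
        red (fun i => x (Sum.inl (Sum.inl i))) + red n3 := red_sum _
    rw [r5, Nat.card_sum, Nat.card_fin, hF] at hA'
    refine ⟨hA, red n3, ?_, hA'⟩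
    show 1 ≤ red (fun i => x (Sum.inr (Sum.inl i))) + red n3
    have r6 : red (fun j => x ((Equiv.refl ((F ⊕ Fin (h - L)) ⊕ (Fin q ⊕ Fin (h + 1 - q)))).symm
        (Sum.inr (Sum.inl j)))) = red (fun i => x (Sum.inr (Sum.inl i))) := rfl
    omega)).transport (eW F (Fin (h - L)) (Fin q) (Fin (h + 1 - q)))
  have v0 := alive (h := h) (l := 3) (u := 5) (X := F ⊕ Fin q) (R := Fin (h - L) ⊕ Fin (h + 1 - q)) (Equiv.refl _)
    (by simp only [Nat.card_sum, Nat.card_fin]; omega)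
    (P := fun y => (fun i => y (Sum.inl i)) ∉ T ∧ ∃ b, 1 ≤ red (fun i => y (Sum.inr i)) + b ∧
        ¬ W3 h 3 5 (L + (h + 1 - q)) (red (fun i => y (Sum.inl i)) + b)) hk
  have cR : Nat.card R = Nat.card (Fin q ⊕ (Fin (h - L) ⊕ Fin (h + 1 - q))) := by
    simp only [Nat.card_sum, Nat.card_fin]
    omega
  refine kill3_rest (T := {y | y ∈ T ∨ red y = p}) cR.symm
    (Kill3.mono (v0.transport (Equiv.sumAssoc F (Fin q) (Fin (h - L) ⊕ Fin (h + 1 - q))))
      fun x hx => ?_)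
  rintro ⟨⟨d1, b, d2, d3⟩, d4⟩
  have d1' : (fun i => x (Sum.inl i)) ∉ T := d1
  rcases hx with hx | hx
  · exact d1' hx
  · have hx' : red (fun i => x (Sum.inl i)) = p := hx
    have r5 : red (fun i : F ⊕ Fin q => x ((Equiv.sumAssoc F (Fin q)
        (Fin (h - L) ⊕ Fin (h + 1 - q))) (Sum.inl i))) =
        red (fun i => x (Sum.inl i)) + red (fun i => x (Sum.inr (Sum.inl i))) := red_sum _
    have d4' : ¬ W3 h 3 5 (Nat.card (F ⊕ Fin q)) (red (fun i : F ⊕ Fin q => x ((Equiv.sumAssoc F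
        (Fin q) (Fin (h - L) ⊕ Fin (h + 1 - q))) (Sum.inl i)))) := d4
    rw [r5, Nat.card_sum, Nat.card_fin, hF, hx'] at d4'
    have d2' : 1 ≤ red (fun i => x (Sum.inr (Sum.inl i))) + b := d2
    have d3' : ¬ W3 h 3 5 (L + (h + 1 - q)) (red (fun i => x (Sum.inl i)) + b) := d3
    rw [hx'] at d3'
    rcases H _ _ d2' with h5 | h5
    · exact d4' h5
    · exact d3' h5

theorem whalf {h L : ℕ} (hh : 1 ≤ h) (hL : 2 * L + 1 ≤ h) : W3 h 3 5 L 3 := by
  refine r2 (q := (h + 1) / 2) (by omega) (by omega) (by omega) (by omega) fun a b hab => ?_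
  by_cases ha : a = 0
  · exact Or.inr (wge4 hh (by omega) (by omega))
  · exact Or.inl (wge4 hh (by omega) (by omega))

theorem wle {h L m : ℕ} (hh : 1 ≤ h) (hL : L ≤ m) (hm : m ≤ h) (hw : W3 h 3 5 m 3) :
    W3 h 3 5 L 3 := by
  refine W3_R2 (i := m - L) (j := 0) hh (by omega) (by omega) (by omega) fun a b ha hb => ?_
  left
  have e : L + (m - L) = m := by omega
  rw [e]
  by_cases h1 : a = 0
  · subst h1
    exact hw
  · exact wge4 hh hm (by omega)

/-- At most two red edges among at most `(h - 1) / 2` edges of the bundle. -/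
theorem few {h : ℕ} {X R I : Type} [Finite X] [Finite R] (e : X ⊕ R ≃ I) (hh : 1 ≤ h)
    (hX : 2 * Nat.card X + 1 ≤ h) (hR : Nat.card X + Nat.card R = 2 * h + 1) :
    Fo h 3 5 I (fun x => red (fun i => x (e (Sum.inl i))) ≤ 2) := by
  refine (alive (P := fun _ => True) e hR (Fo.triv h 3 5 (X ⊕ R))).mono ?_
  rintro x ⟨-, h1⟩
  by_contra hc
  apply h1
  by_cases h3 : red (fun i => x (e (Sum.inl i))) = 3
  · rw [h3]
    exact whalf hh hX
  · exact wge4 hh (by omega) (by omega)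

end Pool.Agent.Lib.MP_21a058_co.Slack3.OddK
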