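import Pool.Agent.Lib.MP_21a058_co.Slack3.Rule5
import Pool.Agent.Lib.MP_21a058_co.Slack3.MainK3
import Pool.Agent.Lib.MP_21a058_co.Slack3.OddK
import Pool.Agent.Lib.MP_21a058_co.Slack3.Gad3

/-! Odd edge-connectivity `2 h + 1`, window `2 m + 1 ≤ red ≤ 2 m + 3` with `2 ≤ m` and
`74 (m + 1) < 2 h + 1`: everything is killable. -/

set_option autoImplicit false

namespace Pool.Agent.Lib.MP_21a058_co.Slack3.End56

open Pool.Agent.Lib.MP_21a058_co
open Pool.Agent.Lib.MP_21a058_co.Odd (red red_sum red_equiv red_le)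
open Pool.Agent.Lib.MP_21a058_co.Slack3.PP (Wp Wp_le Wp_top)

/-- At least `m + 3` red edges among at most `h` edges. -/
theorem top {h m L p : ℕ} (hh : 1 ≤ h) (hL : L ≤ h) (hp : m + 3 ≤ p) :
    W3 h (2 * m + 1) (2 * m + 3) L p := by
  intro F R _ _ hF hR T hT
  have cR : Nat.card R = Nat.card (Fin (h - L) ⊕ (Fin 1 ⊕ Fin h)) := by
    simp only [Nat.card_sum, Nat.card_fin]
    omega
  have hT1 : OddK.Fo h (2 * m + 1) (2 * m + 3) ((F ⊕ Fin (h - L)) ⊕ (Fin 1 ⊕ Fin h))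
      (fun x => ¬ (fun i => x (Sum.inl (Sum.inl i))) ∈ T) := by
    refine Kill3.mono ((kill3_rest cR hT).transport
      (Equiv.sumAssoc F (Fin (h - L)) (Fin 1 ⊕ Fin h)).symm) fun x hx => ?_
    exact Classical.not_not.1 hx
  have c1 : Nat.card (F ⊕ Fin (h - L)) = h := by
    rw [Nat.card_sum, Nat.card_fin]
    omega
  have hn := OddK.Fo.num (q := 1) le_rfl hh c1 (Nat.card_fin 1) (by rw [Nat.card_fin]; omega)
    (Nat.card_fin h) (Nat.card_fin 1) (by rw [Nat.card_fin]; omega)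
    (Equiv.refl ((F ⊕ Fin (h - L)) ⊕ (Fin 1 ⊕ Fin h))) hT1
    (OddK.Fo.triv h (2 * m + 1) (2 * m + 3) (Fin 1 ⊕ (Fin h ⊕ Fin h)))
    (OddK.Fo.triv h (2 * m + 1) (2 * m + 3) (Fin h ⊕ (Fin h ⊕ Fin 1)))
  have hk := hn.mono (B := fun x => (fun i => x (Sum.inl (Sum.inl i))) ∉ T ∧
      red (fun i => x (Sum.inl (Sum.inl i))) ≤ m + 2) (by
    rintro x ⟨n1, n2, n3, g0, g1, g2, g3, g4, hA, -, -⟩
    have r1 : red (fun j => x ((Equiv.refl ((F ⊕ Fin (h - L)) ⊕ (Fin 1 ⊕ Fin h))).symm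
        (Sum.inl j))) = red (fun i => x (Sum.inl (Sum.inl i))) +
        red (fun i => x (Sum.inl (Sum.inr i))) := red_sum _
    exact ⟨hA, by omega⟩)
  refine kill3_rest (T := {y | y ∈ T ∨ red y = p}) cR.symm
    (Kill3.mono (hk.transport (Equiv.sumAssoc F (Fin (h - L)) (Fin 1 ⊕ Fin h))) fun x hx => ?_)
  rintro ⟨hc, hc'⟩
  rcases hx with hx | hx
  · exact hc hx
  · have hx' : red (fun i => x (Sum.inl i)) = p := hx
    have hc2 : red (fun i => x (Sum.inl i)) ≤ m + 2 := hc'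
    omega

theorem alive_R2 {h l u L p i j : ℕ} (hh : 1 ≤ h) (hL : L ≤ h) (hi : i ≤ h) (hj : j ≤ h)
    (hLi : L + i ≤ h + 1) (hLj : L + j ≤ h + 1) (hij : i + j ≤ h + 1)
    (hw : ¬ W3 h l u L p) : ∃ a b, a ≤ i ∧ b ≤ j ∧ ¬ Wp h l u (L + i) (p + a) ∧
      ¬ Wp h l u (L + j) (p + b) ∧ ¬ Wp h l u (i + j) (a + b) := by
  by_contra hc
  apply hw
  refine PP.R2 hh hL hi hj hLi hLj hij fun a b ha hb => ?_
  by_cases h1 : Wp h l u (L + i) (p + a)
  · exact Or.inl h1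
  by_cases h2 : Wp h l u (L + j) (p + b)
  · exact Or.inr (Or.inl h2)
  by_cases h3 : Wp h l u (i + j) (a + b)
  · exact Or.inr (Or.inr h3)
  · exact absurd ⟨a, b, ha, hb, h1, h2, h3⟩ hc

/-- Level `h`. -/
theorem alive_h {h m M p : ℕ} (hh : 1 ≤ h) (hM : M = h)
    (hw : ¬ Wp h (2 * m + 1) (2 * m + 3) M p) : p ≤ m + 2 := by
  subst hM
  rw [Wp_le le_rfl] at hw
  by_contra hc
  exact hw (top hh le_rfl (by omega))

/-- Level `h + 1`. -/
theorem alive_h1 {h m M p : ℕ} (hM : M = h + 1)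
    (hw : ¬ Wp h (2 * m + 1) (2 * m + 3) M p) : m ≤ p := by
  subst hM
  rw [Wp_top] at hw
  omega

theorem step {h m L p : ℕ} (hh : 1 ≤ h) (hL : L ≤ h)
    (hw : ¬ W3 h (2 * m + 1) (2 * m + 3) L p)
    (hD : 2 * (2 * (h : ℤ) + 1) + 2 * ((m : ℤ) + 1) <
      |(2 * (h : ℤ) + 1) * p - 2 * ((m : ℤ) + 1) * L|) :
    ∃ L' p' : ℕ, L' ≤ h ∧ ¬ W3 h (2 * m + 1) (2 * m + 3) L' p' ∧
      |(2 * (h : ℤ) + 1) * p - 2 * ((m : ℤ) + 1) * L| <
        |(2 * (h : ℤ) + 1) * p' - 2 * ((m : ℤ) + 1) * L'| := by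
  have hk0 : (0 : ℤ) ≤ 2 * (h : ℤ) + 1 := by omega
  rcases abs_cases ((2 * (h : ℤ) + 1) * p - 2 * ((m : ℤ) + 1) * L) with ⟨g1, g2⟩ | ⟨g1, g2⟩
  · rw [g1] at hD ⊢
    by_cases h2 : 2 * L + 1 ≤ h
    · obtain ⟨a, b, ha, hb, h3, h4, h5⟩ := alive_R2 (i := h - L) (j := L + 1) hh hL (by omega)
        (by omega) (by omega) (by omega) (by omega) hw
      have c1 := alive_h hh (by omega) h3
      have c2 := alive_h1 (by omega) h5
      rw [Wp_le (by omega)] at h4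
      refine ⟨L + (L + 1), p + b, by omega, h4, ?_⟩
      have f1 : (2 * (h : ℤ) + 1) * (2 * p - 2) ≤ (2 * (h : ℤ) + 1) * ((p + b : ℕ) : ℤ) :=
        mul_le_mul_of_nonneg_left (by push_cast; omega) hk0
      refine lt_of_lt_of_le ?_ (le_abs_self _)
      push_cast at f1 ⊢
      nlinarith
    · obtain ⟨a, b, ha, hb, h3, h4, h5⟩ := alive_R2 (i := h - L) (j := h - L) hh hL (by omega)
        (by omega) (by omega) (by omega) (by omega) hw
      have c1 := alive_h hh (by omega) h3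
      have c2 := alive_h hh (by omega) h4
      rw [Wp_le (by omega)] at h5
      refine ⟨(h - L) + (h - L), a + b, by omega, h5, ?_⟩
      have f1 : (2 * (h : ℤ) + 1) * ((a + b : ℕ) : ℤ) ≤
          (2 * (h : ℤ) + 1) * (2 * (m + 2) - 2 * p) :=
        mul_le_mul_of_nonneg_left (by push_cast; omega) hk0
      refine lt_of_lt_of_le ?_ (neg_le_abs _)
      obtain ⟨n, rfl⟩ := Nat.exists_eq_add_of_le hL
      rw [show L + n - L = n by omega]
      push_cast at f1 g1 g2 hD ⊢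
      nlinarith
  · rw [g1] at hD ⊢
    have hL1 : 1 ≤ L := by
      by_contra hc
      have h0 : L = 0 := by omega
      subst h0
      have f0 : (0 : ℤ) ≤ (2 * (h : ℤ) + 1) * p := mul_nonneg hk0 (Int.natCast_nonneg _)
      simp only [Nat.cast_zero, mul_zero, sub_zero] at g2
      omega
    by_cases h2 : 2 * L ≤ h + 1
    · obtain ⟨a, b, ha, hb, h3, h4, h5⟩ := alive_R2 (i := h + 1 - L) (j := L - 1) hh hL (by omega)
        (by omega) (by omega) (by omega) (by omega) hw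
      have c1 := alive_h1 (by omega) h3
      have c2 := alive_h hh (by omega) h5
      rw [Wp_le (by omega)] at h4
      refine ⟨L + (L - 1), p + b, by omega, h4, ?_⟩
      have f1 : (2 * (h : ℤ) + 1) * ((p + b : ℕ) : ℤ) ≤ (2 * (h : ℤ) + 1) * (2 * p + 2) :=
        mul_le_mul_of_nonneg_left (by push_cast; omega) hk0
      refine lt_of_lt_of_le ?_ (neg_le_abs _)
      obtain ⟨n, rfl⟩ := Nat.exists_eq_add_of_le hL1
      rw [show 1 + n + (1 + n - 1) = 1 + n + n by omega]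
      push_cast at f1 g1 g2 hD ⊢
      nlinarith
    · obtain ⟨a, b, ha, hb, h3, h4, h5⟩ := alive_R2 (i := h + 1 - L) (j := h + 1 - L) hh hL
        (by omega) (by omega) (by omega) (by omega) (by omega) hw
      have c1 := alive_h1 (by omega) h3
      have c2 := alive_h1 (by omega) h4
      rw [Wp_le (by omega)] at h5
      refine ⟨(h + 1 - L) + (h + 1 - L), a + b, by omega, h5, ?_⟩
      have f1 : (2 * (h : ℤ) + 1) * (2 * m - 2 * p) ≤ (2 * (h : ℤ) + 1) * ((a + b : ℕ) : ℤ) :=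
        mul_le_mul_of_nonneg_left (by push_cast; omega) hk0
      refine lt_of_lt_of_le ?_ (le_abs_self _)
      obtain ⟨n, rfl⟩ := Nat.exists_eq_add_of_le hL
      rw [show L + n + 1 - L = n + 1 by omega]
      push_cast at f1 g1 g2 hD ⊢
      nlinarith

theorem grow {h m : ℕ} (hh : 1 ≤ h) (n : ℕ) (hw : ∃ L p : ℕ, L ≤ h ∧
    ¬ W3 h (2 * m + 1) (2 * m + 3) L p ∧ 2 * (2 * (h : ℤ) + 1) + 2 * ((m : ℤ) + 1) <
      |(2 * (h : ℤ) + 1) * p - 2 * ((m : ℤ) + 1) * L|) :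
    ∃ L p : ℕ, L ≤ h ∧ ¬ W3 h (2 * m + 1) (2 * m + 3) L p ∧
      2 * (2 * (h : ℤ) + 1) + 2 * ((m : ℤ) + 1) + n <
        |(2 * (h : ℤ) + 1) * p - 2 * ((m : ℤ) + 1) * L| := by
  induction n with
  | zero =>
    obtain ⟨L, p, h1, h2, h3⟩ := hw
    exact ⟨L, p, h1, h2, by push_cast; linarith⟩
  | succ n ih =>
    obtain ⟨L, p, hL, hw, hD⟩ := ih
    have hn : (0 : ℤ) ≤ (n : ℤ) := Int.natCast_nonneg _
    obtain ⟨L', p', hL', hw', hD'⟩ := step hh hL hw (by linarith)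
    refine ⟨L', p', hL', hw', ?_⟩
    push_cast
    linarith

/-- The deviation of an alive set from the mean. -/
theorem dev {h m L p : ℕ} (hh : 1 ≤ h) (hL : L ≤ h)
    (hD : 2 * (2 * (h : ℤ) + 1) + 2 * ((m : ℤ) + 1) <
      |(2 * (h : ℤ) + 1) * p - 2 * ((m : ℤ) + 1) * L|) :
    W3 h (2 * m + 1) (2 * m + 3) L p := by
  by_contra hw
  obtain ⟨L', p', hL', hw', hD'⟩ := grow hh ((2 * h + 1) * (m + 2)) ⟨L, p, hL, hw, hD⟩
  have hp : p' ≤ m + 2 := by
    by_contra hc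
    exact hw' (top hh hL' (by omega))
  have hk0 : (0 : ℤ) ≤ 2 * (h : ℤ) + 1 := by omega
  have hm0 : (0 : ℤ) ≤ 2 * ((m : ℤ) + 1) := by omega
  have f1 : (2 * (h : ℤ) + 1) * p' ≤ (2 * (h : ℤ) + 1) * (m + 2) :=
    mul_le_mul_of_nonneg_left (by omega) hk0
  have f2 : 2 * ((m : ℤ) + 1) * L' ≤ 2 * ((m : ℤ) + 1) * h :=
    mul_le_mul_of_nonneg_left (by omega) hm0
  have f3 : (0 : ℤ) ≤ (2 * (h : ℤ) + 1) * p' := mul_nonneg hk0 (Int.natCast_nonneg _)
  have f4 : (0 : ℤ) ≤ 2 * ((m : ℤ) + 1) * L' := mul_nonneg hm0 (Int.natCast_nonneg _)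
  have f6 : (2 * (h : ℤ) + 1) * (m + 2) = 2 * ((m : ℤ) + 1) * h + (2 * h + m + 2) := by ring
  have f5 : |(2 * (h : ℤ) + 1) * p' - 2 * ((m : ℤ) + 1) * L'| ≤ (2 * (h : ℤ) + 1) * (m + 2) :=
    abs_le.2 ⟨by linarith, by linarith⟩
  push_cast at hD'
  linarith

/-- An alive set with too many red edges. -/
theorem hi {h m L p : ℕ} (hh : 1 ≤ h) (hL : L ≤ h)
    (h1 : 2 * (2 * h + 1) + 2 * (m + 1) + 2 * ((m + 1) * L) < (2 * h + 1) * p) :
    W3 h (2 * m + 1) (2 * m + 3) L p := by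
  refine dev hh hL (lt_of_lt_of_le ?_ (le_abs_self _))
  have h2 : 2 * (2 * (h : ℤ) + 1) + 2 * ((m : ℤ) + 1) + 2 * (((m : ℤ) + 1) * L) <
    (2 * (h : ℤ) + 1) * p := by exact_mod_cast h1
  linarith

/-- An alive set without red edges that is too big. -/
theorem lo {h m L : ℕ} (hh : 1 ≤ h) (hL : L ≤ h)
    (h1 : 2 * (2 * h + 1) + 2 * (m + 1) < 2 * ((m + 1) * L)) :
    W3 h (2 * m + 1) (2 * m + 3) L 0 := by
  refine dev hh hL (lt_of_lt_of_le ?_ (neg_le_abs _))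
  have h2 : 2 * (2 * (h : ℤ) + 1) + 2 * ((m : ℤ) + 1) < 2 * (((m : ℤ) + 1) * L) := by
    exact_mod_cast h1
  push_cast
  linarith

section
variable {h m c : ℕ}

/-- `m + 2` red edges among `h - c` alive edges. -/
theorem big (hK : 37 * (m + 1) ≤ h) (h1 : (m + 1) * (c + 4) ≤ h)
    (h2 : h < (m + 1) * (c + 5)) (hc : 33 ≤ c) (h3 : 3 * (c + 4) ≤ h) (p : ℕ)
    (hp : m + 2 ≤ p) : W3 h (2 * m + 1) (2 * m + 3) (h - c) p := by
  rcases Nat.eq_or_lt_of_le hp with he | hlt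
  · rw [← he]
    refine MK3.mainK3 (c := c) (t := 12) (by omega) (by omega) (by omega) (by omega) (by omega) ?_
      fun p hp => ?_
    · refine lo (by omega) (by omega) ?_
      have e : (m + 1) * (2 * c + 12) = 2 * ((m + 1) * (c + 5)) + 2 * (m + 1) := by ring
      rw [e]
      omega
    · refine hi (by omega) (by omega) ?_
      have e : (2 * h + 1) * 3 ≤ (2 * h + 1) * p := Nat.mul_le_mul_left _ hp
      omega
  · exact top (by omega) (by omega) (by omega)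

/-- Three red edges among `c + 5` alive edges. -/
theorem mid (hK : 37 * (m + 1) ≤ h) (h1 : (m + 1) * (c + 4) ≤ h)
    (h2 : h < (m + 1) * (c + 5)) (hc : 33 ≤ c) (h3 : 3 * (c + 4) ≤ h) (p : ℕ)
    (hp : 3 ≤ p) : W3 h (2 * m + 1) (2 * m + 3) (c + 5) p := by
  refine PP.R2 (i := h - 2 * c - 5) (j := 2 * c + 6) (by omega) (by omega) (by omega) (by omega)
    (by omega) (by omega) (by omega) fun a b ha hb => ?_
  by_cases c1 : m + 2 ≤ p + a
  · left
    rw [show c + 5 + (h - 2 * c - 5) = h - c by omega, Wp_le (by omega)]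
    exact big hK h1 h2 hc h3 _ c1
  by_cases c2 : a + b + 1 ≤ m
  · right; right
    rw [show h - 2 * c - 5 + (2 * c + 6) = h + 1 by omega, Wp_top]
    omega
  right; left
  rw [Wp_le (by omega)]
  refine hi (by omega) (by omega) ?_
  have e2 : (m + 1) * (c + 5 + (2 * c + 6)) + (m + 1) = 3 * ((m + 1) * (c + 4)) := by ring
  have e3 : (2 * h + 1) * 5 ≤ (2 * h + 1) * (p + b) := Nat.mul_le_mul_left _ (by omega)
  omega

theorem w22 (hK : 37 * (m + 1) ≤ h) (h1 : (m + 1) * (c + 4) ≤ h)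
    (h2 : h < (m + 1) * (c + 5)) (hc : 33 ≤ c) (h3 : 3 * (c + 4) ≤ h) :
    W3 h (2 * m + 1) (2 * m + 3) 2 2 := by
  refine PP.R2 (i := h - c - 2) (j := c + 3) (by omega) (by omega) (by omega) (by omega)
    (by omega) (by omega) (by omega) fun a b ha hb => ?_
  by_cases c1 : m + 2 ≤ 2 + a
  · left
    rw [show 2 + (h - c - 2) = h - c by omega, Wp_le (by omega)]
    exact big hK h1 h2 hc h3 _ c1
  by_cases c2 : a + b + 1 ≤ m
  · right; right
    rw [show h - c - 2 + (c + 3) = h + 1 by omega, Wp_top]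
    omega
  right; left
  rw [show 2 + (c + 3) = c + 5 by omega, Wp_le (by omega)]
  exact mid hK h1 h2 hc h3 _ (by omega)

end

/-- From `W3 2 2` to everything. -/
theorem down {h m : ℕ} (hm : 2 ≤ m) (hh : 2 ≤ h) (w : W3 h (2 * m + 1) (2 * m + 3) 2 2) :
    ∀ n, n ≤ h → W3 h (2 * m + 1) (2 * m + 3) (h - n) 0 := by
  intro n
  induction n with
  | zero =>
    intro _
    exact PP.base (by omega) (by omega) (by omega) (Or.inr (by omega))
  | succ n ih =>
    intro hn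
    have h1 := ih (by omega)
    have e : h - (n + 1) + 1 = h - n := by omega
    refine W3_R2 (i := 1) (j := 1) (by omega) (by omega) (by omega) (by omega)
      fun a b ha hb => ?_
    by_cases h2 : a = 0
    · left
      subst h2
      rw [e]
      exact h1
    · by_cases h3 : b = 0
      · right; left
        subst h3
        rw [e]
        exact h1
      · right; right
        have e1 : a = 1 := by omega
        have e2 : b = 1 := by omega
        subst e1 e2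
        exact w

theorem w00 {h m : ℕ} (hm : 2 ≤ m) (hK : 37 * (m + 1) ≤ h) :
    W3 h (2 * m + 1) (2 * m + 3) 0 0 := by
  have hq : 37 ≤ h / (m + 1) := by
    rw [Nat.le_div_iff_mul_le (by omega)]
    exact hK
  obtain ⟨c, hc⟩ : ∃ c, h / (m + 1) = c + 4 := ⟨h / (m + 1) - 4, by omega⟩
  have h1 : (m + 1) * (c + 4) ≤ h := by
    rw [← hc]
    exact Nat.mul_div_le _ _
  have h2 : h < (m + 1) * (c + 5) := by
    have := Nat.lt_mul_div_succ h (show 0 < m + 1 by omega)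
    rw [hc] at this
    exact this
  have h3 : 3 * (c + 4) ≤ h := (Nat.mul_le_mul_right _ (by omega)).trans h1
  have h4 := down hm (by omega) (w22 hK h1 h2 (by omega) h3) h le_rfl
  rwa [Nat.sub_self] at h4

/-- Two classes `2 m + 1` and `2 h - 2 m - 2` (or groups of classes with these sums). -/
theorem not_arrow {h m l' r : ℕ} (hm : 2 ≤ m) (hK : 37 * (m + 1) ≤ h)
    (hl : 2 * m + 3 + l' = 2 * h + 1) (ks : Fin r → ℕ) (J : Finset (Fin r))
    (hJ : ∑ i ∈ J, ks i = 2 * m + 1) (hJ' : ∑ i ∈ Jᶜ, ks i = l') : ¬ Arrow (2 * h + 1) ks := by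
  have hk : Kill3 h (2 * m + 1) (2 * m + 3) (Fin 0 ⊕ Fin (2 * h + 1)) Set.univ := by
    have h1 := w00 hm hK (Fin 0) (Fin (2 * h + 1)) (Nat.card_fin 0)
      (by rw [Nat.card_fin, Nat.card_fin]; omega) ∅
      ((Kill3.empty h (2 * m + 1) (2 * m + 3) _).mono
        (by intro x hx; exact absurd hx (Set.notMem_empty _)))
    refine h1.mono ?_
    intro x _
    right
    have := red_le (fun f : Fin 0 => x (Sum.inl f))
    rw [Nat.card_fin] at this
    omega
  exact Kill3.false_of_univ (u := 2 * m + 3) hl hk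
    (by rw [Nat.card_sum, Nat.card_fin, Nat.card_fin]; omega) ks J hJ hJ'

end Pool.Agent.Lib.MP_21a058_co.Slack3.End56
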