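import Pool.Agent.Lib.MP_21a058_co.Slack3.FoB3

/-! Odd edge-connectivity `2 h + 1`, window `2 d + 1 ≤ red ≤ 2 d + 3`: the rules which use sets of
`h + 1` edges. -/

set_option autoImplicit false

namespace Pool.Agent.Lib.MP_21a058_co.Slack3.B3

open Pool.Agent.Lib.MP_21a058_co.Slack3
open Pool.Agent.Lib.MP_21a058_co.Odd (red red_sum red_equiv red_le)

/-- More alive edges. -/
theorem aliveT {h d M : ℕ} {F S R R' I : Type} [Finite F] [Finite S] [Finite R] [Finite R']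
    {T : Set (F → Bool)}
    (hT : Kill3 h (2 * d + 1) (2 * d + 3) (F ⊕ R) {x | (fun f => x (Sum.inl f)) ∈ T})
    (hS : Nat.card F + Nat.card S = M) (hR : Nat.card F + Nat.card R = 2 * h + 1)
    (hR' : Nat.card F + Nat.card S + Nat.card R' = 2 * h + 1) (e : (F ⊕ S) ⊕ R' ≃ I) :
    Fo h d I (fun x => (fun f => x (e (Sum.inl (Sum.inl f)))) ∉ T ∧
      ¬ W3 h (2 * d + 1) (2 * d + 3) M (red (fun f => x (e (Sum.inl (Sum.inl f)))) +
        red (fun s => x (e (Sum.inl (Sum.inr s)))))) := by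
  have k0 : Kill3 h (2 * d + 1) (2 * d + 3) (F ⊕ (S ⊕ R')) {x | (fun f => x (Sum.inl f)) ∈ T} := by
    refine kill3_rest ?_ hT
    rw [Nat.card_sum]
    omega
  have k1 := k0.transport (Equiv.sumAssoc F S R').symm
  have k2 := W3_seq' (h := h) (l := 2 * d + 1) (u := 2 * d + 3) (L := M) (F ⊕ S) R'
    (by rw [Nat.card_sum, hS]) (by rw [Nat.card_sum]; omega)
    {w | (fun f => w (Sum.inl f)) ∈ T} k1
  refine Kill3.mono (k2.transport e) fun x hx => ?_
  have r : red (fun s : F ⊕ S => x (e (Sum.inl s))) = red (fun f => x (e (Sum.inl (Sum.inl f)))) +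
      red (fun s => x (e (Sum.inl (Sum.inr s)))) := red_sum _
  by_contra hcon
  obtain ⟨h1, h2⟩ := not_or.1 hcon
  apply hx
  refine ⟨h1, ?_⟩
  rw [← r]
  exact h2

/-- More alive edges at the root. -/
theorem seqRoot {h d M p : ℕ} {F S R R' : Type} [Finite F] [Finite S] [Finite R] [Finite R']
    {T : Set (F → Bool)} (P : ℕ → Prop)
    (hS : Nat.card F + Nat.card S = M) (hR : Nat.card F + Nat.card R = 2 * h + 1)
    (hR' : Nat.card F + Nat.card S + Nat.card R' = 2 * h + 1)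
    (hf : Fo h d ((F ⊕ S) ⊕ R') (fun x => (fun f => x (Sum.inl (Sum.inl f))) ∉ T ∧
      (red (fun f => x (Sum.inl (Sum.inl f))) = p → P (red (fun s => x (Sum.inl (Sum.inr s)))))))
    (hP : ∀ a, a ≤ Nat.card S → P a → W3 h (2 * d + 1) (2 * d + 3) M (p + a)) :
    Kill3 h (2 * d + 1) (2 * d + 3) (F ⊕ R)
      {x | (fun f => x (Sum.inl f)) ∈ T ∨ red (fun f => x (Sum.inl f)) = p} := by
  have k1 : Kill3 h (2 * d + 1) (2 * d + 3) ((F ⊕ S) ⊕ R') {x | (fun f => x (Sum.inl f)) ∈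
      {w : F ⊕ S → Bool | (fun f => w (Sum.inl f)) ∈ T ∨ (red (fun f => w (Sum.inl f)) = p ∧
        ¬ P (red (fun s => w (Sum.inr s))))}} := by
    refine Kill3.mono hf fun x hx => ?_
    intro hcon
    rcases hx with hx | ⟨h1, h2⟩
    · exact hcon.1 hx
    · exact h2 (hcon.2 h1)
  have k2 := W3_seq' (h := h) (l := 2 * d + 1) (u := 2 * d + 3) (L := M) (F ⊕ S) R'
    (by rw [Nat.card_sum, hS]) (by rw [Nat.card_sum]; omega) _ k1
  have k3 := k2.transport (Equiv.sumAssoc F S R')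
  have k4 : Kill3 h (2 * d + 1) (2 * d + 3) (F ⊕ (S ⊕ R'))
      {x | (fun f => x (Sum.inl f)) ∈ {y : F → Bool | y ∈ T ∨ red y = p}} := by
    refine k3.mono ?_
    intro x hx
    rcases hx with hx | hx
    · exact Or.inl (Or.inl hx)
    · by_cases h1 : P (red (fun s : S => x (Sum.inr (Sum.inl s))))
      · right
        have r : red (fun f : F ⊕ S => x (Equiv.sumAssoc F S R' (Sum.inl f))) =
            red (fun f => x (Sum.inl f)) + red (fun s : S => x (Sum.inr (Sum.inl s))) :=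
          red_sum _
        have hx' : red (fun f => x (Sum.inl f)) = p := hx
        rw [hx'] at r
        have h2 := hP _ (red_le (fun s : S => x (Sum.inr (Sum.inl s)))) h1
        rw [← r] at h2
        exact h2
      · exact Or.inl (Or.inr ⟨hx, h1⟩)
  refine kill3_rest ?_ k4
  rw [Nat.card_sum]
  omega

/-- `F` and `j` edges at the first vertex. -/
def eU (F Y A B : Type) : (F ⊕ B) ⊕ (Y ⊕ A) ≃ (F ⊕ Y) ⊕ (A ⊕ B) where
  toFun p := match p with
    | Sum.inl (Sum.inl i) => Sum.inl (Sum.inl i)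
    | Sum.inl (Sum.inr i) => Sum.inr (Sum.inr i)
    | Sum.inr (Sum.inl i) => Sum.inl (Sum.inr i)
    | Sum.inr (Sum.inr i) => Sum.inr (Sum.inl i)
  invFun p := match p with
    | Sum.inl (Sum.inl i) => Sum.inl (Sum.inl i)
    | Sum.inr (Sum.inr i) => Sum.inl (Sum.inr i)
    | Sum.inl (Sum.inr i) => Sum.inr (Sum.inl i)
    | Sum.inr (Sum.inl i) => Sum.inr (Sum.inr i)
  left_inv := by rintro ((i | i) | (i | i)) <;> rfl
  right_inv := by rintro ((i | i) | (i | i)) <;> rfl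

/-- The root bundle with the first set inside `J₂`. -/
def eJ (F H X : Type) : F ⊕ (X ⊕ H) ≃ H ⊕ (F ⊕ X) where
  toFun p := match p with
    | Sum.inl i => Sum.inr (Sum.inl i)
    | Sum.inr (Sum.inl i) => Sum.inr (Sum.inr i)
    | Sum.inr (Sum.inr i) => Sum.inl i
  invFun p := match p with
    | Sum.inr (Sum.inl i) => Sum.inl i
    | Sum.inr (Sum.inr i) => Sum.inr (Sum.inl i)
    | Sum.inl i => Sum.inr (Sum.inr i)
  left_inv := by rintro (i | (i | i)) <;> rfl
  right_inv := by rintro (i | (i | i)) <;> rfl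

/-- `F` and a part of `N₁`. -/
def eN (F B Y X : Type) : (F ⊕ B) ⊕ (Y ⊕ X) ≃ F ⊕ ((B ⊕ Y) ⊕ X) where
  toFun p := match p with
    | Sum.inl (Sum.inl i) => Sum.inl i
    | Sum.inl (Sum.inr i) => Sum.inr (Sum.inl (Sum.inl i))
    | Sum.inr (Sum.inl i) => Sum.inr (Sum.inl (Sum.inr i))
    | Sum.inr (Sum.inr i) => Sum.inr (Sum.inr i)
  invFun p := match p with
    | Sum.inl i => Sum.inl (Sum.inl i)
    | Sum.inr (Sum.inl (Sum.inl i)) => Sum.inl (Sum.inr i)
    | Sum.inr (Sum.inl (Sum.inr i)) => Sum.inr (Sum.inl i)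
    | Sum.inr (Sum.inr i) => Sum.inr (Sum.inr i)
  left_inv := by rintro ((i | i) | (i | i)) <;> rfl
  right_inv := by rintro (i | ((i | i) | i)) <;> rfl

/-- Base. -/
theorem base {h d L p : ℕ} (hh : 1 ≤ h) (hL : L ≤ h) (hp : d + 3 ≤ p ∨ p + (h - L) + 2 ≤ d) :
    W3 h (2 * d + 1) (2 * d + 3) L p := by
  intro F R _ _ hF hR T hT
  have f0 : Fo h d ((F ⊕ Fin (h - L)) ⊕ (Fin 1 ⊕ Fin h))
      (fun x => (fun i => x (Sum.inl (Sum.inl i))) ∉ T) := by
    have k := Fo.ofT (R' := Fin (h - L) ⊕ (Fin 1 ⊕ Fin h)) hT (by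
      simp only [Nat.card_sum, Nat.card_fin]; omega)
    exact Kill3.mono (k.transport (Equiv.sumAssoc F (Fin (h - L)) (Fin 1 ⊕ Fin h)).symm)
      fun x hx => hx
  refine Fo.toT (R' := Fin (h - L) ⊕ (Fin 1 ⊕ Fin h)) ?_ ((Fo.num (N1 := Fin h) (N2 := Fin 1)
    (N3 := Fin h) (q := 1) le_rfl hh ?_ (Nat.card_fin _) ?_ (Nat.card_fin _) (Nat.card_fin _) ?_
    (Equiv.sumAssoc F (Fin (h - L)) (Fin 1 ⊕ Fin h)).symm f0 (Fo.leaf h d _)
    (Fo.leaf h d _)).mono ?_)
  · simp only [Nat.card_sum, Nat.card_fin]; omega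
  · simp only [Nat.card_sum, Nat.card_fin]; omega
  · simp only [Nat.card_fin]; omega
  · simp only [Nat.card_fin]; omega
  · rintro x ⟨n1, n2, n3, g0, g1, g2, g3, g4, hA, -, -⟩
    have r : red (fun j => x ((Equiv.sumAssoc F (Fin (h - L)) (Fin 1 ⊕ Fin h)).symm.symm
        (Sum.inl j))) = red (fun f => x (Sum.inl f)) +
        red (fun i : Fin (h - L) => x (Sum.inr (Sum.inl i))) := red_sum _
    have b := red_le (fun i : Fin (h - L) => x (Sum.inr (Sum.inl i)))
    rw [Nat.card_fin] at b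
    exact ⟨hA, fun h0 => by omega⟩

/-- Meeting rule with `i + j = h + 1`. -/
theorem up {h d L p i j : ℕ} (hij : i + j = h + 1) (hi : L + i ≤ h) (hj : L + j ≤ h)
    (H : ∀ a b, a ≤ i → b ≤ j → d ≤ a + b → a + b ≤ d + 3 →
      W3 h (2 * d + 1) (2 * d + 3) (L + i) (p + a) ∨
      W3 h (2 * d + 1) (2 * d + 3) (L + j) (p + b)) : W3 h (2 * d + 1) (2 * d + 3) L p := by
  intro F R _ _ hF hR T hT
  refine seqRoot (M := L + i) (S := Fin i) (R' := Fin (h - L) ⊕ Fin j)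
    (fun a => ∃ b, b ≤ j ∧ d ≤ a + b ∧ a + b ≤ d + 3 ∧
      ¬ W3 h (2 * d + 1) (2 * d + 3) (L + j) (p + b)) ?_ hR ?_ ?_ ?_
  · rw [Nat.card_fin, hF]
  · simp only [Nat.card_sum, Nat.card_fin]; omega
  · have f0 := aliveT (M := L + j) (S := Fin j) (R' := Fin (h - L) ⊕ Fin i) hT
      (by rw [Nat.card_fin, hF]) hR (by simp only [Nat.card_sum, Nat.card_fin]; omega)
      (eU F (Fin (h - L)) (Fin i) (Fin j))
    refine (Fo.num (N1 := Fin h) (N2 := Fin i)
      (N3 := Fin j) (q := i) (by omega) (by omega) ?_ (Nat.card_fin _) ?_ (Nat.card_fin _)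
      (Nat.card_fin _) ?_
      (Equiv.sumSumSumComm F (Fin i) (Fin (h - L)) (Fin j)) f0 (Fo.leaf h d _)
      (Fo.leaf h d _)).mono ?_
    · simp only [Nat.card_sum, Nat.card_fin]; omega
    · simp only [Nat.card_fin]; omega
    · simp only [Nat.card_fin]; omega
    · rintro x ⟨n1, n2, n3, g0, g1, g2, g3, g4, ⟨hA1, hA2⟩, -, -⟩
      refine ⟨hA1, fun h0 => ?_⟩
      have b := red_le n3
      rw [Nat.card_fin] at b
      have g2' : 2 * d + 1 ≤ red (fun i => x (Sum.inl (Sum.inr i))) + (red n1 + red n3) ∧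
        red (fun i => x (Sum.inl (Sum.inr i))) + (red n1 + red n3) ≤ 2 * d + 3 := g2
      have g4' : 2 * d + 1 ≤ (red (fun i => x (Sum.inl (Sum.inr i))) +
          red (fun j => x (Sum.inr (Sum.inr j)))) + red n2 + red n3 ∧
        (red (fun i => x (Sum.inl (Sum.inr i))) +
          red (fun j => x (Sum.inr (Sum.inr j)))) + red n2 + red n3 ≤ 2 * d + 3 + 1 := g4
      have g3' : 2 * d + 1 ≤ red (fun j => x (Sum.inr (Sum.inr j))) + (red n1 + red n2) ∧
        red (fun j => x (Sum.inr (Sum.inr j))) + (red n1 + red n2) ≤ 2 * d + 3 := g3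
      have h2 : ¬ W3 h (2 * d + 1) (2 * d + 3) (L + j)
          (red (fun f => x (Sum.inl (Sum.inl f))) + red n3) := hA2
      rw [h0] at h2
      exact ⟨red n3, b, by omega, by omega, h2⟩
  · rintro a ha ⟨b, hb, h1, h2, h3⟩
    rw [Nat.card_fin] at ha
    rcases H a b ha hb h1 h2 with h4 | h4
    · exact h4
    · exact absurd h4 h3

/-- Meeting rule with `L + i = h + 1`. -/
theorem lo {h d L p i j : ℕ} (hL : 1 ≤ L) (hi : L + i = h + 1) (hj : L + j ≤ h) (hij : i + j ≤ h)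
    (H : ∀ a b, a ≤ i → b ≤ j → d ≤ p + a → p + a ≤ d + 3 →
      W3 h (2 * d + 1) (2 * d + 3) (L + j) (p + b) ∨
      W3 h (2 * d + 1) (2 * d + 3) (i + j) (a + b)) : W3 h (2 * d + 1) (2 * d + 3) L p := by
  intro F R _ _ hF hR T hT
  have f2 := aliveT (M := L + j) (S := Fin j) (R' := Fin (h - j) ⊕ Fin i) hT
    (by rw [Nat.card_fin, hF]) hR (by simp only [Nat.card_sum, Nat.card_fin]; omega)
    (eN F (Fin j) (Fin (h - j)) (Fin i))
  have f3 : Fo h d (Fin i ⊕ ((Fin j ⊕ Fin (h - j)) ⊕ Fin L)) (fun x =>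
      ¬ W3 h (2 * d + 1) (2 * d + 3) (i + j) (red (fun s => x (Sum.inl s)) +
        red (fun s => x (Sum.inr (Sum.inl (Sum.inl s)))))) := by
    refine (alive (L := i + j) (S := Fin i ⊕ Fin j) (R := Fin (h - j) ⊕ Fin L) ?_ ?_
      (eN (Fin i) (Fin j) (Fin (h - j)) (Fin L))).mono fun x hx => ?_
    · rw [Nat.card_sum, Nat.card_fin, Nat.card_fin]
    · simp only [Nat.card_sum, Nat.card_fin]; omega
    · have r : red (fun s : Fin i ⊕ Fin j => x ((eN (Fin i) (Fin j) (Fin (h - j)) (Fin L))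
          (Sum.inl s))) = red (fun s => x (Sum.inl s)) +
        red (fun s => x (Sum.inr (Sum.inl (Sum.inl s)))) := red_sum _
      rw [r] at hx
      exact hx
  refine Fo.toT (R' := Fin i ⊕ Fin h) ?_ ((Fo.num (J2 := F) (N2 := Fin L) (N3 := Fin i) (q := L) hL
    (by omega) (Nat.card_fin _) hF ?_ ?_ (Nat.card_fin _) ?_
    (eJ F (Fin h) (Fin i)) (Fo.leaf h d _) f2 f3).mono ?_)
  · simp only [Nat.card_sum, Nat.card_fin]; omega
  · simp only [Nat.card_fin]; omega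
  · simp only [Nat.card_sum, Nat.card_fin]; omega
  · simp only [Nat.card_fin]; omega
  · rintro x ⟨n1, n2, n3, g0, g1, g2, g3, g4, -, ⟨hA1, hA2⟩, hB⟩
    refine ⟨hA1, fun h0 => ?_⟩
    have a' := red_le (fun i : Fin i => x (Sum.inr (Sum.inl i)))
    rw [Nat.card_fin] at a'
    have b' := red_le (fun s : Fin j => n1 (Sum.inl s))
    rw [Nat.card_fin] at b'
    have g0' : 2 * d + 1 ≤ red (fun i => x (Sum.inr (Sum.inr i))) + (red (fun f => x (Sum.inl f)) +
        red (fun i => x (Sum.inr (Sum.inl i)))) ∧ red (fun i => x (Sum.inr (Sum.inr i))) +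
        (red (fun f => x (Sum.inl f)) + red (fun i => x (Sum.inr (Sum.inl i)))) ≤ 2 * d + 3 := g0
    have g1' : 2 * d + 1 ≤ red (fun i => x (Sum.inr (Sum.inr i))) + (red n2 + red n3) ∧
        red (fun i => x (Sum.inr (Sum.inr i))) + (red n2 + red n3) ≤ 2 * d + 3 := g1
    have g4' : 2 * d + 1 ≤ (red (fun f => x (Sum.inl f)) +
        red (fun i => x (Sum.inr (Sum.inl i)))) + red n2 + red n3 ∧ (red (fun f => x (Sum.inl f)) +
        red (fun i => x (Sum.inr (Sum.inl i)))) + red n2 + red n3 ≤ 2 * d + 3 + 1 := g4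
    have h2 : ¬ W3 h (2 * d + 1) (2 * d + 3) (L + j)
        (red (fun f => x (Sum.inl f)) + red (fun s : Fin j => n1 (Sum.inl s))) := hA2
    have h3 : ¬ W3 h (2 * d + 1) (2 * d + 3) (i + j)
        (red (fun i => x (Sum.inr (Sum.inl i))) + red (fun s : Fin j => n1 (Sum.inl s))) := hB
    rw [h0] at h2
    rcases H _ _ a' b' (by omega) (by omega) with h4 | h4
    · exact h2 h4
    · exact h3 h4

/-- Meeting rule with `L + i = h + 1` twice. -/
theorem ll {h d L p i : ℕ} (hL : 1 ≤ L) (hi : L + i = h + 1) (hi1 : 1 ≤ i) (hii : i + i ≤ h)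
    (H : ∀ a b, a ≤ i → b ≤ i → d ≤ p + a → d ≤ p + b →
      W3 h (2 * d + 1) (2 * d + 3) (i + i) (a + b)) : W3 h (2 * d + 1) (2 * d + 3) L p := by
  intro F R _ _ hF hR T hT
  have f1 : Fo h d (F ⊕ (Fin i ⊕ Fin h)) (fun x => (fun f => x (Sum.inl f)) ∉ T ∧
      (red (fun f => x (Sum.inl f)) = p → d ≤ p + red (fun s => x (Sum.inr (Sum.inl s))))) := by
    have k := Fo.ofT (R' := Fin h ⊕ Fin i) hT (by
      simp only [Nat.card_sum, Nat.card_fin]; omega)
    refine (Fo.num (J2 := F) (N2 := Fin L) (N3 := Fin i) (q := L) hL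
      (by omega) (Nat.card_fin _) hF ?_ (Nat.card_fin _) (Nat.card_fin _) ?_
      (eJ F (Fin h) (Fin i)) (Fo.leaf h d _) k (Fo.leaf h d _)).mono ?_
    · simp only [Nat.card_fin]; omega
    · simp only [Nat.card_fin]; omega
    · rintro x ⟨n1, n2, n3, g0, g1, g2, g3, g4, -, hA, -⟩
      refine ⟨hA, fun h0 => ?_⟩
      have g0' : 2 * d + 1 ≤ red (fun i => x (Sum.inr (Sum.inr i))) + (red (fun f => x (Sum.inl f)) +
        red (fun i => x (Sum.inr (Sum.inl i)))) ∧ red (fun i => x (Sum.inr (Sum.inr i))) +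
        (red (fun f => x (Sum.inl f)) + red (fun i => x (Sum.inr (Sum.inl i)))) ≤ 2 * d + 3 := g0
      have g1' : 2 * d + 1 ≤ red (fun i => x (Sum.inr (Sum.inr i))) + (red n2 + red n3) ∧
        red (fun i => x (Sum.inr (Sum.inr i))) + (red n2 + red n3) ≤ 2 * d + 3 := g1
      have g4' : 2 * d + 1 ≤ (red (fun f => x (Sum.inl f)) +
        red (fun i => x (Sum.inr (Sum.inl i)))) + red n2 + red n3 ∧ (red (fun f => x (Sum.inl f)) +
        red (fun i => x (Sum.inr (Sum.inl i)))) + red n2 + red n3 ≤ 2 * d + 3 + 1 := g4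
      omega
  obtain ⟨eH⟩ : Nonempty (Fin h ≃ Fin (h - i) ⊕ Fin i) := by
    refine Finite.card_eq.1 ?_
    simp only [Nat.card_sum, Nat.card_fin]
    omega
  have f2 : Fo h d (F ⊕ ((Fin i ⊕ Fin (h - i)) ⊕ Fin i)) (fun x => (fun f => x (Sum.inl f)) ∉ T ∧
      (red (fun f => x (Sum.inl f)) = p →
        d ≤ p + red (fun s => x (Sum.inr (Sum.inl (Sum.inl s)))))) :=
    Kill3.mono (Kill3.transport f1 (Equiv.sumCongr (Equiv.refl F)
      ((Equiv.sumCongr (Equiv.refl (Fin i)) eH).trans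
        (Equiv.sumAssoc (Fin i) (Fin (h - i)) (Fin i)).symm))) fun x hx => hx
  have f3 : Fo h d (Fin i ⊕ ((Fin i ⊕ Fin (h - i)) ⊕ Fin L)) (fun x =>
      ¬ W3 h (2 * d + 1) (2 * d + 3) (i + i) (red (fun s => x (Sum.inl s)) +
        red (fun s => x (Sum.inr (Sum.inl (Sum.inl s)))))) := by
    refine (alive (L := i + i) (S := Fin i ⊕ Fin i) (R := Fin (h - i) ⊕ Fin L) ?_ ?_
      (eN (Fin i) (Fin i) (Fin (h - i)) (Fin L))).mono fun x hx => ?_
    · rw [Nat.card_sum, Nat.card_fin]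
    · simp only [Nat.card_sum, Nat.card_fin]; omega
    · have r : red (fun s : Fin i ⊕ Fin i => x ((eN (Fin i) (Fin i) (Fin (h - i)) (Fin L))
          (Sum.inl s))) = red (fun s => x (Sum.inl s)) +
        red (fun s => x (Sum.inr (Sum.inl (Sum.inl s)))) := red_sum _
      rw [r] at hx
      exact hx
  refine Fo.toT (R' := Fin i ⊕ Fin h) ?_ ((Fo.num (J2 := F) (N2 := Fin L) (N3 := Fin i) (q := L) hL
    (by omega) (Nat.card_fin _) hF ?_ ?_ (Nat.card_fin _) ?_
    (eJ F (Fin h) (Fin i)) (Fo.leaf h d _) f2 f3).mono ?_)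
  · simp only [Nat.card_sum, Nat.card_fin]; omega
  · simp only [Nat.card_fin]; omega
  · simp only [Nat.card_sum, Nat.card_fin]; omega
  · simp only [Nat.card_fin]; omega
  · rintro x ⟨n1, n2, n3, g0, g1, g2, g3, g4, -, ⟨hA1, hA2⟩, hB⟩
    refine ⟨hA1, fun h0 => ?_⟩
    have a' := red_le (fun i : Fin i => x (Sum.inr (Sum.inl i)))
    rw [Nat.card_fin] at a'
    have b' := red_le (fun s : Fin i => n1 (Sum.inl s))
    rw [Nat.card_fin] at b'
    have g0' : 2 * d + 1 ≤ red (fun i => x (Sum.inr (Sum.inr i))) + (red (fun f => x (Sum.inl f)) +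
        red (fun i => x (Sum.inr (Sum.inl i)))) ∧ red (fun i => x (Sum.inr (Sum.inr i))) +
        (red (fun f => x (Sum.inl f)) + red (fun i => x (Sum.inr (Sum.inl i)))) ≤ 2 * d + 3 := g0
    have g1' : 2 * d + 1 ≤ red (fun i => x (Sum.inr (Sum.inr i))) + (red n2 + red n3) ∧
        red (fun i => x (Sum.inr (Sum.inr i))) + (red n2 + red n3) ≤ 2 * d + 3 := g1
    have g4' : 2 * d + 1 ≤ (red (fun f => x (Sum.inl f)) +
        red (fun i => x (Sum.inr (Sum.inl i)))) + red n2 + red n3 ∧ (red (fun f => x (Sum.inl f)) +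
        red (fun i => x (Sum.inr (Sum.inl i)))) + red n2 + red n3 ≤ 2 * d + 3 + 1 := g4
    have h2 : d ≤ p + red (fun s : Fin i => n1 (Sum.inl s)) := hA2 h0
    have h3 : ¬ W3 h (2 * d + 1) (2 * d + 3) (i + i)
        (red (fun i => x (Sum.inr (Sum.inl i))) + red (fun s : Fin i => n1 (Sum.inl s))) := hB
    exact h3 (H _ _ a' b' (by omega) h2)

end Pool.Agent.Lib.MP_21a058_co.Slack3.B3
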