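import Pool.Agent.Lib.MP_21a058_co.Slack3.Arith3_80
import Pool.Agent.Lib.MP_21a058_co.Slack3.RuleB3
import Pool.Agent.Lib.MP_21a058_co.Slack3.Mid3odd
import Pool.Agent.Lib.MP_21a058_co.Slack3.Gad3

/-! Odd edge-connectivity `2 h + 1 = S + 2`, window `2 d + 1 ≤ red ≤ 2 d + 3` with `2 ≤ d` and
`68 (d + 1) < 2 h + 1`: everything is killable. -/

set_option autoImplicit false

namespace Pool.Agent.Lib.MP_21a058_co.Slack3.EndO39

open Pool.Agent.Lib.MP_21a058_co.Slack3
open Pool.Agent.Lib.MP_21a058_co.Odd (red red_le)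

theorem rules {h d : ℕ} (hh : 1 ≤ h) : Arith3_80.Rules h d
    (fun L p => L ≤ h → W3 h (2 * d + 1) (2 * d + 3) L p) where
  top := fun L p _ hp hL => B3.base hh hL (Or.inl hp)
  bot := fun p hp hL => B3.base hh hL (Or.inr (by omega))
  r2 := fun L p i j h1 h2 h3 H _ => W3_R2 hh h1 h2 h3 fun a b ha hb => by
    rcases H a b ha hb with g | g | g
    · exact Or.inl (g h1)
    · exact Or.inr (Or.inl (g h2))
    · exact Or.inr (Or.inr (g h3))
  ru := fun L p i j h1 h2 h3 H _ => B3.up h3 h1 h2 fun a b ha hb hab _ => by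
    rcases H a b ha hb hab with g | g
    · exact Or.inl (g h1)
    · exact Or.inr (g h2)
  rl := fun L p i j hL h1 h2 h3 H _ => B3.lo hL h1 h2 h3 fun a b ha hb hab _ => by
    rcases H a b ha hb hab with g | g
    · exact Or.inl (g h2)
    · exact Or.inr (g h3)
  rll := fun L p i hL _ h1 h2 H _ => B3.ll hL h1 (by omega) h2 fun a b ha hb hab hab' =>
    H a b ha hb hab hab' h2

/-- **Everything is killable.** -/
theorem w00 {h d : ℕ} (hd : 2 ≤ d) (hh : 68 * (d + 1) < 2 * h + 1) :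
    W3 h (2 * d + 1) (2 * d + 3) 0 0 := by
  refine Arith3_80.fin00 (rules (h := h) (d := d) (by omega)) hd hh
    (fun c h1 h2 m1 m2 _ => ?_) (Nat.zero_le h)
  exact Mid3odd.midO (c := c) (t := 11) (by omega) (by omega) h1 (by omega) (by omega)
    (m1 (by omega)) fun p hp => m2 p hp (by omega)

open Finset in
/-- Some parts have the odd sum `a ≥ 5`, the sum `S` of all parts is odd and `S ≥ 34 a + 33`. -/
theorem not_arrow {h d r : ℕ} (hd : 2 ≤ d) (hh : 68 * (d + 1) < 2 * h + 1) (ks : Fin r → ℕ)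
    (J : Finset (Fin r)) (hJ : ∑ i ∈ J, ks i = 2 * d + 1)
    (hJ' : ∑ i ∈ Jᶜ, ks i = 2 * h + 1 - (2 * d + 3)) : ¬ Arrow (2 * h + 1) ks := by
  have hk : Kill3 h (2 * d + 1) (2 * d + 3) (Fin 0 ⊕ Fin (2 * h + 1)) Set.univ := by
    have h1 := w00 hd hh (Fin 0) (Fin (2 * h + 1)) (Nat.card_fin 0)
      (by rw [Nat.card_fin, Nat.card_fin]; omega) ∅
      ((Kill3.empty h _ _ _).mono (by intro x hx; exact absurd hx (Set.notMem_empty _)))
    refine h1.mono ?_
    intro x _
    right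
    have := red_le (fun f : Fin 0 => x (Sum.inl f))
    rw [Nat.card_fin] at this
    omega
  exact Kill3.false_of_univ (u := 2 * d + 3) (l' := 2 * h + 1 - (2 * d + 3)) (by omega) hk
    (by rw [Nat.card_sum, Nat.card_fin, Nat.card_fin]; omega) ks J hJ hJ'

end Pool.Agent.Lib.MP_21a058_co.Slack3.EndO39
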