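import Pool.Agent.Lib.MP_21a058_co.Slack3.Rule3

/-! The calculus for odd edge-connectivity `2 h + 1` and a window `l ≤ red ≤ u`, with the sets of
level `h + 1` (the cut of the vertices 2 and 3 and the vertex 1). -/

set_option autoImplicit false

namespace Pool.Agent.Lib.MP_21a058_co.Slack3.PP

open Pool.Agent.Lib.MP_21a058_co.Odd (red red_sum red_equiv red_le)

def eP (F X J X' F' : Type) : (F ⊕ X) ⊕ (J ⊕ (X' ⊕ F')) ≃ J ⊕ ((X ⊕ X') ⊕ (F ⊕ F')) where
  toFun p := match p with
    | Sum.inl (Sum.inl f) => Sum.inr (Sum.inr (Sum.inl f))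
    | Sum.inl (Sum.inr x) => Sum.inr (Sum.inl (Sum.inl x))
    | Sum.inr (Sum.inl j) => Sum.inl j
    | Sum.inr (Sum.inr (Sum.inl x)) => Sum.inr (Sum.inl (Sum.inr x))
    | Sum.inr (Sum.inr (Sum.inr f)) => Sum.inr (Sum.inr (Sum.inr f))
  invFun p := match p with
    | Sum.inr (Sum.inr (Sum.inl f)) => Sum.inl (Sum.inl f)
    | Sum.inr (Sum.inl (Sum.inl x)) => Sum.inl (Sum.inr x)
    | Sum.inl j => Sum.inr (Sum.inl j)
    | Sum.inr (Sum.inl (Sum.inr x)) => Sum.inr (Sum.inr (Sum.inl x))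
    | Sum.inr (Sum.inr (Sum.inr f)) => Sum.inr (Sum.inr (Sum.inr f))
  left_inv := by rintro ((f | x) | (j | (x | f))) <;> rfl
  right_inv := by rintro (j | ((x | x) | (f | f))) <;> rfl

def eQ (X Y X' Y' N : Type) : (X ⊕ Y) ⊕ (X' ⊕ (Y' ⊕ N)) ≃ (X ⊕ X') ⊕ ((Y ⊕ Y') ⊕ N) where
  toFun p := match p with
    | Sum.inl (Sum.inl x) => Sum.inl (Sum.inl x)
    | Sum.inl (Sum.inr y) => Sum.inr (Sum.inl (Sum.inl y))
    | Sum.inr (Sum.inl x) => Sum.inl (Sum.inr x)
    | Sum.inr (Sum.inr (Sum.inl y)) => Sum.inr (Sum.inl (Sum.inr y))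
    | Sum.inr (Sum.inr (Sum.inr n)) => Sum.inr (Sum.inr n)
  invFun p := match p with
    | Sum.inl (Sum.inl x) => Sum.inl (Sum.inl x)
    | Sum.inr (Sum.inl (Sum.inl y)) => Sum.inl (Sum.inr y)
    | Sum.inl (Sum.inr x) => Sum.inr (Sum.inl x)
    | Sum.inr (Sum.inl (Sum.inr y)) => Sum.inr (Sum.inr (Sum.inl y))
    | Sum.inr (Sum.inr n) => Sum.inr (Sum.inr (Sum.inr n))
  left_inv := by rintro ((x | y) | (x | (y | n))) <;> rfl
  right_inv := by rintro ((x | x) | ((y | y) | n)) <;> rfl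

theorem nodeP {h l u : ℕ} (hh : 1 ≤ h) (F X Y R2 R3 : Type) [Finite F] [Finite X] [Finite Y]
    [Finite R2] [Finite R3] (hL : Nat.card F ≤ h) (hi : Nat.card X ≤ h) (hj : Nat.card Y ≤ h)
    (hLi : Nat.card F + Nat.card X ≤ h + 1) (T : Set (F → Bool)) (V2 V3 : ℕ → Prop) (q : ℕ)
    (hq : q = max (Nat.card X) 1) (r2 : Nat.card X + Nat.card Y + Nat.card R2 = 2 * h + 1)
    (r3 : Nat.card F + Nat.card Y + Nat.card R3 = 2 * h + 1)
    (k2 : Kill3 h l u ((X ⊕ Y) ⊕ R2) {x | V2 (red (fun g => x (Sum.inl g)))})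
    (k3 : Kill3 h l u ((F ⊕ Y) ⊕ R3) {x | (fun f => x (Sum.inl (Sum.inl f))) ∈ T ∨
      V3 (red (fun g => x (Sum.inl g)))}) :
    Kill3 h l u ((F ⊕ X) ⊕ (Fin h ⊕ (Fin (q - Nat.card X) ⊕ Fin (h + 1 - q - Nat.card F))))
      {x | (fun f => x (Sum.inl (Sum.inl f))) ∈ T ∨
        (∀ b, b ≤ Nat.card Y → V3 (red (fun f => x (Sum.inl (Sum.inl f))) + b) ∨
          V2 (red (fun g => x (Sum.inl (Sum.inr g))) + b)) ∨
        (2 * (red (fun s => x (Sum.inl s)) + red (fun s => x (Sum.inr (Sum.inr s)))) + u < 2 * l ∨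
          2 * u + 1 <
            2 * (red (fun s => x (Sum.inl s)) + red (fun s => x (Sum.inr (Sum.inr s)))) + l)} := by
  have k2' : Kill3 h l u ((X ⊕ Y) ⊕ (Fin (q - Nat.card X) ⊕ (Fin (h - Nat.card Y) ⊕
      Fin (h + 1 - q)))) {x | V2 (red (fun g => x (Sum.inl g)))} :=
    kill3_rest (T := {w | V2 (red w)}) (by
      rw [Nat.card_sum, Nat.card_sum, Nat.card_fin, Nat.card_fin, Nat.card_fin]
      omega) k2
  have k3' : Kill3 h l u ((F ⊕ Y) ⊕ (Fin (h + 1 - q - Nat.card F) ⊕ (Fin (h - Nat.card Y) ⊕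
      Fin q))) {x | (fun f => x (Sum.inl (Sum.inl f))) ∈ T ∨ V3 (red (fun g => x (Sum.inl g)))} :=
    kill3_rest (T := {w | (fun f => w (Sum.inl f)) ∈ T ∨ V3 (red w)}) (by
      rw [Nat.card_sum, Nat.card_sum, Nat.card_fin, Nat.card_fin, Nat.card_fin]
      omega) k3
  have k2'' := Kill3.transport k2' (eQ X Y (Fin (q - Nat.card X)) (Fin (h - Nat.card Y)) (Fin (h + 1 - q)))
  have k3'' := Kill3.transport k3' (eQ F Y (Fin (h + 1 - q - Nat.card F)) (Fin (h - Nat.card Y)) (Fin q))
  have k1 : Kill3 h l u (Fin h ⊕ (Fin q ⊕ Fin (h + 1 - q)))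
      {y | red y < l ∨ u < red y} := Kill3.leaf _ _ fun x hx => hx
  refine Kill3.node _ (Fin h) (X ⊕ Fin (q - Nat.card X)) (F ⊕ Fin (h + 1 - q - Nat.card F))
    (Y ⊕ Fin (h - Nat.card Y)) (Fin q) (Fin (h + 1 - q)) q ?_ ?_ ?_ ?_ ?_ ?_ ?_ ?_
    (eP F X (Fin h) (Fin (q - Nat.card X)) (Fin (h + 1 - q - Nat.card F))) _ _ _ _ k1 k2'' k3'' ?_
  · omega
  · omega
  · exact Nat.card_fin h
  · rw [Nat.card_sum, Nat.card_fin]; omega
  · rw [Nat.card_sum, Nat.card_fin]; omega
  · rw [Nat.card_sum, Nat.card_fin]; omega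
  · exact Nat.card_fin q
  · exact Nat.card_fin _
  · intro x hx
    by_cases hb : red x < l ∨ u < red x
    · exact Or.inl hb
    right
    intro n1 n2 n3
    rcases hx with hx | hx | hx
    · right; right; left
      exact Or.inl hx
    · have hb : red (fun b : Y => n1 (Sum.inl b)) ≤ Nat.card Y := red_le _
      rcases hx _ hb with h1 | h1
      · right; right; left
        refine Or.inr ?_
        have e2 : ∀ y : F ⊕ Y → Bool, red y = red (fun f => y (Sum.inl f)) +
            red (fun f => y (Sum.inr f)) := fun y => red_sum y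
        exact Eq.mpr (congrArg V3 (e2 _)) h1
      · right; left
        have e2 : ∀ y : X ⊕ Y → Bool, red y = red (fun f => y (Sum.inl f)) +
            red (fun f => y (Sum.inr f)) := fun y => red_sum y
        exact Eq.mpr (congrArg V2 (e2 _)) h1
    · by_contra hcon
      have g1 := fun hq => hcon (Or.inl hq)
      have g45 := fun hq => hcon (Or.inr (Or.inr (Or.inr hq)))
      have g4 := Nat.not_lt.mp fun hq => g45 (Or.inl hq)
      have g5 := Nat.not_lt.mp fun hq => g45 (Or.inr hq)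
      have E1 : red x = (red (fun s => x (Sum.inl s)) + red (fun s => x (Sum.inr (Sum.inr s)))) +
          red (fun j => x (Sum.inr (Sum.inl j))) := by
        rw [red_sum x, red_sum (fun s => x (Sum.inr s))]
        omega
      have E2 : ∀ y : Fin h ⊕ (Fin q ⊕ Fin (h + 1 - q)) → Bool, red y =
          red (fun j => y (Sum.inl j)) + (red (fun j => y (Sum.inr (Sum.inl j))) +
            red (fun j => y (Sum.inr (Sum.inr j)))) := by
        intro y
        rw [red_sum y, red_sum (fun s => y (Sum.inr s))]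
      have E3 : ¬ (red (fun j => x (Sum.inr (Sum.inl j))) + (red n2 + red n3) < l ∨
          u < red (fun j => x (Sum.inr (Sum.inl j))) + (red n2 + red n3)) := by
        intro hh
        refine g1 ?_
        have E2' := E2 (Sum.elim (fun j => x ((eP F X (Fin h) (Fin (q - Nat.card X))
          (Fin (h + 1 - q - Nat.card F))).symm (Sum.inl j))) (Sum.elim n2 n3))
        rcases hh with hh | hh
        · exact Or.inl (E2'.trans_lt hh)
        · exact Or.inr (Nat.lt_of_lt_of_eq hh E2'.symm)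
      have E4 : ∀ y : (X ⊕ Fin (q - Nat.card X)) ⊕ (F ⊕ Fin (h + 1 - q - Nat.card F)) → Bool,
          red y = (red (fun j => y (Sum.inl (Sum.inl j))) + red (fun j => y (Sum.inl (Sum.inr j)))) +
            (red (fun j => y (Sum.inr (Sum.inl j))) + red (fun j => y (Sum.inr (Sum.inr j)))) := by
        intro y
        rw [red_sum y, red_sum (fun s => y (Sum.inl s)), red_sum (fun s => y (Sum.inr s))]
      have E5 : red (fun s => x (Sum.inl s)) + red (fun s => x (Sum.inr (Sum.inr s))) =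
          (red (fun j => x (Sum.inl (Sum.inr j))) + red (fun j => x (Sum.inr (Sum.inr (Sum.inl j))))) +
          (red (fun j => x (Sum.inl (Sum.inl j))) + red (fun j => x (Sum.inr (Sum.inr (Sum.inr j))))) := by
        rw [red_sum (fun s => x (Sum.inl s)), red_sum (fun s => x (Sum.inr (Sum.inr s)))]
        omega
      have E6 := E4 (fun j => x ((eP F X (Fin h) (Fin (q - Nat.card X))
        (Fin (h + 1 - q - Nat.card F))).symm (Sum.inr j)))
      have E7 : red (fun j => x ((eP F X (Fin h) (Fin (q - Nat.card X))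
        (Fin (h + 1 - q - Nat.card F))).symm (Sum.inr j))) =
          red (fun s => x (Sum.inl s)) + red (fun s => x (Sum.inr (Sum.inr s))) := by
        rw [E5]
        exact E6
      rw [E7] at g4 g5
      omega

open Classical in
/-- Refutable values; at level `h + 1` the window of the cut. -/
def Wp (h l u L p : ℕ) : Prop :=
  if L ≤ h then W3 h l u L p else (2 * p + u < 2 * l ∨ 2 * u + 1 < 2 * p + l)

theorem Wp_le {h l u L p : ℕ} (hL : L ≤ h) : Wp h l u L p ↔ W3 h l u L p := by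
  unfold Wp
  rw [if_pos hL]

theorem Wp_top {h l u p : ℕ} :
    Wp h l u (h + 1) p ↔ (2 * p + u < 2 * l ∨ 2 * u + 1 < 2 * p + l) := by
  unfold Wp
  rw [if_neg (by omega)]

theorem red_zero {I : Type} [Finite I] (hI : Nat.card I = 0) (x : I → Bool) : red x = 0 := by
  have := red_le x
  omega

theorem false_false {h l u : ℕ} {I : Type} {A : Set (I → Bool)} (hA : ∀ x, x ∉ A) :
    Kill3 h l u I A := (Kill3.empty h l u I).mono fun x hx => absurd hx (hA x)

theorem seq0 {h l u M : ℕ} (hh : 1 ≤ h) (G R : Type) [Finite G] [Finite R] (hG : Nat.card G = M)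
    (hM : M ≤ h + 1) (hR : Nat.card G + Nat.card R = 2 * h + 1) :
    Kill3 h l u (G ⊕ R) {x | Wp h l u M (red (fun g => x (Sum.inl g)))} := by
  by_cases hc : M ≤ h
  · refine Kill3.mono (W3_seq' G R hG hR ∅ (false_false fun x hx => hx)) ?_
    intro x hx
    right
    exact (Wp_le hc).mp hx
  · have hM' : M = h + 1 := by omega
    subst hM'
    have k := nodeP (l := l) (u := u) hh (Fin h) (Fin 1) (Fin 0) (Fin (2 * h)) (Fin (h + 1))
      (by rw [Nat.card_fin]) (by rw [Nat.card_fin]; exact hh) (by rw [Nat.card_fin]; omega)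
      (by rw [Nat.card_fin, Nat.card_fin]) ∅ (fun _ => False) (fun _ => False) 1
      (by rw [Nat.card_fin]; rfl)
      (by rw [Nat.card_fin, Nat.card_fin, Nat.card_fin]; omega)
      (by rw [Nat.card_fin, Nat.card_fin, Nat.card_fin]; omega)
      (false_false fun x hx => hx)
      (false_false fun x hx => by rcases hx with hx | hx <;> exact hx)
    have k' : Kill3 h l u ((Fin h ⊕ Fin 1) ⊕ (Fin h ⊕ (Fin (1 - Nat.card (Fin 1)) ⊕
        Fin (h + 1 - 1 - Nat.card (Fin h))))) {x | (fun g => x (Sum.inl g)) ∈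
          {w : Fin h ⊕ Fin 1 → Bool | Wp h l u (h + 1) (red w)}} := by
      refine Kill3.mono k ?_
      intro x hx
      right; right
      have e0 : red (fun s => x (Sum.inr (Sum.inr s))) = 0 := by
        apply red_zero
        rw [Nat.card_sum, Nat.card_fin, Nat.card_fin, Nat.card_fin, Nat.card_fin]
        omega
      show 2 * (red (fun s => x (Sum.inl s)) + red (fun s => x (Sum.inr (Sum.inr s)))) + u < 2 * l ∨
        2 * u + 1 < 2 * (red (fun s => x (Sum.inl s)) + red (fun s => x (Sum.inr (Sum.inr s)))) + l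
      rw [e0]
      have hx' := Wp_top.mp hx
      simpa using hx'
    obtain ⟨eG⟩ := Finite.card_eq.mp (show Nat.card (Fin h ⊕ Fin 1) = Nat.card G by
      rw [Nat.card_sum, Nat.card_fin, Nat.card_fin, hG])
    obtain ⟨eR⟩ := Finite.card_eq.mp (show Nat.card (Fin h ⊕ (Fin (1 - Nat.card (Fin 1)) ⊕
        Fin (h + 1 - 1 - Nat.card (Fin h)))) = Nat.card R by
      simp only [Nat.card_sum, Nat.card_fin]
      omega)
    refine Kill3.mono (Kill3.transport k' (Equiv.sumCongr eG eR)) ?_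
    intro x hx
    have e1 : red (fun g => x (Sum.inl (eG g))) = red (fun g => x (Sum.inl g)) :=
      red_equiv eG (fun g => x (Sum.inl g))
    exact Eq.mpr (congrArg (Wp h l u (h + 1)) e1) hx

theorem seqY {h l u M : ℕ} (hh : 1 ≤ h) (F Y R : Type) [Finite F] [Finite Y] [Finite R]
    (hF : Nat.card F ≤ h) (hY : Nat.card Y ≤ h) (hMM : Nat.card F + Nat.card Y = M)
    (hM : M ≤ h + 1) (hR : Nat.card F + Nat.card Y + Nat.card R = 2 * h + 1) (T : Set (F → Bool))
    (k : Kill3 h l u ((F ⊕ Y) ⊕ R) {x | (fun f => x (Sum.inl (Sum.inl f))) ∈ T}) :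
    Kill3 h l u ((F ⊕ Y) ⊕ R) {x | (fun f => x (Sum.inl (Sum.inl f))) ∈ T ∨
      Wp h l u M (red (fun g => x (Sum.inl g)))} := by
  by_cases hc : M ≤ h
  · refine Kill3.mono (W3_seq' (F ⊕ Y) R (by rw [Nat.card_sum, hMM]) (by rw [Nat.card_sum]; omega)
      {w | (fun f => w (Sum.inl f)) ∈ T} k) ?_
    intro x hx
    rcases hx with hx | hx
    · exact Or.inl hx
    · exact Or.inr ((Wp_le hc).mp hx)
  · have hM' : M = h + 1 := by omega
    subst hM'
    have k3 : Kill3 h l u ((F ⊕ Fin 0) ⊕ Fin (2 * h + 1 - Nat.card F))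
        {x | (fun f => x (Sum.inl (Sum.inl f))) ∈ T ∨ (fun _ => False) (red (fun g => x (Sum.inl g)))} := by
      have k4 := Kill3.transport k (Equiv.sumAssoc F Y R)
      have k5 : Kill3 h l u (F ⊕ (Fin 0 ⊕ Fin (2 * h + 1 - Nat.card F)))
          {x | (fun f => x (Sum.inl f)) ∈ T} := by
        refine kill3_rest ?_ k4
        rw [Nat.card_sum, Nat.card_sum, Nat.card_fin, Nat.card_fin]
        omega
      refine Kill3.mono (Kill3.transport k5 (Equiv.sumAssoc F (Fin 0) (Fin (2 * h + 1 - Nat.card F))).symm) ?_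
      intro x hx
      rcases hx with hx | hx
      · exact hx
      · exact absurd hx id
    have k' := nodeP (l := l) (u := u) hh F Y (Fin 0) (Fin (2 * h + 1 - Nat.card Y))
      (Fin (2 * h + 1 - Nat.card F)) hF hY (by rw [Nat.card_fin]; omega) (by omega) T
      (fun _ => False) (fun _ => False) (max (Nat.card Y) 1) rfl
      (by rw [Nat.card_fin, Nat.card_fin]; omega)
      (by rw [Nat.card_fin, Nat.card_fin]; omega)
      (false_false fun x hx => hx) k3
    have k'' : Kill3 h l u ((F ⊕ Y) ⊕ (Fin h ⊕ (Fin (max (Nat.card Y) 1 - Nat.card Y) ⊕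
        Fin (h + 1 - max (Nat.card Y) 1 - Nat.card F)))) {x | (fun g => x (Sum.inl g)) ∈
          {w : F ⊕ Y → Bool | (fun f => w (Sum.inl f)) ∈ T ∨ Wp h l u (h + 1) (red w)}} := by
      refine Kill3.mono k' ?_
      intro x hx
      rcases hx with hx | hx
      · exact Or.inl hx
      right; right
      have e0 : red (fun s => x (Sum.inr (Sum.inr s))) = 0 := by
        apply red_zero
        rw [Nat.card_sum, Nat.card_fin, Nat.card_fin]
        omega
      show 2 * (red (fun s => x (Sum.inl s)) + red (fun s => x (Sum.inr (Sum.inr s)))) + u < 2 * l ∨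
        2 * u + 1 < 2 * (red (fun s => x (Sum.inl s)) + red (fun s => x (Sum.inr (Sum.inr s)))) + l
      rw [e0]
      have hx' := Wp_top.mp hx
      simpa using hx'
    refine kill3_rest ?_ k''
    rw [Nat.card_sum, Nat.card_sum, Nat.card_fin, Nat.card_fin, Nat.card_fin]
    omega

theorem R2 {h l u L p i j : ℕ} (hh : 1 ≤ h) (hL : L ≤ h) (hi : i ≤ h) (hj : j ≤ h)
    (hLi : L + i ≤ h + 1) (hLj : L + j ≤ h + 1) (hij : i + j ≤ h + 1)
    (H : ∀ a b, a ≤ i → b ≤ j → Wp h l u (L + i) (p + a) ∨ Wp h l u (L + j) (p + b) ∨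
      Wp h l u (i + j) (a + b)) : W3 h l u L p := by
  intro F R _ _ hF hR T hT
  have k2 := seq0 (h := h) (l := l) (u := u) (M := i + j) hh (Fin i ⊕ Fin j) (Fin (2 * h + 1 - (i + j)))
    (by rw [Nat.card_sum, Nat.card_fin, Nat.card_fin]) hij
    (by rw [Nat.card_sum, Nat.card_fin, Nat.card_fin, Nat.card_fin]; omega)
  have hT1 : Kill3 h l u (F ⊕ (Fin j ⊕ Fin (2 * h + 1 - (L + j))))
      {x | (fun f => x (Sum.inl f)) ∈ T} := by
    refine kill3_rest ?_ hT
    rw [Nat.card_sum, Nat.card_fin, Nat.card_fin]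
    omega
  have k3 := seqY (h := h) (l := l) (u := u) (M := L + j) hh F (Fin j) (Fin (2 * h + 1 - (L + j)))
    (by omega) (by rw [Nat.card_fin]; exact hj) (by rw [Nat.card_fin, hF]) hLj
    (by rw [Nat.card_fin, Nat.card_fin]; omega) T
    (Kill3.transport hT1 (Equiv.sumAssoc F (Fin j) (Fin (2 * h + 1 - (L + j)))).symm)
  have kn := nodeP (l := l) (u := u) hh F (Fin i) (Fin j) (Fin (2 * h + 1 - (i + j)))
    (Fin (2 * h + 1 - (L + j))) (by omega) (by rw [Nat.card_fin]; exact hi)
    (by rw [Nat.card_fin]; exact hj) (by rw [Nat.card_fin]; omega) T (Wp h l u (i + j))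
    (Wp h l u (L + j)) (max (Nat.card (Fin i)) 1) rfl
    (by rw [Nat.card_fin, Nat.card_fin, Nat.card_fin]; omega)
    (by rw [Nat.card_fin, Nat.card_fin]; omega) k2 k3
  have kf : Kill3 h l u ((F ⊕ Fin i) ⊕ (Fin h ⊕ (Fin (max (Nat.card (Fin i)) 1 -
      Nat.card (Fin i)) ⊕ Fin (h + 1 - max (Nat.card (Fin i)) 1 - Nat.card F))))
      {x | (fun f => x (Sum.inl (Sum.inl f))) ∈ T ∨ red (fun f => x (Sum.inl (Sum.inl f))) = p} := by
    have hsp : ∀ x : (F ⊕ Fin i) ⊕ (Fin h ⊕ (Fin (max (Nat.card (Fin i)) 1 -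
        Nat.card (Fin i)) ⊕ Fin (h + 1 - max (Nat.card (Fin i)) 1 - Nat.card F))) → Bool,
        red (fun g => x (Sum.inl g)) = red (fun f => x (Sum.inl (Sum.inl f))) +
          red (fun a => x (Sum.inl (Sum.inr a))) := fun x => red_sum (fun g => x (Sum.inl g))
    have hai : ∀ x : (F ⊕ Fin i) ⊕ (Fin h ⊕ (Fin (max (Nat.card (Fin i)) 1 -
        Nat.card (Fin i)) ⊕ Fin (h + 1 - max (Nat.card (Fin i)) 1 - Nat.card F))) → Bool,
        red (fun a => x (Sum.inl (Sum.inr a))) ≤ i := by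
      intro x
      exact (red_le (fun a : Fin i => x (Sum.inl (Sum.inr a)))).trans (le_of_eq (Nat.card_fin i))
    -- if the pattern on `F ⊕ X` is not refuted, the node refutes it
    have key : ∀ x : (F ⊕ Fin i) ⊕ (Fin h ⊕ (Fin (max (Nat.card (Fin i)) 1 -
        Nat.card (Fin i)) ⊕ Fin (h + 1 - max (Nat.card (Fin i)) 1 - Nat.card F))) → Bool,
        red (fun f => x (Sum.inl (Sum.inl f))) = p → ¬ Wp h l u (L + i) (red (fun g => x (Sum.inl g))) →
        ∀ b, b ≤ Nat.card (Fin j) → Wp h l u (L + j) (red (fun f => x (Sum.inl (Sum.inl f))) + b) ∨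
          Wp h l u (i + j) (red (fun g => x (Sum.inl (Sum.inr g))) + b) := by
      intro x h1 h2 b hb
      rw [Nat.card_fin] at hb
      rcases H _ b (hai x) hb with h3 | h3 | h3
      · rw [hsp, h1] at h2
        exact absurd h3 h2
      · rw [h1]
        exact Or.inl h3
      · exact Or.inr h3
    by_cases hc : L + i ≤ h
    · have ks := W3_seq' (l := l) (u := u) (L := L + i) (F ⊕ Fin i) (Fin h ⊕ (Fin (max (Nat.card (Fin i)) 1 -
        Nat.card (Fin i)) ⊕ Fin (h + 1 - max (Nat.card (Fin i)) 1 - Nat.card F)))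
        (by rw [Nat.card_sum, Nat.card_fin, hF])
        (by simp only [Nat.card_sum, Nat.card_fin]; omega)
        {w | (fun f => w (Sum.inl f)) ∈ T ∨ (red (fun f => w (Sum.inl f)) = p ∧
          ¬ Wp h l u (L + i) (red w))} (Kill3.mono kn (by
            intro x hx
            rcases hx with hx | ⟨hx1, hx2⟩
            · exact Or.inl hx
            · exact Or.inr (Or.inl (key x hx1 hx2))))
      refine Kill3.mono ks ?_
      intro x hx
      show ((fun f => x (Sum.inl (Sum.inl f))) ∈ T ∨ (red (fun f => x (Sum.inl (Sum.inl f))) = p ∧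
        ¬ Wp h l u (L + i) (red (fun g => x (Sum.inl g))))) ∨
        W3 h l u (L + i) (red (fun g => x (Sum.inl g)))
      rw [← Wp_le hc]
      have hx' : (fun f => x (Sum.inl (Sum.inl f))) ∈ T ∨
        red (fun f => x (Sum.inl (Sum.inl f))) = p := hx
      tauto
    · refine Kill3.mono kn ?_
      intro x hx
      rcases hx with hx | hx
      · exact Or.inl hx
      right
      have hLi' : L + i = h + 1 := by omega
      by_cases hw : Wp h l u (L + i) (red (fun g => x (Sum.inl g)))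
      · right
        have e0 : red (fun s => x (Sum.inr (Sum.inr s))) = 0 := by
          apply red_zero
          rw [Nat.card_sum, Nat.card_fin, Nat.card_fin, Nat.card_fin]
          omega
        show 2 * (red (fun s => x (Sum.inl s)) + red (fun s => x (Sum.inr (Sum.inr s)))) + u < 2 * l ∨
          2 * u + 1 < 2 * (red (fun s => x (Sum.inl s)) + red (fun s => x (Sum.inr (Sum.inr s)))) + l
        rw [e0]
        rw [hLi'] at hw
        have hx' := Wp_top.mp hw
        simpa using hx'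
      · left
        exact key x hx hw
  have kt := Kill3.transport kf (Equiv.sumAssoc F (Fin i) (Fin h ⊕ (Fin (max (Nat.card (Fin i)) 1 -
      Nat.card (Fin i)) ⊕ Fin (h + 1 - max (Nat.card (Fin i)) 1 - Nat.card F))))
  refine kill3_rest (T := {y | y ∈ T ∨ red y = p}) ?_ kt
  simp only [Nat.card_sum, Nat.card_fin]
  omega

theorem base {h l u L p : ℕ} (hh : 1 ≤ h) (hL : L ≤ h) (hp : p ≤ L)
    (hb : 2 * u + 1 < 2 * p + l ∨ 2 * (p + (h + 1 - L)) + u < 2 * l) : W3 h l u L p := by
  intro F R _ _ hF hR T hT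
  have k3 : Kill3 h l u ((F ⊕ Fin 0) ⊕ Fin (2 * h + 1 - Nat.card F))
      {x | (fun f => x (Sum.inl (Sum.inl f))) ∈ T ∨ (fun _ => False) (red (fun g => x (Sum.inl g)))} := by
    have k5 : Kill3 h l u (F ⊕ (Fin 0 ⊕ Fin (2 * h + 1 - Nat.card F)))
        {x | (fun f => x (Sum.inl f)) ∈ T} := by
      refine kill3_rest ?_ hT
      rw [Nat.card_sum, Nat.card_fin, Nat.card_fin]
      omega
    refine Kill3.mono (Kill3.transport k5 (Equiv.sumAssoc F (Fin 0) (Fin (2 * h + 1 - Nat.card F))).symm) ?_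
    intro x hx
    rcases hx with hx | hx
    · exact hx
    · exact absurd hx id
  have k' := nodeP (l := l) (u := u) hh F (Fin 0) (Fin 0) (Fin (2 * h + 1))
    (Fin (2 * h + 1 - Nat.card F)) (by omega) (by rw [Nat.card_fin]; omega)
    (by rw [Nat.card_fin]; omega) (by rw [Nat.card_fin]; omega) T
    (fun _ => False) (fun _ => False) 1 (by rw [Nat.card_fin]; rfl)
    (by rw [Nat.card_fin, Nat.card_fin]; omega)
    (by rw [Nat.card_fin, Nat.card_fin]; omega)
    (false_false fun x hx => hx) k3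
  have kf := Kill3.mono k' (A' := {x | (fun f => x (Sum.inl (Sum.inl f))) ∈ T ∨
      red (fun f => x (Sum.inl (Sum.inl f))) = p}) (by
    intro x hx
    rcases hx with hx | hx
    · exact Or.inl hx
    right; right
    have e1 : red (fun g => x (Sum.inl g)) = red (fun f => x (Sum.inl (Sum.inl f))) +
      red (fun a => x (Sum.inl (Sum.inr a))) := red_sum (fun g => x (Sum.inl g))
    have e2 : red (fun s => x (Sum.inr (Sum.inr s))) ≤ h + 1 - L := by
      have := red_le (fun s => x (Sum.inr (Sum.inr s)))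
      simp only [Nat.card_sum, Nat.card_fin] at this
      omega
    have e3 : red (fun a => x (Sum.inl (Sum.inr a))) = 0 := red_zero (Nat.card_fin 0) _
    have e4 : red (fun f => x (Sum.inl (Sum.inl f))) ≤ L := by
      have := red_le (fun f => x (Sum.inl (Sum.inl f)))
      omega
    have e5 : red (fun f => x (Sum.inl (Sum.inl f))) = p := hx
    show 2 * (red (fun s => x (Sum.inl s)) + red (fun s => x (Sum.inr (Sum.inr s)))) + u < 2 * l ∨
        2 * u + 1 < 2 * (red (fun s => x (Sum.inl s)) + red (fun s => x (Sum.inr (Sum.inr s)))) + l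
    omega)
  have kt := Kill3.transport kf (Equiv.sumAssoc F (Fin 0) (Fin h ⊕ (Fin (1 -
      Nat.card (Fin 0)) ⊕ Fin (h + 1 - 1 - Nat.card F))))
  refine kill3_rest (T := {y | y ∈ T ∨ red y = p}) ?_ kt
  simp only [Nat.card_sum, Nat.card_fin]
  omega


end Pool.Agent.Lib.MP_21a058_co.Slack3.PP
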