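import Pool.Agent.Lib.MP_21a058_co.Slack3.DevOdd
import Pool.Agent.Lib.MP_21a058_co.Slack3.Rule5
import Pool.Agent.Lib.MP_21a058_co.Slack3.Mid3odd
import Pool.Agent.Lib.MP_21a058_co.Slack3.Gad3

/-! Odd `k = 2 h + 1`, window `2 m + 1 ≤ red ≤ 2 m + 3`, `m ≥ 2`, `68 (m + 1) < 2 h + 1`: everything is
killable. -/

set_option autoImplicit false

namespace Pool.Agent.Lib.MP_21a058_co.Slack3.DevOdd

/-- The end, without graphs. -/
theorem Ctx.zero {h m : ℕ} {Wp : ℕ → ℕ → Prop} (c : Ctx h m Wp) (hm : 2 ≤ m)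
    (hh : 68 * (m + 1) < 2 * h + 1)
    (main : ∀ e t, 1 ≤ t → 2 * (e + t) ≤ h + 1 → 3 * t ≤ h → Wp (2 * e + t) 0 →
      (∀ p, 3 ≤ p → Wp (3 * t) p) → Wp (h - e) (m + 2)) : Wp 0 0 := by
  -- `g = ⌊(2 h + 1) / (2 m + 2)⌋`
  obtain ⟨g, hg⟩ : ∃ g, g = (2 * h + 1) / (2 * m + 2) := ⟨_, rfl⟩
  have hpos : 0 < 2 * m + 2 := by omega
  have hg1 : (2 * m + 2) * g ≤ 2 * h + 1 := by
    rw [hg]
    exact Nat.mul_div_le _ _
  have hg2 : 2 * h + 1 < (2 * m + 2) * (g + 1) := by
    rw [hg]
    exact Nat.lt_mul_div_succ _ hpos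
  have hg3 : (2 * m + 2) * g < 2 * h + 1 := by
    rcases Nat.lt_or_ge ((2 * m + 2) * g) (2 * h + 1) with h1 | h1
    · exact h1
    · exfalso
      have h2 : (2 * m + 2) * g = 2 * ((m + 1) * g) := by ring
      omega
  have hg34 : 34 ≤ g := by
    by_contra hc
    have h1 : g + 1 ≤ 34 := by omega
    have h2 : (2 * m + 2) * (g + 1) ≤ (2 * m + 2) * 34 := Nat.mul_le_mul_left _ h1
    omega
  have h6 : 6 * g ≤ (2 * m + 2) * g := Nat.mul_le_mul_right _ (by omega)
  -- the main lemma with `e = g - 4`, `t = 11`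
  have hmain : ∀ p, m + 2 ≤ p → Wp (h - (g - 4)) p := by
    intro p hp
    by_contra hw
    have hp2 := c.top (by omega) hw
    have hpe : p = m + 2 := by omega
    subst hpe
    apply hw
    refine main (g - 4) 11 (by norm_num) (by omega) (by omega) ?_ ?_
    · refine c.lo (by omega) (by omega) ?_
      -- `2 (2 h + m + 2) < (2 m + 2) (2 g + 3)`
      have e1 : 2 * (g - 4) + 11 = 2 * g + 3 := by omega
      rw [e1]
      have e2 : (2 * m + 2) * (2 * g + 3) = 2 * ((2 * m + 2) * (g + 1)) + (2 * m + 2) := by ring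
      rw [e2]
      omega
    · intro p hp
      refine c.hi (by norm_num) (by omega) ?_
      -- `(2 m + 2) 33 + 2 (2 h + m + 2) < (2 h + 1) p`
      have e1 : (2 * h + 1) * 3 ≤ (2 * h + 1) * p := Nat.mul_le_mul_left _ hp
      omega
  -- level `g + 1` has at most two red edges
  have hmid : ∀ p, 3 ≤ p → Wp (g + 1) p := by
    intro p hp
    refine c.r2 (g + 1) p (h - (g - 4) - (g + 1)) (g - 4 + (g + 1) + 1) (by omega) (by omega)
      (by omega) (by omega) (by omega) (by omega) fun a b ha hb => ?_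
    rw [show g + 1 + (h - (g - 4) - (g + 1)) = h - (g - 4) by omega,
      show g + 1 + (g - 4 + (g + 1) + 1) = 3 * g - 1 by omega,
      show h - (g - 4) - (g + 1) + (g - 4 + (g + 1) + 1) = h + 1 by omega]
    by_cases h1 : m + 2 ≤ p + a
    · exact Or.inl (hmain _ h1)
    by_cases h2 : a + b + 1 ≤ m
    · exact Or.inr (Or.inr (c.bh1 _ (Or.inl h2)))
    · right; left
      refine c.hi (by omega) (by omega) ?_
      -- `(2 m + 2) (3 g - 1) + 2 (2 h + m + 2) < (2 h + 1) (p + b)`, `p + b ≥ 5`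
      have h5 : 5 ≤ p + b := by omega
      have e1 : (2 * h + 1) * 5 ≤ (2 * h + 1) * (p + b) := Nat.mul_le_mul_left _ h5
      have e2 : (2 * m + 2) * (3 * g - 1) + (2 * m + 2) = 3 * ((2 * m + 2) * g) := by
        obtain ⟨s, rfl⟩ : ∃ s, g = s + 1 := ⟨g - 1, by omega⟩
        have e3 : 3 * (s + 1) - 1 = 3 * s + 2 := by omega
        rw [e3]
        ring
      omega
  -- two red edges in a set of two
  have h22 : Wp 2 2 := by
    refine c.r2 2 2 (h - (g - 4) - 2) (g - 1) (by omega) (by omega) (by omega) (by omega) (by omega)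
      (by omega) fun a b ha hb => ?_
    rw [show 2 + (h - (g - 4) - 2) = h - (g - 4) by omega, show 2 + (g - 1) = g + 1 by omega,
      show h - (g - 4) - 2 + (g - 1) = h + 1 by omega]
    by_cases h1 : m + 2 ≤ 2 + a
    · exact Or.inl (hmain _ h1)
    by_cases h2 : b = 0
    · exact Or.inr (Or.inr (c.bh1 _ (Or.inl (by omega))))
    · exact Or.inr (Or.inl (hmid _ (by omega)))
  have hdown : ∀ n, n ≤ h → Wp (h - n) 0 := by
    intro n
    induction n with
    | zero =>
      intro _
      exact c.bh _ (Or.inl (by omega))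
    | succ n ih =>
      intro hn
      have h1 := ih (by omega)
      refine c.r2 (h - (n + 1)) 0 1 1 (by omega) (by omega) (by omega) (by omega) (by omega)
        (by omega) fun a b ha hb => ?_
      rw [show h - (n + 1) + 1 = h - n by omega]
      by_cases h2 : a = 0
      · left
        rw [h2]
        exact h1
      · by_cases h3 : b = 0
        · right; left
          rw [h3]
          exact h1
        · right; right
          have e1 : a = 1 := by omega
          have e2 : b = 1 := by omega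
          rw [e1, e2]
          exact h22
  have := hdown h le_rfl
  rwa [Nat.sub_self] at this

end Pool.Agent.Lib.MP_21a058_co.Slack3.DevOdd
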