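import Pool.Agent.Lib.MP_21a058_co.Slack3.EndOdd36
import Pool.Agent.Lib.MP_21a058_co.Slack3.Base5

/-! Odd edge-connectivity `k = 2 h + 1`, window `2 m + 1 ≤ red ≤ 2 m + 3`, `m ≥ 2`,
`68 (m + 1) < 2 h + 1`: two classes with the sums `2 m + 1` and `2 h - 2 m - 2` do not divide. -/

set_option autoImplicit false

namespace Pool.Agent.Lib.MP_21a058_co.Slack3.DevOdd

open Pool.Agent.Lib.MP_21a058_co
open Pool.Agent.Lib.MP_21a058_co.Odd (red red_sum red_equiv red_le)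

/-- The calculus of the killable pairs. -/
theorem ctx {h m : ℕ} (hh : 1 ≤ h) : Ctx h m (PP.Wp h (2 * m + 1) (2 * m + 3)) where
  bh p hp := (PP.Wp_le le_rfl).2 (PP.baseH hh le_rfl (by omega))
  bh1 p hp := PP.Wp_top.2 (by omega)
  r2 L p i j hL hi hj hLi hLj hij H := (PP.Wp_le hL).2 (PP.R2 hh hL hi hj hLi hLj hij H)

/-- The deviation of an alive set, for `W3`. -/
theorem dev3 {h m L p : ℕ} (h0 : 1 ≤ L) (hL : L ≤ h)
    (hD : 2 * (2 * (h : ℤ) + m + 2) < |(2 * (h : ℤ) + 1) * p - (2 * m + 2) * L|) :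
    W3 h (2 * m + 1) (2 * m + 3) L p :=
  (PP.Wp_le hL).1 ((ctx (m := m) (h0.trans hL)).dev h0 hL hD)

/-- Everything is killable. -/
theorem w00 {h m : ℕ} (hm : 2 ≤ m) (hh : 68 * (m + 1) < 2 * h + 1) :
    W3 h (2 * m + 1) (2 * m + 3) 0 0 := by
  refine (PP.Wp_le (Nat.zero_le _)).1 ((ctx (by omega)).zero hm hh ?_)
  intro e t h1 h2 h3 h4 h5
  refine (PP.Wp_le (Nat.sub_le _ _)).2
    (Mid3odd.midO (c := e) (t := t) (by omega) (by omega) h2 h3 h1
      ((PP.Wp_le (by omega)).1 h4) fun p hp => (PP.Wp_le h3).1 (h5 p hp))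

/-- **Odd `k`**: two classes (or groups of classes) with the sums `2 m + 1` and `2 h - 2 m - 2`. -/
theorem gen_odd {h m l' r : ℕ} (hm : 2 ≤ m) (hh : 68 * (m + 1) < 2 * h + 1)
    (hl : 2 * m + 3 + l' = 2 * h + 1) (ks : Fin r → ℕ)
    (J : Finset (Fin r)) (hJ : ∑ i ∈ J, ks i = 2 * m + 1) (hJ' : ∑ i ∈ Jᶜ, ks i = l') :
    ¬ Arrow (2 * h + 1) ks := by
  have hk : Kill3 h (2 * m + 1) (2 * m + 3) (Fin 0 ⊕ Fin (2 * h + 1)) Set.univ := by
    have h1 := w00 hm hh (Fin 0) (Fin (2 * h + 1)) (Nat.card_fin 0)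
      (by rw [Nat.card_fin, Nat.card_fin]; omega) ∅
      ((Kill3.empty h (2 * m + 1) (2 * m + 3) _).mono
        (by intro x hx; exact absurd hx (Set.notMem_empty _)))
    refine h1.mono ?_
    intro x _
    right
    have := red_le (fun f : Fin 0 => x (Sum.inl f))
    rw [Nat.card_fin] at this
    omega
  exact Kill3.false_of_univ (u := 2 * m + 3) hl hk
    (by rw [Nat.card_sum, Nat.card_fin, Nat.card_fin]; omega) ks J hJ hJ'

end Pool.Agent.Lib.MP_21a058_co.Slack3.DevOdd
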