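import Pool.Agent.Lib.MP_21a058_co.Slack3.Rule3

/-! Odd edge-connectivity `2 h + 1`: an alive set of `m` edges does not have `P` red edges, where
`P` is the largest number of red edges of an alive set of `h` edges. -/

set_option autoImplicit false

namespace Pool.Agent.Lib.MP_21a058_co.Slack3.Mid3K

open Pool.Agent.Lib.MP_21a058_co.Odd (red red_sum red_equiv red_le)
open Pool.Agent.Lib.MP_21a058_co.Slack3

/-- `p` red edges among `L` alive edges are killable (nothing else has to survive). -/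
def V3 (h l u L p : ℕ) : Prop :=
  ∀ (F R : Type) [Finite F] [Finite R], Nat.card F = L → Nat.card F + Nat.card R = 2 * h + 1 →
    Kill3 h l u (F ⊕ R) {x | red (fun f => x (Sum.inl f)) = p}

theorem V3_of_W3 {h l u L p : ℕ} (hW : W3 h l u L p) : V3 h l u L p := by
  intro F R _ _ hF hR
  refine (hW F R hF hR ∅ ((Kill3.empty h l u _).mono
    (by intro x hx; exact absurd hx (Set.notMem_empty _)))).mono ?_
  intro x hx
  exact Or.inr hx

/-- A test of the alive edges `F` of the bundle `I`. -/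
theorem kill3_test {h l u L : ℕ} {I F R : Type} [Finite F] [Finite R] (e : F ⊕ R ≃ I)
    (hF : Nat.card F = L) (hR : Nat.card F + Nat.card R = 2 * h + 1) :
    Kill3 h l u I {y | W3 h l u L (red (fun f => y (e (Sum.inl f))))} := by
  have hh := W3_seq' (h := h) (l := l) (u := u) (L := L) F R hF hR ∅
    ((Kill3.empty h l u _).mono (by intro x hx; exact absurd hx (Set.notMem_empty _)))
  refine (hh.transport e).mono ?_
  intro y hy
  exact Or.inr hy

/-- Too many red edges in an alive set of at most `h` edges. -/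
theorem W3_top {h l u L p : ℕ} (hh : 1 ≤ h) (hL : L ≤ h) (hp : 2 * u < 2 * p + l) :
    W3 h l u L p := by
  intro F R _ _ hF hR T hT
  have hRc : Nat.card R = Nat.card (Fin (h - L) ⊕ (Fin 1 ⊕ Fin h)) := by
    rw [Nat.card_sum, Nat.card_sum, Nat.card_fin, Nat.card_fin, Nat.card_fin]
    omega
  have hT1 : Kill3 h l u (F ⊕ (Fin (h - L) ⊕ (Fin 1 ⊕ Fin h)))
      {x | (fun f => x (Sum.inl f)) ∈ T} := kill3_rest hRc hT
  have kv := (hT1.transport (Equiv.sumAssoc F (Fin (h - L)) (Fin 1 ⊕ Fin h)).symm).addBase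
  have kn : Kill3 h l u (F ⊕ (Fin (h - L) ⊕ (Fin 1 ⊕ Fin h)))
      {x | (fun f => x (Sum.inl f)) ∈ {y : F → Bool | y ∈ T ∨ red y = p}} := by
    refine Kill3.node _ (F ⊕ Fin (h - L)) (Fin 1) (Fin h) (Fin h) (Fin 1) (Fin h) 1 le_rfl hh ?_
      (Nat.card_fin _) ?_ (Nat.card_fin _) (Nat.card_fin _) ?_
      (Equiv.sumAssoc F (Fin (h - L)) (Fin 1 ⊕ Fin h)).symm _ _ _ _ kv (Kill3.empty h l u _)
      (Kill3.empty h l u _) ?_
    · rw [Nat.card_sum, Nat.card_fin, hF]; omega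
    · rw [Nat.card_fin]; omega
    · rw [Nat.card_fin]; omega
    · intro x hx
      by_cases hb : red x < l ∨ u < red x
      · exact Or.inl hb
      right
      intro n1 n2 n3
      rcases hx with hx | hx
      · exact Or.inl (Or.inl hx)
      · by_contra hcon
        push Not at hcon
        obtain ⟨hc1, hc2, hc3, hc4, hc5⟩ := hcon
        have g0 : red x = red (fun f => x (Sum.inl f)) + (red (fun a => x (Sum.inr (Sum.inl a))) +
            red (fun j : Fin 1 ⊕ Fin h => x (Sum.inr (Sum.inr j)))) := by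
          rw [red_sum x, red_sum (fun q : Fin (h - L) ⊕ (Fin 1 ⊕ Fin h) => x (Sum.inr q))]
        have g1 : ¬ (red (fun f => x (Sum.inl f)) + red (fun a => x (Sum.inr (Sum.inl a))) +
            (red n2 + red n3) < l ∨ u < red (fun f => x (Sum.inl f)) +
            red (fun a => x (Sum.inr (Sum.inl a))) + (red n2 + red n3)) := by
          intro hh
          apply hc1
          right
          have e3 : ∀ y : (F ⊕ Fin (h - L)) ⊕ (Fin 1 ⊕ Fin h) → Bool, red y =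
              red (fun f => y (Sum.inl (Sum.inl f))) + red (fun a => y (Sum.inl (Sum.inr a))) +
              (red (fun c => y (Sum.inr (Sum.inl c))) + red (fun c => y (Sum.inr (Sum.inr c)))) := by
            intro y
            rw [red_sum y, red_sum (fun q => y (Sum.inl q)), red_sum (fun q => y (Sum.inr q))]
          rw [e3]
          exact hh
        have g2 : l ≤ red (fun j : Fin 1 ⊕ Fin h => x (Sum.inr (Sum.inr j))) + red n2 + red n3 := hc4
        have hx' : red (fun f => x (Sum.inl f)) = p := hx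
        omega
  exact kill3_rest hRc.symm kn

/-! ### bundles in four parts -/

/-- killable predicates of a bundle in four parts -/
def K43 (h l u : ℕ) (A B C D : Type)
    (P : (A → Bool) → (B → Bool) → (C → Bool) → (D → Bool) → Prop) : Prop :=
  Kill3 h l u (A ⊕ (B ⊕ (C ⊕ D)))
    {x | P (fun a => x (Sum.inl a)) (fun b => x (Sum.inr (Sum.inl b)))
      (fun c => x (Sum.inr (Sum.inr (Sum.inl c)))) (fun d => x (Sum.inr (Sum.inr (Sum.inr d))))}

theorem red43 {A B C D : Type} [Finite A] [Finite B] [Finite C] [Finite D]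
    (x : A ⊕ (B ⊕ (C ⊕ D)) → Bool) :
    red x = red (fun a => x (Sum.inl a)) + (red (fun b => x (Sum.inr (Sum.inl b))) +
      (red (fun c => x (Sum.inr (Sum.inr (Sum.inl c)))) +
        red (fun d => x (Sum.inr (Sum.inr (Sum.inr d)))))) := by
  rw [red_sum x, red_sum (fun j => x (Sum.inr j)), red_sum (fun j => x (Sum.inr (Sum.inr j)))]

/-- the split `A + C | B + D` -/
def f4 (A B C D : Type) : A ⊕ (B ⊕ (C ⊕ D)) ≃ (A ⊕ C) ⊕ (B ⊕ D) where
  toFun p := match p with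
    | Sum.inl a => Sum.inl (Sum.inl a)
    | Sum.inr (Sum.inl b) => Sum.inr (Sum.inl b)
    | Sum.inr (Sum.inr (Sum.inl c)) => Sum.inl (Sum.inr c)
    | Sum.inr (Sum.inr (Sum.inr d)) => Sum.inr (Sum.inr d)
  invFun p := match p with
    | Sum.inr (Sum.inl b) => Sum.inr (Sum.inl b)
    | Sum.inr (Sum.inr d) => Sum.inr (Sum.inr (Sum.inr d))
    | Sum.inl (Sum.inl a) => Sum.inl a
    | Sum.inl (Sum.inr c) => Sum.inr (Sum.inr (Sum.inl c))
  left_inv := by rintro (a | b | c | d) <;> rfl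
  right_inv := by rintro ((a | c) | (b | d)) <;> rfl

/-- The vertices 2 and 3 of a node: `B + D` at the root, `C' + D'` to the vertex 1. -/
def Side (h l u : ℕ) (B D C' D' : Type)
    (P : (B → Bool) → (D → Bool) → (C' → Bool) → (D' → Bool) → Prop) : Prop :=
  ∃ (J2 J3 N1 N2 N3 : Type) (q : ℕ) (e1 : B ⊕ D ≃ J2 ⊕ J3) (e2 : C' ⊕ D' ≃ N2 ⊕ N3)
    (A2 : Set (J2 ⊕ (N1 ⊕ N3) → Bool)) (A3 : Set (J3 ⊕ (N1 ⊕ N2) → Bool)),
    1 ≤ q ∧ q ≤ h ∧ Nat.card J2 = q ∧ Nat.card J3 = h + 1 - q ∧ Nat.card N1 = h ∧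
    Nat.card N2 = q ∧ Nat.card N3 = h + 1 - q ∧ Kill3 h l u (J2 ⊕ (N1 ⊕ N3)) A2 ∧
    Kill3 h l u (J3 ⊕ (N1 ⊕ N2)) A3 ∧
    ∀ (x : J2 ⊕ J3 → Bool) (n1 : N1 → Bool) (y : N2 ⊕ N3 → Bool),
      P (fun b => x (e1 (Sum.inl b))) (fun d => x (e1 (Sum.inr d)))
        (fun c => y (e2 (Sum.inl c))) (fun d => y (e2 (Sum.inr d))) →
      Sum.elim (fun j => x (Sum.inl j)) (Sum.elim n1 fun n => y (Sum.inr n)) ∈ A2 ∨
      Sum.elim (fun j => x (Sum.inr j)) (Sum.elim n1 fun n => y (Sum.inl n)) ∈ A3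

/-- One vertex of the chain. -/
theorem node3 {h l u : ℕ} {A B C D C' D' : Type} [Finite A] [Finite B] [Finite C] [Finite D]
    [Finite C'] [Finite D']
    (hAC : Nat.card A + Nat.card C = h)
    {P : (A → Bool) → (B → Bool) → (C → Bool) → (D → Bool) → Prop}
    {P1 : (B → Bool) → (D → Bool) → (C' → Bool) → (D' → Bool) → Prop}
    {P2 : (A → Bool) → (C → Bool) → (C' → Bool) → (D' → Bool) → Prop}
    (s : Side h l u B D C' D' P1) (k : K43 h l u A C C' D' P2)
    (H : ∀ a b c d, P a b c d → l ≤ red a + red b + red c + red d →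
      red a + red b + red c + red d ≤ u →
      ∀ c' d', l ≤ red b + red d + red c' + red d' → red b + red d + red c' + red d' ≤ u + 1 →
        l ≤ red a + red c + red c' + red d' → red a + red c + red c' + red d' ≤ u →
        P1 b d c' d' ∨ P2 a c c' d') : K43 h l u A B C D P := by
  obtain ⟨J2, J3, N1, N2, N3, q, e1, e2, A2, A3, hq, hq', c2, c3, d1, d2, d3, k2, k3, hs⟩ := s
  have fJ : Finite (J2 ⊕ J3) := Finite.of_equiv _ e1
  have fN : Finite (N2 ⊕ N3) := Finite.of_equiv _ e2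
  have fJ2 : Finite J2 := Finite.sum_left J3
  have fJ3 : Finite J3 := Finite.sum_right J2
  have fN2 : Finite N2 := Finite.sum_left N3
  have fN3 : Finite N3 := Finite.sum_right N2
  have q1 := (Kill3.addBase k).transport ((Equiv.sumAssoc A C (C' ⊕ D')).symm.trans
    (Equiv.sumCongr (Equiv.refl _) e2))
  refine Kill3.node _ (A ⊕ C) J2 J3 N1 N2 N3 q hq hq' ?_ c2 c3 d1 d2 d3
    ((f4 A B C D).trans (Equiv.sumCongr (Equiv.refl _) e1)) _ _ _ _ q1 k2 k3 ?_
  · rw [Nat.card_sum, hAC]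
  · intro x hx
    by_cases hb : red x < l ∨ u < red x
    · exact Or.inl hb
    right
    intro n1 n2 n3
    by_contra hcon
    push Not at hcon
    obtain ⟨hc1, hc2, hc3, hc4, hc5⟩ := hcon
    have h1' : ¬ (P2 (fun a => x (Sum.inl a)) (fun c => x (Sum.inr (Sum.inr (Sum.inl c))))
        (fun c => (Sum.elim n2 n3 : N2 ⊕ N3 → Bool) (e2 (Sum.inl c)))
        (fun d => (Sum.elim n2 n3 : N2 ⊕ N3 → Bool) (e2 (Sum.inr d))) ∨
        (red (fun i => (Sum.elim (fun j => x (((f4 A B C D).trans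
            (Equiv.sumCongr (Equiv.refl _) e1)).symm (Sum.inl j))) (Sum.elim n2 n3) :
            (A ⊕ C) ⊕ (N2 ⊕ N3) → Bool) (((Equiv.sumAssoc A C (C' ⊕ D')).symm.trans
            (Equiv.sumCongr (Equiv.refl _) e2)) i)) < l ∨
          u < red (fun i => (Sum.elim (fun j => x (((f4 A B C D).trans
            (Equiv.sumCongr (Equiv.refl _) e1)).symm (Sum.inl j))) (Sum.elim n2 n3) :
            (A ⊕ C) ⊕ (N2 ⊕ N3) → Bool) (((Equiv.sumAssoc A C (C' ⊕ D')).symm.trans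
            (Equiv.sumCongr (Equiv.refl _) e2)) i)))) := hc1
    have r0 := red43 x
    have r1 : red (fun i => (Sum.elim (fun j => x (((f4 A B C D).trans
            (Equiv.sumCongr (Equiv.refl _) e1)).symm (Sum.inl j))) (Sum.elim n2 n3) :
            (A ⊕ C) ⊕ (N2 ⊕ N3) → Bool) (((Equiv.sumAssoc A C (C' ⊕ D')).symm.trans
            (Equiv.sumCongr (Equiv.refl _) e2)) i)) =
        red (fun a => x (Sum.inl a)) + (red (fun c => x (Sum.inr (Sum.inr (Sum.inl c)))) +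
        (red (fun c => (Sum.elim n2 n3 : N2 ⊕ N3 → Bool) (e2 (Sum.inl c))) +
          red (fun d => (Sum.elim n2 n3 : N2 ⊕ N3 → Bool) (e2 (Sum.inr d))))) := by
      rw [red43]
      rfl
    rw [r1] at h1'
    have r2 : red (fun j => x (((f4 A B C D).trans
            (Equiv.sumCongr (Equiv.refl _) e1)).symm (Sum.inr j))) =
        red (fun b => x (Sum.inr (Sum.inl b))) +
        red (fun d => x (Sum.inr (Sum.inr (Sum.inr d)))) := by
      rw [← red_equiv e1 (fun j => x (((f4 A B C D).trans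
            (Equiv.sumCongr (Equiv.refl _) e1)).symm (Sum.inr j)))]
      rw [red_sum]
      have z1 : (fun i : B => x (((f4 A B C D).trans (Equiv.sumCongr (Equiv.refl _) e1)).symm
          (Sum.inr (e1 (Sum.inl i))))) = fun b => x (Sum.inr (Sum.inl b)) := by
        funext b
        show x ((f4 A B C D).symm (Sum.inr (e1.symm (e1 (Sum.inl b))))) = _
        rw [Equiv.symm_apply_apply]
        rfl
      have z2 : (fun i : D => x (((f4 A B C D).trans (Equiv.sumCongr (Equiv.refl _) e1)).symm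
          (Sum.inr (e1 (Sum.inr i))))) = fun d => x (Sum.inr (Sum.inr (Sum.inr d))) := by
        funext b
        show x ((f4 A B C D).symm (Sum.inr (e1.symm (e1 (Sum.inr b))))) = _
        rw [Equiv.symm_apply_apply]
        rfl
      rw [z1, z2]
    have r3 : red n2 + red n3 = red (fun c => (Sum.elim n2 n3 : N2 ⊕ N3 → Bool) (e2 (Sum.inl c))) +
          red (fun d => (Sum.elim n2 n3 : N2 ⊕ N3 → Bool) (e2 (Sum.inr d))) := by
      have s1 : red (Sum.elim n2 n3 : N2 ⊕ N3 → Bool) = red n2 + red n3 := by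
        rw [red_sum]
        rfl
      have s2 : red (fun i => (Sum.elim n2 n3 : N2 ⊕ N3 → Bool) (e2 i)) =
          red (Sum.elim n2 n3 : N2 ⊕ N3 → Bool) := red_equiv e2 _
      rw [← s1, ← s2, red_sum]
    have hx' : P (fun a => x (Sum.inl a)) (fun b => x (Sum.inr (Sum.inl b)))
      (fun c => x (Sum.inr (Sum.inr (Sum.inl c))))
      (fun d => x (Sum.inr (Sum.inr (Sum.inr d)))) := hx
    push Not at h1'
    have w4 : l ≤ red (fun j => x (((f4 A B C D).trans
            (Equiv.sumCongr (Equiv.refl _) e1)).symm (Sum.inr j))) + red n2 + red n3 := hc4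
    have w5 : red (fun j => x (((f4 A B C D).trans
            (Equiv.sumCongr (Equiv.refl _) e1)).symm (Sum.inr j))) + red n2 + red n3 ≤ u + 1 := hc5
    rw [r2] at w4 w5
    rcases H _ _ _ _ hx' (by omega) (by omega)
      (fun c => (Sum.elim n2 n3 : N2 ⊕ N3 → Bool) (e2 (Sum.inl c)))
      (fun d => (Sum.elim n2 n3 : N2 ⊕ N3 → Bool) (e2 (Sum.inr d)))
      (by omega) (by omega) (by omega) (by omega) with h3 | h3
    · have z1 : (fun i : B => x (((f4 A B C D).trans (Equiv.sumCongr (Equiv.refl _) e1)).symm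
          (Sum.inr (e1 (Sum.inl i))))) = fun b => x (Sum.inr (Sum.inl b)) := by
        funext b
        show x ((f4 A B C D).symm (Sum.inr (e1.symm (e1 (Sum.inl b))))) = _
        rw [Equiv.symm_apply_apply]
        rfl
      have z2 : (fun i : D => x (((f4 A B C D).trans (Equiv.sumCongr (Equiv.refl _) e1)).symm
          (Sum.inr (e1 (Sum.inr i))))) = fun d => x (Sum.inr (Sum.inr (Sum.inr d))) := by
        funext b
        show x ((f4 A B C D).symm (Sum.inr (e1.symm (e1 (Sum.inr b))))) = _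
        rw [Equiv.symm_apply_apply]
        rfl
      rw [← z1, ← z2] at h3
      rcases hs (fun j => x (((f4 A B C D).trans
            (Equiv.sumCongr (Equiv.refl _) e1)).symm (Sum.inr j))) n1 (Sum.elim n2 n3) h3 with h4 | h4
      · exact hc2 h4
      · exact hc3 h4
    · exact h1'.1 h3

/-! ### the bundles at the vertices which are split off -/

section pieces

variable (A B C N T U Y F Z Q : Type)

def g1 : C ⊕ (T ⊕ (A ⊕ B)) ≃ A ⊕ (C ⊕ (T ⊕ B)) where
  toFun p := match p with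
    | Sum.inl c => Sum.inr (Sum.inl c)
    | Sum.inr (Sum.inl t) => Sum.inr (Sum.inr (Sum.inl t))
    | Sum.inr (Sum.inr (Sum.inl a)) => Sum.inl a
    | Sum.inr (Sum.inr (Sum.inr b)) => Sum.inr (Sum.inr (Sum.inr b))
  invFun p := match p with
    | Sum.inl a => Sum.inr (Sum.inr (Sum.inl a))
    | Sum.inr (Sum.inl c) => Sum.inl c
    | Sum.inr (Sum.inr (Sum.inl t)) => Sum.inr (Sum.inl t)
    | Sum.inr (Sum.inr (Sum.inr b)) => Sum.inr (Sum.inr (Sum.inr b))
  left_inv := by rintro (c | t | a | b) <;> rfl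
  right_inv := by rintro (a | c | t | b) <;> rfl

def g2 : C ⊕ (T ⊕ (A ⊕ B)) ≃ (T ⊕ A) ⊕ (C ⊕ B) where
  toFun p := match p with
    | Sum.inl c => Sum.inr (Sum.inl c)
    | Sum.inr (Sum.inl t) => Sum.inl (Sum.inl t)
    | Sum.inr (Sum.inr (Sum.inl a)) => Sum.inl (Sum.inr a)
    | Sum.inr (Sum.inr (Sum.inr b)) => Sum.inr (Sum.inr b)
  invFun p := match p with
    | Sum.inl (Sum.inl t) => Sum.inr (Sum.inl t)
    | Sum.inl (Sum.inr a) => Sum.inr (Sum.inr (Sum.inl a))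
    | Sum.inr (Sum.inl c) => Sum.inl c
    | Sum.inr (Sum.inr b) => Sum.inr (Sum.inr (Sum.inr b))
  left_inv := by rintro (c | t | a | b) <;> rfl
  right_inv := by rintro ((t | a) | (c | b)) <;> rfl

def v1 : (C ⊕ (C ⊕ T)) ⊕ (N ⊕ B) ≃ C ⊕ (N ⊕ (C ⊕ (T ⊕ B))) where
  toFun p := match p with
    | Sum.inl (Sum.inl c) => Sum.inl c
    | Sum.inl (Sum.inr (Sum.inl c)) => Sum.inr (Sum.inr (Sum.inl c))
    | Sum.inl (Sum.inr (Sum.inr t)) => Sum.inr (Sum.inr (Sum.inr (Sum.inl t)))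
    | Sum.inr (Sum.inl n) => Sum.inr (Sum.inl n)
    | Sum.inr (Sum.inr b) => Sum.inr (Sum.inr (Sum.inr (Sum.inr b)))
  invFun p := match p with
    | Sum.inl c => Sum.inl (Sum.inl c)
    | Sum.inr (Sum.inl n) => Sum.inr (Sum.inl n)
    | Sum.inr (Sum.inr (Sum.inl c)) => Sum.inl (Sum.inr (Sum.inl c))
    | Sum.inr (Sum.inr (Sum.inr (Sum.inl t))) => Sum.inl (Sum.inr (Sum.inr t))
    | Sum.inr (Sum.inr (Sum.inr (Sum.inr b))) => Sum.inr (Sum.inr b)
  left_inv := by rintro ((c | c | t) | (n | b)) <;> rfl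
  right_inv := by rintro (c | n | c | t | b) <;> rfl

def v3 : (C ⊕ (C ⊕ T)) ⊕ (N ⊕ B) ≃ (C ⊕ (T ⊕ B)) ⊕ (N ⊕ C) where
  toFun p := match p with
    | Sum.inl (Sum.inl c) => Sum.inl (Sum.inl c)
    | Sum.inl (Sum.inr (Sum.inl c)) => Sum.inr (Sum.inr c)
    | Sum.inl (Sum.inr (Sum.inr t)) => Sum.inl (Sum.inr (Sum.inl t))
    | Sum.inr (Sum.inl n) => Sum.inr (Sum.inl n)
    | Sum.inr (Sum.inr b) => Sum.inl (Sum.inr (Sum.inr b))
  invFun p := match p with
    | Sum.inl (Sum.inl c) => Sum.inl (Sum.inl c)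
    | Sum.inl (Sum.inr (Sum.inl t)) => Sum.inl (Sum.inr (Sum.inr t))
    | Sum.inl (Sum.inr (Sum.inr b)) => Sum.inr (Sum.inr b)
    | Sum.inr (Sum.inl n) => Sum.inr (Sum.inl n)
    | Sum.inr (Sum.inr c) => Sum.inl (Sum.inr (Sum.inl c))
  left_inv := by rintro ((c | c | t) | (n | b)) <;> rfl
  right_inv := by rintro ((c | t | b) | (n | c)) <;> rfl

def v2 : (C ⊕ (C ⊕ T)) ⊕ (U ⊕ B) ≃ C ⊕ ((T ⊕ U) ⊕ (C ⊕ B)) where
  toFun p := match p with
    | Sum.inl (Sum.inl c) => Sum.inl c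
    | Sum.inl (Sum.inr (Sum.inl c)) => Sum.inr (Sum.inr (Sum.inl c))
    | Sum.inl (Sum.inr (Sum.inr t)) => Sum.inr (Sum.inl (Sum.inl t))
    | Sum.inr (Sum.inl u) => Sum.inr (Sum.inl (Sum.inr u))
    | Sum.inr (Sum.inr b) => Sum.inr (Sum.inr (Sum.inr b))
  invFun p := match p with
    | Sum.inl c => Sum.inl (Sum.inl c)
    | Sum.inr (Sum.inl (Sum.inl t)) => Sum.inl (Sum.inr (Sum.inr t))
    | Sum.inr (Sum.inl (Sum.inr u)) => Sum.inr (Sum.inl u)
    | Sum.inr (Sum.inr (Sum.inl c)) => Sum.inl (Sum.inr (Sum.inl c))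
    | Sum.inr (Sum.inr (Sum.inr b)) => Sum.inr (Sum.inr b)
  left_inv := by rintro ((c | c | t) | (u | b)) <;> rfl
  right_inv := by rintro (c | (t | u) | c | b) <;> rfl

def v4 : (T ⊕ (T ⊕ T)) ⊕ (Y ⊕ (U ⊕ A)) ≃ (T ⊕ Y) ⊕ ((T ⊕ U) ⊕ (T ⊕ A)) where
  toFun p := match p with
    | Sum.inl (Sum.inl t) => Sum.inl (Sum.inl t)
    | Sum.inl (Sum.inr (Sum.inl t)) => Sum.inr (Sum.inl (Sum.inl t))
    | Sum.inl (Sum.inr (Sum.inr t)) => Sum.inr (Sum.inr (Sum.inl t))
    | Sum.inr (Sum.inl y) => Sum.inl (Sum.inr y)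
    | Sum.inr (Sum.inr (Sum.inl u)) => Sum.inr (Sum.inl (Sum.inr u))
    | Sum.inr (Sum.inr (Sum.inr a)) => Sum.inr (Sum.inr (Sum.inr a))
  invFun p := match p with
    | Sum.inl (Sum.inl t) => Sum.inl (Sum.inl t)
    | Sum.inl (Sum.inr y) => Sum.inr (Sum.inl y)
    | Sum.inr (Sum.inl (Sum.inl t)) => Sum.inl (Sum.inr (Sum.inl t))
    | Sum.inr (Sum.inl (Sum.inr u)) => Sum.inr (Sum.inr (Sum.inl u))
    | Sum.inr (Sum.inr (Sum.inl t)) => Sum.inl (Sum.inr (Sum.inr t))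
    | Sum.inr (Sum.inr (Sum.inr a)) => Sum.inr (Sum.inr (Sum.inr a))
  left_inv := by rintro ((t | t | t) | (y | u | a)) <;> rfl
  right_inv := by rintro ((t | y) | ((t | u) | (t | a))) <;> rfl

def eX3 : (F ⊕ C) ⊕ (Z ⊕ Q) ≃ F ⊕ (Z ⊕ (C ⊕ Q)) where
  toFun p := match p with
    | Sum.inl (Sum.inl f) => Sum.inl f
    | Sum.inl (Sum.inr c) => Sum.inr (Sum.inr (Sum.inl c))
    | Sum.inr (Sum.inl z) => Sum.inr (Sum.inl z)
    | Sum.inr (Sum.inr q) => Sum.inr (Sum.inr (Sum.inr q))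
  invFun p := match p with
    | Sum.inl f => Sum.inl (Sum.inl f)
    | Sum.inr (Sum.inl z) => Sum.inr (Sum.inl z)
    | Sum.inr (Sum.inr (Sum.inl c)) => Sum.inl (Sum.inr c)
    | Sum.inr (Sum.inr (Sum.inr q)) => Sum.inr (Sum.inr q)
  left_inv := by rintro ((f | c) | (z | q)) <;> rfl
  right_inv := by rintro (f | z | c | q) <;> rfl

end pieces

theorem side1 {h l u c t : ℕ} {C Q T Y : Type} [Finite C] [Finite Q] [Finite T] [Finite Y]
    (hc1 : 1 ≤ c) (hch : c ≤ h) (hct : 2 * c + t ≤ h + 1)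
    (hC : Nat.card C = c) (hQ : Nat.card Q = h + 1 - c) (hT : Nat.card T = t)
    (hY : Nat.card Y = h + 1 - c - t) (hV : V3 h l u (2 * c + t) 0) :
    Side h l u C Q C (T ⊕ Y) fun x _ x' y' =>
      red x + red x' + red (fun s => y' (Sum.inl s)) = 0 := by
  have hYc : Nat.card Y = Nat.card (Fin c ⊕ Fin (h + 1 - 2 * c - t)) := by
    rw [Nat.card_sum, Nat.card_fin, Nat.card_fin, hY]; omega
  obtain ⟨eY⟩ := Finite.card_eq.mp hYc
  have kk := (hV (C ⊕ (C ⊕ T)) (Fin h ⊕ Fin (h + 1 - 2 * c - t))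
    (by rw [Nat.card_sum, Nat.card_sum, hC, hT]; omega)
    (by rw [Nat.card_sum, Nat.card_sum, Nat.card_sum, Nat.card_fin, Nat.card_fin, hC, hT]
        omega)).transport (v1 (Fin (h + 1 - 2 * c - t)) C (Fin h) T)
  refine ⟨C, Q, Fin h, Fin c, C ⊕ (T ⊕ Fin (h + 1 - 2 * c - t)), c, Equiv.refl _,
    (Equiv.sumCongr (Equiv.refl C) (Equiv.sumCongr (Equiv.refl T) eY)).trans
      (g1 (Fin c) (Fin (h + 1 - 2 * c - t)) C T), _, ∅, hc1, hch, hC, hQ, Nat.card_fin _,
    Nat.card_fin _, ?_, kk, Kill3.empty h l u _, ?_⟩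
  · rw [Nat.card_sum, Nat.card_sum, Nat.card_fin, hC, hT]; omega
  · intro x n1 y hP
    left
    have hP' : red (fun b => x (Sum.inl b)) + red (fun b => y (Sum.inr (Sum.inl b))) +
      red (fun s => y (Sum.inr (Sum.inr (Sum.inl s)))) = 0 := hP
    show red (fun f : C ⊕ (C ⊕ T) => (Sum.elim (fun j => x (Sum.inl j))
      (Sum.elim n1 fun n => y (Sum.inr n)) : C ⊕ (Fin h ⊕ (C ⊕ (T ⊕ Fin (h + 1 - 2 * c - t)))) →
        Bool) (v1 (Fin (h + 1 - 2 * c - t)) C (Fin h) T (Sum.inl f))) = 0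
    have e : red (fun f : C ⊕ (C ⊕ T) => (Sum.elim (fun j => x (Sum.inl j))
      (Sum.elim n1 fun n => y (Sum.inr n)) : C ⊕ (Fin h ⊕ (C ⊕ (T ⊕ Fin (h + 1 - 2 * c - t)))) →
        Bool) (v1 (Fin (h + 1 - 2 * c - t)) C (Fin h) T (Sum.inl f))) =
        red (fun b => x (Sum.inl b)) + (red (fun b => y (Sum.inr (Sum.inl b))) +
      red (fun s => y (Sum.inr (Sum.inr (Sum.inl s))))) := by
      rw [red_sum, red_sum]
      rfl
    rw [e]
    omega

theorem side3 {h l u c t : ℕ} {C Q T Y : Type} [Finite C] [Finite Q] [Finite T] [Finite Y]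
    (hc1 : 1 ≤ c) (hch : c ≤ h) (hct : 2 * c + t ≤ h + 1)
    (hC : Nat.card C = c) (hQ : Nat.card Q = h + 1 - c) (hT : Nat.card T = t)
    (hY : Nat.card Y = h + 1 - c - t) (hV : V3 h l u (2 * c + t) 0) :
    Side h l u C (T ⊕ Y) C Q fun x y x' _ =>
      red x + red x' + red (fun s => y (Sum.inl s)) = 0 := by
  have hYc : Nat.card Y = Nat.card (Fin c ⊕ Fin (h + 1 - 2 * c - t)) := by
    rw [Nat.card_sum, Nat.card_fin, Nat.card_fin, hY]; omega
  obtain ⟨eY⟩ := Finite.card_eq.mp hYc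
  have kk := (hV (C ⊕ (C ⊕ T)) (Fin h ⊕ Fin (h + 1 - 2 * c - t))
    (by rw [Nat.card_sum, Nat.card_sum, hC, hT]; omega)
    (by rw [Nat.card_sum, Nat.card_sum, Nat.card_sum, Nat.card_fin, Nat.card_fin, hC, hT]
        omega)).transport (v3 (Fin (h + 1 - 2 * c - t)) C (Fin h) T)
  refine ⟨C ⊕ (T ⊕ Fin (h + 1 - 2 * c - t)), Fin c, Fin h, Q, C, h + 1 - c,
    ((Equiv.sumCongr (Equiv.refl C) (Equiv.sumCongr (Equiv.refl T) eY)).trans
      (g1 (Fin c) (Fin (h + 1 - 2 * c - t)) C T)).trans (Equiv.sumComm _ _), Equiv.sumComm _ _,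
    _, ∅, by omega, by omega, ?_, ?_, Nat.card_fin _, hQ, ?_, kk, Kill3.empty h l u _, ?_⟩
  · rw [Nat.card_sum, Nat.card_sum, Nat.card_fin, hC, hT]; omega
  · rw [Nat.card_fin]; omega
  · rw [hC]; omega
  · intro x n1 y hP
    left
    have hP' : red (fun b => x (Sum.inl (Sum.inl b))) + red (fun b => y (Sum.inr b)) +
      red (fun s => x (Sum.inl (Sum.inr (Sum.inl s)))) = 0 := hP
    show red (fun f : C ⊕ (C ⊕ T) => (Sum.elim (fun j => x (Sum.inl j))
      (Sum.elim n1 fun n => y (Sum.inr n)) : (C ⊕ (T ⊕ Fin (h + 1 - 2 * c - t))) ⊕ (Fin h ⊕ C) →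
        Bool) (v3 (Fin (h + 1 - 2 * c - t)) C (Fin h) T (Sum.inl f))) = 0
    have e : red (fun f : C ⊕ (C ⊕ T) => (Sum.elim (fun j => x (Sum.inl j))
      (Sum.elim n1 fun n => y (Sum.inr n)) : (C ⊕ (T ⊕ Fin (h + 1 - 2 * c - t))) ⊕ (Fin h ⊕ C) →
        Bool) (v3 (Fin (h + 1 - 2 * c - t)) C (Fin h) T (Sum.inl f))) =
        red (fun b => x (Sum.inl (Sum.inl b))) + (red (fun b => y (Sum.inr b)) +
      red (fun s => x (Sum.inl (Sum.inr (Sum.inl s))))) := by
      rw [red_sum, red_sum]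
      rfl
    rw [e]
    omega

theorem side2 {h l u c t : ℕ} {C T Y : Type} [Finite C] [Finite T] [Finite Y]
    (hc1 : 1 ≤ c) (hch : 2 * c ≤ h + 1) (htc : t ≤ c)
    (hC : Nat.card C = c) (hT : Nat.card T = t)
    (hY : Nat.card Y = h + 1 - c - t) (hV : V3 h l u (2 * c + t) 0)
    (hW : ∀ p, 3 ≤ p → W3 h l u (3 * t) p) :
    Side h l u C (T ⊕ Y) C (T ⊕ Y) fun x y x' y' => red x = 0 ∧ red x' = 0 ∧
      1 ≤ red (fun s => y (Sum.inl s)) ∧ 1 ≤ red (fun s => y' (Sum.inl s)) := by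
  have hYc : Nat.card Y = Nat.card (Fin (c - t) ⊕ Fin (h + 1 - 2 * c)) := by
    rw [Nat.card_sum, Nat.card_fin, Nat.card_fin, hY]; omega
  obtain ⟨eY⟩ := Finite.card_eq.mp hYc
  have kk := (hV (C ⊕ (C ⊕ T)) (Fin (h - t) ⊕ Fin (h + 1 - 2 * c))
    (by rw [Nat.card_sum, Nat.card_sum, hC, hT]; omega)
    (by rw [Nat.card_sum, Nat.card_sum, Nat.card_sum, Nat.card_fin, Nat.card_fin, hC, hT]
        omega)).transport (v2 (Fin (h + 1 - 2 * c)) C T (Fin (h - t)))
  have k3 := kill3_test (h := h) (l := l) (u := u) (L := 3 * t)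
    (v4 (Fin (c - t)) T (Fin (h - t)) Y)
    (by rw [Nat.card_sum, Nat.card_sum, hT]; omega)
    (by rw [Nat.card_sum, Nat.card_sum, Nat.card_sum, Nat.card_sum, Nat.card_fin, Nat.card_fin, hT,
          hY]
        omega)
  refine ⟨C, T ⊕ Y, T ⊕ Fin (h - t), T ⊕ Fin (c - t), C ⊕ Fin (h + 1 - 2 * c), c, Equiv.refl _,
    (Equiv.sumCongr (Equiv.refl C) (Equiv.sumCongr (Equiv.refl T) eY)).trans
      (g2 (Fin (c - t)) (Fin (h + 1 - 2 * c)) C T), _, _, hc1, by omega, hC, ?_, ?_, ?_, ?_, kk,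
    k3, ?_⟩
  · rw [Nat.card_sum, hT, hY]; omega
  · rw [Nat.card_sum, hT, Nat.card_fin]; omega
  · rw [Nat.card_sum, hT, Nat.card_fin]; omega
  · rw [Nat.card_sum, hC, Nat.card_fin]; omega
  · intro x n1 y hP
    have hP' : red (fun b => x (Sum.inl b)) = 0 ∧ red (fun b => y (Sum.inr (Sum.inl b))) = 0 ∧
      1 ≤ red (fun s => x (Sum.inr (Sum.inl s))) ∧ 1 ≤ red (fun s => y (Sum.inl (Sum.inl s))) := hP
    obtain ⟨x1, x2, x3, x4⟩ := hP'
    by_cases hn : red (fun s : T => n1 (Sum.inl s)) = 0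
    · left
      show red (fun f : C ⊕ (C ⊕ T) => (Sum.elim (fun j => x (Sum.inl j))
        (Sum.elim n1 fun n => y (Sum.inr n)) :
          C ⊕ ((T ⊕ Fin (h - t)) ⊕ (C ⊕ Fin (h + 1 - 2 * c))) → Bool)
          (v2 (Fin (h + 1 - 2 * c)) C T (Fin (h - t)) (Sum.inl f))) = 0
      have e : red (fun f : C ⊕ (C ⊕ T) => (Sum.elim (fun j => x (Sum.inl j))
        (Sum.elim n1 fun n => y (Sum.inr n)) :
          C ⊕ ((T ⊕ Fin (h - t)) ⊕ (C ⊕ Fin (h + 1 - 2 * c))) → Bool)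
          (v2 (Fin (h + 1 - 2 * c)) C T (Fin (h - t)) (Sum.inl f))) =
          red (fun b => x (Sum.inl b)) + (red (fun b => y (Sum.inr (Sum.inl b))) +
        red (fun s => n1 (Sum.inl s))) := by
        rw [red_sum, red_sum]
        rfl
      rw [e]
      omega
    · right
      have e : red (fun f : T ⊕ (T ⊕ T) => (Sum.elim (fun j => x (Sum.inr j))
        (Sum.elim n1 fun n => y (Sum.inl n)) :
          (T ⊕ Y) ⊕ ((T ⊕ Fin (h - t)) ⊕ (T ⊕ Fin (c - t))) → Bool)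
          (v4 (Fin (c - t)) T (Fin (h - t)) Y (Sum.inl f))) =
          red (fun b => x (Sum.inr (Sum.inl b))) + (red (fun b => n1 (Sum.inl b)) +
        red (fun s => y (Sum.inl (Sum.inl s)))) := by
        rw [red_sum, red_sum]
        rfl
      show W3 h l u (3 * t) (red (fun f : T ⊕ (T ⊕ T) => (Sum.elim (fun j => x (Sum.inr j))
        (Sum.elim n1 fun n => y (Sum.inl n)) :
          (T ⊕ Y) ⊕ ((T ⊕ Fin (h - t)) ⊕ (T ⊕ Fin (c - t))) → Bool)
          (v4 (Fin (c - t)) T (Fin (h - t)) Y (Sum.inl f))))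
      rw [e]
      exact hW _ (by omega)

/-- **The middle for odd edge-connectivity.** `P` red edges among `m` alive edges. -/
theorem mid3G {h l u m c t P : ℕ} (hmc : m + c = h) (hc1 : 1 ≤ c) (htc : t ≤ c)
    (hct : 2 * c + t ≤ h + 1) (hlu : 2 * u < l + 2 * (P + 1)) (h2 : V3 h l u (2 * c + t) 0)
    (h3 : ∀ p, 3 ≤ p → W3 h l u (3 * t) p) : W3 h l u m P := by
  intro F R _ _ hF hR T hT
  have hP : ∀ p, P < p → W3 h l u h p := fun p hp => W3_top (by omega) le_rfl (by omega)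
  have cC : Nat.card (Fin c) = c := Nat.card_fin _
  have cT : Nat.card (Fin t) = t := Nat.card_fin _
  have cY : Nat.card (Fin (h + 1 - c - t)) = h + 1 - c - t := Nat.card_fin _
  have cQ : Nat.card (Fin t ⊕ Fin (h + 1 - c - t)) = h + 1 - c := by
    rw [Nat.card_sum, cT, cY]; omega
  -- the last vertex of the chain
  have k4 : K43 h l u F (Fin c) (Fin c) (Fin t ⊕ Fin (h + 1 - c - t))
      fun xm _ cc _ => xm ∈ T ∨ P + 1 ≤ red xm + red cc := by
    have hT1 : Kill3 h l u (F ⊕ (Fin c ⊕ (Fin c ⊕ (Fin t ⊕ Fin (h + 1 - c - t)))))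
        {x | (fun f => x (Sum.inl f)) ∈ T} := by
      refine kill3_rest ?_ hT
      rw [Nat.card_sum, Nat.card_sum, cQ, cC]; omega
    have hT2 := hT1.transport (Equiv.sumAssoc F (Fin c) (Fin c ⊕
        (Fin t ⊕ Fin (h + 1 - c - t)))).symm
    have hT3 := W3_seq' (h := h) (l := l) (u := u) (L := h) (F ⊕ Fin c) (Fin c ⊕
        (Fin t ⊕ Fin (h + 1 - c - t)))
      (by rw [Nat.card_sum, hF, cC]; omega)
      (by rw [Nat.card_sum, Nat.card_sum, hF, cQ, cC]; omega)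
      {w | (fun f => w (Sum.inl f)) ∈ T} hT2
    have hT4 := hT3.transport (eX3 (Fin c) F (Fin c) (Fin t ⊕ Fin (h + 1 - c - t)))
    refine hT4.mono ?_
    intro y hy
    have hy' : (fun f => y (Sum.inl f)) ∈ T ∨ P + 1 ≤ red (fun f => y (Sum.inl f)) +
      red (fun c => y (Sum.inr (Sum.inr (Sum.inl c)))) := hy
    rcases hy' with hy' | hy'
    · exact Or.inl hy'
    · right
      have e : red (fun f : F ⊕ Fin c => y (eX3 (Fin c) F (Fin c)
          (Fin t ⊕ Fin (h + 1 - c - t)) (Sum.inl f))) =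
          red (fun f => y (Sum.inl f)) + red (fun c => y (Sum.inr (Sum.inr (Sum.inl c)))) := by
        rw [red_sum]
        rfl
      show W3 h l u h (red (fun f : F ⊕ Fin c => y (eX3 (Fin c) F (Fin c)
          (Fin t ⊕ Fin (h + 1 - c - t)) (Sum.inl f))))
      rw [e]
      exact hP _ (by omega)
  have hAC : Nat.card F + Nat.card (Fin c) = h := by
    rw [hF, cC]; omega
  have d3 : Side h l u (Fin c) (Fin t ⊕ Fin (h + 1 - c - t)) (Fin c)
      (Fin t ⊕ Fin (h + 1 - c - t)) fun x y x' _ =>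
      red x + red x' + red (fun s => y (Sum.inl s)) = 0 :=
    side3 hc1 (by omega) hct cC cQ cT cY h2
  have d1 : Side h l u (Fin c) (Fin t ⊕ Fin (h + 1 - c - t)) (Fin c)
      (Fin t ⊕ Fin (h + 1 - c - t)) fun x _ x' y' =>
      red x + red x' + red (fun s => y' (Sum.inl s)) = 0 :=
    side1 hc1 (by omega) hct cC cQ cT cY h2
  have d2 : Side h l u (Fin c) (Fin t ⊕ Fin (h + 1 - c - t)) (Fin c)
      (Fin t ⊕ Fin (h + 1 - c - t)) fun x y x' y' => red x = 0 ∧ red x' = 0 ∧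
      1 ≤ red (fun s => y (Sum.inl s)) ∧ 1 ≤ red (fun s => y' (Sum.inl s)) :=
    side2 hc1 (by omega) htc cC cT cY h2 h3
  have k3 : K43 h l u F (Fin c) (Fin c) (Fin t ⊕ Fin (h + 1 - c - t))
      fun xm c2 c3 q2 => xm ∈ T ∨ (red xm = P ∧ 1 ≤ red c3) ∨
        (red xm = P ∧ red c2 = 0 ∧ red (fun s => q2 (Sum.inl s)) = 0) := by
    refine node3 hAC d3 k4 ?_
    intro a b c d hP0 w1 w2 c' d' w3 w4 w5 w6
    rcases hP0 with h | ⟨h, h'⟩ | ⟨h, h', h''⟩
    · exact Or.inr (Or.inl h)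
    · exfalso; omega
    · by_cases hc : red c' = 0
      · left; omega
      · right; right; omega
  have k2 : K43 h l u F (Fin c) (Fin c) (Fin t ⊕ Fin (h + 1 - c - t))
      fun xm c1 c2 q1 => xm ∈ T ∨ (red xm = P ∧ 1 ≤ red c2) ∨
        (red xm = P ∧ red c1 = 0 ∧ 1 ≤ red (fun s => q1 (Sum.inl s))) := by
    refine node3 hAC d2 k3 ?_
    intro a b c d hP0 w1 w2 c' d' w3 w4 w5 w6
    rcases hP0 with h | ⟨h, h'⟩ | ⟨h, h', h''⟩
    · exact Or.inr (Or.inl h)
    · exfalso; omega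
    · by_cases hc0 : 1 ≤ red c
      · exfalso; omega
      by_cases hc : 1 ≤ red c'
      · exact Or.inr (Or.inr (Or.inl ⟨h, hc⟩))
      by_cases hq : red (fun s => d' (Sum.inl s)) = 0
      · exact Or.inr (Or.inr (Or.inr ⟨h, by omega, hq⟩))
      · exact Or.inl ⟨h', by omega, h'', by omega⟩
  have k1 : K43 h l u F (Fin c) (Fin c) (Fin t ⊕ Fin (h + 1 - c - t))
      fun xm c0 _ _ => xm ∈ T ∨ (red xm = P ∧ red c0 = 0) := by
    refine node3 hAC d1 k2 ?_
    intro a b c d hP0 w1 w2 c' d' w3 w4 w5 w6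
    rcases hP0 with h | ⟨h, h'⟩
    · exact Or.inr (Or.inl h)
    · by_cases hc0 : 1 ≤ red c
      · exfalso; omega
      by_cases hc : 1 ≤ red c'
      · exact Or.inr (Or.inr (Or.inl ⟨h, hc⟩))
      by_cases hq : red (fun s => d' (Sum.inl s)) = 0
      · left; omega
      · exact Or.inr (Or.inr (Or.inr ⟨h, by omega, by omega⟩))
  -- the root
  have r1 := Kill3.transport (e := (Equiv.sumAssoc F (Fin c) (Fin c ⊕
        (Fin t ⊕ Fin (h + 1 - c - t)))).symm) k1
  have r2 : Kill3 h l u ((F ⊕ Fin c) ⊕ (Fin c ⊕ (Fin t ⊕ Fin (h + 1 - c - t))))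
      {x | (fun f => x (Sum.inl f)) ∈ {z : F ⊕ Fin c → Bool | (fun f => z (Sum.inl f)) ∈ T ∨
        (red (fun f => z (Sum.inl f)) = P ∧ red (fun c => z (Sum.inr c)) = 0)}} := r1
  have r3 := W3_seq' (h := h) (l := l) (u := u) (L := h) (F ⊕ Fin c) (Fin c ⊕
        (Fin t ⊕ Fin (h + 1 - c - t)))
      (by rw [Nat.card_sum, hF, cC]; omega)
      (by rw [Nat.card_sum, Nat.card_sum, hF, cQ, cC]; omega) _ r2
  have r4 := r3.transport (Equiv.sumAssoc F (Fin c) (Fin c ⊕ (Fin t ⊕ Fin (h + 1 - c - t))))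
  have r5 : Kill3 h l u (F ⊕ (Fin c ⊕ (Fin c ⊕ (Fin t ⊕ Fin (h + 1 - c - t)))))
      {x | (fun f => x (Sum.inl f)) ∈ {y : F → Bool | y ∈ T ∨ red y = P}} := by
    refine r4.mono ?_
    intro x hx
    have hx' : (fun f => x (Sum.inl f)) ∈ T ∨ red (fun f => x (Sum.inl f)) = P := hx
    have e : red (fun q : F ⊕ Fin c => x (Equiv.sumAssoc F (Fin c) (Fin c ⊕
        (Fin t ⊕ Fin (h + 1 - c - t))) (Sum.inl q))) =
        red (fun f => x (Sum.inl f)) + red (fun c => x (Sum.inr (Sum.inl c))) := by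
      rw [red_sum]
      rfl
    show ((fun f => x (Sum.inl f)) ∈ T ∨ (red (fun f => x (Sum.inl f)) = P ∧
      red (fun c => x (Sum.inr (Sum.inl c))) = 0)) ∨
      W3 h l u h (red (fun q : F ⊕ Fin c => x (Equiv.sumAssoc F (Fin c) (Fin c ⊕
        (Fin t ⊕ Fin (h + 1 - c - t))) (Sum.inl q))))
    rw [e]
    rcases hx' with hx' | hx'
    · exact Or.inl (Or.inl hx')
    · by_cases hc : red (fun c => x (Sum.inr (Sum.inl c))) = 0
      · exact Or.inl (Or.inr ⟨hx', hc⟩)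
      · exact Or.inr (hP _ (by omega))
  refine kill3_rest ?_ r5
  rw [Nat.card_sum, Nat.card_sum, cQ, cC]; omega

end Pool.Agent.Lib.MP_21a058_co.Slack3.Mid3K
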