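import Pool.Agent.Lib.MP_21a058_co.Slack3.Arith3_80
import Pool.Agent.Lib.MP_21a058_co.Slack3.Rule5
import Pool.Agent.Lib.MP_21a058_co.Slack3.Mid3K
import Pool.Agent.Lib.MP_21a058_co.Slack3.Mid3odd
import Pool.Agent.Lib.MP_21a058_co.Slack3.Gad3

/-! Odd `k = 2 h + 1`, window `2 d + 1 .. 2 d + 3`, `d ≥ 2`: everything is killable. -/

set_option autoImplicit false

namespace Pool.Agent.Lib.MP_21a058_co.Slack3.Final3_80

open Finset Pool.Agent.Lib.MP_21a058_co Pool.Agent.Lib.MP_21a058_co.Slack3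
open Pool.Agent.Lib.MP_21a058_co.Odd (red red_le)

theorem rules {h d : ℕ} (hd : 1 ≤ d) (hdh : d ≤ h) :
    Arith3_80.Rules h d (W3 h (2 * d + 1) (2 * d + 3)) where
  top := fun L p hL hp => Mid3K.W3_top (by omega) hL (by omega)
  bot := fun p hp => PP.base (by omega) le_rfl (by omega) (Or.inr (by omega))
  r2 := fun L p i j h1 h2 h3 H => W3_R2 (by omega) h1 h2 h3 H
  ru := fun L p i j h1 h2 h3 H => PP.R2 (by omega) (by omega) (i := i) (j := j) (by omega) (by omega)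
    (by omega) (by omega) (by omega) fun a b ha hb => by
      rw [PP.Wp_le h1, PP.Wp_le h2, h3, PP.Wp_top]
      by_cases hab : d ≤ a + b
      · rcases H a b ha hb hab with h4 | h4
        · exact Or.inl h4
        · exact Or.inr (Or.inl h4)
      · exact Or.inr (Or.inr (Or.inl (by omega)))
  rl := fun L p i j h0 h1 h2 h3 H => PP.R2 (by omega) (by omega) (i := i) (j := j) (by omega)
    (by omega) (by omega) (by omega) (by omega) fun a b ha hb => by
      rw [h1, PP.Wp_top, PP.Wp_le h2, PP.Wp_le h3]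
      by_cases hab : d ≤ p + a
      · exact Or.inr (H a b ha hb hab)
      · exact Or.inl (Or.inl (by omega))
  rll := fun L p i h0 hLh h1 h2 H => PP.R2 (by omega) (by omega) (i := i) (j := i) (by omega)
    (by omega) (by omega) (by omega) (by omega) fun a b ha hb => by
      rw [h1, PP.Wp_top, PP.Wp_top, PP.Wp_le h2]
      by_cases hab : d ≤ p + a
      · by_cases hab' : d ≤ p + b
        · exact Or.inr (Or.inr (H a b ha hb hab hab'))
        · exact Or.inr (Or.inl (Or.inl (by omega)))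
      · exact Or.inl (Or.inl (by omega))

theorem w00 {h d : ℕ} (hd : 2 ≤ d) (hh : 68 * (d + 1) < 2 * h + 1) :
    W3 h (2 * d + 1) (2 * d + 3) 0 0 :=
  Arith3_80.fin00 (rules (by omega) (by omega)) hd hh fun c h1 h2 w2 w3 =>
    Mid3odd.midO (c := c) (t := 11) (by omega) (by omega) h1 (by omega) (by omega) w2 w3

theorem kill_of_W3 {h l u : ℕ} (hW : W3 h l u 0 0) :
    Kill3 h l u (Fin 0 ⊕ Fin (2 * h + 1)) Set.univ := by
  have h1 := hW (Fin 0) (Fin (2 * h + 1)) (Nat.card_fin 0)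
    (by rw [Nat.card_fin, Nat.card_fin]; omega) ∅
    ((Kill3.empty h l u _).mono (by intro x hx; exact absurd hx (Set.notMem_empty _)))
  refine h1.mono ?_
  intro x _
  right
  have := red_le (fun f : Fin 0 => x (Sum.inl f))
  rw [Nat.card_fin] at this
  omega

/-- Odd `k`, two groups of sums `2 d + 1 ≥ 5` and `l'`. -/
theorem not_arrow_odd {h d l' r : ℕ} (hd : 2 ≤ d) (hh : 68 * (d + 1) < 2 * h + 1)
    (hl : 2 * d + 3 + l' = 2 * h + 1) (ks : Fin r → ℕ) (J : Finset (Fin r))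
    (hJ : ∑ i ∈ J, ks i = 2 * d + 1) (hJ' : ∑ i ∈ Jᶜ, ks i = l') : ¬ Arrow (2 * h + 1) ks :=
  Kill3.false_of_univ hl (kill_of_W3 (w00 hd hh))
    (by rw [Nat.card_sum, Nat.card_fin, Nat.card_fin]; omega) ks J hJ hJ'

/-- `a` odd, `a ≥ 5`, `b` even, `33 a + 33 ≤ b`: `a + b + 2` is not enough. -/
theorem fails_odd {a b r : ℕ} (ha : a % 2 = 1) (ha5 : 5 ≤ a) (hb : b % 2 = 0)
    (hab : 33 * a + 33 ≤ b) (ks : Fin r → ℕ) (J : Finset (Fin r))
    (hJ : ∑ i ∈ J, ks i = a) (hJ' : ∑ i ∈ Jᶜ, ks i = b) : ¬ Arrow (a + b + 2) ks := by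
  obtain ⟨d, hd⟩ : ∃ d, a = 2 * d + 1 := ⟨(a - 1) / 2, by omega⟩
  obtain ⟨h, hh⟩ : ∃ h, a + b + 2 = 2 * h + 1 := ⟨(a + b + 1) / 2, by omega⟩
  rw [hh]
  exact not_arrow_odd (d := d) (l' := b) (by omega) (by omega) (by omega) ks J (by rw [hJ, hd]) hJ'

end Pool.Agent.Lib.MP_21a058_co.Slack3.Final3_80

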