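import Pool.Agent.Lib.MP_21a058_co.Slack3.Rule3

/-! Odd edge-connectivity `2 h + 1`, window `2 d + 1 ≤ red ≤ 2 d + 3`: the node rule in numbers. -/

set_option autoImplicit false

namespace Pool.Agent.Lib.MP_21a058_co.Slack3.B3

open Pool.Agent.Lib.MP_21a058_co.Slack3
open Pool.Agent.Lib.MP_21a058_co.Odd (red red_sum red_equiv red_le)

/-- Some structure over `I` forces `A` on every good colouring. -/
def Fo (h d : ℕ) (I : Type) (A : (I → Bool) → Prop) : Prop :=
  Kill3 h (2 * d + 1) (2 * d + 3) I {x | ¬ A x}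

theorem Fo.mono {h d : ℕ} {I : Type} {A B : (I → Bool) → Prop} (hA : Fo h d I A)
    (hAB : ∀ x, A x → B x) : Fo h d I B :=
  Kill3.mono hA fun _ hx hA => hx (hAB _ hA)

theorem Fo.leaf (h d : ℕ) (I : Type) :
    Fo h d I (fun x => 2 * d + 1 ≤ red x ∧ red x ≤ 2 * d + 3) :=
  Kill3.leaf I _ fun x hx => by
    have hx' : ¬ (2 * d + 1 ≤ red x ∧ red x ≤ 2 * d + 3) := hx
    omega

theorem Fo.info {h d : ℕ} {I : Type} {A : (I → Bool) → Prop} (hA : Fo h d I A) :
    Fo h d I (fun x => (2 * d + 1 ≤ red x ∧ red x ≤ 2 * d + 3) ∧ A x) := by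
  refine Kill3.mono (Kill3.addBase hA) fun x hx => ?_
  have hx' : ¬ ((2 * d + 1 ≤ red x ∧ red x ≤ 2 * d + 3) ∧ A x) := hx
  by_cases hA : A x
  · right
    by_contra hcon
    exact hx' ⟨by omega, hA⟩
  · exact Or.inl hA

/-- The node rule in numbers. -/
theorem Fo.num {h d q : ℕ} {I J1 J2 J3 N1 N2 N3 : Type} [Finite J1] [Finite J2] [Finite J3]
    [Finite N1] [Finite N2] [Finite N3] (hq : 1 ≤ q) (hq' : q ≤ h)
    (c1 : Nat.card J1 = h) (c2 : Nat.card J2 = q) (c3 : Nat.card J3 = h + 1 - q)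
    (d1 : Nat.card N1 = h) (d2 : Nat.card N2 = q) (d3 : Nat.card N3 = h + 1 - q)
    (e : I ≃ J1 ⊕ (J2 ⊕ J3))
    {A : (J1 ⊕ (N2 ⊕ N3) → Bool) → Prop} {B : (J2 ⊕ (N1 ⊕ N3) → Bool) → Prop}
    {C : (J3 ⊕ (N1 ⊕ N2) → Bool) → Prop}
    (hA : Fo h d (J1 ⊕ (N2 ⊕ N3)) A) (hB : Fo h d (J2 ⊕ (N1 ⊕ N3)) B)
    (hC : Fo h d (J3 ⊕ (N1 ⊕ N2)) C) :
    Fo h d I (fun x => ∃ (n1 : N1 → Bool) (n2 : N2 → Bool) (n3 : N3 → Bool),
      (2 * d + 1 ≤ red (fun j => x (e.symm (Sum.inl j))) +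
        (red (fun j => x (e.symm (Sum.inr (Sum.inl j)))) +
          red (fun j => x (e.symm (Sum.inr (Sum.inr j))))) ∧
        red (fun j => x (e.symm (Sum.inl j))) +
        (red (fun j => x (e.symm (Sum.inr (Sum.inl j)))) +
          red (fun j => x (e.symm (Sum.inr (Sum.inr j))))) ≤ 2 * d + 3) ∧
      (2 * d + 1 ≤ red (fun j => x (e.symm (Sum.inl j))) + (red n2 + red n3) ∧
        red (fun j => x (e.symm (Sum.inl j))) + (red n2 + red n3) ≤ 2 * d + 3) ∧
      (2 * d + 1 ≤ red (fun j => x (e.symm (Sum.inr (Sum.inl j)))) + (red n1 + red n3) ∧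
        red (fun j => x (e.symm (Sum.inr (Sum.inl j)))) + (red n1 + red n3) ≤ 2 * d + 3) ∧
      (2 * d + 1 ≤ red (fun j => x (e.symm (Sum.inr (Sum.inr j)))) + (red n1 + red n2) ∧
        red (fun j => x (e.symm (Sum.inr (Sum.inr j)))) + (red n1 + red n2) ≤ 2 * d + 3) ∧
      (2 * d + 1 ≤ (red (fun j => x (e.symm (Sum.inr (Sum.inl j)))) +
          red (fun j => x (e.symm (Sum.inr (Sum.inr j))))) + red n2 + red n3 ∧
        (red (fun j => x (e.symm (Sum.inr (Sum.inl j)))) +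
          red (fun j => x (e.symm (Sum.inr (Sum.inr j))))) + red n2 + red n3 ≤ 2 * d + 3 + 1) ∧
      A (Sum.elim (fun j => x (e.symm (Sum.inl j))) (Sum.elim n2 n3)) ∧
      B (Sum.elim (fun j => x (e.symm (Sum.inr (Sum.inl j)))) (Sum.elim n1 n3)) ∧
      C (Sum.elim (fun j => x (e.symm (Sum.inr (Sum.inr j)))) (Sum.elim n1 n2))) := by
  refine Kill3.node I J1 J2 J3 N1 N2 N3 q hq hq' c1 c2 c3 d1 d2 d3 e _ _ _ _ hA.info hB.info
    hC.info fun x hx => ?_
  have r0 : red x = red (fun j => x (e.symm (Sum.inl j))) +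
      (red (fun j => x (e.symm (Sum.inr (Sum.inl j)))) +
        red (fun j => x (e.symm (Sum.inr (Sum.inr j))))) :=
    (red_equiv e.symm x).symm.trans ((red_sum _).trans (congrArg (_ + ·) (red_sum _)))
  have r23 : red (fun j => x (e.symm (Sum.inr j))) =
      red (fun j => x (e.symm (Sum.inr (Sum.inl j)))) +
        red (fun j => x (e.symm (Sum.inr (Sum.inr j)))) := red_sum _
  by_cases hg : 2 * d + 1 ≤ red x ∧ red x ≤ 2 * d + 3
  · right
    intro n1 n2 n3
    have s1 : red (Sum.elim (fun j => x (e.symm (Sum.inl j))) (Sum.elim n2 n3)) =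
        red (fun j => x (e.symm (Sum.inl j))) + (red n2 + red n3) :=
      (red_sum _).trans (congrArg (_ + ·) (red_sum _))
    have s2 : red (Sum.elim (fun j => x (e.symm (Sum.inr (Sum.inl j)))) (Sum.elim n1 n3)) =
        red (fun j => x (e.symm (Sum.inr (Sum.inl j)))) + (red n1 + red n3) :=
      (red_sum _).trans (congrArg (_ + ·) (red_sum _))
    have s3 : red (Sum.elim (fun j => x (e.symm (Sum.inr (Sum.inr j)))) (Sum.elim n1 n2)) =
        red (fun j => x (e.symm (Sum.inr (Sum.inr j)))) + (red n1 + red n2) :=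
      (red_sum _).trans (congrArg (_ + ·) (red_sum _))
    by_contra hcon
    obtain ⟨k1, hcon⟩ := not_or.1 hcon
    obtain ⟨k2, hcon⟩ := not_or.1 hcon
    obtain ⟨k3, k4⟩ := not_or.1 hcon
    obtain ⟨k1, k1'⟩ := Classical.not_not.1 k1
    obtain ⟨k2, k2'⟩ := Classical.not_not.1 k2
    obtain ⟨k3, k3'⟩ := Classical.not_not.1 k3
    rw [s1] at k1
    rw [s2] at k2
    rw [s3] at k3
    rw [r23] at k4
    exact hx ⟨n1, n2, n3, by omega, k1, k2, k3, by omega, k1', k2', k3'⟩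
  · left
    omega

/-- Refutable values do not occur. -/
theorem alive {h d L : ℕ} {S R I : Type} [Finite S] [Finite R]
    (hS : Nat.card S = L) (hR : Nat.card S + Nat.card R = 2 * h + 1) (e : S ⊕ R ≃ I) :
    Fo h d I (fun x => ¬ W3 h (2 * d + 1) (2 * d + 3) L (red (fun s => x (e (Sum.inl s))))) := by
  have k1 := W3_seq' (h := h) (l := 2 * d + 1) (u := 2 * d + 3) (L := L) S R hS hR ∅
    ((Kill3.empty h _ _ _).mono (by intro x hx; exact absurd hx (Set.notMem_empty _)))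
  refine Kill3.mono (k1.transport e) fun x hx => Or.inr ?_
  exact Classical.not_not.1 hx

/-- The killed set of the designated edges. -/
theorem Fo.ofT {h d : ℕ} {F R R' : Type} [Finite R] [Finite R'] {T : Set (F → Bool)}
    (hT : Kill3 h (2 * d + 1) (2 * d + 3) (F ⊕ R) {x | (fun f => x (Sum.inl f)) ∈ T})
    (hc : Nat.card R = Nat.card R') :
    Fo h d (F ⊕ R') (fun x => (fun f => x (Sum.inl f)) ∉ T) :=
  Kill3.mono (kill3_rest hc hT) fun _ hx => Classical.not_not.1 hx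

/-- A bound for the designated edges. -/
theorem Fo.toT {h d p : ℕ} {F R R' : Type} [Finite R] [Finite R'] {T : Set (F → Bool)}
    (hc : Nat.card R' = Nat.card R)
    (hT : Fo h d (F ⊕ R') (fun x => (fun f => x (Sum.inl f)) ∉ T ∧
      red (fun f => x (Sum.inl f)) ≠ p)) :
    Kill3 h (2 * d + 1) (2 * d + 3) (F ⊕ R)
      {x | (fun f => x (Sum.inl f)) ∈ T ∨ red (fun f => x (Sum.inl f)) = p} := by
  have f : Kill3 h (2 * d + 1) (2 * d + 3) (F ⊕ R')
      {x | (fun i => x (Sum.inl i)) ∈ {y : F → Bool | y ∈ T ∨ red y = p}} := by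
    refine Kill3.mono hT fun x hx => ?_
    intro hcon
    rcases hx with hx | hx
    · exact hcon.1 hx
    · exact hcon.2 hx
  exact kill3_rest hc f

end Pool.Agent.Lib.MP_21a058_co.Slack3.B3
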