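import Pool.Agent.Lib.MP_21a058_co.Slack3.Arith

/-! Window `3 ≤ red ≤ 5`, `K = 2 c + 4`, `10 ≤ c`: three red edges in an alive set of `K / 2 + 2`
edges are refutable, hence everything is killable. -/

set_option autoImplicit false

namespace Pool.Agent.Lib.MP_21a058_co.Slack3

open Pool.Agent.Lib.MP_21a058_co.Odd (red red_sum red_equiv red_le)

theorem kill_false {K l u : ℕ} {I : Type} {A : Set (I → Bool)} (hA : ∀ x, x ∉ A) :
    Kill K l u I A :=
  (Kill.empty K l u I).mono fun x hx => absurd hx (hA x)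

/-- A half without red edges. -/
theorem zero_half {K : ℕ} (A B : Type) [Finite A] [Finite B] (hA : Nat.card A = K)
    (hB : Nat.card B = K) : Kill K 3 5 (A ⊕ B) {x | red (fun a => x (Sum.inl a)) = 0} := by
  have h := (w_K0 (K := K)) A B hA (by omega) ∅ (kill_false fun x hx => hx)
  exact h.mono fun x hx => Or.inr hx

/-- The bundle at a vertex: known edges, four designated edges, the rest, on both sides. -/
def e3 (c : ℕ) : ((Fin c ⊕ Fin c) ⊕ Fin 4) ⊕ (Fin c ⊕ (Fin 4 ⊕ Fin c)) ≃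
    (Fin c ⊕ (Fin 4 ⊕ Fin c)) ⊕ (Fin c ⊕ (Fin 4 ⊕ Fin c)) where
  toFun p := match p with
    | Sum.inl (Sum.inl (Sum.inl a)) => Sum.inl (Sum.inl a)
    | Sum.inl (Sum.inl (Sum.inr a)) => Sum.inr (Sum.inl a)
    | Sum.inl (Sum.inr t) => Sum.inl (Sum.inr (Sum.inl t))
    | Sum.inr (Sum.inl a) => Sum.inl (Sum.inr (Sum.inr a))
    | Sum.inr (Sum.inr (Sum.inl t)) => Sum.inr (Sum.inr (Sum.inl t))
    | Sum.inr (Sum.inr (Sum.inr a)) => Sum.inr (Sum.inr (Sum.inr a))
  invFun p := match p with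
    | Sum.inl (Sum.inl a) => Sum.inl (Sum.inl (Sum.inl a))
    | Sum.inr (Sum.inl a) => Sum.inl (Sum.inl (Sum.inr a))
    | Sum.inl (Sum.inr (Sum.inl t)) => Sum.inl (Sum.inr t)
    | Sum.inl (Sum.inr (Sum.inr a)) => Sum.inr (Sum.inl a)
    | Sum.inr (Sum.inr (Sum.inl t)) => Sum.inr (Sum.inr (Sum.inl t))
    | Sum.inr (Sum.inr (Sum.inr a)) => Sum.inr (Sum.inr (Sum.inr a))
  left_inv := by rintro (((a | a) | t) | (a | (t | a))) <;> rfl
  right_inv := by rintro ((a | (t | a)) | (a | (t | a))) <;> rfl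

/-- The four designated edges on the first side are not all blue. -/
theorem kV3 {K c : ℕ} (hK : K = 2 * c + 4) :
    Kill K 3 5 ((Fin c ⊕ (Fin 4 ⊕ Fin c)) ⊕ (Fin c ⊕ (Fin 4 ⊕ Fin c)))
      {x | red (fun a => x (Sum.inl (Sum.inl a))) = 0 ∧ red (fun a => x (Sum.inr (Sum.inl a))) = 0 ∧
        red (fun a => x (Sum.inl (Sum.inr (Sum.inl a)))) = 0} := by
  have h := zero_half (K := K) ((Fin c ⊕ Fin c) ⊕ Fin 4) (Fin c ⊕ (Fin 4 ⊕ Fin c))
    (by rw [Nat.card_sum, Nat.card_sum, Nat.card_fin, Nat.card_fin]; omega)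
    (by rw [Nat.card_sum, Nat.card_sum, Nat.card_fin, Nat.card_fin]; omega)
  refine (h.transport (e3 c)).mono ?_
  intro x hx
  obtain ⟨h1, h2, h3⟩ := hx
  show red (fun a : (Fin c ⊕ Fin c) ⊕ Fin 4 => x (e3 c (Sum.inl a))) = 0
  rw [red_sum, red_sum]
  have g1 : red (fun a : Fin c => x (e3 c (Sum.inl (Sum.inl (Sum.inl a))))) = 0 := h1
  have g2 : red (fun a : Fin c => x (e3 c (Sum.inl (Sum.inl (Sum.inr a))))) = 0 := h2
  have g3 : red (fun a : Fin 4 => x (e3 c (Sum.inl (Sum.inr a)))) = 0 := h3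
  rw [g1, g2, g3]

/-- The four designated edges on the second side are not all blue. -/
theorem kV1 {K c : ℕ} (hK : K = 2 * c + 4) :
    Kill K 3 5 ((Fin c ⊕ (Fin 4 ⊕ Fin c)) ⊕ (Fin c ⊕ (Fin 4 ⊕ Fin c)))
      {x | red (fun a => x (Sum.inl (Sum.inl a))) = 0 ∧ red (fun a => x (Sum.inr (Sum.inl a))) = 0 ∧
        red (fun a => x (Sum.inr (Sum.inr (Sum.inl a)))) = 0} := by
  refine ((kV3 hK).transport (Equiv.sumComm _ _)).mono ?_
  intro x hx
  exact ⟨hx.2.1, hx.1, hx.2.2⟩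

/-- The designated edges on both sides do not both contain a red edge. -/
theorem kV2' {K c : ℕ} (hc : 10 ≤ c) (hK : K = 2 * c + 4) :
    Kill K 3 5 (((Fin c ⊕ Fin c) ⊕ (Fin 4 ⊕ Fin 4)) ⊕ (Fin 4 ⊕ Fin (2 * c - 4)))
      {x | red (fun a => x (Sum.inl (Sum.inl a))) = 0 ∧
        1 ≤ red (fun a => x (Sum.inl (Sum.inr (Sum.inl a)))) ∧
        1 ≤ red (fun a => x (Sum.inl (Sum.inr (Sum.inr a))))} := by
  have hNc : Nat.card (Fin K) = Nat.card (Fin 4 ⊕ Fin (2 * c)) := by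
    rw [Nat.card_sum, Nat.card_fin, Nat.card_fin, Nat.card_fin]
    omega
  obtain ⟨eN⟩ := Finite.card_eq.mp hNc
  -- first vertex: known edges, four root edges, four new edges
  have k1 := zero_half (K := K) ((Fin c ⊕ Fin c) ⊕ Fin 4) (Fin 4 ⊕ Fin (2 * c))
    (by rw [Nat.card_sum, Nat.card_sum, Nat.card_fin, Nat.card_fin]; omega)
    (by rw [Nat.card_sum, Nat.card_fin, Nat.card_fin]; omega)
  have k1' := k1.transport ((Equiv.sumSumSumComm (Fin c ⊕ Fin c) (Fin 4) (Fin 4)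
    (Fin (2 * c))).trans (Equiv.sumCongr (Equiv.refl _) eN.symm))
  -- second vertex: twelve designated edges
  have k2 := W_seq' (K := K) (l := 3) (u := 5) (L := 12) ((Fin 4 ⊕ Fin 4) ⊕ Fin 4)
    (Fin (2 * c - 4) ⊕ Fin (2 * c))
    (by rw [Nat.card_sum, Nat.card_sum, Nat.card_fin])
    (by rw [Nat.card_sum, Nat.card_sum, Nat.card_sum, Nat.card_fin, Nat.card_fin, Nat.card_fin]
        omega) ∅ (kill_false fun x hx => hx)
  have k2' := k2.transport ((Equiv.sumSumSumComm (Fin 4 ⊕ Fin 4) (Fin 4) (Fin (2 * c - 4))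
    (Fin (2 * c))).trans (Equiv.sumCongr (Equiv.refl _) eN.symm))
  refine Kill.node _ ((Fin c ⊕ Fin c) ⊕ Fin 4) ((Fin 4 ⊕ Fin 4) ⊕ Fin (2 * c - 4)) ?_ ?_
    (Equiv.sumSumSumComm (Fin c ⊕ Fin c) (Fin 4 ⊕ Fin 4) (Fin 4) (Fin (2 * c - 4))) _ _ _ k1' k2' ?_
  · rw [Nat.card_sum, Nat.card_sum, Nat.card_fin, Nat.card_fin]; omega
  · rw [Nat.card_sum, Nat.card_sum, Nat.card_fin, Nat.card_fin]; omega
  · intro x hx
    obtain ⟨h1, h2, h3⟩ := hx
    right
    intro n
    by_cases hn : red (fun b : Fin 4 => n (eN.symm (Sum.inl b))) = 0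
    · left
      have e : red (fun q : (Fin c ⊕ Fin c) ⊕ Fin 4 => (Sum.elim (fun j => x
          ((Equiv.sumSumSumComm (Fin c ⊕ Fin c) (Fin 4 ⊕ Fin 4) (Fin 4)
          (Fin (2 * c - 4))).symm (Sum.inl j))) n :
            ((Fin c ⊕ Fin c) ⊕ Fin 4) ⊕ Fin K → Bool)
          (((Equiv.sumSumSumComm (Fin c ⊕ Fin c) (Fin 4) (Fin 4) (Fin (2 * c))).trans
          (Equiv.sumCongr (Equiv.refl _) eN.symm)) (Sum.inl q))) =
          red (fun a => x (Sum.inl (Sum.inl a))) + red (fun b : Fin 4 => n (eN.symm (Sum.inl b))) := by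
        rw [red_sum]
        rfl
      show red (fun q : (Fin c ⊕ Fin c) ⊕ Fin 4 => (Sum.elim (fun j => x
          ((Equiv.sumSumSumComm (Fin c ⊕ Fin c) (Fin 4 ⊕ Fin 4) (Fin 4)
          (Fin (2 * c - 4))).symm (Sum.inl j))) n :
            ((Fin c ⊕ Fin c) ⊕ Fin 4) ⊕ Fin K → Bool)
          (((Equiv.sumSumSumComm (Fin c ⊕ Fin c) (Fin 4) (Fin 4) (Fin (2 * c))).trans
          (Equiv.sumCongr (Equiv.refl _) eN.symm)) (Sum.inl q))) = 0
      rw [e, h1, hn]
    · right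
      refine Or.inr ?_
      have e : red (fun q : (Fin 4 ⊕ Fin 4) ⊕ Fin 4 => (Sum.elim (fun j => x
          ((Equiv.sumSumSumComm (Fin c ⊕ Fin c) (Fin 4 ⊕ Fin 4) (Fin 4)
          (Fin (2 * c - 4))).symm (Sum.inr j))) n :
            ((Fin 4 ⊕ Fin 4) ⊕ Fin (2 * c - 4)) ⊕ Fin K → Bool)
          (((Equiv.sumSumSumComm (Fin 4 ⊕ Fin 4) (Fin 4) (Fin (2 * c - 4)) (Fin (2 * c))).trans
          (Equiv.sumCongr (Equiv.refl _) eN.symm)) (Sum.inl q))) =
          (red (fun a => x (Sum.inl (Sum.inr (Sum.inl a)))) +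
            red (fun a => x (Sum.inl (Sum.inr (Sum.inr a))))) +
          red (fun b : Fin 4 => n (eN.symm (Sum.inl b))) := by
        rw [red_sum, red_sum]
        rfl
      have hw : W K 3 5 12 ((red (fun a => x (Sum.inl (Sum.inr (Sum.inl a)))) +
            red (fun a => x (Sum.inl (Sum.inr (Sum.inr a))))) +
          red (fun b : Fin 4 => n (eN.symm (Sum.inl b)))) := by
        by_cases h4 : (red (fun a => x (Sum.inl (Sum.inr (Sum.inl a)))) +
            red (fun a => x (Sum.inl (Sum.inr (Sum.inr a))))) +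
          red (fun b : Fin 4 => n (eN.symm (Sum.inl b))) = 3
        · rw [h4]
          exact w_half3 (by omega)
        · exact w_ge4 (by omega) (by omega)
      rw [← e] at hw
      exact hw

/-- Sorting the two sides. -/
def e2 (c : ℕ) : ((Fin c ⊕ Fin c) ⊕ (Fin 4 ⊕ Fin 4)) ⊕ (Fin c ⊕ Fin c) ≃
    (Fin c ⊕ (Fin 4 ⊕ Fin c)) ⊕ (Fin c ⊕ (Fin 4 ⊕ Fin c)) where
  toFun p := match p with
    | Sum.inl (Sum.inl (Sum.inl a)) => Sum.inl (Sum.inl a)
    | Sum.inl (Sum.inl (Sum.inr a)) => Sum.inr (Sum.inl a)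
    | Sum.inl (Sum.inr (Sum.inl t)) => Sum.inl (Sum.inr (Sum.inl t))
    | Sum.inl (Sum.inr (Sum.inr t)) => Sum.inr (Sum.inr (Sum.inl t))
    | Sum.inr (Sum.inl a) => Sum.inl (Sum.inr (Sum.inr a))
    | Sum.inr (Sum.inr a) => Sum.inr (Sum.inr (Sum.inr a))
  invFun p := match p with
    | Sum.inl (Sum.inl a) => Sum.inl (Sum.inl (Sum.inl a))
    | Sum.inr (Sum.inl a) => Sum.inl (Sum.inl (Sum.inr a))
    | Sum.inl (Sum.inr (Sum.inl t)) => Sum.inl (Sum.inr (Sum.inl t))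
    | Sum.inr (Sum.inr (Sum.inl t)) => Sum.inl (Sum.inr (Sum.inr t))
    | Sum.inl (Sum.inr (Sum.inr a)) => Sum.inr (Sum.inl a)
    | Sum.inr (Sum.inr (Sum.inr a)) => Sum.inr (Sum.inr a)
  left_inv := by rintro (((a | a) | (t | t)) | (a | a)) <;> rfl
  right_inv := by rintro ((a | (t | a)) | (a | (t | a))) <;> rfl

theorem kV2 {K c : ℕ} (hc : 10 ≤ c) (hK : K = 2 * c + 4) :
    Kill K 3 5 ((Fin c ⊕ (Fin 4 ⊕ Fin c)) ⊕ (Fin c ⊕ (Fin 4 ⊕ Fin c)))
      {x | red (fun a => x (Sum.inl (Sum.inl a))) = 0 ∧ red (fun a => x (Sum.inr (Sum.inl a))) = 0 ∧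
        1 ≤ red (fun a => x (Sum.inl (Sum.inr (Sum.inl a)))) ∧
        1 ≤ red (fun a => x (Sum.inr (Sum.inr (Sum.inl a))))} := by
  have h := kV2' hc hK
  have h' : Kill K 3 5 (((Fin c ⊕ Fin c) ⊕ (Fin 4 ⊕ Fin 4)) ⊕ (Fin c ⊕ Fin c))
      {x | (fun f => x (Sum.inl f)) ∈ {y : (Fin c ⊕ Fin c) ⊕ (Fin 4 ⊕ Fin 4) → Bool |
        red (fun a => y (Sum.inl a)) = 0 ∧ 1 ≤ red (fun a => y (Sum.inr (Sum.inl a))) ∧
        1 ≤ red (fun a => y (Sum.inr (Sum.inr a)))}} :=
    kill_rest (by rw [Nat.card_sum, Nat.card_sum, Nat.card_fin, Nat.card_fin, Nat.card_fin]; omega) h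
  refine (h'.transport (e2 c)).mono ?_
  intro x hx
  obtain ⟨h1, h2, h3, h4⟩ := hx
  refine ⟨?_, h3, h4⟩
  show red (fun a : Fin c ⊕ Fin c => x (e2 c (Sum.inl (Sum.inl a)))) = 0
  rw [red_sum]
  have g1 : red (fun a : Fin c => x (e2 c (Sum.inl (Sum.inl (Sum.inl a))))) = 0 := h1
  have g2 : red (fun a : Fin c => x (e2 c (Sum.inl (Sum.inl (Sum.inr a))))) = 0 := h2
  rw [g1, g2]

/-- The node of the main chain. -/
def eM (M : Type) (c : ℕ) : M ⊕ (Fin c ⊕ (Fin c ⊕ (Fin 4 ⊕ Fin c))) ≃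
    (Fin c ⊕ (Fin 4 ⊕ Fin c)) ⊕ (M ⊕ Fin c) where
  toFun p := match p with
    | Sum.inl m => Sum.inr (Sum.inl m)
    | Sum.inr (Sum.inl a) => Sum.inl (Sum.inl a)
    | Sum.inr (Sum.inr (Sum.inl b)) => Sum.inr (Sum.inr b)
    | Sum.inr (Sum.inr (Sum.inr q)) => Sum.inl (Sum.inr q)
  invFun p := match p with
    | Sum.inr (Sum.inl m) => Sum.inl m
    | Sum.inl (Sum.inl a) => Sum.inr (Sum.inl a)
    | Sum.inr (Sum.inr b) => Sum.inr (Sum.inr (Sum.inl b))
    | Sum.inl (Sum.inr q) => Sum.inr (Sum.inr (Sum.inr q))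
  left_inv := by rintro (m | (a | (b | q))) <;> rfl
  right_inv := by rintro ((a | q) | (m | b)) <;> rfl

/-- One step of the main chain, in numbers. -/
theorem step {K l u c : ℕ} (hK : K = 2 * c + 4) (M : Type) [Finite M] (hM : Nat.card M = c + 4)
    (V : ℕ → ℕ → ℕ → ℕ → ℕ → ℕ → Prop) (S' S : (M → Bool) → ℕ → ℕ → ℕ → ℕ → Prop)
    (kV : Kill K l u ((Fin c ⊕ (Fin 4 ⊕ Fin c)) ⊕ (Fin c ⊕ (Fin 4 ⊕ Fin c)))
      {x | V (red fun a => x (Sum.inl (Sum.inl a))) (red fun a => x (Sum.inl (Sum.inr (Sum.inl a))))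
        (red fun a => x (Sum.inl (Sum.inr (Sum.inr a)))) (red fun a => x (Sum.inr (Sum.inl a)))
        (red fun a => x (Sum.inr (Sum.inr (Sum.inl a))))
        (red fun a => x (Sum.inr (Sum.inr (Sum.inr a))))})
    (kS : Kill K l u (M ⊕ (Fin c ⊕ (Fin c ⊕ (Fin 4 ⊕ Fin c))))
      {x | S' (fun m => x (Sum.inl m)) (red fun a => x (Sum.inr (Sum.inl a)))
        (red fun a => x (Sum.inr (Sum.inr (Sum.inl a))))
        (red fun a => x (Sum.inr (Sum.inr (Sum.inr (Sum.inl a)))))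
        (red fun a => x (Sum.inr (Sum.inr (Sum.inr (Sum.inr a)))))})
    (h : ∀ (m : M → Bool) (a b t s : ℕ), S m a b t s →
      (red m + (a + (b + (t + s))) < l ∨ u < red m + (a + (b + (t + s)))) ∨
      ∀ b' t' s' : ℕ, (V a t s b' t' s' ∨ ((a + (t + s)) + (b' + (t' + s')) < l ∨
        u < (a + (t + s)) + (b' + (t' + s')))) ∨
        (S' m b b' t' s' ∨ (red m + (b + (b' + (t' + s'))) < l ∨
          u < red m + (b + (b' + (t' + s')))))) :
    Kill K l u (M ⊕ (Fin c ⊕ (Fin c ⊕ (Fin 4 ⊕ Fin c))))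
      {x | S (fun m => x (Sum.inl m)) (red fun a => x (Sum.inr (Sum.inl a)))
        (red fun a => x (Sum.inr (Sum.inr (Sum.inl a))))
        (red fun a => x (Sum.inr (Sum.inr (Sum.inr (Sum.inl a)))))
        (red fun a => x (Sum.inr (Sum.inr (Sum.inr (Sum.inr a)))))} := by
  have hNc : Nat.card (Fin K) = Nat.card (Fin c ⊕ (Fin 4 ⊕ Fin c)) := by
    rw [Nat.card_sum, Nat.card_sum, Nat.card_fin, Nat.card_fin, Nat.card_fin]
    omega
  obtain ⟨eN⟩ := Finite.card_eq.mp hNc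
  have k1 := kV.addBase.transport (Equiv.sumCongr (Equiv.refl (Fin c ⊕ (Fin 4 ⊕ Fin c))) eN.symm)
  have k2 := kS.addBase.transport ((Equiv.sumAssoc M (Fin c) (Fin c ⊕ (Fin 4 ⊕ Fin c))).symm.trans
    (Equiv.sumCongr (Equiv.refl (M ⊕ Fin c)) eN.symm))
  refine Kill.node _ (Fin c ⊕ (Fin 4 ⊕ Fin c)) (M ⊕ Fin c) ?_ ?_ (eM M c) _ _ _ k1 k2 ?_
  · rw [Nat.card_sum, Nat.card_sum, Nat.card_fin, Nat.card_fin]; omega
  · rw [Nat.card_sum, Nat.card_fin, hM]; omega
  · intro x hx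
    have ex : red x = red (fun m => x (Sum.inl m)) + (red (fun a => x (Sum.inr (Sum.inl a))) +
        (red (fun a => x (Sum.inr (Sum.inr (Sum.inl a)))) +
        (red (fun a => x (Sum.inr (Sum.inr (Sum.inr (Sum.inl a))))) +
          red (fun a => x (Sum.inr (Sum.inr (Sum.inr (Sum.inr a)))))))) := by
      rw [red_sum x, red_sum (fun q => x (Sum.inr q)), red_sum (fun q => x (Sum.inr (Sum.inr q))),
        red_sum (fun q => x (Sum.inr (Sum.inr (Sum.inr q))))]
    rcases h _ _ _ _ _ hx with h1 | h1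
    · left
      rw [ex]
      exact h1
    · right
      intro n
      have h2 := h1 (red fun a => n (eN.symm (Sum.inl a)))
        (red fun a => n (eN.symm (Sum.inr (Sum.inl a))))
        (red fun a => n (eN.symm (Sum.inr (Sum.inr a))))
      rcases h2 with h2 | h2
      · left
        rcases h2 with h2 | h2
        · exact Or.inl h2
        · refine Or.inr ?_
          have e1 : ∀ y : (Fin c ⊕ (Fin 4 ⊕ Fin c)) ⊕ (Fin c ⊕ (Fin 4 ⊕ Fin c)) → Bool, red y =
              (red (fun a => y (Sum.inl (Sum.inl a))) +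
                (red (fun a => y (Sum.inl (Sum.inr (Sum.inl a)))) +
                  red (fun a => y (Sum.inl (Sum.inr (Sum.inr a)))))) +
              (red (fun a => y (Sum.inr (Sum.inl a))) +
                (red (fun a => y (Sum.inr (Sum.inr (Sum.inl a)))) +
                  red (fun a => y (Sum.inr (Sum.inr (Sum.inr a)))))) := by
            intro y
            rw [red_sum y, red_sum (fun q => y (Sum.inl q)), red_sum (fun q => y (Sum.inr q)),
              red_sum (fun q => y (Sum.inl (Sum.inr q))), red_sum (fun q => y (Sum.inr (Sum.inr q)))]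
          rw [e1]
          exact h2
      · right
        rcases h2 with h2 | h2
        · exact Or.inl h2
        · refine Or.inr ?_
          have e1 : ∀ y : M ⊕ (Fin c ⊕ (Fin c ⊕ (Fin 4 ⊕ Fin c))) → Bool, red y =
              red (fun m => y (Sum.inl m)) + (red (fun a => y (Sum.inr (Sum.inl a))) +
              (red (fun a => y (Sum.inr (Sum.inr (Sum.inl a)))) +
              (red (fun a => y (Sum.inr (Sum.inr (Sum.inr (Sum.inl a))))) +
                red (fun a => y (Sum.inr (Sum.inr (Sum.inr (Sum.inr a)))))))) := by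
            intro y
            rw [red_sum y, red_sum (fun q => y (Sum.inr q)),
              red_sum (fun q => y (Sum.inr (Sum.inr q))),
              red_sum (fun q => y (Sum.inr (Sum.inr (Sum.inr q))))]
          rw [e1]
          exact h2

/-- Three red edges in an alive set of `K / 2 + 2` edges are refutable. -/
theorem W_mid {K c : ℕ} (hc : 10 ≤ c) (hK : K = 2 * c + 4) : W K 3 5 (c + 4) 3 := by
  intro M R _ _ hM hR T hT
  have k5 : Kill K 3 5 (M ⊕ (Fin c ⊕ (Fin c ⊕ (Fin 4 ⊕ Fin c)))) {x | (fun f => x (Sum.inl f)) ∈ T} :=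
    kill_rest (by
      rw [Nat.card_sum, Nat.card_sum, Nat.card_sum, Nat.card_fin, Nat.card_fin]
      omega) hT
  have k4 := step hK M hM (fun _ _ _ _ _ _ => False) (fun m _ _ _ _ => m ∈ T)
    (fun m _ b _ _ => m ∈ T ∨ (red m = 3 ∧ 1 ≤ b)) (kill_false fun x hx => hx) k5 (by
      intro m a b t s hS
      rcases hS with hS | ⟨h1, h2⟩
      · exact Or.inr fun b' t' s' => Or.inr (Or.inl hS)
      · by_cases hw : red m + (a + (b + (t + s))) < 3 ∨ 5 < red m + (a + (b + (t + s)))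
        · exact Or.inl hw
        · right
          intro b' t' s'
          by_cases hd : (a + (t + s)) + (b' + (t' + s')) < 3 ∨ 5 < (a + (t + s)) + (b' + (t' + s'))
          · exact Or.inl (Or.inr hd)
          · exact Or.inr (Or.inr (by omega)))
  have k3 := step hK M hM (fun a t _ b' _ _ => a = 0 ∧ b' = 0 ∧ t = 0)
    (fun m _ b _ _ => m ∈ T ∨ (red m = 3 ∧ 1 ≤ b))
    (fun m a b t _ => m ∈ T ∨ (red m = 3 ∧ (1 ≤ b ∨ (a = 0 ∧ t = 0)))) (kV3 hK) k4 (by
      intro m a b t s hS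
      rcases hS with hS | ⟨h1, h2⟩
      · exact Or.inr fun b' t' s' => Or.inr (Or.inl (Or.inl hS))
      · by_cases hw : red m + (a + (b + (t + s))) < 3 ∨ 5 < red m + (a + (b + (t + s)))
        · exact Or.inl hw
        · right
          intro b' t' s'
          by_cases hd : (a + (t + s)) + (b' + (t' + s')) < 3 ∨ 5 < (a + (t + s)) + (b' + (t' + s'))
          · exact Or.inl (Or.inr hd)
          · rcases h2 with h2 | h2
            · exact Or.inr (Or.inr (by omega))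
            · by_cases hb : 1 ≤ b'
              · exact Or.inr (Or.inl (Or.inr ⟨h1, hb⟩))
              · exact Or.inl (Or.inl ⟨h2.1, by omega, h2.2⟩))
  have k2 := step hK M hM (fun a t _ b' t' _ => a = 0 ∧ b' = 0 ∧ 1 ≤ t ∧ 1 ≤ t')
    (fun m a b t _ => m ∈ T ∨ (red m = 3 ∧ (1 ≤ b ∨ (a = 0 ∧ t = 0))))
    (fun m a b t _ => m ∈ T ∨ (red m = 3 ∧ (1 ≤ b ∨ (a = 0 ∧ 1 ≤ t)))) (kV2 hc hK) k3 (by
      intro m a b t s hS
      rcases hS with hS | ⟨h1, h2⟩
      · exact Or.inr fun b' t' s' => Or.inr (Or.inl (Or.inl hS))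
      · by_cases hw : red m + (a + (b + (t + s))) < 3 ∨ 5 < red m + (a + (b + (t + s)))
        · exact Or.inl hw
        · right
          intro b' t' s'
          by_cases hd : (a + (t + s)) + (b' + (t' + s')) < 3 ∨ 5 < (a + (t + s)) + (b' + (t' + s'))
          · exact Or.inl (Or.inr hd)
          · by_cases hb0 : 1 ≤ b
            · exact Or.inr (Or.inr (by omega))
            · rcases h2 with h2 | h2
              · exact absurd h2 hb0
              · by_cases hb : 1 ≤ b'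
                · exact Or.inr (Or.inl (Or.inr ⟨h1, Or.inl hb⟩))
                · by_cases ht : 1 ≤ t'
                  · exact Or.inl (Or.inl ⟨h2.1, by omega, h2.2, ht⟩)
                  · exact Or.inr (Or.inl (Or.inr ⟨h1, Or.inr ⟨by omega, by omega⟩⟩)))
  have k1 := step hK M hM (fun a _ _ b' t' _ => a = 0 ∧ b' = 0 ∧ t' = 0)
    (fun m a b t _ => m ∈ T ∨ (red m = 3 ∧ (1 ≤ b ∨ (a = 0 ∧ 1 ≤ t))))
    (fun m a b _ _ => m ∈ T ∨ (red m = 3 ∧ (1 ≤ b ∨ a = 0))) (kV1 hK) k2 (by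
      intro m a b t s hS
      rcases hS with hS | ⟨h1, h2⟩
      · exact Or.inr fun b' t' s' => Or.inr (Or.inl (Or.inl hS))
      · by_cases hw : red m + (a + (b + (t + s))) < 3 ∨ 5 < red m + (a + (b + (t + s)))
        · exact Or.inl hw
        · right
          intro b' t' s'
          by_cases hd : (a + (t + s)) + (b' + (t' + s')) < 3 ∨ 5 < (a + (t + s)) + (b' + (t' + s'))
          · exact Or.inl (Or.inr hd)
          · by_cases hb0 : 1 ≤ b
            · exact Or.inr (Or.inr (by omega))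
            · rcases h2 with h2 | h2
              · exact absurd h2 hb0
              · by_cases hb : 1 ≤ b'
                · exact Or.inr (Or.inl (Or.inr ⟨h1, Or.inl hb⟩))
                · by_cases ht : 1 ≤ t'
                  · exact Or.inr (Or.inl (Or.inr ⟨h1, Or.inr ⟨by omega, ht⟩⟩))
                  · exact Or.inl (Or.inl ⟨h2, by omega, by omega⟩))
  have k0 := step hK M hM (fun _ _ _ _ _ _ => False)
    (fun m a b _ _ => m ∈ T ∨ (red m = 3 ∧ (1 ≤ b ∨ a = 0)))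
    (fun m _ _ _ _ => m ∈ T ∨ red m = 3) (kill_false fun x hx => hx) k1 (by
      intro m a b t s hS
      rcases hS with hS | h1
      · exact Or.inr fun b' t' s' => Or.inr (Or.inl (Or.inl hS))
      · by_cases hw : red m + (a + (b + (t + s))) < 3 ∨ 5 < red m + (a + (b + (t + s)))
        · exact Or.inl hw
        · right
          intro b' t' s'
          by_cases hd : (a + (t + s)) + (b' + (t' + s')) < 3 ∨ 5 < (a + (t + s)) + (b' + (t' + s'))
          · exact Or.inl (Or.inr hd)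
          · by_cases hb0 : 1 ≤ b
            · exact Or.inr (Or.inr (by omega))
            · exact Or.inr (Or.inl (Or.inr ⟨h1, Or.inr (by omega)⟩)))
  have k6 : Kill K 3 5 (M ⊕ R) {x | (fun f => x (Sum.inl f)) ∈ {m : M → Bool | m ∈ T ∨ red m = 3}} :=
    kill_rest (by
      rw [Nat.card_sum, Nat.card_sum, Nat.card_sum, Nat.card_fin, Nat.card_fin]
      omega) k0
  exact k6

end Pool.Agent.Lib.MP_21a058_co.Slack3
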