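import Mathlib

/-! Arithmetic of the calculus with slack 2, `K`-sets with `c - 1`, `c` or `c + 1` red edges. -/

set_option autoImplicit false

namespace Pool.Agent.Lib.MP_21a058_co.Slack3.GenArith

open Finset

/-- The rules. -/
structure Ctx (K c : ℕ) (W : ℕ → ℕ → Prop) : Prop where
  vac : ∀ L p, L < p → W L p
  base : ∀ L p, L ≤ K → (c + 2 ≤ p ∨ p + (K - L) + 2 ≤ c) → W L p
  r2 : ∀ L p i j, L + i ≤ K → L + j ≤ K → i + j ≤ K →
    (∀ a b, a ≤ i → b ≤ j → W (L + i) (p + a) ∨ W (L + j) (p + b) ∨ W (i + j) (a + b)) → W L p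

variable {K c : ℕ} {W : ℕ → ℕ → Prop}

theorem Ctx.ex (h : Ctx K c W) {L p i j : ℕ} (hi : L + i ≤ K) (hj : L + j ≤ K) (hij : i + j ≤ K)
    (hW : ¬ W L p) : ∃ a b, ¬ W (L + i) (p + a) ∧ ¬ W (L + j) (p + b) ∧ ¬ W (i + j) (a + b) := by
  by_contra hcon
  push Not at hcon
  refine hW (h.r2 L p i j hi hj hij fun a b _ _ => ?_)
  by_cases h1 : W (L + i) (p + a)
  · exact Or.inl h1
  · by_cases h2 : W (L + j) (p + b)
    · exact Or.inr (Or.inl h2)
    · exact Or.inr (Or.inr (hcon a b h1 h2))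

theorem Ctx.top (h : Ctx K c W) {p : ℕ} (hW : ¬ W K p) : c ≤ p + 1 ∧ p ≤ c + 1 := by
  by_contra hcon
  refine hW (h.base K p le_rfl ?_)
  omega

theorem small {K : ℕ} {z : ℤ} (h1 : -1 ≤ z) (h2 : z ≤ 1) : -(K : ℤ) ≤ K * z ∧ (K : ℤ) * z ≤ K := by
  have hK : (0 : ℤ) ≤ K := Int.natCast_nonneg K
  constructor <;> nlinarith

theorem Ctx.step (h : Ctx K c W) {L p : ℕ} (hL : L ≤ K) (hW : ¬ W L p) :
    ∃ L' p', L' ≤ K ∧ ¬ W L' p' ∧
      2 * |(K : ℤ) * p - c * L| ≤ 2 * K + |(K : ℤ) * p' - c * L'| := by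
  rcases Nat.lt_or_ge K (2 * L) with hlt | hge
  · obtain ⟨a, b, h1, h2, h3⟩ := h.ex (i := K - L) (j := K - L) (by omega) (by omega) (by omega) hW
    have e1 : L + (K - L) = K := by omega
    rw [e1] at h1 h2
    have d1 := h.top h1
    have d2 := h.top h2
    refine ⟨K - L + (K - L), a + b, by omega, h3, ?_⟩
    have s1 := small (K := K) (z := (p : ℤ) + a - c) (by omega) (by omega)
    have s2 := small (K := K) (z := (p : ℤ) + b - c) (by omega) (by omega)
    have e2 : (((K - L + (K - L) : ℕ)) : ℤ) = 2 * K - 2 * L := by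
      push_cast [Nat.cast_sub hL]; ring
    rw [e2]
    push_cast
    have e3 : 2 * ((K : ℤ) * p - c * L) = K * ((p : ℤ) + a - c) + K * ((p : ℤ) + b - c) -
      ((K : ℤ) * (a + b) - c * (2 * K - 2 * L)) := by ring
    have a1 := le_abs_self ((K : ℤ) * (a + b) - c * (2 * K - 2 * L))
    have a2 := neg_abs_le ((K : ℤ) * (a + b) - c * (2 * K - 2 * L))
    have e4 : 2 * |(K : ℤ) * p - c * L| = |2 * ((K : ℤ) * p - c * L)| := by
      rw [abs_mul]; norm_num
    rw [e4, e3]
    refine abs_le.mpr ⟨?_, ?_⟩ <;> linarith [s1.1, s1.2, s2.1, s2.2]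
  · obtain ⟨a, b, h1, h2, h3⟩ := h.ex (i := K - L) (j := L) (by omega) (by omega) (by omega) hW
    have e1 : L + (K - L) = K := by omega
    have e1' : K - L + L = K := by omega
    rw [e1] at h1
    rw [e1'] at h3
    have d1 := h.top h1
    have d3 := h.top h3
    refine ⟨L + L, p + b, by omega, h2, ?_⟩
    have s1 := small (K := K) (z := (p : ℤ) + a - c) (by omega) (by omega)
    have s3 := small (K := K) (z := (a : ℤ) + b - c) (by omega) (by omega)
    push_cast
    have e3 : 2 * ((K : ℤ) * p - c * L) = K * ((p : ℤ) + a - c) +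
      ((K : ℤ) * (p + b) - c * (L + L)) - K * ((a : ℤ) + b - c) := by ring
    have a1 := le_abs_self ((K : ℤ) * (p + b) - c * (L + L))
    have a2 := neg_abs_le ((K : ℤ) * (p + b) - c * (L + L))
    have e4 : 2 * |(K : ℤ) * p - c * L| = |2 * ((K : ℤ) * p - c * L)| := by
      rw [abs_mul]; norm_num
    rw [e4, e3]
    refine abs_le.mpr ⟨?_, ?_⟩ <;> linarith [s1.1, s1.2, s3.1, s3.2]

theorem Ctx.tent (h : Ctx K c W) {L p : ℕ} (hL : L ≤ K) (hW : ¬ W L p) :
    (K : ℤ) * p ≤ c * L + 2 * K ∧ (c : ℤ) * L ≤ K * p + 2 * K := by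
  classical
  set D : ℕ × ℕ → ℤ := fun q => |(K : ℤ) * q.2 - c * q.1| with hD
  set S : Finset (ℕ × ℕ) := ((range (K + 1)) ×ˢ (range (K + 1))).filter
    (fun q => ¬ W q.1 q.2) with hS
  have hmem : ∀ L p, L ≤ K → ¬ W L p → (L, p) ∈ S := by
    intro L p h1 h3
    have h4 : p ≤ L := by
      by_contra hcon
      exact h3 (h.vac L p (by omega))
    rw [hS, mem_filter, mem_product, mem_range, mem_range]
    exact ⟨⟨by simp only; omega, by simp only; omega⟩, h3⟩
  have hne : S.Nonempty := ⟨_, hmem L p hL hW⟩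
  obtain ⟨⟨L1, p1⟩, h1, h2⟩ := S.exists_max_image D hne
  rw [hS, mem_filter, mem_product, mem_range, mem_range] at h1
  simp only at h1
  obtain ⟨L2, p2, h3, h4, h5⟩ := h.step (L := L1) (p := p1) (by omega) h1.2
  have h6 := h2 _ (hmem L2 p2 h3 h4)
  have h7 := h2 _ (hmem L p hL hW)
  simp only [hD] at h6 h7
  have h8 : |(K : ℤ) * p - c * L| ≤ 2 * K := by linarith
  have h9 := abs_le.mp h8
  constructor <;> linarith [h9.1, h9.2]

/-- The doubling argument. -/
theorem Ctx.dbl (h : Ctx K c W) {t : ℕ} (ht : 1 ≤ t) (hc : 2 ≤ c) (hct : c * t < K)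
    (main : W (K - t) (c - 2)) : ∀ n L p : ℕ, K ≤ 2 ^ (n + 1) * L + 2 * t → L + t ≤ K →
      2 ^ n * (((p : ℤ) + 2) * K - c * L) < c * t → W L p := by
  have htK : t ≤ K := by nlinarith
  have hct' : (c : ℤ) * t < K := by exact_mod_cast hct
  have hct0 : (0 : ℤ) < c * t := by positivity
  have hK0 : (0 : ℤ) < K := by linarith
  have hlow : ∀ p, ¬ W (K - t) p → c ≤ p + 1 := by
    intro p hW
    have h1 := (h.tent (L := K - t) (by omega) hW).2
    rw [Nat.cast_sub htK] at h1
    by_contra hcon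
    have h2 : (p : ℤ) + 2 - c ≤ 0 := by omega
    rcases eq_or_ne (p + 2) c with h3 | h3
    · apply hW
      have e : p = c - 2 := by omega
      rw [e]
      exact main
    · have h4 : (p : ℤ) + 2 - c ≤ -1 := by omega
      nlinarith
  intro n
  induction n with
  | zero =>
    intro L p h1 h2 h3
    by_contra hW
    obtain ⟨a, b, g1, g2, g3⟩ := h.ex (i := K - t - L) (j := K - t - L) (by omega) (by omega)
      (by omega) hW
    have e1 : L + (K - t - L) = K - t := by omega
    rw [e1] at g1 g2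
    have d1 := hlow _ g1
    have d2 := hlow _ g2
    have d3 := (h.tent (by omega) g3).1
    have e2 : (((K - t - L + (K - t - L) : ℕ)) : ℤ) = 2 * K - 2 * t - 2 * L := by
      have : (K - t - L : ℕ) = K - (t + L) := by omega
      rw [this]
      push_cast [Nat.cast_sub (show t + L ≤ K by omega)]; ring
    rw [e2] at d3
    push_cast at d3
    have d4 : (2 : ℤ) * c - 2 - 2 * p ≤ a + b := by omega
    have d5 : (K : ℤ) * (2 * c - 2 - 2 * p) ≤ K * (a + b) :=
      mul_le_mul_of_nonneg_left d4 hK0.le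
    nlinarith
  | succ n ih =>
    intro L p h1 h2 h3
    have hpow : (1 : ℤ) ≤ 2 ^ n := one_le_pow₀ (by norm_num)
    by_contra hW
    have he := (h.tent (by omega) hW).2
    have he0 : (0 : ℤ) ≤ ((p : ℤ) + 2) * K - c * L := by linarith
    rcases Nat.lt_or_ge (2 * L + 2 * t) K with hlt | hge
    · obtain ⟨a, b, g1, g2, g3⟩ := h.ex (i := K - t - L) (j := L) (by omega) (by omega)
        (by omega) hW
      have e1 : L + (K - t - L) = K - t := by omega
      have e3 : K - t - L + L = K - t := by omega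
      rw [e1] at g1
      rw [e3] at g3
      have d1 := hlow _ g1
      have d3 := (h.tent (by omega) g3).1
      rw [Nat.cast_sub htK] at d3
      push_cast at d3
      have d4 : (a : ℤ) + b ≤ c + 1 := by
        by_contra hcon
        have : (c : ℤ) + 2 ≤ a + b := by omega
        nlinarith
      have d5 : b ≤ p + 2 := by omega
      refine g2 (ih (L + L) (p + b) ?_ (by omega) ?_)
      · have e5 : 2 ^ (n + 1) * (L + L) = 2 ^ (n + 1 + 1) * L := by ring
        rw [e5]; exact h1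
      · push_cast
        have d6 : ((p : ℤ) + b + 2) * K - c * (L + L) ≤ 2 * (((p : ℤ) + 2) * K - c * L) := by
          have : (b : ℤ) ≤ p + 2 := by exact_mod_cast d5
          nlinarith
        have d7 : (2 : ℤ) ^ n * (((p : ℤ) + b + 2) * K - c * (L + L)) ≤
            2 ^ n * (2 * (((p : ℤ) + 2) * K - c * L)) :=
          mul_le_mul_of_nonneg_left d6 (by positivity)
        have d8 : (2 : ℤ) ^ n * (2 * (((p : ℤ) + 2) * K - c * L)) =
            2 ^ (n + 1) * (((p : ℤ) + 2) * K - c * L) := by ring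
        linarith
    · obtain ⟨a, b, g1, g2, g3⟩ := h.ex (i := K - t - L) (j := K - t - L) (by omega) (by omega)
        (by omega) hW
      have e1 : L + (K - t - L) = K - t := by omega
      rw [e1] at g1 g2
      have d1 := hlow _ g1
      have d2 := hlow _ g2
      have d3 := (h.tent (by omega) g3).1
      have e2 : (((K - t - L + (K - t - L) : ℕ)) : ℤ) = 2 * K - 2 * t - 2 * L := by
        have : (K - t - L : ℕ) = K - (t + L) := by omega
        rw [this]
        push_cast [Nat.cast_sub (show t + L ≤ K by omega)]; ring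
      rw [e2] at d3
      push_cast at d3
      have d4 : (2 : ℤ) * c - 2 - 2 * p ≤ a + b := by omega
      have d5 : (K : ℤ) * (2 * c - 2 - 2 * p) ≤ K * (a + b) :=
        mul_le_mul_of_nonneg_left d4 hK0.le
      have d6 : ((p : ℤ) + 2) * K - c * L ≤ 2 ^ (n + 1) * (((p : ℤ) + 2) * K - c * L) := by
        have : (1 : ℤ) ≤ 2 ^ (n + 1) := one_le_pow₀ (by norm_num)
        nlinarith
      nlinarith

theorem Ctx.pair (h : Ctx K c W) {t q n : ℕ} (ht : 1 ≤ t) (hc : 3 ≤ c) (hct : c * t < K)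
    (main : W (K - t) (c - 2)) (hq2 : 2 ≤ q) (hq : c * q < K)
    (h1 : K ≤ 2 ^ (n + 1) * (2 * (q - 2)) + 2 * t)
    (h3 : 2 ^ n * (2 * (K : ℤ) - c * (2 * (q - 2 : ℕ))) < c * t) : W 2 2 := by
  have hqK : 2 * q ≤ K := by nlinarith
  have hcq : (c : ℤ) * q < K := by exact_mod_cast hq
  by_contra hW
  obtain ⟨a, b, g1, g2, g3⟩ := h.ex (i := q - 2) (j := q - 2) (by omega) (by omega)
    (by omega) hW
  have e1 : 2 + (q - 2) = q := by omega
  rw [e1] at g1 g2
  have key : ∀ a, ¬ W q (2 + a) → a = 0 := by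
    intro a ha
    have d := (h.tent (by omega) ha).1
    push_cast at d
    by_contra hcon
    have : (1 : ℤ) ≤ a := by omega
    nlinarith
  have ha := key a g1
  have hb := key b g2
  subst ha hb
  refine g3 (h.dbl ht (by omega) hct main n _ _ ?_ ?_ ?_)
  · have e : q - 2 + (q - 2) = 2 * (q - 2) := by ring
    rw [e]; exact h1
  · have h4 : 3 * q ≤ K := by nlinarith
    have h5 : 3 * t ≤ K := by nlinarith
    omega
  · push_cast
    have e' : (((q - 2 : ℕ) : ℤ) + ((q - 2 : ℕ) : ℤ)) = 2 * ((q - 2 : ℕ) : ℤ) := by ring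
    rw [e']
    exact h3

theorem Ctx.down (h : Ctx K c W) (hc : 2 ≤ c) (hK : 2 ≤ K) (w22 : W 2 2) :
    ∀ n, n ≤ K → W (K - n) 0 := by
  intro n
  induction n with
  | zero =>
    intro _
    exact h.base K 0 le_rfl (by omega)
  | succ n ih =>
    intro hn
    have h1 := ih (by omega)
    have e : K - (n + 1) + 1 = K - n := by omega
    refine h.r2 (K - (n + 1)) 0 1 1 (by omega) (by omega) (by omega) fun a b ha hb => ?_
    rw [e]
    by_cases h2 : a = 0
    · left; subst h2; exact h1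
    · by_cases h3 : b = 0
      · right; left; subst h3; exact h1
      · right; right
        have e1 : a = 1 := by omega
        have e2 : b = 1 := by omega
        subst e1 e2
        exact w22

theorem Ctx.zero (h : Ctx K c W) {t q n : ℕ} (ht : 1 ≤ t) (hc : 3 ≤ c) (hct : c * t < K)
    (main : W (K - t) (c - 2)) (hq2 : 2 ≤ q) (hq : c * q < K)
    (h1 : K ≤ 2 ^ (n + 1) * (2 * (q - 2)) + 2 * t)
    (h3 : 2 ^ n * (2 * (K : ℤ) - c * (2 * (q - 2 : ℕ))) < c * t) : W 0 0 := by
  have hK : 2 ≤ K := by nlinarith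
  have h4 := h.down (by omega) hK (h.pair ht hc hct main hq2 hq h1 h3) K le_rfl
  rwa [Nat.sub_self] at h4

end Pool.Agent.Lib.MP_21a058_co.Slack3.GenArith
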