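import Pool.Agent.Lib.MP_21a058_co.Slack3.Rule
import Pool.Agent.Lib.MP_21a058_co.Slack3.GenArith

/-! The calculus with slack 2 for the window `2 m + 1 ≤ red ≤ 2 m + 3`, every `m ≥ 2`. -/

set_option autoImplicit false

namespace Pool.Agent.Lib.MP_21a058_co.Slack3.GenArith

open Pool.Agent.Lib.MP_21a058_co.Slack3
open Pool.Agent.Lib.MP_21a058_co.Odd (red red_le)

theorem ctx (K m : ℕ) : Ctx K (m + 1) (W K (2 * m + 1) (2 * m + 3)) where
  vac := by
    intro L p hp F R _ _ hF hR T hT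
    refine hT.mono ?_
    intro x hx
    rcases hx with hx | hx
    · exact hx
    · exfalso
      have := red_le (fun f => x (Sum.inl f))
      omega
  base := by
    intro L p hL h
    refine W_base hL ?_
    rcases h with h | h
    · left; omega
    · right; omega
  r2 := by
    intro L p i j hi hj hij h
    exact W_R2 hi hj hij h

/-- The two windows which the main chain needs. -/
theorem level_two {K m q L : ℕ} (hq : (m + 1) * q < K) (hL : L ≤ q) (p : ℕ) (hp : 3 ≤ p) :
    W K (2 * m + 1) (2 * m + 3) L p := by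
  by_contra hW
  have hqK : q ≤ K := by nlinarith
  have h := ((ctx K m).tent (hL.trans hqK) hW).1
  have h1 : ((m : ℤ) + 1) * q < K := by exact_mod_cast hq
  have h2 : (L : ℤ) ≤ q := by exact_mod_cast hL
  have h3 : (3 : ℤ) ≤ p := by exact_mod_cast hp
  have h4 : (0 : ℤ) ≤ m := Int.natCast_nonneg m
  have h5 : ((m : ℤ) + 1) * L ≤ ((m : ℤ) + 1) * q := mul_le_mul_of_nonneg_left h2 (by linarith)
  have h6 : (K : ℤ) * 3 ≤ K * p := mul_le_mul_of_nonneg_left h3 (Int.natCast_nonneg K)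
  push_cast at h
  linarith

theorem level_high {K m L : ℕ} (hL : L ≤ K) (hlt : (m + 1) * L < m * K) (p : ℕ) (hp : m + 2 ≤ p) :
    W K (2 * m + 1) (2 * m + 3) L p := by
  by_contra hW
  have h := ((ctx K m).tent hL hW).1
  have h1 : ((m : ℤ) + 1) * L < m * K := by exact_mod_cast hlt
  have h3 : (m : ℤ) + 2 ≤ p := by exact_mod_cast hp
  have h6 : (K : ℤ) * (m + 2) ≤ K * p := mul_le_mul_of_nonneg_left h3 (Int.natCast_nonneg K)
  push_cast at h
  linarith

/-- From the main chain to everything. -/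
theorem zero_of_main {K m : ℕ} (hm : 2 ≤ m) (hK : (m + 1) * (42 * (m + 1) + 9) < K)
    (main : W K (2 * m + 1) (2 * m + 3) (K - (6 * (m + 1) + 1)) (m - 1)) :
    W K (2 * m + 1) (2 * m + 3) 0 0 := by
  set c := m + 1 with hc
  set t := 6 * c + 1 with ht
  set q := (K - 1) / c with hq
  have hc0 : 0 < c := by omega
  have hq1 : c * q ≤ K - 1 := by rw [hq]; exact Nat.mul_div_le _ _
  have hq2 : K - 1 < c * (q + 1) := by rw [hq]; exact Nat.lt_mul_div_succ _ hc0
  have hK1 : 1 ≤ K := by omega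
  have hq3 : c * q < K := by omega
  have hq4 : K ≤ c * q + c := by
    have : c * (q + 1) = c * q + c := by ring
    omega
  have h42 : 42 * c + 9 ≤ q := by
    by_contra hcon
    have : q + 1 ≤ 42 * c + 9 := by omega
    have := Nat.mul_le_mul_left c this
    have e : c * (q + 1) = c * q + c := by ring
    omega
  obtain ⟨n, hn1, hn2⟩ : ∃ n, 2 ^ n ≤ c ∧ c < 2 ^ (n + 1) :=
    ⟨Nat.log 2 c, Nat.pow_log_le_self 2 (by omega), Nat.lt_pow_succ_log_self (by norm_num) c⟩
  have hct : c * t < K := by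
    have : c * t ≤ c * (42 * c + 9) := Nat.mul_le_mul_left c (by omega)
    omega
  refine (ctx K m).zero (t := t) (q := q) (n := n) (by omega) (by omega) hct ?_ (by omega) hq3 ?_ ?_
  · have e : c - 2 = m - 1 := by omega
    rw [← hc, e]
    exact main
  · have h1 : c * (2 * (q - 2)) ≤ 2 ^ (n + 1) * (2 * (q - 2)) := Nat.mul_le_mul_right _ hn2.le
    have h2 : c * (2 * (q - 2)) + 4 * c = 2 * (c * q) := by
      obtain ⟨r, hr⟩ : ∃ r, q = r + 2 := ⟨q - 2, by omega⟩
      rw [hr]
      have : r + 2 - 2 = r := by omega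
      rw [this]; ring
    have h3 : 6 * c ≤ K := by
      have : c * 6 ≤ c * (42 * c + 9) := Nat.mul_le_mul_left c (by omega)
      omega
    omega
  · have h1 : (2 : ℤ) * K - ((c : ℕ) : ℤ) * (2 * ((q - 2 : ℕ) : ℤ)) ≤ 6 * c := by
      have h2 : ((q - 2 : ℕ) : ℤ) = q - 2 := by push_cast [Nat.cast_sub (show 2 ≤ q by omega)]; ring
      rw [h2]
      have h3 : (K : ℤ) ≤ c * q + c := by exact_mod_cast hq4
      linarith
    have h4 : (2 : ℤ) ^ n ≤ c := by exact_mod_cast hn1
    have h5 : (0 : ℤ) < c := by exact_mod_cast hc0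
    have h6 : (2 : ℤ) ^ n * (2 * K - ((c : ℕ) : ℤ) * (2 * ((q - 2 : ℕ) : ℤ))) ≤ 2 ^ n * (6 * c) :=
      mul_le_mul_of_nonneg_left h1 (by positivity)
    have h7 : (2 : ℤ) ^ n * (6 * c) ≤ c * (6 * c) := mul_le_mul_of_nonneg_right h4 (by positivity)
    have h8 : ((t : ℕ) : ℤ) = 6 * c + 1 := by rw [ht]; push_cast; ring
    rw [← hc]
    rw [h8]
    nlinarith

end Pool.Agent.Lib.MP_21a058_co.Slack3.GenArith
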