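import Pool.Agent.Lib.MP_21a058_co.Slack3.Main36
import Pool.Agent.Lib.MP_21a058_co.Slack3.Gen
import Pool.Agent.Lib.MP_21a058_co.Slack3.Final

/-! The classes `2 m + 1` and `2 K - 2 m - 3`, `m` odd, `K` even, `14 (m + 1) < K`: `2 K` is not
enough, although it is the sum of the parts plus `2`. -/

set_option autoImplicit false

namespace Pool.Agent.Lib.MP_21a058_co.Slack3

open Finset Pool.Agent.Lib.MP_21a058_co

theorem main_all {K m : ℕ} (hm : m % 2 = 1) (hK : K % 2 = 0) (h : 14 * (m + 1) < K) :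
    W K (2 * m + 1) (2 * m + 3) (K - 2) (m - 1) := by
  obtain ⟨g, rfl⟩ : ∃ g, K = 2 * g := ⟨K / 2, by omega⟩
  exact M36.main_gen (by omega) hm (fun p hp => Gen.small h le_rfl hp)
    (fun p hp => Gen.half le_rfl hp)

/-- `2 K ↦ ks` fails if the classes can be grouped into the sums `2 m + 1` and `2 K - 2 m - 3`. -/
theorem gen_fails {K m l' r : ℕ} (hm : m % 2 = 1) (hK : K % 2 = 0) (h : 14 * (m + 1) < K)
    (hl : 2 * m + 3 + l' = 2 * K) (ks : Fin r → ℕ) (J : Finset (Fin r))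
    (hJ : ∑ i ∈ J, ks i = 2 * m + 1) (hJ' : ∑ i ∈ Jᶜ, ks i = l') : ¬ Arrow (2 * K) ks :=
  not_arrow_of_W (by omega) hl (Gen.W_zero_gen hm hK h (main_all hm hK h)) ks J hJ hJ'

/-- In terms of the sums: `a ≡ b ≡ 3 mod 4`, `b > 13 a + 12`. -/
theorem gen_sum {a b r : ℕ} (ha : a % 4 = 3) (hb : b % 4 = 3) (hab : 13 * a + 12 < b)
    (ks : Fin r → ℕ) (J : Finset (Fin r)) (hJ : ∑ i ∈ J, ks i = a) (hJ' : ∑ i ∈ Jᶜ, ks i = b) :
    ¬ Arrow (a + b + 2) ks := by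
  obtain ⟨m, hm⟩ : ∃ m, a = 2 * m + 1 := ⟨a / 2, by omega⟩
  obtain ⟨K, hK⟩ : ∃ K, a + b + 2 = 2 * K := ⟨(a + b + 2) / 2, by omega⟩
  rw [hK]
  exact gen_fails (m := m) (by omega) (by omega) (by omega) (by omega) ks J (by omega) hJ'

end Pool.Agent.Lib.MP_21a058_co.Slack3
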