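import Pool.Agent.Lib.MP_21a058_co.Slack3.Chain
import Pool.Agent.Lib.MP_21a058_co.Slack3.Final

/-! `2K ↦ (3, 2K - 5)` fails for every even `K ≥ 24`: `f(3, b) ≥ b + 6` for `b = 2K - 5`. -/

set_option autoImplicit false

namespace Pool.Agent.Lib.MP_21a058_co.Slack3

open Finset Pool.Agent.Lib.MP_21a058_co

/-- For even `K ≥ 24`, a tuple whose parts split into sums `3` and `2 K - 5` has `f > 2 K`. -/
theorem three_cut {K l' r : ℕ} (hK : 24 ≤ K) (he : K % 2 = 0) (hl : 5 + l' = 2 * K)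
    (ks : Fin r → ℕ) (J : Finset (Fin r)) (hJ : ∑ i ∈ J, ks i = 3)
    (hJ' : ∑ i ∈ Jᶜ, ks i = l') : ¬ Arrow (2 * K) ks :=
  not_arrow_of_W (by omega) hl (w00' hK he) ks J hJ hJ'

end Pool.Agent.Lib.MP_21a058_co.Slack3
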