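import Pool.Agent.Lib.MP_21a058_co.Slack3.Rule
import Pool.Agent.Lib.MP_21a058_co.Slack3.Arith

/-! The main chain: an alive set of `K - 2` edges is not all blue. -/

set_option autoImplicit false

namespace Pool.Agent.Lib.MP_21a058_co.Slack3.M36

open Pool.Agent.Lib.MP_21a058_co.Odd (red red_sum red_equiv red_le)

/-- The node with windows. -/
theorem Kill.nodeG {K l u : ℕ} {J1 J2 N : Type} [Finite N] (h1 : Nat.card J1 = K)
    (h2 : Nat.card J2 = K) (hN : Nat.card N = K) {A1 : Set (J1 ⊕ N → Bool)}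
    {A2 : Set (J2 ⊕ N → Bool)} {A : Set (J1 ⊕ J2 → Bool)} (k1 : Kill K l u (J1 ⊕ N) A1)
    (k2 : Kill K l u (J2 ⊕ N) A2)
    (h : ∀ (x1 : J1 → Bool) (x2 : J2 → Bool), Sum.elim x1 x2 ∈ A →
      l ≤ red (Sum.elim x1 x2) → red (Sum.elim x1 x2) ≤ u →
      ∀ n : N → Bool, l ≤ red (Sum.elim x1 n) → red (Sum.elim x1 n) ≤ u →
      l ≤ red (Sum.elim x2 n) → red (Sum.elim x2 n) ≤ u →
      Sum.elim x1 n ∈ A1 ∨ Sum.elim x2 n ∈ A2) : Kill K l u (J1 ⊕ J2) A := by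
  have hc : Nat.card N = Nat.card (Fin K) := by rw [Nat.card_fin, hN]
  obtain ⟨eN⟩ := Finite.card_eq.mp hc
  have t1 := k1.addBase.transport (Equiv.sumCongr (Equiv.refl J1) eN)
  have t2 := k2.addBase.transport (Equiv.sumCongr (Equiv.refl J2) eN)
  refine Kill.node _ J1 J2 h1 h2 (Equiv.refl _) _ _ A t1 t2 ?_
  intro x hx
  by_cases hb : red x < l ∨ u < red x
  · exact Or.inl hb
  right
  intro n
  push Not at hb
  have ex : x = Sum.elim (fun j => x (Sum.inl j)) (fun j => x (Sum.inr j)) := by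
    funext q
    rcases q with q | q <;> rfl
  have e1 : (fun i => (Sum.elim (fun j => x (Sum.inl j)) n : J1 ⊕ Fin K → Bool)
      ((Equiv.sumCongr (Equiv.refl J1) eN) i)) = Sum.elim (fun j => x (Sum.inl j)) (fun a => n (eN a)) := by
    funext q
    rcases q with q | q <;> rfl
  have e2 : (fun i => (Sum.elim (fun j => x (Sum.inr j)) n : J2 ⊕ Fin K → Bool)
      ((Equiv.sumCongr (Equiv.refl J2) eN) i)) = Sum.elim (fun j => x (Sum.inr j)) (fun a => n (eN a)) := by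
    funext q
    rcases q with q | q <;> rfl
  have key := h (fun j => x (Sum.inl j)) (fun j => x (Sum.inr j)) (ex ▸ hx) (ex ▸ hb.1) (ex ▸ hb.2)
    (fun a => n (eN a))
  by_cases w1 : red (Sum.elim (fun j => x (Sum.inl j)) (fun a => n (eN a))) < l ∨
      u < red (Sum.elim (fun j => x (Sum.inl j)) (fun a => n (eN a)))
  · left
    show (fun i => (Sum.elim (fun j => x (Sum.inl j)) n : J1 ⊕ Fin K → Bool)
      ((Equiv.sumCongr (Equiv.refl J1) eN) i)) ∈ {x | x ∈ A1 ∨ (red x < l ∨ u < red x)}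
    rw [e1]
    exact Or.inr w1
  by_cases w2 : red (Sum.elim (fun j => x (Sum.inr j)) (fun a => n (eN a))) < l ∨
      u < red (Sum.elim (fun j => x (Sum.inr j)) (fun a => n (eN a)))
  · right
    show (fun i => (Sum.elim (fun j => x (Sum.inr j)) n : J2 ⊕ Fin K → Bool)
      ((Equiv.sumCongr (Equiv.refl J2) eN) i)) ∈ {x | x ∈ A2 ∨ (red x < l ∨ u < red x)}
    rw [e2]
    exact Or.inr w2
  push Not at w1 w2
  rcases key w1.1 w1.2 w2.1 w2.2 with hk | hk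
  · left
    show (fun i => (Sum.elim (fun j => x (Sum.inl j)) n : J1 ⊕ Fin K → Bool)
      ((Equiv.sumCongr (Equiv.refl J1) eN) i)) ∈ {x | x ∈ A1 ∨ (red x < l ∨ u < red x)}
    rw [e1]
    exact Or.inl hk
  · right
    show (fun i => (Sum.elim (fun j => x (Sum.inr j)) n : J2 ⊕ Fin K → Bool)
      ((Equiv.sumCongr (Equiv.refl J2) eN) i)) ∈ {x | x ∈ A2 ∨ (red x < l ∨ u < red x)}
    rw [e2]
    exact Or.inl hk

/-! ### tests without a node -/

theorem alive0 {K l u L : ℕ} (F R : Type) [Finite F] [Finite R] (hF : Nat.card F = L)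
    (hR : Nat.card F + Nat.card R = 2 * K) :
    Kill K l u (F ⊕ R) {x | W K l u L (red (fun f => x (Sum.inl f)))} := by
  have h := W_seq' (K := K) (l := l) (u := u) (L := L) F R hF hR ∅
    ((Kill.empty K l u _).mono (by intro x hx; exact absurd hx (Set.notMem_empty _)))
  refine h.mono ?_
  intro x hx
  exact Or.inr hx

/-- `((A ⊕ (B ⊕ C)) ⊕ (D ⊕ E)) ≃ ((A ⊕ (B ⊕ D)) ⊕ (C ⊕ E))` -/
def e1 (A B C D E : Type) : ((A ⊕ (B ⊕ D)) ⊕ (C ⊕ E)) ≃ ((A ⊕ (B ⊕ C)) ⊕ (D ⊕ E)) where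
  toFun p := match p with
    | Sum.inl (Sum.inl a) => Sum.inl (Sum.inl a)
    | Sum.inl (Sum.inr (Sum.inl b)) => Sum.inl (Sum.inr (Sum.inl b))
    | Sum.inl (Sum.inr (Sum.inr d)) => Sum.inr (Sum.inl d)
    | Sum.inr (Sum.inl c) => Sum.inl (Sum.inr (Sum.inr c))
    | Sum.inr (Sum.inr e) => Sum.inr (Sum.inr e)
  invFun p := match p with
    | Sum.inl (Sum.inl a) => Sum.inl (Sum.inl a)
    | Sum.inl (Sum.inr (Sum.inl b)) => Sum.inl (Sum.inr (Sum.inl b))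
    | Sum.inl (Sum.inr (Sum.inr c)) => Sum.inr (Sum.inl c)
    | Sum.inr (Sum.inl d) => Sum.inl (Sum.inr (Sum.inr d))
    | Sum.inr (Sum.inr e) => Sum.inr (Sum.inr e)
  left_inv := by rintro ((a | (b | d)) | (c | e)) <;> rfl
  right_inv := by rintro ((a | (b | c)) | (d | e)) <;> rfl

/-- red numbers over a sum of three -/
theorem red3 {A B C : Type} [Finite A] [Finite B] [Finite C] (x : A ⊕ (B ⊕ C) → Bool) :
    red x = red (fun a => x (Sum.inl a)) + (red (fun b => x (Sum.inr (Sum.inl b))) +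
      red (fun c => x (Sum.inr (Sum.inr c)))) := by
  rw [red_sum x, red_sum (fun q : B ⊕ C => x (Sum.inr q))]

theorem red4 {A B C D : Type} [Finite A] [Finite B] [Finite C] [Finite D]
    (x : A ⊕ (B ⊕ (C ⊕ D)) → Bool) :
    red x = red (fun a => x (Sum.inl a)) + (red (fun b => x (Sum.inr (Sum.inl b))) +
      (red (fun c => x (Sum.inr (Sum.inr (Sum.inl c)))) +
        red (fun c => x (Sum.inr (Sum.inr (Sum.inr c)))))) := by
  rw [red_sum x, red3 (fun q : B ⊕ (C ⊕ D) => x (Sum.inr q))]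

theorem red_elim {A B : Type} [Finite A] [Finite B] (x : A → Bool) (y : B → Bool) :
    red (Sum.elim x y) = red x + red y := by
  rw [red_sum]
  rfl

section

variable {h m : ℕ}

theorem baseHi {L p : ℕ} (hL : L ≤ 2 * h) (hp : m + 3 ≤ p) : W (2 * h) (2 * m + 1) (2 * m + 3) L p :=
  W_base hL (Or.inl (by omega))

theorem baseLo {p : ℕ} (hp : p + 1 ≤ m) : W (2 * h) (2 * m + 1) (2 * m + 3) (2 * h) p :=
  W_base le_rfl (Or.inr (by omega))

/-- bundle of `w_2` -/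
theorem kw2 (h14 : 14 ≤ h) (hh : ∀ p, m + 5 ≤ 2 * p → W (2 * h) (2 * m + 1) (2 * m + 3) h p) :
    Kill (2 * h) (2 * m + 1) (2 * m + 3)
      ((Fin 2 ⊕ Fin (2 * h - 2)) ⊕ (Fin 2 ⊕ (Fin (h - 4) ⊕ Fin (h + 2))))
      {y | m + 5 ≤ 2 * (red (fun i => y (Sum.inl (Sum.inl i))) +
        (red (fun i => y (Sum.inr (Sum.inl i))) +
          red (fun i => y (Sum.inr (Sum.inr (Sum.inl i))))))} := by
  have k := alive0 (K := 2 * h) (l := 2 * m + 1) (u := 2 * m + 3) (L := h)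
    (Fin 2 ⊕ (Fin 2 ⊕ Fin (h - 4))) (Fin (2 * h - 2) ⊕ Fin (h + 2))
    (by simp only [Nat.card_sum, Nat.card_fin]; omega)
    (by simp only [Nat.card_sum, Nat.card_fin]; omega)
  let e : (Fin 2 ⊕ (Fin 2 ⊕ Fin (h - 4))) ⊕ (Fin (2 * h - 2) ⊕ Fin (h + 2)) ≃
      ((Fin 2 ⊕ Fin (2 * h - 2)) ⊕ (Fin 2 ⊕ (Fin (h - 4) ⊕ Fin (h + 2)))) :=
    (Equiv.sumSumSumComm (Fin 2) (Fin 2 ⊕ Fin (h - 4)) (Fin (2 * h - 2)) (Fin (h + 2))).trans
      (Equiv.sumCongr (Equiv.refl _) (Equiv.sumAssoc (Fin 2) (Fin (h - 4)) (Fin (h + 2))))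
  refine (k.transport e).mono ?_
  intro y hy
  show W (2 * h) (2 * m + 1) (2 * m + 3) h (red (fun f => y (e (Sum.inl f))))
  rw [red3]
  exact hh _ hy

/-- bundle of `w_4` -/
theorem kw4 (h14 : 14 ≤ h) (hs : ∀ p, 3 ≤ p → W (2 * h) (2 * m + 1) (2 * m + 3) 14 p) :
    Kill (2 * h) (2 * m + 1) (2 * m + 3)
      ((Fin 2 ⊕ (Fin 10 ⊕ (Fin (h - 6) ⊕ Fin (h - 6)))) ⊕ (Fin 2 ⊕ Fin (2 * h - 2)))
      {y | 3 ≤ red (fun i => y (Sum.inl (Sum.inl i))) +
        (red (fun i => y (Sum.inl (Sum.inr (Sum.inl i)))) +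
          red (fun i => y (Sum.inr (Sum.inl i))))} := by
  have k := alive0 (K := 2 * h) (l := 2 * m + 1) (u := 2 * m + 3) (L := 14)
    (Fin 2 ⊕ (Fin 10 ⊕ Fin 2)) ((Fin (h - 6) ⊕ Fin (h - 6)) ⊕ Fin (2 * h - 2))
    (by simp only [Nat.card_sum, Nat.card_fin])
    (by simp only [Nat.card_sum, Nat.card_fin]; omega)
  refine (k.transport (e1 (Fin 2) (Fin 10) (Fin (h - 6) ⊕ Fin (h - 6)) (Fin 2)
    (Fin (2 * h - 2)))).mono ?_
  intro y hy
  show W (2 * h) (2 * m + 1) (2 * m + 3) 14 (red (fun f => y (e1 (Fin 2) (Fin 10)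
    (Fin (h - 6) ⊕ Fin (h - 6)) (Fin 2) (Fin (2 * h - 2)) (Sum.inl f))))
  rw [red3]
  exact hs _ hy

/-- first child of `w_3`: the half `C_2, C_4, Z, N_2` -/
theorem kg1 (h14 : 14 ≤ h) :
    Kill (2 * h) (2 * m + 1) (2 * m + 3)
      (((Fin 2 ⊕ (Fin 2 ⊕ Fin (h + 2))) ⊕ Fin (h - 6)) ⊕ (Fin (h - 6) ⊕ Fin (h + 6)))
      {y | m + 3 ≤ red (fun i => y (Sum.inl (Sum.inl i))) + red (fun i => y (Sum.inr (Sum.inl i)))} := by
  have k := alive0 (K := 2 * h) (l := 2 * m + 1) (u := 2 * m + 3) (L := 2 * h)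
    ((Fin 2 ⊕ (Fin 2 ⊕ Fin (h + 2))) ⊕ Fin (h - 6)) (Fin (h - 6) ⊕ Fin (h + 6))
    (by simp only [Nat.card_sum, Nat.card_fin]; omega)
    (by simp only [Nat.card_sum, Nat.card_fin]; omega)
  refine (k.transport (Equiv.sumSumSumComm (Fin 2 ⊕ (Fin 2 ⊕ Fin (h + 2))) (Fin (h - 6))
    (Fin (h - 6)) (Fin (h + 6)))).mono ?_
  intro y hy
  show W (2 * h) (2 * m + 1) (2 * m + 3) (2 * h) (red (fun f => y ((Equiv.sumSumSumComm
    (Fin 2 ⊕ (Fin 2 ⊕ Fin (h + 2))) (Fin (h - 6)) (Fin (h - 6)) (Fin (h + 6))) (Sum.inl f))))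
  rw [red_sum]
  exact baseHi le_rfl hy

/-- second child of `w_3`: the half `Y, X, N_2` -/
theorem kg2 (h14 : 14 ≤ h) :
    Kill (2 * h) (2 * m + 1) (2 * m + 3)
      (((Fin (h - 4) ⊕ Fin 10) ⊕ Fin (h - 6)) ⊕ (Fin (h - 6) ⊕ Fin (h + 6)))
      {y | red (fun i => y (Sum.inl (Sum.inl i))) + red (fun i => y (Sum.inr (Sum.inl i))) + 1 ≤ m} := by
  have k := alive0 (K := 2 * h) (l := 2 * m + 1) (u := 2 * m + 3) (L := 2 * h)
    ((Fin (h - 4) ⊕ Fin 10) ⊕ Fin (h - 6)) (Fin (h - 6) ⊕ Fin (h + 6))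
    (by simp only [Nat.card_sum, Nat.card_fin]; omega)
    (by simp only [Nat.card_sum, Nat.card_fin]; omega)
  refine (k.transport (Equiv.sumSumSumComm (Fin (h - 4) ⊕ Fin 10) (Fin (h - 6))
    (Fin (h - 6)) (Fin (h + 6)))).mono ?_
  intro y hy
  show W (2 * h) (2 * m + 1) (2 * m + 3) (2 * h) (red (fun f => y ((Equiv.sumSumSumComm
    (Fin (h - 4) ⊕ Fin 10) (Fin (h - 6)) (Fin (h - 6)) (Fin (h + 6))) (Sum.inl f))))
  rw [red_sum]
  exact baseLo hy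

/-- `w_3` before the edges are put in order -/
theorem kw3' (h14 : 14 ≤ h) :
    Kill (2 * h) (2 * m + 1) (2 * m + 3)
      (((Fin 2 ⊕ (Fin 2 ⊕ Fin (h + 2))) ⊕ Fin (h - 6)) ⊕ ((Fin (h - 4) ⊕ Fin 10) ⊕ Fin (h - 6)))
      {y | m + 3 ≤ red (fun i => y (Sum.inl (Sum.inl i))) +
        (m - red (fun i => y (Sum.inr (Sum.inl i))))} := by
  refine Kill.nodeG (N := Fin (h - 6) ⊕ Fin (h + 6)) ?_ ?_ ?_ (kg1 h14) (kg2 h14) ?_
  · simp only [Nat.card_sum, Nat.card_fin]; omega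
  · simp only [Nat.card_sum, Nat.card_fin]; omega
  · simp only [Nat.card_sum, Nat.card_fin]; omega
  · intro x1 x2 hx _ _ n _ _ _ _
    have hx' : m + 3 ≤ red (fun i => x1 (Sum.inl i)) + (m - red (fun i => x2 (Sum.inl i))) := hx
    by_cases hc : red (fun i => x2 (Sum.inl i)) + red (fun i => n (Sum.inl i)) + 1 ≤ m
    · exact Or.inr hc
    · left
      show m + 3 ≤ red (fun i => x1 (Sum.inl i)) + red (fun i => n (Sum.inl i))
      omega

/-- `((C2, (C4, Z)), P), ((Y, X), V)` to `(C2, (Y, Z)), (C4, (X, (P, V)))` -/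
def e3 (C2 C4 Z P Y X V : Type) : (((C2 ⊕ (C4 ⊕ Z)) ⊕ P) ⊕ ((Y ⊕ X) ⊕ V)) ≃
    ((C2 ⊕ (Y ⊕ Z)) ⊕ (C4 ⊕ (X ⊕ (P ⊕ V)))) where
  toFun p := match p with
    | Sum.inl (Sum.inl (Sum.inl a)) => Sum.inl (Sum.inl a)
    | Sum.inl (Sum.inl (Sum.inr (Sum.inl a))) => Sum.inr (Sum.inl a)
    | Sum.inl (Sum.inl (Sum.inr (Sum.inr a))) => Sum.inl (Sum.inr (Sum.inr a))
    | Sum.inl (Sum.inr a) => Sum.inr (Sum.inr (Sum.inr (Sum.inl a)))
    | Sum.inr (Sum.inl (Sum.inl a)) => Sum.inl (Sum.inr (Sum.inl a))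
    | Sum.inr (Sum.inl (Sum.inr a)) => Sum.inr (Sum.inr (Sum.inl a))
    | Sum.inr (Sum.inr a) => Sum.inr (Sum.inr (Sum.inr (Sum.inr a)))
  invFun p := match p with
    | Sum.inl (Sum.inl a) => Sum.inl (Sum.inl (Sum.inl a))
    | Sum.inr (Sum.inl a) => Sum.inl (Sum.inl (Sum.inr (Sum.inl a)))
    | Sum.inl (Sum.inr (Sum.inr a)) => Sum.inl (Sum.inl (Sum.inr (Sum.inr a)))
    | Sum.inr (Sum.inr (Sum.inr (Sum.inl a))) => Sum.inl (Sum.inr a)
    | Sum.inl (Sum.inr (Sum.inl a)) => Sum.inr (Sum.inl (Sum.inl a))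
    | Sum.inr (Sum.inr (Sum.inl a)) => Sum.inr (Sum.inl (Sum.inr a))
    | Sum.inr (Sum.inr (Sum.inr (Sum.inr a))) => Sum.inr (Sum.inr a)
  left_inv := by rintro (((a | (a | a)) | a) | ((a | a) | a)) <;> rfl
  right_inv := by rintro ((a | (a | a)) | (a | (a | (a | a)))) <;> rfl

theorem kw3 (h14 : 14 ≤ h) :
    Kill (2 * h) (2 * m + 1) (2 * m + 3)
      ((Fin 2 ⊕ (Fin (h - 4) ⊕ Fin (h + 2))) ⊕ (Fin 2 ⊕ (Fin 10 ⊕ (Fin (h - 6) ⊕ Fin (h - 6)))))
      {y | m + 3 ≤ red (fun i => y (Sum.inl (Sum.inl i))) + (red (fun i => y (Sum.inr (Sum.inl i))) +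
          red (fun i => y (Sum.inl (Sum.inr (Sum.inr i))))) +
        (m - (red (fun i => y (Sum.inl (Sum.inr (Sum.inl i)))) +
          red (fun i => y (Sum.inr (Sum.inr (Sum.inl i))))))} := by
  refine ((kw3' (m := m) h14).transport (e3 (Fin 2) (Fin 2) (Fin (h + 2)) (Fin (h - 6))
    (Fin (h - 4)) (Fin 10) (Fin (h - 6)))).mono ?_
  intro y hy
  show m + 3 ≤ red (fun i => y (e3 (Fin 2) (Fin 2) (Fin (h + 2)) (Fin (h - 6))
    (Fin (h - 4)) (Fin 10) (Fin (h - 6)) (Sum.inl (Sum.inl i)))) +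
      (m - red (fun i => y (e3 (Fin 2) (Fin 2) (Fin (h + 2)) (Fin (h - 6))
    (Fin (h - 4)) (Fin 10) (Fin (h - 6)) (Sum.inr (Sum.inl i)))))
  rw [red3, red_sum (fun i : Fin (h - 4) ⊕ Fin 10 => y (e3 (Fin 2) (Fin 2) (Fin (h + 2)) (Fin (h - 6))
    (Fin (h - 4)) (Fin 10) (Fin (h - 6)) (Sum.inr (Sum.inl i))))]
  exact hy

end

section Chain

variable {h m : ℕ} {F : Type} [Finite F] {T : Set (F → Bool)}

/-- `R_4 = M, C5 | C4, Q4` -/
theorem kR4 (h14 : 14 ≤ h) (hF : Nat.card F = 2 * h - 2) {R : Type} [Finite R]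
    (hR : Nat.card F + Nat.card R = 2 * (2 * h))
    (hT : Kill (2 * h) (2 * m + 1) (2 * m + 3) (F ⊕ R) {x | (fun f => x (Sum.inl f)) ∈ T}) :
    Kill (2 * h) (2 * m + 1) (2 * m + 3) ((F ⊕ Fin 2) ⊕ (Fin 2 ⊕ Fin (2 * h - 2)))
      {x | (fun f => x (Sum.inl (Sum.inl f))) ∈ T ∨
        (red (fun f => x (Sum.inl (Sum.inl f))) + red (fun c => x (Sum.inl (Sum.inr c))) + 1 ≤ m)} := by
  have h1 : Kill (2 * h) (2 * m + 1) (2 * m + 3) (F ⊕ (Fin 2 ⊕ (Fin 2 ⊕ Fin (2 * h - 2))))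
      {x | (fun f => x (Sum.inl f)) ∈ T} := by
    refine kill_rest ?_ hT
    simp only [Nat.card_sum, Nat.card_fin]
    omega
  have h2 := h1.transport (Equiv.sumAssoc F (Fin 2) (Fin 2 ⊕ Fin (2 * h - 2))).symm
  have h3 := W_seq' (K := 2 * h) (l := 2 * m + 1) (u := 2 * m + 3) (L := 2 * h) (F ⊕ Fin 2)
    (Fin 2 ⊕ Fin (2 * h - 2))
    (by simp only [Nat.card_sum, Nat.card_fin]; omega)
    (by simp only [Nat.card_sum, Nat.card_fin]; omega)
    {w | (fun f => w (Sum.inl f)) ∈ T} h2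
  refine h3.mono ?_
  intro x hx
  rcases hx with hx | hx
  · exact Or.inl hx
  · right
    rw [red_sum (fun f : F ⊕ Fin 2 => x (Sum.inl f))]
    exact baseLo hx

/-- the kept child of a node has the same form as the next bundle -/
theorem keep {K l u : ℕ} {A B C D : Type} {S : Set ((A ⊕ B) ⊕ (C ⊕ D) → Bool)}
    (k : Kill K l u ((A ⊕ B) ⊕ (C ⊕ D)) S) :
    Kill K l u ((A ⊕ C) ⊕ (B ⊕ D)) {y | (fun i => y (Equiv.sumSumSumComm A B C D i)) ∈ S} :=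
  k.transport (Equiv.sumSumSumComm A B C D)

/-- `R_3 = M, C4 | C3, X, P, V` -/
theorem kR3 (h14 : 14 ≤ h) (hs : ∀ p, 3 ≤ p → W (2 * h) (2 * m + 1) (2 * m + 3) 14 p)
    (hF : Nat.card F = 2 * h - 2) {R : Type} [Finite R]
    (hR : Nat.card F + Nat.card R = 2 * (2 * h))
    (hT : Kill (2 * h) (2 * m + 1) (2 * m + 3) (F ⊕ R) {x | (fun f => x (Sum.inl f)) ∈ T}) :
    Kill (2 * h) (2 * m + 1) (2 * m + 3)
      ((F ⊕ Fin 2) ⊕ (Fin 2 ⊕ (Fin 10 ⊕ (Fin (h - 6) ⊕ Fin (h - 6)))))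
      {x | (fun f => x (Sum.inl (Sum.inl f))) ∈ T ∨
        (red (fun f => x (Sum.inl (Sum.inl f))) + 1 = m ∧
          (red (fun c => x (Sum.inl (Sum.inr c))) = 0 ∨
            2 ≤ red (fun c => x (Sum.inr (Sum.inl c))) +
              red (fun c => x (Sum.inr (Sum.inr (Sum.inl c))))))} := by
  refine Kill.nodeG (N := Fin 2 ⊕ Fin (2 * h - 2)) ?_ ?_ ?_ (keep (kR4 (m := m) h14 hF hR hT))
    (kw4 h14 hs) ?_
  · simp only [Nat.card_sum, Nat.card_fin]; omega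
  · simp only [Nat.card_sum, Nat.card_fin]; omega
  · simp only [Nat.card_sum, Nat.card_fin]; omega
  · intro x1 x2 hx r1 r2 n w1 w2 w3 w4
    simp only [red_elim] at r1 r2 w1 w2 w3 w4
    have hx' : (fun f => x1 (Sum.inl f)) ∈ T ∨
        (red (fun f => x1 (Sum.inl f)) + 1 = m ∧
          (red (fun c => x1 (Sum.inr c)) = 0 ∨
            2 ≤ red (fun c => x2 (Sum.inl c)) + red (fun c => x2 (Sum.inr (Sum.inl c))))) := hx
    have s1 := red_sum x1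
    rcases hx' with hx' | ⟨hm1, hx'⟩
    · exact Or.inl (Or.inl hx')
    · by_cases hc : red (fun c => n (Sum.inl c)) = 0
      · left
        right
        show red (fun f => x1 (Sum.inl f)) + red (fun c => n (Sum.inl c)) + 1 ≤ m
        omega
      · rcases hx' with hx' | hx'
        · exfalso
          omega
        · right
          show 3 ≤ red (fun i => x2 (Sum.inl i)) + (red (fun i => x2 (Sum.inr (Sum.inl i))) +
            red (fun i => n (Sum.inl i)))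
          omega

/-- `R_2 = M, C3 | C2, Y, Z` -/
theorem kR2 (h14 : 14 ≤ h) (hs : ∀ p, 3 ≤ p → W (2 * h) (2 * m + 1) (2 * m + 3) 14 p)
    (hF : Nat.card F = 2 * h - 2) {R : Type} [Finite R]
    (hR : Nat.card F + Nat.card R = 2 * (2 * h))
    (hT : Kill (2 * h) (2 * m + 1) (2 * m + 3) (F ⊕ R) {x | (fun f => x (Sum.inl f)) ∈ T}) :
    Kill (2 * h) (2 * m + 1) (2 * m + 3)
      ((F ⊕ Fin 2) ⊕ (Fin 2 ⊕ (Fin (h - 4) ⊕ Fin (h + 2))))
      {x | (fun f => x (Sum.inl (Sum.inl f))) ∈ T ∨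
        (red (fun f => x (Sum.inl (Sum.inl f))) + 1 = m ∧
          (red (fun c => x (Sum.inl (Sum.inr c))) = 0 ∨
            2 ≤ red (fun c => x (Sum.inl (Sum.inr c))) ∨
            2 * red (fun c => x (Sum.inr (Sum.inr (Sum.inl c)))) < m))} := by
  refine Kill.nodeG (N := Fin 2 ⊕ (Fin 10 ⊕ (Fin (h - 6) ⊕ Fin (h - 6)))) ?_ ?_ ?_
    (keep (kR3 (m := m) h14 hs hF hR hT)) (kw3 h14) ?_
  · simp only [Nat.card_sum, Nat.card_fin]; omega
  · simp only [Nat.card_sum, Nat.card_fin]; omega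
  · simp only [Nat.card_sum, Nat.card_fin]; omega
  · intro x1 x2 hx r1 r2 n w1 w2 w3 w4
    simp only [red_elim] at r1 r2 w1 w2 w3 w4
    have hx' : (fun f => x1 (Sum.inl f)) ∈ T ∨
        (red (fun f => x1 (Sum.inl f)) + 1 = m ∧
          (red (fun c => x1 (Sum.inr c)) = 0 ∨ 2 ≤ red (fun c => x1 (Sum.inr c)) ∨
            2 * red (fun c => x2 (Sum.inr (Sum.inl c))) < m)) := hx
    have s1 := red_sum x1
    have s2 := red3 x2
    rcases hx' with hx' | ⟨hm1, hx'⟩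
    · exact Or.inl (Or.inl hx')
    · by_cases hz : red (fun c => x1 (Sum.inr c)) = 0
      · exfalso
        omega
      · by_cases hc : red (fun c => n (Sum.inl c)) = 0 ∨
            2 ≤ red (fun c => x1 (Sum.inr c)) + red (fun c => n (Sum.inr (Sum.inl c)))
        · left
          right
          exact ⟨hm1, hc⟩
        · push Not at hc
          right
          show m + 3 ≤ red (fun i => x2 (Sum.inl i)) + (red (fun i => n (Sum.inl i)) +
              red (fun i => x2 (Sum.inr (Sum.inr i)))) +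
            (m - (red (fun i => x2 (Sum.inr (Sum.inl i))) +
              red (fun i => n (Sum.inr (Sum.inl i)))))
          omega

/-- `R_1 = M, C2 | C1, Q1` -/
theorem kR1 (h14 : 14 ≤ h) (hm : m % 2 = 1)
    (hs : ∀ p, 3 ≤ p → W (2 * h) (2 * m + 1) (2 * m + 3) 14 p)
    (hh : ∀ p, m + 5 ≤ 2 * p → W (2 * h) (2 * m + 1) (2 * m + 3) h p)
    (hF : Nat.card F = 2 * h - 2) {R : Type} [Finite R]
    (hR : Nat.card F + Nat.card R = 2 * (2 * h))
    (hT : Kill (2 * h) (2 * m + 1) (2 * m + 3) (F ⊕ R) {x | (fun f => x (Sum.inl f)) ∈ T}) :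
    Kill (2 * h) (2 * m + 1) (2 * m + 3)
      ((F ⊕ Fin 2) ⊕ (Fin 2 ⊕ Fin (2 * h - 2)))
      {x | (fun f => x (Sum.inl (Sum.inl f))) ∈ T ∨
        (red (fun f => x (Sum.inl (Sum.inl f))) + 1 = m ∧
          1 ≤ red (fun c => x (Sum.inr (Sum.inl c))))} := by
  refine Kill.nodeG (N := Fin 2 ⊕ (Fin (h - 4) ⊕ Fin (h + 2))) ?_ ?_ ?_
    (keep (kR2 (m := m) h14 hs hF hR hT)) (kw2 h14 hh) ?_
  · simp only [Nat.card_sum, Nat.card_fin]; omega
  · simp only [Nat.card_sum, Nat.card_fin]; omega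
  · simp only [Nat.card_sum, Nat.card_fin]; omega
  · intro x1 x2 hx r1 r2 n w1 w2 w3 w4
    simp only [red_elim] at r1 r2 w1 w2 w3 w4
    have hx' : (fun f => x1 (Sum.inl f)) ∈ T ∨
        (red (fun f => x1 (Sum.inl f)) + 1 = m ∧ 1 ≤ red (fun c => x2 (Sum.inl c))) := hx
    rcases hx' with hx' | ⟨hm1, hx'⟩
    · exact Or.inl (Or.inl hx')
    · by_cases hc : red (fun c => n (Sum.inl c)) = 0 ∨ 2 ≤ red (fun c => n (Sum.inl c)) ∨
          2 * red (fun c => n (Sum.inr (Sum.inl c))) < m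
      · left
        right
        exact ⟨hm1, hc⟩
      · push Not at hc
        right
        show m + 5 ≤ 2 * (red (fun i => x2 (Sum.inl i)) + (red (fun i => n (Sum.inl i)) +
          red (fun i => n (Sum.inr (Sum.inl i)))))
        omega

end Chain

/-- **An alive set of `K - 2` edges cannot have exactly `m - 1` red edges** (`K = 2 h`, windows
`2 m + 1 ≤ red ≤ 2 m + 3`, `m` odd). -/
theorem main_gen {h m : ℕ} (h14 : 14 ≤ h) (hm : m % 2 = 1)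
    (hs : ∀ p, 3 ≤ p → W (2 * h) (2 * m + 1) (2 * m + 3) 14 p)
    (hh : ∀ p, m + 5 ≤ 2 * p → W (2 * h) (2 * m + 1) (2 * m + 3) h p) :
    W (2 * h) (2 * m + 1) (2 * m + 3) (2 * h - 2) (m - 1) := by
  intro F R _ _ hF hR T hT
  have k1 := kR1 (T := T) h14 hm hs hh hF hR hT
  -- the alive set `M, C1`
  have k2 := k1.transport (Equiv.sumSumSumComm F (Fin 2) (Fin 2) (Fin (2 * h - 2)))
  have k3 := W_seq' (K := 2 * h) (l := 2 * m + 1) (u := 2 * m + 3) (L := 2 * h) (F ⊕ Fin 2)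
    (Fin 2 ⊕ Fin (2 * h - 2))
    (by simp only [Nat.card_sum, Nat.card_fin]; omega)
    (by simp only [Nat.card_sum, Nat.card_fin]; omega)
    {w | (fun f => w (Sum.inl f)) ∈ T ∨ (red (fun f => w (Sum.inl f)) + 1 = m ∧
      1 ≤ red (fun c => w (Sum.inr c)))} k2
  have k4 := k3.transport (Equiv.sumAssoc F (Fin 2) (Fin 2 ⊕ Fin (2 * h - 2)))
  have hRc : Nat.card (Fin 2 ⊕ (Fin 2 ⊕ Fin (2 * h - 2))) = Nat.card R := by
    simp only [Nat.card_sum, Nat.card_fin]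
    omega
  refine kill_rest (T := {y | y ∈ T ∨ red y = m - 1}) hRc (k4.mono ?_)
  intro x hx
  have hx' : (fun f => x (Sum.inl f)) ∈ T ∨ red (fun f => x (Sum.inl f)) = m - 1 := hx
  show ((fun f => x (Sum.inl f)) ∈ T ∨ (red (fun f => x (Sum.inl f)) + 1 = m ∧
      1 ≤ red (fun c => x (Sum.inr (Sum.inl c))))) ∨
    W (2 * h) (2 * m + 1) (2 * m + 3) (2 * h) (red (fun f => x (Equiv.sumAssoc F (Fin 2)
      (Fin 2 ⊕ Fin (2 * h - 2)) (Sum.inl f))))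
  rcases hx' with hx' | hx'
  · exact Or.inl (Or.inl hx')
  · by_cases hc : 1 ≤ red (fun c => x (Sum.inr (Sum.inl c)))
    · exact Or.inl (Or.inr ⟨by omega, hc⟩)
    · right
      rw [red_sum (fun f : F ⊕ Fin 2 => x (Equiv.sumAssoc F (Fin 2)
        (Fin 2 ⊕ Fin (2 * h - 2)) (Sum.inl f)))]
      refine baseLo ?_
      show red (fun f => x (Sum.inl f)) + red (fun c => x (Sum.inr (Sum.inl c))) + 1 ≤ m
      omega

end Pool.Agent.Lib.MP_21a058_co.Slack3.M36
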