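import Pool.Agent.Lib.MP_21a058_co.Slack3.Rule

/-! `K - 2` edges that stay alive are not all blue, for the window `3 ≤ red ≤ 5` and even
`K ≥ 28`. -/

set_option autoImplicit false

namespace Pool.Agent.Lib.MP_21a058_co.Slack3.M41

open Pool.Agent.Lib.MP_21a058_co.Odd (red red_sum red_equiv red_le)

/-- Some structure over `I` forces `A` on every good colouring. -/
def Fo (K : ℕ) (I : Type) (A : (I → Bool) → Prop) : Prop := Kill K 3 5 I {x | ¬ A x}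

theorem Fo.mono {K : ℕ} {I : Type} {A B : (I → Bool) → Prop} (h : Fo K I A)
    (hAB : ∀ x, A x → B x) : Fo K I B :=
  Kill.mono h fun _ hx hA => hx (hAB _ hA)

theorem Fo.leaf (K : ℕ) (I : Type) : Fo K I (fun x => 3 ≤ red x ∧ red x ≤ 5) :=
  Kill.leaf I _ fun x hx => by
    have hx' : ¬ (3 ≤ red x ∧ red x ≤ 5) := hx
    omega

theorem Fo.info {K : ℕ} {I : Type} {A : (I → Bool) → Prop} (h : Fo K I A) :
    Fo K I (fun x => (3 ≤ red x ∧ red x ≤ 5) ∧ A x) := by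
  refine Kill.mono (Kill.addBase h) fun x hx => ?_
  have hx' : ¬ ((3 ≤ red x ∧ red x ≤ 5) ∧ A x) := hx
  by_cases hA : A x
  · right
    by_contra hcon
    exact hx' ⟨by omega, hA⟩
  · exact Or.inl hA

theorem Fo.node {K : ℕ} {I J1 J2 N : Type} [Finite N] (h1 : Nat.card J1 = K)
    (h2 : Nat.card J2 = K) (h3 : Nat.card N = K) (hK : K ≠ 0) (e : I ≃ J1 ⊕ J2)
    {A : (J1 ⊕ N → Bool) → Prop} {B : (J2 ⊕ N → Bool) → Prop}
    (hA : Fo K (J1 ⊕ N) A) (hB : Fo K (J2 ⊕ N) B) :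
    Fo K I (fun x => (3 ≤ red x ∧ red x ≤ 5) ∧ ∃ n : N → Bool,
      ((3 ≤ red (Sum.elim (fun j => x (e.symm (Sum.inl j))) n) ∧
        red (Sum.elim (fun j => x (e.symm (Sum.inl j))) n) ≤ 5) ∧
        A (Sum.elim (fun j => x (e.symm (Sum.inl j))) n)) ∧
      ((3 ≤ red (Sum.elim (fun j => x (e.symm (Sum.inr j))) n) ∧
        red (Sum.elim (fun j => x (e.symm (Sum.inr j))) n) ≤ 5) ∧
        B (Sum.elim (fun j => x (e.symm (Sum.inr j))) n))) := by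
  obtain ⟨eN⟩ : Nonempty (N ≃ Fin K) := ⟨Finite.equivFinOfCardEq h3⟩
  have kA := hA.info.transport (Equiv.sumCongr (Equiv.refl J1) eN)
  have kB := hB.info.transport (Equiv.sumCongr (Equiv.refl J2) eN)
  refine Kill.node I J1 J2 h1 h2 e _ _ _ kA kB fun x hx => ?_
  by_cases hg : 3 ≤ red x ∧ red x ≤ 5
  · right
    intro n
    by_contra hcon
    obtain ⟨c1, c2⟩ := not_or.1 hcon
    refine hx ⟨hg, fun i => n (eN i), ?_, ?_⟩
    · have c3 := Classical.not_not.1 c1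
      have : (fun i => (Sum.elim (fun j => x (e.symm (Sum.inl j))) n : J1 ⊕ Fin K → Bool)
          ((Equiv.sumCongr (Equiv.refl J1) eN) i)) =
          Sum.elim (fun j => x (e.symm (Sum.inl j))) fun i => n (eN i) := by
        funext i
        rcases i with i | i <;> rfl
      beta_reduce at c3
      rw [this] at c3
      exact c3
    · have c3 := Classical.not_not.1 c2
      have : (fun i => (Sum.elim (fun j => x (e.symm (Sum.inr j))) n : J2 ⊕ Fin K → Bool)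
          ((Equiv.sumCongr (Equiv.refl J2) eN) i)) =
          Sum.elim (fun j => x (e.symm (Sum.inr j))) fun i => n (eN i) := by
        funext i
        rcases i with i | i <;> rfl
      beta_reduce at c3
      rw [this] at c3
      exact c3
  · left
    omega

/-- The node rule in numbers. -/
theorem Fo.num {K : ℕ} {I J1 J2 N : Type} [Finite I] [Finite J1] [Finite J2] [Finite N]
    (h1 : Nat.card J1 = K)
    (h2 : Nat.card J2 = K) (h3 : Nat.card N = K) (hK : K ≠ 0) (e : I ≃ J1 ⊕ J2)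
    {A : (J1 ⊕ N → Bool) → Prop} {B : (J2 ⊕ N → Bool) → Prop}
    (hA : Fo K (J1 ⊕ N) A) (hB : Fo K (J2 ⊕ N) B) :
    Fo K I (fun x => ∃ n : N → Bool,
      (3 ≤ red (fun j => x (e.symm (Sum.inl j))) + red (fun j => x (e.symm (Sum.inr j))) ∧
        red (fun j => x (e.symm (Sum.inl j))) + red (fun j => x (e.symm (Sum.inr j))) ≤ 5) ∧
      (3 ≤ red (fun j => x (e.symm (Sum.inl j))) + red n ∧
        red (fun j => x (e.symm (Sum.inl j))) + red n ≤ 5) ∧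
      (3 ≤ red (fun j => x (e.symm (Sum.inr j))) + red n ∧
        red (fun j => x (e.symm (Sum.inr j))) + red n ≤ 5) ∧
      A (Sum.elim (fun j => x (e.symm (Sum.inl j))) n) ∧
      B (Sum.elim (fun j => x (e.symm (Sum.inr j))) n)) := by
  refine (Fo.node h1 h2 h3 hK e hA hB).mono ?_
  rintro x ⟨g0, n, ⟨g1, hA'⟩, g2, hB'⟩
  have r0 : red x = red (fun j => x (e.symm (Sum.inl j))) +
      red (fun j => x (e.symm (Sum.inr j))) :=
    (red_equiv e.symm x).symm.trans (red_sum _)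
  have r1 : red (Sum.elim (fun j => x (e.symm (Sum.inl j))) n) =
      red (fun j => x (e.symm (Sum.inl j))) + red n := red_sum _
  have r2 : red (Sum.elim (fun j => x (e.symm (Sum.inr j))) n) =
      red (fun j => x (e.symm (Sum.inr j))) + red n := red_sum _
  exact ⟨n, by omega, by omega, by omega, hA', hB'⟩

/-- Few edges that stay alive have at most two red ones. -/
theorem alive {K : ℕ} (h3 : ∀ L, L ≤ K / 2 → W K 3 5 L 3) {S R I : Type} [Finite S] [Finite R]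
    (hS : Nat.card S ≤ K / 2) (hR : Nat.card S + Nat.card R = 2 * K) (e : S ⊕ R ≃ I) :
    Fo K I (fun x => red (fun s => x (e (Sum.inl s))) ≤ 2) := by
  have k1 := W_seq' (K := K) (l := 3) (u := 5) (L := Nat.card S) S R rfl hR ∅
    ((Kill.empty K 3 5 _).mono (by intro x hx; exact absurd hx (Set.notMem_empty _)))
  refine Kill.mono (k1.transport e) fun x hx => Or.inr ?_
  have hx' : ¬ red (fun s => x (e (Sum.inl s))) ≤ 2 := hx
  show W K 3 5 (Nat.card S) (red (fun s => x (e (Sum.inl s))))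
  by_cases hp : red (fun s => x (e (Sum.inl s))) = 3
  · rw [hp]
    exact h3 _ hS
  · exact W_base (by omega) (by left; omega)

/-! ### Rearrangements -/

def eS (M A B Q : Type) : (M ⊕ A) ⊕ (B ⊕ Q) ≃ (A ⊕ Q) ⊕ (M ⊕ B) where
  toFun p := match p with
    | Sum.inl (Sum.inl i) => Sum.inr (Sum.inl i)
    | Sum.inl (Sum.inr i) => Sum.inl (Sum.inl i)
    | Sum.inr (Sum.inl i) => Sum.inr (Sum.inr i)
    | Sum.inr (Sum.inr i) => Sum.inl (Sum.inr i)
  invFun p := match p with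
    | Sum.inr (Sum.inl i) => Sum.inl (Sum.inl i)
    | Sum.inl (Sum.inl i) => Sum.inl (Sum.inr i)
    | Sum.inr (Sum.inr i) => Sum.inr (Sum.inl i)
    | Sum.inl (Sum.inr i) => Sum.inr (Sum.inr i)
  left_inv := by rintro ((i | i) | (i | i)) <;> rfl
  right_inv := by rintro ((i | i) | (i | i)) <;> rfl

/-- The set `C₁ + C₃ + Y` in `(C₁ + Q) + (C₃ + (B + (Y + Z)))`. -/
def e2 (C D Q B Y Z : Type) :
    ((C ⊕ D) ⊕ Y) ⊕ (Q ⊕ (B ⊕ Z)) ≃ (C ⊕ Q) ⊕ (D ⊕ (B ⊕ (Y ⊕ Z))) where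
  toFun p := match p with
    | Sum.inl (Sum.inl (Sum.inl i)) => Sum.inl (Sum.inl i)
    | Sum.inl (Sum.inl (Sum.inr i)) => Sum.inr (Sum.inl i)
    | Sum.inl (Sum.inr i) => Sum.inr (Sum.inr (Sum.inr (Sum.inl i)))
    | Sum.inr (Sum.inl i) => Sum.inl (Sum.inr i)
    | Sum.inr (Sum.inr (Sum.inl i)) => Sum.inr (Sum.inr (Sum.inl i))
    | Sum.inr (Sum.inr (Sum.inr i)) => Sum.inr (Sum.inr (Sum.inr (Sum.inr i)))
  invFun p := match p with
    | Sum.inl (Sum.inl i) => Sum.inl (Sum.inl (Sum.inl i))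
    | Sum.inr (Sum.inl i) => Sum.inl (Sum.inl (Sum.inr i))
    | Sum.inr (Sum.inr (Sum.inr (Sum.inl i))) => Sum.inl (Sum.inr i)
    | Sum.inl (Sum.inr i) => Sum.inr (Sum.inl i)
    | Sum.inr (Sum.inr (Sum.inl i)) => Sum.inr (Sum.inr (Sum.inl i))
    | Sum.inr (Sum.inr (Sum.inr (Sum.inr i))) => Sum.inr (Sum.inr (Sum.inr i))
  left_inv := by rintro (((i | i) | i) | (i | (i | i))) <;> rfl
  right_inv := by rintro ((i | i) | (i | (i | (i | i)))) <;> rfl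

/-- The set `C₃ + C₅ + X` in `(C₃ + (P + (X + V))) + (C₅ + Q)`. -/
def e4 (C D P X V Q : Type) :
    ((C ⊕ D) ⊕ X) ⊕ ((P ⊕ V) ⊕ Q) ≃ (C ⊕ (P ⊕ (X ⊕ V))) ⊕ (D ⊕ Q) where
  toFun p := match p with
    | Sum.inl (Sum.inl (Sum.inl i)) => Sum.inl (Sum.inl i)
    | Sum.inl (Sum.inl (Sum.inr i)) => Sum.inr (Sum.inl i)
    | Sum.inl (Sum.inr i) => Sum.inl (Sum.inr (Sum.inr (Sum.inl i)))
    | Sum.inr (Sum.inl (Sum.inl i)) => Sum.inl (Sum.inr (Sum.inl i))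
    | Sum.inr (Sum.inl (Sum.inr i)) => Sum.inl (Sum.inr (Sum.inr (Sum.inr i)))
    | Sum.inr (Sum.inr i) => Sum.inr (Sum.inr i)
  invFun p := match p with
    | Sum.inl (Sum.inl i) => Sum.inl (Sum.inl (Sum.inl i))
    | Sum.inr (Sum.inl i) => Sum.inl (Sum.inl (Sum.inr i))
    | Sum.inl (Sum.inr (Sum.inr (Sum.inl i))) => Sum.inl (Sum.inr i)
    | Sum.inl (Sum.inr (Sum.inl i)) => Sum.inr (Sum.inl (Sum.inl i))
    | Sum.inl (Sum.inr (Sum.inr (Sum.inr i))) => Sum.inr (Sum.inl (Sum.inr i))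
    | Sum.inr (Sum.inr i) => Sum.inr (Sum.inr i)
  left_inv := by rintro (((i | i) | i) | ((i | i) | i)) <;> rfl
  right_inv := by rintro ((i | (i | (i | i))) | (i | i)) <;> rfl

/-- The node at `w₃`: `(C₂ + (B + (Y + Z))) + (C₄ + (P + (X + V)))` into
`(C₂ + (C₄ + B)) + (Z + P)` and `Y + (X + V)`. -/
def e3 (C D B Y Z P X V : Type) :
    (C ⊕ (B ⊕ (Y ⊕ Z))) ⊕ (D ⊕ (P ⊕ (X ⊕ V))) ≃
      ((C ⊕ (D ⊕ B)) ⊕ (Z ⊕ P)) ⊕ (Y ⊕ (X ⊕ V)) where
  toFun p := match p with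
    | Sum.inl (Sum.inl i) => Sum.inl (Sum.inl (Sum.inl i))
    | Sum.inl (Sum.inr (Sum.inl i)) => Sum.inl (Sum.inl (Sum.inr (Sum.inr i)))
    | Sum.inl (Sum.inr (Sum.inr (Sum.inl i))) => Sum.inr (Sum.inl i)
    | Sum.inl (Sum.inr (Sum.inr (Sum.inr i))) => Sum.inl (Sum.inr (Sum.inl i))
    | Sum.inr (Sum.inl i) => Sum.inl (Sum.inl (Sum.inr (Sum.inl i)))
    | Sum.inr (Sum.inr (Sum.inl i)) => Sum.inl (Sum.inr (Sum.inr i))
    | Sum.inr (Sum.inr (Sum.inr i)) => Sum.inr (Sum.inr i)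
  invFun p := match p with
    | Sum.inl (Sum.inl (Sum.inl i)) => Sum.inl (Sum.inl i)
    | Sum.inl (Sum.inl (Sum.inr (Sum.inr i))) => Sum.inl (Sum.inr (Sum.inl i))
    | Sum.inr (Sum.inl i) => Sum.inl (Sum.inr (Sum.inr (Sum.inl i)))
    | Sum.inl (Sum.inr (Sum.inl i)) => Sum.inl (Sum.inr (Sum.inr (Sum.inr i)))
    | Sum.inl (Sum.inl (Sum.inr (Sum.inl i))) => Sum.inr (Sum.inl i)
    | Sum.inl (Sum.inr (Sum.inr i)) => Sum.inr (Sum.inr (Sum.inl i))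
    | Sum.inr (Sum.inr i) => Sum.inr (Sum.inr (Sum.inr i))
  left_inv := by rintro ((i | (i | (i | i))) | (i | (i | i))) <;> rfl
  right_inv := by rintro (((i | (i | i)) | (i | i)) | (i | i)) <;> rfl

/-- Below the first half at `w₃`. -/
def eG (G Z P N N' : Type) : (G ⊕ (Z ⊕ P)) ⊕ (N ⊕ N') ≃ (G ⊕ (Z ⊕ N)) ⊕ (P ⊕ N') where
  toFun p := match p with
    | Sum.inl (Sum.inl i) => Sum.inl (Sum.inl i)
    | Sum.inl (Sum.inr (Sum.inl i)) => Sum.inl (Sum.inr (Sum.inl i))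
    | Sum.inl (Sum.inr (Sum.inr i)) => Sum.inr (Sum.inl i)
    | Sum.inr (Sum.inl i) => Sum.inl (Sum.inr (Sum.inr i))
    | Sum.inr (Sum.inr i) => Sum.inr (Sum.inr i)
  invFun p := match p with
    | Sum.inl (Sum.inl i) => Sum.inl (Sum.inl i)
    | Sum.inl (Sum.inr (Sum.inl i)) => Sum.inl (Sum.inr (Sum.inl i))
    | Sum.inr (Sum.inl i) => Sum.inl (Sum.inr (Sum.inr i))
    | Sum.inl (Sum.inr (Sum.inr i)) => Sum.inr (Sum.inl i)
    | Sum.inr (Sum.inr i) => Sum.inr (Sum.inr i)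
  left_inv := by rintro ((i | (i | i)) | (i | i)) <;> rfl
  right_inv := by rintro ((i | (i | i)) | (i | i)) <;> rfl

/-- Below the second half at `w₃`. -/
def eH (Y X V N N' : Type) : (Y ⊕ (X ⊕ V)) ⊕ (N ⊕ N') ≃ (Y ⊕ (X ⊕ N)) ⊕ (V ⊕ N') where
  toFun p := match p with
    | Sum.inl (Sum.inl i) => Sum.inl (Sum.inl i)
    | Sum.inl (Sum.inr (Sum.inl i)) => Sum.inl (Sum.inr (Sum.inl i))
    | Sum.inl (Sum.inr (Sum.inr i)) => Sum.inr (Sum.inl i)
    | Sum.inr (Sum.inl i) => Sum.inl (Sum.inr (Sum.inr i))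
    | Sum.inr (Sum.inr i) => Sum.inr (Sum.inr i)
  invFun p := match p with
    | Sum.inl (Sum.inl i) => Sum.inl (Sum.inl i)
    | Sum.inl (Sum.inr (Sum.inl i)) => Sum.inl (Sum.inr (Sum.inl i))
    | Sum.inr (Sum.inl i) => Sum.inl (Sum.inr (Sum.inr i))
    | Sum.inl (Sum.inr (Sum.inr i)) => Sum.inr (Sum.inl i)
    | Sum.inr (Sum.inr i) => Sum.inr (Sum.inr i)
  left_inv := by rintro ((i | (i | i)) | (i | i)) <;> rfl
  right_inv := by rintro ((i | (i | i)) | (i | i)) <;> rfl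

section

variable {K : ℕ}

/-- At `w₂`. -/
theorem test2 (he : K % 2 = 0) (hK : 28 ≤ K) (h3 : ∀ L, L ≤ K / 2 → W K 3 5 L 3) :
    Fo K ((Fin 2 ⊕ Fin (K - 2)) ⊕ (Fin 2 ⊕ (Fin 2 ⊕ (Fin (K / 2 - 4) ⊕ Fin (K / 2)))))
      (fun x => red (fun i => x (Sum.inl (Sum.inl i))) + red (fun i => x (Sum.inr (Sum.inl i))) +
        red (fun i => x (Sum.inr (Sum.inr (Sum.inr (Sum.inl i))))) ≤ 2) := by
  refine (alive h3 ?_ ?_ (e2 (Fin 2) (Fin 2) (Fin (K - 2)) (Fin 2) (Fin (K / 2 - 4))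
    (Fin (K / 2)))).mono ?_
  · simp only [Nat.card_sum, Nat.card_fin]; omega
  · simp only [Nat.card_sum, Nat.card_fin]; omega
  · intro x hx
    have r : red (fun s => x ((e2 (Fin 2) (Fin 2) (Fin (K - 2)) (Fin 2) (Fin (K / 2 - 4))
        (Fin (K / 2))) (Sum.inl s))) =
        red (fun i => x (Sum.inl (Sum.inl i))) + red (fun i => x (Sum.inr (Sum.inl i))) +
        red (fun i => x (Sum.inr (Sum.inr (Sum.inr (Sum.inl i))))) :=
      (red_sum _).trans (congrArg (· + _) (red_sum _))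
    omega

/-- At `w₄`. -/
theorem test4 (he : K % 2 = 0) (hK : 28 ≤ K) (h3 : ∀ L, L ≤ K / 2 → W K 3 5 L 3) :
    Fo K ((Fin 2 ⊕ (Fin (K / 2 - 6) ⊕ (Fin 10 ⊕ Fin (K / 2 - 6)))) ⊕ (Fin 2 ⊕ Fin (K - 2)))
      (fun x => red (fun i => x (Sum.inl (Sum.inl i))) + red (fun i => x (Sum.inr (Sum.inl i))) +
        red (fun i => x (Sum.inl (Sum.inr (Sum.inr (Sum.inl i))))) ≤ 2) := by
  refine (alive h3 ?_ ?_ (e4 (Fin 2) (Fin 2) (Fin (K / 2 - 6)) (Fin 10) (Fin (K / 2 - 6))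
    (Fin (K - 2)))).mono ?_
  · simp only [Nat.card_sum, Nat.card_fin]; omega
  · simp only [Nat.card_sum, Nat.card_fin]; omega
  · intro x hx
    have r : red (fun s => x ((e4 (Fin 2) (Fin 2) (Fin (K / 2 - 6)) (Fin 10) (Fin (K / 2 - 6))
        (Fin (K - 2))) (Sum.inl s))) =
        red (fun i => x (Sum.inl (Sum.inl i))) + red (fun i => x (Sum.inr (Sum.inl i))) +
        red (fun i => x (Sum.inl (Sum.inr (Sum.inr (Sum.inl i))))) :=
      (red_sum _).trans (congrArg (· + _) (red_sum _))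
    omega

/-- Below the first half at `w₃`. -/
theorem half1 (he : K % 2 = 0) (hK : 28 ≤ K) (h3 : ∀ L, L ≤ K / 2 → W K 3 5 L 3) :
    Fo K (((Fin 2 ⊕ (Fin 2 ⊕ Fin 2)) ⊕ (Fin (K / 2) ⊕ Fin (K / 2 - 6))) ⊕
      (Fin (K / 2 - 6) ⊕ Fin (K / 2 + 6)))
      (fun x => red (fun i => x (Sum.inl (Sum.inl (Sum.inl i)))) +
        (red (fun i => x (Sum.inl (Sum.inl (Sum.inr (Sum.inl i))))) +
        red (fun i => x (Sum.inl (Sum.inl (Sum.inr (Sum.inr i)))))) ≤ 2 ∧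
        red (fun i => x (Sum.inl (Sum.inl (Sum.inl i)))) +
        (red (fun i => x (Sum.inl (Sum.inl (Sum.inr (Sum.inl i))))) +
        red (fun i => x (Sum.inl (Sum.inl (Sum.inr (Sum.inr i)))))) +
        (red (fun i => x (Sum.inl (Sum.inr (Sum.inl i)))) +
        red (fun i => x (Sum.inr (Sum.inl i)))) ≤ 3) := by
  have hA : Fo K (((Fin 2 ⊕ (Fin 2 ⊕ Fin 2)) ⊕ (Fin (K / 2) ⊕ Fin (K / 2 - 6))) ⊕ Fin K)
      (fun x => red (fun i => x (Sum.inl (Sum.inl (Sum.inl i)))) +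
        (red (fun i => x (Sum.inl (Sum.inl (Sum.inr (Sum.inl i))))) +
        red (fun i => x (Sum.inl (Sum.inl (Sum.inr (Sum.inr i)))))) ≤ 2) := by
    refine (alive h3 (S := Fin 2 ⊕ (Fin 2 ⊕ Fin 2))
      (R := (Fin (K / 2) ⊕ Fin (K / 2 - 6)) ⊕ Fin K) ?_ ?_
      (Equiv.sumAssoc _ _ _).symm).mono ?_
    · simp only [Nat.card_sum, Nat.card_fin]; omega
    · simp only [Nat.card_sum, Nat.card_fin]; omega
    · intro x hx
      have r : red (fun s : Fin 2 ⊕ (Fin 2 ⊕ Fin 2) =>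
          x ((Equiv.sumAssoc _ (Fin (K / 2) ⊕ Fin (K / 2 - 6)) (Fin K)).symm (Sum.inl s))) =
          red (fun i => x (Sum.inl (Sum.inl (Sum.inl i)))) +
          (red (fun i => x (Sum.inl (Sum.inl (Sum.inr (Sum.inl i))))) +
          red (fun i => x (Sum.inl (Sum.inl (Sum.inr (Sum.inr i)))))) :=
        (red_sum _).trans (congrArg _ (red_sum _))
      omega
  refine (Fo.num (J1 := (Fin 2 ⊕ (Fin 2 ⊕ Fin 2)) ⊕ (Fin (K / 2) ⊕ Fin (K / 2 - 6)))
    (J2 := Fin (K / 2 - 6) ⊕ Fin (K / 2 + 6)) (N := Fin K) ?_ ?_ (Nat.card_fin K) (by omega)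
    (eG (Fin 2 ⊕ (Fin 2 ⊕ Fin 2)) (Fin (K / 2)) (Fin (K / 2 - 6)) (Fin (K / 2 - 6))
      (Fin (K / 2 + 6))) hA (Fo.leaf K _)).mono ?_
  · simp only [Nat.card_sum, Nat.card_fin]; omega
  · simp only [Nat.card_sum, Nat.card_fin]; omega
  · rintro x ⟨n, g1, g2, g3, hA', -⟩
    have r1 : red (fun j => x ((eG (Fin 2 ⊕ (Fin 2 ⊕ Fin 2)) (Fin (K / 2)) (Fin (K / 2 - 6))
        (Fin (K / 2 - 6)) (Fin (K / 2 + 6))).symm (Sum.inl j))) =
        red (fun i => x (Sum.inl (Sum.inl (Sum.inl i)))) +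
        (red (fun i => x (Sum.inl (Sum.inl (Sum.inr (Sum.inl i))))) +
        red (fun i => x (Sum.inl (Sum.inl (Sum.inr (Sum.inr i)))))) +
        (red (fun i => x (Sum.inl (Sum.inr (Sum.inl i)))) +
        red (fun i => x (Sum.inr (Sum.inl i)))) :=
      (red_sum _).trans (congrArg₂ (· + ·) ((red_sum _).trans (congrArg _ (red_sum _)))
        (red_sum _))
    refine ⟨hA', ?_⟩
    omega

/-- Below the second half at `w₃`. -/
theorem half2 (he : K % 2 = 0) (hK : 28 ≤ K) :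
    Fo K ((Fin (K / 2 - 4) ⊕ (Fin 10 ⊕ Fin (K / 2 - 6))) ⊕ (Fin (K / 2 - 6) ⊕ Fin (K / 2 + 6)))
      (fun x => 1 ≤ red (fun i => x (Sum.inl (Sum.inl i))) +
        (red (fun i => x (Sum.inl (Sum.inr (Sum.inl i)))) +
        red (fun i => x (Sum.inr (Sum.inl i))))) := by
  refine (Fo.num (J1 := Fin (K / 2 - 4) ⊕ (Fin 10 ⊕ Fin (K / 2 - 6)))
    (J2 := Fin (K / 2 - 6) ⊕ Fin (K / 2 + 6)) (N := Fin K) ?_ ?_ (Nat.card_fin K) (by omega)
    (eH (Fin (K / 2 - 4)) (Fin 10) (Fin (K / 2 - 6)) (Fin (K / 2 - 6)) (Fin (K / 2 + 6)))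
    (Fo.leaf K _) (Fo.leaf K _)).mono ?_
  · simp only [Nat.card_sum, Nat.card_fin]; omega
  · simp only [Nat.card_sum, Nat.card_fin]; omega
  · rintro x ⟨n, g1, g2, g3, -, -⟩
    have r1 : red (fun j => x ((eH (Fin (K / 2 - 4)) (Fin 10) (Fin (K / 2 - 6))
        (Fin (K / 2 - 6)) (Fin (K / 2 + 6))).symm (Sum.inl j))) =
        red (fun i => x (Sum.inl (Sum.inl i))) +
        (red (fun i => x (Sum.inl (Sum.inr (Sum.inl i)))) +
        red (fun i => x (Sum.inr (Sum.inl i)))) :=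
      (red_sum _).trans (congrArg _ (red_sum _))
    omega

/-- At `w₃`. -/
theorem test3 (he : K % 2 = 0) (hK : 28 ≤ K) (h3 : ∀ L, L ≤ K / 2 → W K 3 5 L 3) :
    Fo K ((Fin 2 ⊕ (Fin 2 ⊕ (Fin (K / 2 - 4) ⊕ Fin (K / 2)))) ⊕
      (Fin 2 ⊕ (Fin (K / 2 - 6) ⊕ (Fin 10 ⊕ Fin (K / 2 - 6)))))
      (fun x => red (fun i => x (Sum.inl (Sum.inl i))) +
        (red (fun i => x (Sum.inr (Sum.inl i))) +
          red (fun i => x (Sum.inl (Sum.inr (Sum.inl i))))) ≤ 2 ∧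
        ∃ n : ℕ, red (fun i => x (Sum.inl (Sum.inl i))) +
          (red (fun i => x (Sum.inr (Sum.inl i))) +
          red (fun i => x (Sum.inl (Sum.inr (Sum.inl i))))) +
          (red (fun i => x (Sum.inl (Sum.inr (Sum.inr (Sum.inr i))))) + n) ≤ 3 ∧
          1 ≤ red (fun i => x (Sum.inl (Sum.inr (Sum.inr (Sum.inl i))))) +
            (red (fun i => x (Sum.inr (Sum.inr (Sum.inr (Sum.inl i))))) + n)) := by
  refine (Fo.num (J1 := (Fin 2 ⊕ (Fin 2 ⊕ Fin 2)) ⊕ (Fin (K / 2) ⊕ Fin (K / 2 - 6)))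
    (J2 := Fin (K / 2 - 4) ⊕ (Fin 10 ⊕ Fin (K / 2 - 6)))
    (N := Fin (K / 2 - 6) ⊕ Fin (K / 2 + 6)) ?_ ?_ ?_ (by omega)
    (e3 (Fin 2) (Fin 2) (Fin 2) (Fin (K / 2 - 4)) (Fin (K / 2)) (Fin (K / 2 - 6)) (Fin 10)
      (Fin (K / 2 - 6))) (half1 he hK h3) (half2 he hK)).mono ?_
  · simp only [Nat.card_sum, Nat.card_fin]; omega
  · simp only [Nat.card_sum, Nat.card_fin]; omega
  · simp only [Nat.card_sum, Nat.card_fin]; omega
  · rintro x ⟨n, g1, g2, g3, ⟨a1, a2⟩, b1⟩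
    exact ⟨a1, red (fun i => n (Sum.inl i)), a2, b1⟩

end

theorem main {K : ℕ} (he : K % 2 = 0) (hK : 28 ≤ K) (h3 : ∀ L, L ≤ K / 2 → W K 3 5 L 3) :
    W K 3 5 (K - 2) 0 := by
  intro M R _ _ hM hR T hT
  have cC : ∀ Q : Type, [Finite Q] → Nat.card Q = K - 2 → Nat.card (Fin 2 ⊕ Q) = K := by
    intro Q _ hQ
    rw [Nat.card_sum, Nat.card_fin, hQ]
    omega
  have cM : Nat.card (M ⊕ Fin 2) = K := by
    rw [Nat.card_sum, Nat.card_fin, hM]
    omega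
  have cQ : Nat.card (Fin 2 ⊕ Fin (K - 2)) = K := cC _ (Nat.card_fin _)
  have cQ2 : Nat.card (Fin 2 ⊕ (Fin 2 ⊕ (Fin (K / 2 - 4) ⊕ Fin (K / 2)))) = K := by
    simp only [Nat.card_sum, Nat.card_fin]; omega
  have cQ3 : Nat.card (Fin 2 ⊕ (Fin (K / 2 - 6) ⊕ (Fin 10 ⊕ Fin (K / 2 - 6)))) = K := by
    simp only [Nat.card_sum, Nat.card_fin]; omega
  have hK0 : K ≠ 0 := by omega
  -- R 5
  have f5 : Fo K ((M ⊕ Fin 2) ⊕ (Fin 2 ⊕ Fin (K - 2)))
      (fun x => (fun i => x (Sum.inl (Sum.inl i))) ∉ T) := by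
    obtain ⟨e⟩ : Nonempty (R ≃ Fin 2 ⊕ (Fin 2 ⊕ Fin (K - 2))) := by
      refine Finite.card_eq.1 ?_
      simp only [Nat.card_sum, Nat.card_fin]
      omega
    refine Kill.mono (hT.transport ((Equiv.sumCongr (Equiv.refl M) e).trans
      (Equiv.sumAssoc M (Fin 2) (Fin 2 ⊕ Fin (K - 2))).symm)) fun x hx => ?_
    exact Classical.not_not.1 hx
  -- R 4
  have f4 : Fo K ((M ⊕ Fin 2) ⊕ (Fin 2 ⊕ Fin (K - 2)))
      (fun x => (fun i => x (Sum.inl (Sum.inl i))) ∉ T ∧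
        (red (fun i => x (Sum.inl (Sum.inl i))) = 0 → 1 ≤ red (fun i => x (Sum.inr (Sum.inl i))))) := by
    refine (Fo.num cQ cM cQ hK0 (eS M (Fin 2) (Fin 2) (Fin (K - 2)))
      (Fo.leaf K _) f5).mono ?_
    rintro x ⟨n, g1, g2, g3, -, hB⟩
    have r2 : red (fun j => x ((eS M (Fin 2) (Fin 2) (Fin (K - 2))).symm (Sum.inr j))) =
        red (fun i => x (Sum.inl (Sum.inl i))) + red (fun i => x (Sum.inr (Sum.inl i))) :=
      red_sum _
    exact ⟨hB, fun h0 => by omega⟩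
  -- R 3
  have f3 : Fo K ((M ⊕ Fin 2) ⊕ (Fin 2 ⊕ (Fin (K / 2 - 6) ⊕ (Fin 10 ⊕ Fin (K / 2 - 6)))))
      (fun x => (fun i => x (Sum.inl (Sum.inl i))) ∉ T ∧
        (red (fun i => x (Sum.inl (Sum.inl i))) = 0 → 1 ≤ red (fun i => x (Sum.inr (Sum.inl i))) ∧
          red (fun i => x (Sum.inl (Sum.inr i))) +
            red (fun i => x (Sum.inr (Sum.inr (Sum.inr (Sum.inl i))))) ≤ 1)) := by
    refine (Fo.num cQ3 cM cQ hK0
      (eS M (Fin 2) (Fin 2) (Fin (K / 2 - 6) ⊕ (Fin 10 ⊕ Fin (K / 2 - 6))))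
      (test4 he hK h3) f4).mono ?_
    rintro x ⟨n, g1, g2, g3, hA, hB1, hB2⟩
    have r2 : red (fun j => x ((eS M (Fin 2) (Fin 2)
        (Fin (K / 2 - 6) ⊕ (Fin 10 ⊕ Fin (K / 2 - 6)))).symm (Sum.inr j))) =
        red (fun i => x (Sum.inl (Sum.inl i))) + red (fun i => x (Sum.inr (Sum.inl i))) :=
      red_sum _
    have a1 : red (fun i => x (Sum.inl (Sum.inr i))) + red (fun i => n (Sum.inl i)) +
        red (fun i => x (Sum.inr (Sum.inr (Sum.inr (Sum.inl i))))) ≤ 2 := hA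
    have b2 : red (fun i => x (Sum.inl (Sum.inl i))) = 0 → 1 ≤ red (fun i => n (Sum.inl i)) := hB2
    refine ⟨hB1, fun h0 => ?_⟩
    have b3 := b2 h0
    omega
  -- R 2
  have f2 : Fo K ((M ⊕ Fin 2) ⊕ (Fin 2 ⊕ (Fin 2 ⊕ (Fin (K / 2 - 4) ⊕ Fin (K / 2)))))
      (fun x => (fun i => x (Sum.inl (Sum.inl i))) ∉ T ∧
        (red (fun i => x (Sum.inl (Sum.inl i))) = 0 →
          red (fun i => x (Sum.inr (Sum.inl i))) = 1 ∧
          red (fun i => x (Sum.inl (Sum.inr i))) +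
            red (fun i => x (Sum.inr (Sum.inr (Sum.inl i)))) ≤ 1 ∧
          (red (fun i => x (Sum.inr (Sum.inr (Sum.inr (Sum.inl i))))) = 0 →
            red (fun i => x (Sum.inl (Sum.inr i))) +
            red (fun i => x (Sum.inr (Sum.inr (Sum.inl i)))) +
            red (fun i => x (Sum.inr (Sum.inr (Sum.inr (Sum.inr i))))) ≤ 1) ∧
          3 ≤ red (fun i => x (Sum.inl (Sum.inr i))) + red (fun i => x (Sum.inr (Sum.inl i))) +
            (red (fun i => x (Sum.inr (Sum.inr (Sum.inl i)))) +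
            (red (fun i => x (Sum.inr (Sum.inr (Sum.inr (Sum.inl i))))) +
            red (fun i => x (Sum.inr (Sum.inr (Sum.inr (Sum.inr i))))))))) := by
    refine (Fo.num cQ2 cM cQ3 hK0
      (eS M (Fin 2) (Fin 2) (Fin 2 ⊕ (Fin (K / 2 - 4) ⊕ Fin (K / 2))))
      (test3 he hK h3) f3).mono ?_
    rintro x ⟨n, g1, g2, g3, ⟨hA1, n2, hA2, hA3⟩, hB1, hB2⟩
    have r1 : red (fun j => x ((eS M (Fin 2) (Fin 2)
        (Fin 2 ⊕ (Fin (K / 2 - 4) ⊕ Fin (K / 2)))).symm (Sum.inl j))) =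
        red (fun i => x (Sum.inl (Sum.inr i))) +
          (red (fun i => x (Sum.inr (Sum.inr (Sum.inl i)))) +
            (red (fun i => x (Sum.inr (Sum.inr (Sum.inr (Sum.inl i))))) +
            red (fun i => x (Sum.inr (Sum.inr (Sum.inr (Sum.inr i))))))) :=
      (red_sum _).trans (congrArg _ ((red_sum _).trans (congrArg _ (red_sum _))))
    have r2 : red (fun j => x ((eS M (Fin 2) (Fin 2)
        (Fin 2 ⊕ (Fin (K / 2 - 4) ⊕ Fin (K / 2)))).symm (Sum.inr j))) =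
        red (fun i => x (Sum.inl (Sum.inl i))) + red (fun i => x (Sum.inr (Sum.inl i))) :=
      red_sum _
    have a1 : red (fun i => x (Sum.inl (Sum.inr i))) +
        (red (fun i => n (Sum.inl i)) + red (fun i => x (Sum.inr (Sum.inr (Sum.inl i))))) ≤ 2 := hA1
    have a2 : red (fun i => x (Sum.inl (Sum.inr i))) +
        (red (fun i => n (Sum.inl i)) + red (fun i => x (Sum.inr (Sum.inr (Sum.inl i))))) +
        (red (fun i => x (Sum.inr (Sum.inr (Sum.inr (Sum.inr i))))) + n2) ≤ 3 := hA2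
    have a3 : 1 ≤ red (fun i => x (Sum.inr (Sum.inr (Sum.inr (Sum.inl i))))) +
        (red (fun i => n (Sum.inr (Sum.inr (Sum.inl i)))) + n2) := hA3
    have b2 : red (fun i => x (Sum.inl (Sum.inl i))) = 0 → 1 ≤ red (fun i => n (Sum.inl i)) ∧
        red (fun i => x (Sum.inr (Sum.inl i))) +
          red (fun i => n (Sum.inr (Sum.inr (Sum.inl i)))) ≤ 1 := hB2
    refine ⟨hB1, fun h0 => ?_⟩
    obtain ⟨b3, b4⟩ := b2 h0
    refine ⟨by omega, by omega, fun hy => by omega, by omega⟩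
  -- R 1
  have f1 : Fo K ((M ⊕ Fin 2) ⊕ (Fin 2 ⊕ Fin (K - 2)))
      (fun x => (fun i => x (Sum.inl (Sum.inl i))) ∉ T ∧
        (red (fun i => x (Sum.inl (Sum.inl i))) = 0 →
          red (fun i => x (Sum.inl (Sum.inr i))) = 0)) := by
    refine (Fo.num cQ cM cQ2 hK0 (eS M (Fin 2) (Fin 2) (Fin (K - 2)))
      (test2 he hK h3) f2).mono ?_
    rintro x ⟨n, g1, g2, g3, hA, hB1, hB2⟩
    have r2 : red (fun j => x ((eS M (Fin 2) (Fin 2) (Fin (K - 2))).symm (Sum.inr j))) =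
        red (fun i => x (Sum.inl (Sum.inl i))) + red (fun i => x (Sum.inr (Sum.inl i))) :=
      red_sum _
    have a1 : red (fun i => x (Sum.inl (Sum.inr i))) + red (fun i => n (Sum.inl i)) +
        red (fun i => n (Sum.inr (Sum.inr (Sum.inl i)))) ≤ 2 := hA
    have b2 : red (fun i => x (Sum.inl (Sum.inl i))) = 0 →
          red (fun i => n (Sum.inl i)) = 1 ∧
          red (fun i => x (Sum.inr (Sum.inl i))) +
            red (fun i => n (Sum.inr (Sum.inl i))) ≤ 1 ∧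
          (red (fun i => n (Sum.inr (Sum.inr (Sum.inl i)))) = 0 →
            red (fun i => x (Sum.inr (Sum.inl i))) +
            red (fun i => n (Sum.inr (Sum.inl i))) +
            red (fun i => n (Sum.inr (Sum.inr (Sum.inr i)))) ≤ 1) ∧
          3 ≤ red (fun i => x (Sum.inr (Sum.inl i))) + red (fun i => n (Sum.inl i)) +
            (red (fun i => n (Sum.inr (Sum.inl i))) +
            (red (fun i => n (Sum.inr (Sum.inr (Sum.inl i)))) +
            red (fun i => n (Sum.inr (Sum.inr (Sum.inr i)))))) := hB2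
    refine ⟨hB1, fun h0 => ?_⟩
    obtain ⟨b3, b4, b5, b6⟩ := b2 h0
    omega
  -- R 0
  have f0 : Fo K ((M ⊕ Fin 2) ⊕ (Fin 2 ⊕ Fin (K - 2)))
      (fun x => (fun i => x (Sum.inl (Sum.inl i))) ∉ T ∧
        red (fun i => x (Sum.inl (Sum.inl i))) ≠ 0) := by
    refine (Fo.num cQ cM cQ hK0 (eS M (Fin 2) (Fin 2) (Fin (K - 2)))
      (Fo.leaf K _) f1).mono ?_
    rintro x ⟨n, g1, g2, g3, -, hB1, hB2⟩
    have r2 : red (fun j => x ((eS M (Fin 2) (Fin 2) (Fin (K - 2))).symm (Sum.inr j))) =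
        red (fun i => x (Sum.inl (Sum.inl i))) + red (fun i => x (Sum.inr (Sum.inl i))) :=
      red_sum _
    have b2 : red (fun i => x (Sum.inl (Sum.inl i))) = 0 →
          red (fun i => x (Sum.inr (Sum.inl i))) = 0 := hB2
    refine ⟨hB1, fun h0 => ?_⟩
    have b3 := b2 h0
    omega
  have f : Kill K 3 5 (M ⊕ (Fin 2 ⊕ (Fin 2 ⊕ Fin (K - 2))))
      {x | (fun i => x (Sum.inl i)) ∈ {y : M → Bool | y ∈ T ∨ red y = 0}} := by
    refine Kill.mono (Kill.transport f0 (Equiv.sumAssoc M (Fin 2) (Fin 2 ⊕ Fin (K - 2))))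
      fun x hx => ?_
    intro hcon
    rcases hx with hx | hx
    · exact hcon.1 hx
    · exact hcon.2 hx
  refine kill_rest ?_ f
  simp only [Nat.card_sum, Nat.card_fin]
  omega

end Pool.Agent.Lib.MP_21a058_co.Slack3.M41
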