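import Pool.Agent.Lib.MP_21a058_co.Slack3.Rule

/-! The main lemma for slack two: an alive set of `K - c` edges is not all blue. -/

set_option autoImplicit false

namespace Pool.Agent.Lib.MP_21a058_co.Slack3

open Pool.Agent.Lib.MP_21a058_co.Odd (red red_sum red_equiv red_le)

/-- Some structure over `I` forces `A` on every good colouring. -/
def Fo (K l u : ℕ) (I : Type) (A : (I → Bool) → Prop) : Prop := Kill K l u I {x | ¬ A x}

theorem Fo.mono {K l u : ℕ} {I : Type} {A B : (I → Bool) → Prop} (h : Fo K l u I A)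
    (hAB : ∀ x, A x → B x) : Fo K l u I B :=
  Kill.mono h fun _ hx hA => hx (hAB _ hA)

theorem Fo.transport {K l u : ℕ} {I J : Type} {A : (I → Bool) → Prop} (h : Fo K l u I A)
    (e : I ≃ J) : Fo K l u J (fun y => A (fun i => y (e i))) :=
  Kill.transport h e

theorem Fo.leaf (K l u : ℕ) (I : Type) : Fo K l u I (fun x => l ≤ red x ∧ red x ≤ u) :=
  Kill.leaf I _ fun x hx => by
    have hx' : ¬ (l ≤ red x ∧ red x ≤ u) := hx
    omega

theorem Fo.info {K l u : ℕ} {I : Type} {A : (I → Bool) → Prop} (h : Fo K l u I A) :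
    Fo K l u I (fun x => (l ≤ red x ∧ red x ≤ u) ∧ A x) := by
  refine Kill.mono (Kill.addBase h) fun x hx => ?_
  have hx' : ¬ ((l ≤ red x ∧ red x ≤ u) ∧ A x) := hx
  show ¬ A x ∨ (red x < l ∨ u < red x)
  by_cases hA : A x
  · right
    by_contra hc
    exact hx' ⟨by omega, hA⟩
  · exact Or.inl hA

/-- The node rule in numbers. -/
theorem Fo.num {K l u : ℕ} {I J1 J2 N : Type} [Finite I] [Finite J1] [Finite J2] [Finite N]
    (h1 : Nat.card J1 = K)
    (h2 : Nat.card J2 = K) (h3 : Nat.card N = K) (e : I ≃ J1 ⊕ J2)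
    {A : (J1 ⊕ N → Bool) → Prop} {B : (J2 ⊕ N → Bool) → Prop}
    (hA : Fo K l u (J1 ⊕ N) A) (hB : Fo K l u (J2 ⊕ N) B) :
    Fo K l u I (fun x => ∃ n : N → Bool,
      (l ≤ red (fun j => x (e.symm (Sum.inl j))) + red (fun j => x (e.symm (Sum.inr j))) ∧
        red (fun j => x (e.symm (Sum.inl j))) + red (fun j => x (e.symm (Sum.inr j))) ≤ u) ∧
      (l ≤ red (fun j => x (e.symm (Sum.inl j))) + red n ∧
        red (fun j => x (e.symm (Sum.inl j))) + red n ≤ u) ∧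
      (l ≤ red (fun j => x (e.symm (Sum.inr j))) + red n ∧
        red (fun j => x (e.symm (Sum.inr j))) + red n ≤ u) ∧
      A (Sum.elim (fun j => x (e.symm (Sum.inl j))) n) ∧
      B (Sum.elim (fun j => x (e.symm (Sum.inr j))) n)) := by
  obtain ⟨eN⟩ : Nonempty (N ≃ Fin K) := ⟨Finite.equivFinOfCardEq h3⟩
  have kA := hA.info.transport (Equiv.sumCongr (Equiv.refl J1) eN)
  have kB := hB.info.transport (Equiv.sumCongr (Equiv.refl J2) eN)
  refine Kill.node I J1 J2 h1 h2 e _ _ _ kA kB fun x hx => ?_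
  have r0 : red x = red (fun j => x (e.symm (Sum.inl j))) +
      red (fun j => x (e.symm (Sum.inr j))) :=
    (red_equiv e.symm x).symm.trans (red_sum _)
  by_cases hg : red x < l ∨ u < red x
  · exact Or.inl hg
  · right
    intro n
    by_contra hcon
    obtain ⟨c1, c2⟩ := not_or.1 hcon
    have c1' := Classical.not_not.1 c1
    have c2' := Classical.not_not.1 c2
    have t1 : (fun i => (Sum.elim (fun j => x (e.symm (Sum.inl j))) n : J1 ⊕ Fin K → Bool)
        ((Equiv.sumCongr (Equiv.refl J1) eN) i)) =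
        Sum.elim (fun j => x (e.symm (Sum.inl j))) fun i => n (eN i) := by
      funext i
      rcases i with i | i <;> rfl
    have t2 : (fun i => (Sum.elim (fun j => x (e.symm (Sum.inr j))) n : J2 ⊕ Fin K → Bool)
        ((Equiv.sumCongr (Equiv.refl J2) eN) i)) =
        Sum.elim (fun j => x (e.symm (Sum.inr j))) fun i => n (eN i) := by
      funext i
      rcases i with i | i <;> rfl
    beta_reduce at c1' c2'
    rw [t1] at c1'
    rw [t2] at c2'
    have r1 : red (Sum.elim (fun j => x (e.symm (Sum.inl j))) (fun i => n (eN i))) =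
        red (fun j => x (e.symm (Sum.inl j))) + red (fun i => n (eN i)) := red_sum _
    have r2 : red (Sum.elim (fun j => x (e.symm (Sum.inr j))) (fun i => n (eN i))) =
        red (fun j => x (e.symm (Sum.inr j))) + red (fun i => n (eN i)) := red_sum _
    refine hx ⟨fun i => n (eN i), ?_, ?_, ?_, c1'.2, c2'.2⟩
    · omega
    · have := c1'.1
      omega
    · have := c2'.1
      omega

/-- Three red edges are refuted in an alive set of at most `h` edges. -/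
theorem Fo.test {K h : ℕ} (hw : ∀ L p, L ≤ h → 3 ≤ p → W K 3 5 L p) (F R : Type) [Finite F]
    [Finite R] (hF : Nat.card F ≤ h) (hR : Nat.card F + Nat.card R = 2 * K) :
    Fo K 3 5 (F ⊕ R) (fun x => red (fun f => x (Sum.inl f)) ≤ 2) := by
  have h1 := W_seq' (K := K) (l := 3) (u := 5) (L := Nat.card F) F R rfl hR ∅
    ((Kill.empty K 3 5 _).mono (by intro x hx; exact absurd hx (Set.notMem_empty _)))
  refine Kill.mono h1 fun x hx => ?_
  have hx' : ¬ red (fun f => x (Sum.inl f)) ≤ 2 := hx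
  exact Or.inr (hw _ _ hF (by omega))

section

variable (M C C' Q Y Z P X V N N' : Type)

/-- main bundles -/
def eM : (M ⊕ C) ⊕ (Q ⊕ C') ≃ (C ⊕ Q) ⊕ (M ⊕ C') where
  toFun p := match p with
    | Sum.inl (Sum.inl m) => Sum.inr (Sum.inl m)
    | Sum.inl (Sum.inr c) => Sum.inl (Sum.inl c)
    | Sum.inr (Sum.inl q) => Sum.inl (Sum.inr q)
    | Sum.inr (Sum.inr c) => Sum.inr (Sum.inr c)
  invFun p := match p with
    | Sum.inr (Sum.inl m) => Sum.inl (Sum.inl m)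
    | Sum.inl (Sum.inl c) => Sum.inl (Sum.inr c)
    | Sum.inl (Sum.inr q) => Sum.inr (Sum.inl q)
    | Sum.inr (Sum.inr c) => Sum.inr (Sum.inr c)
  left_inv := by rintro ((m | c) | (q | c)) <;> rfl
  right_inv := by rintro ((c | q) | (m | c)) <;> rfl

/-- the root -/
def e0 : M ⊕ (C ⊕ Q) ≃ Q ⊕ (M ⊕ C) where
  toFun p := match p with
    | Sum.inl m => Sum.inr (Sum.inl m)
    | Sum.inr (Sum.inl c) => Sum.inr (Sum.inr c)
    | Sum.inr (Sum.inr q) => Sum.inl q
  invFun p := match p with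
    | Sum.inr (Sum.inl m) => Sum.inl m
    | Sum.inr (Sum.inr c) => Sum.inr (Sum.inl c)
    | Sum.inl q => Sum.inr (Sum.inr q)
  left_inv := by rintro (m | (c | q)) <;> rfl
  right_inv := by rintro (q | (m | c)) <;> rfl

/-- the bundle of the second vertex -/
def e2 : ((C ⊕ Y) ⊕ C') ⊕ (Q ⊕ Z) ≃ (C ⊕ Q) ⊕ ((Y ⊕ Z) ⊕ C') where
  toFun p := match p with
    | Sum.inl (Sum.inl (Sum.inl c)) => Sum.inl (Sum.inl c)
    | Sum.inl (Sum.inl (Sum.inr y)) => Sum.inr (Sum.inl (Sum.inl y))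
    | Sum.inl (Sum.inr c) => Sum.inr (Sum.inr c)
    | Sum.inr (Sum.inl q) => Sum.inl (Sum.inr q)
    | Sum.inr (Sum.inr z) => Sum.inr (Sum.inl (Sum.inr z))
  invFun p := match p with
    | Sum.inl (Sum.inl c) => Sum.inl (Sum.inl (Sum.inl c))
    | Sum.inr (Sum.inl (Sum.inl y)) => Sum.inl (Sum.inl (Sum.inr y))
    | Sum.inr (Sum.inr c) => Sum.inl (Sum.inr c)
    | Sum.inl (Sum.inr q) => Sum.inr (Sum.inl q)
    | Sum.inr (Sum.inl (Sum.inr z)) => Sum.inr (Sum.inr z)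
  left_inv := by rintro (((c | y) | c) | (q | z)) <;> rfl
  right_inv := by rintro ((c | q) | ((y | z) | c)) <;> rfl

/-- the bundle of the fourth vertex -/
def e4 : ((C ⊕ X) ⊕ C') ⊕ ((P ⊕ V) ⊕ Q) ≃ (C ⊕ (P ⊕ (X ⊕ V))) ⊕ (Q ⊕ C') where
  toFun p := match p with
    | Sum.inl (Sum.inl (Sum.inl c)) => Sum.inl (Sum.inl c)
    | Sum.inl (Sum.inl (Sum.inr x)) => Sum.inl (Sum.inr (Sum.inr (Sum.inl x)))
    | Sum.inl (Sum.inr c) => Sum.inr (Sum.inr c)
    | Sum.inr (Sum.inl (Sum.inl p)) => Sum.inl (Sum.inr (Sum.inl p))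
    | Sum.inr (Sum.inl (Sum.inr v)) => Sum.inl (Sum.inr (Sum.inr (Sum.inr v)))
    | Sum.inr (Sum.inr q) => Sum.inr (Sum.inl q)
  invFun p := match p with
    | Sum.inl (Sum.inl c) => Sum.inl (Sum.inl (Sum.inl c))
    | Sum.inl (Sum.inr (Sum.inr (Sum.inl x))) => Sum.inl (Sum.inl (Sum.inr x))
    | Sum.inr (Sum.inr c) => Sum.inl (Sum.inr c)
    | Sum.inl (Sum.inr (Sum.inl p)) => Sum.inr (Sum.inl (Sum.inl p))
    | Sum.inl (Sum.inr (Sum.inr (Sum.inr v))) => Sum.inr (Sum.inl (Sum.inr v))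
    | Sum.inr (Sum.inl q) => Sum.inr (Sum.inr q)
  left_inv := by rintro (((c | x) | c) | ((p | v) | q)) <;> rfl
  right_inv := by rintro ((c | (p | (x | v))) | (q | c)) <;> rfl

/-- the bundle of the third vertex -/
def e3 : (C ⊕ (Y ⊕ Z)) ⊕ ((P ⊕ (X ⊕ V)) ⊕ C') ≃ ((C ⊕ C') ⊕ (Z ⊕ P)) ⊕ (Y ⊕ (X ⊕ V)) where
  toFun p := match p with
    | Sum.inl (Sum.inl c) => Sum.inl (Sum.inl (Sum.inl c))
    | Sum.inl (Sum.inr (Sum.inl y)) => Sum.inr (Sum.inl y)
    | Sum.inl (Sum.inr (Sum.inr z)) => Sum.inl (Sum.inr (Sum.inl z))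
    | Sum.inr (Sum.inl (Sum.inl p)) => Sum.inl (Sum.inr (Sum.inr p))
    | Sum.inr (Sum.inl (Sum.inr (Sum.inl x))) => Sum.inr (Sum.inr (Sum.inl x))
    | Sum.inr (Sum.inl (Sum.inr (Sum.inr v))) => Sum.inr (Sum.inr (Sum.inr v))
    | Sum.inr (Sum.inr c) => Sum.inl (Sum.inl (Sum.inr c))
  invFun p := match p with
    | Sum.inl (Sum.inl (Sum.inl c)) => Sum.inl (Sum.inl c)
    | Sum.inr (Sum.inl y) => Sum.inl (Sum.inr (Sum.inl y))
    | Sum.inl (Sum.inr (Sum.inl z)) => Sum.inl (Sum.inr (Sum.inr z))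
    | Sum.inl (Sum.inr (Sum.inr p)) => Sum.inr (Sum.inl (Sum.inl p))
    | Sum.inr (Sum.inr (Sum.inl x)) => Sum.inr (Sum.inl (Sum.inr (Sum.inl x)))
    | Sum.inr (Sum.inr (Sum.inr v)) => Sum.inr (Sum.inl (Sum.inr (Sum.inr v)))
    | Sum.inl (Sum.inl (Sum.inr c)) => Sum.inr (Sum.inr c)
  left_inv := by rintro ((c | (y | z)) | ((p | (x | v)) | c)) <;> rfl
  right_inv := by rintro (((c | c) | (z | p)) | (y | (x | v))) <;> rfl

/-- the first half of the third vertex -/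
def eG1 : ((C ⊕ C') ⊕ (Z ⊕ P)) ⊕ (N ⊕ N') ≃ ((C ⊕ C') ⊕ (Z ⊕ N)) ⊕ (P ⊕ N') where
  toFun p := match p with
    | Sum.inl (Sum.inl c) => Sum.inl (Sum.inl c)
    | Sum.inl (Sum.inr (Sum.inl z)) => Sum.inl (Sum.inr (Sum.inl z))
    | Sum.inl (Sum.inr (Sum.inr p)) => Sum.inr (Sum.inl p)
    | Sum.inr (Sum.inl n) => Sum.inl (Sum.inr (Sum.inr n))
    | Sum.inr (Sum.inr n) => Sum.inr (Sum.inr n)
  invFun p := match p with
    | Sum.inl (Sum.inl c) => Sum.inl (Sum.inl c)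
    | Sum.inl (Sum.inr (Sum.inl z)) => Sum.inl (Sum.inr (Sum.inl z))
    | Sum.inr (Sum.inl p) => Sum.inl (Sum.inr (Sum.inr p))
    | Sum.inl (Sum.inr (Sum.inr n)) => Sum.inr (Sum.inl n)
    | Sum.inr (Sum.inr n) => Sum.inr (Sum.inr n)
  left_inv := by rintro ((c | (z | p)) | (n | n)) <;> rfl
  right_inv := by rintro ((c | (z | n)) | (p | n)) <;> rfl

/-- the second half of the third vertex -/
def eG2 : (Y ⊕ (X ⊕ V)) ⊕ (N ⊕ N') ≃ (Y ⊕ (N ⊕ X)) ⊕ (V ⊕ N') where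
  toFun p := match p with
    | Sum.inl (Sum.inl y) => Sum.inl (Sum.inl y)
    | Sum.inl (Sum.inr (Sum.inl x)) => Sum.inl (Sum.inr (Sum.inr x))
    | Sum.inl (Sum.inr (Sum.inr v)) => Sum.inr (Sum.inl v)
    | Sum.inr (Sum.inl n) => Sum.inl (Sum.inr (Sum.inl n))
    | Sum.inr (Sum.inr n) => Sum.inr (Sum.inr n)
  invFun p := match p with
    | Sum.inl (Sum.inl y) => Sum.inl (Sum.inl y)
    | Sum.inl (Sum.inr (Sum.inr x)) => Sum.inl (Sum.inr (Sum.inl x))
    | Sum.inr (Sum.inl v) => Sum.inl (Sum.inr (Sum.inr v))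
    | Sum.inl (Sum.inr (Sum.inl n)) => Sum.inr (Sum.inl n)
    | Sum.inr (Sum.inr n) => Sum.inr (Sum.inr n)
  left_inv := by rintro ((y | (x | v)) | (n | n)) <;> rfl
  right_inv := by rintro ((y | (n | x)) | (v | n)) <;> rfl

end

/-- The structure at the third vertex. -/
theorem third {K : ℕ} {C C' Y Z P X V N N' : Type} [Finite C] [Finite C'] [Finite Y] [Finite Z]
    [Finite P] [Finite X] [Finite V] [Finite N] [Finite N']
    (a1 : Nat.card C + Nat.card C' + (Nat.card Z + Nat.card P) = K)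
    (a2 : Nat.card Y + (Nat.card X + Nat.card V) = K)
    (a3 : Nat.card N + Nat.card N' = K)
    (a4 : Nat.card C + Nat.card C' + (Nat.card Z + Nat.card N) = K)
    (a5 : Nat.card P + Nat.card N' = K)
    (a6 : Nat.card Y + (Nat.card N + Nat.card X) = K)
    (a7 : Nat.card V + Nat.card N' = K) :
    Fo K 3 5 ((C ⊕ (Y ⊕ Z)) ⊕ ((P ⊕ (X ⊕ V)) ⊕ C')) (fun x => ∃ n : ℕ,
      red (fun i => x (Sum.inl (Sum.inl i))) + red (fun i => x (Sum.inr (Sum.inr i))) +
        red (fun i => x (Sum.inl (Sum.inr (Sum.inr i)))) + n ≤ 3 ∧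
      1 ≤ red (fun i => x (Sum.inl (Sum.inr (Sum.inl i)))) + n +
        red (fun i => x (Sum.inr (Sum.inl (Sum.inr (Sum.inl i)))))) := by
  have c1 : Nat.card ((C ⊕ C') ⊕ (Z ⊕ P)) = K := by simp only [Nat.card_sum]; omega
  have c2 : Nat.card (Y ⊕ (X ⊕ V)) = K := by simp only [Nat.card_sum]; omega
  have c3 : Nat.card (N ⊕ N') = K := by simp only [Nat.card_sum]; omega
  have c4 : Nat.card ((C ⊕ C') ⊕ (Z ⊕ N)) = K := by simp only [Nat.card_sum]; omega
  have c5 : Nat.card (P ⊕ N') = K := by simp only [Nat.card_sum]; omega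
  have c6 : Nat.card (Y ⊕ (N ⊕ X)) = K := by simp only [Nat.card_sum]; omega
  have c7 : Nat.card (V ⊕ N') = K := by simp only [Nat.card_sum]; omega
  have g1 : Fo K 3 5 (((C ⊕ C') ⊕ (Z ⊕ P)) ⊕ (N ⊕ N')) (fun x =>
      red (fun i => x (Sum.inl (Sum.inl (Sum.inl i)))) +
        red (fun i => x (Sum.inl (Sum.inl (Sum.inr i)))) +
        (red (fun i => x (Sum.inl (Sum.inr (Sum.inl i)))) +
        red (fun i => x (Sum.inr (Sum.inl i)))) ≤ 3) := by
    refine (Fo.num c4 c5 c3 (eG1 C C' Z P N N')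
      (Fo.leaf K 3 5 (((C ⊕ C') ⊕ (Z ⊕ N)) ⊕ (N ⊕ N')))
      (Fo.leaf K 3 5 ((P ⊕ N') ⊕ (N ⊕ N')))).mono ?_
    rintro x ⟨n, g1, g2, g3, -, -⟩
    have r1 : red (fun j => x ((eG1 C C' Z P N N').symm (Sum.inl j))) =
        (red (fun i => x (Sum.inl (Sum.inl (Sum.inl i)))) +
        red (fun i => x (Sum.inl (Sum.inl (Sum.inr i))))) +
        (red (fun i => x (Sum.inl (Sum.inr (Sum.inl i)))) +
        red (fun i => x (Sum.inr (Sum.inl i)))) :=
      (red_sum _).trans (congrArg₂ (· + ·) (red_sum _) (red_sum _))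
    omega
  have g2 : Fo K 3 5 ((Y ⊕ (X ⊕ V)) ⊕ (N ⊕ N')) (fun x =>
      1 ≤ red (fun i => x (Sum.inl (Sum.inl i))) +
        (red (fun i => x (Sum.inr (Sum.inl i))) +
        red (fun i => x (Sum.inl (Sum.inr (Sum.inl i)))))) := by
    refine (Fo.num c6 c7 c3 (eG2 Y X V N N')
      (Fo.leaf K 3 5 ((Y ⊕ (N ⊕ X)) ⊕ (N ⊕ N')))
      (Fo.leaf K 3 5 ((V ⊕ N') ⊕ (N ⊕ N')))).mono ?_
    rintro x ⟨n, g1, g2, g3, -, -⟩
    have r1 : red (fun j => x ((eG2 Y X V N N').symm (Sum.inl j))) =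
        red (fun i => x (Sum.inl (Sum.inl i))) +
        (red (fun i => x (Sum.inr (Sum.inl i))) +
        red (fun i => x (Sum.inl (Sum.inr (Sum.inl i))))) :=
      (red_sum _).trans (congrArg _ (red_sum _))
    omega
  refine (Fo.num c1 c2 c3 (e3 C C' Y Z P X V) g1 g2).mono ?_
  rintro x ⟨n, -, -, -, hA, hB⟩
  have hA' : red (fun i => x (Sum.inl (Sum.inl i))) +
        red (fun i => x (Sum.inr (Sum.inr i))) +
        (red (fun i => x (Sum.inl (Sum.inr (Sum.inr i)))) +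
        red (fun i => n (Sum.inl i))) ≤ 3 := hA
  have hB' : 1 ≤ red (fun i => x (Sum.inl (Sum.inr (Sum.inl i)))) +
        (red (fun i => n (Sum.inl i)) +
        red (fun i => x (Sum.inr (Sum.inl (Sum.inr (Sum.inl i)))))) := hB
  exact ⟨red (fun i => n (Sum.inl i)), by omega, by omega⟩

/-- **The main lemma**: an alive set of `K - c` edges is not all blue. -/
theorem W_main {K c h : ℕ} (hK : 2 * h ≤ K) (hc : 7 * c + (K - 2 * h) ≤ h)
    (hw : ∀ L p, L ≤ h → 3 ≤ p → W K 3 5 L p) : W K 3 5 (K - c) 0 := by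
  intro M R _ _ hM hR T hT
  set C := Fin c with hC
  set Q := Fin (K - c) with hQ
  set S := Fin K with hS
  set Y := Fin (h - 2 * c) with hY
  set Z := Fin (K - h + c) with hZ
  set P := Fin (h - 3 * c) with hP
  set X := Fin (K - 2 * h + 5 * c) with hX
  set N' := Fin (K - h + 3 * c) with hN'
  have kC : Nat.card C = c := Nat.card_fin _
  have kQ : Nat.card Q = K - c := Nat.card_fin _
  have kS : Nat.card S = K := Nat.card_fin _
  have kY : Nat.card Y = h - 2 * c := Nat.card_fin _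
  have kZ : Nat.card Z = K - h + c := Nat.card_fin _
  have kP : Nat.card P = h - 3 * c := Nat.card_fin _
  have kX : Nat.card X = K - 2 * h + 5 * c := Nat.card_fin _
  have kN' : Nat.card N' = K - h + 3 * c := Nat.card_fin _
  have cCQ : Nat.card (C ⊕ Q) = K := by rw [Nat.card_sum]; omega
  have cQC : Nat.card (Q ⊕ C) = K := by rw [Nat.card_sum]; omega
  have cMC : Nat.card (M ⊕ C) = K := by rw [Nat.card_sum]; omega
  have cCQ2 : Nat.card (C ⊕ (Y ⊕ Z)) = K := by simp only [Nat.card_sum]; omega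
  have cQ2C : Nat.card ((Y ⊕ Z) ⊕ C) = K := by simp only [Nat.card_sum]; omega
  have cCQ3 : Nat.card (C ⊕ (P ⊕ (X ⊕ P))) = K := by simp only [Nat.card_sum]; omega
  have cQ3C : Nat.card ((P ⊕ (X ⊕ P)) ⊕ C) = K := by simp only [Nat.card_sum]; omega
  -- the last main bundle
  have f5 : Fo K 3 5 ((M ⊕ C) ⊕ S) (fun x => (fun m => x (Sum.inl (Sum.inl m))) ∉ T) := by
    have h1 : Kill K 3 5 (M ⊕ (C ⊕ S)) {x | (fun f => x (Sum.inl f)) ∈ T} :=
      kill_rest (by rw [Nat.card_sum]; omega) hT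
    refine Kill.mono (h1.transport (Equiv.sumAssoc M C S).symm) fun x hx => ?_
    exact Classical.not_not.1 hx
  -- the fifth vertex
  have f4 : Fo K 3 5 ((M ⊕ C) ⊕ (Q ⊕ C)) (fun x => (fun m => x (Sum.inl (Sum.inl m))) ∉ T ∧
      1 ≤ red (fun i => x (Sum.inl (Sum.inl i))) + red (fun i => x (Sum.inr (Sum.inr i)))) := by
    refine (Fo.num cCQ cMC kS (eM M C C Q) (Fo.leaf K 3 5 ((C ⊕ Q) ⊕ S)) f5).mono ?_
    rintro x ⟨n, g1, g2, g3, -, hB⟩
    have r2 : red (fun j => x ((eM M C C Q).symm (Sum.inr j))) =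
        red (fun i => x (Sum.inl (Sum.inl i))) + red (fun i => x (Sum.inr (Sum.inr i))) :=
      red_sum _
    exact ⟨hB, by omega⟩
  -- the fourth vertex
  have d4 : Fo K 3 5 ((C ⊕ (P ⊕ (X ⊕ P))) ⊕ (Q ⊕ C)) (fun x =>
      red (fun i => x (Sum.inl (Sum.inl i))) +
        red (fun i => x (Sum.inl (Sum.inr (Sum.inr (Sum.inl i))))) +
        red (fun i => x (Sum.inr (Sum.inr i))) ≤ 2) := by
    refine ((Fo.test hw ((C ⊕ X) ⊕ C) ((P ⊕ P) ⊕ Q) (by simp only [Nat.card_sum]; omega)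
      (by simp only [Nat.card_sum]; omega)).transport (e4 C C Q P X P)).mono fun x hx => ?_
    have r : red (fun f : (C ⊕ X) ⊕ C => x (e4 C C Q P X P (Sum.inl f))) =
        (red (fun i => x (Sum.inl (Sum.inl i))) +
        red (fun i => x (Sum.inl (Sum.inr (Sum.inr (Sum.inl i)))))) +
        red (fun i => x (Sum.inr (Sum.inr i))) :=
      (red_sum _).trans (congrArg (· + _) (red_sum _))
    have hx' : red (fun f : (C ⊕ X) ⊕ C => x (e4 C C Q P X P (Sum.inl f))) ≤ 2 := hx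
    omega
  have f3 : Fo K 3 5 ((M ⊕ C) ⊕ ((P ⊕ (X ⊕ P)) ⊕ C)) (fun x =>
      (fun m => x (Sum.inl (Sum.inl m))) ∉ T ∧
      1 ≤ red (fun i => x (Sum.inl (Sum.inl i))) + red (fun i => x (Sum.inr (Sum.inr i))) ∧
      (red (fun i => x (Sum.inl (Sum.inl i))) = 0 → red (fun i => x (Sum.inl (Sum.inr i))) +
        red (fun i => x (Sum.inr (Sum.inl (Sum.inr (Sum.inl i))))) ≤ 1)) := by
    refine (Fo.num cCQ3 cMC cQC (eM M C C (P ⊕ (X ⊕ P))) d4 f4).mono ?_
    rintro x ⟨n, g1, g2, g3, hA, hB1, hB2⟩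
    have r2 : red (fun j => x ((eM M C C (P ⊕ (X ⊕ P))).symm (Sum.inr j))) =
        red (fun i => x (Sum.inl (Sum.inl i))) + red (fun i => x (Sum.inr (Sum.inr i))) :=
      red_sum _
    have hA' : red (fun i => x (Sum.inl (Sum.inr i))) +
        red (fun i => x (Sum.inr (Sum.inl (Sum.inr (Sum.inl i))))) +
        red (fun i => n (Sum.inr i)) ≤ 2 := hA
    have hB2' : 1 ≤ red (fun i => x (Sum.inl (Sum.inl i))) + red (fun i => n (Sum.inr i)) := hB2
    exact ⟨hB1, by omega, by omega⟩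
  -- the third vertex
  have d3 := third (K := K) (C := C) (C' := C) (Y := Y) (Z := Z) (P := P) (X := X) (V := P)
    (N := P) (N' := N') (by omega) (by omega) (by omega) (by omega) (by omega) (by omega)
    (by omega)
  have f2 : Fo K 3 5 ((M ⊕ C) ⊕ ((Y ⊕ Z) ⊕ C)) (fun x =>
      (fun m => x (Sum.inl (Sum.inl m))) ∉ T ∧
      (red (fun i => x (Sum.inl (Sum.inl i))) = 0 →
        1 ≤ red (fun i => x (Sum.inr (Sum.inl (Sum.inl i)))) ∧
        1 ≤ red (fun i => x (Sum.inr (Sum.inr i))))) := by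
    refine (Fo.num cCQ2 cMC cQ3C (eM M C C (Y ⊕ Z)) d3 f3).mono ?_
    rintro x ⟨n, g1, g2, g3, ⟨s, hA1, hA2⟩, hB1, hB2, hB3⟩
    have r1 : red (fun j => x ((eM M C C (Y ⊕ Z)).symm (Sum.inl j))) =
        red (fun i => x (Sum.inl (Sum.inr i))) + (red (fun i => x (Sum.inr (Sum.inl (Sum.inl i)))) +
        red (fun i => x (Sum.inr (Sum.inl (Sum.inr i))))) :=
      (red_sum _).trans (congrArg _ (red_sum _))
    have r2 : red (fun j => x ((eM M C C (Y ⊕ Z)).symm (Sum.inr j))) =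
        red (fun i => x (Sum.inl (Sum.inl i))) + red (fun i => x (Sum.inr (Sum.inr i))) :=
      red_sum _
    have hA1' : red (fun i => x (Sum.inl (Sum.inr i))) + red (fun i => n (Sum.inr i)) +
        red (fun i => x (Sum.inr (Sum.inl (Sum.inr i)))) + s ≤ 3 := hA1
    have hA2' : 1 ≤ red (fun i => x (Sum.inr (Sum.inl (Sum.inl i)))) + s +
        red (fun i => n (Sum.inl (Sum.inr (Sum.inl i)))) := hA2
    have hB2' : 1 ≤ red (fun i => x (Sum.inl (Sum.inl i))) + red (fun i => n (Sum.inr i)) := hB2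
    have hB3' : red (fun i => x (Sum.inl (Sum.inl i))) = 0 → red (fun i => x (Sum.inr (Sum.inr i))) +
        red (fun i => n (Sum.inl (Sum.inr (Sum.inl i)))) ≤ 1 := hB3
    refine ⟨hB1, fun h0 => ?_⟩
    have := hB3' h0
    omega
  -- the second vertex
  have d2 : Fo K 3 5 ((C ⊕ Q) ⊕ ((Y ⊕ Z) ⊕ C)) (fun x =>
      red (fun i => x (Sum.inl (Sum.inl i))) +
        red (fun i => x (Sum.inr (Sum.inl (Sum.inl i)))) +
        red (fun i => x (Sum.inr (Sum.inr i))) ≤ 2) := by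
    refine ((Fo.test hw ((C ⊕ Y) ⊕ C) (Q ⊕ Z) (by simp only [Nat.card_sum]; omega)
      (by simp only [Nat.card_sum]; omega)).transport (e2 C C Q Y Z)).mono fun x hx => ?_
    have r : red (fun f : (C ⊕ Y) ⊕ C => x (e2 C C Q Y Z (Sum.inl f))) =
        (red (fun i => x (Sum.inl (Sum.inl i))) +
        red (fun i => x (Sum.inr (Sum.inl (Sum.inl i))))) +
        red (fun i => x (Sum.inr (Sum.inr i))) :=
      (red_sum _).trans (congrArg (· + _) (red_sum _))
    have hx' : red (fun f : (C ⊕ Y) ⊕ C => x (e2 C C Q Y Z (Sum.inl f))) ≤ 2 := hx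
    omega
  have f1 : Fo K 3 5 ((M ⊕ C) ⊕ (Q ⊕ C)) (fun x => (fun m => x (Sum.inl (Sum.inl m))) ∉ T ∧
      (red (fun i => x (Sum.inl (Sum.inl i))) = 0 → red (fun i => x (Sum.inl (Sum.inr i))) = 0)) := by
    refine (Fo.num cCQ cMC cQ2C (eM M C C Q) d2 f2).mono ?_
    rintro x ⟨n, g1, g2, g3, hA, hB1, hB2⟩
    have hA' : red (fun i => x (Sum.inl (Sum.inr i))) + red (fun i => n (Sum.inl (Sum.inl i))) +
        red (fun i => n (Sum.inr i)) ≤ 2 := hA
    have hB2' : red (fun i => x (Sum.inl (Sum.inl i))) = 0 →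
        1 ≤ red (fun i => n (Sum.inl (Sum.inl i))) ∧ 1 ≤ red (fun i => n (Sum.inr i)) := hB2
    refine ⟨hB1, fun h0 => ?_⟩
    have := hB2' h0
    omega
  -- the first vertex
  have f0 : Fo K 3 5 (M ⊕ (C ⊕ S)) (fun x => (fun m => x (Sum.inl m)) ∉ T ∧
      red (fun i => x (Sum.inl i)) ≠ 0) := by
    refine (Fo.num kS cMC cQC (e0 M C S) (Fo.leaf K 3 5 (S ⊕ (Q ⊕ C))) f1).mono ?_
    rintro x ⟨n, g1, g2, g3, -, hB1, hB2⟩
    have r2 : red (fun j => x ((e0 M C S).symm (Sum.inr j))) =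
        red (fun i => x (Sum.inl i)) + red (fun i => x (Sum.inr (Sum.inl i))) :=
      red_sum _
    have hB2' : red (fun i => x (Sum.inl i)) = 0 → red (fun i => x (Sum.inr (Sum.inl i))) = 0 := hB2
    refine ⟨hB1, fun h0 => ?_⟩
    have := hB2' h0
    omega
  have hfin : Kill K 3 5 (M ⊕ (C ⊕ S)) {x | (fun m => x (Sum.inl m)) ∈
      {y : M → Bool | y ∈ T ∨ red y = 0}} := by
    refine Kill.mono f0 fun x hx => ?_
    rcases hx with hx | hx
    · exact fun h => h.1 hx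
    · exact fun h => h.2 hx
  exact kill_rest (by rw [Nat.card_sum]; omega) hfin

end Pool.Agent.Lib.MP_21a058_co.Slack3
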