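import Pool.Agent.Lib.MP_21a058_co.Slack3.Rule

/-! Slack 2, window `3 ≤ red ≤ 5`, `K = 2 t`, `t ≥ 12`: three red edges among `t + 2` edges that stay
alive are refutable, and so everything is. -/

set_option autoImplicit false

namespace Pool.Agent.Lib.MP_21a058_co.Slack3.M75

open Pool.Agent.Lib.MP_21a058_co.Slack3
open Pool.Agent.Lib.MP_21a058_co.Odd (red red_sum red_equiv red_le)

/-- Some structure over `I` forces `A` on every good colouring. -/
def Fo (K : ℕ) (I : Type) (A : (I → Bool) → Prop) : Prop := Kill K 3 5 I {x | ¬ A x}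

theorem Fo.mono {K : ℕ} {I : Type} {A B : (I → Bool) → Prop} (h : Fo K I A)
    (hAB : ∀ x, A x → B x) : Fo K I B :=
  Kill.mono h fun _ hx hA => hx (hAB _ hA)

theorem Fo.transport {K : ℕ} {I J : Type} {A : (I → Bool) → Prop} (h : Fo K I A)
    (e : I ≃ J) : Fo K J (fun y => A (fun i => y (e i))) :=
  Kill.transport h e

theorem Fo.triv (K : ℕ) (I : Type) : Fo K I (fun _ => True) :=
  Kill.mono (Kill.empty K 3 5 I) fun _ hx => (hx trivial).elim

theorem Fo.info {K : ℕ} {I : Type} {A : (I → Bool) → Prop} (h : Fo K I A) :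
    Fo K I (fun x => (3 ≤ red x ∧ red x ≤ 5) ∧ A x) := by
  refine Kill.mono (Kill.addBase h) fun x hx => ?_
  by_cases hA : A x
  · right
    by_contra hcon
    push Not at hcon
    exact hx ⟨⟨hcon.1, hcon.2⟩, hA⟩
  · exact Or.inl hA

theorem Fo.node {K : ℕ} {I J1 J2 N : Type} [Finite N] (h1 : Nat.card J1 = K)
    (h2 : Nat.card J2 = K) (h3 : Nat.card N = K) (e : I ≃ J1 ⊕ J2)
    {A : (J1 ⊕ N → Bool) → Prop} {B : (J2 ⊕ N → Bool) → Prop}
    (hA : Fo K (J1 ⊕ N) A) (hB : Fo K (J2 ⊕ N) B) :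
    Fo K I (fun x => (3 ≤ red x ∧ red x ≤ 5) ∧ ∃ n : N → Bool,
      ((3 ≤ red (Sum.elim (fun j => x (e.symm (Sum.inl j))) n) ∧
        red (Sum.elim (fun j => x (e.symm (Sum.inl j))) n) ≤ 5) ∧
        A (Sum.elim (fun j => x (e.symm (Sum.inl j))) n)) ∧
      ((3 ≤ red (Sum.elim (fun j => x (e.symm (Sum.inr j))) n) ∧
        red (Sum.elim (fun j => x (e.symm (Sum.inr j))) n) ≤ 5) ∧
        B (Sum.elim (fun j => x (e.symm (Sum.inr j))) n))) := by
  obtain ⟨eN⟩ : Nonempty (N ≃ Fin K) := ⟨Finite.equivFinOfCardEq h3⟩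
  have kA := hA.info.transport (Equiv.sumCongr (Equiv.refl J1) eN)
  have kB := hB.info.transport (Equiv.sumCongr (Equiv.refl J2) eN)
  refine Kill.node I J1 J2 h1 h2 e _ _ _ kA kB fun x hx => ?_
  by_cases hg : 3 ≤ red x ∧ red x ≤ 5
  · right
    intro n
    by_contra hcon
    obtain ⟨c1, c2⟩ := not_or.1 hcon
    refine hx ⟨hg, fun i => n (eN i), ?_, ?_⟩
    · have c3 := Classical.not_not.1 c1
      have : (fun i => (Sum.elim (fun j => x (e.symm (Sum.inl j))) n : J1 ⊕ Fin K → Bool)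
          ((Equiv.sumCongr (Equiv.refl J1) eN) i)) =
          Sum.elim (fun j => x (e.symm (Sum.inl j))) fun i => n (eN i) := by
        funext i
        rcases i with i | i <;> rfl
      beta_reduce at c3
      rw [this] at c3
      exact c3
    · have c3 := Classical.not_not.1 c2
      have : (fun i => (Sum.elim (fun j => x (e.symm (Sum.inr j))) n : J2 ⊕ Fin K → Bool)
          ((Equiv.sumCongr (Equiv.refl J2) eN) i)) =
          Sum.elim (fun j => x (e.symm (Sum.inr j))) fun i => n (eN i) := by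
        funext i
        rcases i with i | i <;> rfl
      beta_reduce at c3
      rw [this] at c3
      exact c3
  · left
    by_contra hcon
    push Not at hcon
    exact hg ⟨hcon.1, hcon.2⟩

/-- The node rule in numbers. -/
theorem Fo.num {K : ℕ} {I J1 J2 N : Type} [Finite I] [Finite J1] [Finite J2] [Finite N]
    (h1 : Nat.card J1 = K) (h2 : Nat.card J2 = K) (h3 : Nat.card N = K) (e : I ≃ J1 ⊕ J2)
    {A : (J1 ⊕ N → Bool) → Prop} {B : (J2 ⊕ N → Bool) → Prop}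
    (hA : Fo K (J1 ⊕ N) A) (hB : Fo K (J2 ⊕ N) B) :
    Fo K I (fun x => ∃ n : N → Bool,
      (1 ≤ red (fun j => x (e.symm (Sum.inl j))) ∧ red (fun j => x (e.symm (Sum.inl j))) ≤ 3) ∧
      (1 ≤ red (fun j => x (e.symm (Sum.inr j))) ∧ red (fun j => x (e.symm (Sum.inr j))) ≤ 3) ∧
      A (Sum.elim (fun j => x (e.symm (Sum.inl j))) n) ∧
      B (Sum.elim (fun j => x (e.symm (Sum.inr j))) n)) := by
  refine (Fo.node h1 h2 h3 e hA hB).mono ?_
  rintro x ⟨g0, n, ⟨g1, hA'⟩, g2, hB'⟩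
  have r0 : red x = red (fun j => x (e.symm (Sum.inl j))) +
      red (fun j => x (e.symm (Sum.inr j))) :=
    (red_equiv e.symm x).symm.trans (red_sum _)
  have r1 : red (Sum.elim (fun j => x (e.symm (Sum.inl j))) n) =
      red (fun j => x (e.symm (Sum.inl j))) + red n := red_sum _
  have r2 : red (Sum.elim (fun j => x (e.symm (Sum.inr j))) n) =
      red (fun j => x (e.symm (Sum.inr j))) + red n := red_sum _
  exact ⟨n, by omega, by omega, hA', hB'⟩

/-- An alive set with at most two red edges. -/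
theorem small {K L : ℕ} {F R : Type} [Finite F] [Finite R] (hF : Nat.card F = L)
    (hR : Nat.card F + Nat.card R = 2 * K) (h : ∀ p, 3 ≤ p → W K 3 5 L p) :
    Fo K (F ⊕ R) (fun x => red (fun f => x (Sum.inl f)) ≤ 2) := by
  have h1 := W_seq' (K := K) (l := 3) (u := 5) F R hF hR ∅
    ((Kill.empty K 3 5 _).mono (by intro x hx; exact absurd hx (Set.notMem_empty _)))
  refine Kill.mono h1 fun x hx => Or.inr (h _ ?_)
  have hx' : ¬ red (fun f => x (Sum.inl f)) ≤ 2 := hx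
  omega

def eT (C C' Z Y Q : Type) : (C ⊕ (Z ⊕ Y)) ⊕ (C' ⊕ Q) ≃ ((C ⊕ C') ⊕ Z) ⊕ (Y ⊕ Q) where
  toFun p := match p with
    | Sum.inl (Sum.inl c) => Sum.inl (Sum.inl (Sum.inl c))
    | Sum.inl (Sum.inr (Sum.inl z)) => Sum.inl (Sum.inr z)
    | Sum.inl (Sum.inr (Sum.inr y)) => Sum.inr (Sum.inl y)
    | Sum.inr (Sum.inl c) => Sum.inl (Sum.inl (Sum.inr c))
    | Sum.inr (Sum.inr q) => Sum.inr (Sum.inr q)
  invFun p := match p with
    | Sum.inl (Sum.inl (Sum.inl c)) => Sum.inl (Sum.inl c)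
    | Sum.inl (Sum.inl (Sum.inr c)) => Sum.inr (Sum.inl c)
    | Sum.inl (Sum.inr z) => Sum.inl (Sum.inr (Sum.inl z))
    | Sum.inr (Sum.inl y) => Sum.inl (Sum.inr (Sum.inr y))
    | Sum.inr (Sum.inr q) => Sum.inr (Sum.inr q)
  left_inv := by rintro ((c | (z | y)) | (c | q)) <;> rfl
  right_inv := by rintro (((c | c) | z) | (y | q)) <;> rfl

/-- The test of a full set that consists of two sets `C` and of `Z`. -/
theorem tst {K : ℕ} {C C' Z Y Q : Type} [Finite C] [Finite C'] [Finite Z] [Finite Y] [Finite Q]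
    (h1 : Nat.card C + Nat.card C' + Nat.card Z = K) (h2 : Nat.card Y + Nat.card Q = K) :
    Fo K ((C ⊕ (Z ⊕ Y)) ⊕ (C' ⊕ Q)) (fun x => 1 ≤ red (fun i => x (Sum.inl (Sum.inl i))) +
      red (fun i => x (Sum.inr (Sum.inl i))) + red (fun i => x (Sum.inl (Sum.inr (Sum.inl i))))) := by
  refine (Fo.num (K := K) (N := Fin K) (J1 := (C ⊕ C') ⊕ Z) (J2 := Y ⊕ Q) ?_ ?_ (Nat.card_fin K)
    (eT C C' Z Y Q) (Fo.triv K _) (Fo.triv K _)).mono ?_
  · rw [Nat.card_sum, Nat.card_sum]; exact h1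
  · rw [Nat.card_sum]; exact h2
  · rintro x ⟨n, ⟨g1, -⟩, -, -, -⟩
    have r1 : red (fun j => x ((eT C C' Z Y Q).symm (Sum.inl j))) =
        (red (fun i => x (Sum.inl (Sum.inl i))) + red (fun i => x (Sum.inr (Sum.inl i)))) +
        red (fun i => x (Sum.inl (Sum.inr (Sum.inl i)))) :=
      (red_sum _).trans (congrArg (· + _) (red_sum _))
    omega

def eU (C Z Z' N : Type) : (C ⊕ Z) ⊕ (Z' ⊕ N) ≃ (C ⊕ Z') ⊕ (Z ⊕ N) where
  toFun p := match p with
    | Sum.inl (Sum.inl c) => Sum.inl (Sum.inl c)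
    | Sum.inl (Sum.inr z) => Sum.inr (Sum.inl z)
    | Sum.inr (Sum.inl z) => Sum.inl (Sum.inr z)
    | Sum.inr (Sum.inr n) => Sum.inr (Sum.inr n)
  invFun p := match p with
    | Sum.inl (Sum.inl c) => Sum.inl (Sum.inl c)
    | Sum.inl (Sum.inr z) => Sum.inr (Sum.inl z)
    | Sum.inr (Sum.inl z) => Sum.inl (Sum.inr z)
    | Sum.inr (Sum.inr n) => Sum.inr (Sum.inr n)
  left_inv := by rintro ((c | z) | (z | n)) <;> rfl
  right_inv := by rintro ((c | z) | (z | n)) <;> rfl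

/-- The vertex `u1`. -/
theorem u1 {K : ℕ} {C C' Z Z' N : Type} [Finite C] [Finite C'] [Finite Z] [Finite Z'] [Finite N]
    (h1 : Nat.card C + Nat.card C' + Nat.card Z' = K) (h2 : Nat.card Z + Nat.card N = K) :
    Fo K (((C ⊕ C') ⊕ Z) ⊕ (Z' ⊕ N)) (fun x => 1 ≤ red (fun i => x (Sum.inl (Sum.inl (Sum.inl i)))) +
      red (fun i => x (Sum.inl (Sum.inl (Sum.inr i)))) + red (fun i => x (Sum.inr (Sum.inl i)))) := by
  refine (Fo.num (K := K) (N := Fin K) (J1 := (C ⊕ C') ⊕ Z') (J2 := Z ⊕ N) ?_ ?_ (Nat.card_fin K)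
    (eU (C ⊕ C') Z Z' N) (Fo.triv K _) (Fo.triv K _)).mono ?_
  · rw [Nat.card_sum, Nat.card_sum]; exact h1
  · rw [Nat.card_sum]; exact h2
  · rintro x ⟨n, ⟨g1, -⟩, -, -, -⟩
    have r1 : red (fun j => x ((eU (C ⊕ C') Z Z' N).symm (Sum.inl j))) =
        (red (fun i => x (Sum.inl (Sum.inl (Sum.inl i)))) +
          red (fun i => x (Sum.inl (Sum.inl (Sum.inr i))))) +
        red (fun i => x (Sum.inr (Sum.inl i))) :=
      (red_sum _).trans (congrArg (· + _) (red_sum _))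
    omega

def eV (Z Z' R Z2 N : Type) : ((Z ⊕ Z') ⊕ Z2) ⊕ (R ⊕ N) ≃ ((Z ⊕ Z') ⊕ R) ⊕ (Z2 ⊕ N) where
  toFun p := match p with
    | Sum.inl (Sum.inl c) => Sum.inl (Sum.inl c)
    | Sum.inl (Sum.inr z) => Sum.inr (Sum.inl z)
    | Sum.inr (Sum.inl r) => Sum.inl (Sum.inr r)
    | Sum.inr (Sum.inr n) => Sum.inr (Sum.inr n)
  invFun p := match p with
    | Sum.inl (Sum.inl c) => Sum.inl (Sum.inl c)
    | Sum.inr (Sum.inl z) => Sum.inl (Sum.inr z)
    | Sum.inl (Sum.inr r) => Sum.inr (Sum.inl r)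
    | Sum.inr (Sum.inr n) => Sum.inr (Sum.inr n)
  left_inv := by rintro ((c | z) | (r | n)) <;> rfl
  right_inv := by rintro ((c | r) | (z | n)) <;> rfl

/-- The vertex `u2`. -/
theorem u2 {K : ℕ} {Z Z' R Z2 N : Type} [Finite Z] [Finite Z'] [Finite R] [Finite Z2] [Finite N]
    (h1 : Nat.card Z + Nat.card Z' + Nat.card Z2 = 12)
    (h2 : Nat.card Z + Nat.card Z' + Nat.card R + (Nat.card Z2 + Nat.card N) = 2 * K)
    (h : ∀ p, 3 ≤ p → W K 3 5 12 p) :
    Fo K (((Z ⊕ Z') ⊕ R) ⊕ (Z2 ⊕ N)) (fun x => red (fun i => x (Sum.inl (Sum.inl (Sum.inl i)))) +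
      red (fun i => x (Sum.inl (Sum.inl (Sum.inr i)))) + red (fun i => x (Sum.inr (Sum.inl i))) ≤ 2) := by
  have k1 := small (K := K) (F := (Z ⊕ Z') ⊕ Z2) (R := R ⊕ N) (L := 12)
    (by rw [Nat.card_sum, Nat.card_sum]; exact h1)
    (by rw [Nat.card_sum, Nat.card_sum, Nat.card_sum]; omega) h
  refine (k1.transport (eV Z Z' R Z2 N)).mono fun x hx => ?_
  have r1 : red (fun f => x ((eV Z Z' R Z2 N) (Sum.inl f))) =
      (red (fun i => x (Sum.inl (Sum.inl (Sum.inl i)))) +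
          red (fun i => x (Sum.inl (Sum.inl (Sum.inr i))))) +
        red (fun i => x (Sum.inr (Sum.inl i))) :=
    (red_sum _).trans (congrArg (· + _) (red_sum _))
  have hx' : red (fun f => x ((eV Z Z' R Z2 N) (Sum.inl f))) ≤ 2 := hx
  omega

def eW (C Z Z2 P Y : Type) : (C ⊕ (Z ⊕ (Z2 ⊕ P))) ⊕ (C ⊕ (Z ⊕ Y)) ≃
    ((C ⊕ C) ⊕ Z2) ⊕ ((Z ⊕ Z) ⊕ (P ⊕ Y)) where
  toFun p := match p with
    | Sum.inl (Sum.inl c) => Sum.inl (Sum.inl (Sum.inl c))
    | Sum.inl (Sum.inr (Sum.inl z)) => Sum.inr (Sum.inl (Sum.inl z))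
    | Sum.inl (Sum.inr (Sum.inr (Sum.inl z))) => Sum.inl (Sum.inr z)
    | Sum.inl (Sum.inr (Sum.inr (Sum.inr p))) => Sum.inr (Sum.inr (Sum.inl p))
    | Sum.inr (Sum.inl c) => Sum.inl (Sum.inl (Sum.inr c))
    | Sum.inr (Sum.inr (Sum.inl z)) => Sum.inr (Sum.inl (Sum.inr z))
    | Sum.inr (Sum.inr (Sum.inr y)) => Sum.inr (Sum.inr (Sum.inr y))
  invFun p := match p with
    | Sum.inl (Sum.inl (Sum.inl c)) => Sum.inl (Sum.inl c)
    | Sum.inr (Sum.inl (Sum.inl z)) => Sum.inl (Sum.inr (Sum.inl z))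
    | Sum.inl (Sum.inr z) => Sum.inl (Sum.inr (Sum.inr (Sum.inl z)))
    | Sum.inr (Sum.inr (Sum.inl p)) => Sum.inl (Sum.inr (Sum.inr (Sum.inr p)))
    | Sum.inl (Sum.inl (Sum.inr c)) => Sum.inr (Sum.inl c)
    | Sum.inr (Sum.inl (Sum.inr z)) => Sum.inr (Sum.inr (Sum.inl z))
    | Sum.inr (Sum.inr (Sum.inr y)) => Sum.inr (Sum.inr (Sum.inr y))
  left_inv := by rintro ((c | (z | (z | p))) | (c | (z | y))) <;> rfl
  right_inv := by rintro (((c | c) | z) | ((z | z) | (p | y))) <;> rfl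

/-- The vertex `w_2`. -/
theorem w2 {K t : ℕ} (hK : K = 2 * t) (ht : 12 ≤ t) (h : ∀ p, 3 ≤ p → W K 3 5 12 p) :
    Fo K ((Fin (t - 2) ⊕ (Fin 4 ⊕ (Fin 4 ⊕ Fin (t - 6)))) ⊕ (Fin (t - 2) ⊕ (Fin 4 ⊕ Fin (t - 2))))
      (fun x => red (fun i => x (Sum.inl (Sum.inl i))) = 0 →
        red (fun i => x (Sum.inr (Sum.inl i))) = 0 →
        1 ≤ red (fun i => x (Sum.inr (Sum.inr (Sum.inl i)))) →
        red (fun i => x (Sum.inl (Sum.inr (Sum.inl i)))) = 0) := by
  refine (Fo.num (K := K) (N := Fin 4 ⊕ Fin (2 * t - 4))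
    (J1 := (Fin (t - 2) ⊕ Fin (t - 2)) ⊕ Fin 4)
    (J2 := (Fin 4 ⊕ Fin 4) ⊕ (Fin (t - 6) ⊕ Fin (t - 2))) ?_ ?_ ?_
    (eW (Fin (t - 2)) (Fin 4) (Fin 4) (Fin (t - 6)) (Fin (t - 2)))
    (u1 (C := Fin (t - 2)) (C' := Fin (t - 2)) (Z := Fin 4) (Z' := Fin 4) (N := Fin (2 * t - 4)) ?_ ?_)
    (u2 (Z := Fin 4) (Z' := Fin 4) (R := Fin (t - 6) ⊕ Fin (t - 2)) (Z2 := Fin 4)
      (N := Fin (2 * t - 4)) ?_ ?_ h)).mono ?_
  · rw [Nat.card_sum, Nat.card_sum, Nat.card_fin, Nat.card_fin]; omega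
  · rw [Nat.card_sum, Nat.card_sum, Nat.card_sum, Nat.card_fin, Nat.card_fin, Nat.card_fin]; omega
  · rw [Nat.card_sum, Nat.card_fin, Nat.card_fin]; omega
  · rw [Nat.card_fin, Nat.card_fin]; omega
  · rw [Nat.card_fin, Nat.card_fin]; omega
  · rw [Nat.card_fin]
  · rw [Nat.card_sum, Nat.card_fin, Nat.card_fin, Nat.card_fin, Nat.card_fin]; omega
  · rintro x ⟨n, -, -, hA, hB⟩ c1 c2 c3
    have hA' : 1 ≤ red (fun i => x (Sum.inl (Sum.inl i))) +
      red (fun i => x (Sum.inr (Sum.inl i))) + red (fun i => n (Sum.inl i)) := hA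
    have hB' : red (fun i => x (Sum.inl (Sum.inr (Sum.inl i)))) +
      red (fun i => x (Sum.inr (Sum.inr (Sum.inl i)))) + red (fun i => n (Sum.inl i)) ≤ 2 := hB
    omega

def eX (F C C' Q : Type) : (F ⊕ C) ⊕ (C' ⊕ Q) ≃ (C ⊕ Q) ⊕ (F ⊕ C') where
  toFun p := match p with
    | Sum.inl (Sum.inl f) => Sum.inr (Sum.inl f)
    | Sum.inl (Sum.inr c) => Sum.inl (Sum.inl c)
    | Sum.inr (Sum.inl c) => Sum.inr (Sum.inr c)
    | Sum.inr (Sum.inr q) => Sum.inl (Sum.inr q)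
  invFun p := match p with
    | Sum.inr (Sum.inl f) => Sum.inl (Sum.inl f)
    | Sum.inl (Sum.inl c) => Sum.inl (Sum.inr c)
    | Sum.inr (Sum.inr c) => Sum.inr (Sum.inl c)
    | Sum.inl (Sum.inr q) => Sum.inr (Sum.inr q)
  left_inv := by rintro ((f | c) | (c | q)) <;> rfl
  right_inv := by rintro ((c | q) | (f | c)) <;> rfl

theorem main75 {K t : ℕ} (hK : K = 2 * t) (ht : 12 ≤ t) (h : ∀ p, 3 ≤ p → W K 3 5 12 p) :
    W K 3 5 (t + 2) 3 := by
  intro F R _ _ hF hR T hT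
  have cC : Nat.card (Fin (t - 2)) = t - 2 := Nat.card_fin _
  have cQ : Nat.card (Fin (t + 2)) = t + 2 := Nat.card_fin _
  have cQ1 : Nat.card (Fin 4 ⊕ (Fin 4 ⊕ Fin (t - 6))) = t + 2 := by
    rw [Nat.card_sum, Nat.card_sum, Nat.card_fin, Nat.card_fin]; omega
  have cQ2 : Nat.card (Fin 4 ⊕ Fin (t - 2)) = t + 2 := by
    rw [Nat.card_sum, Nat.card_fin, Nat.card_fin]; omega
  -- the last vertex
  have k5 : Fo K ((F ⊕ Fin (t - 2)) ⊕ Fin K) (fun x => (fun i => x (Sum.inl (Sum.inl i))) ∉ T) := by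
    have h1 : Kill K 3 5 (F ⊕ (Fin (t - 2) ⊕ Fin K)) {x | (fun f => x (Sum.inl f)) ∈ T} := by
      refine kill_rest ?_ hT
      rw [Nat.card_sum, Nat.card_fin, Nat.card_fin]
      omega
    refine Kill.mono (h1.transport (Equiv.sumAssoc F (Fin (t - 2)) (Fin K)).symm) fun x hx => ?_
    exact Classical.not_not.1 hx
  -- the node 4
  have k4 : Fo K ((F ⊕ Fin (t - 2)) ⊕ (Fin (t - 2) ⊕ Fin (t + 2))) (fun x =>
      (fun i => x (Sum.inl (Sum.inl i))) ∉ T ∧ (red (fun i => x (Sum.inl (Sum.inl i))) = 3 →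
        red (fun i => x (Sum.inr (Sum.inl i))) = 0)) := by
    refine (Fo.num (K := K) (N := Fin K) (J1 := Fin (t - 2) ⊕ Fin (t + 2)) (J2 := F ⊕ Fin (t - 2))
      (by rw [Nat.card_sum, cC, cQ]; omega) (by rw [Nat.card_sum, cC, hF]; omega) (Nat.card_fin K)
      (eX F (Fin (t - 2)) (Fin (t - 2)) (Fin (t + 2))) (Fo.triv K _) k5).mono ?_
    rintro x ⟨n, -, ⟨-, g2⟩, -, hB⟩
    have r2 : red (fun j => x ((eX F (Fin (t - 2)) (Fin (t - 2)) (Fin (t + 2))).symm (Sum.inr j))) =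
        red (fun i => x (Sum.inl (Sum.inl i))) + red (fun i => x (Sum.inr (Sum.inl i))) := red_sum _
    exact ⟨hB, fun h3 => by omega⟩
  -- the node 3
  have k3 : Fo K ((F ⊕ Fin (t - 2)) ⊕ (Fin (t - 2) ⊕ (Fin 4 ⊕ Fin (t - 2)))) (fun x =>
      (fun i => x (Sum.inl (Sum.inl i))) ∉ T ∧ (red (fun i => x (Sum.inl (Sum.inl i))) = 3 →
        red (fun i => x (Sum.inr (Sum.inl i))) = 0 ∧
        1 ≤ red (fun i => x (Sum.inl (Sum.inr i))) +
          red (fun i => x (Sum.inr (Sum.inr (Sum.inl i)))))) := by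
    refine (Fo.num (K := K) (N := Fin (t - 2) ⊕ Fin (t + 2))
      (J1 := Fin (t - 2) ⊕ (Fin 4 ⊕ Fin (t - 2))) (J2 := F ⊕ Fin (t - 2))
      (by rw [Nat.card_sum, cC, cQ2]; omega) (by rw [Nat.card_sum, cC, hF]; omega)
      (by rw [Nat.card_sum, cC, cQ]; omega)
      (eX F (Fin (t - 2)) (Fin (t - 2)) (Fin 4 ⊕ Fin (t - 2)))
      (tst (C := Fin (t - 2)) (C' := Fin (t - 2)) (Z := Fin 4) (Y := Fin (t - 2)) (Q := Fin (t + 2))
        (by rw [cC, Nat.card_fin]; omega) (by rw [cC, cQ]; omega)) k4).mono ?_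
    rintro x ⟨n, -, ⟨-, g2⟩, hA, hB, hB2⟩
    have r2 : red (fun j => x ((eX F (Fin (t - 2)) (Fin (t - 2)) (Fin 4 ⊕ Fin (t - 2))).symm
        (Sum.inr j))) =
        red (fun i => x (Sum.inl (Sum.inl i))) + red (fun i => x (Sum.inr (Sum.inl i))) := red_sum _
    have hA' : 1 ≤ red (fun i => x (Sum.inl (Sum.inr i))) + red (fun i => n (Sum.inl i)) +
        red (fun i => x (Sum.inr (Sum.inr (Sum.inl i)))) := hA
    have hB2' : red (fun i => x (Sum.inl (Sum.inl i))) = 3 → red (fun i => n (Sum.inl i)) = 0 := hB2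
    refine ⟨hB, fun h3 => ?_⟩
    have := hB2' h3
    omega
  -- the node 2
  have k2 : Fo K ((F ⊕ Fin (t - 2)) ⊕ (Fin (t - 2) ⊕ (Fin 4 ⊕ (Fin 4 ⊕ Fin (t - 6))))) (fun x =>
      (fun i => x (Sum.inl (Sum.inl i))) ∉ T ∧ (red (fun i => x (Sum.inl (Sum.inl i))) = 3 →
        red (fun i => x (Sum.inr (Sum.inl i))) = 0 ∧
        (red (fun i => x (Sum.inl (Sum.inr i))) = 0 →
          red (fun i => x (Sum.inr (Sum.inr (Sum.inl i)))) = 0))) := by
    refine (Fo.num (K := K) (N := Fin (t - 2) ⊕ (Fin 4 ⊕ Fin (t - 2)))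
      (J1 := Fin (t - 2) ⊕ (Fin 4 ⊕ (Fin 4 ⊕ Fin (t - 6)))) (J2 := F ⊕ Fin (t - 2))
      (by rw [Nat.card_sum, cC, cQ1]; omega) (by rw [Nat.card_sum, cC, hF]; omega)
      (by rw [Nat.card_sum, cC, cQ2]; omega)
      (eX F (Fin (t - 2)) (Fin (t - 2)) (Fin 4 ⊕ (Fin 4 ⊕ Fin (t - 6))))
      (w2 hK ht h) k3).mono ?_
    rintro x ⟨n, -, ⟨-, g2⟩, hA, hB, hB2⟩
    have r2 : red (fun j => x ((eX F (Fin (t - 2)) (Fin (t - 2))
        (Fin 4 ⊕ (Fin 4 ⊕ Fin (t - 6)))).symm (Sum.inr j))) =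
        red (fun i => x (Sum.inl (Sum.inl i))) + red (fun i => x (Sum.inr (Sum.inl i))) := red_sum _
    have hA' : red (fun i => x (Sum.inl (Sum.inr i))) = 0 → red (fun i => n (Sum.inl i)) = 0 →
        1 ≤ red (fun i => n (Sum.inr (Sum.inl i))) →
        red (fun i => x (Sum.inr (Sum.inr (Sum.inl i)))) = 0 := hA
    have hB2' : red (fun i => x (Sum.inl (Sum.inl i))) = 3 → red (fun i => n (Sum.inl i)) = 0 ∧
        1 ≤ red (fun i => x (Sum.inr (Sum.inl i))) + red (fun i => n (Sum.inr (Sum.inl i))) := hB2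
    refine ⟨hB, fun h3 => ?_⟩
    obtain ⟨b1, b2⟩ := hB2' h3
    exact ⟨by omega, fun h0 => hA' h0 b1 (by omega)⟩
  -- the node 1
  have k1 : Fo K ((F ⊕ Fin (t - 2)) ⊕ (Fin (t - 2) ⊕ Fin (t + 2))) (fun x =>
      (fun i => x (Sum.inl (Sum.inl i))) ∉ T ∧ (red (fun i => x (Sum.inl (Sum.inl i))) = 3 →
        1 ≤ red (fun i => x (Sum.inl (Sum.inr i))))) := by
    refine (Fo.num (K := K) (N := Fin (t - 2) ⊕ (Fin 4 ⊕ (Fin 4 ⊕ Fin (t - 6))))
      (J1 := Fin (t - 2) ⊕ Fin (t + 2)) (J2 := F ⊕ Fin (t - 2))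
      (by rw [Nat.card_sum, cC, cQ]; omega) (by rw [Nat.card_sum, cC, hF]; omega)
      (by rw [Nat.card_sum, cC, cQ1]; omega)
      (eX F (Fin (t - 2)) (Fin (t - 2)) (Fin (t + 2)))
      ((tst (C := Fin (t - 2)) (C' := Fin (t - 2)) (Z := Fin 4) (Y := Fin 4 ⊕ Fin (t - 6))
        (Q := Fin (t + 2)) (by rw [cC, Nat.card_fin]; omega)
        (by rw [Nat.card_sum, Nat.card_fin, Nat.card_fin, cQ]; omega)).transport
          (Equiv.sumComm _ _)) k2).mono ?_
    rintro x ⟨n, -, ⟨-, g2⟩, hA, hB, hB2⟩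
    have r2 : red (fun j => x ((eX F (Fin (t - 2)) (Fin (t - 2)) (Fin (t + 2))).symm (Sum.inr j))) =
        red (fun i => x (Sum.inl (Sum.inl i))) + red (fun i => x (Sum.inr (Sum.inl i))) := red_sum _
    have hA' : 1 ≤ red (fun i => n (Sum.inl i)) + red (fun i => x (Sum.inl (Sum.inr i))) +
        red (fun i => n (Sum.inr (Sum.inl i))) := hA
    have hB2' : red (fun i => x (Sum.inl (Sum.inl i))) = 3 → red (fun i => n (Sum.inl i)) = 0 ∧
        (red (fun i => x (Sum.inr (Sum.inl i))) = 0 →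
          red (fun i => n (Sum.inr (Sum.inl i))) = 0) := hB2
    refine ⟨hB, fun h3 => ?_⟩
    obtain ⟨b1, b2⟩ := hB2' h3
    have b3 := b2 (by omega)
    omega
  -- the root
  have k0 : Fo K ((F ⊕ Fin (t - 2)) ⊕ Fin K) (fun x =>
      (fun i => x (Sum.inl (Sum.inl i))) ∉ T ∧ red (fun i => x (Sum.inl (Sum.inl i))) ≠ 3) := by
    refine (Fo.num (K := K) (N := Fin (t - 2) ⊕ Fin (t + 2)) (J1 := Fin K) (J2 := F ⊕ Fin (t - 2))
      (Nat.card_fin K) (by rw [Nat.card_sum, cC, hF]; omega)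
      (by rw [Nat.card_sum, cC, cQ]; omega)
      (Equiv.sumComm (F ⊕ Fin (t - 2)) (Fin K)) (Fo.triv K _) k1).mono ?_
    rintro x ⟨n, -, ⟨-, g2⟩, -, hB, hB2⟩
    have r2 : red (fun j => x ((Equiv.sumComm (F ⊕ Fin (t - 2)) (Fin K)).symm (Sum.inr j))) =
        red (fun i => x (Sum.inl (Sum.inl i))) + red (fun i => x (Sum.inl (Sum.inr i))) := red_sum _
    have hB2' : red (fun i => x (Sum.inl (Sum.inl i))) = 3 →
        1 ≤ red (fun i => x (Sum.inl (Sum.inr i))) := hB2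
    refine ⟨hB, fun h3 => ?_⟩
    have := hB2' h3
    omega
  have h2 : Kill K 3 5 (F ⊕ (Fin (t - 2) ⊕ Fin K))
      {x | (fun f => x (Sum.inl f)) ∈ {y : F → Bool | y ∈ T ∨ red y = 3}} := by
    refine Kill.mono (Fo.transport k0 (Equiv.sumAssoc F (Fin (t - 2)) (Fin K))) fun x hx => ?_
    intro hc
    rcases hx with hx | hx
    · exact hc.1 hx
    · exact hc.2 hx
  refine kill_rest ?_ h2
  rw [Nat.card_sum, Nat.card_fin, Nat.card_fin]
  omega

/-! ### the end -/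

theorem base4 {K L p : ℕ} (hL : L ≤ K) (hp : 4 ≤ p) : W K 3 5 L p := W_base hL (Or.inl (by omega))

theorem baseK (K : ℕ) : W K 3 5 K 0 := W_base le_rfl (Or.inr (by omega))

theorem three {K L : ℕ} (hL : 2 * L ≤ K) : W K 3 5 L 3 := by
  refine W_R2 (i := K - L) (j := L) (by omega) (by omega) (by omega) fun a b ha hb => ?_
  rcases Nat.eq_zero_or_pos a with h1 | h1
  · rcases Nat.eq_zero_or_pos b with h2 | h2
    · subst h1; subst h2
      right; right
      have e : K - L + L = K := by omega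
      rw [e]
      exact baseK K
    · right; left
      exact base4 (by omega) (by omega)
  · left
    exact base4 (by omega) (by omega)

theorem w00 {K t : ℕ} (hK : K = 2 * t) (ht : 12 ≤ t) : W K 3 5 0 0 := by
  have hm : W K 3 5 (t + 2) 3 := main75 hK ht fun p hp => by
    rcases Nat.eq_or_lt_of_le hp with h | h
    · rw [← h]
      exact three (by omega)
    · exact base4 (by omega) h
  have h22 : W K 3 5 2 2 := by
    refine W_R2 (i := t) (j := t) (by omega) (by omega) (by omega) fun a b ha hb => ?_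
    have e1 : 2 + t = t + 2 := by omega
    rcases Nat.eq_zero_or_pos a with h1 | h1
    · rcases Nat.eq_zero_or_pos b with h2 | h2
      · subst h1; subst h2
        right; right
        have e : t + t = K := by omega
        rw [e]
        exact baseK K
      · right; left
        rw [e1]
        rcases Nat.eq_or_lt_of_le h2 with h3 | h3
        · rw [← h3]; exact hm
        · exact base4 (by omega) (by omega)
    · left
      rw [e1]
      rcases Nat.eq_or_lt_of_le h1 with h3 | h3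
      · rw [← h3]; exact hm
      · exact base4 (by omega) (by omega)
  have hend : ∀ n L, K - L ≤ n → L ≤ K → W K 3 5 L 0 := by
    intro n
    induction n with
    | zero =>
      intro L h1 h2
      have e : L = K := by omega
      rw [e]
      exact baseK K
    | succ n ih =>
      intro L h1 h2
      rcases Nat.eq_or_lt_of_le h2 with h | h
      · rw [h]; exact baseK K
      · refine W_R2 (i := 1) (j := 1) (by omega) (by omega) (by omega) fun a b ha hb => ?_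
        have h3 := ih (L + 1) (by omega) (by omega)
        rcases Nat.eq_zero_or_pos a with ha0 | ha0
        · subst ha0; exact Or.inl h3
        · rcases Nat.eq_zero_or_pos b with hb0 | hb0
          · subst hb0; exact Or.inr (Or.inl h3)
          · have ha1 : a = 1 := by omega
            have hb1 : b = 1 := by omega
            subst ha1; subst hb1
            exact Or.inr (Or.inr h22)
  exact hend K 0 (by omega) (Nat.zero_le _)

end Pool.Agent.Lib.MP_21a058_co.Slack3.M75
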