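import Pool.Agent.Lib.MP_21a058_co.Slack3.Gen

/-! The main chain, for the window `2 m + 1 ≤ red ≤ 2 m + 3`, any `m ≥ 1` and any `K`:
an alive set of `K - c` edges cannot have `m - 1` red edges. -/

set_option autoImplicit false

namespace Pool.Agent.Lib.MP_21a058_co.Slack3.Main84

open Pool.Agent.Lib.MP_21a058_co.Slack3
open Pool.Agent.Lib.MP_21a058_co.Slack3.Gen
open Pool.Agent.Lib.MP_21a058_co.Odd (red red_sum red_equiv red_le)

theorem red_elim {I J : Type} [Finite I] [Finite J] (a : I → Bool) (b : J → Bool) :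
    red (Sum.elim a b) = red a + red b := by
  rw [red_sum]
  rfl

/-- The node rule with any type for the new edges. -/
theorem node' {K l u : ℕ} {I J1 J2 N : Type} [Finite N] (h1 : Nat.card J1 = K)
    (h2 : Nat.card J2 = K) (hN : Nat.card N = K) (e : I ≃ J1 ⊕ J2) {A1 : Set (J1 ⊕ N → Bool)}
    {A2 : Set (J2 ⊕ N → Bool)} {A : Set (I → Bool)} (k1 : Kill K l u (J1 ⊕ N) A1)
    (k2 : Kill K l u (J2 ⊕ N) A2)
    (h : ∀ x ∈ A, (red x < l ∨ u < red x) ∨ ∀ n : N → Bool,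
        Sum.elim (fun j => x (e.symm (Sum.inl j))) n ∈ A1 ∨
        Sum.elim (fun j => x (e.symm (Sum.inr j))) n ∈ A2) : Kill K l u I A := by
  have hc : Nat.card (Fin K) = Nat.card N := by rw [Nat.card_fin, hN]
  obtain ⟨eN⟩ := Finite.card_eq.mp hc
  refine Kill.node I J1 J2 h1 h2 e _ _ A
    (k1.transport (Equiv.sumCongr (Equiv.refl J1) eN.symm))
    (k2.transport (Equiv.sumCongr (Equiv.refl J2) eN.symm)) fun x hx => ?_
  rcases h x hx with h3 | h3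
  · exact Or.inl h3
  · right
    intro n
    have key : ∀ {J : Type} (a : J → Bool), (fun i => (Sum.elim a n : J ⊕ Fin K → Bool)
        ((Equiv.sumCongr (Equiv.refl J) eN.symm) i)) = Sum.elim a (fun j => n (eN.symm j)) := by
      intro J a
      funext i
      rcases i with i | i <;> rfl
    rcases h3 (fun j => n (eN.symm j)) with h4 | h4
    · left
      rw [← key] at h4
      exact h4
    · right
      rw [← key] at h4
      exact h4

theorem alive0 {K l u L : ℕ} {I G R : Type} [Finite G] [Finite R] (e : I ≃ G ⊕ R)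
    (hL : Nat.card G = L) (hc : Nat.card G + Nat.card R = 2 * K) :
    Kill K l u I {x | W K l u L (red (fun g => x (e.symm (Sum.inl g))))} := by
  have h := W_seq' (K := K) (l := l) (u := u) (L := L) G R hL hc ∅
    ((Kill.empty K l u _).mono (by intro x hx; exact absurd hx (Set.notMem_empty _)))
  refine (h.transport e.symm).mono ?_
  intro x hx
  exact Or.inr hx

/-- The main bundle after the last node. -/
theorem r4 {K m c : ℕ} (F C4 C5 Q4 : Type) [Finite F] [Finite C4] [Finite C5] [Finite Q4]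
    (T : Set (F → Bool)) (hF : Nat.card F + c = K) (h4 : Nat.card C4 = c)
    (h5 : Nat.card C5 = c) (hQ : Nat.card Q4 + c = K) (hm : 1 ≤ m)
    (hT : ∀ (R : Type) [Finite R], Nat.card F + Nat.card R = 2 * K →
      Kill K (2 * m + 1) (2 * m + 3) (F ⊕ R) {x | (fun f => x (Sum.inl f)) ∈ T}) :
    Kill K (2 * m + 1) (2 * m + 3) ((F ⊕ C4) ⊕ (C5 ⊕ Q4))
      {x | ((fun f => x (Sum.inl (Sum.inl f))) ∈ T ∨
        (red (fun f => x (Sum.inl (Sum.inl f))) = m - 1 ∧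
          red (fun f => x (Sum.inr (Sum.inl f))) = 0)) ∨
        (red x < 2 * m + 1 ∨ 2 * m + 3 < red x)} := by
  have k0 : Kill K (2 * m + 1) (2 * m + 3) ((F ⊕ C5) ⊕ (C4 ⊕ Q4))
      {x | (fun f => x (Sum.inl (Sum.inl f))) ∈ T} :=
    (hT (C5 ⊕ (C4 ⊕ Q4)) (by rw [Nat.card_sum, Nat.card_sum]; omega)).transport
      (Equiv.sumAssoc F C5 (C4 ⊕ Q4)).symm
  have k1 := W_seq' (K := K) (l := 2 * m + 1) (u := 2 * m + 3) (L := K) (F ⊕ C5) (C4 ⊕ Q4)
    (by rw [Nat.card_sum]; omega) (by rw [Nat.card_sum, Nat.card_sum]; omega)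
    {w | (fun f => w (Sum.inl f)) ∈ T} k0
  refine ((k1.transport (Equiv.sumSumSumComm F C5 C4 Q4)).addBase).mono ?_
  rintro x (hx | hx)
  · left
    rcases hx with hx | ⟨hx1, hx2⟩
    · exact Or.inl hx
    · right
      show W K (2 * m + 1) (2 * m + 3) K
        (red (fun q : F ⊕ C5 => x ((Equiv.sumSumSumComm F C5 C4 Q4) (Sum.inl q))))
      have e2 : red (fun q : F ⊕ C5 => x ((Equiv.sumSumSumComm F C5 C4 Q4) (Sum.inl q))) =
          red (fun f => x (Sum.inl (Sum.inl f))) + red (fun f => x (Sum.inr (Sum.inl f))) := by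
        rw [red_sum]
        rfl
      rw [e2]
      exact bot (by omega)
  · exact Or.inr hx

def e9 (C3 V X U C5 Q4 : Type) : (C3 ⊕ (V ⊕ (X ⊕ U))) ⊕ (C5 ⊕ Q4) ≃
    (C3 ⊕ (X ⊕ C5)) ⊕ ((V ⊕ U) ⊕ Q4) where
  toFun p := match p with
    | Sum.inl (Sum.inl a) => Sum.inl (Sum.inl a)
    | Sum.inl (Sum.inr (Sum.inl a)) => Sum.inr (Sum.inl (Sum.inl a))
    | Sum.inl (Sum.inr (Sum.inr (Sum.inl a))) => Sum.inl (Sum.inr (Sum.inl a))
    | Sum.inl (Sum.inr (Sum.inr (Sum.inr a))) => Sum.inr (Sum.inl (Sum.inr a))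
    | Sum.inr (Sum.inl a) => Sum.inl (Sum.inr (Sum.inr a))
    | Sum.inr (Sum.inr a) => Sum.inr (Sum.inr a)
  invFun p := match p with
    | Sum.inl (Sum.inl a) => Sum.inl (Sum.inl a)
    | Sum.inr (Sum.inl (Sum.inl a)) => Sum.inl (Sum.inr (Sum.inl a))
    | Sum.inl (Sum.inr (Sum.inl a)) => Sum.inl (Sum.inr (Sum.inr (Sum.inl a)))
    | Sum.inr (Sum.inl (Sum.inr a)) => Sum.inl (Sum.inr (Sum.inr (Sum.inr a)))
    | Sum.inl (Sum.inr (Sum.inr a)) => Sum.inr (Sum.inl a)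
    | Sum.inr (Sum.inr a) => Sum.inr (Sum.inr a)
  left_inv := by rintro ((a | (a | (a | a))) | (a | a)) <;> rfl
  right_inv := by rintro ((a | (a | a)) | ((a | a) | a)) <;> rfl

/-- The main bundle after the third vertex. -/
theorem r3 {K m c L : ℕ} (F C3 C4 V X U : Type) [Finite F] [Finite C3] [Finite C4] [Finite V]
    [Finite X] [Finite U]
    (T : Set (F → Bool)) (hF : Nat.card F + c = K) (h3 : Nat.card C3 = c)
    (h4 : Nat.card C4 = c) (hP : Nat.card V + Nat.card X + Nat.card U + c = K) (hm : 1 ≤ m)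
    (hT : ∀ (R : Type) [Finite R], Nat.card F + Nat.card R = 2 * K →
      Kill K (2 * m + 1) (2 * m + 3) (F ⊕ R) {x | (fun f => x (Sum.inl f)) ∈ T})
    (hL : Nat.card X + 2 * c = L) (h2 : ∀ p, m + 2 ≤ p → W K (2 * m + 1) (2 * m + 3) L p) :
    Kill K (2 * m + 1) (2 * m + 3) ((F ⊕ C3) ⊕ (C4 ⊕ (V ⊕ (X ⊕ U))))
      {x | ((fun f => x (Sum.inl (Sum.inl f))) ∈ T ∨
        (red (fun f => x (Sum.inl (Sum.inl f))) = m - 1 ∧
          (red (fun f => x (Sum.inr (Sum.inl f))) = 0 ∨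
          (1 ≤ red (fun f => x (Sum.inl (Sum.inr f))) ∧
          m ≤ red (fun f => x (Sum.inr (Sum.inr (Sum.inr (Sum.inl f))))))))) ∨
        (red x < 2 * m + 1 ∨ 2 * m + 3 < red x)} := by
  have k1 := r4 (K := K) (m := m) (c := c) F C4 (Fin c) (Fin (K - c)) T hF h4 (Nat.card_fin c)
    (by rw [Nat.card_fin]; omega) hm hT
  have k2 := (alive0 (K := K) (l := 2 * m + 1) (u := 2 * m + 3) (L := L)
    (e9 C3 V X U (Fin c) (Fin (K - c)))
    (by rw [Nat.card_sum, Nat.card_sum, Nat.card_fin]; omega)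
    (by rw [Nat.card_sum, Nat.card_sum, Nat.card_sum, Nat.card_sum, Nat.card_fin, Nat.card_fin]
        omega)).addBase
  refine node' (J1 := F ⊕ C4) (J2 := C3 ⊕ (V ⊕ (X ⊕ U))) (N := Fin c ⊕ Fin (K - c))
    (by rw [Nat.card_sum]; omega) (by rw [Nat.card_sum, Nat.card_sum, Nat.card_sum]; omega)
    (by rw [Nat.card_sum, Nat.card_fin, Nat.card_fin]; omega)
    (Equiv.sumSumSumComm F C3 C4 (V ⊕ (X ⊕ U))) k1 k2 fun x hx => ?_
  by_cases hb : red x < 2 * m + 1 ∨ 2 * m + 3 < red x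
  · exact Or.inl hb
  right
  intro n
  by_contra hcon
  obtain ⟨hc1, hc2⟩ := not_or.mp hcon
  have e0 : red x = (red (fun f => x (Sum.inl (Sum.inl f))) +
      red (fun f => x (Sum.inl (Sum.inr f)))) + (red (fun f => x (Sum.inr (Sum.inl f))) +
      (red (fun f => x (Sum.inr (Sum.inr (Sum.inl f)))) +
      (red (fun f => x (Sum.inr (Sum.inr (Sum.inr (Sum.inl f))))) +
      red (fun f => x (Sum.inr (Sum.inr (Sum.inr (Sum.inr f)))))))) := by
    simp only [red_sum]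
  have e1 : red (Sum.elim (fun j : F ⊕ C4 => x ((Equiv.sumSumSumComm F C3 C4
      (V ⊕ (X ⊕ U))).symm (Sum.inl j))) n) = (red (fun f => x (Sum.inl (Sum.inl f))) +
      red (fun f => x (Sum.inr (Sum.inl f)))) + red n := by
    rw [red_elim, red_sum (fun j : F ⊕ C4 => x ((Equiv.sumSumSumComm F C3 C4
      (V ⊕ (X ⊕ U))).symm (Sum.inl j)))]
    rfl
  have e2 : red (Sum.elim (fun j : C3 ⊕ (V ⊕ (X ⊕ U)) => x ((Equiv.sumSumSumComm F C3 C4
      (V ⊕ (X ⊕ U))).symm (Sum.inr j))) n) = (red (fun f => x (Sum.inl (Sum.inr f))) +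
      (red (fun f => x (Sum.inr (Sum.inr (Sum.inl f)))) +
      (red (fun f => x (Sum.inr (Sum.inr (Sum.inr (Sum.inl f))))) +
      red (fun f => x (Sum.inr (Sum.inr (Sum.inr (Sum.inr f)))))))) + red n := by
    rw [red_elim]
    simp only [red_sum (I := C3), red_sum (I := V), red_sum (I := X)]
    rfl
  have e3 : red (fun g : C3 ⊕ (X ⊕ Fin c) => (Sum.elim (fun j : C3 ⊕ (V ⊕ (X ⊕ U)) =>
      x ((Equiv.sumSumSumComm F C3 C4 (V ⊕ (X ⊕ U))).symm (Sum.inr j))) n)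
      ((e9 C3 V X U (Fin c) (Fin (K - c))).symm (Sum.inl g))) =
      red (fun f => x (Sum.inl (Sum.inr f))) +
      (red (fun f => x (Sum.inr (Sum.inr (Sum.inr (Sum.inl f))))) +
      red (fun f => n (Sum.inl f))) := by
    simp only [red_sum (I := C3), red_sum (I := X)]
    rfl
  have q1 : ¬ (red (Sum.elim (fun j : F ⊕ C4 => x ((Equiv.sumSumSumComm F C3 C4
      (V ⊕ (X ⊕ U))).symm (Sum.inl j))) n) < 2 * m + 1 ∨ 2 * m + 3 <
      red (Sum.elim (fun j : F ⊕ C4 => x ((Equiv.sumSumSumComm F C3 C4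
      (V ⊕ (X ⊕ U))).symm (Sum.inl j))) n)) := fun h => hc1 (Or.inr h)
  have q2 : ¬ (red (Sum.elim (fun j : C3 ⊕ (V ⊕ (X ⊕ U)) => x ((Equiv.sumSumSumComm F C3 C4
      (V ⊕ (X ⊕ U))).symm (Sum.inr j))) n) < 2 * m + 1 ∨ 2 * m + 3 <
      red (Sum.elim (fun j : C3 ⊕ (V ⊕ (X ⊕ U)) => x ((Equiv.sumSumSumComm F C3 C4
      (V ⊕ (X ⊕ U))).symm (Sum.inr j))) n)) := fun h => hc2 (Or.inr h)
  have q3 : (fun f => x (Sum.inl (Sum.inl f))) ∉ T := fun h => hc1 (Or.inl (Or.inl h))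
  have q4 : ¬ (red (fun f => x (Sum.inl (Sum.inl f))) = m - 1 ∧
      red (fun f => n (Sum.inl f)) = 0) := fun h => hc1 (Or.inl (Or.inr h))
  have q5 : ¬ (m + 2 ≤ red (fun f => x (Sum.inl (Sum.inr f))) +
      (red (fun f => x (Sum.inr (Sum.inr (Sum.inr (Sum.inl f))))) +
      red (fun f => n (Sum.inl f)))) := by
    intro h
    have h6 := h2 _ h
    rw [← e3] at h6
    exact hc2 (Or.inl h6)
  rw [e1] at q1
  rw [e2] at q2
  rw [e0] at hb
  rcases hx with (hx | ⟨hx1, hx2⟩) | hx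
  · exact q3 hx
  · omega
  · rw [e0] at hx
    exact hb hx

def e5 (C2 Y Z C4 V X U : Type) : (C2 ⊕ (Y ⊕ Z)) ⊕ (C4 ⊕ (V ⊕ (X ⊕ U))) ≃
    ((C2 ⊕ C4) ⊕ (Z ⊕ V)) ⊕ (Y ⊕ (X ⊕ U)) where
  toFun p := match p with
    | Sum.inl (Sum.inl a) => Sum.inl (Sum.inl (Sum.inl a))
    | Sum.inl (Sum.inr (Sum.inl a)) => Sum.inr (Sum.inl a)
    | Sum.inl (Sum.inr (Sum.inr a)) => Sum.inl (Sum.inr (Sum.inl a))
    | Sum.inr (Sum.inl a) => Sum.inl (Sum.inl (Sum.inr a))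
    | Sum.inr (Sum.inr (Sum.inl a)) => Sum.inl (Sum.inr (Sum.inr a))
    | Sum.inr (Sum.inr (Sum.inr a)) => Sum.inr (Sum.inr a)
  invFun p := match p with
    | Sum.inl (Sum.inl (Sum.inl a)) => Sum.inl (Sum.inl a)
    | Sum.inr (Sum.inl a) => Sum.inl (Sum.inr (Sum.inl a))
    | Sum.inl (Sum.inr (Sum.inl a)) => Sum.inl (Sum.inr (Sum.inr a))
    | Sum.inl (Sum.inl (Sum.inr a)) => Sum.inr (Sum.inl a)
    | Sum.inl (Sum.inr (Sum.inr a)) => Sum.inr (Sum.inr (Sum.inl a))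
    | Sum.inr (Sum.inr a) => Sum.inr (Sum.inr (Sum.inr a))
  left_inv := by rintro ((a | (a | a)) | (a | (a | a))) <;> rfl
  right_inv := by rintro (((a | a) | (a | a)) | (a | a)) <;> rfl

def e6 (C2 C4 Z V N2 N3 : Type) : ((C2 ⊕ C4) ⊕ (Z ⊕ V)) ⊕ (N2 ⊕ N3) ≃
    ((C2 ⊕ C4) ⊕ (Z ⊕ N2)) ⊕ (V ⊕ N3) where
  toFun p := match p with
    | Sum.inl (Sum.inl a) => Sum.inl (Sum.inl a)
    | Sum.inl (Sum.inr (Sum.inl a)) => Sum.inl (Sum.inr (Sum.inl a))
    | Sum.inl (Sum.inr (Sum.inr a)) => Sum.inr (Sum.inl a)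
    | Sum.inr (Sum.inl a) => Sum.inl (Sum.inr (Sum.inr a))
    | Sum.inr (Sum.inr a) => Sum.inr (Sum.inr a)
  invFun p := match p with
    | Sum.inl (Sum.inl a) => Sum.inl (Sum.inl a)
    | Sum.inl (Sum.inr (Sum.inl a)) => Sum.inl (Sum.inr (Sum.inl a))
    | Sum.inr (Sum.inl a) => Sum.inl (Sum.inr (Sum.inr a))
    | Sum.inl (Sum.inr (Sum.inr a)) => Sum.inr (Sum.inl a)
    | Sum.inr (Sum.inr a) => Sum.inr (Sum.inr a)
  left_inv := by rintro ((a | (a | a)) | (a | a)) <;> rfl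
  right_inv := by rintro ((a | (a | a)) | (a | a)) <;> rfl

def e7 (Y X U N2 N3 : Type) : (Y ⊕ (X ⊕ U)) ⊕ (N2 ⊕ N3) ≃
    (Y ⊕ (X ⊕ N2)) ⊕ (U ⊕ N3) where
  toFun p := match p with
    | Sum.inl (Sum.inl a) => Sum.inl (Sum.inl a)
    | Sum.inl (Sum.inr (Sum.inl a)) => Sum.inl (Sum.inr (Sum.inl a))
    | Sum.inl (Sum.inr (Sum.inr a)) => Sum.inr (Sum.inl a)
    | Sum.inr (Sum.inl a) => Sum.inl (Sum.inr (Sum.inr a))
    | Sum.inr (Sum.inr a) => Sum.inr (Sum.inr a)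
  invFun p := match p with
    | Sum.inl (Sum.inl a) => Sum.inl (Sum.inl a)
    | Sum.inl (Sum.inr (Sum.inl a)) => Sum.inl (Sum.inr (Sum.inl a))
    | Sum.inr (Sum.inl a) => Sum.inl (Sum.inr (Sum.inr a))
    | Sum.inl (Sum.inr (Sum.inr a)) => Sum.inr (Sum.inl a)
    | Sum.inr (Sum.inr a) => Sum.inr (Sum.inr a)
  left_inv := by rintro ((a | (a | a)) | (a | a)) <;> rfl
  right_inv := by rintro ((a | (a | a)) | (a | a)) <;> rfl

def e8 (C1 Q1 C3 Y Z : Type) : (C1 ⊕ Q1) ⊕ (C3 ⊕ (Y ⊕ Z)) ≃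
    (C1 ⊕ (C3 ⊕ Y)) ⊕ (Q1 ⊕ Z) where
  toFun p := match p with
    | Sum.inl (Sum.inl a) => Sum.inl (Sum.inl a)
    | Sum.inl (Sum.inr a) => Sum.inr (Sum.inl a)
    | Sum.inr (Sum.inl a) => Sum.inl (Sum.inr (Sum.inl a))
    | Sum.inr (Sum.inr (Sum.inl a)) => Sum.inl (Sum.inr (Sum.inr a))
    | Sum.inr (Sum.inr (Sum.inr a)) => Sum.inr (Sum.inr a)
  invFun p := match p with
    | Sum.inl (Sum.inl a) => Sum.inl (Sum.inl a)
    | Sum.inr (Sum.inl a) => Sum.inl (Sum.inr a)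
    | Sum.inl (Sum.inr (Sum.inl a)) => Sum.inr (Sum.inl a)
    | Sum.inl (Sum.inr (Sum.inr a)) => Sum.inr (Sum.inr (Sum.inl a))
    | Sum.inr (Sum.inr a) => Sum.inr (Sum.inr (Sum.inr a))
  left_inv := by rintro ((a | a) | (a | (a | a))) <;> rfl
  right_inv := by rintro ((a | (a | a)) | (a | a)) <;> rfl

/-- The third vertex. -/
theorem w3 {K m v : ℕ} (C2 Y Z C4 V X U : Type) [Finite C2] [Finite Y] [Finite Z] [Finite C4]
    [Finite V] [Finite X] [Finite U] (hm : 1 ≤ m)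
    (hV : Nat.card V = v) (hU : Nat.card U = v)
    (hH1 : Nat.card C2 + Nat.card C4 + Nat.card Z + v = K)
    (hH2 : Nat.card Y + Nat.card X + v = K) :
    Kill K (2 * m + 1) (2 * m + 3) ((C2 ⊕ (Y ⊕ Z)) ⊕ (C4 ⊕ (V ⊕ (X ⊕ U))))
      {x | red (fun f => x (Sum.inl (Sum.inr (Sum.inl f)))) = 0 ∧
        red (fun f => x (Sum.inr (Sum.inr (Sum.inr (Sum.inl f))))) + 1 ≤ m ∧
        m + 2 ≤ (red (fun f => x (Sum.inl (Sum.inl f))) + red (fun f => x (Sum.inr (Sum.inl f)))) +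
          red (fun f => x (Sum.inl (Sum.inr (Sum.inr f))))} := by
  have k1 := alive0 (K := K) (l := 2 * m + 1) (u := 2 * m + 3) (L := K)
    (e6 C2 C4 Z V (Fin v) (Fin (K - v)))
    (by rw [Nat.card_sum, Nat.card_sum, Nat.card_sum, Nat.card_fin]; omega)
    (by rw [Nat.card_sum, Nat.card_sum, Nat.card_sum, Nat.card_sum, Nat.card_fin, Nat.card_fin]
        omega)
  have k2 := alive0 (K := K) (l := 2 * m + 1) (u := 2 * m + 3) (L := K)
    (e7 Y X U (Fin v) (Fin (K - v)))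
    (by rw [Nat.card_sum, Nat.card_sum, Nat.card_fin]; omega)
    (by rw [Nat.card_sum, Nat.card_sum, Nat.card_sum, Nat.card_fin, Nat.card_fin]
        omega)
  refine node' (J1 := (C2 ⊕ C4) ⊕ (Z ⊕ V)) (J2 := Y ⊕ (X ⊕ U)) (N := Fin v ⊕ Fin (K - v))
    (by rw [Nat.card_sum, Nat.card_sum, Nat.card_sum]; omega)
    (by rw [Nat.card_sum, Nat.card_sum]; omega)
    (by rw [Nat.card_sum, Nat.card_fin, Nat.card_fin]; omega)
    (e5 C2 Y Z C4 V X U) k1 k2 fun x hx => ?_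
  right
  intro n
  obtain ⟨h1, h2, h3⟩ := hx
  have g1 : red (fun g : (C2 ⊕ C4) ⊕ (Z ⊕ Fin v) => (Sum.elim (fun j : (C2 ⊕ C4) ⊕ (Z ⊕ V) =>
      x ((e5 C2 Y Z C4 V X U).symm (Sum.inl j))) n)
      ((e6 C2 C4 Z V (Fin v) (Fin (K - v))).symm (Sum.inl g))) =
      (red (fun f => x (Sum.inl (Sum.inl f))) + red (fun f => x (Sum.inr (Sum.inl f)))) +
      (red (fun f => x (Sum.inl (Sum.inr (Sum.inr f)))) + red (fun f => n (Sum.inl f))) := by
    simp only [red_sum (I := C2 ⊕ C4), red_sum (I := C2), red_sum (I := Z)]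
    rfl
  have g2 : red (fun g : Y ⊕ (X ⊕ Fin v) => (Sum.elim (fun j : Y ⊕ (X ⊕ U) =>
      x ((e5 C2 Y Z C4 V X U).symm (Sum.inr j))) n)
      ((e7 Y X U (Fin v) (Fin (K - v))).symm (Sum.inl g))) =
      red (fun f => x (Sum.inl (Sum.inr (Sum.inl f)))) +
      (red (fun f => x (Sum.inr (Sum.inr (Sum.inr (Sum.inl f))))) +
      red (fun f => n (Sum.inl f))) := by
    simp only [red_sum (I := Y), red_sum (I := X)]
    rfl
  by_cases h4 : red (fun f => n (Sum.inl f)) = 0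
  · right
    show W K (2 * m + 1) (2 * m + 3) K _
    rw [g2]
    exact bot (by omega)
  · left
    show W K (2 * m + 1) (2 * m + 3) K _
    rw [g1]
    exact top le_rfl (by omega)

/-- The main bundle after the second vertex. -/
theorem r2 {K m c v xx L : ℕ} (F C2 C3 Y Z : Type) [Finite F] [Finite C2] [Finite C3] [Finite Y]
    [Finite Z]
    (T : Set (F → Bool)) (hF : Nat.card F + c = K) (h2' : Nat.card C2 = c)
    (h3 : Nat.card C3 = c) (hY : Nat.card Y = v + c) (hZ : Nat.card Z + v + 2 * c = K)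
    (hx' : xx + 2 * v + c = K) (hm : 1 ≤ m)
    (hT : ∀ (R : Type) [Finite R], Nat.card F + Nat.card R = 2 * K →
      Kill K (2 * m + 1) (2 * m + 3) (F ⊕ R) {x | (fun f => x (Sum.inl f)) ∈ T})
    (hL : xx + 2 * c = L) (h2 : ∀ p, m + 2 ≤ p → W K (2 * m + 1) (2 * m + 3) L p) :
    Kill K (2 * m + 1) (2 * m + 3) ((F ⊕ C2) ⊕ (C3 ⊕ (Y ⊕ Z)))
      {x | (fun f => x (Sum.inl (Sum.inl f))) ∈ T ∨
        (red (fun f => x (Sum.inl (Sum.inl f))) = m - 1 ∧
          (red (fun f => x (Sum.inr (Sum.inl f))) = 0 ∨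
          (red (fun f => x (Sum.inr (Sum.inl f))) = 1 ∧
          red (fun f => x (Sum.inr (Sum.inr (Sum.inl f)))) = 0)))} := by
  have k1 := r3 (K := K) (m := m) (c := c) (L := L) F C3 (Fin c) (Fin v) (Fin xx) (Fin v) T hF h3
    (Nat.card_fin c) (by rw [Nat.card_fin, Nat.card_fin]; omega) hm hT
    (by rw [Nat.card_fin]; omega) h2
  have k2 := (w3 (K := K) (m := m) (v := v) C2 Y Z (Fin c) (Fin v) (Fin xx) (Fin v) hm
    (Nat.card_fin v) (Nat.card_fin v) (by rw [Nat.card_fin]; omega)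
    (by rw [Nat.card_fin]; omega)).addBase
  refine node' (J1 := F ⊕ C3) (J2 := C2 ⊕ (Y ⊕ Z)) (N := Fin c ⊕ (Fin v ⊕ (Fin xx ⊕ Fin v)))
    (by rw [Nat.card_sum]; omega) (by rw [Nat.card_sum, Nat.card_sum]; omega)
    (by rw [Nat.card_sum, Nat.card_sum, Nat.card_sum, Nat.card_fin, Nat.card_fin, Nat.card_fin]
        omega)
    (Equiv.sumSumSumComm F C2 C3 (Y ⊕ Z)) k1 k2 fun x hx => ?_
  by_cases hb : red x < 2 * m + 1 ∨ 2 * m + 3 < red x
  · exact Or.inl hb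
  right
  intro n
  by_contra hcon
  obtain ⟨hc1, hc2⟩ := not_or.mp hcon
  have e0 : red x = (red (fun f => x (Sum.inl (Sum.inl f))) +
      red (fun f => x (Sum.inl (Sum.inr f)))) + (red (fun f => x (Sum.inr (Sum.inl f))) +
      (red (fun f => x (Sum.inr (Sum.inr (Sum.inl f)))) +
      red (fun f => x (Sum.inr (Sum.inr (Sum.inr f)))))) := by
    simp only [red_sum]
  have e1 : red (Sum.elim (fun j : F ⊕ C3 => x ((Equiv.sumSumSumComm F C2 C3
      (Y ⊕ Z)).symm (Sum.inl j))) n) = (red (fun f => x (Sum.inl (Sum.inl f))) +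
      red (fun f => x (Sum.inr (Sum.inl f)))) + red n := by
    rw [red_elim, red_sum (fun j : F ⊕ C3 => x ((Equiv.sumSumSumComm F C2 C3
      (Y ⊕ Z)).symm (Sum.inl j)))]
    rfl
  have e2 : red (Sum.elim (fun j : C2 ⊕ (Y ⊕ Z) => x ((Equiv.sumSumSumComm F C2 C3
      (Y ⊕ Z)).symm (Sum.inr j))) n) = (red (fun f => x (Sum.inl (Sum.inr f))) +
      (red (fun f => x (Sum.inr (Sum.inr (Sum.inl f)))) +
      red (fun f => x (Sum.inr (Sum.inr (Sum.inr f)))))) + red n := by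
    rw [red_elim]
    simp only [red_sum (I := C2), red_sum (I := Y)]
    rfl
  have q1 : ¬ (red (Sum.elim (fun j : F ⊕ C3 => x ((Equiv.sumSumSumComm F C2 C3
      (Y ⊕ Z)).symm (Sum.inl j))) n) < 2 * m + 1 ∨ 2 * m + 3 <
      red (Sum.elim (fun j : F ⊕ C3 => x ((Equiv.sumSumSumComm F C2 C3
      (Y ⊕ Z)).symm (Sum.inl j))) n)) := fun h => hc1 (Or.inr h)
  have q2 : ¬ (red (Sum.elim (fun j : C2 ⊕ (Y ⊕ Z) => x ((Equiv.sumSumSumComm F C2 C3
      (Y ⊕ Z)).symm (Sum.inr j))) n) < 2 * m + 1 ∨ 2 * m + 3 <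
      red (Sum.elim (fun j : C2 ⊕ (Y ⊕ Z) => x ((Equiv.sumSumSumComm F C2 C3
      (Y ⊕ Z)).symm (Sum.inr j))) n)) := fun h => hc2 (Or.inr h)
  have q3 : (fun f => x (Sum.inl (Sum.inl f))) ∉ T := fun h => hc1 (Or.inl (Or.inl h))
  have q4 : ¬ (red (fun f => x (Sum.inl (Sum.inl f))) = m - 1 ∧
      (red (fun f => n (Sum.inl f)) = 0 ∨
      (1 ≤ red (fun f => x (Sum.inr (Sum.inl f))) ∧
      m ≤ red (fun f => n (Sum.inr (Sum.inr (Sum.inl f))))))) :=
    fun h => hc1 (Or.inl (Or.inr h))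
  have q5 : ¬ (red (fun f => x (Sum.inr (Sum.inr (Sum.inl f)))) = 0 ∧
      red (fun f => n (Sum.inr (Sum.inr (Sum.inl f)))) + 1 ≤ m ∧
      m + 2 ≤ (red (fun f => x (Sum.inl (Sum.inr f))) + red (fun f => n (Sum.inl f))) +
        red (fun f => x (Sum.inr (Sum.inr (Sum.inr f))))) :=
    fun h => hc2 (Or.inl h)
  rw [e1] at q1
  rw [e2] at q2
  rw [e0] at hb
  rcases hx with hx | ⟨hx1, hx2⟩
  · exact q3 hx
  · omega

/-- The main chain. -/
theorem main {K m c v xx zz L1 L2 : ℕ} (hm : 1 ≤ m) (hc : 1 ≤ c)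
    (hz : zz + v + 2 * c = K) (hx' : xx + 2 * v + c = K)
    (hL1 : v + 3 * c = L1) (h1 : ∀ p, 3 ≤ p → W K (2 * m + 1) (2 * m + 3) L1 p)
    (hL2 : xx + 2 * c = L2) (h2 : ∀ p, m + 2 ≤ p → W K (2 * m + 1) (2 * m + 3) L2 p) :
    W K (2 * m + 1) (2 * m + 3) (K - c) (m - 1) := by
  intro F R _ _ hF hR T hT0
  have hT : ∀ (R' : Type) [Finite R'], Nat.card F + Nat.card R' = 2 * K →
      Kill K (2 * m + 1) (2 * m + 3) (F ⊕ R') {x | (fun f => x (Sum.inl f)) ∈ T} := by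
    intro R' _ h
    exact kill_rest (by omega) hT0
  have k1 := r2 (K := K) (m := m) (c := c) (v := v) (xx := xx) (L := L2) F (Fin c) (Fin c)
    (Fin (v + c)) (Fin zz) T (by omega) (Nat.card_fin c) (Nat.card_fin c) (Nat.card_fin (v + c))
    (by rw [Nat.card_fin]; omega) hx' hm hT hL2 h2
  have k2 := alive0 (K := K) (l := 2 * m + 1) (u := 2 * m + 3) (L := L1)
    (e8 (Fin c) (Fin (K - c)) (Fin c) (Fin (v + c)) (Fin zz))
    (by rw [Nat.card_sum, Nat.card_sum, Nat.card_fin, Nat.card_fin]; omega)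
    (by rw [Nat.card_sum, Nat.card_sum, Nat.card_sum, Nat.card_fin, Nat.card_fin, Nat.card_fin,
          Nat.card_fin]
        omega)
  have kn : Kill K (2 * m + 1) (2 * m + 3) ((F ⊕ Fin c) ⊕ (Fin c ⊕ Fin (K - c)))
      {x | (fun f => x (Sum.inl f)) ∈ {w : F ⊕ Fin c → Bool | (fun f => w (Sum.inl f)) ∈ T ∨
        (red (fun f => w (Sum.inl f)) = m - 1 ∧ 1 ≤ red (fun f => w (Sum.inr f)))}} := by
    refine node' (J1 := F ⊕ Fin c) (J2 := Fin c ⊕ Fin (K - c))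
      (N := Fin c ⊕ (Fin (v + c) ⊕ Fin zz))
      (by rw [Nat.card_sum, Nat.card_fin]; omega)
      (by rw [Nat.card_sum, Nat.card_fin, Nat.card_fin]; omega)
      (by rw [Nat.card_sum, Nat.card_sum, Nat.card_fin, Nat.card_fin, Nat.card_fin]; omega)
      (Equiv.sumSumSumComm F (Fin c) (Fin c) (Fin (K - c))) k1 k2 fun x hx => ?_
    right
    intro n
    by_contra hcon
    obtain ⟨hc1, hc2⟩ := not_or.mp hcon
    have e3 : red (fun g : Fin c ⊕ (Fin c ⊕ Fin (v + c)) =>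
        (Sum.elim (fun j : Fin c ⊕ Fin (K - c) =>
        x ((Equiv.sumSumSumComm F (Fin c) (Fin c) (Fin (K - c))).symm (Sum.inr j))) n)
        ((e8 (Fin c) (Fin (K - c)) (Fin c) (Fin (v + c)) (Fin zz)).symm (Sum.inl g))) =
        red (fun f => x (Sum.inl (Sum.inr f))) +
        (red (fun f => n (Sum.inl f)) + red (fun f => n (Sum.inr (Sum.inl f)))) := by
      simp only [red_sum (I := Fin c)]
      rfl
    have q3 : (fun f => x (Sum.inl (Sum.inl f))) ∉ T := fun h => hc1 (Or.inl h)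
    have q4 : ¬ (red (fun f => x (Sum.inl (Sum.inl f))) = m - 1 ∧
        (red (fun f => n (Sum.inl f)) = 0 ∨ (red (fun f => n (Sum.inl f)) = 1 ∧
        red (fun f => n (Sum.inr (Sum.inl f))) = 0))) := fun h => hc1 (Or.inr h)
    have q5 : ¬ (3 ≤ red (fun f => x (Sum.inl (Sum.inr f))) +
        (red (fun f => n (Sum.inl f)) + red (fun f => n (Sum.inr (Sum.inl f))))) := by
      intro h
      have h6 := h1 _ h
      rw [← e3] at h6
      exact hc2 h6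
    rcases hx with hx | ⟨hx1, hx2⟩
    · exact q3 hx
    · have hx1' : red (fun f => x (Sum.inl (Sum.inl f))) = m - 1 := hx1
      have hx2' : 1 ≤ red (fun f => x (Sum.inl (Sum.inr f))) := hx2
      omega
  have ks := W_seq' (K := K) (l := 2 * m + 1) (u := 2 * m + 3) (L := K) (F ⊕ Fin c)
    (Fin c ⊕ Fin (K - c)) (by rw [Nat.card_sum, Nat.card_fin]; omega)
    (by rw [Nat.card_sum, Nat.card_sum, Nat.card_fin, Nat.card_fin]; omega) _ kn
  have kt := ks.transport (Equiv.sumAssoc F (Fin c) (Fin c ⊕ Fin (K - c)))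
  have ku : Kill K (2 * m + 1) (2 * m + 3) (F ⊕ (Fin c ⊕ (Fin c ⊕ Fin (K - c))))
      {x | (fun f => x (Sum.inl f)) ∈ {y : F → Bool | y ∈ T ∨ red y = m - 1}} := by
    refine kt.mono ?_
    intro x hx
    rcases hx with hx | hx
    · exact Or.inl (Or.inl hx)
    · have hx' : red (fun f => x (Sum.inl f)) = m - 1 := hx
      by_cases h3 : red (fun f => x (Sum.inr (Sum.inl f))) = 0
      · right
        show W K (2 * m + 1) (2 * m + 3) K (red (fun q : F ⊕ Fin c =>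
          x (Equiv.sumAssoc F (Fin c) (Fin c ⊕ Fin (K - c)) (Sum.inl q))))
        have e2 : red (fun q : F ⊕ Fin c =>
            x (Equiv.sumAssoc F (Fin c) (Fin c ⊕ Fin (K - c)) (Sum.inl q))) =
            red (fun f => x (Sum.inl f)) + red (fun f => x (Sum.inr (Sum.inl f))) := by
          rw [red_sum]
          rfl
        rw [e2]
        exact bot (by omega)
      · left
        right
        exact ⟨hx', Nat.one_le_iff_ne_zero.mpr h3⟩
  refine kill_rest ?_ ku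
  rw [Nat.card_sum, Nat.card_sum, Nat.card_fin, Nat.card_fin]
  omega

end Pool.Agent.Lib.MP_21a058_co.Slack3.Main84
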