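import Pool.Agent.Lib.MP_21a058_co.Slack3.Main75

/-! Slack 2, window `3 ≤ red ≤ 5`: three red edges among `c + s` edges that stay alive are refutable
when `K = 2 c + s` and `2 s ≤ c`; so everything is refutable for `K = 20`, `K = 22` and every
`K ≥ 24`, even or odd. -/

set_option autoImplicit false

namespace Pool.Agent.Lib.MP_21a058_co.Slack3.M99

open Pool.Agent.Lib.MP_21a058_co.Slack3
open Pool.Agent.Lib.MP_21a058_co.Slack3.M75
open Pool.Agent.Lib.MP_21a058_co.Odd (red red_sum red_equiv red_le)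

/-- An alive set has at most three red edges. -/
theorem small3 {K L : ℕ} {F R : Type} [Finite F] [Finite R] (hL : L ≤ K) (hF : Nat.card F = L)
    (hR : Nat.card F + Nat.card R = 2 * K) :
    Fo K (F ⊕ R) (fun x => red (fun f => x (Sum.inl f)) ≤ 3) := by
  have h1 := W_seq' (K := K) (l := 3) (u := 5) F R hF hR ∅
    ((Kill.empty K 3 5 _).mono (by intro x hx; exact absurd hx (Set.notMem_empty _)))
  refine Kill.mono h1 fun x hx => Or.inr (base4 hL ?_)
  have hx' : ¬ red (fun f => x (Sum.inl f)) ≤ 3 := hx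
  omega

/-- The vertex which sees the full set `Z ∪ Z' ∪ Z2`. -/
theorem v2 {K : ℕ} {Z Z' R Z2 N : Type} [Finite Z] [Finite Z'] [Finite R] [Finite Z2] [Finite N]
    (h1 : Nat.card Z + Nat.card Z' + Nat.card Z2 ≤ K)
    (h2 : Nat.card Z + Nat.card Z' + Nat.card R + (Nat.card Z2 + Nat.card N) = 2 * K) :
    Fo K (((Z ⊕ Z') ⊕ R) ⊕ (Z2 ⊕ N)) (fun x => red (fun i => x (Sum.inl (Sum.inl (Sum.inl i)))) +
      red (fun i => x (Sum.inl (Sum.inl (Sum.inr i)))) + red (fun i => x (Sum.inr (Sum.inl i))) ≤ 3) := by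
  have k1 := small3 (K := K) (F := (Z ⊕ Z') ⊕ Z2) (R := R ⊕ N)
    (L := Nat.card Z + Nat.card Z' + Nat.card Z2) h1
    (by rw [Nat.card_sum, Nat.card_sum])
    (by rw [Nat.card_sum, Nat.card_sum, Nat.card_sum]; omega)
  refine (k1.transport (eV Z Z' R Z2 N)).mono fun x hx => ?_
  have r1 : red (fun f => x ((eV Z Z' R Z2 N) (Sum.inl f))) =
      (red (fun i => x (Sum.inl (Sum.inl (Sum.inl i)))) +
          red (fun i => x (Sum.inl (Sum.inl (Sum.inr i))))) +
        red (fun i => x (Sum.inr (Sum.inl i))) :=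
    (red_sum _).trans (congrArg (· + _) (red_sum _))
  have hx' : red (fun f => x ((eV Z Z' R Z2 N) (Sum.inl f))) ≤ 3 := hx
  omega

def eB (C S S2 Z Q : Type) : (C ⊕ (S ⊕ (S2 ⊕ Z))) ⊕ (C ⊕ Q) ≃
    ((C ⊕ C) ⊕ S2) ⊕ ((S ⊕ Q) ⊕ Z) where
  toFun p := match p with
    | Sum.inl (Sum.inl c) => Sum.inl (Sum.inl (Sum.inl c))
    | Sum.inl (Sum.inr (Sum.inl z)) => Sum.inr (Sum.inl (Sum.inl z))
    | Sum.inl (Sum.inr (Sum.inr (Sum.inl z))) => Sum.inl (Sum.inr z)
    | Sum.inl (Sum.inr (Sum.inr (Sum.inr p))) => Sum.inr (Sum.inr p)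
    | Sum.inr (Sum.inl c) => Sum.inl (Sum.inl (Sum.inr c))
    | Sum.inr (Sum.inr q) => Sum.inr (Sum.inl (Sum.inr q))
  invFun p := match p with
    | Sum.inl (Sum.inl (Sum.inl c)) => Sum.inl (Sum.inl c)
    | Sum.inr (Sum.inl (Sum.inl z)) => Sum.inl (Sum.inr (Sum.inl z))
    | Sum.inl (Sum.inr z) => Sum.inl (Sum.inr (Sum.inr (Sum.inl z)))
    | Sum.inr (Sum.inr p) => Sum.inl (Sum.inr (Sum.inr (Sum.inr p)))
    | Sum.inl (Sum.inl (Sum.inr c)) => Sum.inr (Sum.inl c)
    | Sum.inr (Sum.inl (Sum.inr q)) => Sum.inr (Sum.inr q)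
  left_inv := by rintro ((c | (z | (z | p))) | (c | q)) <;> rfl
  right_inv := by rintro (((c | c) | z) | ((z | q) | p)) <;> rfl

/-- The vertex which reads off that the next set has at most one red edge. -/
theorem wB {K c s : ℕ} (hK : K = 2 * c + s) (hc : 2 * s ≤ c) :
    Fo K ((Fin c ⊕ (Fin s ⊕ (Fin s ⊕ Fin (c - s)))) ⊕ (Fin c ⊕ Fin (c + s)))
      (fun x => red (fun i => x (Sum.inl (Sum.inl i))) = 0 →
        red (fun i => x (Sum.inr (Sum.inl i))) = 0 →
        1 ≤ red (fun i => x (Sum.inl (Sum.inr (Sum.inl i)))) →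
        red (fun i => x (Sum.inr (Sum.inr i))) ≤ 1) := by
  refine (Fo.num (K := K) (N := Fin s ⊕ Fin (2 * c))
    (J1 := (Fin c ⊕ Fin c) ⊕ Fin s)
    (J2 := (Fin s ⊕ Fin (c + s)) ⊕ Fin (c - s)) ?_ ?_ ?_
    (eB (Fin c) (Fin s) (Fin s) (Fin (c - s)) (Fin (c + s)))
    (u1 (C := Fin c) (C' := Fin c) (Z := Fin s) (Z' := Fin s) (N := Fin (2 * c)) ?_ ?_)
    (v2 (Z := Fin s) (Z' := Fin (c + s)) (R := Fin (c - s)) (Z2 := Fin s)
      (N := Fin (2 * c)) ?_ ?_)).mono ?_
  · rw [Nat.card_sum, Nat.card_sum, Nat.card_fin, Nat.card_fin]; omega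
  · rw [Nat.card_sum, Nat.card_sum, Nat.card_fin, Nat.card_fin, Nat.card_fin]; omega
  · rw [Nat.card_sum, Nat.card_fin, Nat.card_fin]; omega
  · rw [Nat.card_fin, Nat.card_fin]; omega
  · rw [Nat.card_fin, Nat.card_fin]; omega
  · rw [Nat.card_fin, Nat.card_fin]; omega
  · rw [Nat.card_fin, Nat.card_fin, Nat.card_fin, Nat.card_fin]; omega
  · rintro x ⟨n, -, -, hA, hB⟩ c1 c2 c3
    have hA' : 1 ≤ red (fun i => x (Sum.inl (Sum.inl i))) +
      red (fun i => x (Sum.inr (Sum.inl i))) + red (fun i => n (Sum.inl i)) := hA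
    have hB' : red (fun i => x (Sum.inl (Sum.inr (Sum.inl i)))) +
      red (fun i => x (Sum.inr (Sum.inr i))) + red (fun i => n (Sum.inl i)) ≤ 3 := hB
    omega

theorem main {K c s : ℕ} (hK : K = 2 * c + s) (hc : 2 * s ≤ c) : W K 3 5 (c + s) 3 := by
  intro F R _ _ hF hR T hT
  have cC : Nat.card (Fin c) = c := Nat.card_fin _
  have cQ : Nat.card (Fin (c + s)) = c + s := Nat.card_fin _
  have cS : Nat.card (Fin s ⊕ (Fin s ⊕ Fin (c - s))) = c + s := by
    rw [Nat.card_sum, Nat.card_sum, Nat.card_fin, Nat.card_fin]; omega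
  have cS' : Nat.card (Fin s ⊕ Fin (c - s)) = c := by
    rw [Nat.card_sum, Nat.card_fin, Nat.card_fin]; omega
  -- the last vertex
  have k7 : Fo K ((F ⊕ Fin c) ⊕ Fin K) (fun x => (fun i => x (Sum.inl (Sum.inl i))) ∉ T) := by
    have h1 : Kill K 3 5 (F ⊕ (Fin c ⊕ Fin K)) {x | (fun f => x (Sum.inl f)) ∈ T} := by
      refine kill_rest ?_ hT
      rw [Nat.card_sum, Nat.card_fin, Nat.card_fin]
      omega
    refine Kill.mono (h1.transport (Equiv.sumAssoc F (Fin c) (Fin K)).symm) fun x hx => ?_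
    exact Classical.not_not.1 hx
  -- the node 6
  have k6 : Fo K ((F ⊕ Fin c) ⊕ (Fin c ⊕ Fin (c + s))) (fun x =>
      (fun i => x (Sum.inl (Sum.inl i))) ∉ T ∧ (red (fun i => x (Sum.inl (Sum.inl i))) = 3 →
        red (fun i => x (Sum.inr (Sum.inl i))) = 0)) := by
    refine (Fo.num (K := K) (N := Fin K) (J1 := Fin c ⊕ Fin (c + s)) (J2 := F ⊕ Fin c)
      (by rw [Nat.card_sum, cC, cQ]; omega) (by rw [Nat.card_sum, cC, hF]; omega) (Nat.card_fin K)
      (eX F (Fin c) (Fin c) (Fin (c + s))) (Fo.triv K _) k7).mono ?_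
    rintro x ⟨n, -, ⟨-, g2⟩, -, hB⟩
    have r2 : red (fun j => x ((eX F (Fin c) (Fin c) (Fin (c + s))).symm (Sum.inr j))) =
        red (fun i => x (Sum.inl (Sum.inl i))) + red (fun i => x (Sum.inr (Sum.inl i))) := red_sum _
    exact ⟨hB, fun h3 => by omega⟩
  -- the node 5: tests the set `S'` of `Q5`
  have k5 : Fo K ((F ⊕ Fin c) ⊕ (Fin c ⊕ (Fin s ⊕ (Fin s ⊕ Fin (c - s))))) (fun x =>
      (fun i => x (Sum.inl (Sum.inl i))) ∉ T ∧ (red (fun i => x (Sum.inl (Sum.inl i))) = 3 →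
        red (fun i => x (Sum.inr (Sum.inl i))) = 0 ∧
        1 ≤ red (fun i => x (Sum.inl (Sum.inr i))) +
          red (fun i => x (Sum.inr (Sum.inr (Sum.inl i)))))) := by
    refine (Fo.num (K := K) (N := Fin c ⊕ Fin (c + s))
      (J1 := Fin c ⊕ (Fin s ⊕ (Fin s ⊕ Fin (c - s)))) (J2 := F ⊕ Fin c)
      (by rw [Nat.card_sum, cC, cS]; omega) (by rw [Nat.card_sum, cC, hF]; omega)
      (by rw [Nat.card_sum, cC, cQ]; omega)
      (eX F (Fin c) (Fin c) (Fin s ⊕ (Fin s ⊕ Fin (c - s))))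
      (tst (C := Fin c) (C' := Fin c) (Z := Fin s) (Y := Fin s ⊕ Fin (c - s)) (Q := Fin (c + s))
        (by rw [cC, Nat.card_fin]; omega) (by rw [cS', cQ]; omega)) k6).mono ?_
    rintro x ⟨n, -, ⟨-, g2⟩, hA, hB, hB2⟩
    have r2 : red (fun j => x ((eX F (Fin c) (Fin c) (Fin s ⊕ (Fin s ⊕ Fin (c - s)))).symm
        (Sum.inr j))) =
        red (fun i => x (Sum.inl (Sum.inl i))) + red (fun i => x (Sum.inr (Sum.inl i))) := red_sum _
    have hA' : 1 ≤ red (fun i => x (Sum.inl (Sum.inr i))) + red (fun i => n (Sum.inl i)) +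
        red (fun i => x (Sum.inr (Sum.inr (Sum.inl i)))) := hA
    have hB2' : red (fun i => x (Sum.inl (Sum.inl i))) = 3 → red (fun i => n (Sum.inl i)) = 0 := hB2
    refine ⟨hB, fun h3 => ?_⟩
    have := hB2' h3
    omega
  -- the node 4: `Q4` has at most one red edge
  have k4 : Fo K ((F ⊕ Fin c) ⊕ (Fin c ⊕ Fin (c + s))) (fun x =>
      (fun i => x (Sum.inl (Sum.inl i))) ∉ T ∧ (red (fun i => x (Sum.inl (Sum.inl i))) = 3 →
        red (fun i => x (Sum.inr (Sum.inl i))) = 0 ∧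
        (red (fun i => x (Sum.inl (Sum.inr i))) = 0 →
          red (fun i => x (Sum.inr (Sum.inr i))) ≤ 1))) := by
    refine (Fo.num (K := K) (N := Fin c ⊕ (Fin s ⊕ (Fin s ⊕ Fin (c - s))))
      (J1 := Fin c ⊕ Fin (c + s)) (J2 := F ⊕ Fin c)
      (by rw [Nat.card_sum, cC, cQ]; omega) (by rw [Nat.card_sum, cC, hF]; omega)
      (by rw [Nat.card_sum, cC, cS]; omega)
      (eX F (Fin c) (Fin c) (Fin (c + s)))
      ((wB hK hc).transport (Equiv.sumComm _ _)) k5).mono ?_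
    rintro x ⟨n, -, ⟨-, g2⟩, hA, hB, hB2⟩
    have r2 : red (fun j => x ((eX F (Fin c) (Fin c) (Fin (c + s))).symm (Sum.inr j))) =
        red (fun i => x (Sum.inl (Sum.inl i))) + red (fun i => x (Sum.inr (Sum.inl i))) := red_sum _
    have hA' : red (fun i => n (Sum.inl i)) = 0 → red (fun i => x (Sum.inl (Sum.inr i))) = 0 →
        1 ≤ red (fun i => n (Sum.inr (Sum.inl i))) →
        red (fun i => x (Sum.inr (Sum.inr i))) ≤ 1 := hA
    have hB2' : red (fun i => x (Sum.inl (Sum.inl i))) = 3 → red (fun i => n (Sum.inl i)) = 0 ∧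
        1 ≤ red (fun i => x (Sum.inr (Sum.inl i))) + red (fun i => n (Sum.inr (Sum.inl i))) := hB2
    refine ⟨hB, fun h3 => ?_⟩
    obtain ⟨b1, b2⟩ := hB2' h3
    exact ⟨by omega, fun h0 => hA' b1 h0 (by omega)⟩
  -- the node 3: `Q3` and `Q4` have at least three red edges
  have k3 : Fo K ((F ⊕ Fin c) ⊕ (Fin c ⊕ Fin (c + s))) (fun x =>
      (fun i => x (Sum.inl (Sum.inl i))) ∉ T ∧ (red (fun i => x (Sum.inl (Sum.inl i))) = 3 →
        red (fun i => x (Sum.inr (Sum.inl i))) = 0 ∧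
        2 ≤ red (fun i => x (Sum.inl (Sum.inr i))) + red (fun i => x (Sum.inr (Sum.inr i))))) := by
    refine (Fo.num (K := K) (N := Fin c ⊕ Fin (c + s))
      (J1 := Fin c ⊕ Fin (c + s)) (J2 := F ⊕ Fin c)
      (by rw [Nat.card_sum, cC, cQ]; omega) (by rw [Nat.card_sum, cC, hF]; omega)
      (by rw [Nat.card_sum, cC, cQ]; omega)
      (eX F (Fin c) (Fin c) (Fin (c + s)))
      (Fo.info (Fo.triv K _)) k4).mono ?_
    rintro x ⟨n, -, ⟨-, g2⟩, hA, hB, hB2⟩
    have r2 : red (fun j => x ((eX F (Fin c) (Fin c) (Fin (c + s))).symm (Sum.inr j))) =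
        red (fun i => x (Sum.inl (Sum.inl i))) + red (fun i => x (Sum.inr (Sum.inl i))) := red_sum _
    have r3 : red (Sum.elim (fun j => x ((eX F (Fin c) (Fin c) (Fin (c + s))).symm (Sum.inl j))) n) =
        (red (fun i => x (Sum.inl (Sum.inr i))) + red (fun i => x (Sum.inr (Sum.inr i)))) +
        (red (fun i => n (Sum.inl i)) + red (fun i => n (Sum.inr i))) :=
      (red_sum _).trans (congrArg₂ (· + ·) (red_sum _) (red_sum _))
    have hA1 := hA.1.1
    have hB2' : red (fun i => x (Sum.inl (Sum.inl i))) = 3 → red (fun i => n (Sum.inl i)) = 0 ∧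
        (red (fun i => x (Sum.inr (Sum.inl i))) = 0 → red (fun i => n (Sum.inr i)) ≤ 1) := hB2
    refine ⟨hB, fun h3 => ?_⟩
    obtain ⟨b1, b2⟩ := hB2' h3
    have b3 := b2 (by omega)
    omega
  -- the node 2: `S` has no red edge
  have k2 : Fo K ((F ⊕ Fin c) ⊕ (Fin c ⊕ (Fin s ⊕ (Fin s ⊕ Fin (c - s))))) (fun x =>
      (fun i => x (Sum.inl (Sum.inl i))) ∉ T ∧ (red (fun i => x (Sum.inl (Sum.inl i))) = 3 →
        red (fun i => x (Sum.inr (Sum.inl i))) = 0 ∧
        (red (fun i => x (Sum.inl (Sum.inr i))) = 0 →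
          red (fun i => x (Sum.inr (Sum.inr (Sum.inl i)))) = 0))) := by
    refine (Fo.num (K := K) (N := Fin c ⊕ Fin (c + s))
      (J1 := Fin c ⊕ (Fin s ⊕ (Fin s ⊕ Fin (c - s)))) (J2 := F ⊕ Fin c)
      (by rw [Nat.card_sum, cC, cS]; omega) (by rw [Nat.card_sum, cC, hF]; omega)
      (by rw [Nat.card_sum, cC, cQ]; omega)
      (eX F (Fin c) (Fin c) (Fin s ⊕ (Fin s ⊕ Fin (c - s))))
      (wB hK hc) k3).mono ?_
    rintro x ⟨n, -, ⟨-, g2⟩, hA, hB, hB2⟩
    have r2 : red (fun j => x ((eX F (Fin c) (Fin c) (Fin s ⊕ (Fin s ⊕ Fin (c - s)))).symm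
        (Sum.inr j))) =
        red (fun i => x (Sum.inl (Sum.inl i))) + red (fun i => x (Sum.inr (Sum.inl i))) := red_sum _
    have hA' : red (fun i => x (Sum.inl (Sum.inr i))) = 0 → red (fun i => n (Sum.inl i)) = 0 →
        1 ≤ red (fun i => x (Sum.inr (Sum.inr (Sum.inl i)))) →
        red (fun i => n (Sum.inr i)) ≤ 1 := hA
    have hB2' : red (fun i => x (Sum.inl (Sum.inl i))) = 3 → red (fun i => n (Sum.inl i)) = 0 ∧
        2 ≤ red (fun i => x (Sum.inr (Sum.inl i))) + red (fun i => n (Sum.inr i)) := hB2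
    refine ⟨hB, fun h3 => ?_⟩
    obtain ⟨b1, b2⟩ := hB2' h3
    refine ⟨by omega, fun h0 => ?_⟩
    by_contra hne
    have b3 := hA' h0 b1 (by omega)
    omega
  -- the node 1: tests `S`
  have k1 : Fo K ((F ⊕ Fin c) ⊕ (Fin c ⊕ Fin (c + s))) (fun x =>
      (fun i => x (Sum.inl (Sum.inl i))) ∉ T ∧ (red (fun i => x (Sum.inl (Sum.inl i))) = 3 →
        1 ≤ red (fun i => x (Sum.inl (Sum.inr i))))) := by
    refine (Fo.num (K := K) (N := Fin c ⊕ (Fin s ⊕ (Fin s ⊕ Fin (c - s))))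
      (J1 := Fin c ⊕ Fin (c + s)) (J2 := F ⊕ Fin c)
      (by rw [Nat.card_sum, cC, cQ]; omega) (by rw [Nat.card_sum, cC, hF]; omega)
      (by rw [Nat.card_sum, cC, cS]; omega)
      (eX F (Fin c) (Fin c) (Fin (c + s)))
      ((tst (C := Fin c) (C' := Fin c) (Z := Fin s) (Y := Fin s ⊕ Fin (c - s))
        (Q := Fin (c + s)) (by rw [cC, Nat.card_fin]; omega)
        (by rw [cS', cQ]; omega)).transport
          (Equiv.sumComm _ _)) k2).mono ?_
    rintro x ⟨n, -, ⟨-, g2⟩, hA, hB, hB2⟩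
    have r2 : red (fun j => x ((eX F (Fin c) (Fin c) (Fin (c + s))).symm (Sum.inr j))) =
        red (fun i => x (Sum.inl (Sum.inl i))) + red (fun i => x (Sum.inr (Sum.inl i))) := red_sum _
    have hA' : 1 ≤ red (fun i => n (Sum.inl i)) + red (fun i => x (Sum.inl (Sum.inr i))) +
        red (fun i => n (Sum.inr (Sum.inl i))) := hA
    have hB2' : red (fun i => x (Sum.inl (Sum.inl i))) = 3 → red (fun i => n (Sum.inl i)) = 0 ∧
        (red (fun i => x (Sum.inr (Sum.inl i))) = 0 →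
          red (fun i => n (Sum.inr (Sum.inl i))) = 0) := hB2
    refine ⟨hB, fun h3 => ?_⟩
    obtain ⟨b1, b2⟩ := hB2' h3
    have b3 := b2 (by omega)
    omega
  -- the root
  have k0 : Fo K ((F ⊕ Fin c) ⊕ Fin K) (fun x =>
      (fun i => x (Sum.inl (Sum.inl i))) ∉ T ∧ red (fun i => x (Sum.inl (Sum.inl i))) ≠ 3) := by
    refine (Fo.num (K := K) (N := Fin c ⊕ Fin (c + s)) (J1 := Fin K) (J2 := F ⊕ Fin c)
      (Nat.card_fin K) (by rw [Nat.card_sum, cC, hF]; omega)
      (by rw [Nat.card_sum, cC, cQ]; omega)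
      (Equiv.sumComm (F ⊕ Fin c) (Fin K)) (Fo.triv K _) k1).mono ?_
    rintro x ⟨n, -, ⟨-, g2⟩, -, hB, hB2⟩
    have r2 : red (fun j => x ((Equiv.sumComm (F ⊕ Fin c) (Fin K)).symm (Sum.inr j))) =
        red (fun i => x (Sum.inl (Sum.inl i))) + red (fun i => x (Sum.inl (Sum.inr i))) := red_sum _
    have hB2' : red (fun i => x (Sum.inl (Sum.inl i))) = 3 →
        1 ≤ red (fun i => x (Sum.inl (Sum.inr i))) := hB2
    refine ⟨hB, fun h3 => ?_⟩
    have := hB2' h3
    omega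
  have h2 : Kill K 3 5 (F ⊕ (Fin c ⊕ Fin K))
      {x | (fun f => x (Sum.inl f)) ∈ {y : F → Bool | y ∈ T ∨ red y = 3}} := by
    refine Kill.mono (Fo.transport k0 (Equiv.sumAssoc F (Fin c) (Fin K))) fun x hx => ?_
    intro hc
    rcases hx with hx | hx
    · exact hc.1 hx
    · exact hc.2 hx
  refine kill_rest ?_ h2
  rw [Nat.card_sum, Nat.card_fin, Nat.card_fin]
  omega

/-! ### the end -/

/-- Downwards from a level where three red edges are refuted. -/
theorem down {K m : ℕ} (hm : m ≤ K) (h : W K 3 5 m 3) : ∀ L, L ≤ m → W K 3 5 L 3 := by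
  intro L hL
  refine W_R2 (i := m - L) (j := 0) (by omega) (by omega) (by omega) fun a b ha hb => ?_
  have e : L + (m - L) = m := by omega
  left
  rw [e]
  rcases Nat.eq_zero_or_pos a with h1 | h1
  · rw [h1]; exact h
  · exact base4 hm (by omega)

theorem w00 {K : ℕ} (hK : K = 20 ∨ K = 22 ∨ 24 ≤ K) : W K 3 5 0 0 := by
  -- a level `m` with `2 + (K + 1) / 2 ≤ m`
  obtain ⟨m, hm1, hm2, hm⟩ : ∃ m, 2 + (K + 1) / 2 ≤ m ∧ m ≤ K ∧ W K 3 5 m 3 := by
    rcases Nat.even_or_odd' K with ⟨r, hr | hr⟩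
    · exact ⟨r - 2 + 4, by omega, by omega, main (K := K) (c := r - 2) (s := 4) (by omega) (by omega)⟩
    · exact ⟨r - 2 + 5, by omega, by omega, main (K := K) (c := r - 2) (s := 5) (by omega) (by omega)⟩
  have hd := down hm2 hm
  have h22 : W K 3 5 2 2 := by
    refine W_R2 (i := (K + 1) / 2) (j := K / 2) (by omega) (by omega) (by omega)
      fun a b ha hb => ?_
    rcases Nat.eq_zero_or_pos a with h1 | h1
    · rcases Nat.eq_zero_or_pos b with h2 | h2
      · subst h1; subst h2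
        right; right
        have e : (K + 1) / 2 + K / 2 = K := by omega
        rw [e]
        exact baseK K
      · right; left
        rcases Nat.eq_or_lt_of_le h2 with h3 | h3
        · rw [← h3]; exact hd _ (by omega)
        · exact base4 (by omega) (by omega)
    · left
      rcases Nat.eq_or_lt_of_le h1 with h3 | h3
      · rw [← h3]; exact hd _ (by omega)
      · exact base4 (by omega) (by omega)
  have hend : ∀ n L, K - L ≤ n → L ≤ K → W K 3 5 L 0 := by
    intro n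
    induction n with
    | zero =>
      intro L h1 h2
      have e : L = K := by omega
      rw [e]
      exact baseK K
    | succ n ih =>
      intro L h1 h2
      rcases Nat.eq_or_lt_of_le h2 with h | h
      · rw [h]; exact baseK K
      · refine W_R2 (i := 1) (j := 1) (by omega) (by omega) (by omega) fun a b ha hb => ?_
        have h3 := ih (L + 1) (by omega) (by omega)
        rcases Nat.eq_zero_or_pos a with ha0 | ha0
        · subst ha0; exact Or.inl h3
        · rcases Nat.eq_zero_or_pos b with hb0 | hb0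
          · subst hb0; exact Or.inr (Or.inl h3)
          · have ha1 : a = 1 := by omega
            have hb1 : b = 1 := by omega
            subst ha1; subst hb1
            exact Or.inr (Or.inr h22)
  exact hend K 0 (by omega) (Nat.zero_le _)

end Pool.Agent.Lib.MP_21a058_co.Slack3.M99
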