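import Pool.Agent.Lib.MP_21a058_co.Slack3.Rule

/-! The main lemma for slack two, general windows: an alive set of `K - t` edges does not have
`p` red edges if `2 p + u < 2 l`. -/

set_option autoImplicit false

namespace Pool.Agent.Lib.MP_21a058_co.Slack3.MC

open Pool.Agent.Lib.MP_21a058_co.Odd (red red_sum red_equiv red_le)

/-- Some structure over `I` forces `A` on every good colouring. -/
def Fo (K l u : ℕ) (I : Type) (A : (I → Bool) → Prop) : Prop := Kill K l u I {x | ¬ A x}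

theorem Fo.mono {K l u : ℕ} {I : Type} {A B : (I → Bool) → Prop} (h : Fo K l u I A)
    (hAB : ∀ x, A x → B x) : Fo K l u I B :=
  Kill.mono h fun _ hx hA => hx (hAB _ hA)

theorem Fo.transport {K l u : ℕ} {I J : Type} {A : (I → Bool) → Prop} (h : Fo K l u I A)
    (e : I ≃ J) : Fo K l u J (fun y => A (fun i => y (e i))) :=
  Kill.transport h e

theorem Fo.leaf (K l u : ℕ) (I : Type) : Fo K l u I (fun x => l ≤ red x ∧ red x ≤ u) :=
  Kill.leaf I _ fun x hx => by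
    have hx' : ¬ (l ≤ red x ∧ red x ≤ u) := hx
    omega

theorem Fo.info {K l u : ℕ} {I : Type} {A : (I → Bool) → Prop} (h : Fo K l u I A) :
    Fo K l u I (fun x => (l ≤ red x ∧ red x ≤ u) ∧ A x) := by
  refine Kill.mono (Kill.addBase h) fun x hx => ?_
  have hx' : ¬ ((l ≤ red x ∧ red x ≤ u) ∧ A x) := hx
  show ¬ A x ∨ (red x < l ∨ u < red x)
  by_cases hA : A x
  · right
    by_contra hc
    exact hx' ⟨by omega, hA⟩
  · exact Or.inl hA

/-- The node rule in numbers. -/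
theorem Fo.num {K l u : ℕ} {I J1 J2 N : Type} [Finite I] [Finite J1] [Finite J2] [Finite N]
    (h1 : Nat.card J1 = K)
    (h2 : Nat.card J2 = K) (h3 : Nat.card N = K) (e : I ≃ J1 ⊕ J2)
    {A : (J1 ⊕ N → Bool) → Prop} {B : (J2 ⊕ N → Bool) → Prop}
    (hA : Fo K l u (J1 ⊕ N) A) (hB : Fo K l u (J2 ⊕ N) B) :
    Fo K l u I (fun x => ∃ n : N → Bool,
      (l ≤ red (fun j => x (e.symm (Sum.inl j))) + red (fun j => x (e.symm (Sum.inr j))) ∧
        red (fun j => x (e.symm (Sum.inl j))) + red (fun j => x (e.symm (Sum.inr j))) ≤ u) ∧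
      (l ≤ red (fun j => x (e.symm (Sum.inl j))) + red n ∧
        red (fun j => x (e.symm (Sum.inl j))) + red n ≤ u) ∧
      (l ≤ red (fun j => x (e.symm (Sum.inr j))) + red n ∧
        red (fun j => x (e.symm (Sum.inr j))) + red n ≤ u) ∧
      A (Sum.elim (fun j => x (e.symm (Sum.inl j))) n) ∧
      B (Sum.elim (fun j => x (e.symm (Sum.inr j))) n)) := by
  obtain ⟨eN⟩ : Nonempty (N ≃ Fin K) := ⟨Finite.equivFinOfCardEq h3⟩
  have kA := hA.info.transport (Equiv.sumCongr (Equiv.refl J1) eN)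
  have kB := hB.info.transport (Equiv.sumCongr (Equiv.refl J2) eN)
  refine Kill.node I J1 J2 h1 h2 e _ _ _ kA kB fun x hx => ?_
  have r0 : red x = red (fun j => x (e.symm (Sum.inl j))) +
      red (fun j => x (e.symm (Sum.inr j))) :=
    (red_equiv e.symm x).symm.trans (red_sum _)
  by_cases hg : red x < l ∨ u < red x
  · exact Or.inl hg
  · right
    intro n
    by_contra hcon
    obtain ⟨c1, c2⟩ := not_or.1 hcon
    have c1' := Classical.not_not.1 c1
    have c2' := Classical.not_not.1 c2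
    have t1 : (fun i => (Sum.elim (fun j => x (e.symm (Sum.inl j))) n : J1 ⊕ Fin K → Bool)
        ((Equiv.sumCongr (Equiv.refl J1) eN) i)) =
        Sum.elim (fun j => x (e.symm (Sum.inl j))) fun i => n (eN i) := by
      funext i
      rcases i with i | i <;> rfl
    have t2 : (fun i => (Sum.elim (fun j => x (e.symm (Sum.inr j))) n : J2 ⊕ Fin K → Bool)
        ((Equiv.sumCongr (Equiv.refl J2) eN) i)) =
        Sum.elim (fun j => x (e.symm (Sum.inr j))) fun i => n (eN i) := by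
      funext i
      rcases i with i | i <;> rfl
    beta_reduce at c1' c2'
    rw [t1] at c1'
    rw [t2] at c2'
    have r1 : red (Sum.elim (fun j => x (e.symm (Sum.inl j))) (fun i => n (eN i))) =
        red (fun j => x (e.symm (Sum.inl j))) + red (fun i => n (eN i)) := red_sum _
    have r2 : red (Sum.elim (fun j => x (e.symm (Sum.inr j))) (fun i => n (eN i))) =
        red (fun j => x (e.symm (Sum.inr j))) + red (fun i => n (eN i)) := red_sum _
    refine hx ⟨fun i => n (eN i), ?_, ?_, ?_, c1'.2, c2'.2⟩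
    · omega
    · have := c1'.1
      omega
    · have := c2'.1
      omega

/-- Three red edges are refuted in an alive set. -/
theorem Fo.test {K l u L : ℕ} (hw : ∀ p, 3 ≤ p → W K l u L p) (F R : Type) [Finite F]
    [Finite R] (hF : Nat.card F = L) (hR : Nat.card F + Nat.card R = 2 * K) :
    Fo K l u (F ⊕ R) (fun x => red (fun f => x (Sum.inl f)) ≤ 2) := by
  have h1 := W_seq' (K := K) (l := l) (u := u) (L := L) F R hF hR ∅
    ((Kill.empty K l u _).mono (by intro x hx; exact absurd hx (Set.notMem_empty _)))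
  refine Kill.mono h1 fun x hx => ?_
  have hx' : ¬ red (fun f => x (Sum.inl f)) ≤ 2 := hx
  exact Or.inr (hw _ (by omega))

/-- An alive set is not all blue. -/
theorem Fo.pos {K l u L : ℕ} (hw : W K l u L 0) (F R : Type) [Finite F]
    [Finite R] (hF : Nat.card F = L) (hR : Nat.card F + Nat.card R = 2 * K) :
    Fo K l u (F ⊕ R) (fun x => 1 ≤ red (fun f => x (Sum.inl f))) := by
  have h1 := hw F R hF hR ∅
    ((Kill.empty K l u _).mono (by intro x hx; exact absurd hx (Set.notMem_empty _)))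
  refine Kill.mono h1 fun x hx => ?_
  have hx' : ¬ 1 ≤ red (fun f => x (Sum.inl f)) := hx
  refine Or.inr ?_
  show red (fun f => x (Sum.inl f)) = 0
  omega

section

variable (M T T' Q G G' H A B N0 N1 N2 : Type)

/-- main bundles -/
def eM : (M ⊕ T) ⊕ (Q ⊕ T') ≃ (T ⊕ Q) ⊕ (M ⊕ T') where
  toFun p := match p with
    | Sum.inl (Sum.inl m) => Sum.inr (Sum.inl m)
    | Sum.inl (Sum.inr c) => Sum.inl (Sum.inl c)
    | Sum.inr (Sum.inl q) => Sum.inl (Sum.inr q)
    | Sum.inr (Sum.inr c) => Sum.inr (Sum.inr c)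
  invFun p := match p with
    | Sum.inr (Sum.inl m) => Sum.inl (Sum.inl m)
    | Sum.inl (Sum.inl c) => Sum.inl (Sum.inr c)
    | Sum.inl (Sum.inr q) => Sum.inr (Sum.inl q)
    | Sum.inr (Sum.inr c) => Sum.inr (Sum.inr c)
  left_inv := by rintro ((m | c) | (q | c)) <;> rfl
  right_inv := by rintro ((c | q) | (m | c)) <;> rfl

/-- the root -/
def e0 : M ⊕ (T ⊕ Q) ≃ Q ⊕ (M ⊕ T) where
  toFun p := match p with
    | Sum.inl m => Sum.inr (Sum.inl m)
    | Sum.inr (Sum.inl c) => Sum.inr (Sum.inr c)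
    | Sum.inr (Sum.inr q) => Sum.inl q
  invFun p := match p with
    | Sum.inr (Sum.inl m) => Sum.inl m
    | Sum.inr (Sum.inr c) => Sum.inr (Sum.inl c)
    | Sum.inl q => Sum.inr (Sum.inr q)
  left_inv := by rintro (m | (c | q)) <;> rfl
  right_inv := by rintro (q | (m | c)) <;> rfl

/-- the test at `u_0` -/
def e2 : ((T ⊕ G) ⊕ T') ⊕ (Q ⊕ H) ≃ (T ⊕ Q) ⊕ ((G ⊕ H) ⊕ T') where
  toFun p := match p with
    | Sum.inl (Sum.inl (Sum.inl c)) => Sum.inl (Sum.inl c)
    | Sum.inl (Sum.inl (Sum.inr y)) => Sum.inr (Sum.inl (Sum.inl y))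
    | Sum.inl (Sum.inr c) => Sum.inr (Sum.inr c)
    | Sum.inr (Sum.inl q) => Sum.inl (Sum.inr q)
    | Sum.inr (Sum.inr z) => Sum.inr (Sum.inl (Sum.inr z))
  invFun p := match p with
    | Sum.inl (Sum.inl c) => Sum.inl (Sum.inl (Sum.inl c))
    | Sum.inr (Sum.inl (Sum.inl y)) => Sum.inl (Sum.inl (Sum.inr y))
    | Sum.inr (Sum.inr c) => Sum.inl (Sum.inr c)
    | Sum.inl (Sum.inr q) => Sum.inr (Sum.inl q)
    | Sum.inr (Sum.inl (Sum.inr z)) => Sum.inr (Sum.inr z)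
  left_inv := by rintro (((c | y) | c) | (q | z)) <;> rfl
  right_inv := by rintro ((c | q) | ((y | z) | c)) <;> rfl

/-- the test at `u_2` -/
def e4 : ((T ⊕ G) ⊕ T') ⊕ (H ⊕ Q) ≃ (T ⊕ (G ⊕ H)) ⊕ (Q ⊕ T') where
  toFun p := match p with
    | Sum.inl (Sum.inl (Sum.inl c)) => Sum.inl (Sum.inl c)
    | Sum.inl (Sum.inl (Sum.inr x)) => Sum.inl (Sum.inr (Sum.inl x))
    | Sum.inl (Sum.inr c) => Sum.inr (Sum.inr c)
    | Sum.inr (Sum.inl h) => Sum.inl (Sum.inr (Sum.inr h))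
    | Sum.inr (Sum.inr q) => Sum.inr (Sum.inl q)
  invFun p := match p with
    | Sum.inl (Sum.inl c) => Sum.inl (Sum.inl (Sum.inl c))
    | Sum.inl (Sum.inr (Sum.inl x)) => Sum.inl (Sum.inl (Sum.inr x))
    | Sum.inr (Sum.inr c) => Sum.inl (Sum.inr c)
    | Sum.inl (Sum.inr (Sum.inr h)) => Sum.inr (Sum.inl h)
    | Sum.inr (Sum.inl q) => Sum.inr (Sum.inr q)
  left_inv := by rintro (((c | x) | c) | (h | q)) <;> rfl
  right_inv := by rintro ((c | (x | h)) | (q | c)) <;> rfl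

/-- the node at `u_1` -/
def e3 : (T ⊕ (G ⊕ H)) ⊕ ((G' ⊕ (A ⊕ B)) ⊕ T') ≃ ((T ⊕ T') ⊕ (H ⊕ A)) ⊕ (G ⊕ (G' ⊕ B)) where
  toFun p := match p with
    | Sum.inl (Sum.inl c) => Sum.inl (Sum.inl (Sum.inl c))
    | Sum.inl (Sum.inr (Sum.inl y)) => Sum.inr (Sum.inl y)
    | Sum.inl (Sum.inr (Sum.inr z)) => Sum.inl (Sum.inr (Sum.inl z))
    | Sum.inr (Sum.inl (Sum.inl p)) => Sum.inr (Sum.inr (Sum.inl p))
    | Sum.inr (Sum.inl (Sum.inr (Sum.inl x))) => Sum.inl (Sum.inr (Sum.inr x))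
    | Sum.inr (Sum.inl (Sum.inr (Sum.inr v))) => Sum.inr (Sum.inr (Sum.inr v))
    | Sum.inr (Sum.inr c) => Sum.inl (Sum.inl (Sum.inr c))
  invFun p := match p with
    | Sum.inl (Sum.inl (Sum.inl c)) => Sum.inl (Sum.inl c)
    | Sum.inr (Sum.inl y) => Sum.inl (Sum.inr (Sum.inl y))
    | Sum.inl (Sum.inr (Sum.inl z)) => Sum.inl (Sum.inr (Sum.inr z))
    | Sum.inr (Sum.inr (Sum.inl p)) => Sum.inr (Sum.inl (Sum.inl p))
    | Sum.inl (Sum.inr (Sum.inr x)) => Sum.inr (Sum.inl (Sum.inr (Sum.inl x)))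
    | Sum.inr (Sum.inr (Sum.inr v)) => Sum.inr (Sum.inl (Sum.inr (Sum.inr v)))
    | Sum.inl (Sum.inl (Sum.inr c)) => Sum.inr (Sum.inr c)
  left_inv := by rintro ((c | (y | z)) | ((p | (x | v)) | c)) <;> rfl
  right_inv := by rintro (((c | c) | (z | x)) | (y | (p | v))) <;> rfl

/-- the test at `v_1` -/
def eV1 : ((T ⊕ T') ⊕ (N0 ⊕ N1)) ⊕ ((H ⊕ A) ⊕ N2) ≃ ((T ⊕ T') ⊕ (H ⊕ A)) ⊕ ((N0 ⊕ N1) ⊕ N2) where
  toFun p := match p with
    | Sum.inl (Sum.inl c) => Sum.inl (Sum.inl c)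
    | Sum.inl (Sum.inr n) => Sum.inr (Sum.inl n)
    | Sum.inr (Sum.inl h) => Sum.inl (Sum.inr h)
    | Sum.inr (Sum.inr n) => Sum.inr (Sum.inr n)
  invFun p := match p with
    | Sum.inl (Sum.inl c) => Sum.inl (Sum.inl c)
    | Sum.inr (Sum.inl n) => Sum.inl (Sum.inr n)
    | Sum.inl (Sum.inr h) => Sum.inr (Sum.inl h)
    | Sum.inr (Sum.inr n) => Sum.inr (Sum.inr n)
  left_inv := by rintro ((c | n) | (h | n)) <;> rfl
  right_inv := by rintro ((c | h) | (n | n)) <;> rfl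

/-- the test at `v_2` -/
def eV2 : ((G ⊕ G') ⊕ N0) ⊕ (B ⊕ (N1 ⊕ N2)) ≃ (G ⊕ (G' ⊕ B)) ⊕ ((N0 ⊕ N1) ⊕ N2) where
  toFun p := match p with
    | Sum.inl (Sum.inl (Sum.inl g)) => Sum.inl (Sum.inl g)
    | Sum.inl (Sum.inl (Sum.inr g)) => Sum.inl (Sum.inr (Sum.inl g))
    | Sum.inl (Sum.inr n) => Sum.inr (Sum.inl (Sum.inl n))
    | Sum.inr (Sum.inl b) => Sum.inl (Sum.inr (Sum.inr b))
    | Sum.inr (Sum.inr (Sum.inl n)) => Sum.inr (Sum.inl (Sum.inr n))
    | Sum.inr (Sum.inr (Sum.inr n)) => Sum.inr (Sum.inr n)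
  invFun p := match p with
    | Sum.inl (Sum.inl g) => Sum.inl (Sum.inl (Sum.inl g))
    | Sum.inl (Sum.inr (Sum.inl g)) => Sum.inl (Sum.inl (Sum.inr g))
    | Sum.inr (Sum.inl (Sum.inl n)) => Sum.inl (Sum.inr n)
    | Sum.inl (Sum.inr (Sum.inr b)) => Sum.inr (Sum.inl b)
    | Sum.inr (Sum.inl (Sum.inr n)) => Sum.inr (Sum.inr (Sum.inl n))
    | Sum.inr (Sum.inr n) => Sum.inr (Sum.inr (Sum.inr n))
  left_inv := by rintro (((g | g) | n) | (b | (n | n))) <;> rfl
  right_inv := by rintro ((g | (g | b)) | ((n | n) | n)) <;> rfl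

end

/-- The structure at `u_1`: not all of `G`, `G'` blue and `T`, `T'` red. -/
theorem third {K l u q r : ℕ} {T T' G G' H A B N0 N1 N2 : Type} [Finite T] [Finite T'] [Finite G]
    [Finite G'] [Finite H] [Finite A] [Finite B] [Finite N0] [Finite N1] [Finite N2]
    (h2 : ∀ p', 3 ≤ p' → W K l u q p') (h0 : W K l u r 0)
    (a1 : Nat.card T + Nat.card T' + (Nat.card H + Nat.card A) = K)
    (a2 : Nat.card G + (Nat.card G' + Nat.card B) = K)
    (a3 : Nat.card N0 + Nat.card N1 + Nat.card N2 = K)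
    (a4 : Nat.card T + Nat.card T' + (Nat.card N0 + Nat.card N1) = q)
    (a5 : Nat.card G + Nat.card G' + Nat.card N0 = r) :
    Fo K l u ((T ⊕ (G ⊕ H)) ⊕ ((G' ⊕ (A ⊕ B)) ⊕ T')) (fun x =>
      ¬ (1 ≤ red (fun i => x (Sum.inl (Sum.inl i))) ∧ 1 ≤ red (fun i => x (Sum.inr (Sum.inr i))) ∧
        red (fun i => x (Sum.inl (Sum.inr (Sum.inl i)))) = 0 ∧
        red (fun i => x (Sum.inr (Sum.inl (Sum.inl i)))) = 0)) := by
  have c1 : Nat.card ((T ⊕ T') ⊕ (H ⊕ A)) = K := by simp only [Nat.card_sum]; omega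
  have c2 : Nat.card (G ⊕ (G' ⊕ B)) = K := by simp only [Nat.card_sum]; omega
  have c3 : Nat.card ((N0 ⊕ N1) ⊕ N2) = K := by simp only [Nat.card_sum]; omega
  have g1 : Fo K l u (((T ⊕ T') ⊕ (H ⊕ A)) ⊕ ((N0 ⊕ N1) ⊕ N2)) (fun x =>
      red (fun i => x (Sum.inl (Sum.inl (Sum.inl i)))) +
        red (fun i => x (Sum.inl (Sum.inl (Sum.inr i)))) +
        (red (fun i => x (Sum.inr (Sum.inl (Sum.inl i)))) +
        red (fun i => x (Sum.inr (Sum.inl (Sum.inr i))))) ≤ 2) := by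
    refine ((Fo.test h2 ((T ⊕ T') ⊕ (N0 ⊕ N1)) ((H ⊕ A) ⊕ N2) (by simp only [Nat.card_sum]; omega)
      (by simp only [Nat.card_sum]; omega)).transport (eV1 T T' H A N0 N1 N2)).mono fun x hx => ?_
    have r : red (fun f : (T ⊕ T') ⊕ (N0 ⊕ N1) => x (eV1 T T' H A N0 N1 N2 (Sum.inl f))) =
        (red (fun i => x (Sum.inl (Sum.inl (Sum.inl i)))) +
        red (fun i => x (Sum.inl (Sum.inl (Sum.inr i))))) +
        (red (fun i => x (Sum.inr (Sum.inl (Sum.inl i)))) +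
        red (fun i => x (Sum.inr (Sum.inl (Sum.inr i))))) :=
      (red_sum _).trans (congrArg₂ (· + ·) (red_sum _) (red_sum _))
    have hx' : red (fun f : (T ⊕ T') ⊕ (N0 ⊕ N1) => x (eV1 T T' H A N0 N1 N2 (Sum.inl f))) ≤ 2 := hx
    omega
  have g2 : Fo K l u ((G ⊕ (G' ⊕ B)) ⊕ ((N0 ⊕ N1) ⊕ N2)) (fun x =>
      1 ≤ red (fun i => x (Sum.inl (Sum.inl i))) +
        red (fun i => x (Sum.inl (Sum.inr (Sum.inl i)))) +
        red (fun i => x (Sum.inr (Sum.inl (Sum.inl i))))) := by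
    refine ((Fo.pos h0 ((G ⊕ G') ⊕ N0) (B ⊕ (N1 ⊕ N2)) (by simp only [Nat.card_sum]; omega)
      (by simp only [Nat.card_sum]; omega)).transport (eV2 G G' B N0 N1 N2)).mono fun x hx => ?_
    have r : red (fun f : (G ⊕ G') ⊕ N0 => x (eV2 G G' B N0 N1 N2 (Sum.inl f))) =
        (red (fun i => x (Sum.inl (Sum.inl i))) +
        red (fun i => x (Sum.inl (Sum.inr (Sum.inl i))))) +
        red (fun i => x (Sum.inr (Sum.inl (Sum.inl i)))) :=
      (red_sum _).trans (congrArg (· + _) (red_sum _))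
    have hx' : 1 ≤ red (fun f : (G ⊕ G') ⊕ N0 => x (eV2 G G' B N0 N1 N2 (Sum.inl f))) := hx
    omega
  refine (Fo.num c1 c2 c3 (e3 T T' G G' H A B) g1 g2).mono ?_
  rintro x ⟨n, -, -, -, hA, hB⟩
  have hA' : red (fun i => x (Sum.inl (Sum.inl i))) +
        red (fun i => x (Sum.inr (Sum.inr i))) +
        (red (fun i => n (Sum.inl (Sum.inl i))) +
        red (fun i => n (Sum.inl (Sum.inr i)))) ≤ 2 := hA
  have hB' : 1 ≤ red (fun i => x (Sum.inl (Sum.inr (Sum.inl i)))) +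
        red (fun i => x (Sum.inr (Sum.inl (Sum.inl i)))) +
        red (fun i => n (Sum.inl (Sum.inl i))) := hB
  rintro ⟨q1, q2, q3, q4⟩
  omega

/-- **The main lemma**: an alive set of `K - t` edges does not have `p` red edges. -/
theorem main_c {K l u t g s p : ℕ} (ht : t ≤ g) (hs : s ≤ g) (hg : 2 * g ≤ K)
    (hp : 2 * p + u < 2 * l) (h2 : ∀ p', 3 ≤ p' → W K l u (2 * t + g) p')
    (h0 : W K l u (2 * g + s) 0) : W K l u (K - t) p := by
  intro M R _ _ hM hR F hT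
  set T := Fin t with hTd
  set Q := Fin (K - t) with hQ
  set S := Fin K with hS
  set G := Fin g with hG
  set H := Fin (K - t - g) with hH
  set A := Fin (g - t) with hA
  set B := Fin (K - 2 * g) with hB
  set N0 := Fin s with hN0
  set N1 := Fin (g - s) with hN1
  set N2 := Fin (K - g) with hN2
  have kT : Nat.card T = t := Nat.card_fin _
  have kQ : Nat.card Q = K - t := Nat.card_fin _
  have kS : Nat.card S = K := Nat.card_fin _
  have kG : Nat.card G = g := Nat.card_fin _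
  have kH : Nat.card H = K - t - g := Nat.card_fin _
  have kA : Nat.card A = g - t := Nat.card_fin _
  have kB : Nat.card B = K - 2 * g := Nat.card_fin _
  have kN0 : Nat.card N0 = s := Nat.card_fin _
  have kN1 : Nat.card N1 = g - s := Nat.card_fin _
  have kN2 : Nat.card N2 = K - g := Nat.card_fin _
  have cTQ : Nat.card (T ⊕ Q) = K := by rw [Nat.card_sum]; omega
  have cQT : Nat.card (Q ⊕ T) = K := by rw [Nat.card_sum]; omega
  have cMT : Nat.card (M ⊕ T) = K := by rw [Nat.card_sum]; omega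
  have cTG : Nat.card (T ⊕ (G ⊕ H)) = K := by simp only [Nat.card_sum]; omega
  have cGT : Nat.card ((G ⊕ H) ⊕ T) = K := by simp only [Nat.card_sum]; omega
  have cTA : Nat.card (T ⊕ (G ⊕ (A ⊕ B))) = K := by simp only [Nat.card_sum]; omega
  have cAT : Nat.card ((G ⊕ (A ⊕ B)) ⊕ T) = K := by simp only [Nat.card_sum]; omega
  -- the last main bundle
  have f5 : Fo K l u ((M ⊕ T) ⊕ S) (fun x => (fun m => x (Sum.inl (Sum.inl m))) ∉ F) := by
    have h1 : Kill K l u (M ⊕ (T ⊕ S)) {x | (fun f => x (Sum.inl f)) ∈ F} :=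
      kill_rest (by rw [Nat.card_sum]; omega) hT
    refine Kill.mono (h1.transport (Equiv.sumAssoc M T S).symm) fun x hx => ?_
    exact Classical.not_not.1 hx
  -- the vertex `u_3`
  have f4 : Fo K l u ((M ⊕ T) ⊕ (Q ⊕ T)) (fun x => (fun m => x (Sum.inl (Sum.inl m))) ∉ F ∧
      (red (fun i => x (Sum.inl (Sum.inl i))) = p → 1 ≤ red (fun i => x (Sum.inr (Sum.inr i))))) := by
    refine (Fo.num cTQ cMT kS (eM M T T Q) (Fo.leaf K l u ((T ⊕ Q) ⊕ S)) f5).mono ?_
    rintro x ⟨n, g1, g2, g3, -, hB⟩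
    have r2 : red (fun j => x ((eM M T T Q).symm (Sum.inr j))) =
        red (fun i => x (Sum.inl (Sum.inl i))) + red (fun i => x (Sum.inr (Sum.inr i))) :=
      red_sum _
    exact ⟨hB, fun h => by omega⟩
  -- the vertex `u_2`
  have d4 : Fo K l u ((T ⊕ (G ⊕ (A ⊕ B))) ⊕ (Q ⊕ T)) (fun x =>
      red (fun i => x (Sum.inl (Sum.inl i))) +
        red (fun i => x (Sum.inl (Sum.inr (Sum.inl i)))) +
        red (fun i => x (Sum.inr (Sum.inr i))) ≤ 2) := by
    refine ((Fo.test h2 ((T ⊕ G) ⊕ T) ((A ⊕ B) ⊕ Q) (by simp only [Nat.card_sum]; omega)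
      (by simp only [Nat.card_sum]; omega)).transport (e4 T T Q G (A ⊕ B))).mono fun x hx => ?_
    have r : red (fun f : (T ⊕ G) ⊕ T => x (e4 T T Q G (A ⊕ B) (Sum.inl f))) =
        (red (fun i => x (Sum.inl (Sum.inl i))) +
        red (fun i => x (Sum.inl (Sum.inr (Sum.inl i))))) +
        red (fun i => x (Sum.inr (Sum.inr i))) :=
      (red_sum _).trans (congrArg (· + _) (red_sum _))
    have hx' : red (fun f : (T ⊕ G) ⊕ T => x (e4 T T Q G (A ⊕ B) (Sum.inl f))) ≤ 2 := hx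
    omega
  have f3 : Fo K l u ((M ⊕ T) ⊕ ((G ⊕ (A ⊕ B)) ⊕ T)) (fun x =>
      (fun m => x (Sum.inl (Sum.inl m))) ∉ F ∧
      (red (fun i => x (Sum.inl (Sum.inl i))) = p → 1 ≤ red (fun i => x (Sum.inr (Sum.inr i))) ∧
        red (fun i => x (Sum.inl (Sum.inr i))) +
        red (fun i => x (Sum.inr (Sum.inl (Sum.inl i)))) ≤ 1)) := by
    refine (Fo.num cTA cMT cQT (eM M T T (G ⊕ (A ⊕ B))) d4 f4).mono ?_
    rintro x ⟨n, g1, g2, g3, hA, hB1, hB2⟩
    have r2 : red (fun j => x ((eM M T T (G ⊕ (A ⊕ B))).symm (Sum.inr j))) =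
        red (fun i => x (Sum.inl (Sum.inl i))) + red (fun i => x (Sum.inr (Sum.inr i))) :=
      red_sum _
    have hA' : red (fun i => x (Sum.inl (Sum.inr i))) +
        red (fun i => x (Sum.inr (Sum.inl (Sum.inl i)))) +
        red (fun i => n (Sum.inr i)) ≤ 2 := hA
    have hB2' : red (fun i => x (Sum.inl (Sum.inl i))) = p → 1 ≤ red (fun i => n (Sum.inr i)) := hB2
    refine ⟨hB1, fun h => ?_⟩
    have := hB2' h
    omega
  -- the vertex `u_1`
  have d3 := third (K := K) (l := l) (u := u) (T := T) (T' := T) (G := G) (G' := G) (H := H)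
    (A := A) (B := B) (N0 := N0) (N1 := N1) (N2 := N2) h2 h0 (by omega) (by omega) (by omega)
    (by omega) (by omega)
  have f2 : Fo K l u ((M ⊕ T) ⊕ ((G ⊕ H) ⊕ T)) (fun x =>
      (fun m => x (Sum.inl (Sum.inl m))) ∉ F ∧
      (red (fun i => x (Sum.inl (Sum.inl i))) = p → 1 ≤ red (fun i => x (Sum.inr (Sum.inr i))) ∧
        (1 ≤ red (fun i => x (Sum.inl (Sum.inr i))) →
          1 ≤ red (fun i => x (Sum.inr (Sum.inl (Sum.inl i))))))) := by
    refine (Fo.num cTG cMT cAT (eM M T T (G ⊕ H)) d3 f3).mono ?_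
    rintro x ⟨n, g1, g2, g3, hA, hB1, hB2⟩
    have r2 : red (fun j => x ((eM M T T (G ⊕ H)).symm (Sum.inr j))) =
        red (fun i => x (Sum.inl (Sum.inl i))) + red (fun i => x (Sum.inr (Sum.inr i))) :=
      red_sum _
    have hA' : ¬ (1 ≤ red (fun i => x (Sum.inl (Sum.inr i))) ∧ 1 ≤ red (fun i => n (Sum.inr i)) ∧
        red (fun i => x (Sum.inr (Sum.inl (Sum.inl i)))) = 0 ∧
        red (fun i => n (Sum.inl (Sum.inl i))) = 0) := hA
    have hB2' : red (fun i => x (Sum.inl (Sum.inl i))) = p → 1 ≤ red (fun i => n (Sum.inr i)) ∧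
        red (fun i => x (Sum.inr (Sum.inr i))) +
        red (fun i => n (Sum.inl (Sum.inl i))) ≤ 1 := hB2
    refine ⟨hB1, fun h => ?_⟩
    have h5 := hB2' h
    have h6 : 1 ≤ red (fun i => x (Sum.inr (Sum.inr i))) := by omega
    refine ⟨h6, fun h7 => ?_⟩
    by_contra h8
    exact hA' ⟨h7, h5.1, by omega, by omega⟩
  -- the vertex `u_0`
  have d2 : Fo K l u ((T ⊕ Q) ⊕ ((G ⊕ H) ⊕ T)) (fun x =>
      red (fun i => x (Sum.inl (Sum.inl i))) +
        red (fun i => x (Sum.inr (Sum.inl (Sum.inl i)))) +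
        red (fun i => x (Sum.inr (Sum.inr i))) ≤ 2) := by
    refine ((Fo.test h2 ((T ⊕ G) ⊕ T) (Q ⊕ H) (by simp only [Nat.card_sum]; omega)
      (by simp only [Nat.card_sum]; omega)).transport (e2 T T Q G H)).mono fun x hx => ?_
    have r : red (fun f : (T ⊕ G) ⊕ T => x (e2 T T Q G H (Sum.inl f))) =
        (red (fun i => x (Sum.inl (Sum.inl i))) +
        red (fun i => x (Sum.inr (Sum.inl (Sum.inl i))))) +
        red (fun i => x (Sum.inr (Sum.inr i))) :=
      (red_sum _).trans (congrArg (· + _) (red_sum _))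
    have hx' : red (fun f : (T ⊕ G) ⊕ T => x (e2 T T Q G H (Sum.inl f))) ≤ 2 := hx
    omega
  have f1 : Fo K l u ((M ⊕ T) ⊕ (Q ⊕ T)) (fun x => (fun m => x (Sum.inl (Sum.inl m))) ∉ F ∧
      (red (fun i => x (Sum.inl (Sum.inl i))) = p → red (fun i => x (Sum.inl (Sum.inr i))) = 0)) := by
    refine (Fo.num cTQ cMT cGT (eM M T T Q) d2 f2).mono ?_
    rintro x ⟨n, g1, g2, g3, hA, hB1, hB2⟩
    have r2 : red (fun j => x ((eM M T T Q).symm (Sum.inr j))) =
        red (fun i => x (Sum.inl (Sum.inl i))) + red (fun i => x (Sum.inr (Sum.inr i))) :=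
      red_sum _
    have hA' : red (fun i => x (Sum.inl (Sum.inr i))) + red (fun i => n (Sum.inl (Sum.inl i))) +
        red (fun i => n (Sum.inr i)) ≤ 2 := hA
    have hB2' : red (fun i => x (Sum.inl (Sum.inl i))) = p → 1 ≤ red (fun i => n (Sum.inr i)) ∧
        (1 ≤ red (fun i => x (Sum.inr (Sum.inr i))) →
          1 ≤ red (fun i => n (Sum.inl (Sum.inl i)))) := hB2
    refine ⟨hB1, fun h => ?_⟩
    obtain ⟨h5, h6⟩ := hB2' h
    have h7 : 1 ≤ red (fun i => x (Sum.inr (Sum.inr i))) := by omega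
    have h8 := h6 h7
    omega
  -- the vertex `u_(-1)`
  have f0 : Fo K l u (M ⊕ (T ⊕ S)) (fun x => (fun m => x (Sum.inl m)) ∉ F ∧
      red (fun i => x (Sum.inl i)) ≠ p) := by
    refine (Fo.num kS cMT cQT (e0 M T S) (Fo.leaf K l u (S ⊕ (Q ⊕ T))) f1).mono ?_
    rintro x ⟨n, g1, g2, g3, -, hB1, hB2⟩
    have r2 : red (fun j => x ((e0 M T S).symm (Sum.inr j))) =
        red (fun i => x (Sum.inl i)) + red (fun i => x (Sum.inr (Sum.inl i))) :=
      red_sum _
    have hB2' : red (fun i => x (Sum.inl i)) = p → red (fun i => x (Sum.inr (Sum.inl i))) = 0 := hB2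
    refine ⟨hB1, fun h => ?_⟩
    have := hB2' h
    omega
  have hfin : Kill K l u (M ⊕ (T ⊕ S)) {x | (fun m => x (Sum.inl m)) ∈
      {y : M → Bool | y ∈ F ∨ red y = p}} := by
    refine Kill.mono f0 fun x hx => ?_
    rcases hx with hx | hx
    · exact fun h => h.1 hx
    · exact fun h => h.2 hx
  exact kill_rest (by rw [Nat.card_sum]; omega) hfin

end Pool.Agent.Lib.MP_21a058_co.Slack3.MC
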