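import Pool.Agent.Lib.MP_21a058_co.Slack3.Rule3

/-! Odd edge-connectivity `2 h + 1`, a general window `l ≤ red ≤ u`: `P` red edges among `m` edges
that stay alive are refutable if no set of `h` edges has more than `P` red edges, an alive set of
`2 (h - m) + t` edges is not all blue and `3 t` alive edges have at most two red ones. -/

set_option autoImplicit false

namespace Pool.Agent.Lib.MP_21a058_co.Slack3.MG3

open Pool.Agent.Lib.MP_21a058_co.Slack3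
open Pool.Agent.Lib.MP_21a058_co.Odd (red red_sum red_equiv red_le)

/-- Some structure over `I` forces `A` on every good colouring. -/
def Fo (h l u : ℕ) (I : Type) (A : (I → Bool) → Prop) : Prop := Kill3 h l u I {x | ¬ A x}

theorem Fo.mono {h l u : ℕ} {I : Type} {A B : (I → Bool) → Prop} (k : Fo h l u I A)
    (hAB : ∀ x, A x → B x) : Fo h l u I B :=
  Kill3.mono k fun _ hx hA => hx (hAB _ hA)

theorem Fo.transport {h l u : ℕ} {I J : Type} {A : (I → Bool) → Prop} (k : Fo h l u I A)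
    (e : I ≃ J) : Fo h l u J (fun y => A (fun i => y (e i))) :=
  Kill3.transport k e

theorem Fo.triv (h l u : ℕ) (I : Type) : Fo h l u I (fun _ => True) :=
  Kill3.mono (Kill3.empty h l u I) fun _ hx => (hx trivial).elim

theorem Fo.info {h l u : ℕ} {I : Type} {A : (I → Bool) → Prop} (k : Fo h l u I A) :
    Fo h l u I (fun x => (l ≤ red x ∧ red x ≤ u) ∧ A x) := by
  refine Kill3.mono (Kill3.addBase k) fun x hx => ?_
  by_cases hA : A x
  · right
    by_contra hcon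
    push Not at hcon
    exact hx ⟨⟨hcon.1, hcon.2⟩, hA⟩
  · exact Or.inl hA

/-- The node rule in numbers. -/
theorem Fo.num {h l u : ℕ} {I J1 J2 J3 N1 N2 N3 : Type} [Finite I] [Finite J1] [Finite J2]
    [Finite J3] [Finite N2] [Finite N3] {q : ℕ} (hq : 1 ≤ q) (hq' : q ≤ h)
    (c1 : Nat.card J1 = h) (c2 : Nat.card J2 = q) (c3 : Nat.card J3 = h + 1 - q)
    (d1 : Nat.card N1 = h) (d2 : Nat.card N2 = q) (d3 : Nat.card N3 = h + 1 - q)
    (e : I ≃ J1 ⊕ (J2 ⊕ J3))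
    {A1 : (J1 ⊕ (N2 ⊕ N3) → Bool) → Prop} {A2 : (J2 ⊕ (N1 ⊕ N3) → Bool) → Prop}
    {A3 : (J3 ⊕ (N1 ⊕ N2) → Bool) → Prop}
    (k1 : Fo h l u (J1 ⊕ (N2 ⊕ N3)) A1) (k2 : Fo h l u (J2 ⊕ (N1 ⊕ N3)) A2)
    (k3 : Fo h l u (J3 ⊕ (N1 ⊕ N2)) A3) :
    Fo h l u I (fun x => ∃ (n1 : N1 → Bool) (n2 : N2 → Bool) (n3 : N3 → Bool),
      2 * red (fun j => x (e.symm (Sum.inl j))) + l ≤ 2 * u ∧
      A1 (Sum.elim (fun j => x (e.symm (Sum.inl j))) (Sum.elim n2 n3)) ∧
      A2 (Sum.elim (fun j => x (e.symm (Sum.inr (Sum.inl j)))) (Sum.elim n1 n3)) ∧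
      A3 (Sum.elim (fun j => x (e.symm (Sum.inr (Sum.inr j)))) (Sum.elim n1 n2))) := by
  refine Kill3.node I J1 J2 J3 N1 N2 N3 q hq hq' c1 c2 c3 d1 d2 d3 e _ _ _ _ k1.info k2 k3
    fun x hx => ?_
  by_cases hg : l ≤ red x ∧ red x ≤ u
  · right
    intro n1 n2 n3
    by_contra hcon
    obtain ⟨g1, hcon⟩ := not_or.1 hcon
    obtain ⟨g2, hcon⟩ := not_or.1 hcon
    obtain ⟨g3, g4⟩ := not_or.1 hcon
    have g1' := Classical.not_not.1 g1
    have g2' := Classical.not_not.1 g2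
    have g3' := Classical.not_not.1 g3
    have r0 : red x = red (fun j => x (e.symm (Sum.inl j))) +
        red (fun j => x (e.symm (Sum.inr j))) :=
      (red_equiv e.symm x).symm.trans (red_sum _)
    have r1 : red (Sum.elim (fun j => x (e.symm (Sum.inl j))) (Sum.elim n2 n3)) =
        red (fun j => x (e.symm (Sum.inl j))) + (red n2 + red n3) :=
      (red_sum _).trans (congrArg (_ + ·) (red_sum _))
    obtain ⟨⟨g5, g6⟩, g7⟩ := g1'
    exact hx ⟨n1, n2, n3, by omega, g7, g2', g3'⟩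
  · left
    by_contra hcon
    push Not at hcon
    exact hg ⟨hcon.1, hcon.2⟩

/-- An alive set with at most two red edges. -/
theorem small {h l u L : ℕ} {F R : Type} [Finite F] [Finite R] (hF : Nat.card F = L)
    (hR : Nat.card F + Nat.card R = 2 * h + 1) (k : ∀ p, 3 ≤ p → W3 h l u L p) :
    Fo h l u (F ⊕ R) (fun x => red (fun f => x (Sum.inl f)) ≤ 2) := by
  have h1 := W3_seq' (h := h) (l := l) (u := u) F R hF hR ∅
    ((Kill3.empty h l u _).mono (by intro x hx; exact absurd hx (Set.notMem_empty _)))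
  refine Kill3.mono h1 fun x hx => Or.inr (k _ ?_)
  have hx' : ¬ red (fun f => x (Sum.inl f)) ≤ 2 := hx
  omega

/-- An alive set with a red edge. -/
theorem low {h l u L : ℕ} {F R : Type} [Finite F] [Finite R] (hF : Nat.card F = L)
    (hR : Nat.card F + Nat.card R = 2 * h + 1) (k : W3 h l u L 0) :
    Fo h l u (F ⊕ R) (fun x => 1 ≤ red (fun f => x (Sum.inl f))) := by
  have h1 := W3_seq' (h := h) (l := l) (u := u) F R hF hR ∅
    ((Kill3.empty h l u _).mono (by intro x hx; exact absurd hx (Set.notMem_empty _)))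
  refine Kill3.mono h1 fun x hx => Or.inr ?_
  have hx' : ¬ 1 ≤ red (fun f => x (Sum.inl f)) := hx
  have e : red (fun f => x (Sum.inl f)) = 0 := by omega
  rw [e]
  exact k

theorem red3 {A B C R : Type} [Finite A] [Finite B] [Finite C] [Finite R]
    (y : ((A ⊕ B) ⊕ C) ⊕ R → Bool) : red (fun f => y (Sum.inl f)) =
      red (fun i => y (Sum.inl (Sum.inl (Sum.inl i)))) +
      red (fun i => y (Sum.inl (Sum.inl (Sum.inr i)))) + red (fun i => y (Sum.inl (Sum.inr i))) :=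
  (red_sum _).trans (congrArg (· + _) (red_sum _))

def eA (C C' Z S H : Type) : C ⊕ (H ⊕ (C' ⊕ (Z ⊕ S))) ≃ ((C ⊕ C') ⊕ Z) ⊕ (H ⊕ S) where
  toFun p := match p with
    | Sum.inl c => Sum.inl (Sum.inl (Sum.inl c))
    | Sum.inr (Sum.inl h) => Sum.inr (Sum.inl h)
    | Sum.inr (Sum.inr (Sum.inl c)) => Sum.inl (Sum.inl (Sum.inr c))
    | Sum.inr (Sum.inr (Sum.inr (Sum.inl z))) => Sum.inl (Sum.inr z)
    | Sum.inr (Sum.inr (Sum.inr (Sum.inr s))) => Sum.inr (Sum.inr s)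
  invFun p := match p with
    | Sum.inl (Sum.inl (Sum.inl c)) => Sum.inl c
    | Sum.inr (Sum.inl h) => Sum.inr (Sum.inl h)
    | Sum.inl (Sum.inl (Sum.inr c)) => Sum.inr (Sum.inr (Sum.inl c))
    | Sum.inl (Sum.inr z) => Sum.inr (Sum.inr (Sum.inr (Sum.inl z)))
    | Sum.inr (Sum.inr s) => Sum.inr (Sum.inr (Sum.inr (Sum.inr s)))
  left_inv := by rintro (c | (h | (c | (z | s)))) <;> rfl
  right_inv := by rintro (((c | c) | z) | (h | s)) <;> rfl

/-- A vertex with two sets `C`, `C'` and `Z`. -/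
theorem v1 {h l u L : ℕ} {C C' Z S H : Type} [Finite C] [Finite C'] [Finite Z] [Finite S]
    [Finite H] (h1 : Nat.card C + Nat.card C' + Nat.card Z = L)
    (h2 : Nat.card C + Nat.card C' + Nat.card Z + (Nat.card H + Nat.card S) = 2 * h + 1)
    (k : W3 h l u L 0) :
    Fo h l u (C ⊕ (H ⊕ (C' ⊕ (Z ⊕ S)))) (fun x => 1 ≤ red (fun i => x (Sum.inl i)) +
      red (fun i => x (Sum.inr (Sum.inr (Sum.inl i)))) +
      red (fun i => x (Sum.inr (Sum.inr (Sum.inr (Sum.inl i)))))) := by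
  have k1 := low (h := h) (l := l) (u := u) (F := (C ⊕ C') ⊕ Z) (R := H ⊕ S) (L := L)
    (by rw [Nat.card_sum, Nat.card_sum]; exact h1)
    (by rw [Nat.card_sum, Nat.card_sum, Nat.card_sum]; exact h2) k
  refine (k1.transport (eA C C' Z S H).symm).mono fun x hx => ?_
  have hx' : 1 ≤ red (fun f => x ((eA C C' Z S H).symm (Sum.inl f))) := hx
  rw [red3 (fun f => x ((eA C C' Z S H).symm f))] at hx'
  exact hx'

def eB (C C' Z H G : Type) : C ⊕ ((Z ⊕ H) ⊕ (C' ⊕ G)) ≃ ((C ⊕ C') ⊕ Z) ⊕ (H ⊕ G) where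
  toFun p := match p with
    | Sum.inl c => Sum.inl (Sum.inl (Sum.inl c))
    | Sum.inr (Sum.inl (Sum.inl z)) => Sum.inl (Sum.inr z)
    | Sum.inr (Sum.inl (Sum.inr h)) => Sum.inr (Sum.inl h)
    | Sum.inr (Sum.inr (Sum.inl c)) => Sum.inl (Sum.inl (Sum.inr c))
    | Sum.inr (Sum.inr (Sum.inr g)) => Sum.inr (Sum.inr g)
  invFun p := match p with
    | Sum.inl (Sum.inl (Sum.inl c)) => Sum.inl c
    | Sum.inl (Sum.inr z) => Sum.inr (Sum.inl (Sum.inl z))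
    | Sum.inr (Sum.inl h) => Sum.inr (Sum.inl (Sum.inr h))
    | Sum.inl (Sum.inl (Sum.inr c)) => Sum.inr (Sum.inr (Sum.inl c))
    | Sum.inr (Sum.inr g) => Sum.inr (Sum.inr (Sum.inr g))
  left_inv := by rintro (c | ((z | h) | (c | g))) <;> rfl
  right_inv := by rintro (((c | c) | z) | (h | g)) <;> rfl

/-- The vertex 2 of `w_2`. -/
theorem v2 {h l u L : ℕ} {C C' Z H G : Type} [Finite C] [Finite C'] [Finite Z] [Finite H]
    [Finite G] (h1 : Nat.card C + Nat.card C' + Nat.card Z = L)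
    (h2 : Nat.card C + Nat.card C' + Nat.card Z + (Nat.card H + Nat.card G) = 2 * h + 1)
    (k : W3 h l u L 0) :
    Fo h l u (C ⊕ ((Z ⊕ H) ⊕ (C' ⊕ G))) (fun x => 1 ≤ red (fun i => x (Sum.inl i)) +
      red (fun i => x (Sum.inr (Sum.inr (Sum.inl i)))) +
      red (fun i => x (Sum.inr (Sum.inl (Sum.inl i))))) := by
  have k1 := low (h := h) (l := l) (u := u) (F := (C ⊕ C') ⊕ Z) (R := H ⊕ G) (L := L)
    (by rw [Nat.card_sum, Nat.card_sum]; exact h1)
    (by rw [Nat.card_sum, Nat.card_sum, Nat.card_sum]; exact h2) k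
  refine (k1.transport (eB C C' Z H G).symm).mono fun x hx => ?_
  have hx' : 1 ≤ red (fun f => x ((eB C C' Z H G).symm (Sum.inl f))) := hx
  rw [red3 (fun f => x ((eB C C' Z H G).symm f))] at hx'
  exact hx'

def eC (Z Y Z2 H Z' Y' : Type) : (Z ⊕ Y) ⊕ ((Z2 ⊕ H) ⊕ (Z' ⊕ Y')) ≃
    ((Z ⊕ Z') ⊕ Z2) ⊕ (Y ⊕ (H ⊕ Y')) where
  toFun p := match p with
    | Sum.inl (Sum.inl z) => Sum.inl (Sum.inl (Sum.inl z))
    | Sum.inl (Sum.inr y) => Sum.inr (Sum.inl y)
    | Sum.inr (Sum.inl (Sum.inl z)) => Sum.inl (Sum.inr z)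
    | Sum.inr (Sum.inl (Sum.inr h)) => Sum.inr (Sum.inr (Sum.inl h))
    | Sum.inr (Sum.inr (Sum.inl z)) => Sum.inl (Sum.inl (Sum.inr z))
    | Sum.inr (Sum.inr (Sum.inr y)) => Sum.inr (Sum.inr (Sum.inr y))
  invFun p := match p with
    | Sum.inl (Sum.inl (Sum.inl z)) => Sum.inl (Sum.inl z)
    | Sum.inr (Sum.inl y) => Sum.inl (Sum.inr y)
    | Sum.inl (Sum.inr z) => Sum.inr (Sum.inl (Sum.inl z))
    | Sum.inr (Sum.inr (Sum.inl h)) => Sum.inr (Sum.inl (Sum.inr h))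
    | Sum.inl (Sum.inl (Sum.inr z)) => Sum.inr (Sum.inr (Sum.inl z))
    | Sum.inr (Sum.inr (Sum.inr y)) => Sum.inr (Sum.inr (Sum.inr y))
  left_inv := by rintro ((z | y) | ((z | h) | (z | y))) <;> rfl
  right_inv := by rintro (((z | z) | z) | (y | (h | y))) <;> rfl

/-- The vertex 3 of `w_2`. -/
theorem v3 {h l u L : ℕ} {Z Y Z2 H Z' Y' : Type} [Finite Z] [Finite Y] [Finite Z2] [Finite H]
    [Finite Z'] [Finite Y'] (h1 : Nat.card Z + Nat.card Z' + Nat.card Z2 = L)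
    (h2 : Nat.card Z + Nat.card Z' + Nat.card Z2 + (Nat.card Y + (Nat.card H + Nat.card Y')) =
      2 * h + 1)
    (k : ∀ p, 3 ≤ p → W3 h l u L p) :
    Fo h l u ((Z ⊕ Y) ⊕ ((Z2 ⊕ H) ⊕ (Z' ⊕ Y'))) (fun x =>
      red (fun i => x (Sum.inl (Sum.inl i))) + red (fun i => x (Sum.inr (Sum.inr (Sum.inl i)))) +
      red (fun i => x (Sum.inr (Sum.inl (Sum.inl i)))) ≤ 2) := by
  have k1 := small (h := h) (l := l) (u := u) (F := (Z ⊕ Z') ⊕ Z2) (R := Y ⊕ (H ⊕ Y')) (L := L)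
    (by rw [Nat.card_sum, Nat.card_sum]; exact h1)
    (by rw [Nat.card_sum, Nat.card_sum, Nat.card_sum, Nat.card_sum]; exact h2) k
  refine (k1.transport (eC Z Y Z2 H Z' Y').symm).mono fun x hx => ?_
  have hx' : red (fun f => x ((eC Z Y Z2 H Z' Y').symm (Sum.inl f))) ≤ 2 := hx
  rw [red3 (fun f => x ((eC Z Y Z2 H Z' Y').symm f))] at hx'
  exact hx'

def eD (C Z C' S H : Type) : (C ⊕ Z) ⊕ (H ⊕ (C' ⊕ S)) ≃ ((C ⊕ C') ⊕ Z) ⊕ (H ⊕ S) where
  toFun p := match p with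
    | Sum.inl (Sum.inl c) => Sum.inl (Sum.inl (Sum.inl c))
    | Sum.inl (Sum.inr z) => Sum.inl (Sum.inr z)
    | Sum.inr (Sum.inl h) => Sum.inr (Sum.inl h)
    | Sum.inr (Sum.inr (Sum.inl c)) => Sum.inl (Sum.inl (Sum.inr c))
    | Sum.inr (Sum.inr (Sum.inr s)) => Sum.inr (Sum.inr s)
  invFun p := match p with
    | Sum.inl (Sum.inl (Sum.inl c)) => Sum.inl (Sum.inl c)
    | Sum.inl (Sum.inr z) => Sum.inl (Sum.inr z)
    | Sum.inr (Sum.inl h) => Sum.inr (Sum.inl h)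
    | Sum.inl (Sum.inl (Sum.inr c)) => Sum.inr (Sum.inr (Sum.inl c))
    | Sum.inr (Sum.inr s) => Sum.inr (Sum.inr (Sum.inr s))
  left_inv := by rintro ((c | z) | (h | (c | s))) <;> rfl
  right_inv := by rintro (((c | c) | z) | (h | s)) <;> rfl

/-- The vertex 2 of `w_3`. -/
theorem v4 {h l u L : ℕ} {C Z C' S H : Type} [Finite C] [Finite C'] [Finite Z] [Finite S]
    [Finite H] (h1 : Nat.card C + Nat.card C' + Nat.card Z = L)
    (h2 : Nat.card C + Nat.card C' + Nat.card Z + (Nat.card H + Nat.card S) = 2 * h + 1)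
    (k : W3 h l u L 0) :
    Fo h l u ((C ⊕ Z) ⊕ (H ⊕ (C' ⊕ S))) (fun x => 1 ≤ red (fun i => x (Sum.inl (Sum.inl i))) +
      red (fun i => x (Sum.inr (Sum.inr (Sum.inl i)))) +
      red (fun i => x (Sum.inl (Sum.inr i)))) := by
  have k1 := low (h := h) (l := l) (u := u) (F := (C ⊕ C') ⊕ Z) (R := H ⊕ S) (L := L)
    (by rw [Nat.card_sum, Nat.card_sum]; exact h1)
    (by rw [Nat.card_sum, Nat.card_sum, Nat.card_sum]; exact h2) k
  refine (k1.transport (eD C Z C' S H).symm).mono fun x hx => ?_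
  have hx' : 1 ≤ red (fun f => x ((eD C Z C' S H).symm (Sum.inl f))) := hx
  rw [red3 (fun f => x ((eD C Z C' S H).symm f))] at hx'
  exact hx'

def e1 (F C C' Q : Type) : (F ⊕ C) ⊕ (C' ⊕ Q) ≃ (F ⊕ C') ⊕ (C ⊕ Q) where
  toFun p := match p with
    | Sum.inl (Sum.inl f) => Sum.inl (Sum.inl f)
    | Sum.inl (Sum.inr c) => Sum.inr (Sum.inl c)
    | Sum.inr (Sum.inl c) => Sum.inl (Sum.inr c)
    | Sum.inr (Sum.inr q) => Sum.inr (Sum.inr q)
  invFun p := match p with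
    | Sum.inl (Sum.inl f) => Sum.inl (Sum.inl f)
    | Sum.inl (Sum.inr c) => Sum.inr (Sum.inl c)
    | Sum.inr (Sum.inl c) => Sum.inl (Sum.inr c)
    | Sum.inr (Sum.inr q) => Sum.inr (Sum.inr q)
  left_inv := by rintro ((f | c) | (c | q)) <;> rfl
  right_inv := by rintro ((f | c) | (c | q)) <;> rfl

def e2 (F C D C' Z S : Type) : (F ⊕ C) ⊕ (D ⊕ (C' ⊕ (Z ⊕ S))) ≃
    (F ⊕ C') ⊕ (C ⊕ (Z ⊕ (D ⊕ S))) where
  toFun p := match p with
    | Sum.inl (Sum.inl f) => Sum.inl (Sum.inl f)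
    | Sum.inl (Sum.inr c) => Sum.inr (Sum.inl c)
    | Sum.inr (Sum.inl d) => Sum.inr (Sum.inr (Sum.inr (Sum.inl d)))
    | Sum.inr (Sum.inr (Sum.inl c)) => Sum.inl (Sum.inr c)
    | Sum.inr (Sum.inr (Sum.inr (Sum.inl z))) => Sum.inr (Sum.inr (Sum.inl z))
    | Sum.inr (Sum.inr (Sum.inr (Sum.inr s))) => Sum.inr (Sum.inr (Sum.inr (Sum.inr s)))
  invFun p := match p with
    | Sum.inl (Sum.inl f) => Sum.inl (Sum.inl f)
    | Sum.inr (Sum.inl c) => Sum.inl (Sum.inr c)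
    | Sum.inr (Sum.inr (Sum.inr (Sum.inl d))) => Sum.inr (Sum.inl d)
    | Sum.inl (Sum.inr c) => Sum.inr (Sum.inr (Sum.inl c))
    | Sum.inr (Sum.inr (Sum.inl z)) => Sum.inr (Sum.inr (Sum.inr (Sum.inl z)))
    | Sum.inr (Sum.inr (Sum.inr (Sum.inr s))) => Sum.inr (Sum.inr (Sum.inr (Sum.inr s)))
  left_inv := by rintro ((f | c) | (d | (c | (z | s)))) <;> rfl
  right_inv := by rintro ((f | c) | (c | (z | (d | s)))) <;> rfl

def e3 (F C Z Y C' G : Type) : (F ⊕ C) ⊕ ((Z ⊕ Y) ⊕ (C' ⊕ G)) ≃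
    (F ⊕ C') ⊕ ((C ⊕ Z) ⊕ (Y ⊕ G)) where
  toFun p := match p with
    | Sum.inl (Sum.inl f) => Sum.inl (Sum.inl f)
    | Sum.inl (Sum.inr c) => Sum.inr (Sum.inl (Sum.inl c))
    | Sum.inr (Sum.inl (Sum.inl z)) => Sum.inr (Sum.inl (Sum.inr z))
    | Sum.inr (Sum.inl (Sum.inr y)) => Sum.inr (Sum.inr (Sum.inl y))
    | Sum.inr (Sum.inr (Sum.inl c)) => Sum.inl (Sum.inr c)
    | Sum.inr (Sum.inr (Sum.inr g)) => Sum.inr (Sum.inr (Sum.inr g))
  invFun p := match p with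
    | Sum.inl (Sum.inl f) => Sum.inl (Sum.inl f)
    | Sum.inr (Sum.inl (Sum.inl c)) => Sum.inl (Sum.inr c)
    | Sum.inr (Sum.inl (Sum.inr z)) => Sum.inr (Sum.inl (Sum.inl z))
    | Sum.inr (Sum.inr (Sum.inl y)) => Sum.inr (Sum.inl (Sum.inr y))
    | Sum.inl (Sum.inr c) => Sum.inr (Sum.inr (Sum.inl c))
    | Sum.inr (Sum.inr (Sum.inr g)) => Sum.inr (Sum.inr (Sum.inr g))
  left_inv := by rintro ((f | c) | ((z | y) | (c | g))) <;> rfl
  right_inv := by rintro ((f | c) | ((c | z) | (y | g))) <;> rfl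

def e4 (F C A C' S : Type) : (F ⊕ C) ⊕ (A ⊕ (C' ⊕ S)) ≃ (F ⊕ C') ⊕ (A ⊕ (C ⊕ S)) where
  toFun p := match p with
    | Sum.inl (Sum.inl f) => Sum.inl (Sum.inl f)
    | Sum.inl (Sum.inr c) => Sum.inr (Sum.inr (Sum.inl c))
    | Sum.inr (Sum.inl a) => Sum.inr (Sum.inl a)
    | Sum.inr (Sum.inr (Sum.inl c)) => Sum.inl (Sum.inr c)
    | Sum.inr (Sum.inr (Sum.inr s)) => Sum.inr (Sum.inr (Sum.inr s))
  invFun p := match p with
    | Sum.inl (Sum.inl f) => Sum.inl (Sum.inl f)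
    | Sum.inr (Sum.inr (Sum.inl c)) => Sum.inl (Sum.inr c)
    | Sum.inr (Sum.inl a) => Sum.inr (Sum.inl a)
    | Sum.inl (Sum.inr c) => Sum.inr (Sum.inr (Sum.inl c))
    | Sum.inr (Sum.inr (Sum.inr s)) => Sum.inr (Sum.inr (Sum.inr s))
  left_inv := by rintro ((f | c) | (a | (c | s))) <;> rfl
  right_inv := by rintro ((f | c) | (a | (c | s))) <;> rfl

/-- **The main refutation.** -/
theorem mainG3 {h l u c m t P : ℕ} (hU : 2 * u < 2 * P + 2 + l) (hc : c + m = h) (hc1 : 1 ≤ c)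
    (htc : t ≤ c) (h2c : 2 * c + t ≤ h + 1) (hl : W3 h l u (2 * c + t) 0)
    (h3 : ∀ p, 3 ≤ p → W3 h l u (3 * t) p) : W3 h l u m P := by
  intro F R _ _ hF hR T hT
  obtain ⟨s, hs⟩ : ∃ s, 2 * c + t + s = h + 1 := ⟨h + 1 - (2 * c + t), by omega⟩
  obtain ⟨y, hy⟩ : ∃ y, t + y = c := ⟨c - t, by omega⟩
  have cFC : Nat.card (F ⊕ Fin c) = h := by rw [Nat.card_sum, hF, Nat.card_fin]; omega
  -- the last vertex
  have k5 : Fo h l u ((F ⊕ Fin c) ⊕ (Fin (c + t) ⊕ Fin (c + s)))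
      (fun x => (fun i => x (Sum.inl (Sum.inl i))) ∉ T) := by
    have h1 : Kill3 h l u (F ⊕ (Fin c ⊕ (Fin (c + t) ⊕ Fin (c + s))))
        {x | (fun f => x (Sum.inl f)) ∈ T} := by
      refine kill3_rest ?_ hT
      rw [Nat.card_sum, Nat.card_sum, Nat.card_fin, Nat.card_fin, Nat.card_fin]
      omega
    refine Kill3.mono (h1.transport (Equiv.sumAssoc F (Fin c)
      (Fin (c + t) ⊕ Fin (c + s))).symm) fun x hx => ?_
    exact Classical.not_not.1 hx
  -- the node 4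
  have k4 : Fo h l u ((F ⊕ Fin c) ⊕ (Fin (c + t) ⊕ (Fin c ⊕ Fin s))) (fun x =>
      (fun i => x (Sum.inl (Sum.inl i))) ∉ T ∧ (red (fun i => x (Sum.inl (Sum.inl i))) = P →
        red (fun i => x (Sum.inr (Sum.inr (Sum.inl i)))) = 0)) := by
    refine (Fo.num (h := h) (q := c + t) (J1 := F ⊕ Fin c) (J2 := Fin (c + t))
      (J3 := Fin c ⊕ Fin s) (N1 := Fin h) (N2 := Fin (c + t)) (N3 := Fin (c + s))
      (by omega) (by omega) cFC (Nat.card_fin _)
      (by rw [Nat.card_sum, Nat.card_fin, Nat.card_fin]; omega) (Nat.card_fin _)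
      (Nat.card_fin _) (by rw [Nat.card_fin]; omega)
      (e4 F (Fin c) (Fin (c + t)) (Fin c) (Fin s)) k5 (Fo.triv h l u _) (Fo.triv h l u _)).mono ?_
    rintro x ⟨n1, n2, n3, g2, hB, -, -⟩
    have r2 : red (fun j => x ((e4 F (Fin c) (Fin (c + t)) (Fin c) (Fin s)).symm (Sum.inl j))) =
        red (fun i => x (Sum.inl (Sum.inl i))) + red (fun i => x (Sum.inr (Sum.inr (Sum.inl i)))) :=
      red_sum _
    exact ⟨hB, fun h3 => by omega⟩
  -- the node 3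
  have k3 : Fo h l u ((F ⊕ Fin c) ⊕ ((Fin t ⊕ Fin y) ⊕ (Fin c ⊕ Fin (t + s)))) (fun x =>
      (fun i => x (Sum.inl (Sum.inl i))) ∉ T ∧ (red (fun i => x (Sum.inl (Sum.inl i))) = P →
        red (fun i => x (Sum.inr (Sum.inr (Sum.inl i)))) = 0 ∧
        1 ≤ red (fun i => x (Sum.inl (Sum.inr i))) +
          red (fun i => x (Sum.inr (Sum.inl (Sum.inl i)))))) := by
    refine (Fo.num (h := h) (q := c + t) (J1 := F ⊕ Fin c) (J2 := Fin c ⊕ Fin t)
      (J3 := Fin y ⊕ Fin (t + s)) (N1 := Fin h) (N2 := Fin (c + t)) (N3 := Fin c ⊕ Fin s)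
      (by omega) (by omega) cFC (by rw [Nat.card_sum, Nat.card_fin, Nat.card_fin])
      (by rw [Nat.card_sum, Nat.card_fin, Nat.card_fin]; omega) (Nat.card_fin _)
      (Nat.card_fin _) (by rw [Nat.card_sum, Nat.card_fin, Nat.card_fin]; omega)
      (e3 F (Fin c) (Fin t) (Fin y) (Fin c) (Fin (t + s))) k4
      (v4 (C := Fin c) (Z := Fin t) (C' := Fin c) (S := Fin s) (H := Fin h)
        (by rw [Nat.card_fin, Nat.card_fin]; omega)
        (by rw [Nat.card_fin, Nat.card_fin, Nat.card_fin, Nat.card_fin]; omega) hl)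
      (Fo.triv h l u _)).mono ?_
    rintro x ⟨n1, n2, n3, g2, ⟨hB, hB2⟩, hA, -⟩
    have r2 : red (fun j => x ((e3 F (Fin c) (Fin t) (Fin y) (Fin c) (Fin (t + s))).symm
        (Sum.inl j))) =
        red (fun i => x (Sum.inl (Sum.inl i))) + red (fun i => x (Sum.inr (Sum.inr (Sum.inl i)))) :=
      red_sum _
    have hA' : 1 ≤ red (fun i => x (Sum.inl (Sum.inr i))) + red (fun i => n3 (Sum.inl i)) +
        red (fun i => x (Sum.inr (Sum.inl (Sum.inl i)))) := hA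
    have hB2' : red (fun i => x (Sum.inl (Sum.inl i))) = P → red (fun i => n3 (Sum.inl i)) = 0 :=
      hB2
    refine ⟨hB, fun h3 => ?_⟩
    have := hB2' h3
    omega
  -- the node 2
  have k2 : Fo h l u ((F ⊕ Fin c) ⊕ (Fin c ⊕ (Fin c ⊕ (Fin t ⊕ Fin s)))) (fun x =>
      (fun i => x (Sum.inl (Sum.inl i))) ∉ T ∧ (red (fun i => x (Sum.inl (Sum.inl i))) = P →
        red (fun i => x (Sum.inr (Sum.inr (Sum.inl i)))) = 0 ∧
        (red (fun i => x (Sum.inl (Sum.inr i))) = 0 →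
          red (fun i => x (Sum.inr (Sum.inr (Sum.inr (Sum.inl i))))) = 0))) := by
    refine (Fo.num (h := h) (q := c) (J1 := F ⊕ Fin c) (J2 := Fin c)
      (J3 := Fin t ⊕ (Fin c ⊕ Fin s)) (N1 := Fin t ⊕ Fin (h - t)) (N2 := Fin t ⊕ Fin y)
      (N3 := Fin c ⊕ Fin (t + s))
      (by omega) (by omega) cFC (Nat.card_fin _)
      (by rw [Nat.card_sum, Nat.card_sum, Nat.card_fin, Nat.card_fin, Nat.card_fin]; omega)
      (by rw [Nat.card_sum, Nat.card_fin, Nat.card_fin]; omega)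
      (by rw [Nat.card_sum, Nat.card_fin, Nat.card_fin]; omega)
      (by rw [Nat.card_sum, Nat.card_fin, Nat.card_fin]; omega)
      (e2 F (Fin c) (Fin c) (Fin c) (Fin t) (Fin s)) k3
      (v2 (C := Fin c) (C' := Fin c) (Z := Fin t) (H := Fin (h - t)) (G := Fin (t + s))
        (by rw [Nat.card_fin, Nat.card_fin]; omega)
        (by rw [Nat.card_fin, Nat.card_fin, Nat.card_fin, Nat.card_fin]; omega) hl)
      (v3 (Z := Fin t) (Y := Fin c ⊕ Fin s) (Z2 := Fin t) (H := Fin (h - t)) (Z' := Fin t)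
        (Y' := Fin y) (L := 3 * t) (by rw [Nat.card_fin]; omega)
        (by rw [Nat.card_sum, Nat.card_fin, Nat.card_fin, Nat.card_fin, Nat.card_fin,
              Nat.card_fin]
            omega) h3)).mono ?_
    rintro x ⟨n1, n2, n3, g2, ⟨hB, hB2⟩, hA, hA3⟩
    have r2 : red (fun j => x ((e2 F (Fin c) (Fin c) (Fin c) (Fin t) (Fin s)).symm
        (Sum.inl j))) =
        red (fun i => x (Sum.inl (Sum.inl i))) + red (fun i => x (Sum.inr (Sum.inr (Sum.inl i)))) :=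
      red_sum _
    have hA' : 1 ≤ red (fun i => x (Sum.inl (Sum.inr i))) + red (fun i => n3 (Sum.inl i)) +
        red (fun i => n1 (Sum.inl i)) := hA
    have hA3' : red (fun i => x (Sum.inr (Sum.inr (Sum.inr (Sum.inl i))))) +
        red (fun i => n2 (Sum.inl i)) + red (fun i => n1 (Sum.inl i)) ≤ 2 := hA3
    have hB2' : red (fun i => x (Sum.inl (Sum.inl i))) = P → red (fun i => n3 (Sum.inl i)) = 0 ∧
        1 ≤ red (fun i => x (Sum.inr (Sum.inr (Sum.inl i)))) + red (fun i => n2 (Sum.inl i)) := hB2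
    refine ⟨hB, fun h3 => ?_⟩
    obtain ⟨b1, b2⟩ := hB2' h3
    exact ⟨by omega, fun h0 => by omega⟩
  -- the node 1
  have k1 : Fo h l u ((F ⊕ Fin c) ⊕ (Fin c ⊕ Fin (c + t + s))) (fun x =>
      (fun i => x (Sum.inl (Sum.inl i))) ∉ T ∧ (red (fun i => x (Sum.inl (Sum.inl i))) = P →
        1 ≤ red (fun i => x (Sum.inl (Sum.inr i))))) := by
    refine (Fo.num (h := h) (q := c) (J1 := F ⊕ Fin c) (J2 := Fin c)
      (J3 := Fin (c + t + s)) (N1 := Fin h) (N2 := Fin c)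
      (N3 := Fin c ⊕ (Fin t ⊕ Fin s))
      (by omega) (by omega) cFC (Nat.card_fin _)
      (by rw [Nat.card_fin]; omega) (Nat.card_fin _) (Nat.card_fin _)
      (by rw [Nat.card_sum, Nat.card_sum, Nat.card_fin, Nat.card_fin, Nat.card_fin]; omega)
      (e1 F (Fin c) (Fin c) (Fin (c + t + s))) k2
      (v1 (C := Fin c) (C' := Fin c) (Z := Fin t) (S := Fin s) (H := Fin h)
        (by rw [Nat.card_fin, Nat.card_fin]; omega)
        (by rw [Nat.card_fin, Nat.card_fin, Nat.card_fin, Nat.card_fin]; omega) hl)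
      (Fo.triv h l u _)).mono ?_
    rintro x ⟨n1, n2, n3, g2, ⟨hB, hB2⟩, hA, -⟩
    have r2 : red (fun j => x ((e1 F (Fin c) (Fin c) (Fin (c + t + s))).symm (Sum.inl j))) =
        red (fun i => x (Sum.inl (Sum.inl i))) + red (fun i => x (Sum.inr (Sum.inl i))) :=
      red_sum _
    have hA' : 1 ≤ red (fun i => x (Sum.inl (Sum.inr i))) + red (fun i => n3 (Sum.inl i)) +
        red (fun i => n3 (Sum.inr (Sum.inl i))) := hA
    have hB2' : red (fun i => x (Sum.inl (Sum.inl i))) = P → red (fun i => n3 (Sum.inl i)) = 0 ∧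
        (red (fun i => x (Sum.inr (Sum.inl i))) = 0 →
          red (fun i => n3 (Sum.inr (Sum.inl i))) = 0) := hB2
    refine ⟨hB, fun h3 => ?_⟩
    obtain ⟨b1, b2⟩ := hB2' h3
    have b3 := b2 (by omega)
    omega
  -- the root
  have k0 : Fo h l u ((F ⊕ Fin c) ⊕ (Fin c ⊕ Fin (c + t + s))) (fun x =>
      (fun i => x (Sum.inl (Sum.inl i))) ∉ T ∧ red (fun i => x (Sum.inl (Sum.inl i))) ≠ P) := by
    refine (Fo.num (h := h) (q := c) (J1 := F ⊕ Fin c) (J2 := Fin c)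
      (J3 := Fin (c + t + s)) (N1 := Fin h) (N2 := Fin c) (N3 := Fin (c + t + s))
      (by omega) (by omega) cFC (Nat.card_fin _)
      (by rw [Nat.card_fin]; omega) (Nat.card_fin _) (Nat.card_fin _)
      (by rw [Nat.card_fin]; omega)
      (Equiv.refl _) k1 (Fo.triv h l u _) (Fo.triv h l u _)).mono ?_
    rintro x ⟨n1, n2, n3, g2, ⟨hB, hB2⟩, -, -⟩
    have r2 : red (fun j => x ((Equiv.refl ((F ⊕ Fin c) ⊕ (Fin c ⊕ Fin (c + t + s)))).symm
        (Sum.inl j))) =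
        red (fun i => x (Sum.inl (Sum.inl i))) + red (fun i => x (Sum.inl (Sum.inr i))) :=
      red_sum _
    have hB2' : red (fun i => x (Sum.inl (Sum.inl i))) = P →
        1 ≤ red (fun i => x (Sum.inl (Sum.inr i))) := hB2
    refine ⟨hB, fun h3 => ?_⟩
    have := hB2' h3
    omega
  have h2 : Kill3 h l u (F ⊕ (Fin c ⊕ (Fin c ⊕ Fin (c + t + s))))
      {x | (fun f => x (Sum.inl f)) ∈ {y : F → Bool | y ∈ T ∨ red y = P}} := by
    refine Kill3.mono (Fo.transport k0 (Equiv.sumAssoc F (Fin c) (Fin c ⊕ Fin (c + t + s))))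
      fun x hx => ?_
    intro hc
    rcases hx with hx | hx
    · exact hc.1 hx
    · exact hc.2 hx
  refine kill3_rest ?_ h2
  rw [Nat.card_sum, Nat.card_sum, Nat.card_fin, Nat.card_fin]
  omega

end Pool.Agent.Lib.MP_21a058_co.Slack3.MG3
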