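import Pool.Agent.Lib.MP_21a058_co.Slack3.Rule

/-! Window `2 d + 1 ≤ red ≤ 2 d + 3`: `m` edges that stay alive do not have `d + 2` red ones. -/

set_option autoImplicit false

namespace Pool.Agent.Lib.MP_21a058_co.Slack3.G41

open Pool.Agent.Lib.MP_21a058_co.Odd (red red_sum red_equiv red_le)

/-- Some structure over `I` forces `A` on every good colouring. -/
def Fo (K d : ℕ) (I : Type) (A : (I → Bool) → Prop) : Prop :=
  Kill K (2 * d + 1) (2 * d + 3) I {x | ¬ A x}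

theorem Fo.mono {K d : ℕ} {I : Type} {A B : (I → Bool) → Prop} (h : Fo K d I A)
    (hAB : ∀ x, A x → B x) : Fo K d I B :=
  Kill.mono h fun _ hx hA => hx (hAB _ hA)

theorem Fo.leaf (K d : ℕ) (I : Type) :
    Fo K d I (fun x => 2 * d + 1 ≤ red x ∧ red x ≤ 2 * d + 3) :=
  Kill.leaf I _ fun x hx => by
    have hx' : ¬ (2 * d + 1 ≤ red x ∧ red x ≤ 2 * d + 3) := hx
    omega

theorem Fo.info {K d : ℕ} {I : Type} {A : (I → Bool) → Prop} (h : Fo K d I A) :
    Fo K d I (fun x => (2 * d + 1 ≤ red x ∧ red x ≤ 2 * d + 3) ∧ A x) := by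
  refine Kill.mono (Kill.addBase h) fun x hx => ?_
  have hx' : ¬ ((2 * d + 1 ≤ red x ∧ red x ≤ 2 * d + 3) ∧ A x) := hx
  by_cases hA : A x
  · right
    by_contra hcon
    exact hx' ⟨by omega, hA⟩
  · exact Or.inl hA

theorem Fo.node {K d : ℕ} {I J1 J2 N : Type} [Finite N] (h1 : Nat.card J1 = K)
    (h2 : Nat.card J2 = K) (h3 : Nat.card N = K) (hK : K ≠ 0) (e : I ≃ J1 ⊕ J2)
    {A : (J1 ⊕ N → Bool) → Prop} {B : (J2 ⊕ N → Bool) → Prop}
    (hA : Fo K d (J1 ⊕ N) A) (hB : Fo K d (J2 ⊕ N) B) :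
    Fo K d I (fun x => (2 * d + 1 ≤ red x ∧ red x ≤ 2 * d + 3) ∧ ∃ n : N → Bool,
      ((2 * d + 1 ≤ red (Sum.elim (fun j => x (e.symm (Sum.inl j))) n) ∧
        red (Sum.elim (fun j => x (e.symm (Sum.inl j))) n) ≤ 2 * d + 3) ∧
        A (Sum.elim (fun j => x (e.symm (Sum.inl j))) n)) ∧
      ((2 * d + 1 ≤ red (Sum.elim (fun j => x (e.symm (Sum.inr j))) n) ∧
        red (Sum.elim (fun j => x (e.symm (Sum.inr j))) n) ≤ 2 * d + 3) ∧
        B (Sum.elim (fun j => x (e.symm (Sum.inr j))) n))) := by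
  have : Nonempty (N ≃ Fin K) := ⟨Finite.equivFinOfCardEq h3⟩
  obtain ⟨eN⟩ := this
  have kA := hA.info.transport (Equiv.sumCongr (Equiv.refl J1) eN)
  have kB := hB.info.transport (Equiv.sumCongr (Equiv.refl J2) eN)
  refine Kill.node I J1 J2 h1 h2 e _ _ _ kA kB fun x hx => ?_
  by_cases hg : 2 * d + 1 ≤ red x ∧ red x ≤ 2 * d + 3
  · right
    intro n
    by_contra hcon
    obtain ⟨c1, c2⟩ := not_or.1 hcon
    refine hx ⟨hg, fun i => n (eN i), ?_, ?_⟩
    · have c3 := Classical.not_not.1 c1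
      have : (fun i => (Sum.elim (fun j => x (e.symm (Sum.inl j))) n : J1 ⊕ Fin K → Bool)
          ((Equiv.sumCongr (Equiv.refl J1) eN) i)) =
          Sum.elim (fun j => x (e.symm (Sum.inl j))) fun i => n (eN i) := by
        funext i
        rcases i with i | i <;> rfl
      beta_reduce at c3
      rw [this] at c3
      exact c3
    · have c3 := Classical.not_not.1 c2
      have : (fun i => (Sum.elim (fun j => x (e.symm (Sum.inr j))) n : J2 ⊕ Fin K → Bool)
          ((Equiv.sumCongr (Equiv.refl J2) eN) i)) =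
          Sum.elim (fun j => x (e.symm (Sum.inr j))) fun i => n (eN i) := by
        funext i
        rcases i with i | i <;> rfl
      beta_reduce at c3
      rw [this] at c3
      exact c3
  · left
    omega

/-- The node rule in numbers. -/
theorem Fo.num {K d : ℕ} {I J1 J2 N : Type} [Finite I] [Finite J1] [Finite J2] [Finite N]
    (h1 : Nat.card J1 = K)
    (h2 : Nat.card J2 = K) (h3 : Nat.card N = K) (hK : K ≠ 0) (e : I ≃ J1 ⊕ J2)
    {A : (J1 ⊕ N → Bool) → Prop} {B : (J2 ⊕ N → Bool) → Prop}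
    (hA : Fo K d (J1 ⊕ N) A) (hB : Fo K d (J2 ⊕ N) B) :
    Fo K d I (fun x => ∃ n : N → Bool,
      (2 * d + 1 ≤ red (fun j => x (e.symm (Sum.inl j))) + red (fun j => x (e.symm (Sum.inr j))) ∧
        red (fun j => x (e.symm (Sum.inl j))) + red (fun j => x (e.symm (Sum.inr j))) ≤
          2 * d + 3) ∧
      (2 * d + 1 ≤ red (fun j => x (e.symm (Sum.inl j))) + red n ∧
        red (fun j => x (e.symm (Sum.inl j))) + red n ≤ 2 * d + 3) ∧
      (2 * d + 1 ≤ red (fun j => x (e.symm (Sum.inr j))) + red n ∧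
        red (fun j => x (e.symm (Sum.inr j))) + red n ≤ 2 * d + 3) ∧
      A (Sum.elim (fun j => x (e.symm (Sum.inl j))) n) ∧
      B (Sum.elim (fun j => x (e.symm (Sum.inr j))) n)) := by
  refine (Fo.node h1 h2 h3 hK e hA hB).mono ?_
  rintro x ⟨g0, n, ⟨g1, hA'⟩, g2, hB'⟩
  have r0 : red x = red (fun j => x (e.symm (Sum.inl j))) +
      red (fun j => x (e.symm (Sum.inr j))) :=
    (red_equiv e.symm x).symm.trans (red_sum _)
  have r1 : red (Sum.elim (fun j => x (e.symm (Sum.inl j))) n) =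
      red (fun j => x (e.symm (Sum.inl j))) + red n := red_sum _
  have r2 : red (Sum.elim (fun j => x (e.symm (Sum.inr j))) n) =
      red (fun j => x (e.symm (Sum.inr j))) + red n := red_sum _
  exact ⟨n, by omega, by omega, by omega, hA', hB'⟩

/-- Refutable values do not occur. -/
theorem alive {K d L : ℕ} {S R I : Type} [Finite S] [Finite R]
    (hS : Nat.card S = L) (hR : Nat.card S + Nat.card R = 2 * K) (e : S ⊕ R ≃ I) :
    Fo K d I (fun x => ¬ W K (2 * d + 1) (2 * d + 3) L (red (fun s => x (e (Sum.inl s))))) := by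
  have k1 := W_seq' (K := K) (l := 2 * d + 1) (u := 2 * d + 3) (L := L) S R hS hR ∅
    ((Kill.empty K _ _ _).mono (by intro x hx; exact absurd hx (Set.notMem_empty _)))
  refine Kill.mono (k1.transport e) fun x hx => Or.inr ?_
  exact Classical.not_not.1 hx

/-! ### Rearrangements -/

def eS (M A B Q : Type) : (M ⊕ A) ⊕ (B ⊕ Q) ≃ (A ⊕ Q) ⊕ (M ⊕ B) where
  toFun p := match p with
    | Sum.inl (Sum.inl i) => Sum.inr (Sum.inl i)
    | Sum.inl (Sum.inr i) => Sum.inl (Sum.inl i)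
    | Sum.inr (Sum.inl i) => Sum.inr (Sum.inr i)
    | Sum.inr (Sum.inr i) => Sum.inl (Sum.inr i)
  invFun p := match p with
    | Sum.inr (Sum.inl i) => Sum.inl (Sum.inl i)
    | Sum.inl (Sum.inl i) => Sum.inl (Sum.inr i)
    | Sum.inr (Sum.inr i) => Sum.inr (Sum.inl i)
    | Sum.inl (Sum.inr i) => Sum.inr (Sum.inr i)
  left_inv := by rintro ((i | i) | (i | i)) <;> rfl
  right_inv := by rintro ((i | i) | (i | i)) <;> rfl

/-- The set `C₀ + C₂ + T` in `(C₀ + Q) + (C₂ + (T + A))`. -/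
def e1 (C D Q T A : Type) :
    ((C ⊕ D) ⊕ T) ⊕ (Q ⊕ A) ≃ (C ⊕ Q) ⊕ (D ⊕ (T ⊕ A)) where
  toFun p := match p with
    | Sum.inl (Sum.inl (Sum.inl i)) => Sum.inl (Sum.inl i)
    | Sum.inl (Sum.inl (Sum.inr i)) => Sum.inr (Sum.inl i)
    | Sum.inl (Sum.inr i) => Sum.inr (Sum.inr (Sum.inl i))
    | Sum.inr (Sum.inl i) => Sum.inl (Sum.inr i)
    | Sum.inr (Sum.inr i) => Sum.inr (Sum.inr (Sum.inr i))
  invFun p := match p with
    | Sum.inl (Sum.inl i) => Sum.inl (Sum.inl (Sum.inl i))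
    | Sum.inr (Sum.inl i) => Sum.inl (Sum.inl (Sum.inr i))
    | Sum.inr (Sum.inr (Sum.inl i)) => Sum.inl (Sum.inr i)
    | Sum.inl (Sum.inr i) => Sum.inr (Sum.inl i)
    | Sum.inr (Sum.inr (Sum.inr i)) => Sum.inr (Sum.inr i)
  left_inv := by rintro (((i | i) | i) | (i | i)) <;> rfl
  right_inv := by rintro ((i | i) | (i | (i | i))) <;> rfl

/-- The set `C₂ + C₄ + T` in `(C₂ + (T + A)) + (C₄ + Q)`. -/
def e3 (C D Q T A : Type) :
    ((C ⊕ D) ⊕ T) ⊕ (A ⊕ Q) ≃ (C ⊕ (T ⊕ A)) ⊕ (D ⊕ Q) where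
  toFun p := match p with
    | Sum.inl (Sum.inl (Sum.inl i)) => Sum.inl (Sum.inl i)
    | Sum.inl (Sum.inl (Sum.inr i)) => Sum.inr (Sum.inl i)
    | Sum.inl (Sum.inr i) => Sum.inl (Sum.inr (Sum.inl i))
    | Sum.inr (Sum.inl i) => Sum.inl (Sum.inr (Sum.inr i))
    | Sum.inr (Sum.inr i) => Sum.inr (Sum.inr i)
  invFun p := match p with
    | Sum.inl (Sum.inl i) => Sum.inl (Sum.inl (Sum.inl i))
    | Sum.inr (Sum.inl i) => Sum.inl (Sum.inl (Sum.inr i))
    | Sum.inl (Sum.inr (Sum.inl i)) => Sum.inl (Sum.inr i)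
    | Sum.inl (Sum.inr (Sum.inr i)) => Sum.inr (Sum.inl i)
    | Sum.inr (Sum.inr i) => Sum.inr (Sum.inr i)
  left_inv := by rintro (((i | i) | i) | (i | i)) <;> rfl
  right_inv := by rintro ((i | (i | i)) | (i | i)) <;> rfl

/-- The node at `w₂`: `(C₁ + (T + A)) + (C₃ + (T' + A'))` with `A + A' = F₀ + F₁` into
`(C₁ + C₃) + F₀` and `(T + T') + F₁`. -/
def e2 (C D T T' A A' F0 F1 : Type) (f : A ⊕ A' ≃ F0 ⊕ F1) :
    (C ⊕ (T ⊕ A)) ⊕ (D ⊕ (T' ⊕ A')) ≃ ((C ⊕ D) ⊕ F0) ⊕ ((T ⊕ T') ⊕ F1) where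
  toFun p := match p with
    | Sum.inl (Sum.inl i) => Sum.inl (Sum.inl (Sum.inl i))
    | Sum.inr (Sum.inl i) => Sum.inl (Sum.inl (Sum.inr i))
    | Sum.inl (Sum.inr (Sum.inl i)) => Sum.inr (Sum.inl (Sum.inl i))
    | Sum.inr (Sum.inr (Sum.inl i)) => Sum.inr (Sum.inl (Sum.inr i))
    | Sum.inl (Sum.inr (Sum.inr i)) => match f (Sum.inl i) with
      | Sum.inl j => Sum.inl (Sum.inr j)
      | Sum.inr j => Sum.inr (Sum.inr j)
    | Sum.inr (Sum.inr (Sum.inr i)) => match f (Sum.inr i) with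
      | Sum.inl j => Sum.inl (Sum.inr j)
      | Sum.inr j => Sum.inr (Sum.inr j)
  invFun p := match p with
    | Sum.inl (Sum.inl (Sum.inl i)) => Sum.inl (Sum.inl i)
    | Sum.inl (Sum.inl (Sum.inr i)) => Sum.inr (Sum.inl i)
    | Sum.inr (Sum.inl (Sum.inl i)) => Sum.inl (Sum.inr (Sum.inl i))
    | Sum.inr (Sum.inl (Sum.inr i)) => Sum.inr (Sum.inr (Sum.inl i))
    | Sum.inl (Sum.inr j) => match f.symm (Sum.inl j) with
      | Sum.inl i => Sum.inl (Sum.inr (Sum.inr i))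
      | Sum.inr i => Sum.inr (Sum.inr (Sum.inr i))
    | Sum.inr (Sum.inr j) => match f.symm (Sum.inr j) with
      | Sum.inl i => Sum.inl (Sum.inr (Sum.inr i))
      | Sum.inr i => Sum.inr (Sum.inr (Sum.inr i))
  left_inv := by
    rintro ((i | (i | i)) | (i | (i | i))) <;> try rfl
    · have h := f.symm_apply_apply (Sum.inl i)
      rcases hf : f (Sum.inl i) with j | j <;> rw [hf] at h <;> simp only [hf, h]
    · have h := f.symm_apply_apply (Sum.inr i)
      rcases hf : f (Sum.inr i) with j | j <;> rw [hf] at h <;> simp only [hf, h]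
  right_inv := by
    rintro (((i | i) | i) | ((i | i) | i)) <;> try rfl
    · have h := f.apply_symm_apply (Sum.inl i)
      rcases hf : f.symm (Sum.inl i) with j | j <;> rw [hf] at h <;> simp only [hf, h]
    · have h := f.apply_symm_apply (Sum.inr i)
      rcases hf : f.symm (Sum.inr i) with j | j <;> rw [hf] at h <;> simp only [hf, h]

/-- The set `C₁ + C₃ + T₂` in `((C₁ + C₃) + F₀) + (T₂ + N)`. -/
def eA (C F0 T2 N : Type) : (C ⊕ T2) ⊕ (F0 ⊕ N) ≃ (C ⊕ F0) ⊕ (T2 ⊕ N) where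
  toFun p := match p with
    | Sum.inl (Sum.inl i) => Sum.inl (Sum.inl i)
    | Sum.inl (Sum.inr i) => Sum.inr (Sum.inl i)
    | Sum.inr (Sum.inl i) => Sum.inl (Sum.inr i)
    | Sum.inr (Sum.inr i) => Sum.inr (Sum.inr i)
  invFun p := match p with
    | Sum.inl (Sum.inl i) => Sum.inl (Sum.inl i)
    | Sum.inr (Sum.inl i) => Sum.inl (Sum.inr i)
    | Sum.inl (Sum.inr i) => Sum.inr (Sum.inl i)
    | Sum.inr (Sum.inr i) => Sum.inr (Sum.inr i)
  left_inv := by rintro ((i | i) | (i | i)) <;> rfl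
  right_inv := by rintro ((i | i) | (i | i)) <;> rfl

/-- At `w₂`. -/
theorem test2 {K d m t : ℕ} (ht : 2 * t ≤ K) (htm : t ≤ m) (hmK : m ≤ K)
    (hs : 2 * (K - m) + t ≤ K) (hK : K ≠ 0)
    (h2 : W K (2 * d + 1) (2 * d + 3) (2 * (K - m) + t) 0)
    (h3 : ∀ p, 3 ≤ p → W K (2 * d + 1) (2 * d + 3) (3 * t) p) :
    Fo K d ((Fin (K - m) ⊕ (Fin t ⊕ Fin (m - t))) ⊕ (Fin (K - m) ⊕ (Fin t ⊕ Fin (m - t))))
      (fun x => ¬ (red (fun i => x (Sum.inl (Sum.inl i))) = 0 ∧
        red (fun i => x (Sum.inr (Sum.inl i))) = 0 ∧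
        1 ≤ red (fun i => x (Sum.inl (Sum.inr (Sum.inl i)))) ∧
        1 ≤ red (fun i => x (Sum.inr (Sum.inr (Sum.inl i)))))) := by
  obtain ⟨f⟩ : Nonempty (Fin (m - t) ⊕ Fin (m - t) ≃ Fin (2 * m - K) ⊕ Fin (K - 2 * t)) := by
    refine Finite.card_eq.1 ?_
    simp only [Nat.card_sum, Nat.card_fin]
    omega
  have hA : Fo K d (((Fin (K - m) ⊕ Fin (K - m)) ⊕ Fin (2 * m - K)) ⊕ (Fin t ⊕ Fin (K - t)))
      (fun x => ¬ ((red (fun i => x (Sum.inl (Sum.inl (Sum.inl i)))) +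
        red (fun i => x (Sum.inl (Sum.inl (Sum.inr i))))) +
        red (fun i => x (Sum.inr (Sum.inl i))) = 0)) := by
    refine (alive (L := 2 * (K - m) + t) ?_ ?_
      (eA (Fin (K - m) ⊕ Fin (K - m)) (Fin (2 * m - K)) (Fin t) (Fin (K - t)))).mono ?_
    · simp only [Nat.card_sum, Nat.card_fin]; omega
    · simp only [Nat.card_sum, Nat.card_fin]; omega
    · intro x hx h0
      have r : red (fun s => x ((eA (Fin (K - m) ⊕ Fin (K - m)) (Fin (2 * m - K)) (Fin t)
          (Fin (K - t))) (Sum.inl s))) = (red (fun i => x (Sum.inl (Sum.inl (Sum.inl i)))) +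
          red (fun i => x (Sum.inl (Sum.inl (Sum.inr i))))) +
          red (fun i => x (Sum.inr (Sum.inl i))) :=
        (red_sum _).trans (congrArg (· + _) (red_sum _))
      apply hx
      rw [r, h0]
      exact h2
  have hB : Fo K d (((Fin t ⊕ Fin t) ⊕ Fin (K - 2 * t)) ⊕ (Fin t ⊕ Fin (K - t)))
      (fun x => (red (fun i => x (Sum.inl (Sum.inl (Sum.inl i)))) +
        red (fun i => x (Sum.inl (Sum.inl (Sum.inr i))))) +
        red (fun i => x (Sum.inr (Sum.inl i))) ≤ 2) := by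
    refine (alive (L := 3 * t) ?_ ?_
      (eA (Fin t ⊕ Fin t) (Fin (K - 2 * t)) (Fin t) (Fin (K - t)))).mono ?_
    · simp only [Nat.card_sum, Nat.card_fin]; omega
    · simp only [Nat.card_sum, Nat.card_fin]; omega
    · intro x hx
      have r : red (fun s => x ((eA (Fin t ⊕ Fin t) (Fin (K - 2 * t)) (Fin t)
          (Fin (K - t))) (Sum.inl s))) = (red (fun i => x (Sum.inl (Sum.inl (Sum.inl i)))) +
          red (fun i => x (Sum.inl (Sum.inl (Sum.inr i))))) +
          red (fun i => x (Sum.inr (Sum.inl i))) :=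
        (red_sum _).trans (congrArg (· + _) (red_sum _))
      by_contra hcon
      apply hx
      rw [r]
      exact h3 _ (by omega)
  refine (Fo.num (J1 := (Fin (K - m) ⊕ Fin (K - m)) ⊕ Fin (2 * m - K))
    (J2 := (Fin t ⊕ Fin t) ⊕ Fin (K - 2 * t)) (N := Fin t ⊕ Fin (K - t)) ?_ ?_ ?_ hK
    (e2 (Fin (K - m)) (Fin (K - m)) (Fin t) (Fin t) (Fin (m - t)) (Fin (m - t))
      (Fin (2 * m - K)) (Fin (K - 2 * t)) f) hA hB).mono ?_
  · simp only [Nat.card_sum, Nat.card_fin]; omega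
  · simp only [Nat.card_sum, Nat.card_fin]; omega
  · simp only [Nat.card_sum, Nat.card_fin]; omega
  · rintro x ⟨n, -, -, -, hA', hB'⟩ ⟨c1, c3, c5, c6⟩
    have a1 : ¬ ((red (fun i => x (Sum.inl (Sum.inl i))) + red (fun i => x (Sum.inr (Sum.inl i)))) +
        red (fun i => n (Sum.inl i)) = 0) := hA'
    have b1 : (red (fun i => x (Sum.inl (Sum.inr (Sum.inl i)))) +
        red (fun i => x (Sum.inr (Sum.inr (Sum.inl i))))) + red (fun i => n (Sum.inl i)) ≤ 2 := hB'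
    omega

theorem mainG {K d m t : ℕ} (ht : 2 * t ≤ K) (htm : t ≤ m) (hmK : m ≤ K)
    (hs : 2 * (K - m) + t ≤ K)
    (h2 : W K (2 * d + 1) (2 * d + 3) (2 * (K - m) + t) 0)
    (h3 : ∀ p, 3 ≤ p → W K (2 * d + 1) (2 * d + 3) (3 * t) p) :
    W K (2 * d + 1) (2 * d + 3) m (d + 2) := by
  intro M R _ _ hM hR T hT
  rcases Nat.eq_zero_or_pos K with hK | hK
  · have hM0 : Nat.card M = 0 := by omega
    refine hT.mono fun x hx => ?_
    rcases hx with hx | hx
    · exact hx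
    · exfalso
      have h4 := red_le (fun f : M => x (Sum.inl f))
      have hx' : red (fun f : M => x (Sum.inl f)) = d + 2 := hx
      omega
  have hK0 : K ≠ 0 := by omega
  have cM : Nat.card (M ⊕ Fin (K - m)) = K := by
    rw [Nat.card_sum, Nat.card_fin, hM]
    omega
  have cQ : Nat.card (Fin (K - m) ⊕ Fin m) = K := by
    simp only [Nat.card_sum, Nat.card_fin]; omega
  have cT : Nat.card (Fin (K - m) ⊕ (Fin t ⊕ Fin (m - t))) = K := by
    simp only [Nat.card_sum, Nat.card_fin]; omega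
  -- X 5
  have f5 : Fo K d ((M ⊕ Fin (K - m)) ⊕ (Fin (K - m) ⊕ Fin m))
      (fun x => (fun i => x (Sum.inl (Sum.inl i))) ∉ T) := by
    obtain ⟨e⟩ : Nonempty (R ≃ Fin (K - m) ⊕ (Fin (K - m) ⊕ Fin m)) := by
      refine Finite.card_eq.1 ?_
      simp only [Nat.card_sum, Nat.card_fin]
      omega
    refine Kill.mono (hT.transport ((Equiv.sumCongr (Equiv.refl M) e).trans
      (Equiv.sumAssoc M (Fin (K - m)) (Fin (K - m) ⊕ Fin m)).symm)) fun x hx => ?_
    exact Classical.not_not.1 hx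
  -- X 4
  have f4 : Fo K d ((M ⊕ Fin (K - m)) ⊕ (Fin (K - m) ⊕ Fin m))
      (fun x => (fun i => x (Sum.inl (Sum.inl i))) ∉ T ∧
        (red (fun i => x (Sum.inl (Sum.inl i))) = d + 2 →
          red (fun i => x (Sum.inr (Sum.inl i))) = 0)) := by
    refine (Fo.num cQ cM cQ hK0 (eS M (Fin (K - m)) (Fin (K - m)) (Fin m))
      (Fo.leaf K d _) f5).mono ?_
    rintro x ⟨n, g1, g2, g3, -, hB⟩
    have r2 : red (fun j => x ((eS M (Fin (K - m)) (Fin (K - m)) (Fin m)).symm (Sum.inr j))) =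
        red (fun i => x (Sum.inl (Sum.inl i))) + red (fun i => x (Sum.inr (Sum.inl i))) :=
      red_sum _
    exact ⟨hB, fun h0 => by omega⟩
  -- X 3
  have f3 : Fo K d ((M ⊕ Fin (K - m)) ⊕ (Fin (K - m) ⊕ (Fin t ⊕ Fin (m - t))))
      (fun x => (fun i => x (Sum.inl (Sum.inl i))) ∉ T ∧
        (red (fun i => x (Sum.inl (Sum.inl i))) = d + 2 →
          red (fun i => x (Sum.inr (Sum.inl i))) = 0 ∧
          1 ≤ red (fun i => x (Sum.inl (Sum.inr i))) +
            red (fun i => x (Sum.inr (Sum.inr (Sum.inl i)))))) := by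
    have hA : Fo K d ((Fin (K - m) ⊕ (Fin t ⊕ Fin (m - t))) ⊕ (Fin (K - m) ⊕ Fin m))
        (fun x => ¬ ((red (fun i => x (Sum.inl (Sum.inl i))) +
          red (fun i => x (Sum.inr (Sum.inl i)))) +
          red (fun i => x (Sum.inl (Sum.inr (Sum.inl i)))) = 0)) := by
      refine (alive (L := 2 * (K - m) + t) ?_ ?_
        (e3 (Fin (K - m)) (Fin (K - m)) (Fin m) (Fin t) (Fin (m - t)))).mono ?_
      · simp only [Nat.card_sum, Nat.card_fin]; omega
      · simp only [Nat.card_sum, Nat.card_fin]; omega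
      · intro x hx h0
        have r : red (fun s => x ((e3 (Fin (K - m)) (Fin (K - m)) (Fin m) (Fin t)
            (Fin (m - t))) (Sum.inl s))) = (red (fun i => x (Sum.inl (Sum.inl i))) +
            red (fun i => x (Sum.inr (Sum.inl i)))) +
            red (fun i => x (Sum.inl (Sum.inr (Sum.inl i)))) :=
          (red_sum _).trans (congrArg (· + _) (red_sum _))
        apply hx
        rw [r, h0]
        exact h2
    refine (Fo.num cT cM cQ hK0
      (eS M (Fin (K - m)) (Fin (K - m)) (Fin t ⊕ Fin (m - t))) hA f4).mono ?_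
    rintro x ⟨n, g1, g2, g3, hA', hB1, hB2⟩
    have r2 : red (fun j => x ((eS M (Fin (K - m)) (Fin (K - m))
        (Fin t ⊕ Fin (m - t))).symm (Sum.inr j))) =
        red (fun i => x (Sum.inl (Sum.inl i))) + red (fun i => x (Sum.inr (Sum.inl i))) :=
      red_sum _
    have a1 : ¬ ((red (fun i => x (Sum.inl (Sum.inr i))) + red (fun i => n (Sum.inl i))) +
        red (fun i => x (Sum.inr (Sum.inr (Sum.inl i)))) = 0) := hA'
    have b2 : red (fun i => x (Sum.inl (Sum.inl i))) = d + 2 →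
        red (fun i => n (Sum.inl i)) = 0 := hB2
    refine ⟨hB1, fun h0 => ?_⟩
    have b3 := b2 h0
    omega
  -- X 2
  have f2 : Fo K d ((M ⊕ Fin (K - m)) ⊕ (Fin (K - m) ⊕ (Fin t ⊕ Fin (m - t))))
      (fun x => (fun i => x (Sum.inl (Sum.inl i))) ∉ T ∧
        (red (fun i => x (Sum.inl (Sum.inl i))) = d + 2 →
          red (fun i => x (Sum.inr (Sum.inl i))) = 0 ∧
          (red (fun i => x (Sum.inl (Sum.inr i))) = 0 →
            red (fun i => x (Sum.inr (Sum.inr (Sum.inl i)))) = 0))) := by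
    refine (Fo.num cT cM cT hK0
      (eS M (Fin (K - m)) (Fin (K - m)) (Fin t ⊕ Fin (m - t)))
      (test2 ht htm hmK hs hK0 h2 h3) f3).mono ?_
    rintro x ⟨n, g1, g2, g3, hA', hB1, hB2⟩
    have r2 : red (fun j => x ((eS M (Fin (K - m)) (Fin (K - m))
        (Fin t ⊕ Fin (m - t))).symm (Sum.inr j))) =
        red (fun i => x (Sum.inl (Sum.inl i))) + red (fun i => x (Sum.inr (Sum.inl i))) :=
      red_sum _
    have a1 : ¬ (red (fun i => x (Sum.inl (Sum.inr i))) = 0 ∧ red (fun i => n (Sum.inl i)) = 0 ∧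
        1 ≤ red (fun i => x (Sum.inr (Sum.inr (Sum.inl i)))) ∧
        1 ≤ red (fun i => n (Sum.inr (Sum.inl i)))) := hA'
    have b2 : red (fun i => x (Sum.inl (Sum.inl i))) = d + 2 →
        red (fun i => n (Sum.inl i)) = 0 ∧
        1 ≤ red (fun i => x (Sum.inr (Sum.inl i))) + red (fun i => n (Sum.inr (Sum.inl i))) := hB2
    refine ⟨hB1, fun h0 => ?_⟩
    have b3 := b2 h0
    have b4 : red (fun i => x (Sum.inr (Sum.inl i))) = 0 := by omega
    refine ⟨b4, fun h5 => ?_⟩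
    by_contra hcon
    exact a1 ⟨h5, b3.1, by omega, by omega⟩
  -- X 1
  have f1 : Fo K d ((M ⊕ Fin (K - m)) ⊕ (Fin (K - m) ⊕ Fin m))
      (fun x => (fun i => x (Sum.inl (Sum.inl i))) ∉ T ∧
        (red (fun i => x (Sum.inl (Sum.inl i))) = d + 2 →
          1 ≤ red (fun i => x (Sum.inl (Sum.inr i))))) := by
    have hA : Fo K d ((Fin (K - m) ⊕ Fin m) ⊕ (Fin (K - m) ⊕ (Fin t ⊕ Fin (m - t))))
        (fun x => ¬ ((red (fun i => x (Sum.inl (Sum.inl i))) +
          red (fun i => x (Sum.inr (Sum.inl i)))) +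
          red (fun i => x (Sum.inr (Sum.inr (Sum.inl i)))) = 0)) := by
      refine (alive (L := 2 * (K - m) + t) ?_ ?_
        (e1 (Fin (K - m)) (Fin (K - m)) (Fin m) (Fin t) (Fin (m - t)))).mono ?_
      · simp only [Nat.card_sum, Nat.card_fin]; omega
      · simp only [Nat.card_sum, Nat.card_fin]; omega
      · intro x hx h0
        have r : red (fun s => x ((e1 (Fin (K - m)) (Fin (K - m)) (Fin m) (Fin t)
            (Fin (m - t))) (Sum.inl s))) = (red (fun i => x (Sum.inl (Sum.inl i))) +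
            red (fun i => x (Sum.inr (Sum.inl i)))) +
            red (fun i => x (Sum.inr (Sum.inr (Sum.inl i)))) :=
          (red_sum _).trans (congrArg (· + _) (red_sum _))
        apply hx
        rw [r, h0]
        exact h2
    refine (Fo.num cQ cM cT hK0 (eS M (Fin (K - m)) (Fin (K - m)) (Fin m)) hA f2).mono ?_
    rintro x ⟨n, g1, g2, g3, hA', hB1, hB2⟩
    have r2 : red (fun j => x ((eS M (Fin (K - m)) (Fin (K - m)) (Fin m)).symm (Sum.inr j))) =
        red (fun i => x (Sum.inl (Sum.inl i))) + red (fun i => x (Sum.inr (Sum.inl i))) :=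
      red_sum _
    have a1 : ¬ ((red (fun i => x (Sum.inl (Sum.inr i))) + red (fun i => n (Sum.inl i))) +
        red (fun i => n (Sum.inr (Sum.inl i))) = 0) := hA'
    have b2 : red (fun i => x (Sum.inl (Sum.inl i))) = d + 2 →
        red (fun i => n (Sum.inl i)) = 0 ∧ (red (fun i => x (Sum.inr (Sum.inl i))) = 0 →
          red (fun i => n (Sum.inr (Sum.inl i))) = 0) := hB2
    refine ⟨hB1, fun h0 => ?_⟩
    have b3 := b2 h0
    omega
  -- X 0
  have f0 : Fo K d ((M ⊕ Fin (K - m)) ⊕ (Fin (K - m) ⊕ Fin m))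
      (fun x => (fun i => x (Sum.inl (Sum.inl i))) ∉ T ∧
        red (fun i => x (Sum.inl (Sum.inl i))) ≠ d + 2) := by
    refine (Fo.num cQ cM cQ hK0 (eS M (Fin (K - m)) (Fin (K - m)) (Fin m))
      (Fo.leaf K d _) f1).mono ?_
    rintro x ⟨n, g1, g2, g3, -, hB1, hB2⟩
    have r2 : red (fun j => x ((eS M (Fin (K - m)) (Fin (K - m)) (Fin m)).symm (Sum.inr j))) =
        red (fun i => x (Sum.inl (Sum.inl i))) + red (fun i => x (Sum.inr (Sum.inl i))) :=
      red_sum _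
    have b2 : red (fun i => x (Sum.inl (Sum.inl i))) = d + 2 →
        1 ≤ red (fun i => x (Sum.inr (Sum.inl i))) := hB2
    refine ⟨hB1, fun h0 => ?_⟩
    have b3 := b2 h0
    omega
  have f : Kill K (2 * d + 1) (2 * d + 3) (M ⊕ (Fin (K - m) ⊕ (Fin (K - m) ⊕ Fin m)))
      {x | (fun i => x (Sum.inl i)) ∈ {y : M → Bool | y ∈ T ∨ red y = d + 2}} := by
    refine Kill.mono (Kill.transport f0 (Equiv.sumAssoc M (Fin (K - m)) (Fin (K - m) ⊕ Fin m)))
      fun x hx => ?_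
    intro hcon
    rcases hx with hx | hx
    · exact hcon.1 hx
    · exact hcon.2 hx
  refine kill_rest ?_ f
  simp only [Nat.card_sum, Nat.card_fin]
  omega

end Pool.Agent.Lib.MP_21a058_co.Slack3.G41
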