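import Pool.Agent.Lib.MP_21a058_co.Slack3.Arith

/-! The main step: an alive set of `K - 2` edges cannot be all blue (`K` even, `K ≥ 28`, window
`3 ≤ red ≤ 5`). -/

set_option autoImplicit false

namespace Pool.Agent.Lib.MP_21a058_co.Slack3.H6

open Pool.Agent.Lib.MP_21a058_co.Odd (red red_sum red_equiv red_le)
open Pool.Agent.Lib.MP_21a058_co.Slack3

/-- Some structure over `I` forces `A` on every good colouring. -/
def Fo (K l u : ℕ) (I : Type) (A : (I → Bool) → Prop) : Prop := Kill K l u I {x | ¬ A x}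

theorem Fo.mono {K l u : ℕ} {I : Type} {A B : (I → Bool) → Prop} (h : Fo K l u I A)
    (hAB : ∀ x, A x → B x) : Fo K l u I B :=
  Kill.mono h fun _ hx hA => hx (hAB _ hA)

theorem Fo.transport {K l u : ℕ} {I J : Type} {A : (I → Bool) → Prop} (h : Fo K l u I A)
    (e : I ≃ J) : Fo K l u J (fun y => A (fun i => y (e i))) :=
  Kill.transport h e

theorem Fo.leaf (K l u : ℕ) (I : Type) : Fo K l u I (fun x => l ≤ red x ∧ red x ≤ u) := by
  refine Kill.leaf I _ fun x hx => ?_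
  have hx' : ¬ (l ≤ red x ∧ red x ≤ u) := hx
  omega

theorem Fo.info {K l u : ℕ} {I : Type} {A : (I → Bool) → Prop} (h : Fo K l u I A) :
    Fo K l u I (fun x => (l ≤ red x ∧ red x ≤ u) ∧ A x) := by
  refine Kill.mono (Kill.addBase h) fun x hx => ?_
  have hx' : ¬ ((l ≤ red x ∧ red x ≤ u) ∧ A x) := hx
  show ¬ A x ∨ (red x < l ∨ u < red x)
  by_cases hA : A x
  · right
    by_contra hc
    exact hx' ⟨by omega, hA⟩
  · exact Or.inl hA

theorem Fo.node {K l u : ℕ} {I J1 J2 N : Type} [Finite N] (h1 : Nat.card J1 = K)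
    (h2 : Nat.card J2 = K) (h3 : Nat.card N = K) (e : I ≃ J1 ⊕ J2)
    {A : (J1 ⊕ N → Bool) → Prop} {B : (J2 ⊕ N → Bool) → Prop}
    (hA : Fo K l u (J1 ⊕ N) A) (hB : Fo K l u (J2 ⊕ N) B) :
    Fo K l u I (fun x => (l ≤ red x ∧ red x ≤ u) ∧ ∃ n : N → Bool,
      ((l ≤ red (Sum.elim (fun j => x (e.symm (Sum.inl j))) n) ∧
        red (Sum.elim (fun j => x (e.symm (Sum.inl j))) n) ≤ u) ∧
        A (Sum.elim (fun j => x (e.symm (Sum.inl j))) n)) ∧
      ((l ≤ red (Sum.elim (fun j => x (e.symm (Sum.inr j))) n) ∧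
        red (Sum.elim (fun j => x (e.symm (Sum.inr j))) n) ≤ u) ∧
        B (Sum.elim (fun j => x (e.symm (Sum.inr j))) n))) := by
  obtain ⟨eN⟩ : Nonempty (N ≃ Fin K) := ⟨Finite.equivFinOfCardEq h3⟩
  have kA := hA.info.transport (Equiv.sumCongr (Equiv.refl J1) eN)
  have kB := hB.info.transport (Equiv.sumCongr (Equiv.refl J2) eN)
  refine Kill.node I J1 J2 h1 h2 e _ _ _ kA kB fun x hx => ?_
  by_cases hg : l ≤ red x ∧ red x ≤ u
  · right
    intro n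
    by_contra hcon
    obtain ⟨c1, c2⟩ := not_or.1 hcon
    refine hx ⟨hg, fun i => n (eN i), ?_, ?_⟩
    · have c3 := Classical.not_not.1 c1
      have : (fun i => (Sum.elim (fun j => x (e.symm (Sum.inl j))) n : J1 ⊕ Fin K → Bool)
          ((Equiv.sumCongr (Equiv.refl J1) eN) i)) =
          Sum.elim (fun j => x (e.symm (Sum.inl j))) fun i => n (eN i) := by
        funext i
        rcases i with i | i <;> rfl
      beta_reduce at c3
      rw [this] at c3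
      exact c3
    · have c3 := Classical.not_not.1 c2
      have : (fun i => (Sum.elim (fun j => x (e.symm (Sum.inr j))) n : J2 ⊕ Fin K → Bool)
          ((Equiv.sumCongr (Equiv.refl J2) eN) i)) =
          Sum.elim (fun j => x (e.symm (Sum.inr j))) fun i => n (eN i) := by
        funext i
        rcases i with i | i <;> rfl
      beta_reduce at c3
      rw [this] at c3
      exact c3
  · left
    omega

/-- The node rule in numbers. -/
theorem Fo.num {K l u : ℕ} {I J1 J2 N : Type} [Finite I] [Finite J1] [Finite J2] [Finite N]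
    (h1 : Nat.card J1 = K)
    (h2 : Nat.card J2 = K) (h3 : Nat.card N = K) (e : I ≃ J1 ⊕ J2)
    {A : (J1 ⊕ N → Bool) → Prop} {B : (J2 ⊕ N → Bool) → Prop}
    (hA : Fo K l u (J1 ⊕ N) A) (hB : Fo K l u (J2 ⊕ N) B) :
    Fo K l u I (fun x => ∃ n : N → Bool,
      (l ≤ red (fun j => x (e.symm (Sum.inl j))) + red (fun j => x (e.symm (Sum.inr j))) ∧
        red (fun j => x (e.symm (Sum.inl j))) + red (fun j => x (e.symm (Sum.inr j))) ≤ u) ∧
      (l ≤ red (fun j => x (e.symm (Sum.inl j))) + red n ∧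
        red (fun j => x (e.symm (Sum.inl j))) + red n ≤ u) ∧
      (l ≤ red (fun j => x (e.symm (Sum.inr j))) + red n ∧
        red (fun j => x (e.symm (Sum.inr j))) + red n ≤ u) ∧
      A (Sum.elim (fun j => x (e.symm (Sum.inl j))) n) ∧
      B (Sum.elim (fun j => x (e.symm (Sum.inr j))) n)) := by
  refine (Fo.node h1 h2 h3 e hA hB).mono ?_
  rintro x ⟨g0, n, ⟨g1, hA'⟩, g2, hB'⟩
  have r0 : red x = red (fun j => x (e.symm (Sum.inl j))) +
      red (fun j => x (e.symm (Sum.inr j))) :=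
    (red_equiv e.symm x).symm.trans (red_sum _)
  have r1 : red (Sum.elim (fun j => x (e.symm (Sum.inl j))) n) =
      red (fun j => x (e.symm (Sum.inl j))) + red n := red_sum _
  have r2 : red (Sum.elim (fun j => x (e.symm (Sum.inr j))) n) =
      red (fun j => x (e.symm (Sum.inr j))) + red n := red_sum _
  exact ⟨n, by omega, by omega, by omega, hA', hB'⟩

/-- At most two red edges in an alive set of at most `K / 2` edges. -/
theorem alive {K : ℕ} (E R : Type) [Finite E] [Finite R] (hE : 2 * Nat.card E ≤ K)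
    (hR : Nat.card E + Nat.card R = 2 * K) :
    Fo K 3 5 (E ⊕ R) (fun x => red (fun i => x (Sum.inl i)) ≤ 2) := by
  have h := W_seq' (K := K) (l := 3) (u := 5) (L := Nat.card E) E R rfl hR ∅
    ((Kill.empty K 3 5 _).mono (by intro x hx; exact absurd hx (Set.notMem_empty _)))
  refine h.mono ?_
  intro x hx
  have hx' : ¬ red (fun i => x (Sum.inl i)) ≤ 2 := hx
  right
  by_cases h3 : red (fun i => x (Sum.inl i)) = 3
  · rw [h3]
    exact w_half3 hE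
  · exact w_ge4 (by omega) (by omega)

/-! ### the splittings -/

def eM (A B C D : Type) : (A ⊕ B) ⊕ (C ⊕ D) ≃ (B ⊕ D) ⊕ (A ⊕ C) where
  toFun p := match p with
    | Sum.inl (Sum.inl a) => Sum.inr (Sum.inl a)
    | Sum.inl (Sum.inr b) => Sum.inl (Sum.inl b)
    | Sum.inr (Sum.inl c) => Sum.inr (Sum.inr c)
    | Sum.inr (Sum.inr d) => Sum.inl (Sum.inr d)
  invFun p := match p with
    | Sum.inr (Sum.inl a) => Sum.inl (Sum.inl a)
    | Sum.inl (Sum.inl b) => Sum.inl (Sum.inr b)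
    | Sum.inr (Sum.inr c) => Sum.inr (Sum.inl c)
    | Sum.inl (Sum.inr d) => Sum.inr (Sum.inr d)
  left_inv := by rintro ((a | a) | (a | a)) <;> rfl
  right_inv := by rintro ((a | a) | (a | a)) <;> rfl

/-- alive set `C1 + C3 + Y` at `w_2` -/
def e2 (C1 Q1 C3 P Y Z : Type) :
    (C1 ⊕ (C3 ⊕ Y)) ⊕ (Q1 ⊕ (P ⊕ Z)) ≃ (C1 ⊕ Q1) ⊕ (C3 ⊕ (P ⊕ (Y ⊕ Z))) where
  toFun p := match p with
    | Sum.inl (Sum.inl a) => Sum.inl (Sum.inl a)
    | Sum.inl (Sum.inr (Sum.inl a)) => Sum.inr (Sum.inl a)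
    | Sum.inl (Sum.inr (Sum.inr a)) => Sum.inr (Sum.inr (Sum.inr (Sum.inl a)))
    | Sum.inr (Sum.inl a) => Sum.inl (Sum.inr a)
    | Sum.inr (Sum.inr (Sum.inl a)) => Sum.inr (Sum.inr (Sum.inl a))
    | Sum.inr (Sum.inr (Sum.inr a)) => Sum.inr (Sum.inr (Sum.inr (Sum.inr a)))
  invFun p := match p with
    | Sum.inl (Sum.inl a) => Sum.inl (Sum.inl a)
    | Sum.inr (Sum.inl a) => Sum.inl (Sum.inr (Sum.inl a))
    | Sum.inr (Sum.inr (Sum.inr (Sum.inl a))) => Sum.inl (Sum.inr (Sum.inr a))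
    | Sum.inl (Sum.inr a) => Sum.inr (Sum.inl a)
    | Sum.inr (Sum.inr (Sum.inl a)) => Sum.inr (Sum.inr (Sum.inl a))
    | Sum.inr (Sum.inr (Sum.inr (Sum.inr a))) => Sum.inr (Sum.inr (Sum.inr a))
  left_inv := by rintro ((a | (a | a)) | (a | (a | a))) <;> rfl
  right_inv := by rintro ((a | a) | (a | (a | (a | a)))) <;> rfl

/-- alive set `C3 + C5 + X` at `w_4` -/
def e4 (C3 U X V C5 Q4 : Type) :
    (C3 ⊕ (C5 ⊕ X)) ⊕ ((U ⊕ V) ⊕ Q4) ≃ (C3 ⊕ (U ⊕ (X ⊕ V))) ⊕ (C5 ⊕ Q4) where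
  toFun p := match p with
    | Sum.inl (Sum.inl a) => Sum.inl (Sum.inl a)
    | Sum.inl (Sum.inr (Sum.inl a)) => Sum.inr (Sum.inl a)
    | Sum.inl (Sum.inr (Sum.inr a)) => Sum.inl (Sum.inr (Sum.inr (Sum.inl a)))
    | Sum.inr (Sum.inl (Sum.inl a)) => Sum.inl (Sum.inr (Sum.inl a))
    | Sum.inr (Sum.inl (Sum.inr a)) => Sum.inl (Sum.inr (Sum.inr (Sum.inr a)))
    | Sum.inr (Sum.inr a) => Sum.inr (Sum.inr a)
  invFun p := match p with
    | Sum.inl (Sum.inl a) => Sum.inl (Sum.inl a)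
    | Sum.inr (Sum.inl a) => Sum.inl (Sum.inr (Sum.inl a))
    | Sum.inl (Sum.inr (Sum.inr (Sum.inl a))) => Sum.inl (Sum.inr (Sum.inr a))
    | Sum.inl (Sum.inr (Sum.inl a)) => Sum.inr (Sum.inl (Sum.inl a))
    | Sum.inl (Sum.inr (Sum.inr (Sum.inr a))) => Sum.inr (Sum.inl (Sum.inr a))
    | Sum.inr (Sum.inr a) => Sum.inr (Sum.inr a)
  left_inv := by rintro ((a | (a | a)) | ((a | a) | a)) <;> rfl
  right_inv := by rintro ((a | (a | (a | a))) | (a | a)) <;> rfl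

/-- the splitting at `w_3` -/
def e3 (C2 P Y Z C4 U X V : Type) :
    (C2 ⊕ (P ⊕ (Y ⊕ Z))) ⊕ (C4 ⊕ (U ⊕ (X ⊕ V))) ≃
      ((C2 ⊕ C4) ⊕ ((P ⊕ Z) ⊕ U)) ⊕ (Y ⊕ (X ⊕ V)) where
  toFun p := match p with
    | Sum.inl (Sum.inl a) => Sum.inl (Sum.inl (Sum.inl a))
    | Sum.inl (Sum.inr (Sum.inl a)) => Sum.inl (Sum.inr (Sum.inl (Sum.inl a)))
    | Sum.inl (Sum.inr (Sum.inr (Sum.inl a))) => Sum.inr (Sum.inl a)
    | Sum.inl (Sum.inr (Sum.inr (Sum.inr a))) => Sum.inl (Sum.inr (Sum.inl (Sum.inr a)))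
    | Sum.inr (Sum.inl a) => Sum.inl (Sum.inl (Sum.inr a))
    | Sum.inr (Sum.inr (Sum.inl a)) => Sum.inl (Sum.inr (Sum.inr a))
    | Sum.inr (Sum.inr (Sum.inr (Sum.inl a))) => Sum.inr (Sum.inr (Sum.inl a))
    | Sum.inr (Sum.inr (Sum.inr (Sum.inr a))) => Sum.inr (Sum.inr (Sum.inr a))
  invFun p := match p with
    | Sum.inl (Sum.inl (Sum.inl a)) => Sum.inl (Sum.inl a)
    | Sum.inl (Sum.inr (Sum.inl (Sum.inl a))) => Sum.inl (Sum.inr (Sum.inl a))
    | Sum.inr (Sum.inl a) => Sum.inl (Sum.inr (Sum.inr (Sum.inl a)))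
    | Sum.inl (Sum.inr (Sum.inl (Sum.inr a))) => Sum.inl (Sum.inr (Sum.inr (Sum.inr a)))
    | Sum.inl (Sum.inl (Sum.inr a)) => Sum.inr (Sum.inl a)
    | Sum.inl (Sum.inr (Sum.inr a)) => Sum.inr (Sum.inr (Sum.inl a))
    | Sum.inr (Sum.inr (Sum.inl a)) => Sum.inr (Sum.inr (Sum.inr (Sum.inl a)))
    | Sum.inr (Sum.inr (Sum.inr a)) => Sum.inr (Sum.inr (Sum.inr (Sum.inr a)))
  left_inv := by rintro ((a | (a | (a | a))) | (a | (a | (a | a)))) <;> rfl
  right_inv := by rintro (((a | a) | ((a | a) | a)) | (a | (a | a))) <;> rfl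

/-- the splitting of the first child of `w_3` -/
def eG1 (C2 C4 P Z U N2 N3 : Type) :
    ((C2 ⊕ C4) ⊕ ((P ⊕ Z) ⊕ U)) ⊕ (N2 ⊕ N3) ≃
      ((P ⊕ (C2 ⊕ C4)) ⊕ (Z ⊕ N2)) ⊕ (U ⊕ N3) where
  toFun p := match p with
    | Sum.inl (Sum.inl a) => Sum.inl (Sum.inl (Sum.inr a))
    | Sum.inl (Sum.inr (Sum.inl (Sum.inl a))) => Sum.inl (Sum.inl (Sum.inl a))
    | Sum.inl (Sum.inr (Sum.inl (Sum.inr a))) => Sum.inl (Sum.inr (Sum.inl a))
    | Sum.inl (Sum.inr (Sum.inr a)) => Sum.inr (Sum.inl a)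
    | Sum.inr (Sum.inl a) => Sum.inl (Sum.inr (Sum.inr a))
    | Sum.inr (Sum.inr a) => Sum.inr (Sum.inr a)
  invFun p := match p with
    | Sum.inl (Sum.inl (Sum.inr a)) => Sum.inl (Sum.inl a)
    | Sum.inl (Sum.inl (Sum.inl a)) => Sum.inl (Sum.inr (Sum.inl (Sum.inl a)))
    | Sum.inl (Sum.inr (Sum.inl a)) => Sum.inl (Sum.inr (Sum.inl (Sum.inr a)))
    | Sum.inr (Sum.inl a) => Sum.inl (Sum.inr (Sum.inr a))
    | Sum.inl (Sum.inr (Sum.inr a)) => Sum.inr (Sum.inl a)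
    | Sum.inr (Sum.inr a) => Sum.inr (Sum.inr a)
  left_inv := by rintro ((a | ((a | a) | a)) | (a | a)) <;> rfl
  right_inv := by rintro (((a | a) | (a | a)) | (a | a)) <;> rfl

/-- the splitting of the second child of `w_3` -/
def eG2 (Y X V N2 N3 : Type) :
    (Y ⊕ (X ⊕ V)) ⊕ (N2 ⊕ N3) ≃ (Y ⊕ (X ⊕ N2)) ⊕ (V ⊕ N3) where
  toFun p := match p with
    | Sum.inl (Sum.inl a) => Sum.inl (Sum.inl a)
    | Sum.inl (Sum.inr (Sum.inl a)) => Sum.inl (Sum.inr (Sum.inl a))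
    | Sum.inl (Sum.inr (Sum.inr a)) => Sum.inr (Sum.inl a)
    | Sum.inr (Sum.inl a) => Sum.inl (Sum.inr (Sum.inr a))
    | Sum.inr (Sum.inr a) => Sum.inr (Sum.inr a)
  invFun p := match p with
    | Sum.inl (Sum.inl a) => Sum.inl (Sum.inl a)
    | Sum.inl (Sum.inr (Sum.inl a)) => Sum.inl (Sum.inr (Sum.inl a))
    | Sum.inr (Sum.inl a) => Sum.inl (Sum.inr (Sum.inr a))
    | Sum.inl (Sum.inr (Sum.inr a)) => Sum.inr (Sum.inl a)
    | Sum.inr (Sum.inr a) => Sum.inr (Sum.inr a)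
  left_inv := by rintro ((a | (a | a)) | (a | a)) <;> rfl
  right_inv := by rintro ((a | (a | a)) | (a | a)) <;> rfl

/-! ### the tests -/

/-- the test at `w_2` -/
theorem test2 {K : ℕ} (C1 Q1 C3 P Y Z : Type) [Finite C1] [Finite Q1] [Finite C3] [Finite P]
    [Finite Y] [Finite Z] (hE : 2 * (Nat.card C1 + (Nat.card C3 + Nat.card Y)) ≤ K)
    (hS : Nat.card C1 + Nat.card Q1 + (Nat.card C3 + (Nat.card P + (Nat.card Y + Nat.card Z))) =
      2 * K) :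
    Fo K 3 5 ((C1 ⊕ Q1) ⊕ (C3 ⊕ (P ⊕ (Y ⊕ Z)))) (fun x =>
      red (fun i => x (Sum.inl (Sum.inl i))) + (red (fun i => x (Sum.inr (Sum.inl i))) +
        red (fun i => x (Sum.inr (Sum.inr (Sum.inr (Sum.inl i)))))) ≤ 2) := by
  have h := (alive (K := K) (C1 ⊕ (C3 ⊕ Y)) (Q1 ⊕ (P ⊕ Z)) (by
    rw [Nat.card_sum, Nat.card_sum]; exact hE) (by
    rw [Nat.card_sum, Nat.card_sum, Nat.card_sum, Nat.card_sum]; omega)).transport
    (e2 C1 Q1 C3 P Y Z)
  refine h.mono fun x hx => ?_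
  beta_reduce at hx
  rw [red_sum, red_sum] at hx
  exact hx

/-- the test at `w_4` -/
theorem test4 {K : ℕ} (C3 U X V C5 Q4 : Type) [Finite C3] [Finite U] [Finite X] [Finite V]
    [Finite C5] [Finite Q4] (hE : 2 * (Nat.card C3 + (Nat.card C5 + Nat.card X)) ≤ K)
    (hS : Nat.card C3 + (Nat.card U + (Nat.card X + Nat.card V)) + (Nat.card C5 + Nat.card Q4) =
      2 * K) :
    Fo K 3 5 ((C3 ⊕ (U ⊕ (X ⊕ V))) ⊕ (C5 ⊕ Q4)) (fun x =>
      red (fun i => x (Sum.inl (Sum.inl i))) + (red (fun i => x (Sum.inr (Sum.inl i))) +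
        red (fun i => x (Sum.inl (Sum.inr (Sum.inr (Sum.inl i)))))) ≤ 2) := by
  have h := (alive (K := K) (C3 ⊕ (C5 ⊕ X)) ((U ⊕ V) ⊕ Q4) (by
    rw [Nat.card_sum, Nat.card_sum]; exact hE) (by
    rw [Nat.card_sum, Nat.card_sum, Nat.card_sum, Nat.card_sum]; omega)).transport
    (e4 C3 U X V C5 Q4)
  refine h.mono fun x hx => ?_
  beta_reduce at hx
  rw [red_sum, red_sum] at hx
  exact hx

/-- the test at the first child of `w_3` -/
theorem testG1 {K : ℕ} (C2 C4 P Z U N2 N3 : Type) [Finite C2] [Finite C4] [Finite P] [Finite Z]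
    [Finite U] [Finite N2] [Finite N3]
    (hE : 2 * (Nat.card P + (Nat.card C2 + Nat.card C4)) ≤ K)
    (h1 : Nat.card P + (Nat.card C2 + Nat.card C4) + (Nat.card Z + Nat.card N2) = K)
    (h2 : Nat.card U + Nat.card N3 = K) :
    Fo K 3 5 (((C2 ⊕ C4) ⊕ ((P ⊕ Z) ⊕ U)) ⊕ (N2 ⊕ N3)) (fun x =>
      red (fun i => x (Sum.inl (Sum.inr (Sum.inl (Sum.inl i))))) +
        (red (fun i => x (Sum.inl (Sum.inl (Sum.inl i)))) +
          red (fun i => x (Sum.inl (Sum.inl (Sum.inr i))))) ≤ 2 ∧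
      red (fun i => x (Sum.inl (Sum.inr (Sum.inl (Sum.inl i))))) +
        (red (fun i => x (Sum.inl (Sum.inl (Sum.inl i)))) +
          red (fun i => x (Sum.inl (Sum.inl (Sum.inr i))))) +
        (red (fun i => x (Sum.inl (Sum.inr (Sum.inl (Sum.inr i))))) +
          red (fun i => x (Sum.inr (Sum.inl i)))) ≤ 3) := by
  have hA := (alive (K := K) (P ⊕ (C2 ⊕ C4)) ((Z ⊕ N2) ⊕ Fin K) (by
    rw [Nat.card_sum, Nat.card_sum]; exact hE) (by
    rw [Nat.card_sum, Nat.card_sum, Nat.card_sum, Nat.card_sum, Nat.card_fin]; omega)).transport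
    (Equiv.sumAssoc (P ⊕ (C2 ⊕ C4)) (Z ⊕ N2) (Fin K)).symm
  have hB := Fo.leaf K 3 5 ((U ⊕ N3) ⊕ Fin K)
  refine (Fo.num (by
    rw [Nat.card_sum, Nat.card_sum, Nat.card_sum, Nat.card_sum]; exact h1) (by
    rw [Nat.card_sum]; exact h2) (Nat.card_fin K) (eG1 C2 C4 P Z U N2 N3) hA hB).mono ?_
  rintro x ⟨n, g0, g1, g2, hA', -⟩
  beta_reduce at hA'
  have r1 : red (fun i : P ⊕ (C2 ⊕ C4) => x ((eG1 C2 C4 P Z U N2 N3).symm
      (Sum.inl (Sum.inl i)))) =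
      red (fun i => x (Sum.inl (Sum.inr (Sum.inl (Sum.inl i))))) +
        (red (fun i => x (Sum.inl (Sum.inl (Sum.inl i)))) +
          red (fun i => x (Sum.inl (Sum.inl (Sum.inr i))))) := by
    rw [red_sum, red_sum]
    rfl
  have r2 : red (fun i => x ((eG1 C2 C4 P Z U N2 N3).symm (Sum.inl i))) =
      red (fun i => x (Sum.inl (Sum.inr (Sum.inl (Sum.inl i))))) +
        (red (fun i => x (Sum.inl (Sum.inl (Sum.inl i)))) +
          red (fun i => x (Sum.inl (Sum.inl (Sum.inr i))))) +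
        (red (fun i => x (Sum.inl (Sum.inr (Sum.inl (Sum.inr i))))) +
          red (fun i => x (Sum.inr (Sum.inl i)))) := by
    rw [red_sum, r1, red_sum]
    rfl
  have hA2 : red (fun i : P ⊕ (C2 ⊕ C4) => x ((eG1 C2 C4 P Z U N2 N3).symm
      (Sum.inl (Sum.inl i)))) ≤ 2 := hA'
  refine ⟨by omega, by omega⟩

/-- the test at the second child of `w_3` -/
theorem testG2 {K : ℕ} (Y X V N2 N3 : Type) [Finite Y] [Finite X] [Finite V] [Finite N2]
    [Finite N3] (h1 : Nat.card Y + (Nat.card X + Nat.card N2) = K)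
    (h2 : Nat.card V + Nat.card N3 = K) :
    Fo K 3 5 ((Y ⊕ (X ⊕ V)) ⊕ (N2 ⊕ N3)) (fun x =>
      1 ≤ red (fun i => x (Sum.inl (Sum.inl i))) +
        (red (fun i => x (Sum.inl (Sum.inr (Sum.inl i)))) +
          red (fun i => x (Sum.inr (Sum.inl i))))) := by
  refine (Fo.num (by rw [Nat.card_sum, Nat.card_sum]; exact h1) (by
    rw [Nat.card_sum]; exact h2) (Nat.card_fin K) (eG2 Y X V N2 N3)
    (Fo.leaf K 3 5 ((Y ⊕ (X ⊕ N2)) ⊕ Fin K)) (Fo.leaf K 3 5 ((V ⊕ N3) ⊕ Fin K))).mono ?_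
  rintro x ⟨n, g0, g1, g2, -, -⟩
  have r1 : red (fun i => x ((eG2 Y X V N2 N3).symm (Sum.inl i))) =
      red (fun i => x (Sum.inl (Sum.inl i))) +
        (red (fun i => x (Sum.inl (Sum.inr (Sum.inl i)))) +
          red (fun i => x (Sum.inr (Sum.inl i)))) := by
    rw [red_sum, red_sum]
    rfl
  omega

/-- the test at `w_3` -/
theorem test3 {K : ℕ} (C2 P Y Z C4 U X V N2 N3 : Type) [Finite C2] [Finite P] [Finite Y]
    [Finite Z] [Finite C4] [Finite U] [Finite X] [Finite V] [Finite N2] [Finite N3]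
    (hE : 2 * (Nat.card P + (Nat.card C2 + Nat.card C4)) ≤ K)
    (hG1 : Nat.card P + (Nat.card C2 + Nat.card C4) + (Nat.card Z + Nat.card N2) = K)
    (hG1' : Nat.card U + Nat.card N3 = K)
    (hG2 : Nat.card Y + (Nat.card X + Nat.card N2) = K)
    (hG2' : Nat.card V + Nat.card N3 = K)
    (hJ1 : Nat.card C2 + Nat.card C4 + (Nat.card P + Nat.card Z + Nat.card U) = K)
    (hJ2 : Nat.card Y + (Nat.card X + Nat.card V) = K)
    (hN : Nat.card N2 + Nat.card N3 = K) :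
    Fo K 3 5 ((C2 ⊕ (P ⊕ (Y ⊕ Z))) ⊕ (C4 ⊕ (U ⊕ (X ⊕ V)))) (fun x => ∃ m : ℕ,
      red (fun i => x (Sum.inl (Sum.inr (Sum.inl i)))) +
        (red (fun i => x (Sum.inl (Sum.inl i))) + red (fun i => x (Sum.inr (Sum.inl i)))) ≤ 2 ∧
      red (fun i => x (Sum.inl (Sum.inr (Sum.inl i)))) +
        (red (fun i => x (Sum.inl (Sum.inl i))) + red (fun i => x (Sum.inr (Sum.inl i)))) +
        (red (fun i => x (Sum.inl (Sum.inr (Sum.inr (Sum.inr i))))) + m) ≤ 3 ∧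
      1 ≤ red (fun i => x (Sum.inl (Sum.inr (Sum.inr (Sum.inl i))))) +
        (red (fun i => x (Sum.inr (Sum.inr (Sum.inr (Sum.inl i))))) + m)) := by
  refine (Fo.num (by
    rw [Nat.card_sum, Nat.card_sum, Nat.card_sum, Nat.card_sum]; exact hJ1) (by
    rw [Nat.card_sum, Nat.card_sum]; exact hJ2) (by rw [Nat.card_sum]; exact hN)
    (e3 C2 P Y Z C4 U X V) (testG1 C2 C4 P Z U N2 N3 hE hG1 hG1')
    (testG2 Y X V N2 N3 hG2 hG2')).mono ?_
  rintro x ⟨n, -, -, -, ⟨hA1, hA2⟩, hB⟩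
  exact ⟨red (fun i => n (Sum.inl i)), hA1, hA2, hB⟩

/-- the chain `w_1, ..., w_5` -/
theorem chain {K : ℕ} (F C Q P Y Z U X V N2 N3 : Type) [Finite F] [Finite C] [Finite Q]
    [Finite P] [Finite Y] [Finite Z] [Finite U] [Finite X] [Finite V] [Finite N2] [Finite N3]
    (hF : Nat.card F + Nat.card C = K) (hQ : Nat.card C + Nat.card Q = K)
    (hQ2 : Nat.card C + (Nat.card P + (Nat.card Y + Nat.card Z)) = K)
    (hQ3 : Nat.card C + (Nat.card U + (Nat.card X + Nat.card V)) = K)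
    (hE2 : 2 * (Nat.card C + (Nat.card C + Nat.card Y)) ≤ K)
    (hE4 : 2 * (Nat.card C + (Nat.card C + Nat.card X)) ≤ K)
    (hE : 2 * (Nat.card P + (Nat.card C + Nat.card C)) ≤ K)
    (hG1 : Nat.card P + (Nat.card C + Nat.card C) + (Nat.card Z + Nat.card N2) = K)
    (hG1' : Nat.card U + Nat.card N3 = K)
    (hG2 : Nat.card Y + (Nat.card X + Nat.card N2) = K)
    (hG2' : Nat.card V + Nat.card N3 = K)
    (hJ1 : Nat.card C + Nat.card C + (Nat.card P + Nat.card Z + Nat.card U) = K)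
    (hJ2 : Nat.card Y + (Nat.card X + Nat.card V) = K)
    (hN : Nat.card N2 + Nat.card N3 = K) (T : Set (F → Bool))
    (hT : Kill K 3 5 ((F ⊕ C) ⊕ (C ⊕ Q)) {x | (fun f => x (Sum.inl (Sum.inl f))) ∈ T}) :
    Kill K 3 5 ((F ⊕ C) ⊕ (C ⊕ Q)) {x | (fun f => x (Sum.inl (Sum.inl f))) ∈ T ∨
      red (fun f => x (Sum.inl (Sum.inl f))) = 0} := by
  have cFC : Nat.card (F ⊕ C) = K := by rw [Nat.card_sum]; exact hF
  have cCQ : Nat.card (C ⊕ Q) = K := by rw [Nat.card_sum]; exact hQ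
  have cQ2 : Nat.card (C ⊕ (P ⊕ (Y ⊕ Z))) = K := by
    rw [Nat.card_sum, Nat.card_sum, Nat.card_sum]; exact hQ2
  have cQ3 : Nat.card (C ⊕ (U ⊕ (X ⊕ V))) = K := by
    rw [Nat.card_sum, Nat.card_sum, Nat.card_sum]; exact hQ3
  have s5 : Fo K 3 5 ((F ⊕ C) ⊕ (C ⊕ Q)) (fun x => (fun f => x (Sum.inl (Sum.inl f))) ∉ T) := by
    refine Kill.mono hT fun x hx => ?_
    have hx' : ¬ ((fun f => x (Sum.inl (Sum.inl f))) ∉ T) := hx
    exact Classical.not_not.1 hx'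
  have s4 : Fo K 3 5 ((F ⊕ C) ⊕ (C ⊕ Q)) (fun x => (fun f => x (Sum.inl (Sum.inl f))) ∉ T ∧
      1 ≤ red (fun f => x (Sum.inl (Sum.inl f))) + red (fun i => x (Sum.inr (Sum.inl i)))) := by
    refine (Fo.num cCQ cFC cCQ (eM F C C Q) (Fo.leaf K 3 5 ((C ⊕ Q) ⊕ (C ⊕ Q))) s5).mono ?_
    rintro x ⟨n, g0, g1, g2, -, hB⟩
    have r1 : red (fun j => x ((eM F C C Q).symm (Sum.inr j))) =
        red (fun f => x (Sum.inl (Sum.inl f))) + red (fun i => x (Sum.inr (Sum.inl i))) := by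
      rw [red_sum]
      rfl
    exact ⟨hB, by omega⟩
  have s3 : Fo K 3 5 ((F ⊕ C) ⊕ (C ⊕ (U ⊕ (X ⊕ V)))) (fun x =>
      (fun f => x (Sum.inl (Sum.inl f))) ∉ T ∧
      1 ≤ red (fun f => x (Sum.inl (Sum.inl f))) + red (fun i => x (Sum.inr (Sum.inl i))) ∧
      (red (fun f => x (Sum.inl (Sum.inl f))) = 0 →
        red (fun i => x (Sum.inl (Sum.inr i))) +
          red (fun i => x (Sum.inr (Sum.inr (Sum.inr (Sum.inl i))))) ≤ 1)) := by
    refine (Fo.num cQ3 cFC cCQ (eM F C C (U ⊕ (X ⊕ V)))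
      (test4 C U X V C Q hE4 (by omega)) s4).mono ?_
    rintro x ⟨n, g0, g1, g2, hA, hB1, hB2⟩
    have r1 : red (fun j => x ((eM F C C (U ⊕ (X ⊕ V))).symm (Sum.inr j))) =
        red (fun f => x (Sum.inl (Sum.inl f))) + red (fun i => x (Sum.inr (Sum.inl i))) := by
      rw [red_sum]
      rfl
    have hA' : red (fun i => x (Sum.inl (Sum.inr i))) + (red (fun i => n (Sum.inl i)) +
        red (fun i => x (Sum.inr (Sum.inr (Sum.inr (Sum.inl i)))))) ≤ 2 := hA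
    have hB2' : 1 ≤ red (fun f => x (Sum.inl (Sum.inl f))) + red (fun i => n (Sum.inl i)) := hB2
    exact ⟨hB1, by omega, fun h0 => by omega⟩
  have s2 : Fo K 3 5 ((F ⊕ C) ⊕ (C ⊕ (P ⊕ (Y ⊕ Z)))) (fun x =>
      (fun f => x (Sum.inl (Sum.inl f))) ∉ T ∧
      (red (fun f => x (Sum.inl (Sum.inl f))) = 0 → 1 ≤ red (fun i => x (Sum.inl (Sum.inr i))) →
        1 ≤ red (fun i => x (Sum.inr (Sum.inl i))) ∧
        1 ≤ red (fun i => x (Sum.inr (Sum.inr (Sum.inr (Sum.inl i))))))) := by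
    refine (Fo.num cQ2 cFC cQ3 (eM F C C (P ⊕ (Y ⊕ Z)))
      (test3 C P Y Z C U X V N2 N3 hE hG1 hG1' hG2 hG2' hJ1 hJ2 hN) s3).mono ?_
    rintro x ⟨n, g0, g1, g2, ⟨m, hA1, hA2, hA3⟩, hB1, hB2, hB3⟩
    have r1 : red (fun j => x ((eM F C C (P ⊕ (Y ⊕ Z))).symm (Sum.inr j))) =
        red (fun f => x (Sum.inl (Sum.inl f))) + red (fun i => x (Sum.inr (Sum.inl i))) := by
      rw [red_sum]
      rfl
    have r2 : red (fun j => x ((eM F C C (P ⊕ (Y ⊕ Z))).symm (Sum.inl j))) =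
        red (fun i => x (Sum.inl (Sum.inr i))) +
          (red (fun i => x (Sum.inr (Sum.inr (Sum.inl i)))) +
          (red (fun i => x (Sum.inr (Sum.inr (Sum.inr (Sum.inl i))))) +
            red (fun i => x (Sum.inr (Sum.inr (Sum.inr (Sum.inr i))))))) := by
      rw [red_sum, red_sum, red_sum]
      rfl
    have hA1' : red (fun i => x (Sum.inr (Sum.inr (Sum.inl i)))) +
        (red (fun i => x (Sum.inl (Sum.inr i))) + red (fun i => n (Sum.inl i))) ≤ 2 := hA1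
    have hA2' : red (fun i => x (Sum.inr (Sum.inr (Sum.inl i)))) +
        (red (fun i => x (Sum.inl (Sum.inr i))) + red (fun i => n (Sum.inl i))) +
        (red (fun i => x (Sum.inr (Sum.inr (Sum.inr (Sum.inr i))))) + m) ≤ 3 := hA2
    have hA3' : 1 ≤ red (fun i => x (Sum.inr (Sum.inr (Sum.inr (Sum.inl i))))) +
        (red (fun i => n (Sum.inr (Sum.inr (Sum.inl i)))) + m) := hA3
    have hB2' : 1 ≤ red (fun f => x (Sum.inl (Sum.inl f))) + red (fun i => n (Sum.inl i)) := hB2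
    have hB3' : red (fun f => x (Sum.inl (Sum.inl f))) = 0 →
        red (fun i => x (Sum.inr (Sum.inl i))) +
          red (fun i => n (Sum.inr (Sum.inr (Sum.inl i)))) ≤ 1 := hB3
    refine ⟨hB1, fun h0 h1 => ?_⟩
    have h2 := hB3' h0
    constructor
    · omega
    · omega
  have s1 : Fo K 3 5 ((F ⊕ C) ⊕ (C ⊕ Q)) (fun x =>
      (fun f => x (Sum.inl (Sum.inl f))) ∉ T ∧
      (red (fun f => x (Sum.inl (Sum.inl f))) = 0 → red (fun i => x (Sum.inl (Sum.inr i))) = 0)) := by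
    refine (Fo.num cCQ cFC cQ2 (eM F C C Q) (test2 C Q C P Y Z hE2 (by omega)) s2).mono ?_
    rintro x ⟨n, g0, g1, g2, hA, hB1, hB2⟩
    have r1 : red (fun j => x ((eM F C C Q).symm (Sum.inr j))) =
        red (fun f => x (Sum.inl (Sum.inl f))) + red (fun i => x (Sum.inr (Sum.inl i))) := by
      rw [red_sum]
      rfl
    have hA' : red (fun i => x (Sum.inl (Sum.inr i))) + (red (fun i => n (Sum.inl i)) +
        red (fun i => n (Sum.inr (Sum.inr (Sum.inl i))))) ≤ 2 := hA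
    have hB2' : red (fun f => x (Sum.inl (Sum.inl f))) = 0 →
        1 ≤ red (fun i => x (Sum.inr (Sum.inl i))) →
        1 ≤ red (fun i => n (Sum.inl i)) ∧
        1 ≤ red (fun i => n (Sum.inr (Sum.inr (Sum.inl i)))) := hB2
    refine ⟨hB1, fun h0 => ?_⟩
    obtain ⟨h2, h3⟩ := hB2' h0 (by omega)
    omega
  have s0 : Fo K 3 5 ((F ⊕ C) ⊕ (C ⊕ Q)) (fun x =>
      (fun f => x (Sum.inl (Sum.inl f))) ∉ T ∧
      red (fun f => x (Sum.inl (Sum.inl f))) ≠ 0) := by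
    refine (Fo.num cCQ cFC cCQ (eM F C C Q) (Fo.leaf K 3 5 ((C ⊕ Q) ⊕ (C ⊕ Q))) s1).mono ?_
    rintro x ⟨n, g0, g1, g2, -, hB1, hB2⟩
    have r1 : red (fun j => x ((eM F C C Q).symm (Sum.inr j))) =
        red (fun f => x (Sum.inl (Sum.inl f))) + red (fun i => x (Sum.inr (Sum.inl i))) := by
      rw [red_sum]
      rfl
    have hB2' : red (fun f => x (Sum.inl (Sum.inl f))) = 0 →
        red (fun i => x (Sum.inr (Sum.inl i))) = 0 := hB2
    refine ⟨hB1, fun h0 => ?_⟩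
    have h2 := hB2' h0
    omega
  refine Kill.mono s0 fun x hx => ?_
  have hx' : (fun f => x (Sum.inl (Sum.inl f))) ∈ T ∨
      red (fun f => x (Sum.inl (Sum.inl f))) = 0 := hx
  show ¬ ((fun f => x (Sum.inl (Sum.inl f))) ∉ T ∧ red (fun f => x (Sum.inl (Sum.inl f))) ≠ 0)
  tauto

theorem main_g {g : ℕ} (hg : 8 ≤ g) : W (2 * g + 12) 3 5 (2 * g + 10) 0 := by
  intro F R _ _ hF hR T hT
  have hRc : Nat.card R = Nat.card (Fin 2 ⊕ (Fin 2 ⊕ Fin (2 * g + 10))) := by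
    rw [Nat.card_sum, Nat.card_sum, Nat.card_fin, Nat.card_fin]
    omega
  have k1 := (kill_rest hRc hT).transport
    (Equiv.sumAssoc F (Fin 2) (Fin 2 ⊕ Fin (2 * g + 10))).symm
  have k2 := chain (K := 2 * g + 12) F (Fin 2) (Fin (2 * g + 10)) (Fin 2) (Fin (g + 2))
    (Fin (g + 6)) (Fin g) (Fin 10) (Fin g) (Fin g) (Fin (g + 12))
    (by rw [hF, Nat.card_fin]) (by simp only [Nat.card_fin]; omega)
    (by simp only [Nat.card_fin]; omega) (by simp only [Nat.card_fin]; omega)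
    (by simp only [Nat.card_fin]; omega) (by simp only [Nat.card_fin]; omega)
    (by simp only [Nat.card_fin]; omega) (by simp only [Nat.card_fin]; omega)
    (by simp only [Nat.card_fin]; omega) (by simp only [Nat.card_fin]; omega)
    (by simp only [Nat.card_fin]; omega) (by simp only [Nat.card_fin]; omega)
    (by simp only [Nat.card_fin]; omega) (by simp only [Nat.card_fin]; omega) T k1
  have k3 := k2.transport (Equiv.sumAssoc F (Fin 2) (Fin 2 ⊕ Fin (2 * g + 10)))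
  have k4 : Kill (2 * g + 12) 3 5 (F ⊕ (Fin 2 ⊕ (Fin 2 ⊕ Fin (2 * g + 10))))
      {x | (fun f => x (Sum.inl f)) ∈ {y : F → Bool | y ∈ T ∨ red y = 0}} := k3
  exact kill_rest hRc.symm k4

/-- **Main lemma.** -/
theorem main {K : ℕ} (he : K % 2 = 0) (hK : 28 ≤ K) : W K 3 5 (K - 2) 0 := by
  obtain ⟨g, rfl⟩ : ∃ g, K = 2 * g + 12 := ⟨K / 2 - 6, by omega⟩
  have e : 2 * g + 12 - 2 = 2 * g + 10 := by omega
  rw [e]
  exact main_g (by omega)

end Pool.Agent.Lib.MP_21a058_co.Slack3.H6
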