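import Pool.Agent.Lib.MP_21a058_co.Slack3.Rule

/-! An alive set of `K - 2` edges is not all blue (window `3 .. 5`, `K = 2 h`, `14 ≤ h`). -/

set_option autoImplicit false

namespace Pool.Agent.Lib.MP_21a058_co.Slack3.Mn

open Pool.Agent.Lib.MP_21a058_co.Odd (red red_sum red_equiv red_le)

/-- Some structure over `I` forces `A` on every good colouring. -/
def Fo (K : ℕ) (I : Type) (A : (I → Bool) → Prop) : Prop := Kill K 3 5 I {x | ¬ A x}

theorem Fo.mono {K : ℕ} {I : Type} {A B : (I → Bool) → Prop} (h : Fo K I A)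
    (hAB : ∀ x, A x → B x) : Fo K I B :=
  Kill.mono h fun _ hx hA => hx (hAB _ hA)

theorem Fo.transport {K : ℕ} {I J : Type} {A : (I → Bool) → Prop} (h : Fo K I A)
    (e : I ≃ J) : Fo K J (fun y => A (fun i => y (e i))) :=
  Kill.transport h e

theorem Fo.leaf (K : ℕ) (I : Type) : Fo K I (fun _ => True) :=
  Kill.mono (Kill.empty K 3 5 I) fun _ hx => (hx trivial).elim

theorem Fo.info {K : ℕ} {I : Type} {A : (I → Bool) → Prop} (h : Fo K I A) :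
    Fo K I (fun x => (3 ≤ red x ∧ red x ≤ 5) ∧ A x) := by
  refine (Kill.addBase h).mono fun x hx => ?_
  by_cases hA : A x
  · right
    by_contra hcon
    exact hx ⟨⟨by omega, by omega⟩, hA⟩
  · exact Or.inl hA

/-- The node rule in numbers. -/
theorem Fo.num {K : ℕ} {I J1 J2 N : Type} [Finite I] [Finite J1] [Finite J2] [Finite N]
    (h1 : Nat.card J1 = K) (h2 : Nat.card J2 = K) (h3 : Nat.card N = K) (e : I ≃ J1 ⊕ J2)
    {A : (J1 ⊕ N → Bool) → Prop} {B : (J2 ⊕ N → Bool) → Prop}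
    (hA : Fo K (J1 ⊕ N) A) (hB : Fo K (J2 ⊕ N) B) :
    Fo K I (fun x => ∃ n : N → Bool,
      (3 ≤ red (fun j => x (e.symm (Sum.inl j))) + red (fun j => x (e.symm (Sum.inr j))) ∧
        red (fun j => x (e.symm (Sum.inl j))) + red (fun j => x (e.symm (Sum.inr j))) ≤ 5) ∧
      (3 ≤ red (fun j => x (e.symm (Sum.inl j))) + red n ∧
        red (fun j => x (e.symm (Sum.inl j))) + red n ≤ 5) ∧
      (3 ≤ red (fun j => x (e.symm (Sum.inr j))) + red n ∧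
        red (fun j => x (e.symm (Sum.inr j))) + red n ≤ 5) ∧
      A (Sum.elim (fun j => x (e.symm (Sum.inl j))) n) ∧
      B (Sum.elim (fun j => x (e.symm (Sum.inr j))) n)) := by
  obtain ⟨eN⟩ : Nonempty (N ≃ Fin K) := ⟨Finite.equivFinOfCardEq h3⟩
  have kA := hA.info.transport (Equiv.sumCongr (Equiv.refl J1) eN)
  have kB := hB.info.transport (Equiv.sumCongr (Equiv.refl J2) eN)
  refine Kill.node I J1 J2 h1 h2 e _ _ _ kA kB fun x hx => ?_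
  by_cases hg : red x < 3 ∨ 5 < red x
  · exact Or.inl hg
  right
  intro n
  by_contra hcon
  obtain ⟨c1, c2⟩ := not_or.1 hcon
  have r0 : red x = red (fun j => x (e.symm (Sum.inl j))) +
      red (fun j => x (e.symm (Sum.inr j))) :=
    (red_equiv e.symm x).symm.trans (red_sum _)
  have d1 : (fun i => (Sum.elim (fun j => x (e.symm (Sum.inl j))) n : J1 ⊕ Fin K → Bool)
      ((Equiv.sumCongr (Equiv.refl J1) eN) i)) =
      Sum.elim (fun j => x (e.symm (Sum.inl j))) fun i => n (eN i) := by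
    funext i
    rcases i with i | i <;> rfl
  have d2 : (fun i => (Sum.elim (fun j => x (e.symm (Sum.inr j))) n : J2 ⊕ Fin K → Bool)
      ((Equiv.sumCongr (Equiv.refl J2) eN) i)) =
      Sum.elim (fun j => x (e.symm (Sum.inr j))) fun i => n (eN i) := by
    funext i
    rcases i with i | i <;> rfl
  have c3 := Classical.not_not.1 c1
  have c4 := Classical.not_not.1 c2
  beta_reduce at c3 c4
  rw [d1] at c3
  rw [d2] at c4
  obtain ⟨p1, q1⟩ := c3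
  obtain ⟨p2, q2⟩ := c4
  have s1 : red (Sum.elim (fun j => x (e.symm (Sum.inl j))) fun i => n (eN i)) =
      red (fun j => x (e.symm (Sum.inl j))) + red (fun i => n (eN i)) := red_sum _
  have s2 : red (Sum.elim (fun j => x (e.symm (Sum.inr j))) fun i => n (eN i)) =
      red (fun j => x (e.symm (Sum.inr j))) + red (fun i => n (eN i)) := red_sum _
  rw [s1] at p1
  rw [s2] at p2
  exact hx ⟨fun i => n (eN i), ⟨by omega, by omega⟩, p1, p2, q1, q2⟩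

/-- At most two red edges in a small alive set. -/
theorem small {K h : ℕ} (hW : ∀ L p, L ≤ h → 3 ≤ p → W K 3 5 L p) {F R : Type} [Finite F]
    [Finite R] (hF : Nat.card F ≤ h) (hR : Nat.card F + Nat.card R = 2 * K) :
    Fo K (F ⊕ R) (fun x => red (fun f => x (Sum.inl f)) ≤ 2) := by
  refine (W_seq' (K := K) (l := 3) (u := 5) (L := Nat.card F) F R rfl hR ∅
    ((Kill.empty K 3 5 _).mono (by intro x hx; exact absurd hx (Set.notMem_empty _)))).mono ?_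
  intro x hx
  right
  have hx' : ¬ red (fun f => x (Sum.inl f)) ≤ 2 := hx
  exact hW _ _ hF (by omega)

def e2 (C Q A Y Z : Type) : ((C ⊕ Q) ⊕ (C ⊕ (A ⊕ (Y ⊕ Z)))) ≃ (((C ⊕ (C ⊕ Y)) ⊕ Z) ⊕ (A ⊕ Q)) where
  toFun p := match p with
    | Sum.inl (Sum.inl i) => Sum.inl (Sum.inl (Sum.inl i))
    | Sum.inl (Sum.inr i) => Sum.inr (Sum.inr i)
    | Sum.inr (Sum.inl i) => Sum.inl (Sum.inl (Sum.inr (Sum.inl i)))
    | Sum.inr (Sum.inr (Sum.inl i)) => Sum.inr (Sum.inl i)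
    | Sum.inr (Sum.inr (Sum.inr (Sum.inl i))) => Sum.inl (Sum.inl (Sum.inr (Sum.inr i)))
    | Sum.inr (Sum.inr (Sum.inr (Sum.inr i))) => Sum.inl (Sum.inr i)
  invFun p := match p with
    | Sum.inl (Sum.inl (Sum.inl i)) => Sum.inl (Sum.inl i)
    | Sum.inl (Sum.inl (Sum.inr (Sum.inl i))) => Sum.inr (Sum.inl i)
    | Sum.inl (Sum.inl (Sum.inr (Sum.inr i))) => Sum.inr (Sum.inr (Sum.inr (Sum.inl i)))
    | Sum.inl (Sum.inr i) => Sum.inr (Sum.inr (Sum.inr (Sum.inr i)))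
    | Sum.inr (Sum.inl i) => Sum.inr (Sum.inr (Sum.inl i))
    | Sum.inr (Sum.inr i) => Sum.inl (Sum.inr i)
  left_inv := by rintro ((i | i) | (i | (i | (i | i)))) <;> rfl
  right_inv := by rintro (((i | (i | i)) | i) | (i | i)) <;> rfl

def e3 (C A Y Z P X U : Type) : ((C ⊕ (A ⊕ (Y ⊕ Z))) ⊕ (C ⊕ (P ⊕ (X ⊕ U)))) ≃ ((((A ⊕ (C ⊕ C)) ⊕ Z) ⊕ P) ⊕ (Y ⊕ (X ⊕ U))) where
  toFun p := match p with
    | Sum.inl (Sum.inl i) => Sum.inl (Sum.inl (Sum.inl (Sum.inr (Sum.inl i))))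
    | Sum.inl (Sum.inr (Sum.inl i)) => Sum.inl (Sum.inl (Sum.inl (Sum.inl i)))
    | Sum.inl (Sum.inr (Sum.inr (Sum.inl i))) => Sum.inr (Sum.inl i)
    | Sum.inl (Sum.inr (Sum.inr (Sum.inr i))) => Sum.inl (Sum.inl (Sum.inr i))
    | Sum.inr (Sum.inl i) => Sum.inl (Sum.inl (Sum.inl (Sum.inr (Sum.inr i))))
    | Sum.inr (Sum.inr (Sum.inl i)) => Sum.inl (Sum.inr i)
    | Sum.inr (Sum.inr (Sum.inr (Sum.inl i))) => Sum.inr (Sum.inr (Sum.inl i))
    | Sum.inr (Sum.inr (Sum.inr (Sum.inr i))) => Sum.inr (Sum.inr (Sum.inr i))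
  invFun p := match p with
    | Sum.inl (Sum.inl (Sum.inl (Sum.inl i))) => Sum.inl (Sum.inr (Sum.inl i))
    | Sum.inl (Sum.inl (Sum.inl (Sum.inr (Sum.inl i)))) => Sum.inl (Sum.inl i)
    | Sum.inl (Sum.inl (Sum.inl (Sum.inr (Sum.inr i)))) => Sum.inr (Sum.inl i)
    | Sum.inl (Sum.inl (Sum.inr i)) => Sum.inl (Sum.inr (Sum.inr (Sum.inr i)))
    | Sum.inl (Sum.inr i) => Sum.inr (Sum.inr (Sum.inl i))
    | Sum.inr (Sum.inl i) => Sum.inl (Sum.inr (Sum.inr (Sum.inl i)))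
    | Sum.inr (Sum.inr (Sum.inl i)) => Sum.inr (Sum.inr (Sum.inr (Sum.inl i)))
    | Sum.inr (Sum.inr (Sum.inr i)) => Sum.inr (Sum.inr (Sum.inr (Sum.inr i)))
  left_inv := by rintro ((i | (i | (i | i))) | (i | (i | (i | i)))) <;> rfl
  right_inv := by rintro ((((i | (i | i)) | i) | i) | (i | (i | i))) <;> rfl

def e3a (G Z P M N : Type) : (((G ⊕ Z) ⊕ P) ⊕ (M ⊕ N)) ≃ (((G ⊕ Z) ⊕ M) ⊕ (P ⊕ N)) where
  toFun p := match p with
    | Sum.inl (Sum.inl (Sum.inl i)) => Sum.inl (Sum.inl (Sum.inl i))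
    | Sum.inl (Sum.inl (Sum.inr i)) => Sum.inl (Sum.inl (Sum.inr i))
    | Sum.inl (Sum.inr i) => Sum.inr (Sum.inl i)
    | Sum.inr (Sum.inl i) => Sum.inl (Sum.inr i)
    | Sum.inr (Sum.inr i) => Sum.inr (Sum.inr i)
  invFun p := match p with
    | Sum.inl (Sum.inl (Sum.inl i)) => Sum.inl (Sum.inl (Sum.inl i))
    | Sum.inl (Sum.inl (Sum.inr i)) => Sum.inl (Sum.inl (Sum.inr i))
    | Sum.inl (Sum.inr i) => Sum.inr (Sum.inl i)
    | Sum.inr (Sum.inl i) => Sum.inl (Sum.inr i)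
    | Sum.inr (Sum.inr i) => Sum.inr (Sum.inr i)
  left_inv := by rintro (((i | i) | i) | (i | i)) <;> rfl
  right_inv := by rintro (((i | i) | i) | (i | i)) <;> rfl

def e3b (G Z M N : Type) : (G ⊕ (Z ⊕ (M ⊕ N))) ≃ (((G ⊕ Z) ⊕ M) ⊕ N) where
  toFun p := match p with
    | Sum.inl i => Sum.inl (Sum.inl (Sum.inl i))
    | Sum.inr (Sum.inl i) => Sum.inl (Sum.inl (Sum.inr i))
    | Sum.inr (Sum.inr (Sum.inl i)) => Sum.inl (Sum.inr i)
    | Sum.inr (Sum.inr (Sum.inr i)) => Sum.inr i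
  invFun p := match p with
    | Sum.inl (Sum.inl (Sum.inl i)) => Sum.inl i
    | Sum.inl (Sum.inl (Sum.inr i)) => Sum.inr (Sum.inl i)
    | Sum.inl (Sum.inr i) => Sum.inr (Sum.inr (Sum.inl i))
    | Sum.inr i => Sum.inr (Sum.inr (Sum.inr i))
  left_inv := by rintro (i | (i | (i | i))) <;> rfl
  right_inv := by rintro (((i | i) | i) | i) <;> rfl

def e3c (Y X U M N : Type) : ((Y ⊕ (X ⊕ U)) ⊕ (M ⊕ N)) ≃ ((Y ⊕ (X ⊕ M)) ⊕ (U ⊕ N)) where
  toFun p := match p with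
    | Sum.inl (Sum.inl i) => Sum.inl (Sum.inl i)
    | Sum.inl (Sum.inr (Sum.inl i)) => Sum.inl (Sum.inr (Sum.inl i))
    | Sum.inl (Sum.inr (Sum.inr i)) => Sum.inr (Sum.inl i)
    | Sum.inr (Sum.inl i) => Sum.inl (Sum.inr (Sum.inr i))
    | Sum.inr (Sum.inr i) => Sum.inr (Sum.inr i)
  invFun p := match p with
    | Sum.inl (Sum.inl i) => Sum.inl (Sum.inl i)
    | Sum.inl (Sum.inr (Sum.inl i)) => Sum.inl (Sum.inr (Sum.inl i))
    | Sum.inl (Sum.inr (Sum.inr i)) => Sum.inr (Sum.inl i)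
    | Sum.inr (Sum.inl i) => Sum.inl (Sum.inr (Sum.inr i))
    | Sum.inr (Sum.inr i) => Sum.inr (Sum.inr i)
  left_inv := by rintro ((i | (i | i)) | (i | i)) <;> rfl
  right_inv := by rintro ((i | (i | i)) | (i | i)) <;> rfl

def e4 (C P X U Q : Type) : ((C ⊕ (C ⊕ X)) ⊕ (P ⊕ (U ⊕ Q))) ≃ ((C ⊕ (P ⊕ (X ⊕ U))) ⊕ (C ⊕ Q)) where
  toFun p := match p with
    | Sum.inl (Sum.inl i) => Sum.inl (Sum.inl i)
    | Sum.inl (Sum.inr (Sum.inl i)) => Sum.inr (Sum.inl i)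
    | Sum.inl (Sum.inr (Sum.inr i)) => Sum.inl (Sum.inr (Sum.inr (Sum.inl i)))
    | Sum.inr (Sum.inl i) => Sum.inl (Sum.inr (Sum.inl i))
    | Sum.inr (Sum.inr (Sum.inl i)) => Sum.inl (Sum.inr (Sum.inr (Sum.inr i)))
    | Sum.inr (Sum.inr (Sum.inr i)) => Sum.inr (Sum.inr i)
  invFun p := match p with
    | Sum.inl (Sum.inl i) => Sum.inl (Sum.inl i)
    | Sum.inl (Sum.inr (Sum.inl i)) => Sum.inr (Sum.inl i)
    | Sum.inl (Sum.inr (Sum.inr (Sum.inl i))) => Sum.inl (Sum.inr (Sum.inr i))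
    | Sum.inl (Sum.inr (Sum.inr (Sum.inr i))) => Sum.inr (Sum.inr (Sum.inl i))
    | Sum.inr (Sum.inl i) => Sum.inl (Sum.inr (Sum.inl i))
    | Sum.inr (Sum.inr i) => Sum.inr (Sum.inr (Sum.inr i))
  left_inv := by rintro ((i | (i | i)) | (i | (i | i))) <;> rfl
  right_inv := by rintro ((i | (i | (i | i))) | (i | i)) <;> rfl

def eM (F C Q : Type) : ((F ⊕ C) ⊕ (C ⊕ Q)) ≃ ((C ⊕ Q) ⊕ (F ⊕ C)) where
  toFun p := match p with
    | Sum.inl (Sum.inl i) => Sum.inr (Sum.inl i)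
    | Sum.inl (Sum.inr i) => Sum.inl (Sum.inl i)
    | Sum.inr (Sum.inl i) => Sum.inr (Sum.inr i)
    | Sum.inr (Sum.inr i) => Sum.inl (Sum.inr i)
  invFun p := match p with
    | Sum.inl (Sum.inl i) => Sum.inl (Sum.inr i)
    | Sum.inl (Sum.inr i) => Sum.inr (Sum.inr i)
    | Sum.inr (Sum.inl i) => Sum.inl (Sum.inl i)
    | Sum.inr (Sum.inr i) => Sum.inr (Sum.inl i)
  left_inv := by rintro ((i | i) | (i | i)) <;> rfl
  right_inv := by rintro ((i | i) | (i | i)) <;> rfl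

def e1 (F C N : Type) : (F ⊕ (C ⊕ N)) ≃ (N ⊕ (F ⊕ C)) where
  toFun p := match p with
    | Sum.inl i => Sum.inr (Sum.inl i)
    | Sum.inr (Sum.inl i) => Sum.inr (Sum.inr i)
    | Sum.inr (Sum.inr i) => Sum.inl i
  invFun p := match p with
    | Sum.inl i => Sum.inr (Sum.inr i)
    | Sum.inr (Sum.inl i) => Sum.inl i
    | Sum.inr (Sum.inr i) => Sum.inr (Sum.inl i)
  left_inv := by rintro (i | (i | i)) <;> rfl
  right_inv := by rintro (i | (i | i)) <;> rfl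
section

variable {K h : ℕ} {C Q A Y Z P X U M N F : Type} [Finite C] [Finite Q] [Finite A] [Finite Y]
  [Finite Z] [Finite P] [Finite X] [Finite U] [Finite M] [Finite N] [Finite F]

theorem claim2 (hK : K = 2 * h) (h14 : 14 ≤ h) (hW : ∀ L p, L ≤ h → 3 ≤ p → W K 3 5 L p)
    (cC : Nat.card C = 2) (cQ : Nat.card Q = K - 2) (cA : Nat.card A = 2)
    (cY : Nat.card Y = h - 4) (cZ : Nat.card Z = h) :
    Fo K ((C ⊕ Q) ⊕ (C ⊕ (A ⊕ (Y ⊕ Z)))) (fun x =>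
      red (fun i => x (Sum.inl (Sum.inl i))) + red (fun i => x (Sum.inr (Sum.inl i))) +
        red (fun i => x (Sum.inr (Sum.inr (Sum.inr (Sum.inl i))))) ≤ 2 ∧
      red (fun i => x (Sum.inl (Sum.inl i))) + red (fun i => x (Sum.inr (Sum.inl i))) +
        red (fun i => x (Sum.inr (Sum.inr (Sum.inr (Sum.inl i))))) +
        red (fun i => x (Sum.inr (Sum.inr (Sum.inr (Sum.inr i))))) ≤ 3) := by
  have k1 : Fo K (((C ⊕ (C ⊕ Y)) ⊕ Z) ⊕ Fin K)
      (fun x => red (fun f => x (Sum.inl (Sum.inl f))) ≤ 2) :=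
    (small (K := K) (h := h) hW (F := C ⊕ (C ⊕ Y)) (R := Z ⊕ Fin K)
      (by simp only [Nat.card_sum]; omega)
      (by simp only [Nat.card_sum, Nat.card_fin]; omega)).transport
      (Equiv.sumAssoc (C ⊕ (C ⊕ Y)) Z (Fin K)).symm
  refine (Fo.num (K := K) (J1 := (C ⊕ (C ⊕ Y)) ⊕ Z) (J2 := A ⊕ Q) (N := Fin K)
    (by simp only [Nat.card_sum]; omega) (by simp only [Nat.card_sum]; omega)
    (Nat.card_fin K) (e2 C Q A Y Z) k1 (Fo.leaf K _)).mono ?_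
  rintro x ⟨n, g0, g1, g2, hA, -⟩
  simp only [red_sum, e2, Equiv.coe_fn_symm_mk, Sum.elim_inl] at g0 g1 g2 hA ⊢
  omega

theorem claim3 (hK : K = 2 * h) (h14 : 14 ≤ h) (hW : ∀ L p, L ≤ h → 3 ≤ p → W K 3 5 L p)
    (cC : Nat.card C = 2) (cA : Nat.card A = 2) (cY : Nat.card Y = h - 4) (cZ : Nat.card Z = h)
    (cP : Nat.card P = h - 6) (cX : Nat.card X = 10) (cU : Nat.card U = h - 6)
    (cM : Nat.card M = h - 6) (cN : Nat.card N = h + 6) :
    Fo K ((C ⊕ (A ⊕ (Y ⊕ Z))) ⊕ (C ⊕ (P ⊕ (X ⊕ U)))) (fun x => ∃ m : ℕ,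
      red (fun i => x (Sum.inl (Sum.inl i))) + red (fun i => x (Sum.inr (Sum.inl i))) +
        red (fun i => x (Sum.inl (Sum.inr (Sum.inl i)))) ≤ 2 ∧
      red (fun i => x (Sum.inl (Sum.inl i))) + red (fun i => x (Sum.inr (Sum.inl i))) +
        red (fun i => x (Sum.inl (Sum.inr (Sum.inl i)))) +
        red (fun i => x (Sum.inl (Sum.inr (Sum.inr (Sum.inr i))))) + m ≤ 3 ∧
      1 ≤ red (fun i => x (Sum.inl (Sum.inr (Sum.inr (Sum.inl i))))) + m +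
        red (fun i => x (Sum.inr (Sum.inr (Sum.inr (Sum.inl i)))))) := by
  have k1 : Fo K ((((A ⊕ (C ⊕ C)) ⊕ Z) ⊕ M) ⊕ Fin K)
      (fun x => red (fun f => x (Sum.inl (Sum.inl (Sum.inl f)))) ≤ 2) :=
    (small (K := K) (h := h) hW (F := A ⊕ (C ⊕ C)) (R := Z ⊕ (M ⊕ Fin K))
      (by simp only [Nat.card_sum]; omega)
      (by simp only [Nat.card_sum, Nat.card_fin]; omega)).transport
      (e3b (A ⊕ (C ⊕ C)) Z M (Fin K))
  have k2 : Fo K ((((A ⊕ (C ⊕ C)) ⊕ Z) ⊕ P) ⊕ (M ⊕ N)) (fun x =>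
      red (fun i => x (Sum.inl (Sum.inl (Sum.inl i)))) ≤ 2 ∧
      red (fun i => x (Sum.inl (Sum.inl (Sum.inl i)))) +
      red (fun i => x (Sum.inl (Sum.inl (Sum.inr i)))) + red (fun i => x (Sum.inr (Sum.inl i))) ≤ 3) := by
    refine (Fo.num (K := K) (J1 := ((A ⊕ (C ⊕ C)) ⊕ Z) ⊕ M) (J2 := P ⊕ N) (N := Fin K)
      (by simp only [Nat.card_sum]; omega) (by simp only [Nat.card_sum]; omega)
      (Nat.card_fin K) (e3a (A ⊕ (C ⊕ C)) Z P M N) k1 (Fo.leaf K _)).mono ?_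
    rintro x ⟨n, g0, g1, g2, hA, -⟩
    simp only [red_sum, e3a, Equiv.coe_fn_symm_mk, Sum.elim_inl] at g0 g1 g2 hA ⊢
    omega
  have k3 : Fo K ((Y ⊕ (X ⊕ U)) ⊕ (M ⊕ N)) (fun x =>
      1 ≤ red (fun i => x (Sum.inl (Sum.inl i))) + red (fun i => x (Sum.inl (Sum.inr (Sum.inl i)))) +
        red (fun i => x (Sum.inr (Sum.inl i)))) := by
    refine (Fo.num (K := K) (J1 := Y ⊕ (X ⊕ M)) (J2 := U ⊕ N) (N := Fin K)
      (by simp only [Nat.card_sum]; omega) (by simp only [Nat.card_sum]; omega)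
      (Nat.card_fin K) (e3c Y X U M N) (Fo.leaf K _) (Fo.leaf K _)).mono ?_
    rintro x ⟨n, g0, g1, g2, -, -⟩
    simp only [red_sum, e3c, Equiv.coe_fn_symm_mk] at g0 g1 g2 ⊢
    omega
  refine (Fo.num (K := K) (J1 := ((A ⊕ (C ⊕ C)) ⊕ Z) ⊕ P) (J2 := Y ⊕ (X ⊕ U)) (N := M ⊕ N)
    (by simp only [Nat.card_sum]; omega) (by simp only [Nat.card_sum]; omega)
    (by simp only [Nat.card_sum]; omega) (e3 C A Y Z P X U) k2 k3).mono ?_
  rintro x ⟨n, g0, g1, g2, hA, hB⟩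
  refine ⟨red (fun i => n (Sum.inl i)), ?_⟩
  simp only [red_sum, e3, Equiv.coe_fn_symm_mk, Sum.elim_inl, Sum.elim_inr] at g0 g1 g2 hA hB ⊢
  omega

theorem claim4 (hK : K = 2 * h) (h14 : 14 ≤ h) (hW : ∀ L p, L ≤ h → 3 ≤ p → W K 3 5 L p)
    (cC : Nat.card C = 2) (cQ : Nat.card Q = K - 2)
    (cP : Nat.card P = h - 6) (cX : Nat.card X = 10) (cU : Nat.card U = h - 6) :
    Fo K ((C ⊕ (P ⊕ (X ⊕ U))) ⊕ (C ⊕ Q)) (fun x =>
      red (fun i => x (Sum.inl (Sum.inl i))) + red (fun i => x (Sum.inr (Sum.inl i))) +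
        red (fun i => x (Sum.inl (Sum.inr (Sum.inr (Sum.inl i))))) ≤ 2) := by
  refine ((small (K := K) (h := h) hW (F := C ⊕ (C ⊕ X)) (R := P ⊕ (U ⊕ Q))
      (by simp only [Nat.card_sum]; omega)
      (by simp only [Nat.card_sum]; omega)).transport (e4 C P X U Q)).mono ?_
  intro x hA
  simp only [red_sum, e4, Equiv.coe_fn_mk] at hA
  omega

theorem main0 (hK : K = 2 * h) (h14 : 14 ≤ h) (hW : ∀ L p, L ≤ h → 3 ≤ p → W K 3 5 L p)
    (cC : Nat.card C = 2) (cQ : Nat.card Q = K - 2) (cA : Nat.card A = 2)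
    (cY : Nat.card Y = h - 4) (cZ : Nat.card Z = h)
    (cP : Nat.card P = h - 6) (cX : Nat.card X = 10) (cU : Nat.card U = h - 6)
    (cM : Nat.card M = h - 6) (cN : Nat.card N = h + 6) (cF : Nat.card F = K - 2)
    (T : Set (F → Bool)) (k5 : Fo K ((F ⊕ C) ⊕ Fin K) (fun x => (fun f => x (Sum.inl (Sum.inl f))) ∉ T)) :
    Fo K (F ⊕ (C ⊕ Fin K)) (fun x => (fun f => x (Sum.inl f)) ∉ T ∧
      red (fun f => x (Sum.inl f)) ≠ 0) := by
  have k4 : Fo K ((F ⊕ C) ⊕ (C ⊕ Q)) (fun x => (fun f => x (Sum.inl (Sum.inl f))) ∉ T ∧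
      (red (fun f => x (Sum.inl (Sum.inl f))) = 0 → 1 ≤ red (fun i => x (Sum.inr (Sum.inl i))))) := by
    refine (Fo.num (K := K) (J1 := C ⊕ Q) (J2 := F ⊕ C) (N := Fin K)
      (by simp only [Nat.card_sum]; omega) (by simp only [Nat.card_sum]; omega)
      (Nat.card_fin K) (eM F C Q) (Fo.leaf K _) k5).mono ?_
    rintro x ⟨n, g0, g1, g2, -, hB⟩
    refine ⟨hB, ?_⟩
    simp only [red_sum, eM, Equiv.coe_fn_symm_mk] at g0 g1 g2 ⊢
    omega
  have k3 : Fo K ((F ⊕ C) ⊕ (C ⊕ (P ⊕ (X ⊕ U)))) (fun x => (fun f => x (Sum.inl (Sum.inl f))) ∉ T ∧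
      (red (fun f => x (Sum.inl (Sum.inl f))) = 0 → 1 ≤ red (fun i => x (Sum.inr (Sum.inl i))) ∧
        red (fun i => x (Sum.inl (Sum.inr i))) +
        red (fun i => x (Sum.inr (Sum.inr (Sum.inr (Sum.inl i))))) ≤ 1)) := by
    refine (Fo.num (K := K) (J1 := C ⊕ (P ⊕ (X ⊕ U))) (J2 := F ⊕ C) (N := C ⊕ Q)
      (by simp only [Nat.card_sum]; omega) (by simp only [Nat.card_sum]; omega)
      (by simp only [Nat.card_sum]; omega) (eM F C (P ⊕ (X ⊕ U)))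
      (claim4 hK h14 hW cC cQ cP cX cU) k4).mono ?_
    rintro x ⟨n, g0, g1, g2, hA, hB, hC⟩
    refine ⟨hB, ?_⟩
    simp only [red_sum, eM, Equiv.coe_fn_symm_mk, Sum.elim_inl, Sum.elim_inr] at g0 g1 g2 hA hC ⊢
    omega
  have k2 : Fo K ((F ⊕ C) ⊕ (C ⊕ (A ⊕ (Y ⊕ Z)))) (fun x => (fun f => x (Sum.inl (Sum.inl f))) ∉ T ∧
      (red (fun f => x (Sum.inl (Sum.inl f))) = 0 → 1 ≤ red (fun i => x (Sum.inr (Sum.inl i))) ∧
        3 ≤ red (fun i => x (Sum.inl (Sum.inr i))) + red (fun i => x (Sum.inr (Sum.inl i))) +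
          red (fun i => x (Sum.inr (Sum.inr (Sum.inl i)))) +
          red (fun i => x (Sum.inr (Sum.inr (Sum.inr (Sum.inl i))))) +
          red (fun i => x (Sum.inr (Sum.inr (Sum.inr (Sum.inr i))))) ∧
        ∃ c xx m : ℕ, 1 ≤ c ∧ red (fun i => x (Sum.inr (Sum.inl i))) + xx ≤ 1 ∧
          red (fun i => x (Sum.inl (Sum.inr i))) + c +
            red (fun i => x (Sum.inr (Sum.inr (Sum.inl i)))) ≤ 2 ∧
          red (fun i => x (Sum.inl (Sum.inr i))) + c +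
            red (fun i => x (Sum.inr (Sum.inr (Sum.inl i)))) +
            red (fun i => x (Sum.inr (Sum.inr (Sum.inr (Sum.inr i))))) + m ≤ 3 ∧
          1 ≤ red (fun i => x (Sum.inr (Sum.inr (Sum.inr (Sum.inl i))))) + m + xx)) := by
    refine (Fo.num (K := K) (J1 := C ⊕ (A ⊕ (Y ⊕ Z))) (J2 := F ⊕ C) (N := C ⊕ (P ⊕ (X ⊕ U)))
      (by simp only [Nat.card_sum]; omega) (by simp only [Nat.card_sum]; omega)
      (by simp only [Nat.card_sum]; omega) (eM F C (A ⊕ (Y ⊕ Z)))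
      (claim3 (M := M) (N := N) hK h14 hW cC cA cY cZ cP cX cU cM cN) k3).mono ?_
    rintro x ⟨n, g0, g1, g2, ⟨m, hA⟩, hB, hC⟩
    refine ⟨hB, fun h0 => ?_⟩
    have hC' := hC h0
    simp only [red_sum, eM, Equiv.coe_fn_symm_mk, Sum.elim_inl, Sum.elim_inr] at g0 g1 g2 hA hC' ⊢
    refine ⟨by omega, by omega, red (fun i => n (Sum.inl i)),
      red (fun i => n (Sum.inr (Sum.inr (Sum.inl i)))), m, by omega, by omega, by omega, by omega, by omega⟩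
  have k1 : Fo K ((F ⊕ C) ⊕ (C ⊕ Q)) (fun x => (fun f => x (Sum.inl (Sum.inl f))) ∉ T ∧
      (red (fun f => x (Sum.inl (Sum.inl f))) = 0 → red (fun i => x (Sum.inl (Sum.inr i))) = 0)) := by
    refine (Fo.num (K := K) (J1 := C ⊕ Q) (J2 := F ⊕ C) (N := C ⊕ (A ⊕ (Y ⊕ Z)))
      (by simp only [Nat.card_sum]; omega) (by simp only [Nat.card_sum]; omega)
      (by simp only [Nat.card_sum]; omega) (eM F C Q)
      (claim2 hK h14 hW cC cQ cA cY cZ) k2).mono ?_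
    rintro x ⟨n, g0, g1, g2, hA, hB, hC⟩
    refine ⟨hB, fun h0 => ?_⟩
    obtain ⟨hD, hE, c, xx, m, u1, u2, u3, u4, u5⟩ := hC h0
    simp only [red_sum, eM, Equiv.coe_fn_symm_mk, Sum.elim_inl, Sum.elim_inr] at g0 g1 g2 hA hD hE u1 u2 u3 u4 u5 ⊢
    omega
  refine (Fo.num (K := K) (J1 := Fin K) (J2 := F ⊕ C) (N := C ⊕ Q)
      (Nat.card_fin K) (by simp only [Nat.card_sum]; omega)
      (by simp only [Nat.card_sum]; omega) (e1 F C (Fin K)) (Fo.leaf K _) k1).mono ?_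
  rintro x ⟨n, g0, g1, g2, -, hB, hC⟩
  refine ⟨hB, fun h0 => ?_⟩
  have hC' := hC h0
  simp only [red_sum, e1, Equiv.coe_fn_symm_mk, Sum.elim_inl] at g0 g1 g2 hC' h0
  omega

end

/-- An alive set of `K - 2` edges is not all blue. -/
theorem W_main {K h : ℕ} (hK : K = 2 * h) (h14 : 14 ≤ h)
    (hW : ∀ L p, L ≤ h → 3 ≤ p → W K 3 5 L p) : W K 3 5 (K - 2) 0 := by
  intro F R _ _ hF hR T hT
  have hRc : Nat.card R = Nat.card (Fin 2 ⊕ Fin K) := by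
    rw [Nat.card_sum, Nat.card_fin, Nat.card_fin]
    omega
  have t1 : Kill K 3 5 (F ⊕ (Fin 2 ⊕ Fin K)) {x | (fun f => x (Sum.inl f)) ∈ T} := kill_rest hRc hT
  have k5 : Fo K ((F ⊕ Fin 2) ⊕ Fin K) (fun x => (fun f => x (Sum.inl (Sum.inl f))) ∉ T) :=
    (t1.transport (Equiv.sumAssoc F (Fin 2) (Fin K)).symm).mono fun x hx => Classical.not_not.1 hx
  have k0 := main0 (K := K) (h := h) (C := Fin 2) (Q := Fin (K - 2)) (A := Fin 2) (Y := Fin (h - 4))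
    (Z := Fin h) (P := Fin (h - 6)) (X := Fin 10) (U := Fin (h - 6)) (M := Fin (h - 6))
    (N := Fin (h + 6)) (F := F) hK h14 hW (Nat.card_fin _) (Nat.card_fin _) (Nat.card_fin _)
    (Nat.card_fin _) (Nat.card_fin _) (Nat.card_fin _) (Nat.card_fin _) (Nat.card_fin _)
    (Nat.card_fin _) (Nat.card_fin _) hF T k5
  have k0' : Kill K 3 5 (F ⊕ (Fin 2 ⊕ Fin K))
      {x | (fun f => x (Sum.inl f)) ∈ {y : F → Bool | y ∈ T ∨ red y = 0}} := by
    refine Kill.mono k0 ?_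
    intro x hx hcon
    rcases hx with hx | hx
    · exact hcon.1 hx
    · exact hcon.2 hx
  exact kill_rest hRc.symm k0'

end Pool.Agent.Lib.MP_21a058_co.Slack3.Mn
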