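import Pool.Agent.Lib.MP_21a058_co.Slack3.MainG

/-! The main refutation with numbers: `P` red edges among `m` edges that stay alive are refutable if
no full set has more than `P + x` red edges, an alive set of `2 (K - m) + t` edges has at least
`2 x + z` red ones and `3 t` alive edges have fewer than `3 z` red ones. -/

set_option autoImplicit false

namespace Pool.Agent.Lib.MP_21a058_co.Slack3.MX

open Pool.Agent.Lib.MP_21a058_co.Slack3
open Pool.Agent.Lib.MP_21a058_co.Slack3.MG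
open Pool.Agent.Lib.MP_21a058_co.Odd (red red_sum red_equiv red_le)

/-- An alive set with fewer than `B` red edges. -/
theorem smallN {K l u L B : ℕ} {F R : Type} [Finite F] [Finite R] (hF : Nat.card F = L)
    (hR : Nat.card F + Nat.card R = 2 * K) (h : ∀ p, B ≤ p → W K l u L p) :
    Fo K l u (F ⊕ R) (fun x => red (fun f => x (Sum.inl f)) < B) := by
  have h1 := W_seq' (K := K) (l := l) (u := u) F R hF hR ∅
    ((Kill.empty K l u _).mono (by intro x hx; exact absurd hx (Set.notMem_empty _)))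
  refine Kill.mono h1 fun x hx => Or.inr (h _ ?_)
  have hx' : ¬ red (fun f => x (Sum.inl f)) < B := hx
  omega

/-- An alive set with at least `B` red edges. -/
theorem lowN {K l u L B : ℕ} {F R : Type} [Finite F] [Finite R] (hF : Nat.card F = L)
    (hR : Nat.card F + Nat.card R = 2 * K) (h : ∀ p, p < B → W K l u L p) :
    Fo K l u (F ⊕ R) (fun x => B ≤ red (fun f => x (Sum.inl f))) := by
  have h1 := W_seq' (K := K) (l := l) (u := u) F R hF hR ∅
    ((Kill.empty K l u _).mono (by intro x hx; exact absurd hx (Set.notMem_empty _)))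
  refine Kill.mono h1 fun x hx => Or.inr (h _ ?_)
  have hx' : ¬ B ≤ red (fun f => x (Sum.inl f)) := hx
  omega

/-- The test of an alive set that consists of two sets `C` and of `Z`. -/
theorem tstN {K l u L B : ℕ} {C C' Z Y Q : Type} [Finite C] [Finite C'] [Finite Z] [Finite Y]
    [Finite Q] (h1 : Nat.card C + Nat.card C' + Nat.card Z = L)
    (h2 : Nat.card C + Nat.card C' + Nat.card Z + (Nat.card Y + Nat.card Q) = 2 * K)
    (h : ∀ p, p < B → W K l u L p) :
    Fo K l u ((C ⊕ (Z ⊕ Y)) ⊕ (C' ⊕ Q)) (fun x => B ≤ red (fun i => x (Sum.inl (Sum.inl i))) +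
      red (fun i => x (Sum.inr (Sum.inl i))) + red (fun i => x (Sum.inl (Sum.inr (Sum.inl i))))) := by
  have k1 := lowN (K := K) (l := l) (u := u) (F := (C ⊕ C') ⊕ Z) (R := Y ⊕ Q) (L := L)
    (by rw [Nat.card_sum, Nat.card_sum]; exact h1)
    (by rw [Nat.card_sum, Nat.card_sum, Nat.card_sum]; exact h2) h
  refine (k1.transport (eT C C' Z Y Q).symm).mono fun x hx => ?_
  have r1 : red (fun f => x ((eT C C' Z Y Q).symm (Sum.inl f))) =
      (red (fun i => x (Sum.inl (Sum.inl i))) + red (fun i => x (Sum.inr (Sum.inl i)))) +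
      red (fun i => x (Sum.inl (Sum.inr (Sum.inl i)))) :=
    (red_sum _).trans (congrArg (· + _) (red_sum _))
  have hx' : B ≤ red (fun f => x ((eT C C' Z Y Q).symm (Sum.inl f))) := hx
  omega

/-- The vertex `u1`. -/
theorem u1N {K l u L B : ℕ} {C C' Z Z' N : Type} [Finite C] [Finite C'] [Finite Z] [Finite Z']
    [Finite N] (h1 : Nat.card C + Nat.card C' + Nat.card Z' = L)
    (h2 : Nat.card C + Nat.card C' + Nat.card Z' + (Nat.card Z + Nat.card N) = 2 * K)
    (h : ∀ p, p < B → W K l u L p) :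
    Fo K l u (((C ⊕ C') ⊕ Z) ⊕ (Z' ⊕ N)) (fun x =>
      B ≤ red (fun i => x (Sum.inl (Sum.inl (Sum.inl i)))) +
      red (fun i => x (Sum.inl (Sum.inl (Sum.inr i)))) + red (fun i => x (Sum.inr (Sum.inl i)))) := by
  have k1 := lowN (K := K) (l := l) (u := u) (F := (C ⊕ C') ⊕ Z') (R := Z ⊕ N) (L := L)
    (by rw [Nat.card_sum, Nat.card_sum]; exact h1)
    (by rw [Nat.card_sum, Nat.card_sum, Nat.card_sum]; exact h2) h
  refine (k1.transport (eU (C ⊕ C') Z' Z N)).mono fun x hx => ?_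
  have r1 : red (fun f => x ((eU (C ⊕ C') Z' Z N) (Sum.inl f))) =
      (red (fun i => x (Sum.inl (Sum.inl (Sum.inl i)))) +
        red (fun i => x (Sum.inl (Sum.inl (Sum.inr i))))) +
      red (fun i => x (Sum.inr (Sum.inl i))) :=
    (red_sum _).trans (congrArg (· + _) (red_sum _))
  have hx' : B ≤ red (fun f => x ((eU (C ⊕ C') Z' Z N) (Sum.inl f))) := hx
  omega

/-- The vertex `u2`. -/
theorem u2N {K l u L B : ℕ} {Z Z' R Z2 N : Type} [Finite Z] [Finite Z'] [Finite R] [Finite Z2]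
    [Finite N] (h1 : Nat.card Z + Nat.card Z' + Nat.card Z2 = L)
    (h2 : Nat.card Z + Nat.card Z' + Nat.card R + (Nat.card Z2 + Nat.card N) = 2 * K)
    (h : ∀ p, B ≤ p → W K l u L p) :
    Fo K l u (((Z ⊕ Z') ⊕ R) ⊕ (Z2 ⊕ N)) (fun x =>
      red (fun i => x (Sum.inl (Sum.inl (Sum.inl i)))) +
      red (fun i => x (Sum.inl (Sum.inl (Sum.inr i)))) + red (fun i => x (Sum.inr (Sum.inl i))) <
        B) := by
  have k1 := smallN (K := K) (l := l) (u := u) (F := (Z ⊕ Z') ⊕ Z2) (R := R ⊕ N) (L := L)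
    (by rw [Nat.card_sum, Nat.card_sum]; exact h1)
    (by rw [Nat.card_sum, Nat.card_sum, Nat.card_sum]; omega) h
  refine (k1.transport (eV Z Z' R Z2 N)).mono fun x hx => ?_
  have r1 : red (fun f => x ((eV Z Z' R Z2 N) (Sum.inl f))) =
      (red (fun i => x (Sum.inl (Sum.inl (Sum.inl i)))) +
          red (fun i => x (Sum.inl (Sum.inl (Sum.inr i))))) +
        red (fun i => x (Sum.inr (Sum.inl i))) :=
    (red_sum _).trans (congrArg (· + _) (red_sum _))
  have hx' : red (fun f => x ((eV Z Z' R Z2 N) (Sum.inl f))) < B := hx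
  omega

/-- The vertex `w_2`. -/
theorem w2N {K l u c m t q y r a z : ℕ} (hc : c + m = K) (hq : 2 * c + q = K)
    (hr : t + (q + r) = m)
    (hy : t + y = m) (htK : t ≤ K) (hl : ∀ p, p < 2 * a + z → W K l u (2 * c + t) p)
    (h : ∀ p, 3 * z ≤ p → W K l u (3 * t) p) :
    Fo K l u ((Fin c ⊕ (Fin t ⊕ (Fin q ⊕ Fin r))) ⊕ (Fin c ⊕ (Fin t ⊕ Fin y)))
      (fun x => red (fun i => x (Sum.inl (Sum.inl i))) ≤ a →
        red (fun i => x (Sum.inr (Sum.inl i))) ≤ a →
        z ≤ red (fun i => x (Sum.inr (Sum.inr (Sum.inl i)))) →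
        red (fun i => x (Sum.inl (Sum.inr (Sum.inl i)))) < z) := by
  refine (Fo.num (K := K) (N := Fin t ⊕ Fin (K - t))
    (J1 := (Fin c ⊕ Fin c) ⊕ Fin q)
    (J2 := (Fin t ⊕ Fin t) ⊕ (Fin r ⊕ Fin y)) ?_ ?_ ?_
    (eW (Fin c) (Fin t) (Fin q) (Fin r) (Fin y))
    (u1N (C := Fin c) (C' := Fin c) (Z := Fin q) (Z' := Fin t) (N := Fin (K - t)) ?_ ?_ hl)
    (u2N (Z := Fin t) (Z' := Fin t) (R := Fin r ⊕ Fin y) (Z2 := Fin t)
      (N := Fin (K - t)) ?_ ?_ h)).mono ?_
  · rw [Nat.card_sum, Nat.card_sum, Nat.card_fin, Nat.card_fin]; omega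
  · rw [Nat.card_sum, Nat.card_sum, Nat.card_sum, Nat.card_fin, Nat.card_fin, Nat.card_fin]; omega
  · rw [Nat.card_sum, Nat.card_fin, Nat.card_fin]; omega
  · rw [Nat.card_fin, Nat.card_fin]; omega
  · rw [Nat.card_fin, Nat.card_fin, Nat.card_fin, Nat.card_fin]; omega
  · rw [Nat.card_fin]; omega
  · rw [Nat.card_sum, Nat.card_fin, Nat.card_fin, Nat.card_fin, Nat.card_fin]; omega
  · rintro x ⟨n, -, hA, hB⟩ c1 c2 c3
    have hA' : 2 * a + z ≤ red (fun i => x (Sum.inl (Sum.inl i))) +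
      red (fun i => x (Sum.inr (Sum.inl i))) + red (fun i => n (Sum.inl i)) := hA
    have hB' : red (fun i => x (Sum.inl (Sum.inr (Sum.inl i)))) +
      red (fun i => x (Sum.inr (Sum.inr (Sum.inl i)))) + red (fun i => n (Sum.inl i)) < 3 * z := hB
    omega

/-- **The main refutation with numbers.** -/
theorem mainX {K l u c m t P a z : ℕ} (hU : 2 * u < 2 * P + 2 * a + 2 + l) (hc : c + m = K)
    (hcm : c ≤ m) (htc : t ≤ c) (hl : ∀ p, p < 2 * a + z → W K l u (2 * c + t) p)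
    (h : ∀ p, 3 * z ≤ p → W K l u (3 * t) p) : W K l u m P := by
  intro F R _ _ hF hR T hT
  obtain ⟨q, hq⟩ : ∃ q, 2 * c + q = K := ⟨K - 2 * c, by omega⟩
  obtain ⟨y, hy⟩ : ∃ y, t + y = m := ⟨m - t, by omega⟩
  obtain ⟨r, hr⟩ : ∃ r, t + (q + r) = m := ⟨c - t, by omega⟩
  have cC : Nat.card (Fin c) = c := Nat.card_fin _
  have cQ : Nat.card (Fin m) = m := Nat.card_fin _
  have cQ1 : Nat.card (Fin t ⊕ (Fin q ⊕ Fin r)) = m := by
    rw [Nat.card_sum, Nat.card_sum, Nat.card_fin, Nat.card_fin, Nat.card_fin]; omega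
  have cQ2 : Nat.card (Fin t ⊕ Fin y) = m := by
    rw [Nat.card_sum, Nat.card_fin, Nat.card_fin]; omega
  -- the last vertex
  have k5 : Fo K l u ((F ⊕ Fin c) ⊕ Fin K) (fun x => (fun i => x (Sum.inl (Sum.inl i))) ∉ T) := by
    have h1 : Kill K l u (F ⊕ (Fin c ⊕ Fin K)) {x | (fun f => x (Sum.inl f)) ∈ T} := by
      refine kill_rest ?_ hT
      rw [Nat.card_sum, Nat.card_fin, Nat.card_fin]
      omega
    refine Kill.mono (h1.transport (Equiv.sumAssoc F (Fin c) (Fin K)).symm) fun x hx => ?_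
    exact Classical.not_not.1 hx
  -- the node 4
  have k4 : Fo K l u ((F ⊕ Fin c) ⊕ (Fin c ⊕ Fin m)) (fun x =>
      (fun i => x (Sum.inl (Sum.inl i))) ∉ T ∧ (red (fun i => x (Sum.inl (Sum.inl i))) = P →
        red (fun i => x (Sum.inr (Sum.inl i))) ≤ a)) := by
    refine (Fo.num (K := K) (N := Fin K) (J1 := Fin c ⊕ Fin m) (J2 := F ⊕ Fin c)
      (by rw [Nat.card_sum, cC, cQ]; omega) (by rw [Nat.card_sum, cC, hF]; omega) (Nat.card_fin K)
      (eX F (Fin c) (Fin c) (Fin m)) (Fo.triv K l u _) k5).mono ?_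
    rintro x ⟨n, g2, -, hB⟩
    have r2 : red (fun j => x ((eX F (Fin c) (Fin c) (Fin m)).symm (Sum.inr j))) =
        red (fun i => x (Sum.inl (Sum.inl i))) + red (fun i => x (Sum.inr (Sum.inl i))) := red_sum _
    exact ⟨hB, fun h3 => by omega⟩
  -- the node 3
  have k3 : Fo K l u ((F ⊕ Fin c) ⊕ (Fin c ⊕ (Fin t ⊕ Fin y))) (fun x =>
      (fun i => x (Sum.inl (Sum.inl i))) ∉ T ∧ (red (fun i => x (Sum.inl (Sum.inl i))) = P →
        red (fun i => x (Sum.inr (Sum.inl i))) ≤ a ∧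
        a + z ≤ red (fun i => x (Sum.inl (Sum.inr i))) +
          red (fun i => x (Sum.inr (Sum.inr (Sum.inl i)))))) := by
    refine (Fo.num (K := K) (N := Fin c ⊕ Fin m)
      (J1 := Fin c ⊕ (Fin t ⊕ Fin y)) (J2 := F ⊕ Fin c)
      (by rw [Nat.card_sum, cC, cQ2]; omega) (by rw [Nat.card_sum, cC, hF]; omega)
      (by rw [Nat.card_sum, cC, cQ]; omega)
      (eX F (Fin c) (Fin c) (Fin t ⊕ Fin y))
      (tstN (C := Fin c) (C' := Fin c) (Z := Fin t) (Y := Fin y) (Q := Fin m)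
        (by rw [cC, Nat.card_fin]; omega) (by rw [cC, cQ, Nat.card_fin, Nat.card_fin]; omega) hl)
      k4).mono ?_
    rintro x ⟨n, g2, hA, hB, hB2⟩
    have r2 : red (fun j => x ((eX F (Fin c) (Fin c) (Fin t ⊕ Fin y)).symm
        (Sum.inr j))) =
        red (fun i => x (Sum.inl (Sum.inl i))) + red (fun i => x (Sum.inr (Sum.inl i))) := red_sum _
    have hA' : 2 * a + z ≤ red (fun i => x (Sum.inl (Sum.inr i))) + red (fun i => n (Sum.inl i)) +
        red (fun i => x (Sum.inr (Sum.inr (Sum.inl i)))) := hA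
    have hB2' : red (fun i => x (Sum.inl (Sum.inl i))) = P → red (fun i => n (Sum.inl i)) ≤ a := hB2
    refine ⟨hB, fun h3 => ?_⟩
    have := hB2' h3
    omega
  -- the node 2
  have k2 : Fo K l u ((F ⊕ Fin c) ⊕ (Fin c ⊕ (Fin t ⊕ (Fin q ⊕ Fin r)))) (fun x =>
      (fun i => x (Sum.inl (Sum.inl i))) ∉ T ∧ (red (fun i => x (Sum.inl (Sum.inl i))) = P →
        red (fun i => x (Sum.inr (Sum.inl i))) ≤ a ∧
        (red (fun i => x (Sum.inl (Sum.inr i))) ≤ a →
          red (fun i => x (Sum.inr (Sum.inr (Sum.inl i)))) < z))) := by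
    refine (Fo.num (K := K) (N := Fin c ⊕ (Fin t ⊕ Fin y))
      (J1 := Fin c ⊕ (Fin t ⊕ (Fin q ⊕ Fin r))) (J2 := F ⊕ Fin c)
      (by rw [Nat.card_sum, cC, cQ1]; omega) (by rw [Nat.card_sum, cC, hF]; omega)
      (by rw [Nat.card_sum, cC, cQ2]; omega)
      (eX F (Fin c) (Fin c) (Fin t ⊕ (Fin q ⊕ Fin r)))
      (w2N hc hq hr hy (by omega) hl h) k3).mono ?_
    rintro x ⟨n, g2, hA, hB, hB2⟩
    have r2 : red (fun j => x ((eX F (Fin c) (Fin c)
        (Fin t ⊕ (Fin q ⊕ Fin r))).symm (Sum.inr j))) =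
        red (fun i => x (Sum.inl (Sum.inl i))) + red (fun i => x (Sum.inr (Sum.inl i))) := red_sum _
    have hA' : red (fun i => x (Sum.inl (Sum.inr i))) ≤ a → red (fun i => n (Sum.inl i)) ≤ a →
        z ≤ red (fun i => n (Sum.inr (Sum.inl i))) →
        red (fun i => x (Sum.inr (Sum.inr (Sum.inl i)))) < z := hA
    have hB2' : red (fun i => x (Sum.inl (Sum.inl i))) = P → red (fun i => n (Sum.inl i)) ≤ a ∧
        a + z ≤ red (fun i => x (Sum.inr (Sum.inl i))) + red (fun i => n (Sum.inr (Sum.inl i))) := hB2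
    refine ⟨hB, fun h3 => ?_⟩
    obtain ⟨b1, b2⟩ := hB2' h3
    exact ⟨by omega, fun h0 => hA' h0 b1 (by omega)⟩
  -- the node 1
  have k1 : Fo K l u ((F ⊕ Fin c) ⊕ (Fin c ⊕ Fin m)) (fun x =>
      (fun i => x (Sum.inl (Sum.inl i))) ∉ T ∧ (red (fun i => x (Sum.inl (Sum.inl i))) = P →
        a + 1 ≤ red (fun i => x (Sum.inl (Sum.inr i))))) := by
    refine (Fo.num (K := K) (N := Fin c ⊕ (Fin t ⊕ (Fin q ⊕ Fin r)))
      (J1 := Fin c ⊕ Fin m) (J2 := F ⊕ Fin c)
      (by rw [Nat.card_sum, cC, cQ]; omega) (by rw [Nat.card_sum, cC, hF]; omega)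
      (by rw [Nat.card_sum, cC, cQ1]; omega)
      (eX F (Fin c) (Fin c) (Fin m))
      ((tstN (C := Fin c) (C' := Fin c) (Z := Fin t) (Y := Fin q ⊕ Fin r)
        (Q := Fin m) (by rw [cC, Nat.card_fin]; omega)
        (by rw [Nat.card_sum, Nat.card_fin, Nat.card_fin, Nat.card_fin, Nat.card_fin, cQ]; omega)
        hl).transport (Equiv.sumComm _ _)) k2).mono ?_
    rintro x ⟨n, g2, hA, hB, hB2⟩
    have r2 : red (fun j => x ((eX F (Fin c) (Fin c) (Fin m)).symm (Sum.inr j))) =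
        red (fun i => x (Sum.inl (Sum.inl i))) + red (fun i => x (Sum.inr (Sum.inl i))) := red_sum _
    have hA' : 2 * a + z ≤ red (fun i => n (Sum.inl i)) + red (fun i => x (Sum.inl (Sum.inr i))) +
        red (fun i => n (Sum.inr (Sum.inl i))) := hA
    have hB2' : red (fun i => x (Sum.inl (Sum.inl i))) = P → red (fun i => n (Sum.inl i)) ≤ a ∧
        (red (fun i => x (Sum.inr (Sum.inl i))) ≤ a →
          red (fun i => n (Sum.inr (Sum.inl i))) < z) := hB2
    refine ⟨hB, fun h3 => ?_⟩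
    obtain ⟨b1, b2⟩ := hB2' h3
    have b3 := b2 (by omega)
    omega
  -- the root
  have k0 : Fo K l u ((F ⊕ Fin c) ⊕ Fin K) (fun x =>
      (fun i => x (Sum.inl (Sum.inl i))) ∉ T ∧ red (fun i => x (Sum.inl (Sum.inl i))) ≠ P) := by
    refine (Fo.num (K := K) (N := Fin c ⊕ Fin m) (J1 := Fin K) (J2 := F ⊕ Fin c)
      (Nat.card_fin K) (by rw [Nat.card_sum, cC, hF]; omega)
      (by rw [Nat.card_sum, cC, cQ]; omega)
      (Equiv.sumComm (F ⊕ Fin c) (Fin K)) (Fo.triv K l u _) k1).mono ?_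
    rintro x ⟨n, g2, -, hB, hB2⟩
    have r2 : red (fun j => x ((Equiv.sumComm (F ⊕ Fin c) (Fin K)).symm (Sum.inr j))) =
        red (fun i => x (Sum.inl (Sum.inl i))) + red (fun i => x (Sum.inl (Sum.inr i))) := red_sum _
    have hB2' : red (fun i => x (Sum.inl (Sum.inl i))) = P →
        a + 1 ≤ red (fun i => x (Sum.inl (Sum.inr i))) := hB2
    refine ⟨hB, fun h3 => ?_⟩
    have := hB2' h3
    omega
  have h2 : Kill K l u (F ⊕ (Fin c ⊕ Fin K))
      {x | (fun f => x (Sum.inl f)) ∈ {y : F → Bool | y ∈ T ∨ red y = P}} := by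
    refine Kill.mono (Fo.transport k0 (Equiv.sumAssoc F (Fin c) (Fin K))) fun x hx => ?_
    intro hc
    rcases hx with hx | hx
    · exact hc.1 hx
    · exact hc.2 hx
  refine kill_rest ?_ h2
  rw [Nat.card_sum, Nat.card_fin, Nat.card_fin]
  omega

end Pool.Agent.Lib.MP_21a058_co.Slack3.MX
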