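import Pool.Agent.Lib.MP_21a058_co.Slack3.Rule

/-! An alive set of `m` edges does not have `P` red edges, where `P` is the largest number of red
edges of an alive set of `K` edges. -/

set_option autoImplicit false

namespace Pool.Agent.Lib.MP_21a058_co.Slack3.Mid3

open Pool.Agent.Lib.MP_21a058_co.Odd (red red_sum red_equiv red_le)
open Pool.Agent.Lib.MP_21a058_co.Slack3

/-- A test of the alive edges `F` of the bundle `I`. -/
theorem kill_test {K l u L : ℕ} {I F R : Type} [Finite F] [Finite R] (e : F ⊕ R ≃ I)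
    (hF : Nat.card F = L) (hR : Nat.card F + Nat.card R = 2 * K) :
    Kill K l u I {y | W K l u L (red (fun f => y (e (Sum.inl f))))} := by
  have h := W_seq' (K := K) (l := l) (u := u) (L := L) F R hF hR ∅
    ((Kill.empty K l u _).mono (by intro x hx; exact absurd hx (Set.notMem_empty _)))
  refine (h.transport e).mono ?_
  intro y hy
  exact Or.inr hy

/-! ### bundles in four parts -/

/-- killable predicates of a bundle in four parts -/
def K4 (K l u : ℕ) (A B C D : Type)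
    (P : (A → Bool) → (B → Bool) → (C → Bool) → (D → Bool) → Prop) : Prop :=
  Kill K l u (A ⊕ (B ⊕ (C ⊕ D)))
    {x | P (fun a => x (Sum.inl a)) (fun b => x (Sum.inr (Sum.inl b)))
      (fun c => x (Sum.inr (Sum.inr (Sum.inl c)))) (fun d => x (Sum.inr (Sum.inr (Sum.inr d))))}

theorem red4 {A B C D : Type} [Finite A] [Finite B] [Finite C] [Finite D]
    (x : A ⊕ (B ⊕ (C ⊕ D)) → Bool) :
    red x = red (fun a => x (Sum.inl a)) + (red (fun b => x (Sum.inr (Sum.inl b))) +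
      (red (fun c => x (Sum.inr (Sum.inr (Sum.inl c)))) +
        red (fun d => x (Sum.inr (Sum.inr (Sum.inr d)))))) := by
  rw [red_sum x, red_sum (fun j => x (Sum.inr j)), red_sum (fun j => x (Sum.inr (Sum.inr j)))]

/-- the split `B + D | A + C` -/
def e4 (A B C D : Type) : A ⊕ (B ⊕ (C ⊕ D)) ≃ (B ⊕ D) ⊕ (A ⊕ C) where
  toFun p := match p with
    | Sum.inl a => Sum.inr (Sum.inl a)
    | Sum.inr (Sum.inl b) => Sum.inl (Sum.inl b)
    | Sum.inr (Sum.inr (Sum.inl c)) => Sum.inr (Sum.inr c)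
    | Sum.inr (Sum.inr (Sum.inr d)) => Sum.inl (Sum.inr d)
  invFun p := match p with
    | Sum.inl (Sum.inl b) => Sum.inr (Sum.inl b)
    | Sum.inl (Sum.inr d) => Sum.inr (Sum.inr (Sum.inr d))
    | Sum.inr (Sum.inl a) => Sum.inl a
    | Sum.inr (Sum.inr c) => Sum.inr (Sum.inr (Sum.inl c))
  left_inv := by rintro (a | b | c | d) <;> rfl
  right_inv := by rintro ((b | d) | (a | c)) <;> rfl

/-- One vertex of the chain. -/
theorem node4 {K l u : ℕ} {A B C D C' D' : Type} [Finite A] [Finite B] [Finite C] [Finite D]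
    [Finite C'] [Finite D']
    (hBD : Nat.card B + Nat.card D = K) (hAC : Nat.card A + Nat.card C = K)
    (hN : Nat.card C' + Nat.card D' = K)
    {P : (A → Bool) → (B → Bool) → (C → Bool) → (D → Bool) → Prop}
    {P1 : (B → Bool) → (D → Bool) → (C' → Bool) → (D' → Bool) → Prop}
    {P2 : (A → Bool) → (C → Bool) → (C' → Bool) → (D' → Bool) → Prop}
    (k1 : K4 K l u B D C' D' P1) (k2 : K4 K l u A C C' D' P2)
    (h : ∀ a b c d, P a b c d → l ≤ red a + red b + red c + red d →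
      red a + red b + red c + red d ≤ u →
      ∀ c' d', l ≤ red b + red d + red c' + red d' → red b + red d + red c' + red d' ≤ u →
        l ≤ red a + red c + red c' + red d' → red a + red c + red c' + red d' ≤ u →
        P1 b d c' d' ∨ P2 a c c' d') : K4 K l u A B C D P := by
  have hNc : Nat.card (Fin K) = Nat.card (C' ⊕ D') := by
    rw [Nat.card_sum, Nat.card_fin, hN]
  obtain ⟨eN⟩ := Finite.card_eq.mp hNc
  have q1 := (Kill.addBase k1).transport ((Equiv.sumAssoc B D (C' ⊕ D')).symm.trans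
    (Equiv.sumCongr (Equiv.refl _) eN.symm))
  have q2 := (Kill.addBase k2).transport ((Equiv.sumAssoc A C (C' ⊕ D')).symm.trans
    (Equiv.sumCongr (Equiv.refl _) eN.symm))
  refine Kill.node _ (B ⊕ D) (A ⊕ C) ?_ ?_ (e4 A B C D) _ _ _ q1 q2 ?_
  · rw [Nat.card_sum, hBD]
  · rw [Nat.card_sum, hAC]
  · intro x hx
    by_cases hb : red x < l ∨ u < red x
    · exact Or.inl hb
    right
    intro n
    by_contra hcon
    push Not at hcon
    obtain ⟨h1, h2⟩ := hcon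
    have h1' : ¬ (P1 (fun b => x (Sum.inr (Sum.inl b))) (fun d => x (Sum.inr (Sum.inr (Sum.inr d))))
        (fun c => n (eN.symm (Sum.inl c))) (fun d => n (eN.symm (Sum.inr d))) ∨
        (red (fun i => (Sum.elim (fun j => x ((e4 A B C D).symm (Sum.inl j))) n :
            (B ⊕ D) ⊕ Fin K → Bool) (((Equiv.sumAssoc B D (C' ⊕ D')).symm.trans
            (Equiv.sumCongr (Equiv.refl _) eN.symm)) i)) < l ∨
          u < red (fun i => (Sum.elim (fun j => x ((e4 A B C D).symm (Sum.inl j))) n :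
            (B ⊕ D) ⊕ Fin K → Bool) (((Equiv.sumAssoc B D (C' ⊕ D')).symm.trans
            (Equiv.sumCongr (Equiv.refl _) eN.symm)) i)))) := h1
    have h2' : ¬ (P2 (fun a => x (Sum.inl a)) (fun c => x (Sum.inr (Sum.inr (Sum.inl c))))
        (fun c => n (eN.symm (Sum.inl c))) (fun d => n (eN.symm (Sum.inr d))) ∨
        (red (fun i => (Sum.elim (fun j => x ((e4 A B C D).symm (Sum.inr j))) n :
            (A ⊕ C) ⊕ Fin K → Bool) (((Equiv.sumAssoc A C (C' ⊕ D')).symm.trans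
            (Equiv.sumCongr (Equiv.refl _) eN.symm)) i)) < l ∨
          u < red (fun i => (Sum.elim (fun j => x ((e4 A B C D).symm (Sum.inr j))) n :
            (A ⊕ C) ⊕ Fin K → Bool) (((Equiv.sumAssoc A C (C' ⊕ D')).symm.trans
            (Equiv.sumCongr (Equiv.refl _) eN.symm)) i)))) := h2
    have r0 := red4 x
    have r1 : red (fun i => (Sum.elim (fun j => x ((e4 A B C D).symm (Sum.inl j))) n :
            (B ⊕ D) ⊕ Fin K → Bool) (((Equiv.sumAssoc B D (C' ⊕ D')).symm.trans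
            (Equiv.sumCongr (Equiv.refl _) eN.symm)) i)) =
        red (fun b => x (Sum.inr (Sum.inl b))) + (red (fun d => x (Sum.inr (Sum.inr (Sum.inr d)))) +
        (red (fun c => n (eN.symm (Sum.inl c))) + red (fun d => n (eN.symm (Sum.inr d))))) := by
      rw [red4]
      rfl
    have r2 : red (fun i => (Sum.elim (fun j => x ((e4 A B C D).symm (Sum.inr j))) n :
            (A ⊕ C) ⊕ Fin K → Bool) (((Equiv.sumAssoc A C (C' ⊕ D')).symm.trans
            (Equiv.sumCongr (Equiv.refl _) eN.symm)) i)) =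
        red (fun a => x (Sum.inl a)) + (red (fun c => x (Sum.inr (Sum.inr (Sum.inl c)))) +
        (red (fun c => n (eN.symm (Sum.inl c))) + red (fun d => n (eN.symm (Sum.inr d))))) := by
      rw [red4]
      rfl
    rw [r1] at h1'
    rw [r2] at h2'
    have hx' : P (fun a => x (Sum.inl a)) (fun b => x (Sum.inr (Sum.inl b)))
      (fun c => x (Sum.inr (Sum.inr (Sum.inl c))))
      (fun d => x (Sum.inr (Sum.inr (Sum.inr d)))) := hx
    push Not at h1' h2'
    rcases h _ _ _ _ hx' (by omega) (by omega) (fun c => n (eN.symm (Sum.inl c)))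
      (fun d => n (eN.symm (Sum.inr d))) (by omega) (by omega) (by omega) (by omega) with h3 | h3
    · exact h1'.1 h3
    · exact h2'.1 h3

/-! ### the bundles at the vertices which are split off -/

section pieces

variable (C Q S Z Y F : Type)

def eD1 : (C ⊕ (C ⊕ S)) ⊕ (Q ⊕ Z) ≃ C ⊕ (Q ⊕ (C ⊕ (S ⊕ Z))) where
  toFun p := match p with
    | Sum.inl (Sum.inl c) => Sum.inl c
    | Sum.inl (Sum.inr (Sum.inl c)) => Sum.inr (Sum.inr (Sum.inl c))
    | Sum.inl (Sum.inr (Sum.inr s)) => Sum.inr (Sum.inr (Sum.inr (Sum.inl s)))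
    | Sum.inr (Sum.inl q) => Sum.inr (Sum.inl q)
    | Sum.inr (Sum.inr z) => Sum.inr (Sum.inr (Sum.inr (Sum.inr z)))
  invFun p := match p with
    | Sum.inl c => Sum.inl (Sum.inl c)
    | Sum.inr (Sum.inl q) => Sum.inr (Sum.inl q)
    | Sum.inr (Sum.inr (Sum.inl c)) => Sum.inl (Sum.inr (Sum.inl c))
    | Sum.inr (Sum.inr (Sum.inr (Sum.inl s))) => Sum.inl (Sum.inr (Sum.inr s))
    | Sum.inr (Sum.inr (Sum.inr (Sum.inr z))) => Sum.inr (Sum.inr z)
  left_inv := by rintro ((c | c | s) | (q | z)) <;> rfl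
  right_inv := by rintro (c | q | c | s | z) <;> rfl

def eD3 : (C ⊕ (C ⊕ S)) ⊕ (Z ⊕ Q) ≃ C ⊕ ((S ⊕ Z) ⊕ (C ⊕ Q)) where
  toFun p := match p with
    | Sum.inl (Sum.inl c) => Sum.inl c
    | Sum.inl (Sum.inr (Sum.inl c)) => Sum.inr (Sum.inr (Sum.inl c))
    | Sum.inl (Sum.inr (Sum.inr s)) => Sum.inr (Sum.inl (Sum.inl s))
    | Sum.inr (Sum.inl z) => Sum.inr (Sum.inl (Sum.inr z))
    | Sum.inr (Sum.inr q) => Sum.inr (Sum.inr (Sum.inr q))
  invFun p := match p with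
    | Sum.inl c => Sum.inl (Sum.inl c)
    | Sum.inr (Sum.inl (Sum.inl s)) => Sum.inl (Sum.inr (Sum.inr s))
    | Sum.inr (Sum.inl (Sum.inr z)) => Sum.inr (Sum.inl z)
    | Sum.inr (Sum.inr (Sum.inl c)) => Sum.inl (Sum.inr (Sum.inl c))
    | Sum.inr (Sum.inr (Sum.inr q)) => Sum.inr (Sum.inr q)
  left_inv := by rintro ((c | c | s) | (z | q)) <;> rfl
  right_inv := by rintro (c | (s | z) | c | q) <;> rfl

def eD2 : C ⊕ ((S ⊕ (Z ⊕ Y)) ⊕ (C ⊕ (S ⊕ (Z ⊕ Y)))) ≃
    ((C ⊕ C) ⊕ Z) ⊕ ((S ⊕ S) ⊕ (Y ⊕ (Z ⊕ Y))) where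
  toFun p := match p with
    | Sum.inl c => Sum.inl (Sum.inl (Sum.inl c))
    | Sum.inr (Sum.inl (Sum.inl s)) => Sum.inr (Sum.inl (Sum.inl s))
    | Sum.inr (Sum.inl (Sum.inr (Sum.inl z))) => Sum.inl (Sum.inr z)
    | Sum.inr (Sum.inl (Sum.inr (Sum.inr y))) => Sum.inr (Sum.inr (Sum.inl y))
    | Sum.inr (Sum.inr (Sum.inl c)) => Sum.inl (Sum.inl (Sum.inr c))
    | Sum.inr (Sum.inr (Sum.inr (Sum.inl s))) => Sum.inr (Sum.inl (Sum.inr s))
    | Sum.inr (Sum.inr (Sum.inr (Sum.inr z))) => Sum.inr (Sum.inr (Sum.inr z))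
  invFun p := match p with
    | Sum.inl (Sum.inl (Sum.inl c)) => Sum.inl c
    | Sum.inl (Sum.inl (Sum.inr c)) => Sum.inr (Sum.inr (Sum.inl c))
    | Sum.inl (Sum.inr z) => Sum.inr (Sum.inl (Sum.inr (Sum.inl z)))
    | Sum.inr (Sum.inl (Sum.inl s)) => Sum.inr (Sum.inl (Sum.inl s))
    | Sum.inr (Sum.inl (Sum.inr s)) => Sum.inr (Sum.inr (Sum.inr (Sum.inl s)))
    | Sum.inr (Sum.inr (Sum.inl y)) => Sum.inr (Sum.inl (Sum.inr (Sum.inr y)))
    | Sum.inr (Sum.inr (Sum.inr z)) => Sum.inr (Sum.inr (Sum.inr (Sum.inr z)))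
  left_inv := by rintro (c | (s | z | y) | c | s | z) <;> rfl
  right_inv := by rintro (((c | c) | z) | ((s | s) | (y | z))) <;> rfl

def eX : (F ⊕ C) ⊕ (Z ⊕ Q) ≃ F ⊕ (Z ⊕ (C ⊕ Q)) where
  toFun p := match p with
    | Sum.inl (Sum.inl f) => Sum.inl f
    | Sum.inl (Sum.inr c) => Sum.inr (Sum.inr (Sum.inl c))
    | Sum.inr (Sum.inl z) => Sum.inr (Sum.inl z)
    | Sum.inr (Sum.inr q) => Sum.inr (Sum.inr (Sum.inr q))
  invFun p := match p with
    | Sum.inl f => Sum.inl (Sum.inl f)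
    | Sum.inr (Sum.inl z) => Sum.inr (Sum.inl z)
    | Sum.inr (Sum.inr (Sum.inl c)) => Sum.inl (Sum.inr c)
    | Sum.inr (Sum.inr (Sum.inr q)) => Sum.inr (Sum.inr q)
  left_inv := by rintro ((f | c) | (z | q)) <;> rfl
  right_inv := by rintro (f | z | c | q) <;> rfl

end pieces

theorem kD1 {K l u L : ℕ} {C Q S Z : Type} [Finite C] [Finite Q] [Finite S] [Finite Z]
    (h1 : 2 * Nat.card C + Nat.card S = L)
    (h2 : 2 * Nat.card C + Nat.card S + (Nat.card Q + Nat.card Z) = 2 * K) (hW : W K l u L 0) :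
    K4 K l u C Q C (S ⊕ Z) fun c _ c' q' =>
      red c + red c' + red (fun s => q' (Sum.inl s)) = 0 := by
  refine (kill_test (K := K) (l := l) (u := u) (L := L) (eD1 C Q S Z) ?_ ?_).mono ?_
  · rw [Nat.card_sum, Nat.card_sum]; omega
  · rw [Nat.card_sum, Nat.card_sum, Nat.card_sum]; omega
  · intro y hy
    have hy' : red (fun c => y (Sum.inl c)) + red (fun c => y (Sum.inr (Sum.inr (Sum.inl c)))) +
      red (fun s => y (Sum.inr (Sum.inr (Sum.inr (Sum.inl s))))) = 0 := hy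
    have e : red (fun f : C ⊕ (C ⊕ S) => y (eD1 C Q S Z (Sum.inl f))) =
        red (fun c => y (Sum.inl c)) + (red (fun c => y (Sum.inr (Sum.inr (Sum.inl c)))) +
        red (fun s => y (Sum.inr (Sum.inr (Sum.inr (Sum.inl s)))))) := by
      rw [red_sum, red_sum]
      rfl
    show W K l u L (red (fun f : C ⊕ (C ⊕ S) => y (eD1 C Q S Z (Sum.inl f))))
    rw [e]
    have e0 : red (fun c => y (Sum.inl c)) + (red (fun c => y (Sum.inr (Sum.inr (Sum.inl c)))) +
        red (fun s => y (Sum.inr (Sum.inr (Sum.inr (Sum.inl s)))))) = 0 := by omega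
    rw [e0]
    exact hW

theorem kD3 {K l u L : ℕ} {C Q S Z : Type} [Finite C] [Finite Q] [Finite S] [Finite Z]
    (h1 : 2 * Nat.card C + Nat.card S = L)
    (h2 : 2 * Nat.card C + Nat.card S + (Nat.card Z + Nat.card Q) = 2 * K) (hW : W K l u L 0) :
    K4 K l u C (S ⊕ Z) C Q fun c q c' _ =>
      red c + red c' + red (fun s => q (Sum.inl s)) = 0 := by
  refine (kill_test (K := K) (l := l) (u := u) (L := L) (eD3 C Q S Z) ?_ ?_).mono ?_
  · rw [Nat.card_sum, Nat.card_sum]; omega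
  · rw [Nat.card_sum, Nat.card_sum, Nat.card_sum]; omega
  · intro y hy
    have hy' : red (fun c => y (Sum.inl c)) + red (fun c => y (Sum.inr (Sum.inr (Sum.inl c)))) +
      red (fun s => y (Sum.inr (Sum.inl (Sum.inl s)))) = 0 := hy
    have e : red (fun f : C ⊕ (C ⊕ S) => y (eD3 C Q S Z (Sum.inl f))) =
        red (fun c => y (Sum.inl c)) + (red (fun c => y (Sum.inr (Sum.inr (Sum.inl c)))) +
        red (fun s => y (Sum.inr (Sum.inl (Sum.inl s))))) := by
      rw [red_sum, red_sum]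
      rfl
    show W K l u L (red (fun f : C ⊕ (C ⊕ S) => y (eD3 C Q S Z (Sum.inl f))))
    rw [e]
    have e0 : red (fun c => y (Sum.inl c)) + (red (fun c => y (Sum.inr (Sum.inr (Sum.inl c)))) +
        red (fun s => y (Sum.inr (Sum.inl (Sum.inl s))))) = 0 := by omega
    rw [e0]
    exact hW

theorem kD2 {K l u : ℕ} {C S Z Y : Type} [Finite C] [Finite S] [Finite Z] [Finite Y]
    (hS : Nat.card S ≤ K)
    (h1 : 2 * Nat.card C + Nat.card Z = K)
    (h2 : 2 * Nat.card S + 2 * Nat.card Y + Nat.card Z = K)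
    (hW2 : W K l u (2 * Nat.card C + Nat.card S) 0)
    (hW3 : ∀ p, 3 ≤ p → W K l u (3 * Nat.card S) p) :
    K4 K l u C (S ⊕ (Z ⊕ Y)) C (S ⊕ (Z ⊕ Y)) fun c q c' q' => red c = 0 ∧ red c' = 0 ∧
      1 ≤ red (fun s => q (Sum.inl s)) ∧ 1 ≤ red (fun s => q' (Sum.inl s)) := by
  have hNc : Nat.card (Fin K) = Nat.card (S ⊕ Fin (K - Nat.card S)) := by
    rw [Nat.card_sum, Nat.card_fin, Nat.card_fin]; omega
  obtain ⟨eN⟩ := Finite.card_eq.mp hNc
  have q1 := kill_test (K := K) (l := l) (u := u) (L := 2 * Nat.card C + Nat.card S)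
    (F := (C ⊕ C) ⊕ S) (R := Z ⊕ Fin (K - Nat.card S))
    ((Equiv.sumSumSumComm (C ⊕ C) S Z (Fin (K - Nat.card S))).trans
      (Equiv.sumCongr (Equiv.refl _) eN.symm))
    (by rw [Nat.card_sum, Nat.card_sum]; omega)
    (by rw [Nat.card_sum, Nat.card_sum, Nat.card_sum, Nat.card_fin]; omega)
  have q2 := kill_test (K := K) (l := l) (u := u) (L := 3 * Nat.card S) (F := (S ⊕ S) ⊕ S)
    (R := (Y ⊕ (Z ⊕ Y)) ⊕ Fin (K - Nat.card S))
    ((Equiv.sumSumSumComm (S ⊕ S) S (Y ⊕ (Z ⊕ Y)) (Fin (K - Nat.card S))).trans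
      (Equiv.sumCongr (Equiv.refl _) eN.symm))
    (by rw [Nat.card_sum, Nat.card_sum]; omega)
    (by rw [Nat.card_sum, Nat.card_sum, Nat.card_sum, Nat.card_sum, Nat.card_sum, Nat.card_fin]
        omega)
  refine Kill.node _ ((C ⊕ C) ⊕ Z) ((S ⊕ S) ⊕ (Y ⊕ (Z ⊕ Y))) ?_ ?_ (eD2 C S Z Y) _ _ _ q1 q2 ?_
  · rw [Nat.card_sum, Nat.card_sum]; omega
  · rw [Nat.card_sum, Nat.card_sum, Nat.card_sum, Nat.card_sum]; omega
  · intro x hx
    right
    intro n
    obtain ⟨x1, x2, x3, x4⟩ := hx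
    by_cases hn : red (fun s : S => n (eN.symm (Sum.inl s))) = 0
    · left
      have e : red (fun f : (C ⊕ C) ⊕ S => (Sum.elim (fun j => x ((eD2 C S Z Y).symm (Sum.inl j))) n :
          ((C ⊕ C) ⊕ Z) ⊕ Fin K → Bool) (((Equiv.sumSumSumComm (C ⊕ C) S Z
          (Fin (K - Nat.card S))).trans (Equiv.sumCongr (Equiv.refl _) eN.symm)) (Sum.inl f))) =
          (red (fun c => x (Sum.inl c)) + red (fun c => x (Sum.inr (Sum.inr (Sum.inl c))))) +
          red (fun s : S => n (eN.symm (Sum.inl s))) := by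
        rw [red_sum, red_sum]
        rfl
      show W K l u (2 * Nat.card C + Nat.card S) (red (fun f : (C ⊕ C) ⊕ S =>
          (Sum.elim (fun j => x ((eD2 C S Z Y).symm (Sum.inl j))) n :
          ((C ⊕ C) ⊕ Z) ⊕ Fin K → Bool) (((Equiv.sumSumSumComm (C ⊕ C) S Z
          (Fin (K - Nat.card S))).trans (Equiv.sumCongr (Equiv.refl _) eN.symm)) (Sum.inl f))))
      rw [e, hn]
      have e0 : (red (fun c => x (Sum.inl c)) + red (fun c => x (Sum.inr (Sum.inr (Sum.inl c))))) + 0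
          = 0 := by
        have x1' : red (fun c => x (Sum.inl c)) = 0 := x1
        have x2' : red (fun c => x (Sum.inr (Sum.inr (Sum.inl c)))) = 0 := x2
        omega
      rw [e0]
      exact hW2
    · right
      have e : red (fun f : (S ⊕ S) ⊕ S => (Sum.elim (fun j => x ((eD2 C S Z Y).symm (Sum.inr j))) n :
          ((S ⊕ S) ⊕ (Y ⊕ (Z ⊕ Y))) ⊕ Fin K → Bool) (((Equiv.sumSumSumComm (S ⊕ S) S (Y ⊕ (Z ⊕ Y))
          (Fin (K - Nat.card S))).trans (Equiv.sumCongr (Equiv.refl _) eN.symm)) (Sum.inl f))) =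
          (red (fun s => x (Sum.inr (Sum.inl (Sum.inl s)))) +
            red (fun s => x (Sum.inr (Sum.inr (Sum.inr (Sum.inl s)))))) +
          red (fun s : S => n (eN.symm (Sum.inl s))) := by
        rw [red_sum, red_sum]
        rfl
      show W K l u (3 * Nat.card S) (red (fun f : (S ⊕ S) ⊕ S =>
          (Sum.elim (fun j => x ((eD2 C S Z Y).symm (Sum.inr j))) n :
          ((S ⊕ S) ⊕ (Y ⊕ (Z ⊕ Y))) ⊕ Fin K → Bool) (((Equiv.sumSumSumComm (S ⊕ S) S (Y ⊕ (Z ⊕ Y))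
          (Fin (K - Nat.card S))).trans (Equiv.sumCongr (Equiv.refl _) eN.symm)) (Sum.inl f))))
      rw [e]
      have x3' : 1 ≤ red (fun s => x (Sum.inr (Sum.inl (Sum.inl s)))) := x3
      have x4' : 1 ≤ red (fun s => x (Sum.inr (Sum.inr (Sum.inr (Sum.inl s))))) := x4
      exact hW3 _ (by omega)

/-- **The middle.** `P` red edges among `m` alive edges. -/
theorem midG {K l u m t P : ℕ} (hmt : m + t ≤ K) (hm : K ≤ 2 * m) (hlu : 2 * u < l + 2 * (P + 1))
    (h2 : W K l u (2 * (K - m) + t) 0) (h3 : ∀ p, 3 ≤ p → W K l u (3 * t) p) : W K l u m P := by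
  intro F R _ _ hF hR T hT
  have hP : ∀ p, P < p → W K l u K p := fun p hp => W_base le_rfl (Or.inl (by omega))
  have cC : Nat.card (Fin (K - m)) = K - m := Nat.card_fin _
  have cS : Nat.card (Fin t) = t := Nat.card_fin _
  have cZ : Nat.card (Fin (2 * m - K)) = 2 * m - K := Nat.card_fin _
  have cY : Nat.card (Fin (K - m - t)) = K - m - t := Nat.card_fin _
  have cQ : Nat.card (Fin t ⊕ (Fin (2 * m - K) ⊕ Fin (K - m - t))) = m := by
    rw [Nat.card_sum, Nat.card_sum, cS, cZ, cY]; omega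
  -- the last vertex of the chain
  have k4 : K4 K l u F (Fin (K - m)) (Fin (K - m)) (Fin t ⊕ (Fin (2 * m - K) ⊕ Fin (K - m - t)))
      fun xm _ cc _ => xm ∈ T ∨ P + 1 ≤ red xm + red cc := by
    have hT1 : Kill K l u (F ⊕ (Fin (K - m) ⊕ (Fin (K - m) ⊕
        (Fin t ⊕ (Fin (2 * m - K) ⊕ Fin (K - m - t))))))
        {x | (fun f => x (Sum.inl f)) ∈ T} := by
      refine kill_rest ?_ hT
      rw [Nat.card_sum, Nat.card_sum, cQ, cC]; omega
    have hT2 := hT1.transport (Equiv.sumAssoc F (Fin (K - m)) (Fin (K - m) ⊕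
        (Fin t ⊕ (Fin (2 * m - K) ⊕ Fin (K - m - t))))).symm
    have hT3 := W_seq' (K := K) (l := l) (u := u) (L := K) (F ⊕ Fin (K - m)) (Fin (K - m) ⊕
        (Fin t ⊕ (Fin (2 * m - K) ⊕ Fin (K - m - t))))
      (by rw [Nat.card_sum, hF, cC]; omega)
      (by rw [Nat.card_sum, Nat.card_sum, hF, cQ, cC]; omega)
      {w | (fun f => w (Sum.inl f)) ∈ T} hT2
    have hT4 := hT3.transport (eX (Fin (K - m)) (Fin t ⊕ (Fin (2 * m - K) ⊕ Fin (K - m - t)))
      (Fin (K - m)) F)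
    refine hT4.mono ?_
    intro y hy
    have hy' : (fun f => y (Sum.inl f)) ∈ T ∨ P + 1 ≤ red (fun f => y (Sum.inl f)) +
      red (fun c => y (Sum.inr (Sum.inr (Sum.inl c)))) := hy
    rcases hy' with hy' | hy'
    · exact Or.inl hy'
    · right
      have e : red (fun f : F ⊕ Fin (K - m) => y (eX (Fin (K - m))
          (Fin t ⊕ (Fin (2 * m - K) ⊕ Fin (K - m - t))) (Fin (K - m)) F (Sum.inl f))) =
          red (fun f => y (Sum.inl f)) + red (fun c => y (Sum.inr (Sum.inr (Sum.inl c)))) := by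
        rw [red_sum]
        rfl
      show W K l u K (red (fun f : F ⊕ Fin (K - m) => y (eX (Fin (K - m))
          (Fin t ⊕ (Fin (2 * m - K) ⊕ Fin (K - m - t))) (Fin (K - m)) F (Sum.inl f))))
      rw [e]
      exact hP _ (by omega)
  have hBD : Nat.card (Fin (K - m)) +
      Nat.card (Fin t ⊕ (Fin (2 * m - K) ⊕ Fin (K - m - t))) = K := by
    rw [cQ, cC]; omega
  have hAC : Nat.card F + Nat.card (Fin (K - m)) = K := by
    rw [hF, cC]; omega
  have cZY : Nat.card (Fin (2 * m - K) ⊕ Fin (K - m - t)) = m - t := by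
    rw [Nat.card_sum, cZ, cY]; omega
  have d3 : K4 K l u (Fin (K - m)) (Fin t ⊕ (Fin (2 * m - K) ⊕ Fin (K - m - t))) (Fin (K - m))
      (Fin t ⊕ (Fin (2 * m - K) ⊕ Fin (K - m - t))) fun c q c' _ =>
      red c + red c' + red (fun s => q (Sum.inl s)) = 0 :=
    kD3 (L := 2 * (K - m) + t) (by rw [cC, cS]) (by rw [cC, cS, cZY, cQ]; omega) h2
  have d1 : K4 K l u (Fin (K - m)) (Fin t ⊕ (Fin (2 * m - K) ⊕ Fin (K - m - t))) (Fin (K - m))
      (Fin t ⊕ (Fin (2 * m - K) ⊕ Fin (K - m - t))) fun c _ c' q' =>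
      red c + red c' + red (fun s => q' (Sum.inl s)) = 0 :=
    kD1 (L := 2 * (K - m) + t) (by rw [cC, cS]) (by rw [cC, cS, cZY, cQ]; omega) h2
  have d2 : K4 K l u (Fin (K - m)) (Fin t ⊕ (Fin (2 * m - K) ⊕ Fin (K - m - t))) (Fin (K - m))
      (Fin t ⊕ (Fin (2 * m - K) ⊕ Fin (K - m - t))) fun c q c' q' => red c = 0 ∧ red c' = 0 ∧
      1 ≤ red (fun s => q (Sum.inl s)) ∧ 1 ≤ red (fun s => q' (Sum.inl s)) := by
    refine kD2 (by rw [cS]; omega) (by rw [cC, cZ]; omega) (by rw [cS, cZ, cY]; omega) ?_ ?_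
    · rw [cC, cS]; exact h2
    · rw [cS]; exact h3
  have k3 : K4 K l u F (Fin (K - m)) (Fin (K - m)) (Fin t ⊕ (Fin (2 * m - K) ⊕ Fin (K - m - t)))
      fun xm c2 c3 q2 => xm ∈ T ∨ (red xm = P ∧ 1 ≤ red c3) ∨
        (red xm = P ∧ red c2 = 0 ∧ red (fun s => q2 (Sum.inl s)) = 0) := by
    refine node4 hBD hAC hBD d3 k4 ?_
    intro a b c d hP0 w1 w2 c' d' w3 w4 w5 w6
    rcases hP0 with h | ⟨h, h'⟩ | ⟨h, h', h''⟩
    · exact Or.inr (Or.inl h)
    · exfalso; omega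
    · by_cases hc : red c' = 0
      · left; omega
      · right; right; omega
  have k2 : K4 K l u F (Fin (K - m)) (Fin (K - m)) (Fin t ⊕ (Fin (2 * m - K) ⊕ Fin (K - m - t)))
      fun xm c1 c2 q1 => xm ∈ T ∨ (red xm = P ∧ 1 ≤ red c2) ∨
        (red xm = P ∧ red c1 = 0 ∧ 1 ≤ red (fun s => q1 (Sum.inl s))) := by
    refine node4 hBD hAC hBD d2 k3 ?_
    intro a b c d hP0 w1 w2 c' d' w3 w4 w5 w6
    rcases hP0 with h | ⟨h, h'⟩ | ⟨h, h', h''⟩
    · exact Or.inr (Or.inl h)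
    · exfalso; omega
    · by_cases hc0 : 1 ≤ red c
      · exfalso; omega
      by_cases hc : 1 ≤ red c'
      · exact Or.inr (Or.inr (Or.inl ⟨h, hc⟩))
      by_cases hq : red (fun s => d' (Sum.inl s)) = 0
      · exact Or.inr (Or.inr (Or.inr ⟨h, by omega, hq⟩))
      · exact Or.inl ⟨h', by omega, h'', by omega⟩
  have k1 : K4 K l u F (Fin (K - m)) (Fin (K - m)) (Fin t ⊕ (Fin (2 * m - K) ⊕ Fin (K - m - t)))
      fun xm c0 _ _ => xm ∈ T ∨ (red xm = P ∧ red c0 = 0) := by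
    refine node4 hBD hAC hBD d1 k2 ?_
    intro a b c d hP0 w1 w2 c' d' w3 w4 w5 w6
    rcases hP0 with h | ⟨h, h'⟩
    · exact Or.inr (Or.inl h)
    · by_cases hc0 : 1 ≤ red c
      · exfalso; omega
      by_cases hc : 1 ≤ red c'
      · exact Or.inr (Or.inr (Or.inl ⟨h, hc⟩))
      by_cases hq : red (fun s => d' (Sum.inl s)) = 0
      · left; omega
      · exact Or.inr (Or.inr (Or.inr ⟨h, by omega, by omega⟩))
  -- the root
  have r1 := Kill.transport (e := (Equiv.sumAssoc F (Fin (K - m)) (Fin (K - m) ⊕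
        (Fin t ⊕ (Fin (2 * m - K) ⊕ Fin (K - m - t))))).symm) k1
  have r2 : Kill K l u ((F ⊕ Fin (K - m)) ⊕ (Fin (K - m) ⊕
        (Fin t ⊕ (Fin (2 * m - K) ⊕ Fin (K - m - t)))))
      {x | (fun f => x (Sum.inl f)) ∈ {z : F ⊕ Fin (K - m) → Bool | (fun f => z (Sum.inl f)) ∈ T ∨
        (red (fun f => z (Sum.inl f)) = P ∧ red (fun c => z (Sum.inr c)) = 0)}} := r1
  have r3 := W_seq' (K := K) (l := l) (u := u) (L := K) (F ⊕ Fin (K - m)) (Fin (K - m) ⊕
        (Fin t ⊕ (Fin (2 * m - K) ⊕ Fin (K - m - t))))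
      (by rw [Nat.card_sum, hF, cC]; omega)
      (by rw [Nat.card_sum, Nat.card_sum, hF, cQ, cC]; omega) _ r2
  have r4 := r3.transport (Equiv.sumAssoc F (Fin (K - m)) (Fin (K - m) ⊕
        (Fin t ⊕ (Fin (2 * m - K) ⊕ Fin (K - m - t)))))
  have r5 : Kill K l u (F ⊕ (Fin (K - m) ⊕ (Fin (K - m) ⊕
        (Fin t ⊕ (Fin (2 * m - K) ⊕ Fin (K - m - t))))))
      {x | (fun f => x (Sum.inl f)) ∈ {y : F → Bool | y ∈ T ∨ red y = P}} := by
    refine r4.mono ?_
    intro x hx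
    have hx' : (fun f => x (Sum.inl f)) ∈ T ∨ red (fun f => x (Sum.inl f)) = P := hx
    have e : red (fun q : F ⊕ Fin (K - m) => x (Equiv.sumAssoc F (Fin (K - m)) (Fin (K - m) ⊕
        (Fin t ⊕ (Fin (2 * m - K) ⊕ Fin (K - m - t)))) (Sum.inl q))) =
        red (fun f => x (Sum.inl f)) + red (fun c => x (Sum.inr (Sum.inl c))) := by
      rw [red_sum]
      rfl
    show ((fun f => x (Sum.inl f)) ∈ T ∨ (red (fun f => x (Sum.inl f)) = P ∧
      red (fun c => x (Sum.inr (Sum.inl c))) = 0)) ∨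
      W K l u K (red (fun q : F ⊕ Fin (K - m) => x (Equiv.sumAssoc F (Fin (K - m)) (Fin (K - m) ⊕
        (Fin t ⊕ (Fin (2 * m - K) ⊕ Fin (K - m - t)))) (Sum.inl q))))
    rw [e]
    rcases hx' with hx' | hx'
    · exact Or.inl (Or.inl hx')
    · by_cases hc : red (fun c => x (Sum.inr (Sum.inl c))) = 0
      · exact Or.inl (Or.inr ⟨hx', hc⟩)
      · exact Or.inr (hP _ (by omega))
  refine kill_rest ?_ r5
  rw [Nat.card_sum, Nat.card_sum, cQ, cC]; omega

end Pool.Agent.Lib.MP_21a058_co.Slack3.Mid3
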