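import Pool.Agent.Lib.MP_21a058_co.Slack3.Main75
import Pool.Agent.Lib.MP_21a058_co.Slack3.Final

/-! `2K ↦ (3, 2K - 5)` fails for every even `K ≥ 24`. -/

set_option autoImplicit false

namespace Pool.Agent.Lib.MP_21a058_co.Slack3

open Finset Pool.Agent.Lib.MP_21a058_co

theorem not_three {t r : ℕ} (ht : 12 ≤ t) (ks : Fin r → ℕ) (J : Finset (Fin r))
    (hJ : ∑ i ∈ J, ks i = 3) (hJ' : ∑ i ∈ Jᶜ, ks i + 5 = 4 * t) : ¬ Arrow (4 * t) ks := by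
  have h := not_arrow_of_W (K := 2 * t) (l := 3) (u := 5) (l' := 4 * t - 5) (by omega) (by omega)
    (M75.w00 rfl ht) ks J hJ (by omega)
  have e : 2 * (2 * t) = 4 * t := by omega
  rwa [e] at h

/-- The tuple form: `k ≥ (sum of the parts) + 3`. -/
theorem three_more {t r : ℕ} (ht : 12 ≤ t) (ks : Fin r → ℕ) (J : Finset (Fin r))
    (hJ : ∑ i ∈ J, ks i = 3) (hJ' : ∑ i ∈ Jᶜ, ks i + 5 = 4 * t) {k : ℕ} (h : Arrow k ks) :
    ∑ i, ks i + 3 ≤ k := by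
  by_contra hlt
  push Not at hlt
  have hs : ∑ i ∈ J, ks i + ∑ i ∈ Jᶜ, ks i = ∑ i, ks i := sum_add_sum_compl _ _
  exact not_three ht ks J hJ hJ' (arrow_mono (by omega) h)

/-- `f(3, 4 t - 5) ≥ 4 t + 1` for `t ≥ 12`, e.g. `f(3, 43) ≥ 49`. -/
theorem not_devos {t : ℕ} (ht : 12 ≤ t) : ¬ Arrow (3 + (4 * t - 5) + 2) ![3, 4 * t - 5] := by
  intro h
  have e : 3 + (4 * t - 5) + 2 = 4 * t := by omega
  rw [e] at h
  refine not_three ht ![3, 4 * t - 5] {0} (by simp) ?_ h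
  have hc : ({0} : Finset (Fin 2))ᶜ = {1} := by decide
  rw [hc, sum_singleton]
  simp only [Matrix.cons_val_one, Matrix.cons_val_fin_one]
  omega

end Pool.Agent.Lib.MP_21a058_co.Slack3
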