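import Pool.Agent.Lib.MP_21a058_co.Slack3.Rule5
import Pool.Agent.Lib.MP_21a058_co.Slack3.DevOdd
import Pool.Agent.Lib.MP_21a058_co.Slack3.Mid3K
import Pool.Agent.Lib.MP_21a058_co.Slack3.MainK3
import Pool.Agent.Lib.MP_21a058_co.Slack3.End3K
import Pool.Agent.Lib.MP_21a058_co.Slack3.Gad3

/-! Odd edge-connectivity: two groups of classes with an odd sum `a ≥ 5` and an even sum `b`,
`b ≥ 33 a + 33`: `a + b + 2` is not enough. -/

set_option autoImplicit false

namespace Pool.Agent.Lib.MP_21a058_co.Slack3.OddAll47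

open Finset Pool.Agent.Lib.MP_21a058_co
open Pool.Agent.Lib.MP_21a058_co.Odd (red red_le)

theorem ctx {h m : ℕ} (hh : 1 ≤ h) (hm : m ≤ h) :
    DevOdd.Ctx h m (PP.Wp h (2 * m + 1) (2 * m + 3)) := by
  refine ⟨fun p hp => ?_, fun p hp => ?_, fun L p i j hL hi hj hLi hLj hij H => ?_⟩
  · rw [PP.Wp_le le_rfl]
    rcases hp with hp | hp
    · exact PP.base hh le_rfl (by omega) (Or.inr (by omega))
    · exact Mid3K.W3_top hh le_rfl (by omega)
  · rw [PP.Wp_top]
    omega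
  · rw [PP.Wp_le hL]
    exact PP.R2 hh hL hi hj hLi hLj hij H

/-- **Everything is killable.** -/
theorem w00 {h m : ℕ} (hm : 2 ≤ m) (hh : 68 * (m + 1) < 2 * h + 1) :
    W3 h (2 * m + 1) (2 * m + 3) 0 0 := by
  have c := ctx (h := h) (m := m) (by omega) (by omega)
  refine End3K.end3 (h := h) (m := m) hm hh (fun L p => W3 h (2 * m + 1) (2 * m + 3) L p)
    (fun L p hL hp => Mid3K.W3_top (by omega) hL (by omega))
    (fun p hp => PP.base (by omega) le_rfl (by omega) (Or.inr (by omega)))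
    (fun L p h0 hL hd => ?_)
    (fun L p i j hij hLi hLj H => ?_)
    (fun L p i j hLi hLj hij H => W3_R2 (by omega) hLi hLj hij H)
    (fun c t hc ht htc hct h3t hW0 hW3 => MK3.mainK3 hc (Nat.add_sub_of_le (by omega)) htc
      (by omega) (by omega) hW0 hW3)
  · have e : (2 * m + 2) * L = 2 * ((m + 1) * L) := by ring
    rcases hd with hd | hd
    · have := c.hi h0 hL (p := p) (by rw [e]; omega)
      rwa [PP.Wp_le hL] at this
    · have := c.lo h0 hL (p := p) (by rw [e]; omega)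
      rwa [PP.Wp_le hL] at this
  · refine PP.R2 (i := i) (j := j) (by omega) (by omega) (by omega) (by omega) (by omega) (by omega)
      (by omega) fun a b ha hb => ?_
    by_cases hab : m ≤ a + b
    · rcases H a b ha hb hab with h1 | h1
      · exact Or.inl ((PP.Wp_le hLi).2 h1)
      · exact Or.inr (Or.inl ((PP.Wp_le hLj).2 h1))
    · refine Or.inr (Or.inr ?_)
      rw [hij, PP.Wp_top]
      omega

/-- Two groups of classes with sums `2 m + 1` and `l'`, `2 m + l' + 3 = 2 h`. -/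
theorem odd_k {h m l' r : ℕ} (hm : 2 ≤ m) (hh : 68 * (m + 1) < 2 * h + 1)
    (hl : 2 * m + l' + 2 = 2 * h) (ks : Fin r → ℕ)
    (J : Finset (Fin r)) (hJ : ∑ i ∈ J, ks i = 2 * m + 1) (hJ' : ∑ i ∈ Jᶜ, ks i = l') :
    ¬ Arrow (2 * h + 1) ks := by
  have hk : Kill3 h (2 * m + 1) (2 * m + 3) (Fin 0 ⊕ Fin (2 * h + 1)) Set.univ := by
    have h1 := w00 hm hh (Fin 0) (Fin (2 * h + 1)) (Nat.card_fin 0)
      (by rw [Nat.card_fin, Nat.card_fin]; omega) ∅
      ((Kill3.empty h (2 * m + 1) (2 * m + 3) _).mono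
        (by intro x hx; exact absurd hx (Set.notMem_empty _)))
    refine h1.mono ?_
    intro x _
    right
    have := red_le (fun f : Fin 0 => x (Sum.inl f))
    rw [Nat.card_fin] at this
    omega
  exact Kill3.false_of_univ (u := 2 * m + 3) (by omega) hk
    (by rw [Nat.card_sum, Nat.card_fin, Nat.card_fin]; omega) ks J hJ hJ'

/-- `a` odd, `a ≥ 5`, the sum of all parts odd and at least `34 a + 33`. -/
theorem odd_sum (k r : ℕ) (ks : Fin r → ℕ) (J : Finset (Fin r)) (ha : Odd (∑ i ∈ J, ks i))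
    (ha5 : 5 ≤ ∑ i ∈ J, ks i) (hS : Odd (∑ i, ks i)) (hab : 34 * ∑ i ∈ J, ks i + 33 ≤ ∑ i, ks i)
    (h : Arrow k ks) : ∑ i, ks i + 3 ≤ k := by
  by_contra hlt
  push Not at hlt
  obtain ⟨m, hm⟩ := ha
  obtain ⟨n, hn⟩ := hS
  have hs : ∑ i ∈ J, ks i + ∑ i ∈ Jᶜ, ks i = ∑ i, ks i := sum_add_sum_compl _ _
  refine odd_k (h := n + 1) (m := m) (l' := ∑ i ∈ Jᶜ, ks i) (by omega) (by omega) (by omega) ks J
    hm rfl (arrow_mono ?_ h)
  omega

end Pool.Agent.Lib.MP_21a058_co.Slack3.OddAll47
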