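import Pool.Agent.Lib.MP_21a058_co.Slack3.End5
import Pool.Agent.Lib.MP_21a058_co.Slack3.DevOdd
import Pool.Agent.Lib.MP_21a058_co.Slack3.Gad3

/-! Odd edge-connectivity `2 h + 1 = a + b + 2` with `a = 2 m + 1 ≥ 5` odd and `b` even,
`b ≥ 33 a + 33`: the value `a + b + 2` is not enough. -/

set_option autoImplicit false

namespace Pool.Agent.Lib.MP_21a058_co.Slack3.OddGen

open Finset Pool.Agent.Lib.MP_21a058_co
open Pool.Agent.Lib.MP_21a058_co.Odd (red red_le)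

/-- The calculus for the window `2 m + 1 ≤ red ≤ 2 m + 3`. -/
theorem ctx {h m : ℕ} (hh : 1 ≤ h) :
    DevOdd.Ctx h m (PP.Wp h (2 * m + 1) (2 * m + 3)) where
  bh p hp := by
    rw [PP.Wp_le le_rfl]
    exact PP.baseH hh le_rfl (by omega)
  bh1 p hp := by
    rw [PP.Wp_top]
    omega
  r2 L p i j hL hi hj hLi hLj hij H := by
    rw [PP.Wp_le hL]
    exact PP.R2 hh hL hi hj hLi hLj hij H

theorem dev {h m : ℕ} (hh : 1 ≤ h) : End5.Dev h m := by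
  intro L p h1 hL hD
  rw [← PP.Wp_le hL]
  exact (ctx hh).dev h1 hL hD

theorem W_zero {h m : ℕ} (hm : 2 ≤ m) (hh : 34 * (m + 1) ≤ h) :
    W3 h (2 * m + 1) (2 * m + 3) 0 0 := End5.w00 (dev (by omega)) hm hh

theorem not_arrow {h m l' r : ℕ} (hm : 2 ≤ m) (hh : 34 * (m + 1) ≤ h)
    (hl : l' + (2 * m + 2) = 2 * h) (ks : Fin r → ℕ) (J : Finset (Fin r))
    (hJ : ∑ i ∈ J, ks i = 2 * m + 1) (hJ' : ∑ i ∈ Jᶜ, ks i = l') : ¬ Arrow (2 * h + 1) ks := by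
  have hk : Kill3 h (2 * m + 1) (2 * m + 3) (Fin 0 ⊕ Fin (2 * h + 1)) Set.univ := by
    have h1 := W_zero hm hh (Fin 0) (Fin (2 * h + 1)) (Nat.card_fin 0)
      (by rw [Nat.card_fin, Nat.card_fin]; omega) ∅
      ((Kill3.empty h _ _ _).mono (by intro x hx; exact absurd hx (Set.notMem_empty x)))
    refine h1.mono ?_
    intro x _
    right
    have := red_le (fun f : Fin 0 => x (Sum.inl f))
    rw [Nat.card_fin] at this
    omega
  exact Kill3.false_of_univ (u := 2 * m + 3) (by omega) hk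
    (by rw [Nat.card_sum, Nat.card_fin, Nat.card_fin]; omega) ks J hJ hJ'

/-- `a` odd, `a ≥ 5`, the sum `S` of all parts odd and `34 a + 33 ≤ S`: `k ≥ S + 3`. -/
theorem odd_sum (k r : ℕ) (ks : Fin r → ℕ) (J : Finset (Fin r)) (ha : Odd (∑ i ∈ J, ks i))
    (ha5 : 5 ≤ ∑ i ∈ J, ks i) (hS : Odd (∑ i, ks i))
    (hab : 34 * ∑ i ∈ J, ks i + 33 ≤ ∑ i, ks i) (h : Arrow k ks) : ∑ i, ks i + 3 ≤ k := by
  by_contra hlt
  push Not at hlt
  obtain ⟨m, hm⟩ := ha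
  obtain ⟨n, hn⟩ := hS
  have hs : ∑ i ∈ J, ks i + ∑ i ∈ Jᶜ, ks i = ∑ i, ks i := sum_add_sum_compl _ _
  refine not_arrow (h := n + 1) (m := m) (l' := ∑ i ∈ Jᶜ, ks i) (by omega) (by omega) (by omega)
    ks J hm rfl (arrow_mono ?_ h)
  omega

end Pool.Agent.Lib.MP_21a058_co.Slack3.OddGen
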