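import Pool.Agent.Lib.MP_21a058_co.Slack3.OddKm

/-! Odd edge-connectivity `2 h + 1` and the window `3 ≤ red ≤ 5`: everything is killable for odd
`h ≥ 37` and even `h ≥ 44`. -/

set_option autoImplicit false

namespace Pool.Agent.Lib.MP_21a058_co.Slack3.OddK

open Finset Pool.Agent.Lib.MP_21a058_co
open Pool.Agent.Lib.MP_21a058_co.Odd (red red_sum red_equiv red_le)

/-- three red edges among `h - c` edges which stay alive -/
theorem main {h c z : ℕ} (hcz : 2 * c + z = h + 1) (hz : 6 * z + 1 ≤ h) : W3 h 3 5 (h - c) 3 := by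
  intro F R _ _ hF hR T hT
  set A := Fin c with hAd
  set Z := Fin z with hZd
  have cA : Nat.card A = c := Nat.card_fin _
  have cZ : Nat.card Z = z := Nat.card_fin _
  have hh : 1 ≤ h := by omega
  have hA : 2 * Nat.card A + Nat.card Z = h + 1 := by omega
  have hA1 : 1 ≤ Nat.card A := by omega
  have hFA : Nat.card F + Nat.card A = h := by omega
  have cN : Nat.card (NB A Z) = h + 1 := by
    simp only [NB, Nat.card_sum]
    omega
  have h5 : Fo h 3 5 (RB A Z F) (fun x => (fun i => x (Sum.inl (Sum.inl i))) ∉ T ∧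
      (red (fun i => x (Sum.inl (Sum.inl i))) = 3 →
        (fun _ _ => True : (F ⊕ A → Bool) → (NB A Z → Bool) → Prop) (fun i => x (Sum.inl i))
          (fun i => x (Sum.inr i)))) := by
    have cR : Nat.card R = Nat.card (A ⊕ NB A Z) := by
      rw [Nat.card_sum, cN]
      omega
    refine Kill3.mono ((kill3_rest cR hT).transport (Equiv.sumAssoc F A (NB A Z)).symm)
      fun x hx => ?_
    by_contra hc
    exact hx ⟨hc, fun _ => trivial⟩
  -- after `C_4`
  have h4 := step (T := T) (G := fun _ _ => True) (G' := fun _ _ => True) hFA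
    (two0 hh hA hA1) h5 (fun _ _ _ _ _ _ => trivial)
  -- after `C_3`
  have h3 := step (T := T) (G := fun _ b => red (fun i => b (Sum.inl i)) = 0 ∧ True)
    (G' := fun a b => 1 ≤ red (fun i => a (Sum.inr i)) + red (fun i => b (Sum.inr (Sum.inr i))))
    hFA (twoL hh hA hA1) h4 (by
      intro x n h3 h0 hP hG
      have hP' : 1 ≤ red (fun i => x (Sum.inl (Sum.inr i))) +
        (red (fun i => n (Sum.inl i)) + red (fun i => x (Sum.inr (Sum.inr (Sum.inr i))))) := hP
      have hG' : red (fun i => n (Sum.inl i)) = 0 := hG.1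
      show 1 ≤ red (fun i => x (Sum.inl (Sum.inr i))) +
        red (fun i => x (Sum.inr (Sum.inr (Sum.inr i))))
      omega)
  -- after `C_2`
  have h2 := step (T := T) (G := fun a b => red (fun i => b (Sum.inl i)) = 0 ∧
      1 ≤ red (fun i => a (Sum.inr i)) + red (fun i => b (Sum.inr (Sum.inr i))))
    (G' := fun a b => red (fun i => a (Sum.inr i)) = 0 → red (fun i => b (Sum.inr (Sum.inr i))) = 0)
    hFA (twoM hh hA hA1 (by omega) (by omega)) h3 (by
      intro x n h3 h0 hP hG
      have hP' : ¬ (red (fun i => x (Sum.inl (Sum.inr i))) = 0 ∧ red (fun i => n (Sum.inl i)) = 0 ∧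
        1 ≤ red (fun i => x (Sum.inr (Sum.inr (Sum.inr i)))) ∧
        1 ≤ red (fun i => n (Sum.inr (Sum.inr i)))) := hP
      have hG1 : red (fun i => n (Sum.inl i)) = 0 := hG.1
      have hG2 : 1 ≤ red (fun i => x (Sum.inr (Sum.inl i))) +
        red (fun i => n (Sum.inr (Sum.inr i))) := hG.2
      show red (fun i => x (Sum.inl (Sum.inr i))) = 0 →
        red (fun i => x (Sum.inr (Sum.inr (Sum.inr i)))) = 0
      intro h5
      by_contra h6
      exact hP' ⟨h5, hG1, by omega, by omega⟩)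
  -- after `C_1`
  have h1 := step (T := T) (G := fun a b => red (fun i => b (Sum.inl i)) = 0 ∧
      (red (fun i => a (Sum.inr i)) = 0 → red (fun i => b (Sum.inr (Sum.inr i))) = 0))
    (G' := fun a _ => 1 ≤ red (fun i => a (Sum.inr i)))
    hFA (twoR hh hA hA1) h2 (by
      intro x n h3 h0 hP hG
      have hP' : 1 ≤ red (fun i => n (Sum.inl i)) +
        (red (fun i => x (Sum.inl (Sum.inr i))) + red (fun i => n (Sum.inr (Sum.inr i)))) := hP
      have hG1 : red (fun i => n (Sum.inl i)) = 0 := hG.1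
      have hG2 : red (fun i => x (Sum.inr (Sum.inl i))) = 0 →
        red (fun i => n (Sum.inr (Sum.inr i))) = 0 := hG.2
      show 1 ≤ red (fun i => x (Sum.inl (Sum.inr i)))
      have := hG2 h0
      omega)
  -- the root
  have h0 := step (T := T) (G := fun a b => red (fun i => b (Sum.inl i)) = 0 ∧
      1 ≤ red (fun i => a (Sum.inr i))) (G' := fun _ _ => False)
    hFA (two0 hh hA hA1) h1 (by
      intro x n h3 h0 hP hG
      have hG2 : 1 ≤ red (fun i => x (Sum.inr (Sum.inl i))) := hG.2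
      omega)
  have cR : Nat.card (A ⊕ NB A Z) = Nat.card R := by
    rw [Nat.card_sum, cN]
    omega
  refine kill3_rest (T := {y | y ∈ T ∨ red y = 3}) cR
    (Kill3.mono (h0.transport (Equiv.sumAssoc F A (NB A Z))) fun x hx => ?_)
  intro hc
  rcases hx with hx | hx
  · exact hc.1 hx
  · exact (hc.2 hx).2

/-- The admissible values of `h`. -/
def Ok (h : ℕ) : Prop := (h % 2 = 1 ∧ 37 ≤ h) ∨ 44 ≤ h

theorem mainle {h L : ℕ} (ho : Ok h) (hL : 2 * L ≤ h + 6) :
    W3 h 3 5 L 3 := by
  have hm : W3 h 3 5 (h - (h - 5) / 2) 3 := by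
    refine main (c := (h - 5) / 2) (z := h + 1 - 2 * ((h - 5) / 2)) ?_ ?_ <;>
      rcases ho with ⟨h1, h2⟩ | h1 <;> omega
  refine wle ?_ ?_ ?_ hm <;> rcases ho with ⟨h1, h2⟩ | h1 <;> omega

theorem w22 {h : ℕ} (ho : Ok h) : W3 h 3 5 2 2 := by
  have hh : 37 ≤ h := by rcases ho with ⟨h1, h2⟩ | h1 <;> omega
  refine r2 (q := (h + 1) / 2) (by omega) (by omega) (by omega) (by omega) fun a b hab => ?_
  by_cases ha : a = 0
  · right
    by_cases hb : b = 1
    · subst hb
      exact mainle ho (by omega)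
    · exact wge4 (by omega) (by omega) (by omega)
  · left
    by_cases hb : a = 1
    · subst hb
      exact mainle ho (by omega)
    · exact wge4 (by omega) (by omega) (by omega)

def eB (F H : Type) : F ⊕ ((H ⊕ Unit) ⊕ Unit) ≃ (H ⊕ Unit) ⊕ (F ⊕ Unit) where
  toFun p := match p with
    | Sum.inl i => Sum.inr (Sum.inl i)
    | Sum.inr (Sum.inl (Sum.inl i)) => Sum.inl (Sum.inl i)
    | Sum.inr (Sum.inl (Sum.inr i)) => Sum.inr (Sum.inr i)
    | Sum.inr (Sum.inr i) => Sum.inl (Sum.inr i)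
  invFun p := match p with
    | Sum.inr (Sum.inl i) => Sum.inl i
    | Sum.inl (Sum.inl i) => Sum.inr (Sum.inl (Sum.inl i))
    | Sum.inr (Sum.inr i) => Sum.inr (Sum.inl (Sum.inr i))
    | Sum.inl (Sum.inr i) => Sum.inr (Sum.inr i)
  left_inv := by rintro (i | ((i | i) | i)) <;> rfl
  right_inv := by rintro ((i | i) | (i | i)) <;> rfl

theorem red_unit (x : Unit → Bool) : red x ≤ 1 := by
  have := red_le x
  rwa [Nat.card_eq_fintype_card, Fintype.card_unit] at this

/-- all `h` edges blue -/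
theorem wh0 {h : ℕ} (ho : Ok h) : W3 h 3 5 h 0 := by
  intro F R _ _ hF hR T hT
  have hh : 37 ≤ h := by rcases ho with ⟨h1, h2⟩ | h1 <;> omega
  have hu : Nat.card Unit = 1 := Nat.card_unique
  set H := Fin (h - 1) with hHd
  have cH : Nat.card H = h - 1 := Nat.card_fin _
  have cf : Nat.card (Fin h) = h := Nat.card_fin h
  have cHU : Nat.card (H ⊕ Unit) = h := by
    rw [Nat.card_sum]
    omega
  have cR : Nat.card R = Nat.card ((H ⊕ Unit) ⊕ Unit) := by
    rw [Nat.card_sum, cHU]
    omega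
  have h2 : Fo h 3 5 (F ⊕ ((H ⊕ Unit) ⊕ Unit)) (fun x => (fun i => x (Sum.inl i)) ∉ T) := by
    refine Kill3.mono (kill3_rest cR hT) fun x hx => ?_
    exact Classical.not_not.1 hx
  -- the two red edges at one vertex
  have hv : Fo h 3 5 ((H ⊕ Unit) ⊕ (Fin h ⊕ Unit)) (fun x =>
      red (fun i => x (Sum.inl (Sum.inr i))) + red (fun i => x (Sum.inr (Sum.inr i))) ≤ 1) := by
    have ha := alive (h := h) (l := 3) (u := 5) (X := Unit ⊕ Unit) (R := H ⊕ Fin h)
      (P := fun _ => True)
      ((Equiv.sumSumSumComm Unit Unit H (Fin h)).trans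
        (Equiv.sumCongr (Equiv.sumComm Unit H) (Equiv.sumComm Unit (Fin h))))
      (by rw [Nat.card_sum, Nat.card_sum]; omega) (Fo.triv _ _ _ _)
    refine ha.mono ?_
    rintro x ⟨-, h1⟩
    have r1 : red (fun i : Unit ⊕ Unit => x (((Equiv.sumSumSumComm Unit Unit H (Fin h)).trans
        (Equiv.sumCongr (Equiv.sumComm Unit H) (Equiv.sumComm Unit (Fin h)))) (Sum.inl i))) =
        red (fun i => x (Sum.inl (Sum.inr i))) + red (fun i => x (Sum.inr (Sum.inr i))) :=
      red_sum _
    rw [r1, Nat.card_sum, hu] at h1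
    have u1 := red_unit (fun i => x (Sum.inl (Sum.inr i)))
    have u2 := red_unit (fun i => x (Sum.inr (Sum.inr i)))
    by_contra hc
    apply h1
    have e : red (fun i => x (Sum.inl (Sum.inr i))) + red (fun i => x (Sum.inr (Sum.inr i))) = 2 := by
      omega
    rw [e]
    exact w22 ho
  have hF1 : Nat.card Unit = h + 1 - h := by omega
  -- the second node
  have h1 : Fo h 3 5 (F ⊕ ((H ⊕ Unit) ⊕ Unit)) (fun x => (fun i => x (Sum.inl i)) ∉ T ∧
      (red (fun i => x (Sum.inl i)) = 0 → red (fun i => x (Sum.inr (Sum.inr i))) = 0)) := by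
    refine (Fo.num (q := h) (by omega) le_rfl cHU hF hF1 cHU (Nat.card_fin h) hF1 (eB F H) hv h2
      (Fo.triv _ _ _ _)).mono ?_
    rintro x ⟨n1, n2, n3, g0, g1, g2, g3, g4, hA, hB, -⟩
    have r1 : red (fun j => x ((eB F H).symm (Sum.inr (Sum.inl j)))) =
        red (fun i => x (Sum.inl i)) := rfl
    have hA' : red (fun i => x (Sum.inr (Sum.inr i))) + red n3 ≤ 1 := hA
    refine ⟨hB, fun h0 => ?_⟩
    omega
  -- the first node
  have h0 : Fo h 3 5 (F ⊕ ((H ⊕ Unit) ⊕ Unit)) (fun x => (fun i => x (Sum.inl i)) ∉ T ∧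
      red (fun i => x (Sum.inl i)) ≠ 0) := by
    refine (Fo.num (q := h) (by omega) le_rfl cHU hF hF1 cHU (Nat.card_fin h) hF1 (eB F H)
      (Fo.triv _ _ _ _) h1 (Fo.triv _ _ _ _)).mono ?_
    rintro x ⟨n1, n2, n3, g0, g1, g2, g3, g4, -, hB, -⟩
    have r1 : red (fun j => x ((eB F H).symm (Sum.inr (Sum.inl j)))) =
        red (fun i => x (Sum.inl i)) := rfl
    have hB1 : (fun i => x (Sum.inl i)) ∉ T := hB.1
    have hB2 : red (fun i => x (Sum.inl i)) = 0 → red n3 = 0 := hB.2
    refine ⟨hB1, fun h0 => ?_⟩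
    have := hB2 h0
    omega
  refine kill3_rest (T := {y | y ∈ T ∨ red y = 0}) cR.symm (Kill3.mono h0 fun x hx => ?_)
  rintro ⟨hc, hc'⟩
  rcases hx with hx | hx
  · exact hc hx
  · exact hc' hx

theorem w0 {h : ℕ} (ho : Ok h) : ∀ n, n ≤ h → W3 h 3 5 (h - n) 0 := by
  have hh : 37 ≤ h := by rcases ho with ⟨h1, h2⟩ | h1 <;> omega
  intro n
  induction n with
  | zero =>
    intro _
    exact wh0 ho
  | succ n ih =>
    intro hn
    have h1 := ih (by omega)
    have e : h - (n + 1) + 1 = h - n := by omega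
    refine W3_R2 (i := 1) (j := 1) (by omega) (by omega) (by omega) (by omega)
      fun a b ha hb => ?_
    by_cases h2 : a = 0
    · left
      subst h2
      rw [e]
      exact h1
    · by_cases h3 : b = 0
      · right; left
        subst h3
        rw [e]
        exact h1
      · right; right
        have e1 : a = 1 := by omega
        have e2 : b = 1 := by omega
        subst e1 e2
        exact w22 ho

theorem w00 {h : ℕ} (ho : Ok h) : W3 h 3 5 0 0 := by
  have h1 := w0 ho h le_rfl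
  rwa [Nat.sub_self] at h1

/-- Two classes `3` and `2 h - 4` (or groups of classes with these sums). -/
theorem three_odd {h l' r : ℕ} (ho : Ok h) (hl : l' + 4 = 2 * h) (ks : Fin r → ℕ)
    (J : Finset (Fin r)) (hJ : ∑ i ∈ J, ks i = 3) (hJ' : ∑ i ∈ Jᶜ, ks i = l') :
    ¬ Arrow (2 * h + 1) ks := by
  have hk : Kill3 h 3 5 (Fin 0 ⊕ Fin (2 * h + 1)) Set.univ := by
    have h1 := w00 ho (Fin 0) (Fin (2 * h + 1)) (Nat.card_fin 0)
      (by rw [Nat.card_fin, Nat.card_fin]; omega) ∅
      ((Kill3.empty h 3 5 _).mono (by intro x hx; exact absurd hx (Set.notMem_empty _)))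
    refine h1.mono ?_
    intro x _
    right
    have := red_le (fun f : Fin 0 => x (Sum.inl f))
    rw [Nat.card_fin] at this
    omega
  exact Kill3.false_of_univ (u := 5) (by omega) hk
    (by rw [Nat.card_sum, Nat.card_fin, Nat.card_fin]; omega) ks J hJ hJ'

end Pool.Agent.Lib.MP_21a058_co.Slack3.OddK
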