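import Pool.Agent.Lib.MP_21a058_co.Slack3.OddK

/-! Odd edge-connectivity `2 h + 1` and the window `3 ≤ red ≤ 5`: the chain. -/

set_option autoImplicit false

namespace Pool.Agent.Lib.MP_21a058_co.Slack3.OddK

open Pool.Agent.Lib.MP_21a058_co
open Pool.Agent.Lib.MP_21a058_co.Odd (red red_sum red_equiv red_le)

abbrev NB (A Z : Type) : Type := A ⊕ (A ⊕ Z)

/-- The main bundle. -/
abbrev RB (A Z F : Type) : Type := (F ⊕ A) ⊕ NB A Z

/-- The vertices 2 and 3 of a node, with root edges `I1` and new edges `I2`, force `P`. -/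
def Two (h : ℕ) (I1 I2 : Type) (P : (I1 → Bool) → (I2 → Bool) → Prop) : Prop :=
  ∃ (q : ℕ) (J2 J3 N1 N2 N3 : Type) (_ : Finite J2) (_ : Finite J3) (_ : Finite N1)
    (_ : Finite N2) (_ : Finite N3) (e1 : I1 ≃ J2 ⊕ J3) (e2 : I2 ≃ N2 ⊕ N3)
    (B : (J2 ⊕ (N1 ⊕ N3) → Bool) → Prop) (C : (J3 ⊕ (N1 ⊕ N2) → Bool) → Prop),
    1 ≤ q ∧ q ≤ h ∧ Nat.card J2 = q ∧ Nat.card J3 = h + 1 - q ∧ Nat.card N1 = h ∧
    Nat.card N2 = q ∧ Nat.card N3 = h + 1 - q ∧ Fo h 3 5 (J2 ⊕ (N1 ⊕ N3)) B ∧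
    Fo h 3 5 (J3 ⊕ (N1 ⊕ N2)) C ∧
    ∀ (x2 : J2 → Bool) (x3 : J3 → Bool) (n1 : N1 → Bool) (n2 : N2 → Bool) (n3 : N3 → Bool),
      3 ≤ red x2 + (red n1 + red n3) → red x3 + (red n1 + red n2) ≤ 5 →
      3 ≤ red x2 + red x3 + red n2 + red n3 →
      B (Sum.elim x2 (Sum.elim n1 n3)) → C (Sum.elim x3 (Sum.elim n1 n2)) →
      P (fun i => Sum.elim x2 x3 (e1 i)) (fun i => Sum.elim n2 n3 (e2 i))

def eR (A Z F : Type) : RB A Z F ≃ (F ⊕ A) ⊕ NB A Z where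
  toFun p := match p with
    | Sum.inl (Sum.inl i) => Sum.inl (Sum.inl i)
    | Sum.inl (Sum.inr i) => Sum.inr (Sum.inl i)
    | Sum.inr (Sum.inl i) => Sum.inl (Sum.inr i)
    | Sum.inr (Sum.inr i) => Sum.inr (Sum.inr i)
  invFun p := match p with
    | Sum.inl (Sum.inl i) => Sum.inl (Sum.inl i)
    | Sum.inr (Sum.inl i) => Sum.inl (Sum.inr i)
    | Sum.inl (Sum.inr i) => Sum.inr (Sum.inl i)
    | Sum.inr (Sum.inr i) => Sum.inr (Sum.inr i)
  left_inv := by rintro ((i | i) | (i | i)) <;> rfl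
  right_inv := by rintro ((i | i) | (i | i)) <;> rfl

section

variable {h : ℕ} {A A' R0 Z F : Type} [Finite A] [Finite A'] [Finite R0] [Finite Z] [Finite F]

omit [Finite A'] [Finite R0] in
/-- One node of the chain. -/
theorem step (hF : Nat.card F + Nat.card A = h)
    {T : Set (F → Bool)} {P : (NB A Z → Bool) → (NB A Z → Bool) → Prop}
    {G G' : (F ⊕ A → Bool) → (NB A Z → Bool) → Prop} (hP : Two h (NB A Z) (NB A Z) P)
    (hG : Fo h 3 5 (RB A Z F) (fun x => (fun i => x (Sum.inl (Sum.inl i))) ∉ T ∧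
      (red (fun i => x (Sum.inl (Sum.inl i))) = 3 →
        G (fun i => x (Sum.inl i)) (fun i => x (Sum.inr i)))))
    (hs : ∀ (x : RB A Z F → Bool) (y : NB A Z → Bool),
      red (fun i => x (Sum.inl (Sum.inl i))) = 3 → red (fun i => x (Sum.inr (Sum.inl i))) = 0 →
      P (Sum.elim (fun i => x (Sum.inl (Sum.inr i))) (fun i => x (Sum.inr (Sum.inr i)))) y →
      G (Sum.elim (fun i => x (Sum.inl (Sum.inl i))) (fun i => x (Sum.inr (Sum.inl i)))) y →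
      G' (fun i => x (Sum.inl i)) (fun i => x (Sum.inr i))) :
    Fo h 3 5 (RB A Z F) (fun x => (fun i => x (Sum.inl (Sum.inl i))) ∉ T ∧
      (red (fun i => x (Sum.inl (Sum.inl i))) = 3 → red (fun i => x (Sum.inr (Sum.inl i))) = 0 ∧
        G' (fun i => x (Sum.inl i)) (fun i => x (Sum.inr i)))) := by
  obtain ⟨q, J2, J3, N1, N2, N3, i2, i3, i4, i5, i6, e1, e2, B, C, hq, hq', c2, c3, d1, d2, d3,
    hB, hC, hP'⟩ := hP
  have cF : Nat.card (F ⊕ A) = h := by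
    rw [Nat.card_sum]
    exact hF
  refine (Fo.num hq hq' cF c2 c3 d1 d2 d3
    ((eR A Z F).trans (Equiv.sumCongr (Equiv.refl (F ⊕ A)) e1))
    (hG.transport (Equiv.sumCongr (Equiv.refl (F ⊕ A)) e2)) hB hC).mono ?_
  rintro x ⟨n1, n2, n3, g0, g1, g2, g3, g4, ⟨hT, hg⟩, hb, hc⟩
  have r1 : red (fun j => x (((eR A Z F).trans (Equiv.sumCongr (Equiv.refl (F ⊕ A)) e1)).symm
      (Sum.inl j))) = red (fun i => x (Sum.inl (Sum.inl i))) +
      red (fun i => x (Sum.inr (Sum.inl i))) := red_sum _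
  refine ⟨hT, fun h3 => ?_⟩
  have h0 : red (fun i => x (Sum.inr (Sum.inl i))) = 0 := by omega
  have hp := hP' _ _ n1 n2 n3 g2.1 g3.2 g4.1 hb hc
  have f1 : ∀ w : J2 ⊕ J3, (Sum.elim
      (fun j => x (((eR A Z F).trans (Equiv.sumCongr (Equiv.refl (F ⊕ A)) e1)).symm
        (Sum.inr (Sum.inl j))))
      (fun j => x (((eR A Z F).trans (Equiv.sumCongr (Equiv.refl (F ⊕ A)) e1)).symm
        (Sum.inr (Sum.inr j)))) : J2 ⊕ J3 → Bool) w = x ((eR A Z F).symm (Sum.inr (e1.symm w))) := by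
    rintro (w | w) <;> rfl
  have f2 : (fun i => (Sum.elim
      (fun j => x (((eR A Z F).trans (Equiv.sumCongr (Equiv.refl (F ⊕ A)) e1)).symm
        (Sum.inr (Sum.inl j))))
      (fun j => x (((eR A Z F).trans (Equiv.sumCongr (Equiv.refl (F ⊕ A)) e1)).symm
        (Sum.inr (Sum.inr j)))) : J2 ⊕ J3 → Bool) (e1 i)) =
      Sum.elim (fun i => x (Sum.inl (Sum.inr i))) (fun i => x (Sum.inr (Sum.inr i))) := by
    funext i
    rw [f1, Equiv.symm_apply_apply]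
    rcases i with i | i <;> rfl
  rw [f2] at hp
  refine ⟨h0, hs x _ h3 h0 hp ?_⟩
  have h4 := hg h3
  have f3 : (fun i => x (((eR A Z F).trans (Equiv.sumCongr (Equiv.refl (F ⊕ A)) e1)).symm
      (Sum.inl i))) =
      Sum.elim (fun i => x (Sum.inl (Sum.inl i))) (fun i => x (Sum.inr (Sum.inl i))) := by
    funext i
    rcases i with i | i <;> rfl
  rw [← f3]
  exact h4

/-- no condition -/
theorem two0 (hh : 1 ≤ h) (hA : 2 * Nat.card A + Nat.card Z = h + 1) (hA1 : 1 ≤ Nat.card A) :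
    Two h (NB A Z) (NB A Z) (fun _ _ => True) := by
  refine ⟨Nat.card A, A, A ⊕ Z, Fin h, A, A ⊕ Z, inferInstance, inferInstance, inferInstance,
    inferInstance, inferInstance, Equiv.refl _, Equiv.refl _, fun _ => True, fun _ => True,
    hA1, by omega, rfl, ?_, Nat.card_fin h, rfl, ?_, Fo.triv _ _ _ _, Fo.triv _ _ _ _,
    fun _ _ _ _ _ _ _ _ _ _ => trivial⟩
  · rw [Nat.card_sum]; omega
  · rw [Nat.card_sum]; omega

def eL (A Z : Type) : NB A Z ≃ (A ⊕ Z) ⊕ A where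
  toFun p := match p with
    | Sum.inl i => Sum.inl (Sum.inl i)
    | Sum.inr (Sum.inl i) => Sum.inr i
    | Sum.inr (Sum.inr i) => Sum.inl (Sum.inr i)
  invFun p := match p with
    | Sum.inl (Sum.inl i) => Sum.inl i
    | Sum.inr i => Sum.inr (Sum.inl i)
    | Sum.inl (Sum.inr i) => Sum.inr (Sum.inr i)
  left_inv := by rintro (i | (i | i)) <;> rfl
  right_inv := by rintro ((i | i) | i) <;> rfl

def eQ (A Z : Type) : NB A Z ≃ A ⊕ (A ⊕ Z) where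
  toFun p := match p with
    | Sum.inl i => Sum.inr (Sum.inl i)
    | Sum.inr (Sum.inl i) => Sum.inl i
    | Sum.inr (Sum.inr i) => Sum.inr (Sum.inr i)
  invFun p := match p with
    | Sum.inr (Sum.inl i) => Sum.inl i
    | Sum.inl i => Sum.inr (Sum.inl i)
    | Sum.inr (Sum.inr i) => Sum.inr (Sum.inr i)
  left_inv := by rintro (i | (i | i)) <;> rfl
  right_inv := by rintro (i | (i | i)) <;> rfl

/-- `C_{t-1}`, `C_{t+1}` and `Z` on the left -/
theorem twoL (hh : 1 ≤ h) (hA : 2 * Nat.card A + Nat.card Z = h + 1) (hA1 : 1 ≤ Nat.card A) :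
    Two h (NB A Z) (NB A Z) (fun x y => 1 ≤ red (fun i => x (Sum.inl i)) +
      (red (fun i => y (Sum.inl i)) + red (fun i => x (Sum.inr (Sum.inr i))))) := by
  refine ⟨Nat.card A + Nat.card Z, A ⊕ Z, A, Fin h, A ⊕ Z, A, inferInstance, inferInstance,
    inferInstance, inferInstance, inferInstance, eL A Z, Equiv.sumComm A (A ⊕ Z), fun _ => True,
    fun _ => True, by omega, by omega, Nat.card_sum, by omega, Nat.card_fin h, Nat.card_sum,
    by omega, Fo.triv _ _ _ _, Fo.triv _ _ _ _, ?_⟩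
  intro x2 x3 n1 n2 n3 g1 g2 g3 _ _
  have r : red x2 = red (fun i => x2 (Sum.inl i)) + red (fun i => x2 (Sum.inr i)) := red_sum _
  show 1 ≤ red (fun i => x2 (Sum.inl i)) + (red n3 + red (fun i => x2 (Sum.inr i)))
  omega

/-- `C_{t-1}`, `C_{t+1}` and `Z` on the right -/
theorem twoR (hh : 1 ≤ h) (hA : 2 * Nat.card A + Nat.card Z = h + 1) (hA1 : 1 ≤ Nat.card A) :
    Two h (NB A Z) (NB A Z) (fun x y => 1 ≤ red (fun i => y (Sum.inl i)) +
      (red (fun i => x (Sum.inl i)) + red (fun i => y (Sum.inr (Sum.inr i))))) := by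
  refine ⟨Nat.card A, A, A ⊕ Z, Fin h, A, A ⊕ Z, inferInstance, inferInstance, inferInstance,
    inferInstance, inferInstance, Equiv.refl _, eQ A Z, fun _ => True, fun _ => True,
    hA1, by omega, rfl, ?_, Nat.card_fin h, rfl, ?_, Fo.triv _ _ _ _, Fo.triv _ _ _ _, ?_⟩
  · rw [Nat.card_sum]; omega
  · rw [Nat.card_sum]; omega
  intro x2 x3 n1 n2 n3 g1 g2 g3 _ _
  have r : red n3 = red (fun i => n3 (Sum.inl i)) + red (fun i => n3 (Sum.inr i)) := red_sum _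
  show 1 ≤ red (fun i => n3 (Sum.inl i)) + (red x2 + red (fun i => n3 (Sum.inr i)))
  omega

def eU (A R0 Z : Type) : (A ⊕ Z) ⊕ ((Z ⊕ R0) ⊕ A) ≃ (Z ⊕ R0) ⊕ (A ⊕ (A ⊕ Z)) where
  toFun p := match p with
    | Sum.inl (Sum.inl i) => Sum.inr (Sum.inl i)
    | Sum.inl (Sum.inr i) => Sum.inl (Sum.inl i)
    | Sum.inr (Sum.inl (Sum.inl i)) => Sum.inr (Sum.inr (Sum.inr i))
    | Sum.inr (Sum.inl (Sum.inr i)) => Sum.inl (Sum.inr i)
    | Sum.inr (Sum.inr i) => Sum.inr (Sum.inr (Sum.inl i))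
  invFun p := match p with
    | Sum.inr (Sum.inl i) => Sum.inl (Sum.inl i)
    | Sum.inl (Sum.inl i) => Sum.inl (Sum.inr i)
    | Sum.inr (Sum.inr (Sum.inr i)) => Sum.inr (Sum.inl (Sum.inl i))
    | Sum.inl (Sum.inr i) => Sum.inr (Sum.inl (Sum.inr i))
    | Sum.inr (Sum.inr (Sum.inl i)) => Sum.inr (Sum.inr i)
  left_inv := by rintro ((i | i) | ((i | i) | i)) <;> rfl
  right_inv := by rintro ((i | i) | (i | (i | i))) <;> rfl

/-- the second vertex of the middle node -/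
theorem testU (hh : 1 ≤ h) (hA : 2 * Nat.card A + Nat.card Z = h + 1) (hA1 : 1 ≤ Nat.card A)
    (hR : Nat.card Z + Nat.card R0 = h) :
    Fo h 3 5 ((A ⊕ Z) ⊕ ((Z ⊕ R0) ⊕ A)) (fun x => 1 ≤ red (fun i => x (Sum.inl (Sum.inl i))) +
      (red (fun i => x (Sum.inr (Sum.inr i))) +
        red (fun i => x (Sum.inr (Sum.inl (Sum.inl i)))))) := by
  have c1 : Nat.card (Z ⊕ R0) = h := by rw [Nat.card_sum]; exact hR
  have c3 : Nat.card (A ⊕ Z) = h + 1 - Nat.card A := by rw [Nat.card_sum]; omega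
  refine (Fo.num (q := Nat.card A) hA1 (by omega) c1 rfl c3 (Nat.card_fin h)
    (Nat.card_fin (Nat.card A)) (Nat.card_fin (h + 1 - Nat.card A)) (eU A R0 Z)
    (Fo.triv _ _ _ _) (Fo.triv _ _ _ _) (Fo.triv _ _ _ _)).mono ?_
  rintro x ⟨n1, n2, n3, g0, g1, g2, g3, g4, -, -, -⟩
  have r2 : red (fun j => x ((eU A R0 Z).symm (Sum.inr (Sum.inl j)))) =
      red (fun i => x (Sum.inl (Sum.inl i))) := rfl
  have r3 : red (fun j => x ((eU A R0 Z).symm (Sum.inr (Sum.inr j)))) =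
      red (fun i => x (Sum.inr (Sum.inr i))) + red (fun i => x (Sum.inr (Sum.inl (Sum.inl i)))) :=
    red_sum _
  omega

def eF (A A' R0 Z : Type) : ((Z ⊕ Z) ⊕ Z) ⊕ (A' ⊕ (R0 ⊕ A)) ≃
    (A' ⊕ Z) ⊕ ((Z ⊕ R0) ⊕ (A ⊕ Z)) where
  toFun p := match p with
    | Sum.inl (Sum.inl (Sum.inl i)) => Sum.inl (Sum.inr i)
    | Sum.inl (Sum.inl (Sum.inr i)) => Sum.inr (Sum.inl (Sum.inl i))
    | Sum.inl (Sum.inr i) => Sum.inr (Sum.inr (Sum.inr i))
    | Sum.inr (Sum.inl i) => Sum.inl (Sum.inl i)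
    | Sum.inr (Sum.inr (Sum.inl i)) => Sum.inr (Sum.inl (Sum.inr i))
    | Sum.inr (Sum.inr (Sum.inr i)) => Sum.inr (Sum.inr (Sum.inl i))
  invFun p := match p with
    | Sum.inl (Sum.inr i) => Sum.inl (Sum.inl (Sum.inl i))
    | Sum.inr (Sum.inl (Sum.inl i)) => Sum.inl (Sum.inl (Sum.inr i))
    | Sum.inr (Sum.inr (Sum.inr i)) => Sum.inl (Sum.inr i)
    | Sum.inl (Sum.inl i) => Sum.inr (Sum.inl i)
    | Sum.inr (Sum.inl (Sum.inr i)) => Sum.inr (Sum.inr (Sum.inl i))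
    | Sum.inr (Sum.inr (Sum.inl i)) => Sum.inr (Sum.inr (Sum.inr i))
  left_inv := by rintro (((i | i) | i) | (i | (i | i))) <;> rfl
  right_inv := by rintro ((i | i) | ((i | i) | (i | i))) <;> rfl

def eM (A A' Z : Type) : A ⊕ ((Z ⊕ A') ⊕ Z) ≃ (A ⊕ Z) ⊕ (A' ⊕ Z) where
  toFun p := match p with
    | Sum.inl i => Sum.inl (Sum.inl i)
    | Sum.inr (Sum.inl (Sum.inl i)) => Sum.inl (Sum.inr i)
    | Sum.inr (Sum.inl (Sum.inr i)) => Sum.inr (Sum.inl i)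
    | Sum.inr (Sum.inr i) => Sum.inr (Sum.inr i)
  invFun p := match p with
    | Sum.inl (Sum.inl i) => Sum.inl i
    | Sum.inl (Sum.inr i) => Sum.inr (Sum.inl (Sum.inl i))
    | Sum.inr (Sum.inl i) => Sum.inr (Sum.inl (Sum.inr i))
    | Sum.inr (Sum.inr i) => Sum.inr (Sum.inr i)
  left_inv := by rintro (i | ((i | i) | i)) <;> rfl
  right_inv := by rintro ((i | i) | (i | i)) <;> rfl

/-- the middle node -/
theorem twoM (hh : 1 ≤ h) (hA : 2 * Nat.card A + Nat.card Z = h + 1) (hA1 : 1 ≤ Nat.card A)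
    (hZA : Nat.card Z ≤ Nat.card A) (hZ : 6 * Nat.card Z + 1 ≤ h) :
    Two h (NB A Z) (NB A Z) (fun x y => ¬ (red (fun i => x (Sum.inl i)) = 0 ∧
      red (fun i => y (Sum.inl i)) = 0 ∧ 1 ≤ red (fun i => x (Sum.inr (Sum.inr i))) ∧
      1 ≤ red (fun i => y (Sum.inr (Sum.inr i))))) := by
  obtain ⟨e⟩ : Nonempty (A ≃ Z ⊕ Fin (Nat.card A - Nat.card Z)) := by
    refine Finite.card_eq.1 ?_
    rw [Nat.card_sum, Nat.card_fin]
    omega
  have hf := few (h := h) (eF A (Fin (Nat.card A - Nat.card Z)) (Fin (h - Nat.card Z)) Z) hh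
    (by simp only [Nat.card_sum]; omega)
    (by simp only [Nat.card_sum, Nat.card_fin]; omega)
  have hu := testU (A := A) (Z := Z) (R0 := Fin (h - Nat.card Z)) hh hA hA1
    (by rw [Nat.card_fin]; omega)
  refine ⟨Nat.card A + Nat.card Z, A ⊕ Z, Fin (Nat.card A - Nat.card Z) ⊕ Z,
    Z ⊕ Fin (h - Nat.card Z), A ⊕ Z, A, inferInstance, inferInstance, inferInstance,
    inferInstance, inferInstance,
    (Equiv.sumCongr (Equiv.refl A) (Equiv.sumCongr e (Equiv.refl Z))).trans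
      (eM A (Fin (Nat.card A - Nat.card Z)) Z), Equiv.sumComm A (A ⊕ Z), _, _,
    by omega, by omega, Nat.card_sum, ?_, ?_, Nat.card_sum, by omega, hu, hf, ?_⟩
  · rw [Nat.card_sum, Nat.card_fin]; omega
  · rw [Nat.card_sum, Nat.card_fin]; omega
  intro x2 x3 n1 n2 n3 g1 g2 g3 hB hC
  rintro ⟨z1, z2, z3, z4⟩
  have z1' : red (fun i => x2 (Sum.inl i)) = 0 := z1
  have z2' : red n3 = 0 := z2
  have z3' : 1 ≤ red (fun i => x3 (Sum.inr i)) := z3
  have z4' : 1 ≤ red (fun i => n2 (Sum.inr i)) := z4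
  have hB' : 1 ≤ red (fun i => x2 (Sum.inl i)) + (red n3 + red (fun i => n1 (Sum.inl i))) := hB
  have r : red (fun i : (Z ⊕ Z) ⊕ Z => (Sum.elim x3 (Sum.elim n1 n2) :
      (Fin (Nat.card A - Nat.card Z) ⊕ Z) ⊕ ((Z ⊕ Fin (h - Nat.card Z)) ⊕ (A ⊕ Z)) → Bool)
      ((eF A (Fin (Nat.card A - Nat.card Z)) (Fin (h - Nat.card Z)) Z) (Sum.inl i))) =
      (red (fun i => x3 (Sum.inr i)) + red (fun i => n1 (Sum.inl i))) +
        red (fun i => n2 (Sum.inr i)) := (red_sum _).trans (congrArg (· + _) (red_sum _))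
  have hC' : red (fun i : (Z ⊕ Z) ⊕ Z => (Sum.elim x3 (Sum.elim n1 n2) :
      (Fin (Nat.card A - Nat.card Z) ⊕ Z) ⊕ ((Z ⊕ Fin (h - Nat.card Z)) ⊕ (A ⊕ Z)) → Bool)
      ((eF A (Fin (Nat.card A - Nat.card Z)) (Fin (h - Nat.card Z)) Z) (Sum.inl i))) ≤ 2 := hC
  omega

end

end Pool.Agent.Lib.MP_21a058_co.Slack3.OddK
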