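import Pool.Agent.Lib.MP_21a058_co.Slack3.MainX
import Pool.Agent.Lib.MP_21a058_co.Slack3.EndG

/-! `K` even and `m` odd: if `q (m + 1) = p K + e` with `q ^ 2 < e` and `12 e < K`, then everything
is killable. -/

set_option autoImplicit false

namespace Pool.Agent.Lib.MP_21a058_co.Slack3.Rat93

open Pool.Agent.Lib.MP_21a058_co.Slack3
open Pool.Agent.Lib.MP_21a058_co.Slack3.Gen (top bot)
open Pool.Agent.Lib.MP_21a058_co.Slack3.EndG (hi)

/-- The chain, for a deviation of more than `11 K / 6`. -/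
theorem A {K m L P : ℕ} (h1 : K ≤ 2 * L) (h2 : 3 * L ≤ 2 * K)
    (hD : 11 * K + 6 * ((m + 1) * L) < 6 * (K * P)) : W K (2 * m + 1) (2 * m + 3) L P := by
  by_cases hP : m + 3 ≤ P
  · exact top (by omega) hP
  have h3 : m + 5 ≤ 2 * P := by
    by_contra hc
    have f1 : K * (2 * P) ≤ K * (m + 4) := Nat.mul_le_mul_left _ (by omega)
    have f2 : (m + 1) * K ≤ (m + 1) * (2 * L) := Nat.mul_le_mul_left _ h1
    nlinarith
  obtain ⟨c, hc⟩ : ∃ c, c + L = K := ⟨K - L, by omega⟩
  obtain ⟨t, ht⟩ : ∃ t, t + K = 2 * L := ⟨2 * L - K, by omega⟩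
  obtain ⟨a, ha⟩ : ∃ a, a + P = m + 2 := ⟨m + 2 - P, by omega⟩
  obtain ⟨z, hz⟩ : ∃ z, z + (m + 4) = 2 * P := ⟨2 * P - (m + 4), by omega⟩
  refine MX.mainX (c := c) (t := t) (a := a) (z := z) (by omega) hc (by omega) (by omega)
    (fun p hp => ?_) fun p hp => ?_
  · have e : 2 * c + t = K := by omega
    rw [e]
    exact bot (by omega)
  · refine hi (by omega) ?_
    have e1 : (m + 1) * t + (m + 1) * K = (m + 1) * (2 * L) := by rw [← ht]; ring
    have e2 : K * z + K * (m + 4) = K * (2 * P) := by rw [← hz]; ring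
    have e3 : K * (3 * z) ≤ K * p := Nat.mul_le_mul_left _ hp
    nlinarith

section
variable {K m q p e L P : ℕ}

/-- `2 q` edges with at least `2 p + 2` red ones. -/
theorem tiny (hL : 2 * L = K + 4 * q) (hP : m + 5 + 4 * p = 2 * P)
    (he : q * (m + 1) = p * K + e) (h12 : 12 * e < K) (hq : 12 * q ≤ K) (g : ℕ)
    (hg : 2 * p + 2 ≤ g) : W K (2 * m + 1) (2 * m + 3) (2 * q) g := by
  have key : ∀ x, P ≤ x → W K (2 * m + 1) (2 * m + 3) L x := by
    intro x hx
    refine A (by omega) (by omega) ?_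
    have f1 : K * P ≤ K * x := Nat.mul_le_mul_left _ hx
    have f2 : K * (2 * P) = K * (m + 5 + 4 * p) := by rw [hP]
    have f3 : (m + 1) * (2 * L) = (m + 1) * (K + 4 * q) := by rw [hL]
    nlinarith
  obtain ⟨i, hi'⟩ : ∃ i, 2 * q + i = L := ⟨L - 2 * q, by omega⟩
  refine W_R2 (i := i) (j := i) (by omega) (by omega) (by omega) fun a b ha hb => ?_
  rw [hi']
  by_cases c1 : P ≤ g + a
  · exact Or.inl (key _ c1)
  by_cases c2 : P ≤ g + b
  · exact Or.inr (Or.inl (key _ c2))
  right; right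
  have e1 : i + i = K := by omega
  rw [e1]
  exact bot (by omega)

theorem tower (hL : 2 * L = K + 4 * q) (hP : m + 5 + 4 * p = 2 * P)
    (he : q * (m + 1) = p * K + e) (h12 : 12 * e < K) (hq : 12 * q ≤ K) :
    ∀ n M, M + n * q = K → ∀ x, x + n * p < m → W K (2 * m + 1) (2 * m + 3) M x := by
  intro n
  induction n with
  | zero =>
    intro M hM x hx
    have e : M = K := by omega
    rw [e]
    exact bot (by omega)
  | succ n ih =>
    intro M hM x hx
    have g1 : (n + 1) * q = n * q + q := by ring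
    have g2 : (n + 1) * p = n * p + p := by ring
    rw [g1] at hM
    rw [g2] at hx
    refine W_R2 (i := q) (j := q) (by omega) (by omega) (by omega) fun a b ha hb => ?_
    by_cases c1 : x + a + n * p < m
    · exact Or.inl (ih (M + q) (by omega) _ c1)
    by_cases c2 : x + b + n * p < m
    · exact Or.inr (Or.inl (ih (M + q) (by omega) _ c2))
    right; right
    have e1 : q + q = 2 * q := by ring
    rw [e1]
    exact tiny hL hP he h12 hq _ (by omega)

/-- **Everything is killable.** -/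
theorem w00 (hK : K % 2 = 0) (hm : m % 2 = 1) (he : q * (m + 1) = p * K + e)
    (hq2 : q * q < e) (h12 : 12 * e < K) : W K (2 * m + 1) (2 * m + 3) 0 0 := by
  have hq1 : 1 ≤ q := by
    by_contra hc
    have : q = 0 := by omega
    subst this
    have : p * K + e = 0 := by rw [← he]; ring
    omega
  have hqq : q ≤ q * q := Nat.le_mul_of_pos_left q hq1
  obtain ⟨L, hL⟩ : ∃ L, 2 * L = K + 4 * q := ⟨K / 2 + 2 * q, by omega⟩
  obtain ⟨P, hP⟩ : ∃ P, m + 5 + 4 * p = 2 * P := ⟨(m + 5) / 2 + 2 * p, by omega⟩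
  have hn := Nat.div_add_mod K q
  have hr : K % q < q := Nat.mod_lt _ hq1
  set n := K / q
  set r := K % q
  have h1 : r + n * p < m := by
    by_contra hc
    have hc' : m ≤ r + n * p := by omega
    have f1 : q * m ≤ q * (r + n * p) := Nat.mul_le_mul_left _ hc'
    have f2 : p * (q * n + r) = p * K := by rw [hn]
    have f3 : q * r + q ≤ q * q := by
      have : q * (r + 1) ≤ q * q := Nat.mul_le_mul_left _ hr
      linarith
    have f4 : 0 ≤ p * r := Nat.zero_le _
    nlinarith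
  refine W_R2 (i := r) (j := 0) (by omega) (by omega) (by omega) fun a b ha hb => ?_
  left
  rw [Nat.zero_add, Nat.zero_add]
  refine tower hL hP he h12 (by omega) n r ?_ a (by omega)
  rw [Nat.mul_comm n q]
  omega

end

open Finset in
/-- Two classes whose sums are `3` modulo `4`. -/
theorem not_arrow {K m q p e r : ℕ} (ks : Fin r → ℕ) (J : Finset (Fin r)) (hK : K % 2 = 0)
    (hm : m % 2 = 1) (he : q * (m + 1) = p * K + e) (hq2 : q * q < e) (h12 : 12 * e < K)
    {l' : ℕ} (hl : 2 * m + 3 + l' = 2 * K) (hJ : ∑ i ∈ J, ks i = 2 * m + 1)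
    (hJ' : ∑ i ∈ Jᶜ, ks i = l') : ¬ Arrow (2 * K) ks :=
  not_arrow_of_W (K := K) (l := 2 * m + 1) (u := 2 * m + 3) (l' := l') (by omega) hl
    (w00 hK hm he hq2 h12) ks J hJ hJ'

end Pool.Agent.Lib.MP_21a058_co.Slack3.Rat93
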