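import Pool.Agent.Lib.MP_21a058_co.Slack3.Rat93

/-! If `q (m + 1) = p K + e` with `q ^ 2 < e` and `15 e < K`, and either `K` and `m + 1` are even or
`K + q` and `m + 1 + p` are even, then everything is killable. -/

set_option autoImplicit false

namespace Pool.Agent.Lib.MP_21a058_co.Slack3.Rat94

open Pool.Agent.Lib.MP_21a058_co.Slack3
open Pool.Agent.Lib.MP_21a058_co.Slack3.Gen (top bot)
open Pool.Agent.Lib.MP_21a058_co.Slack3.Rat93 (A)

section
variable {K m q p e : ℕ}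

theorem key {j L P : ℕ} (hL : 2 * L = K + j * q) (hP : 2 * P = m + 5 + j * p)
    (he : q * (m + 1) = p * K + e) (h : 3 * (j * e) < K) (hq : 3 * (j * q) ≤ K) (x : ℕ)
    (hx : P ≤ x) : W K (2 * m + 1) (2 * m + 3) L x := by
  refine A (by omega) (by omega) ?_
  have f1 : K * P ≤ K * x := Nat.mul_le_mul_left _ hx
  have f2 : K * (2 * P) = K * (m + 5) + j * (p * K) := by rw [hP]; ring
  have f3 : (m + 1) * (2 * L) = (m + 1) * K + j * (p * K + e) := by rw [hL, ← he]; ring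
  nlinarith

/-- `2 q` edges with at least `2 p + 2` red ones. -/
theorem tiny {L1 L2 P1 P2 : ℕ} (hL : L1 + L2 = K + 4 * q) (h1 : 2 * q ≤ L1) (h2 : 2 * q ≤ L2)
    (h1K : L1 ≤ K) (h2K : L2 ≤ K)
    (hP : P1 + P2 = m + 5 + 4 * p)
    (k1 : ∀ x, P1 ≤ x → W K (2 * m + 1) (2 * m + 3) L1 x)
    (k2 : ∀ x, P2 ≤ x → W K (2 * m + 1) (2 * m + 3) L2 x) (g : ℕ)
    (hg : 2 * p + 2 ≤ g) : W K (2 * m + 1) (2 * m + 3) (2 * q) g := by
  obtain ⟨i, hi'⟩ : ∃ i, 2 * q + i = L1 := ⟨L1 - 2 * q, by omega⟩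
  obtain ⟨j, hj'⟩ : ∃ j, 2 * q + j = L2 := ⟨L2 - 2 * q, by omega⟩
  refine W_R2 (i := i) (j := j) (by omega) (by omega) (by omega) fun a b ha hb => ?_
  rw [hi', hj']
  by_cases c1 : P1 ≤ g + a
  · exact Or.inl (k1 _ c1)
  by_cases c2 : P2 ≤ g + b
  · exact Or.inr (Or.inl (k2 _ c2))
  right; right
  have e1 : i + j = K := by omega
  rw [e1]
  exact bot (by omega)

theorem tower (t : ∀ g, 2 * p + 2 ≤ g → W K (2 * m + 1) (2 * m + 3) (2 * q) g) (hq : 2 * q ≤ K) :
    ∀ n M, M + n * q = K → ∀ x, x + n * p < m → W K (2 * m + 1) (2 * m + 3) M x := by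
  intro n
  induction n with
  | zero =>
    intro M hM x hx
    have e : M = K := by omega
    rw [e]
    exact bot (by omega)
  | succ n ih =>
    intro M hM x hx
    have g1 : (n + 1) * q = n * q + q := by ring
    have g2 : (n + 1) * p = n * p + p := by ring
    rw [g1] at hM
    rw [g2] at hx
    refine W_R2 (i := q) (j := q) (by omega) (by omega) (by omega) fun a b ha hb => ?_
    by_cases c1 : x + a + n * p < m
    · exact Or.inl (ih (M + q) (by omega) _ c1)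
    by_cases c2 : x + b + n * p < m
    · exact Or.inr (Or.inl (ih (M + q) (by omega) _ c2))
    right; right
    have e1 : q + q = 2 * q := by ring
    rw [e1]
    exact t _ (by omega)

theorem fin00 (t : ∀ g, 2 * p + 2 ≤ g → W K (2 * m + 1) (2 * m + 3) (2 * q) g) (hq1 : 1 ≤ q)
    (hq : 2 * q ≤ K) (he : q * (m + 1) = p * K + e) (hq2 : q * q < e) :
    W K (2 * m + 1) (2 * m + 3) 0 0 := by
  have hn := Nat.div_add_mod K q
  have hr : K % q < q := Nat.mod_lt _ hq1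
  set n := K / q
  set r := K % q
  have h1 : r + n * p < m := by
    by_contra hc
    have hc' : m ≤ r + n * p := by omega
    have f1 : q * m ≤ q * (r + n * p) := Nat.mul_le_mul_left _ hc'
    have f2 : p * (q * n + r) = p * K := by rw [hn]
    have f3 : q * r + q ≤ q * q := by
      have : q * (r + 1) ≤ q * q := Nat.mul_le_mul_left _ hr
      linarith
    have f4 : 0 ≤ p * r := Nat.zero_le _
    nlinarith
  refine W_R2 (i := r) (j := 0) (by omega) (by omega) (by omega) fun a b ha hb => ?_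
  left
  rw [Nat.zero_add, Nat.zero_add]
  refine tower t hq n r ?_ a (by omega)
  rw [Nat.mul_comm n q]
  omega

/-- **Everything is killable.** -/
theorem w00 (hpar : (K % 2 = 0 ∧ (m + 1) % 2 = 0) ∨ ((K + q) % 2 = 0 ∧ (m + 1 + p) % 2 = 0))
    (he : q * (m + 1) = p * K + e)
    (hq2 : q * q < e) (h15 : 15 * e < K) : W K (2 * m + 1) (2 * m + 3) 0 0 := by
  have hq1 : 1 ≤ q := by
    by_contra hc
    have : q = 0 := by omega
    subst this
    have : p * K + e = 0 := by rw [← he]; ring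
    omega
  have hqq : q ≤ q * q := Nat.le_mul_of_pos_left q hq1
  refine fin00 (p := p) (q := q) (e := e) (fun g hg => ?_) hq1 (by omega) he hq2
  rcases hpar with ⟨g1, g2⟩ | ⟨g1, g2⟩
  · obtain ⟨L, hL⟩ : ∃ L, 2 * L = K + 4 * q := ⟨K / 2 + 2 * q, by omega⟩
    obtain ⟨P, hP⟩ : ∃ P, 2 * P = m + 5 + 4 * p := ⟨(m + 5) / 2 + 2 * p, by omega⟩
    have k := key hL hP he (by omega) (by omega)
    exact tiny (L1 := L) (L2 := L) (P1 := P) (P2 := P) (by omega) (by omega) (by omega) (by omega)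
      (by omega) (by omega) k k g hg
  · obtain ⟨L1, hL1⟩ : ∃ L, 2 * L = K + 3 * q := ⟨(K + 3 * q) / 2, by omega⟩
    obtain ⟨P1, hP1⟩ : ∃ P, 2 * P = m + 5 + 3 * p := ⟨(m + 5 + 3 * p) / 2, by omega⟩
    obtain ⟨L2, hL2⟩ : ∃ L, 2 * L = K + 5 * q := ⟨(K + 5 * q) / 2, by omega⟩
    obtain ⟨P2, hP2⟩ : ∃ P, 2 * P = m + 5 + 5 * p := ⟨(m + 5 + 5 * p) / 2, by omega⟩
    have k1 := key hL1 hP1 he (by omega) (by omega)
    have k2 := key hL2 hP2 he (by omega) (by omega)
    exact tiny (by omega) (by omega) (by omega) (by omega) (by omega) (by omega) k1 k2 g hg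

end

open Finset in
/-- Two classes with odd sums `2 m - 1` and `l'`, `2 m + 1 + l' = 2 K`. -/
theorem not_arrow {K m q p r l' : ℕ} (ks : Fin r → ℕ) (J : Finset (Fin r)) (hm : 1 ≤ m)
    (hpar : (K % 2 = 0 ∧ m % 2 = 0) ∨ ((K + q) % 2 = 0 ∧ (m + p) % 2 = 0))
    (h1 : p * K + q * q < q * m) (h2 : 15 * (q * m) < (15 * p + 1) * K)
    (hl : 2 * m + 1 + l' = 2 * K) (hJ : ∑ i ∈ J, ks i + 1 = 2 * m)
    (hJ' : ∑ i ∈ Jᶜ, ks i = l') : ¬ Arrow (2 * K) ks := by
  obtain ⟨n, rfl⟩ : ∃ n, m = n + 1 := ⟨m - 1, by omega⟩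
  obtain ⟨e, he⟩ : ∃ e, q * (n + 1) = p * K + e := ⟨q * (n + 1) - p * K, by omega⟩
  have h3 : (15 * p + 1) * K = 15 * (p * K) + K := by ring
  exact not_arrow_of_W (K := K) (l := 2 * n + 1) (u := 2 * n + 3) (l' := l') (by omega) (by omega)
    (w00 hpar he (by omega) (by omega)) ks J (by omega) hJ'

end Pool.Agent.Lib.MP_21a058_co.Slack3.Rat94
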