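import Pool.Agent.Lib.MP_21a058_co.Slack3.MainX
import Pool.Agent.Lib.MP_21a058_co.Slack3.EndG

/-! Window `2 m + 1 ≤ red ≤ 2 m + 3` of any density `(m + 1) / K`: everything is killable if
`q (m + 1) = h K + e` with `12 e < K` and `2 K < n e` for an `n` with `n q ≤ K`, and `K = i + j`,
`m + 1 = A + B` with `i, j ≥ K / 2 - 2 q` and `i (m + 1) / K` close to `A`. -/

set_option autoImplicit false

namespace Pool.Agent.Lib.MP_21a058_co.Slack3.Ratio82

open Pool.Agent.Lib.MP_21a058_co.Slack3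
open Pool.Agent.Lib.MP_21a058_co.Slack3.Gen (top bot dev)

/-- More than `11 / 6` too many red edges among `K / 2` to `2 K / 3` edges. -/
theorem chain {K m L P : ℕ} (h1 : K ≤ 2 * L) (h2 : 3 * L ≤ 2 * K)
    (hD : 11 * K + 6 * ((m + 1) * L) < 6 * (K * P)) : W K (2 * m + 1) (2 * m + 3) L P := by
  by_cases hP : m + 3 ≤ P
  · exact top (by omega) hP
  have hz0 : m + 4 ≤ 2 * P := by
    by_contra hc
    have e1 : K * (2 * P) ≤ K * (m + 3) := Nat.mul_le_mul_left _ (by omega)
    have e2 : (m + 1) * K ≤ (m + 1) * (2 * L) := Nat.mul_le_mul_left _ h1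
    nlinarith
  obtain ⟨c, hc⟩ : ∃ c, c + L = K := ⟨K - L, by omega⟩
  obtain ⟨t, ht⟩ : ∃ t, t + K = 2 * L := ⟨2 * L - K, by omega⟩
  obtain ⟨a, ha⟩ : ∃ a, a + P = m + 2 := ⟨m + 2 - P, by omega⟩
  obtain ⟨z, hz⟩ : ∃ z, z + (m + 4) = 2 * P := ⟨2 * P - (m + 4), by omega⟩
  refine MX.mainX (c := c) (t := t) (a := a) (z := z) (by omega) hc (by omega) (by omega)
    (fun p hp => ?_) fun p hp => ?_
  · have e : 2 * c + t = K := by omega
    rw [e]
    exact bot (by omega)
  · refine dev (by omega) (lt_of_lt_of_le ?_ (le_abs_self _))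
    have e1 : K * (3 * z) ≤ K * p := Nat.mul_le_mul_left _ hp
    have e2 : K * z + K * (m + 4) = 2 * (K * P) := by
      rw [← Nat.mul_add, hz]; ring
    have e3 : (m + 1) * t + (m + 1) * K = 2 * ((m + 1) * L) := by
      rw [← Nat.mul_add, ht]; ring
    have e4 : 2 * K + (m + 1) * (3 * t) < K * p := by nlinarith
    have e5 : (2 : ℤ) * K + (m + 1) * (3 * t) < K * p := by exact_mod_cast e4
    push_cast
    linarith

/-- `2 q` edges with at least `2 h + 2` red ones. -/
theorem two {K m q h e i j A B : ℕ} (he : q * (m + 1) = h * K + e) (hij : i + j = K)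
    (hAB : A + B = m + 1) (hi : K ≤ 4 * q + 2 * i) (hj : K ≤ 4 * q + 2 * j) (hq : 24 * q ≤ K)
    (h1 : 6 * ((m + 1) * i) + 12 * e < 6 * (K * A) + K)
    (h2 : 6 * ((m + 1) * j) + 12 * e < 6 * (K * B) + K) (p : ℕ) (hp : 2 * h + 2 ≤ p) :
    W K (2 * m + 1) (2 * m + 3) (2 * q) p := by
  have key : ∀ i A : ℕ, K ≤ 4 * q + 2 * i → 2 * i ≤ K + 4 * q →
      6 * ((m + 1) * i) + 12 * e < 6 * (K * A) + K → ∀ P, A + 2 * h + 2 ≤ P →
      W K (2 * m + 1) (2 * m + 3) (2 * q + i) P := by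
    intro i A hi hi' hh P hP
    refine chain (by omega) (by omega) ?_
    have f1 : K * (A + 2 * h + 2) ≤ K * P := Nat.mul_le_mul_left _ hP
    have f2 : (m + 1) * (2 * q + i) = 2 * (h * K + e) + (m + 1) * i := by rw [← he]; ring
    rw [f2]
    nlinarith
  refine W_R2 (i := i) (j := j) (by omega) (by omega) (by omega) fun a b ha hb => ?_
  by_cases c1 : A + 2 * h + 2 ≤ p + a
  · exact Or.inl (key i A hi (by omega) h1 _ c1)
  by_cases c2 : B + 2 * h + 2 ≤ p + b
  · exact Or.inr (Or.inl (key j B hj (by omega) h2 _ c2))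
  right; right
  rw [hij]
  exact bot (by omega)

/-- Everything collapses if `2 q` edges cannot have `2 h + 2` red ones. -/
theorem down {K m q h : ℕ} (hq : 2 * q ≤ K) (L0 P0 : ℕ) (hL0 : L0 ≤ K)
    (h0 : K * P0 + 2 * K < (m + 1) * L0)
    (w : ∀ p, 2 * h + 2 ≤ p → W K (2 * m + 1) (2 * m + 3) (2 * q) p) :
    ∀ n L p, L + n * q = L0 → p + n * h ≤ P0 → W K (2 * m + 1) (2 * m + 3) L p := by
  intro n
  induction n with
  | zero =>
    intro L p hL hp
    refine dev (by omega) (lt_of_lt_of_le ?_ (neg_le_abs _))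
    have e1 : L = L0 := by omega
    have e2 : K * p ≤ K * P0 := Nat.mul_le_mul_left _ (by omega)
    have e3 : 2 * K + K * p < (m + 1) * L := by rw [e1]; omega
    have e4 : (2 : ℤ) * K + K * p < (m + 1) * L := by exact_mod_cast e3
    linarith
  | succ n ih =>
    intro L p hL hp
    have g1 : (n + 1) * q = n * q + q := by ring
    have g2 : (n + 1) * h = n * h + h := by ring
    refine W_R2 (i := q) (j := q) (by omega) (by omega) (by omega) fun a b ha hb => ?_
    by_cases c1 : a ≤ h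
    · exact Or.inl (ih (L + q) (p + a) (by omega) (by omega))
    by_cases c2 : b ≤ h
    · exact Or.inr (Or.inl (ih (L + q) (p + b) (by omega) (by omega)))
    right; right
    rw [show q + q = 2 * q by ring]
    exact w _ (by omega)

/-- **Everything is killable.** -/
theorem w00 {K m q h e n i j A B : ℕ} (he : q * (m + 1) = h * K + e) (hn : n * q ≤ K)
    (hne : 2 * K < n * e) (hij : i + j = K) (hAB : A + B = m + 1) (hi : K ≤ 4 * q + 2 * i)
    (hj : K ≤ 4 * q + 2 * j) (h1 : 6 * ((m + 1) * i) + 12 * e < 6 * (K * A) + K)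
    (h2 : 6 * ((m + 1) * j) + 12 * e < 6 * (K * B) + K) :
    W K (2 * m + 1) (2 * m + 3) 0 0 := by
  have hK : 12 * e < K := by
    have f1 : (m + 1) * i + (m + 1) * j = K * A + K * B := by
      rw [← Nat.mul_add, ← Nat.mul_add, hij, hAB]; ring
    omega
  have hqe : 2 * q ≤ e := by
    by_contra hc
    have f1 : n * (e + 1) ≤ n * (2 * q) := Nat.mul_le_mul_left _ (by omega)
    nlinarith
  refine down (q := q) (h := h) (by omega) (n * q) (n * h) hn ?_
    (two he hij hAB hi hj (by omega) h1 h2) n 0 0 (by omega) (by omega)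
  have f1 : (m + 1) * (n * q) = n * (h * K + e) := by rw [← he]; ring
  rw [f1]
  nlinarith

open Finset in
/-- Two classes with odd sums `2 m + 1` and `2 K - 2 m - 3`. -/
theorem not_arrow {K m q h e n i j A B r : ℕ} (he : q * (m + 1) = h * K + e) (hn : n * q ≤ K)
    (hne : 2 * K < n * e) (hij : i + j = K) (hAB : A + B = m + 1) (hi : K ≤ 4 * q + 2 * i)
    (hj : K ≤ 4 * q + 2 * j) (h1 : 6 * ((m + 1) * i) + 12 * e < 6 * (K * A) + K)
    (h2 : 6 * ((m + 1) * j) + 12 * e < 6 * (K * B) + K) (ks : Fin r → ℕ) (J : Finset (Fin r))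
    {l' : ℕ} (hl : 2 * m + 3 + l' = 2 * K)
    (hJ : ∑ i ∈ J, ks i = 2 * m + 1) (hJ' : ∑ i ∈ Jᶜ, ks i = l') : ¬ Arrow (2 * K) ks :=
  not_arrow_of_W (K := K) (l := 2 * m + 1) (u := 2 * m + 3) (l' := l') (by omega) (by omega)
    (w00 he hn hne hij hAB hi hj h1 h2) ks J hJ hJ'

end Pool.Agent.Lib.MP_21a058_co.Slack3.Ratio82
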