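import Pool.Agent.Lib.MP_21a058_co.Slack3.Ratio82

/-! Two classes with odd sums `a` and `b`, `K = (a + b + 2) / 2`, `M = (a + 1) / 2`: if there are
coprime `q ≥ 4` and `h` with `3 q ≤ |q M - h K| < K / 60`, then `a + b + 2` is not enough. -/

set_option autoImplicit false

namespace Pool.Agent.Lib.MP_21a058_co.Slack3.Ratio82

open Pool.Agent.Lib.MP_21a058_co.Slack3

theorem w00' {K m q h e n : ℕ} (s r : ℤ) (he : q * (m + 1) = h * K + e) (hn : n * q ≤ K)
    (hne : 2 * K < n * e) (hs : |s| ≤ 4 * q) (hsK : ((K : ℤ) + s) % 2 = 0)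
    (hrM : ((m : ℤ) + 1 + r) % 2 = 0) (hb : 3 * |s * (m + 1) - r * K| + 12 * e < K) :
    W K (2 * m + 1) (2 * m + 3) 0 0 := by
  obtain ⟨s1, s2⟩ := abs_le.1 hs
  have hqe : 2 * q ≤ e := by
    by_contra hc
    have f1 : n * (e + 1) ≤ n * (2 * q) := Nat.mul_le_mul_left _ (by omega)
    nlinarith
  have g0 := abs_nonneg (s * ((m : ℤ) + 1) - r * K)
  have g1 := le_abs_self (s * ((m : ℤ) + 1) - r * K)
  have g2 := neg_le_abs (s * ((m : ℤ) + 1) - r * K)
  have hK : 24 * q ≤ K := by omega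
  have hKp : 0 < K := by omega
  have hm0 : (0 : ℤ) ≤ (m : ℤ) + 1 := by omega
  have e1 : s * ((m : ℤ) + 1) ≤ 4 * q * (m + 1) := mul_le_mul_of_nonneg_right s2 hm0
  have e2 : -(4 * (q : ℤ)) * (m + 1) ≤ s * ((m : ℤ) + 1) := mul_le_mul_of_nonneg_right s1 hm0
  have e3 : 24 * (q : ℤ) * (m + 1) ≤ K * (m + 1) :=
    mul_le_mul_of_nonneg_right (by exact_mod_cast hK) hm0
  have hr1 : r ≤ m + 1 := by
    by_contra hc
    have f1 : ((m : ℤ) + 2) * K ≤ r * K := mul_le_mul_of_nonneg_right (by omega) (by omega)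
    nlinarith
  have hr2 : -((m : ℤ) + 1) ≤ r := by
    by_contra hc
    have f1 : r * K ≤ (-((m : ℤ) + 2)) * K := mul_le_mul_of_nonneg_right (by omega) (by omega)
    nlinarith
  obtain ⟨i, hi⟩ : ∃ i : ℕ, 2 * (i : ℤ) = K + s := ⟨(((K : ℤ) + s) / 2).toNat, by omega⟩
  obtain ⟨j, hj⟩ : ∃ j : ℕ, 2 * (j : ℤ) = K - s := ⟨(((K : ℤ) - s) / 2).toNat, by omega⟩
  obtain ⟨A, hA⟩ : ∃ A : ℕ, 2 * (A : ℤ) = m + 1 + r := ⟨(((m : ℤ) + 1 + r) / 2).toNat, by omega⟩
  obtain ⟨B, hB⟩ : ∃ B : ℕ, 2 * (B : ℤ) = m + 1 - r := ⟨(((m : ℤ) + 1 - r) / 2).toNat, by omega⟩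
  refine w00 (i := i) (j := j) (A := A) (B := B) he hn hne (by omega) (by omega) (by omega)
    (by omega) ?_ ?_
  · have f1 : ((m : ℤ) + 1) * (2 * i) = (m + 1) * (K + s) := by rw [hi]
    have f2 : (K : ℤ) * (2 * A) = K * (m + 1 + r) := by rw [hA]
    have : 6 * (((m : ℤ) + 1) * i) + 12 * e < 6 * (K * A) + K := by nlinarith
    exact_mod_cast this
  · have f1 : ((m : ℤ) + 1) * (2 * j) = (m + 1) * (K - s) := by rw [hj]
    have f2 : (K : ℤ) * (2 * B) = K * (m + 1 - r) := by rw [hB]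
    have : 6 * (((m : ℤ) + 1) * j) + 12 * e < 6 * (K * B) + K := by nlinarith
    exact_mod_cast this

theorem w00c {K m q h e n : ℕ} (hq : 4 ≤ q) (hc : Nat.Coprime q h)
    (he : q * (m + 1) = h * K + e) (hn : n * q ≤ K) (hne : 2 * K < n * e) (h60 : 60 * e < K) :
    W K (2 * m + 1) (2 * m + 3) 0 0 := by
  obtain ⟨w, hw⟩ := Nat.exists_mul_mod_eq_one_of_coprime hc.symm (by omega)
  obtain ⟨u, v, hu, huv⟩ : ∃ u v : ℕ, u < q ∧ h * u = q * v + 1 := by
    refine ⟨w % q, h * (w % q) / q, Nat.mod_lt _ (by omega), ?_⟩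
    have f1 : h * (w % q) % q = 1 := by
      rw [Nat.mul_mod, Nat.mod_mod, ← Nat.mul_mod]; exact hw.2
    have f2 := Nat.div_add_mod (h * (w % q)) q
    omega
  have huv' : (h : ℤ) * u = q * v + 1 := by exact_mod_cast huv
  have he' : (q : ℤ) * (m + 1) = h * K + e := by exact_mod_cast he
  obtain ⟨D, hD⟩ : ∃ D : ℤ, D = (u : ℤ) * (m + 1) - v * K := ⟨_, rfl⟩
  have hqD : (q : ℤ) * D = K + u * e := by
    rw [hD]
    have : (q : ℤ) * (u * (m + 1) - v * K) = u * (q * (m + 1)) - (q * v) * K := by ring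
    rw [this, he']
    have : (q : ℤ) * v = h * u - 1 := by linarith
    rw [this]
    ring
  have hu' : (u : ℤ) * e ≤ q * e := mul_le_mul_of_nonneg_right (by omega) (by omega)
  have hu0 : (0 : ℤ) ≤ (u : ℤ) * e := by positivity
  have hq' : (4 : ℤ) ≤ q := by exact_mod_cast hq
  have hD0 : 0 ≤ D := by
    by_contra hcon
    have : (q : ℤ) * D < 0 := by nlinarith
    omega
  have hD1 : 4 * (D - e) ≤ K := by
    by_cases h1 : 0 ≤ D - e
    · have f1 : 4 * (D - e) ≤ q * (D - e) := mul_le_mul_of_nonneg_right hq' h1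
      nlinarith
    · omega
  have c00 : K % 2 = 0 → (m + 1) % 2 = 0 → W K (2 * m + 1) (2 * m + 3) 0 0 := fun a1 a2 =>
    w00' 0 0 he hn hne (by rw [abs_zero]; omega) (by omega) (by omega) (by
      have : |(0 : ℤ) * (m + 1) - 0 * K| = 0 := by simp
      rw [this]; omega)
  have c10 : (K + q) % 2 = 0 → (m + 1 + h) % 2 = 0 → W K (2 * m + 1) (2 * m + 3) 0 0 :=
    fun a1 a2 => w00' q h he hn hne (by rw [abs_of_nonneg (by omega)]; omega) (by omega)
      (by omega) (by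
      have : (q : ℤ) * (m + 1) - h * K = e := by linarith
      rw [this, abs_of_nonneg (by omega)]; omega)
  have c01 : (K + u) % 2 = 0 → (m + 1 + v) % 2 = 0 → W K (2 * m + 1) (2 * m + 3) 0 0 :=
    fun a1 a2 => w00' u v he hn hne (by rw [abs_of_nonneg (by omega)]; omega) (by omega)
      (by omega) (by
      rw [← hD, abs_of_nonneg hD0]; omega)
  have c11 : (K + u + q) % 2 = 0 → (m + 1 + v + h) % 2 = 0 → W K (2 * m + 1) (2 * m + 3) 0 0 :=
    fun a1 a2 => w00' ((u : ℤ) - q) ((v : ℤ) - h) he hn hne (by rw [abs_le]; omega) (by omega)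
      (by omega) (by
      have : ((u : ℤ) - q) * (m + 1) - (v - h) * K = D - e := by
        rw [hD]; linarith
      rw [this]
      have : |D - e| ≤ D + e := by rw [abs_le]; omega
      have : 3 * |D - e| ≤ 3 * max (D - e) e := by
        rcases le_total 0 (D - e) with h1 | h1
        · rw [abs_of_nonneg h1]
          have := le_max_left (D - e) (e : ℤ)
          omega
        · rw [abs_of_nonpos h1]
          have := le_max_right (D - e) (e : ℤ)
          omega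
      rcases le_total (D - e) (e : ℤ) with h1 | h1
      · rw [max_eq_right h1] at this
        omega
      · rw [max_eq_left h1] at this
        omega)
  have hpar : (h % 2) * (u % 2) % 2 = ((q % 2) * (v % 2) + 1) % 2 := by
    rw [← Nat.mul_mod, huv, Nat.add_mod, Nat.mul_mod]
    rw [Nat.add_mod ((q % 2) * (v % 2)) 1]
  rcases Nat.mod_two_eq_zero_or_one h with p1 | p1 <;>
  rcases Nat.mod_two_eq_zero_or_one u with p2 | p2 <;>
  rcases Nat.mod_two_eq_zero_or_one q with p3 | p3 <;>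
  rcases Nat.mod_two_eq_zero_or_one v with p4 | p4 <;>
  rcases Nat.mod_two_eq_zero_or_one K with p5 | p5 <;>
  rcases Nat.mod_two_eq_zero_or_one m with p6 | p6 <;>
  rw [p1, p2, p3, p4] at hpar <;>
  first
  | (exfalso; revert hpar; decide)
  | exact c00 (by omega) (by omega)
  | exact c10 (by omega) (by omega)
  | exact c01 (by omega) (by omega)
  | exact c11 (by omega) (by omega)

open Finset in
/-- Two classes, the first one with an odd sum `a`; `q ≥ 4` and `h` coprime. -/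
theorem sum_pos {r : ℕ} (ks : Fin r → ℕ) (J : Finset (Fin r)) {q h : ℕ} (hq : 4 ≤ q)
    (hc : Nat.Coprime q h) (ha : Odd (∑ l ∈ J, ks l)) (hS : Even (∑ l, ks l))
    (h1 : h * (∑ l, ks l + 2) + 6 * q ≤ q * (∑ l ∈ J, ks l + 1))
    (h2 : 60 * (q * (∑ l ∈ J, ks l + 1)) < 60 * (h * (∑ l, ks l + 2)) + (∑ l, ks l + 2)) :
    ¬ Arrow (∑ l, ks l + 2) ks := by
  have hsum : ∑ l ∈ J, ks l + ∑ l ∈ Jᶜ, ks l = ∑ l, ks l := sum_add_sum_compl _ _
  obtain ⟨m, hm⟩ := ha
  obtain ⟨T, hT⟩ := hS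
  obtain ⟨K, hK⟩ : ∃ K, K = T + 1 := ⟨_, rfl⟩
  have e0 : ∑ l, ks l + 2 = 2 * K := by omega
  rw [e0] at h1 h2 ⊢
  rw [hm] at h1 h2
  have e1 : q * (2 * m + 1 + 1) = 2 * (q * (m + 1)) := by ring
  have e2 : h * (2 * K) = 2 * (h * K) := by ring
  rw [e1, e2] at h1 h2
  obtain ⟨e, he⟩ : ∃ e, q * (m + 1) = h * K + e := ⟨q * (m + 1) - h * K, by omega⟩
  have he3 : 3 * q ≤ e := by omega
  have he60 : 60 * e < K := by omega
  have hn := Nat.div_mul_le_self K q
  have hn2 : K < (K / q + 1) * q := by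
    have := Nat.lt_succ_self (K / q)
    exact (Nat.div_lt_iff_lt_mul (by omega)).1 this
  have hne : 2 * K < K / q * e := by
    have f1 : K / q * (3 * q) ≤ K / q * e := Nat.mul_le_mul_left _ he3
    have f2 : (K / q + 1) * q = K / q * q + q := by ring
    have f3 : K / q * (3 * q) = 3 * (K / q * q) := by ring
    omega
  have hodd : ∑ l ∈ J, ks l + 1 ≤ ∑ l, ks l := by
    omega
  exact not_arrow_of_W (K := K) (l := 2 * m + 1) (u := 2 * m + 3)
    (l' := ∑ l ∈ Jᶜ, ks l) (by omega) (by omega) (w00c hq hc he hn hne he60) ks J hm rfl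

end Pool.Agent.Lib.MP_21a058_co.Slack3.Ratio82
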