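import Pool.Agent.Lib.MP_21a058_co.Slack3.Ratio82b

/-! Any two classes with odd sums `a`, `b`: `a + b + 2` is not enough unless
`(a + 1) / (a + b + 2)` is within `6 / (a + b + 2)` of a fraction with denominator `q ≤ 60` or within
`1 / (61 q)` of a fraction with denominator `q ≤ 3`. -/

set_option autoImplicit false

namespace Pool.Agent.Lib.MP_21a058_co.Slack3.Ratio82

open Pool.Agent.Lib.MP_21a058_co.Slack3

/-- Dirichlet's theorem with coprime numbers. -/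
theorem dirichlet {K M : ℕ} (hK : 0 < K) (hM : M ≤ K) : ∃ q h : ℕ, 1 ≤ q ∧ q ≤ 60 ∧ h ≤ q ∧
    Nat.Coprime q h ∧ 61 * |(q : ℤ) * M - h * K| ≤ K := by
  obtain ⟨k, hk0, hk, hr⟩ := Real.exists_nat_abs_mul_sub_round_le ((M : ℝ) / K) (n := 60)
    (by norm_num)
  obtain ⟨j, hj⟩ : ∃ j : ℤ, j = round ((k : ℝ) * ((M : ℝ) / K)) := ⟨_, rfl⟩
  rw [← hj] at hr
  have hKr : (0 : ℝ) < K := by exact_mod_cast hK
  have h2 : |(k : ℝ) * M - j * K| ≤ K / 61 := by
    have e : (k : ℝ) * M - j * K = (k * ((M : ℝ) / K) - j) * K := by field_simp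
    rw [e, abs_mul, abs_of_pos hKr]
    have := mul_le_mul_of_nonneg_right hr hKr.le
    push_cast at this
    linarith
  have h3 : 61 * |(k : ℤ) * M - j * K| ≤ K := by
    have : (61 : ℝ) * (|(k : ℤ) * M - j * K| : ℤ) ≤ K := by
      push_cast
      linarith
    exact_mod_cast this
  have hKz : (0 : ℤ) < K := by exact_mod_cast hK
  have hMz : (M : ℤ) ≤ K := by exact_mod_cast hM
  have hM0 : (0 : ℤ) ≤ M := Int.natCast_nonneg _
  have hq0' : (0 : ℤ) ≤ k := Int.natCast_nonneg _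
  have g1 := neg_abs_le ((k : ℤ) * M - j * K)
  have g2 := le_abs_self ((k : ℤ) * M - j * K)
  have j0 : 0 ≤ j := by
    by_contra hc
    have h4 : j ≤ -1 := by omega
    have h5 : j * K ≤ -1 * K := mul_le_mul_of_nonneg_right h4 hKz.le
    have h6 : (0 : ℤ) ≤ k * M := mul_nonneg hq0' hM0
    linarith
  have jq : j ≤ k := by
    by_contra hc
    have h4 : (k : ℤ) + 1 ≤ j := by omega
    have h5 : ((k : ℤ) + 1) * K ≤ j * K := mul_le_mul_of_nonneg_right h4 hKz.le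
    have h6 : (k : ℤ) * M ≤ k * K := mul_le_mul_of_nonneg_left hMz hq0'
    linarith
  obtain ⟨l, rfl⟩ := Int.eq_ofNat_of_zero_le j0
  have hlk : l ≤ k := by exact_mod_cast jq
  have hg : 0 < Nat.gcd k l := Nat.gcd_pos_of_pos_left _ hk0
  obtain ⟨g, q, h, hg0, hcop, hkq, hlh⟩ := Nat.exists_coprime' hg
  have hq1 : 1 ≤ q := by
    rcases Nat.eq_zero_or_pos q with h0 | h0
    · rw [h0, Nat.zero_mul] at hkq
      omega
    · exact h0
  refine ⟨q, h, hq1, ?_, ?_, hcop, ?_⟩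
  · have : q * 1 ≤ q * g := Nat.mul_le_mul_left _ hg0
    omega
  · have : h * g ≤ q * g := by omega
    exact Nat.le_of_mul_le_mul_right this hg0
  · have e1 : (k : ℤ) * M - ((l : ℕ) : ℤ) * K = g * ((q : ℤ) * M - h * K) := by
      rw [hkq, hlh]
      push_cast
      ring
    have e2 : 61 * |(k : ℤ) * M - ((l : ℕ) : ℤ) * K| ≤ K := h3
    rw [e1, abs_mul, abs_of_nonneg (Int.natCast_nonneg g)] at e2
    have e3 : 1 * |(q : ℤ) * M - h * K| ≤ g * |(q : ℤ) * M - h * K| :=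
      mul_le_mul_of_nonneg_right (by exact_mod_cast hg0) (abs_nonneg _)
    linarith

open Finset in
/-- One sign. -/
theorem one {r q h e : ℕ} (ks : Fin r → ℕ) (J : Finset (Fin r)) (hq : 4 ≤ q)
    (hc : Nat.Coprime q h) (ha : Odd (∑ l ∈ J, ks l)) (hS : Even (∑ l, ks l))
    (he : q * (∑ i ∈ J, ks i + 1) = h * (∑ i, ks i + 2) + 2 * e) (he1 : 3 * q ≤ e)
    (he2 : 120 * e < ∑ i, ks i + 2) : ¬ Arrow (∑ i, ks i + 2) ks :=
  sum_pos ks J hq hc ha hS (by omega) (by omega)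

open Finset in
/-- **Almost all pairs of odd numbers.** -/
theorem all {r : ℕ} (ks : Fin r → ℕ) (J : Finset (Fin r)) (ha : Odd (∑ l ∈ J, ks l))
    (hS : Even (∑ l, ks l))
    (hd : ∀ q h : ℕ, 1 ≤ q → q ≤ 60 →
      6 * (q : ℤ) ≤ |(q : ℤ) * (∑ i ∈ J, ks i + 1 : ℕ) - h * (∑ i, ks i + 2 : ℕ)|)
    (hd3 : ∀ q h : ℕ, 1 ≤ q → q ≤ 3 → ((∑ i, ks i + 2 : ℕ) : ℤ) <
      61 * |(q : ℤ) * (∑ i ∈ J, ks i + 1 : ℕ) - h * (∑ i, ks i + 2 : ℕ)|) :
    ¬ Arrow (∑ i, ks i + 2) ks := by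
  have hsum : ∑ i ∈ J, ks i + ∑ i ∈ Jᶜ, ks i = ∑ i, ks i := sum_add_sum_compl _ _
  have hb : Odd (∑ i ∈ Jᶜ, ks i) := by
    rcases Nat.even_or_odd (∑ i ∈ Jᶜ, ks i) with h1 | h1
    · exfalso
      rw [← hsum] at hS
      have := ha.add_even h1
      rw [← Nat.not_even_iff_odd] at this
      exact this hS
    · exact h1
  obtain ⟨M, hM⟩ : ∃ M, ∑ i ∈ J, ks i + 1 = 2 * M := by
    obtain ⟨n, hn⟩ := ha
    exact ⟨n + 1, by omega⟩
  obtain ⟨K, hK⟩ : ∃ K, ∑ i, ks i + 2 = 2 * K := by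
    obtain ⟨n, hn⟩ := hS
    exact ⟨n + 1, by omega⟩
  obtain ⟨N, hN⟩ : ∃ N, ∑ i ∈ Jᶜ, ks i + 1 = 2 * N := by
    obtain ⟨n, hn⟩ := hb
    exact ⟨n + 1, by omega⟩
  have hMN : M + N = K := by omega
  obtain ⟨q, h, hq, hq2, hhq, hcop, hdir⟩ := dirichlet (K := K) (M := M) (by omega) (by omega)
  have h1 := hd q h hq hq2
  have h3 := hd3 q h hq
  rw [hM, hK] at h1 h3
  have e1 : (q : ℤ) * ((2 * M : ℕ) : ℤ) - h * ((2 * K : ℕ) : ℤ) = 2 * ((q : ℤ) * M - h * K) := by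
    push_cast
    ring
  rw [e1, abs_mul, abs_of_pos (show (0 : ℤ) < 2 by norm_num)] at h1 h3
  have hq4 : 4 ≤ q := by
    by_contra hc
    have := h3 (by omega)
    push_cast at this
    omega
  rcases abs_cases ((q : ℤ) * M - h * K) with ⟨g1, g2⟩ | ⟨g1, g2⟩
  · rw [g1] at h1 hdir
    obtain ⟨e, he⟩ := Int.eq_ofNat_of_zero_le g2
    rw [he] at h1 hdir
    refine one (q := q) (h := h) (e := e) ks J hq4 hcop ha hS ?_ (by omega) (by omega)
    rw [hM, hK]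
    have : (q : ℤ) * (2 * M) = h * (2 * K) + 2 * e := by linarith
    exact_mod_cast this
  · rw [g1] at h1 hdir
    obtain ⟨e, he⟩ := Int.eq_ofNat_of_zero_le (show 0 ≤ -((q : ℤ) * M - h * K) by linarith)
    rw [he] at h1 hdir
    refine one (q := q) (h := q - h) (e := e) ks Jᶜ hq4
      ((Nat.coprime_self_sub_right hhq).2 hcop) hb hS ?_ (by omega) (by omega)
    rw [hN, hK]
    have z2 : (M : ℤ) + N = K := by exact_mod_cast hMN
    have : (q : ℤ) * (2 * N) = ((q - h : ℕ) : ℤ) * (2 * K) + 2 * e := by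
      have z3 : (N : ℤ) = K - M := by linarith
      rw [z3, Nat.cast_sub hhq]
      linarith
    exact_mod_cast this

end Pool.Agent.Lib.MP_21a058_co.Slack3.Ratio82
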