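import Pool.Agent.Lib.MP_21a058_co.Slack3.Ratio82c

/-! Any two classes with odd sums `a`, `b`: `a + b + 2` is not enough unless
`|q (a + 1) - h (a + b + 2)| < 10 q + 300` for some `1 ≤ q ≤ 60` and some `h`. -/

set_option autoImplicit false

namespace Pool.Agent.Lib.MP_21a058_co.Slack3.Ratio82

open Pool.Agent.Lib.MP_21a058_co.Slack3

/-- The pair `(s, n)` has the parity of `(K, m + 1)`. -/
theorem par {K m s n V : ℕ} (hs : 1 ≤ s) (he : s * (m + 1) = n * K + V) (h3 : 3 * s ≤ V)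
    (h15 : 15 * V < K) (p1 : (K + s) % 2 = 0) (p2 : (m + 1 + n) % 2 = 0) :
    W K (2 * m + 1) (2 * m + 3) 0 0 := by
  have he' : (s : ℤ) * (m + 1) = n * K + V := by exact_mod_cast he
  have hn := Nat.div_mul_le_self K s
  have hn2 : K < (K / s + 1) * s := (Nat.div_lt_iff_lt_mul (by omega)).1 (Nat.lt_succ_self _)
  have hne : 2 * K < K / s * V := by
    have f1 : K / s * (3 * s) ≤ K / s * V := Nat.mul_le_mul_left _ h3
    have f2 : (K / s + 1) * s = K / s * s + s := by ring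
    have f3 : K / s * (3 * s) = 3 * (K / s * s) := by ring
    omega
  refine w00' s n he hn hne (by rw [abs_of_nonneg (by omega)]; omega) (by omega) (by omega) ?_
  have : (s : ℤ) * (m + 1) - n * K = V := by linarith
  rw [this, abs_of_nonneg (by omega)]
  omega

theorem par0 {K m s n V : ℕ} (hs : 1 ≤ s) (he : s * (m + 1) = n * K + V) (h3 : 3 * s ≤ V)
    (h15 : 15 * V < K) (p1 : K % 2 = 0) (p2 : (m + 1) % 2 = 0) :
    W K (2 * m + 1) (2 * m + 3) 0 0 := by
  have hn := Nat.div_mul_le_self K s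
  have hn2 : K < (K / s + 1) * s := (Nat.div_lt_iff_lt_mul (by omega)).1 (Nat.lt_succ_self _)
  have hne : 2 * K < K / s * V := by
    have f1 : K / s * (3 * s) ≤ K / s * V := Nat.mul_le_mul_left _ h3
    have f2 : (K / s + 1) * s = K / s * s + s := by ring
    have f3 : K / s * (3 * s) = 3 * (K / s * s) := by ring
    omega
  refine w00' 0 0 he hn hne (by rw [abs_zero]; omega) (by omega) (by omega) ?_
  have : |(0 : ℤ) * (m + 1) - 0 * K| = 0 := by simp
  rw [this]
  omega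

theorem mod_mul (x y : ℕ) : x * y % 2 = (x % 2) * (y % 2) % 2 := Nat.mul_mod x y 2

/-- Coprime `q`, `h` without any condition on parities. -/
theorem anypar {K m q h e : ℕ} (hq : 1 ≤ q) (hc : Nat.Coprime q h)
    (he : q * (m + 1) = h * K + e) (h61 : 61 * e ≤ K) (h5 : 5 * q + 150 ≤ e) :
    W K (2 * m + 1) (2 * m + 3) 0 0 := by
  have hqh : ¬ (q % 2 = 0 ∧ h % 2 = 0) := by
    rintro ⟨a1, a2⟩
    have := Nat.dvd_gcd (Nat.dvd_of_mod_eq_zero a1) (Nat.dvd_of_mod_eq_zero a2)
    rw [hc] at this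
    omega
  have hmod : (q % 2) * ((m + 1) % 2) % 2 = ((h % 2) * (K % 2) + e % 2) % 2 := by
    rw [← mod_mul, he, Nat.add_mod, mod_mul h K]
    omega
  rcases Nat.mod_two_eq_zero_or_one e with pe | pe
  · -- `e` even
    rcases Nat.mod_two_eq_zero_or_one h with p1 | p1 <;>
    rcases Nat.mod_two_eq_zero_or_one q with p3 | p3 <;>
    rcases Nat.mod_two_eq_zero_or_one K with p5 | p5 <;>
    rcases Nat.mod_two_eq_zero_or_one (m + 1) with p6 | p6 <;>
    rw [p1, p3, p5, p6, pe] at hmod <;>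
    first
    | (exfalso; revert hmod; decide)
    | (exfalso; exact hqh ⟨p3, p1⟩)
    | exact par0 hq he (by omega) (by omega) p5 p6
    | exact par hq he (by omega) (by omega) (by omega) (by omega)
  · -- `e` odd: a partner
    obtain ⟨q', h', hpart⟩ : ∃ q' h' : ℕ, q * h' = q' * h + 1 := by
      rcases Nat.lt_or_ge 1 h with hh | hh
      · obtain ⟨w, -, hw⟩ := Nat.exists_mul_mod_eq_one_of_coprime hc hh
        refine ⟨q * w / h, w, ?_⟩
        have f2 := Nat.div_add_mod (q * w) h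
        rw [hw] at f2
        rw [Nat.mul_comm (q * w / h) h]
        exact f2.symm
      · rcases Nat.eq_zero_or_pos h with h0 | h0
        · have : q = 1 := by
            rw [h0] at hc
            simpa using hc
          exact ⟨0, 1, by rw [this, h0]⟩
        · have : h = 1 := by omega
          exact ⟨q - 1, 1, by rw [this]; omega⟩
    have hpart' : (q : ℤ) * h' = q' * h + 1 := by exact_mod_cast hpart
    have he' : (q : ℤ) * (m + 1) = h * K + e := by exact_mod_cast he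
    obtain ⟨e1, he1⟩ : ∃ e1 : ℤ, e1 = (q' : ℤ) * (m + 1) - h' * K := ⟨_, rfl⟩
    -- choose `x`
    obtain ⟨x, hx1, hx2, hx3⟩ : ∃ x : ℤ, (x * e + e1) % 2 = 0 ∧ (K : ℤ) ≤ 30 * (x * e + e1) ∧
        15 * (x * e + e1) < K := by
      have hep : (0 : ℤ) < e := by omega
      obtain ⟨y, hy⟩ : ∃ y : ℤ, y = ((K : ℤ) - 30 * e1) / (30 * e) + 1 := ⟨_, rfl⟩
      have g1 := Int.ediv_mul_le ((K : ℤ) - 30 * e1) (show (30 * (e : ℤ)) ≠ 0 by omega)
      have g2 := Int.lt_ediv_add_one_mul_self ((K : ℤ) - 30 * e1) (show (0 : ℤ) < 30 * e by omega)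
      rw [← hy] at g2
      have g3 : (y - 1) * (30 * e) ≤ (K : ℤ) - 30 * e1 := by
        rw [hy, add_sub_cancel_right]; exact g1
      have g4 : (K : ℤ) < 30 * (y * e + e1) := by nlinarith
      have g5 : 30 * (y * e + e1) ≤ (K : ℤ) + 30 * e := by nlinarith
      rcases Int.emod_two_eq_zero_or_one (y * e + e1) with g6 | g6
      · exact ⟨y, g6, by omega, by omega⟩
      · refine ⟨y + 1, ?_, ?_, ?_⟩
        · have : (y + 1) * (e : ℤ) + e1 = (y * e + e1) + e := by ring
          rw [this]; omega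
        · have : (y + 1) * (e : ℤ) + e1 = (y * e + e1) + e := by ring
          rw [this]; omega
        · have : (y + 1) * (e : ℤ) + e1 = (y * e + e1) + e := by ring
          rw [this]; omega
    obtain ⟨V, hV⟩ : ∃ V : ℤ, V = x * e + e1 := ⟨_, rfl⟩
    obtain ⟨s, hs⟩ : ∃ s : ℤ, s = x * q + q' := ⟨_, rfl⟩
    obtain ⟨n, hn⟩ : ∃ n : ℤ, n = x * h + h' := ⟨_, rfl⟩
    rw [← hV] at hx1 hx2 hx3
    have k1 : s * (m + 1) = n * K + V := by
      rw [hs, hn, hV, he1]
      have : (x * q + q') * ((m : ℤ) + 1) = x * (q * (m + 1)) + q' * (m + 1) := by ring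
      rw [this, he']
      ring
    have k2 : (q : ℤ) * V = s * e - K := by
      have : (q : ℤ) * e1 = -K + q' * e := by
        rw [he1]
        have : (q : ℤ) * (q' * (m + 1) - h' * K) = q' * (q * (m + 1)) - (q * h') * K := by ring
        rw [this, he', hpart']
        ring
      rw [hV, hs]
      have : (q : ℤ) * (x * e + e1) = x * q * e + q * e1 := by ring
      rw [this]
      linarith
    have k3 : (q : ℤ) * n = s * h + 1 := by
      rw [hn, hs]
      linarith
    have hKp : (0 : ℤ) < K := by omega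
    have hVp : (0 : ℤ) < V := by omega
    have hq0 : (0 : ℤ) < q := by omega
    have he0 : (0 : ℤ) < e := by omega
    have hqV : 0 < (q : ℤ) * V := mul_pos hq0 hVp
    have s0 : 0 < s := by
      by_contra hcon
      have : s * e ≤ 0 := mul_nonpos_of_nonpos_of_nonneg (by omega) he0.le
      omega
    have n0 : 0 ≤ n := by
      by_contra hcon
      have h1 : (q : ℤ) * n < 0 := mul_neg_of_pos_of_neg hq0 (by omega)
      have h2 : (0 : ℤ) ≤ s * h := mul_nonneg s0.le (by omega)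
      omega
    have k4 : 3 * s ≤ V := by
      have h1 : (30 * V) * (e - 5 * q) ≥ K * 150 :=
        mul_le_mul hx2 (by omega) (by norm_num) (by omega)
      have h2 : 5 * (s * e) ≤ V * e := by nlinarith
      have h3 : (5 * s) * e ≤ V * e := by linarith
      have h4 : 5 * s ≤ V := le_of_mul_le_mul_right h3 he0
      omega
    obtain ⟨s', rfl⟩ := Int.eq_ofNat_of_zero_le s0.le
    obtain ⟨n', rfl⟩ := Int.eq_ofNat_of_zero_le n0
    obtain ⟨V', rfl⟩ := Int.eq_ofNat_of_zero_le hVp.le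
    have c1 : s' * (m + 1) = n' * K + V' := by exact_mod_cast k1
    have c3 : q * n' = s' * h + 1 := by exact_mod_cast k3
    have m1 : (s' % 2) * ((m + 1) % 2) % 2 = ((n' % 2) * (K % 2) + V' % 2) % 2 := by
      rw [← mod_mul, c1, Nat.add_mod, mod_mul n' K]
      omega
    have m3 : (q % 2) * (n' % 2) % 2 = ((s' % 2) * (h % 2) + 1) % 2 := by
      rw [← mod_mul, c3, Nat.add_mod, mod_mul s' h]
      omega
    have pV : V' % 2 = 0 := by omega
    refine par (s := s') (n := n') (V := V') (by omega) c1 (by omega) (by omega) ?_ ?_ <;>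
    · rcases Nat.mod_two_eq_zero_or_one h with p1 | p1 <;>
      rcases Nat.mod_two_eq_zero_or_one q with p3 | p3 <;>
      rcases Nat.mod_two_eq_zero_or_one K with p5 | p5 <;>
      rcases Nat.mod_two_eq_zero_or_one (m + 1) with p6 | p6 <;>
      rcases Nat.mod_two_eq_zero_or_one s' with p7 | p7 <;>
      rcases Nat.mod_two_eq_zero_or_one n' with p8 | p8 <;>
      rw [p1, p3, p5, p6, pe] at hmod <;>
      rw [p5, p6, p7, p8, pV] at m1 <;>
      rw [p1, p3, p7, p8] at m3 <;>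
      first
      | omega
      | (exfalso; revert hmod; decide)
      | (exfalso; revert m1; decide)
      | (exfalso; revert m3; decide)

open Finset in
/-- **Almost all pairs of odd numbers:** for every even `S` all but a bounded number of odd `a`. -/
theorem every {r : ℕ} (ks : Fin r → ℕ) (J : Finset (Fin r)) (ha : Odd (∑ l ∈ J, ks l))
    (hS : Even (∑ l, ks l))
    (hd : ∀ q h : ℕ, 1 ≤ q → q ≤ 60 →
      10 * (q : ℤ) + 300 ≤ |(q : ℤ) * (∑ i ∈ J, ks i + 1 : ℕ) - h * (∑ i, ks i + 2 : ℕ)|) :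
    ¬ Arrow (∑ i, ks i + 2) ks := by
  have hsum : ∑ l ∈ J, ks l + ∑ l ∈ Jᶜ, ks l = ∑ l, ks l := sum_add_sum_compl _ _
  obtain ⟨m, hm⟩ := ha
  obtain ⟨T, hT⟩ := hS
  obtain ⟨K, hK0⟩ : ∃ K, K = T + 1 := ⟨_, rfl⟩
  have hK : ∑ l, ks l + 2 = 2 * K := by omega
  obtain ⟨m', hm'⟩ : ∃ m', ∑ l ∈ Jᶜ, ks l = 2 * m' + 1 := ⟨(∑ l ∈ Jᶜ, ks l) / 2, by omega⟩
  have hmm : m + 1 + (m' + 1) = K := by omega
  obtain ⟨q, h, hq, hq2, hhq, hcop, hdir⟩ :=
    dirichlet (K := K) (M := m + 1) (by omega) (by omega)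
  have h1 := hd q h hq hq2
  rw [hm, hK] at h1
  have e1 : (q : ℤ) * ((2 * m + 1 + 1 : ℕ) : ℤ) - h * ((2 * K : ℕ) : ℤ) =
      2 * ((q : ℤ) * ((m + 1 : ℕ) : ℤ) - h * K) := by
    push_cast
    ring
  rw [e1, abs_mul, abs_of_pos (show (0 : ℤ) < 2 by norm_num)] at h1
  rw [hK]
  rcases abs_cases ((q : ℤ) * ((m + 1 : ℕ) : ℤ) - h * K) with ⟨g1, g2⟩ | ⟨g1, g2⟩
  · rw [g1] at h1 hdir
    obtain ⟨e, he⟩ := Int.eq_ofNat_of_zero_le g2
    rw [he] at h1 hdir
    refine not_arrow_of_W (K := K) (l := 2 * m + 1) (u := 2 * m + 3) (l' := 2 * m' + 1)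
      (by omega) (by omega) (anypar (q := q) (h := h) (e := e) hq hcop ?_ (by omega) (by omega))
      ks J hm hm'
    have : (q : ℤ) * ((m + 1 : ℕ) : ℤ) = h * K + e := by linarith
    exact_mod_cast this
  · rw [g1] at h1 hdir
    obtain ⟨e, he⟩ := Int.eq_ofNat_of_zero_le
      (show 0 ≤ -((q : ℤ) * ((m + 1 : ℕ) : ℤ) - h * K) by linarith)
    rw [he] at h1 hdir
    refine not_arrow_of_W (K := K) (l := 2 * m' + 1) (u := 2 * m' + 3) (l' := 2 * m + 1)
      (by omega) (by omega) (anypar (q := q) (h := q - h) (e := e) hq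
        ((Nat.coprime_self_sub_right hhq).2 hcop) ?_ (by omega) (by omega))
      ks Jᶜ hm' (by rw [compl_compl]; exact hm)
    have z2 : ((m + 1 : ℕ) : ℤ) + ((m' + 1 : ℕ) : ℤ) = K := by exact_mod_cast hmm
    have : (q : ℤ) * ((m' + 1 : ℕ) : ℤ) = ((q - h : ℕ) : ℤ) * K + e := by
      have z3 : ((m' + 1 : ℕ) : ℤ) = K - ((m + 1 : ℕ) : ℤ) := by linarith
      rw [z3, Nat.cast_sub hhq]
      linarith
    exact_mod_cast this

end Pool.Agent.Lib.MP_21a058_co.Slack3.Ratio82
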