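import Pool.Agent.Lib.MP_21a058_co.Slack3.MainX
import Pool.Agent.Lib.MP_21a058_co.Slack3.EndG

/-! Window `2 m + 1 .. 2 m + 3`, `2 K` edges: if `(m + 1) s = n K + N` with `5 s ≤ N`, `15 N < K`
and a parity condition, then everything is killable: slopes beside every rational `n / s`. -/

set_option autoImplicit false

namespace Pool.Agent.Lib.MP_21a058_co.Slack3.Slope

open Pool.Agent.Lib.MP_21a058_co.Slack3
open Pool.Agent.Lib.MP_21a058_co.Slack3.Gen (top bot dev)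

/-- The chain rule in terms of the deviation. -/
theorem chain {K m L P : ℕ} (h1 : K < 2 * L) (h2 : 3 * L ≤ 2 * K)
    (h : 11 * (K : ℤ) < 6 * ((K : ℤ) * P - (m + 1) * L)) :
    W K (2 * m + 1) (2 * m + 3) L P := by
  rcases Nat.lt_or_ge (m + 2) P with hP | hP
  · exact top (by omega) (by omega)
  have hK0 : (0 : ℤ) ≤ (K : ℤ) := Int.natCast_nonneg _
  have hz0 : m + 4 ≤ 2 * P := by
    by_contra hc
    have e1 : (2 * (P : ℤ)) ≤ m + 3 := by omega
    have e2 : (K : ℤ) * (2 * P) ≤ K * (m + 3) := mul_le_mul_of_nonneg_left e1 hK0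
    have e3 : ((m : ℤ) + 1) * K ≤ (m + 1) * (2 * L) :=
      mul_le_mul_of_nonneg_left (by omega) (by omega)
    nlinarith
  obtain ⟨c, hc⟩ : ∃ c, c + L = K := ⟨K - L, by omega⟩
  obtain ⟨t, ht⟩ : ∃ t, t + K = 2 * L := ⟨2 * L - K, by omega⟩
  obtain ⟨a, ha⟩ : ∃ a, a + P = m + 2 := ⟨m + 2 - P, by omega⟩
  obtain ⟨z, hz⟩ : ∃ z, z + (m + 4) = 2 * P := ⟨2 * P - (m + 4), by omega⟩
  refine MX.mainX (c := c) (t := t) (a := a) (z := z) (by omega) hc (by omega) (by omega)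
    (fun p hp => ?_) fun p hp => ?_
  · have e : 2 * c + t = K := by omega
    rw [e]
    exact bot (by omega)
  · refine dev (by omega) (lt_of_lt_of_le ?_ (le_abs_self _))
    have e1 : (K : ℤ) * (3 * z) ≤ K * p := mul_le_mul_of_nonneg_left (by exact_mod_cast hp) hK0
    have e2 : (z : ℤ) = 2 * P - (m + 4) := by omega
    have e3 : (t : ℤ) = 2 * L - K := by omega
    have e4 : (K : ℤ) * (3 * z) - (m + 1) * (3 * t) = 6 * ((K : ℤ) * P - (m + 1) * L) - 9 * K := by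
      rw [e2, e3]; ring
    push_cast
    linarith

section
variable {K m s n N : ℕ}

/-- A set of `2 s` edges with at least `2 n + 2` red ones is refuted. -/
theorem small (hs : 1 ≤ s) (hN : (m + 1) * s = n * K + N) (hK : 15 * N < K) (hsN : s ≤ N)
    {i j A B e : ℕ} (hij : i + j = K) (hAB : A + B = m + 1) (he : e ≤ 1)
    (hi : 2 * i = K + e * s) (hA : 2 * A = m + 1 + e * n) {p : ℕ} (hp : 2 * n + 2 ≤ p) :
    W K (2 * m + 1) (2 * m + 3) (2 * s) p := by
  have hK0 : (0 : ℤ) ≤ (K : ℤ) := Int.natCast_nonneg _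
  have hNz : ((m : ℤ) + 1) * s = n * K + N := by exact_mod_cast hN
  have hiz : 2 * (i : ℤ) = K + e * s := by exact_mod_cast hi
  have hAz : 2 * (A : ℤ) = m + 1 + e * n := by exact_mod_cast hA
  have hijz : (i : ℤ) + j = K := by exact_mod_cast hij
  have hABz : (A : ℤ) + B = m + 1 := by exact_mod_cast hAB
  have e0 : e * s ≤ s := by nlinarith
  have eN : (e : ℤ) * N ≤ N := by
    have : (e : ℤ) ≤ 1 := by exact_mod_cast he
    nlinarith [Int.natCast_nonneg N]
  have eN0 : (0 : ℤ) ≤ (e : ℤ) * N := by positivity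
  have hKz : 15 * (N : ℤ) < K := by exact_mod_cast hK
  have hpz : (K : ℤ) * (2 * n + 2) ≤ K * p :=
    mul_le_mul_of_nonneg_left (by exact_mod_cast hp) hK0
  have dA : 2 * ((K : ℤ) * A - (m + 1) * i) = - (e * N) := by
    have : 2 * ((K : ℤ) * A - (m + 1) * i) = K * (2 * A) - (m + 1) * (2 * i) := by ring
    rw [this, hAz, hiz]
    linear_combination (-(e : ℤ)) * hNz
  have dB : 2 * ((K : ℤ) * B - (m + 1) * j) = e * N := by
    have : 2 * ((K : ℤ) * B - (m + 1) * j) = - (2 * ((K : ℤ) * A - (m + 1) * i)) := by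
      have eB : (B : ℤ) = m + 1 - A := by linarith
      have ej : (j : ℤ) = K - i := by linarith
      rw [eB, ej]; ring
    rw [this, dA]; ring
  refine W_R2 (i := i) (j := j) (by omega) (by omega) (by omega) fun a b ha hb => ?_
  by_cases c1 : A ≤ a
  · left
    refine chain (by omega) (by omega) ?_
    have f1 : (K : ℤ) * A ≤ K * a := mul_le_mul_of_nonneg_left (by exact_mod_cast c1) hK0
    push_cast
    have f2 : (K : ℤ) * (p + a) - (m + 1) * (2 * s + i) =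
        K * p + (K * a - (m + 1) * i) - 2 * ((m + 1) * s) := by ring
    rw [f2, hNz]
    linarith
  by_cases c2 : B ≤ b
  · right; left
    refine chain (by omega) (by omega) ?_
    have f1 : (K : ℤ) * B ≤ K * b := mul_le_mul_of_nonneg_left (by exact_mod_cast c2) hK0
    push_cast
    have f2 : (K : ℤ) * (p + b) - (m + 1) * (2 * s + j) =
        K * p + (K * b - (m + 1) * j) - 2 * ((m + 1) * s) := by ring
    rw [f2, hNz]
    linarith
  right; right
  rw [hij]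
  exact bot (by omega)

/-- Going down from the `K`-sets in steps of `s` edges. -/
theorem walk (hN : (m + 1) * s = n * K + N) (h2s : 2 * s ≤ K)
    (hw : ∀ p, 2 * n + 2 ≤ p → W K (2 * m + 1) (2 * m + 3) (2 * s) p) (hK1 : 0 < K) :
    ∀ k L, L + k * s = K → ∀ p : ℕ, (K : ℤ) * p - (m + 1) * L ≤ k * N - 2 * K →
      W K (2 * m + 1) (2 * m + 3) L p := by
  have hK0 : (0 : ℤ) ≤ (K : ℤ) := Int.natCast_nonneg _
  have hK1z : (0 : ℤ) < (K : ℤ) := by exact_mod_cast hK1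
  have hNz : ((m : ℤ) + 1) * s = n * K + N := by exact_mod_cast hN
  intro k
  induction k with
  | zero =>
    intro L hL p hp
    have e : L = K := by omega
    subst e
    refine bot ?_
    by_contra hc
    have e1 : (m : ℤ) ≤ p := by omega
    have e2 : (L : ℤ) * m ≤ L * p := mul_le_mul_of_nonneg_left e1 hK0
    push_cast at hp
    nlinarith
  | succ k ih =>
    intro L hL p hp
    have hL' : L + s + k * s = K := by rw [← hL]; ring
    refine W_R2 (i := s) (j := s) (by omega) (by omega) (by omega) fun a b ha hb => ?_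
    have key : ∀ a : ℕ, a ≤ n → W K (2 * m + 1) (2 * m + 3) (L + s) (p + a) := by
      intro a ha
      refine ih (L + s) hL' (p + a) ?_
      have f1 : (K : ℤ) * a ≤ K * n := mul_le_mul_of_nonneg_left (by exact_mod_cast ha) hK0
      push_cast at hp ⊢
      have f2 : (K : ℤ) * (p + a) - (m + 1) * (L + s) =
        (K * p - (m + 1) * L) + K * a - (m + 1) * s := by ring
      rw [f2, hNz]
      linarith
    by_cases c1 : a ≤ n
    · exact Or.inl (key a c1)
    by_cases c2 : b ≤ n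
    · exact Or.inr (Or.inl (key b c2))
    right; right
    have e : s + s = 2 * s := by omega
    rw [e]
    exact hw _ (by omega)

/-- **Everything is killable.** -/
theorem w00 (hs : 1 ≤ s) (hN : (m + 1) * s = n * K + N) (hK : 15 * N < K) (hsN : 5 * s ≤ N)
    (hpar : (2 ∣ K ∧ 2 ∣ m + 1) ∨ (2 ∣ K + s ∧ 2 ∣ m + 1 + n)) :
    W K (2 * m + 1) (2 * m + 3) 0 0 := by
  have hK0 : (0 : ℤ) ≤ (K : ℤ) := Int.natCast_nonneg _
  have hnm : n ≤ m + 1 := by
    by_contra hc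
    have e1 : (m + 1) * s ≤ (m + 1) * K := Nat.mul_le_mul_left _ (by omega)
    have e2 : (m + 2) * K ≤ n * K := Nat.mul_le_mul_right _ (by omega)
    nlinarith
  obtain ⟨e, he, i, A, hi, hA⟩ : ∃ e, e ≤ 1 ∧ ∃ i A, 2 * i = K + e * s ∧ 2 * A = m + 1 + e * n := by
    rcases hpar with ⟨⟨i, hi⟩, ⟨A, hA⟩⟩ | ⟨⟨i, hi⟩, ⟨A, hA⟩⟩
    · exact ⟨0, by omega, i, A, by omega, by omega⟩
    · exact ⟨1, by omega, i, A, by omega, by omega⟩
  have e0 : e * s ≤ s := by nlinarith
  have e1 : e * n ≤ n := by nlinarith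
  obtain ⟨j, hj⟩ : ∃ j, i + j = K := ⟨K - i, by omega⟩
  obtain ⟨B, hB⟩ : ∃ B, A + B = m + 1 := ⟨m + 1 - A, by omega⟩
  have hw : ∀ p, 2 * n + 2 ≤ p → W K (2 * m + 1) (2 * m + 3) (2 * s) p := fun p hp =>
    small hs hN hK (by omega) hj hB he hi hA hp
  -- the number of steps
  have hkL : K / s * s + K % s = K := Nat.div_add_mod' K s
  have hmod : K % s < s := Nat.mod_lt _ (by omega)
  set k := K / s with hk
  set L := K % s with hL
  have wk := walk hN (by omega) hw (by omega) k L (by omega)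
  have hbig : 4 * K ≤ k * N := by
    have g1 : k * (5 * s) ≤ k * N := Nat.mul_le_mul_left _ hsN
    have g2 : k * (5 * s) = 5 * (k * s) := by ring
    omega
  have hbigz : 4 * (K : ℤ) ≤ k * N := by exact_mod_cast hbig
  have hLK : L ≤ K := by omega
  have hall : ∀ p, W K (2 * m + 1) (2 * m + 3) L p := by
    intro p
    by_cases c : (K : ℤ) * p - (m + 1) * L ≤ k * N - 2 * K
    · exact wk p c
    · refine dev hLK (lt_of_lt_of_le ?_ (le_abs_self _))
      linarith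
  refine W_R2 (i := L) (j := 0) (by omega) (by omega) (by omega) fun a b _ _ => Or.inl ?_
  have e2 : 0 + L = L := by omega
  rw [e2]
  exact hall _

end

open Finset in
/-- Some of the parts have the odd sum `a`, the sum `S` of all parts is even, and
`10 s ≤ s (a + 1) - n (S + 2) < (S + 2) / 15`, with a parity condition. -/
theorem above (k r : ℕ) (ks : Fin r → ℕ) (J : Finset (Fin r)) (ho : Odd (∑ l ∈ J, ks l))
    (s n : ℕ) (hs : 1 ≤ s)
    (hpar : (4 ∣ ∑ l, ks l + 2 ∧ 4 ∣ ∑ l ∈ J, ks l + 1) ∨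
      (4 ∣ ∑ l, ks l + 2 + 2 * s ∧ 4 ∣ ∑ l ∈ J, ks l + 1 + 2 * n))
    (h1 : n * (∑ l, ks l + 2) + 10 * s ≤ s * (∑ l ∈ J, ks l + 1))
    (h2 : 15 * (s * (∑ l ∈ J, ks l + 1)) < 15 * (n * (∑ l, ks l + 2)) + (∑ l, ks l + 2))
    (h : Arrow k ks) : ∑ l, ks l + 3 ≤ k := by
  by_contra hlt
  have hc : ∑ l ∈ J, ks l + ∑ l ∈ Jᶜ, ks l = ∑ l, ks l := sum_add_sum_compl _ _
  obtain ⟨m, hm⟩ := ho
  obtain ⟨K, hK⟩ : ∃ K, ∑ l, ks l + 2 = 2 * K := ⟨(∑ l, ks l + 2) / 2, by omega⟩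
  rw [hK, hm] at h1 h2
  have e1 : n * (2 * K) = 2 * (n * K) := by ring
  have e2 : s * (2 * m + 1 + 1) = 2 * ((m + 1) * s) := by ring
  rw [e1, e2] at h1 h2
  obtain ⟨N, hN⟩ : ∃ N, (m + 1) * s = n * K + N := ⟨(m + 1) * s - n * K, by omega⟩
  have hA : Arrow (2 * K) ks := arrow_mono (by omega) h
  exact not_arrow_of_W (K := K) (l := 2 * m + 1) (u := 2 * m + 3)
    (l' := ∑ l, ks l - (2 * m + 1)) (by omega) (by omega)
    (w00 hs hN (by omega) (by omega) (by omega)) ks J hm (by omega) hA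

open Finset in
/-- The same with the roles of the two classes exchanged. -/
theorem below (k r : ℕ) (ks : Fin r → ℕ) (J : Finset (Fin r)) (ho : Odd (∑ l ∈ J, ks l))
    (s n : ℕ) (hs : 1 ≤ s)
    (hpar : (4 ∣ ∑ l, ks l + 2 ∧ 4 ∣ ∑ l ∈ J, ks l + 1) ∨
      (4 ∣ ∑ l, ks l + 2 + 2 * s ∧ 4 ∣ ∑ l ∈ J, ks l + 1 + 2 * n))
    (h1 : s * (∑ l ∈ J, ks l + 1) + 10 * s ≤ n * (∑ l, ks l + 2))
    (h2 : 15 * (n * (∑ l, ks l + 2)) < 15 * (s * (∑ l ∈ J, ks l + 1)) + (∑ l, ks l + 2))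
    (h : Arrow k ks) : ∑ l, ks l + 3 ≤ k := by
  have hc : ∑ l ∈ J, ks l + ∑ l ∈ Jᶜ, ks l = ∑ l, ks l := sum_add_sum_compl _ _
  have hns : n ≤ s := by
    by_contra hlt
    have g1 : (s + 1) * (∑ l, ks l + 2) ≤ n * (∑ l, ks l + 2) :=
      Nat.mul_le_mul_right _ (by omega)
    have g2 : s * (∑ l ∈ J, ks l + 1) ≤ s * (∑ l, ks l + 2) := Nat.mul_le_mul_left _ (by omega)
    have g3 : (s + 1) * (∑ l, ks l + 2) = s * (∑ l, ks l + 2) + (∑ l, ks l + 2) := by ring
    omega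
  obtain ⟨n', hn'⟩ : ∃ n', n + n' = s := ⟨s - n, by omega⟩
  have e1 : n * (∑ l, ks l + 2) + n' * (∑ l, ks l + 2) = s * (∑ l, ks l + 2) := by
    rw [← hn']; ring
  have e2 : s * (∑ l ∈ Jᶜ, ks l + 1) + s * (∑ l ∈ J, ks l + 1) = s * (∑ l, ks l + 2) := by
    rw [← hc]; ring
  refine above k r ks Jᶜ ?_ s n' hs ?_ (by omega) (by omega) h
  · obtain ⟨m, hm⟩ := ho
    rw [Nat.odd_iff]
    omega
  · omega

end Pool.Agent.Lib.MP_21a058_co.Slack3.Slope
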