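import Pool.Agent.Lib.MP_21a058_co.Slack3.Main41
import Pool.Agent.Lib.MP_21a058_co.Slack3.Final

/-! Two classes `3` and `2 K - 5`, `K ≥ 28` even: `2 K = 3 + (2 K - 5) + 2` is not enough. -/

set_option autoImplicit false

namespace Pool.Agent.Lib.MP_21a058_co.Slack3

open Finset Pool.Agent.Lib.MP_21a058_co

theorem three {K l' r : ℕ} (he : K % 2 = 0) (hK : 28 ≤ K) (hl : 5 + l' = 2 * K)
    (ks : Fin r → ℕ) (J : Finset (Fin r)) (hJ : ∑ i ∈ J, ks i = 3)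
    (hJ' : ∑ i ∈ Jᶜ, ks i = l') : ¬ Arrow (2 * K) ks :=
  not_arrow_of_main (by omega) he hl
    (M41.main he hK fun L hL => w_half3 (by omega)) ks J hJ hJ'

/-- `f(3, 2 K - 5) ≥ 2 K + 1 = 3 + (2 K - 5) + 3` for even `K ≥ 28`. -/
theorem three_pair (k K : ℕ) (he : K % 2 = 0) (hK : 28 ≤ K) (h : Arrow k ![3, 2 * K - 5]) :
    2 * K + 1 ≤ k := by
  by_contra hlt
  have hA : Arrow (2 * K) ![3, 2 * K - 5] := arrow_mono (by omega) h
  refine three (l' := 2 * K - 5) he hK (by omega) _ {0} ?_ ?_ hA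
  · simp
  · have : ({0} : Finset (Fin 2))ᶜ = {1} := by decide
    rw [this]
    simp

end Pool.Agent.Lib.MP_21a058_co.Slack3
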