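import Pool.Agent.Lib.MP_21a058_co.Slack3.Final

/-! Window `3 ≤ red ≤ 5`, `K = 2 H`, `H ≥ 12`: three red edges in an alive set of `H + 2` edges are
refutable, hence everything is killable. -/

set_option autoImplicit false

namespace Pool.Agent.Lib.MP_21a058_co.Slack3.Three62

open Pool.Agent.Lib.MP_21a058_co.Slack3
open Pool.Agent.Lib.MP_21a058_co.Odd (red red_sum red_equiv red_le)

/-- Some structure forces `φ`. -/
def Fo (K l u : ℕ) (I : Type) (φ : (I → Bool) → Prop) : Prop := Kill K l u I {x | ¬ φ x}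

theorem Fo.weak {K l u : ℕ} {I : Type} {φ ψ : (I → Bool) → Prop} (h : Fo K l u I φ)
    (hw : ∀ x, φ x → ψ x) : Fo K l u I ψ :=
  Kill.mono h fun x hx hn => hx (hw x hn)

theorem Fo.base (K l u : ℕ) (I : Type) : Fo K l u I (fun _ => True) :=
  (Kill.empty K l u I).mono fun _ hx => absurd trivial hx

theorem Fo.info {K l u : ℕ} {I : Type} {φ : (I → Bool) → Prop} (h : Fo K l u I φ) :
    Fo K l u I (fun x => φ x ∧ (l ≤ red x ∧ red x ≤ u)) := by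
  refine (Kill.addBase h).mono ?_
  intro x hx
  by_cases h1 : l ≤ red x ∧ red x ≤ u
  · exact Or.inl fun h2 => hx ⟨h2, h1⟩
  · refine Or.inr ?_
    omega

theorem Fo.tr {K l u : ℕ} {I J : Type} {φ : (I → Bool) → Prop} (h : Fo K l u I φ) (e : I ≃ J) :
    Fo K l u J (fun y => φ (fun i => y (e i))) :=
  Kill.transport h e

theorem Fo.node {K l u : ℕ} {X Y N : Type} [Finite N] (hX : Nat.card X = K) (hY : Nat.card Y = K)
    (hN : Nat.card N = K) {A : (X ⊕ N → Bool) → Prop} {B : (Y ⊕ N → Bool) → Prop}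
    (hA : Fo K l u (X ⊕ N) A) (hB : Fo K l u (Y ⊕ N) B) :
    Fo K l u (X ⊕ Y) (fun x => ∃ n : N → Bool,
      A (Sum.elim (fun a => x (Sum.inl a)) n) ∧ B (Sum.elim (fun b => x (Sum.inr b)) n)) := by
  have hN' : Nat.card N = Nat.card (Fin K) := by rw [hN, Nat.card_fin]
  obtain ⟨e⟩ := Finite.card_eq.mp hN'
  refine Kill.node (X ⊕ Y) X Y hX hY (Equiv.refl _) _ _ _
    (hA.tr (Equiv.sumCongr (Equiv.refl X) e)) (hB.tr (Equiv.sumCongr (Equiv.refl Y) e)) ?_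
  intro x hx
  right
  intro n
  by_contra hcon
  obtain ⟨h1, h2⟩ := not_or.mp hcon
  apply hx
  refine ⟨fun i => n (e i), ?_, ?_⟩
  · have h3 : A (fun i => (Sum.elim (fun j => x ((Equiv.refl (X ⊕ Y)).symm (Sum.inl j))) n :
        X ⊕ Fin K → Bool) ((Equiv.sumCongr (Equiv.refl X) e) i)) := not_not.mp h1
    have h4 : (fun i => (Sum.elim (fun j => x ((Equiv.refl (X ⊕ Y)).symm (Sum.inl j))) n :
        X ⊕ Fin K → Bool) ((Equiv.sumCongr (Equiv.refl X) e) i)) =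
        Sum.elim (fun a => x (Sum.inl a)) (fun i => n (e i)) := by
      funext i
      rcases i with i | i <;> rfl
    rwa [h4] at h3
  · have h3 : B (fun i => (Sum.elim (fun j => x ((Equiv.refl (X ⊕ Y)).symm (Sum.inr j))) n :
        Y ⊕ Fin K → Bool) ((Equiv.sumCongr (Equiv.refl Y) e) i)) := not_not.mp h2
    have h4 : (fun i => (Sum.elim (fun j => x ((Equiv.refl (X ⊕ Y)).symm (Sum.inr j))) n :
        Y ⊕ Fin K → Bool) ((Equiv.sumCongr (Equiv.refl Y) e) i)) =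
        Sum.elim (fun b => x (Sum.inr b)) (fun i => n (e i)) := by
      funext i
      rcases i with i | i <;> rfl
    rwa [h4] at h3

/-- The four part version. -/
def Fo4 (K l u : ℕ) (A B C D : Type)
    (φ : (A → Bool) → (B → Bool) → (C → Bool) → (D → Bool) → Prop) : Prop :=
  Fo K l u ((A ⊕ B) ⊕ (C ⊕ D)) (fun x => φ (fun a => x (Sum.inl (Sum.inl a)))
    (fun b => x (Sum.inl (Sum.inr b))) (fun c => x (Sum.inr (Sum.inl c)))
    (fun d => x (Sum.inr (Sum.inr d))))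

theorem Fo4.weak {K l u : ℕ} {A B C D : Type}
    {φ ψ : (A → Bool) → (B → Bool) → (C → Bool) → (D → Bool) → Prop} (h : Fo4 K l u A B C D φ)
    (hw : ∀ a b c d, φ a b c d → ψ a b c d) : Fo4 K l u A B C D ψ :=
  Fo.weak h fun _ hx => hw _ _ _ _ hx

theorem Fo4.info {K l u : ℕ} {A B C D : Type} [Finite A] [Finite B] [Finite C] [Finite D]
    {φ : (A → Bool) → (B → Bool) → (C → Bool) → (D → Bool) → Prop} (h : Fo4 K l u A B C D φ) :
    Fo4 K l u A B C D (fun a b c d => φ a b c d ∧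
      (l ≤ red a + red b + (red c + red d) ∧ red a + red b + (red c + red d) ≤ u)) := by
  refine (Fo.info h).weak ?_
  rintro x ⟨h1, h2⟩
  rw [red_sum x, red_sum (fun i : A ⊕ B => x (Sum.inl i)),
    red_sum (fun i : C ⊕ D => x (Sum.inr i))] at h2
  exact ⟨h1, h2⟩

/-- The permutation of the four parts. -/
def e4 (A B C D : Type) : (A ⊕ B) ⊕ (C ⊕ D) ≃ (C ⊕ A) ⊕ (D ⊕ B) where
  toFun p := match p with
    | Sum.inl (Sum.inl a) => Sum.inl (Sum.inr a)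
    | Sum.inl (Sum.inr b) => Sum.inr (Sum.inr b)
    | Sum.inr (Sum.inl c) => Sum.inl (Sum.inl c)
    | Sum.inr (Sum.inr d) => Sum.inr (Sum.inl d)
  invFun p := match p with
    | Sum.inl (Sum.inr a) => Sum.inl (Sum.inl a)
    | Sum.inr (Sum.inr b) => Sum.inl (Sum.inr b)
    | Sum.inl (Sum.inl c) => Sum.inr (Sum.inl c)
    | Sum.inr (Sum.inl d) => Sum.inr (Sum.inr d)
  left_inv := by rintro ((a | b) | (c | d)) <;> rfl
  right_inv := by rintro ((c | a) | (d | b)) <;> rfl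

theorem Fo4.perm {K l u : ℕ} {A B C D : Type}
    {φ : (A → Bool) → (B → Bool) → (C → Bool) → (D → Bool) → Prop} (h : Fo4 K l u A B C D φ) :
    Fo4 K l u C A D B (fun c a d b => φ a b c d) :=
  Fo.tr h (e4 A B C D)

theorem Fo4.node {K l u : ℕ} {A B C D N1 N2 : Type} [Finite N1] [Finite N2]
    (hX : Nat.card (A ⊕ B) = K) (hY : Nat.card (C ⊕ D) = K) (hN : Nat.card (N1 ⊕ N2) = K)
    {φ : (A → Bool) → (B → Bool) → (N1 → Bool) → (N2 → Bool) → Prop}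
    {ψ : (C → Bool) → (D → Bool) → (N1 → Bool) → (N2 → Bool) → Prop}
    (hA : Fo4 K l u A B N1 N2 φ) (hB : Fo4 K l u C D N1 N2 ψ) :
    Fo4 K l u A B C D (fun a b c d => ∃ (n1 : N1 → Bool) (n2 : N2 → Bool),
      φ a b n1 n2 ∧ ψ c d n1 n2) :=
  (Fo.node hX hY hN hA hB).weak fun _ ⟨n, h1, h2⟩ =>
    ⟨fun i => n (Sum.inl i), fun j => n (Sum.inr j), h1, h2⟩

/-- an alive set -/
theorem Fo.alive {K l u L : ℕ} (F R : Type) [Finite F] [Finite R] (hF : Nat.card F = L)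
    (hR : Nat.card F + Nat.card R = 2 * K) :
    Fo K l u (F ⊕ R) (fun x => ¬ W K l u L (red (fun f => x (Sum.inl f)))) :=
  (W_seq' F R hF hR ∅ ((Kill.empty K l u _).mono
    fun x hx => absurd hx (Set.notMem_empty _))).mono fun _ hx => Or.inr (not_not.mp hx)

/-! ### the tests -/

/-- `C + C' + T` is a `K`-set: the shape `C Q C' Q'` with `T` in `Q'`. -/
def eF (C Q T Z : Type) : (C ⊕ (C ⊕ T)) ⊕ (Q ⊕ Z) ≃ (C ⊕ Q) ⊕ (C ⊕ (T ⊕ Z)) where
  toFun p := match p with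
    | Sum.inl (Sum.inl c) => Sum.inl (Sum.inl c)
    | Sum.inl (Sum.inr (Sum.inl c)) => Sum.inr (Sum.inl c)
    | Sum.inl (Sum.inr (Sum.inr t)) => Sum.inr (Sum.inr (Sum.inl t))
    | Sum.inr (Sum.inl q) => Sum.inl (Sum.inr q)
    | Sum.inr (Sum.inr z) => Sum.inr (Sum.inr (Sum.inr z))
  invFun p := match p with
    | Sum.inl (Sum.inl c) => Sum.inl (Sum.inl c)
    | Sum.inr (Sum.inl c) => Sum.inl (Sum.inr (Sum.inl c))
    | Sum.inr (Sum.inr (Sum.inl t)) => Sum.inl (Sum.inr (Sum.inr t))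
    | Sum.inl (Sum.inr q) => Sum.inr (Sum.inl q)
    | Sum.inr (Sum.inr (Sum.inr z)) => Sum.inr (Sum.inr z)
  left_inv := by rintro ((c | (c | t)) | (q | z)) <;> rfl
  right_inv := by rintro ((c | q) | (c | (t | z))) <;> rfl

theorem vertF {H : ℕ} (hH : 12 ≤ H) (C Q T Z : Type) [Finite C] [Finite Q] [Finite T] [Finite Z]
    (cC : Nat.card C = H - 2) (cQ : Nat.card Q = H + 2) (cT : Nat.card T = 4)
    (cZ : Nat.card Z = H - 2) :
    Fo4 (2 * H) 3 5 C Q C (T ⊕ Z) (fun c _ c' q' =>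
      red c = 0 → red c' = 0 → 1 ≤ red (fun t => q' (Sum.inl t))) := by
  have k := (Fo.alive (K := 2 * H) (l := 3) (u := 5) (L := 2 * H) (C ⊕ (C ⊕ T)) (Q ⊕ Z)
    (by simp only [Nat.card_sum, cC, cT]; omega)
    (by simp only [Nat.card_sum, cC, cT, cQ, cZ]; omega)).tr (eF C Q T Z)
  refine Fo.weak k ?_
  intro x hx h1 h2
  by_contra h3
  apply hx
  have h1' : red (fun c => x (Sum.inl (Sum.inl c))) = 0 := h1
  have h2' : red (fun c => x (Sum.inr (Sum.inl c))) = 0 := h2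
  have h3' : ¬ 1 ≤ red (fun t => x (Sum.inr (Sum.inr (Sum.inl t)))) := h3
  have r : red (fun f : C ⊕ (C ⊕ T) => x (eF C Q T Z (Sum.inl f))) =
      red (fun c => x (Sum.inl (Sum.inl c))) + (red (fun c => x (Sum.inr (Sum.inl c))) +
        red (fun t => x (Sum.inr (Sum.inr (Sum.inl t))))) := by
    rw [red_sum, red_sum (fun s : C ⊕ T => x (eF C Q T Z (Sum.inl (Sum.inr s))))]
    rfl
  have r0 : red (fun f : C ⊕ (C ⊕ T) => x (eF C Q T Z (Sum.inl f))) = 0 := by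
    rw [r]
    omega
  have := w_K0 (K := 2 * H)
  rw [← r0] at this
  exact this

/-- the mirror -/
theorem vertB {H : ℕ} (hH : 12 ≤ H) (C Q T Z : Type) [Finite C] [Finite Q] [Finite T] [Finite Z]
    (cC : Nat.card C = H - 2) (cQ : Nat.card Q = H + 2) (cT : Nat.card T = 4)
    (cZ : Nat.card Z = H - 2) :
    Fo4 (2 * H) 3 5 C (T ⊕ Z) C Q (fun c q' c' _ =>
      red c = 0 → red c' = 0 → 1 ≤ red (fun t => q' (Sum.inl t))) :=
  (Fo.tr (vertF hH C Q T Z cC cQ cT cZ) (Equiv.sumComm _ _)).weak fun _ hx h1 h2 => hx h2 h1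

/-- the shape of `w_2`: `J1 = C + C' + T1`, `J2 = (T + Z1) + (T' + Z')`, root `C (T ⊕ (T1 ⊕ Z1)) C' (T' ⊕ Z')` -/
def eM (C T T1 Z1 T' Z' : Type) : (C ⊕ (C ⊕ T1)) ⊕ ((T ⊕ T') ⊕ (Z1 ⊕ Z')) ≃
    (C ⊕ (T ⊕ (T1 ⊕ Z1))) ⊕ (C ⊕ (T' ⊕ Z')) where
  toFun p := match p with
    | Sum.inl (Sum.inl c) => Sum.inl (Sum.inl c)
    | Sum.inl (Sum.inr (Sum.inl c)) => Sum.inr (Sum.inl c)
    | Sum.inl (Sum.inr (Sum.inr t)) => Sum.inl (Sum.inr (Sum.inr (Sum.inl t)))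
    | Sum.inr (Sum.inl (Sum.inl t)) => Sum.inl (Sum.inr (Sum.inl t))
    | Sum.inr (Sum.inl (Sum.inr t)) => Sum.inr (Sum.inr (Sum.inl t))
    | Sum.inr (Sum.inr (Sum.inl z)) => Sum.inl (Sum.inr (Sum.inr (Sum.inr z)))
    | Sum.inr (Sum.inr (Sum.inr z)) => Sum.inr (Sum.inr (Sum.inr z))
  invFun p := match p with
    | Sum.inl (Sum.inl c) => Sum.inl (Sum.inl c)
    | Sum.inr (Sum.inl c) => Sum.inl (Sum.inr (Sum.inl c))
    | Sum.inl (Sum.inr (Sum.inr (Sum.inl t))) => Sum.inl (Sum.inr (Sum.inr t))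
    | Sum.inl (Sum.inr (Sum.inl t)) => Sum.inr (Sum.inl (Sum.inl t))
    | Sum.inr (Sum.inr (Sum.inl t)) => Sum.inr (Sum.inl (Sum.inr t))
    | Sum.inl (Sum.inr (Sum.inr (Sum.inr z))) => Sum.inr (Sum.inr (Sum.inl z))
    | Sum.inr (Sum.inr (Sum.inr z)) => Sum.inr (Sum.inr (Sum.inr z))
  left_inv := by rintro ((c | (c | t)) | ((t | t) | (z | z))) <;> rfl
  right_inv := by rintro ((c | (t | (t | z))) | (c | (t | z))) <;> rfl

/-- `v1`: `C + C' + T2` in `(C + (C' + T1)) + (T2 + N)` -/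
def eV (C T1 T2 N : Type) : (C ⊕ (C ⊕ T2)) ⊕ (T1 ⊕ N) ≃ (C ⊕ (C ⊕ T1)) ⊕ (T2 ⊕ N) where
  toFun p := match p with
    | Sum.inl (Sum.inl c) => Sum.inl (Sum.inl c)
    | Sum.inl (Sum.inr (Sum.inl c)) => Sum.inl (Sum.inr (Sum.inl c))
    | Sum.inl (Sum.inr (Sum.inr t)) => Sum.inr (Sum.inl t)
    | Sum.inr (Sum.inl t) => Sum.inl (Sum.inr (Sum.inr t))
    | Sum.inr (Sum.inr n) => Sum.inr (Sum.inr n)
  invFun p := match p with
    | Sum.inl (Sum.inl c) => Sum.inl (Sum.inl c)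
    | Sum.inl (Sum.inr (Sum.inl c)) => Sum.inl (Sum.inr (Sum.inl c))
    | Sum.inr (Sum.inl t) => Sum.inl (Sum.inr (Sum.inr t))
    | Sum.inl (Sum.inr (Sum.inr t)) => Sum.inr (Sum.inl t)
    | Sum.inr (Sum.inr n) => Sum.inr (Sum.inr n)
  left_inv := by rintro ((c | (c | t)) | (t | n)) <;> rfl
  right_inv := by rintro ((c | (c | t)) | (t | n)) <;> rfl

theorem vertM {H : ℕ} (hH : 12 ≤ H) (C : Type) [Finite C] (cC : Nat.card C = H - 2) :
    Fo4 (2 * H) 3 5 C (Fin 4 ⊕ (Fin 4 ⊕ Fin (H - 6))) C (Fin 4 ⊕ Fin (H - 2)) (fun c q c' q' =>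
      red c = 0 → red c' = 0 → 1 ≤ red (fun t => q (Sum.inl t)) →
        1 ≤ red (fun t => q' (Sum.inl t)) → False) := by
  have k1 := (Fo.alive (K := 2 * H) (l := 3) (u := 5) (L := 2 * H) (C ⊕ (C ⊕ Fin 4))
    (Fin 4 ⊕ Fin (2 * H - 4)) (by simp only [Nat.card_sum, cC, Nat.card_fin]; omega)
    (by simp only [Nat.card_sum, cC, Nat.card_fin]; omega)).tr (eV C (Fin 4) (Fin 4) (Fin (2 * H - 4)))
  have k2 := (Fo.alive (K := 2 * H) (l := 3) (u := 5) (L := 12) ((Fin 4 ⊕ Fin 4) ⊕ Fin 4)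
    ((Fin (H - 6) ⊕ Fin (H - 2)) ⊕ Fin (2 * H - 4)) (by simp only [Nat.card_sum, Nat.card_fin])
    (by simp only [Nat.card_sum, Nat.card_fin]; omega)).tr
    (Equiv.sumSumSumComm (Fin 4 ⊕ Fin 4) (Fin 4) (Fin (H - 6) ⊕ Fin (H - 2)) (Fin (2 * H - 4)))
  have k3 := (Fo.node (K := 2 * H) (l := 3) (u := 5)
    (show Nat.card (C ⊕ (C ⊕ Fin 4)) = 2 * H by simp only [Nat.card_sum, cC, Nat.card_fin]; omega)
    (show Nat.card ((Fin 4 ⊕ Fin 4) ⊕ (Fin (H - 6) ⊕ Fin (H - 2))) = 2 * H by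
      simp only [Nat.card_sum, Nat.card_fin]; omega)
    (show Nat.card (Fin 4 ⊕ Fin (2 * H - 4)) = 2 * H by
      simp only [Nat.card_sum, Nat.card_fin]; omega) k1 k2).tr
    (eM C (Fin 4) (Fin 4) (Fin (H - 6)) (Fin 4) (Fin (H - 2)))
  refine Fo.weak k3 ?_
  rintro x ⟨n, h1, h2⟩ g1 g2 g3 g4
  have t1 : 1 ≤ red (fun t => n (Sum.inl t)) := by
    by_contra h3
    apply h1
    have r : ∀ y : (C ⊕ (C ⊕ Fin 4)) ⊕ (Fin 4 ⊕ Fin (2 * H - 4)) → Bool,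
        red (fun f => y (eV C (Fin 4) (Fin 4) (Fin (2 * H - 4)) (Sum.inl f))) =
        red (fun c => y (Sum.inl (Sum.inl c))) + (red (fun c => y (Sum.inl (Sum.inr (Sum.inl c)))) +
        red (fun t => y (Sum.inr (Sum.inl t)))) := by
      intro y
      rw [red_sum, red_sum (fun s : C ⊕ Fin 4 => y (eV C (Fin 4) (Fin 4) (Fin (2 * H - 4))
        (Sum.inl (Sum.inr s))))]
      rfl
    have g1' : red (fun c => x (Sum.inl (Sum.inl c))) = 0 := g1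
    have g2' : red (fun c => x (Sum.inr (Sum.inl c))) = 0 := g2
    have r2 : red (fun c => x (Sum.inl (Sum.inl c))) + (red (fun c => x (Sum.inr (Sum.inl c))) +
        red (fun t => n (Sum.inl t))) = 0 := by omega
    have r0 := (r (Sum.elim (fun a => x (eM C (Fin 4) (Fin 4) (Fin (H - 6)) (Fin 4) (Fin (H - 2))
      (Sum.inl a))) n)).trans r2
    have := w_K0 (K := 2 * H)
    rw [← r0] at this
    exact this
  apply h2
  have r : ∀ y : ((Fin 4 ⊕ Fin 4) ⊕ (Fin (H - 6) ⊕ Fin (H - 2))) ⊕ (Fin 4 ⊕ Fin (2 * H - 4)) → Bool,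
      red (fun f => y (Equiv.sumSumSumComm (Fin 4 ⊕ Fin 4) (Fin 4) (Fin (H - 6) ⊕ Fin (H - 2))
        (Fin (2 * H - 4)) (Sum.inl f))) =
      red (fun t => y (Sum.inl (Sum.inl (Sum.inl t)))) +
        red (fun t => y (Sum.inl (Sum.inl (Sum.inr t)))) + red (fun t => y (Sum.inr (Sum.inl t))) := by
    intro y
    rw [red_sum, red_sum (fun s : Fin 4 ⊕ Fin 4 => y (Equiv.sumSumSumComm (Fin 4 ⊕ Fin 4) (Fin 4)
      (Fin (H - 6) ⊕ Fin (H - 2)) (Fin (2 * H - 4)) (Sum.inl (Sum.inl s))))]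
    rfl
  have h3 : ∀ p, 3 ≤ p → W (2 * H) 3 5 12 p := by
    intro p hp
    by_cases h4 : p = 3
    · rw [h4]
      exact w_half3 (by omega)
    · exact w_ge4 (by omega) (by omega)
  have g3' : 1 ≤ red (fun t => x (Sum.inl (Sum.inr (Sum.inl t)))) := g3
  have g4' : 1 ≤ red (fun t => x (Sum.inr (Sum.inr (Sum.inl t)))) := g4
  have h5 := h3 _ (le_of_le_of_eq (show 3 ≤ red (fun t => x (Sum.inl (Sum.inr (Sum.inl t)))) +
    red (fun t => x (Sum.inr (Sum.inr (Sum.inl t)))) + red (fun t => n (Sum.inl t)) by omega)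
    (r (Sum.elim (fun b => x (eM C (Fin 4) (Fin 4) (Fin (H - 6)) (Fin 4) (Fin (H - 2))
      (Sum.inr b))) n)).symm)
  exact h5

theorem node_arith {p a e q n1 n2 : ℕ} (hp : p = 3)
    (h1 : 3 ≤ p + a + (e + q) ∧ p + a + (e + q) ≤ 5)
    (h2 : 3 ≤ a + q + (n1 + n2) ∧ a + q + (n1 + n2) ≤ 5)
    (h3 : 3 ≤ p + e + (n1 + n2) ∧ p + e + (n1 + n2) ≤ 5) : e = 0 := by
  omega

/-- three red edges in an alive set of `H + 2` edges -/
theorem W_mid {H : ℕ} (hH : 12 ≤ H) : W (2 * H) 3 5 (H + 2) 3 := by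
  intro F R _ _ hF hR T hT
  have cC : Nat.card (Fin (H - 2)) = H - 2 := Nat.card_fin _
  have c4 : Nat.card (Fin 4) = 4 := Nat.card_fin _
  have cQ : Nat.card (Fin 4 ⊕ (Fin 4 ⊕ Fin (H - 6))) = H + 2 := by
    simp only [Nat.card_sum, Nat.card_fin]; omega
  have cQ' : Nat.card (Fin 4 ⊕ Fin (H - 2)) = H + 2 := by
    simp only [Nat.card_sum, Nat.card_fin]; omega
  have cZ : Nat.card (Fin 4 ⊕ Fin (H - 6)) = H - 2 := by
    simp only [Nat.card_sum, Nat.card_fin]; omega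
  have h1 : Nat.card (Fin (H - 2) ⊕ (Fin 4 ⊕ (Fin 4 ⊕ Fin (H - 6)))) = 2 * H := by
    rw [Nat.card_sum, cC, cQ]; omega
  have h2 : Nat.card (Fin (H - 2) ⊕ (Fin 4 ⊕ Fin (H - 2))) = 2 * H := by
    rw [Nat.card_sum, cC, cQ']; omega
  have h3 : Nat.card (F ⊕ Fin (H - 2)) = 2 * H := by
    rw [Nat.card_sum, hF, cC]; omega
  have hRc : Nat.card R = Nat.card (Fin (H - 2) ⊕ (Fin (H - 2) ⊕ (Fin 4 ⊕ Fin (H - 2)))) := by
    rw [Nat.card_sum, h2, cC]; omega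
  -- `Q_3`, `Q_4`, `Q_0`, `Q_(-1)` have the type `Fin 4 ⊕ Fin (H - 2)`
  have x5 : Fo4 (2 * H) 3 5 F (Fin (H - 2)) (Fin (H - 2)) (Fin 4 ⊕ Fin (H - 2))
      (fun p _ _ _ => p ∉ T) :=
    ((kill_rest hRc hT).transport (Equiv.sumAssoc F (Fin (H - 2))
      (Fin (H - 2) ⊕ (Fin 4 ⊕ Fin (H - 2)))).symm).mono fun _ hx => not_not.mp hx
  have b4 : Fo4 (2 * H) 3 5 (Fin (H - 2)) (Fin 4 ⊕ Fin (H - 2)) (Fin (H - 2)) (Fin 4 ⊕ Fin (H - 2))
      (fun _ _ _ _ => True) := Fo.base _ _ _ _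
  have b3 := vertB hH (Fin (H - 2)) (Fin 4 ⊕ Fin (H - 2)) (Fin 4) (Fin (H - 2)) cC cQ' c4 cC
  have b2 := vertM hH (Fin (H - 2)) cC
  have b1 := vertF hH (Fin (H - 2)) (Fin 4 ⊕ Fin (H - 2)) (Fin 4) (Fin 4 ⊕ Fin (H - 6)) cC cQ' c4 cZ
  have x4 := (Fo4.node h2 h3 h2 b4.info x5.info).perm
  have x3 := (Fo4.node h2 h3 h2 b3.info x4.info).perm
  have x2 := (Fo4.node h1 h3 h2 b2.info x3.info).perm
  have x1 := (Fo4.node h2 h3 h1 b1.info x2.info).perm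
  have x0 := (Fo4.node h2 h3 h2 b4.info x1.info).perm
  have x' : Fo4 (2 * H) 3 5 F (Fin (H - 2)) (Fin (H - 2)) (Fin 4 ⊕ Fin (H - 2))
      (fun p _ _ _ => ¬ (p ∈ T ∨ red p = 3)) := by
    refine x0.info.weak ?_
    rintro p cm c0 qm ⟨⟨c1, q0, ⟨-, s0⟩, ⟨c2, q1, ⟨t1, s1⟩, ⟨c3, q2, ⟨t2, s2⟩, ⟨c4, q3, ⟨t3, s3⟩,
      ⟨c5, q4, ⟨-, s4⟩, ⟨hp, k5⟩⟩, k4⟩, k3⟩, k2⟩, k1⟩, k0⟩
    rintro (hpT | hp3)
    · exact hp hpT
    · have e0 := node_arith hp3 k0 s0 k1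
      have e1 := node_arith hp3 k1 s1 k2
      have e2 := node_arith hp3 k2 s2 k3
      have e3 := node_arith hp3 k3 s3 k4
      have e4 := node_arith hp3 k4 s4 k5
      exact t2 e1 e3 (t1 e0 e2) (t3 e2 e4)
  exact kill_rest (T := {y | y ∈ T ∨ red y = 3}) hRc.symm ((Kill.transport x'
    (Equiv.sumAssoc F (Fin (H - 2)) (Fin (H - 2) ⊕ (Fin 4 ⊕ Fin (H - 2))))).mono
    fun _ hx hn => hn hx)

theorem W_22 {H : ℕ} (hH : 12 ≤ H) : W (2 * H) 3 5 2 2 := by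
  refine W_R2 (i := H) (j := H) (by omega) (by omega) (by omega) fun a b ha hb => ?_
  have h5 : ∀ c, 1 ≤ c → W (2 * H) 3 5 (2 + H) (2 + c) := by
    intro c hc
    by_cases h1 : c = 1
    · rw [h1, show 2 + H = H + 2 by omega]
      exact W_mid hH
    · exact w_ge4 (by omega) (by omega)
  by_cases h1 : a = 0
  · by_cases h2 : b = 0
    · right; right
      rw [h1, h2, show H + H = 2 * H by omega]
      exact w_K0
    · right; left
      exact h5 b (by omega)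
  · left
    exact h5 a (by omega)

theorem W_down {H : ℕ} (hH : 12 ≤ H) : ∀ d L, L + d = 2 * H → W (2 * H) 3 5 L 0 := by
  intro d
  induction d with
  | zero =>
    intro L hL
    rw [show L = 2 * H by omega]
    exact w_K0
  | succ d ih =>
    intro L hL
    refine W_R2 (i := 1) (j := 1) (by omega) (by omega) (by omega) fun a b ha hb => ?_
    have h1 := ih (L + 1) (by omega)
    by_cases ha0 : a = 0
    · left
      rw [ha0]
      exact h1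
    · by_cases hb0 : b = 0
      · right; left
        rw [hb0]
        exact h1
      · right; right
        rw [show a = 1 by omega, show b = 1 by omega]
        exact W_22 hH

/-- Everything is killable. -/
theorem W_zero {H : ℕ} (hH : 12 ≤ H) : W (2 * H) 3 5 0 0 :=
  W_down hH (2 * H) 0 (by omega)


/-- `4 H ↦ (3, 4 H - 5)` fails for `H ≥ 12`: the sum of the parts is `4 H - 2`. -/
theorem not_arrow {H l' r : ℕ} (hH : 12 ≤ H) (hl : 5 + l' = 4 * H) (ks : Fin r → ℕ)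
    (J : Finset (Fin r)) (hJ : ∑ i ∈ J, ks i = 3) (hJ' : ∑ i ∈ Jᶜ, ks i = l') :
    ¬ Pool.Agent.Lib.MP_21a058_co.Arrow (4 * H) ks := by
  have h := not_arrow_of_W (K := 2 * H) (by omega) (by omega) (W_zero hH) ks J hJ hJ'
  rwa [show 2 * (2 * H) = 4 * H by omega] at h

/-- `f(3, b) ≥ b + 6` for `b = 4 H - 5`, `H ≥ 12`. -/
theorem three {H b k : ℕ} (hH : 12 ≤ H) (hb : b + 5 = 4 * H)
    (h : Pool.Agent.Lib.MP_21a058_co.Arrow k ![3, b]) : b + 6 ≤ k := by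
  by_contra hk
  refine not_arrow (l' := b) hH (by omega) ![3, b] {0} (by simp) ?_
    (Pool.Agent.Lib.MP_21a058_co.arrow_mono (show k ≤ 4 * H by omega) h)
  have : ({0} : Finset (Fin 2))ᶜ = {1} := by decide
  rw [this]
  simp

end Pool.Agent.Lib.MP_21a058_co.Slack3.Three62
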