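import Pool.Agent.Lib.MP_21a058_co.Slack3.Chain2
import Pool.Agent.Lib.MP_21a058_co.Slack3.OddKf

/-! Some parts have sum 3 and the sum `S` of all parts is large: `k ≥ S + 3`, whatever the parity
of `S`. -/

set_option autoImplicit false

namespace Pool.Agent.Lib.MP_21a058_co.Slack3

open Finset Pool.Agent.Lib.MP_21a058_co

theorem three_all (k r : ℕ) (ks : Fin r → ℕ) (J : Finset (Fin r)) (hJ : ∑ i ∈ J, ks i = 3)
    (hS : (∑ i, ks i) % 4 = 2 ∧ 46 ≤ ∑ i, ks i ∨ (∑ i, ks i) % 2 = 0 ∧ 60 ≤ ∑ i, ks i ∨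
      (∑ i, ks i) % 4 = 1 ∧ 73 ≤ ∑ i, ks i ∨ 86 ≤ ∑ i, ks i)
    (h : Arrow k ks) : ∑ i, ks i + 3 ≤ k := by
  by_contra hlt
  push Not at hlt
  have hs : ∑ i ∈ J, ks i + ∑ i ∈ Jᶜ, ks i = ∑ i, ks i := sum_add_sum_compl _ _
  rcases Nat.mod_two_eq_zero_or_one (∑ i, ks i) with h0 | h0
  · refine three_cut_all (K := (∑ i, ks i + 2) / 2) (l' := ∑ i ∈ Jᶜ, ks i) ?_ ?_ ks J hJ rfl
      (arrow_mono ?_ h)
    · omega
    · omega
    · omega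
  · refine OddK.three_odd (h := (∑ i, ks i + 1) / 2) (l' := ∑ i ∈ Jᶜ, ks i) ?_ ?_ ks J hJ rfl
      (arrow_mono ?_ h)
    · unfold OddK.Ok
      omega
    · omega
    · omega

end Pool.Agent.Lib.MP_21a058_co.Slack3
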